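import Pool.Agent.DEU.CDefs

/-!
# DEU.Kloos: Kloosterman sums and the congruence `s² - ts + n ≡ 0 (mod a)`
-/

namespace Pool.Agent.DEU

open Finset Real

private lemma kloos_ee (a : ℕ) [NeZero a] (m : ℤ) :
    ee ((m : ℝ) / a) = ZMod.stdAddChar (m : ZMod a) := by
  rw [ZMod.stdAddChar_coe]
  unfold ee
  push_cast
  congr 1
  ring

private lemma kloos_sum_cop {a : ℕ} [NeZero a] (F : ZMod a → ℂ) :
    ∑ s ∈ cop a, F (s : ZMod a) = ∑ u : (ZMod a)ˣ, F (u : ZMod a) := by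
  symm
  refine Finset.sum_nbij' (fun u : (ZMod a)ˣ => (u : ZMod a).val)
    (fun s : ℕ => if h : Nat.Coprime s a then ZMod.unitOfCoprime s h else 1) ?_ ?_ ?_ ?_ ?_
  · intro u _
    unfold cop
    rw [mem_filter, mem_range]
    exact ⟨ZMod.val_lt _, ZMod.val_coe_unit_coprime u⟩
  · intro s _
    exact mem_univ _
  · intro u _
    have h : Nat.Coprime (u : ZMod a).val a := ZMod.val_coe_unit_coprime u
    rw [dif_pos h]
    apply Units.ext
    rw [ZMod.coe_unitOfCoprime, ZMod.natCast_zmod_val]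
  · intro s hs
    unfold cop at hs
    rw [mem_filter, mem_range] at hs
    rw [dif_pos hs.2, ZMod.coe_unitOfCoprime, ZMod.val_natCast_of_lt hs.1]
  · intro u _
    rw [ZMod.natCast_zmod_val]

private lemma kloos_inv {a : ℕ} [NeZero a] (s : ℕ) : ((inv a s : ℕ) : ZMod a) = (s : ZMod a)⁻¹ := by
  unfold inv
  rw [ZMod.natCast_zmod_val]

/-- The Kloosterman sum as a sum over units. -/
private lemma kloos_units {a : ℕ} [NeZero a] (h n : ℕ) :
    KK a h n = ∑ u : (ZMod a)ˣ,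
      ZMod.stdAddChar ((h : ZMod a) * ((u : ZMod a) + (n : ZMod a) * ((u⁻¹ : (ZMod a)ˣ) : ZMod a))) := by
  have h1 := kloos_sum_cop (a := a)
    (fun x => ZMod.stdAddChar ((h : ZMod a) * (x + (n : ZMod a) * x⁻¹)))
  have h2 : ∀ u : (ZMod a)ˣ, ZMod.stdAddChar ((h : ZMod a) * ((u : ZMod a) + (n : ZMod a) * (u : ZMod a)⁻¹)) =
      ZMod.stdAddChar ((h : ZMod a) * ((u : ZMod a) + (n : ZMod a) * ((u⁻¹ : (ZMod a)ˣ) : ZMod a))) := by
    intro u
    rw [ZMod.inv_coe_unit]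
  rw [Finset.sum_congr rfl (fun u _ => h2 u)] at h1
  rw [← h1]
  unfold KK
  refine Finset.sum_congr rfl fun s _ => ?_
  have h3 := kloos_ee a ((h : ℤ) * s + h * n * inv a s)
  push_cast at h3
  rw [h3, kloos_inv]
  congr 1
  ring

theorem rho_expand {a n : ℕ} (ha : 1 ≤ a) (hn : Nat.Coprime n a) (t : ℤ) :
    (rho a t n : ℂ) = (a : ℂ)⁻¹ * ∑ h ∈ range a, KK a h n * ee ((h : ℝ) * t / a) := by
  have : NeZero a := ⟨by omega⟩
  classical
  -- the right hand side counts units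
  have h1 : ∀ h : ℕ, KK a h n * ee ((h : ℝ) * t / a) = ∑ u : (ZMod a)ˣ,
      ZMod.stdAddChar ((h : ZMod a) *
        ((u : ZMod a) + (n : ZMod a) * ((u⁻¹ : (ZMod a)ˣ) : ZMod a) + (t : ZMod a))) := by
    intro h
    have h3 := kloos_ee a ((h : ℤ) * t)
    push_cast at h3
    rw [h3, kloos_units, Finset.sum_mul]
    refine Finset.sum_congr rfl fun u _ => ?_
    rw [← AddChar.map_add_eq_mul]
    congr 1
    ring
  have h2 : ∑ h ∈ range a, KK a h n * ee ((h : ℝ) * t / a) = ∑ u : (ZMod a)ˣ, ∑ x : ZMod a,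
      ZMod.stdAddChar (x * ((u : ZMod a) + (n : ZMod a) * ((u⁻¹ : (ZMod a)ˣ) : ZMod a) + (t : ZMod a))) := by
    rw [Finset.sum_comm, Finset.sum_congr rfl (fun h _ => h1 h)]
    symm
    refine Finset.sum_nbij' (fun x : ZMod a => x.val) (fun h : ℕ => (h : ZMod a)) ?_ ?_ ?_ ?_ ?_
    · intro x _; exact mem_range.mpr (ZMod.val_lt _)
    · intro x _; exact mem_univ _
    · intro x _; exact ZMod.natCast_zmod_val x
    · intro x hx; exact ZMod.val_natCast_of_lt (mem_range.mp hx)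
    · intro x _
      rw [ZMod.natCast_zmod_val]
  rw [h2]
  simp_rw [AddChar.sum_mulShift _ (ZMod.isPrimitive_stdAddChar a), ZMod.card]
  have h4 : ∑ u : (ZMod a)ˣ, ((if (u : ZMod a) + (n : ZMod a) * ((u⁻¹ : (ZMod a)ˣ) : ZMod a) + (t : ZMod a) = 0
      then a else 0 : ℕ) : ℂ) = (a : ℂ) *
      ((univ.filter fun u : (ZMod a)ˣ =>
        (u : ZMod a) + (n : ZMod a) * ((u⁻¹ : (ZMod a)ˣ) : ZMod a) + (t : ZMod a) = 0).card : ℂ) := by
    rw [← Nat.cast_sum, ← Finset.sum_filter, Finset.sum_const, smul_eq_mul]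
    push_cast
    ring
  rw [h4, ← mul_assoc, inv_mul_cancel₀ (by exact_mod_cast (by omega : a ≠ 0)), one_mul]
  congr 1
  -- the bijection
  unfold rho
  symm
  refine Finset.card_nbij' (fun u : (ZMod a)ˣ => ((-(u : ZMod a)).val : ℕ))
    (fun s : ℕ => if h : Nat.Coprime s a then -ZMod.unitOfCoprime s h else 1) ?_ ?_ ?_ ?_
  · intro u hu
    simp only [coe_filter, mem_univ, true_and, Set.mem_ofPred_eq] at hu
    simp only [coe_filter, mem_range, Set.mem_ofPred_eq]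
    refine ⟨ZMod.val_lt _, ?_⟩
    rw [← ZMod.intCast_zmod_eq_zero_iff_dvd]
    push_cast
    rw [ZMod.natCast_zmod_val]
    have h5 : (u : ZMod a) * ((u⁻¹ : (ZMod a)ˣ) : ZMod a) = 1 := Units.mul_inv u
    calc (-(u : ZMod a)) ^ 2 - t * (-(u : ZMod a)) + n
        = (u : ZMod a) * ((u : ZMod a) + (n : ZMod a) * ((u⁻¹ : (ZMod a)ˣ) : ZMod a) + (t : ZMod a)) +
          n * (1 - (u : ZMod a) * ((u⁻¹ : (ZMod a)ˣ) : ZMod a)) := by ring
      _ = 0 := by rw [hu, h5]; ring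
  · intro s hs
    simp only [coe_filter, mem_range, Set.mem_ofPred_eq] at hs
    simp only [coe_filter, mem_univ, true_and, Set.mem_ofPred_eq]
    obtain ⟨h5, h6⟩ := hs
    rw [← ZMod.intCast_zmod_eq_zero_iff_dvd] at h6
    push_cast at h6
    have h7 : Nat.Coprime s a := by
      have h8 : IsUnit (s : ZMod a) := by
        have h9 : (s : ZMod a) * (t - s) = n := by linear_combination -h6
        have h10 : IsUnit ((n : ℕ) : ZMod a) := (ZMod.isUnit_iff_coprime n a).mpr hn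
        rw [← h9] at h10
        exact isUnit_of_mul_isUnit_left h10
      exact (ZMod.isUnit_iff_coprime s a).mp h8
    rw [dif_pos h7]
    set v := ZMod.unitOfCoprime s h7 with hv
    have hvs : (v : ZMod a) = s := ZMod.coe_unitOfCoprime s h7
    have h8 : (v : ZMod a) * ((v⁻¹ : (ZMod a)ˣ) : ZMod a) = 1 := Units.mul_inv v
    rw [Units.val_neg, inv_neg, Units.val_neg]
    rw [← hvs] at h6
    have h9 : (v : ZMod a) * (-(v : ZMod a) + n * -((v⁻¹ : (ZMod a)ˣ) : ZMod a) + t) = 0 := by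
      linear_combination -h6 + (-n : ZMod a) * h8
    have h10 := congrArg (fun x => ((v⁻¹ : (ZMod a)ˣ) : ZMod a) * x) h9
    simp only [mul_zero] at h10
    rw [← mul_assoc, mul_comm ((v⁻¹ : (ZMod a)ˣ) : ZMod a), h8, one_mul] at h10
    exact h10
  · intro u hu
    have h5 : Nat.Coprime (-(u : ZMod a)).val a := by
      rw [← Units.val_neg]
      exact ZMod.val_coe_unit_coprime (-u)
    dsimp only
    rw [dif_pos h5]
    apply Units.ext
    rw [Units.val_neg, ZMod.coe_unitOfCoprime, ZMod.natCast_zmod_val, neg_neg]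
  · intro s hs
    simp only [coe_filter, mem_range, Set.mem_ofPred_eq] at hs
    obtain ⟨h5, h6⟩ := hs
    rw [← ZMod.intCast_zmod_eq_zero_iff_dvd] at h6
    push_cast at h6
    have h7 : Nat.Coprime s a := by
      have h8 : IsUnit (s : ZMod a) := by
        have h9 : (s : ZMod a) * (t - s) = n := by linear_combination -h6
        have h10 : IsUnit ((n : ℕ) : ZMod a) := (ZMod.isUnit_iff_coprime n a).mpr hn
        rw [← h9] at h10
        exact isUnit_of_mul_isUnit_left h10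
      exact (ZMod.isUnit_iff_coprime s a).mp h8
    dsimp only
    rw [dif_pos h7]
    rw [Units.val_neg, neg_neg, ZMod.coe_unitOfCoprime, ZMod.val_natCast_of_lt h5]

theorem KK_zero {a n : ℕ} (ha : 1 ≤ a) : KK a 0 n = (Nat.totient a : ℂ) := by
  have : NeZero a := ⟨by omega⟩
  rw [kloos_units]
  simp [ZMod.card_units_eq_totient]

/-- Sum over a fibre. -/
private lemma kloos_fiber {g a : ℕ} [NeZero a] [NeZero (g * a)] (F : (ZMod a)ˣ → ℂ) :
    ∑ u : (ZMod (g * a))ˣ, F (ZMod.unitsMap (Dvd.intro_left g rfl) u) =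
      (Nat.totient (g * a) : ℂ) / (Nat.totient a : ℂ) * ∑ v : (ZMod a)ˣ, F v := by
  classical
  set f := ZMod.unitsMap (Dvd.intro_left g rfl : a ∣ g * a) with hf
  have hsurj : Function.Surjective f := ZMod.unitsMap_surjective _
  have h1 : ∀ v : (ZMod a)ˣ, (univ.filter fun u => f u = v).card =
      (univ.filter fun u => f u = 1).card := by
    intro v
    exact MonoidHom.card_fiber_eq_of_mem_range f (hsurj v) (hsurj 1)
  have h2 : Nat.totient (g * a) = Nat.totient a * (univ.filter fun u => f u = 1).card := by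
    have h3 := Finset.card_eq_sum_card_fiberwise (s := (univ : Finset (ZMod (g * a))ˣ))
      (t := (univ : Finset (ZMod a)ˣ)) (f := f) (fun _ _ => mem_univ _)
    rw [Finset.sum_congr rfl (fun v _ => h1 v), Finset.sum_const, smul_eq_mul,
      Finset.card_univ, Finset.card_univ, ZMod.card_units_eq_totient,
      ZMod.card_units_eq_totient] at h3
    exact h3
  have h4 : (Nat.totient a : ℂ) ≠ 0 := by
    have : 0 < Nat.totient a := Nat.totient_pos.mpr (Nat.pos_of_ne_zero (NeZero.ne a))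
    exact_mod_cast this.ne'
  rw [← Finset.sum_fiberwise (s := (univ : Finset (ZMod (g * a))ˣ)) (g := f)]
  rw [h2, Finset.mul_sum]
  refine Finset.sum_congr rfl fun v _ => ?_
  rw [Finset.sum_congr rfl (g := fun _ => F v) (fun u hu => by
    rw [mem_filter] at hu; rw [hu.2]), Finset.sum_const, h1 v, nsmul_eq_mul]
  push_cast
  field_simp

theorem KK_mul {g a h n : ℕ} (hg : 1 ≤ g) (ha : 1 ≤ a) :
    KK (g * a) (g * h) n = (Nat.totient (g * a) : ℂ) / (Nat.totient a : ℂ) * KK a h n := by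
  have : NeZero a := ⟨by omega⟩
  have : NeZero (g * a) := ⟨by positivity⟩
  rw [kloos_units, kloos_units, ← kloos_fiber]
  refine Finset.sum_congr rfl fun u _ => ?_
  set U : ZMod (g * a) := (u : ZMod (g * a)) with hU
  set V : ZMod (g * a) := ((u⁻¹ : (ZMod (g * a))ˣ) : ZMod (g * a)) with hV
  have hdvd : a ∣ g * a := Dvd.intro_left g rfl
  have h1 : ((g * h : ℕ) : ZMod (g * a)) * (U + n * V) =
      (((g : ℤ) * (h * ((U.val : ℤ) + n * V.val)) : ℤ) : ZMod (g * a)) := by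
    push_cast
    rw [ZMod.natCast_zmod_val, ZMod.natCast_zmod_val]
    ring
  have h2 : (h : ZMod a) * (((ZMod.unitsMap hdvd u : (ZMod a)ˣ) : ZMod a) +
      n * (((ZMod.unitsMap hdvd u)⁻¹ : (ZMod a)ˣ) : ZMod a)) =
      (((h * ((U.val : ℤ) + n * V.val)) : ℤ) : ZMod a) := by
    rw [← map_inv, ZMod.unitsMap_val, ZMod.unitsMap_val]
    push_cast
    rw [← ZMod.cast_eq_val, ← ZMod.cast_eq_val]
  rw [h1, h2, ← kloos_ee, ← kloos_ee]
  congr 1
  have hg' : (g : ℝ) ≠ 0 := by exact_mod_cast (by omega : g ≠ 0)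
  have ha' : (a : ℝ) ≠ 0 := by exact_mod_cast (by omega : a ≠ 0)
  push_cast
  field_simp

theorem KK_dual {a h n : ℕ} (ha : 1 ≤ a) (hh : Nat.Coprime h a) :
    KK a h n = ∑ r ∈ cop a, ee ((n : ℝ) * r / a) * ee ((h : ℝ) ^ 2 * inv a r / a) := by
  have : NeZero a := ⟨by omega⟩
  set v := ZMod.unitOfCoprime h hh with hv
  have hvh : (v : ZMod a) = h := ZMod.coe_unitOfCoprime h hh
  have h1 : ∑ r ∈ cop a, ee ((n : ℝ) * r / a) * ee ((h : ℝ) ^ 2 * inv a r / a) =
      ∑ r ∈ cop a, ZMod.stdAddChar ((n : ZMod a) * (r : ZMod a) +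
        (h : ZMod a) ^ 2 * (r : ZMod a)⁻¹) := by
    refine Finset.sum_congr rfl fun r _ => ?_
    have h3 := kloos_ee a ((n : ℤ) * r)
    have h4 := kloos_ee a ((h : ℤ) ^ 2 * inv a r)
    push_cast at h3 h4
    rw [h3, h4, kloos_inv, AddChar.map_add_eq_mul]
  rw [h1, kloos_sum_cop (fun x => ZMod.stdAddChar ((n : ZMod a) * x + (h : ZMod a) ^ 2 * x⁻¹)),
    kloos_units]
  refine Fintype.sum_equiv ((Equiv.inv _).trans (Equiv.mulLeft v)) _ _ fun u => ?_
  congr 1
  simp only [Equiv.trans_apply, Equiv.inv_apply, Equiv.coe_mulLeft]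
  rw [ZMod.inv_coe_unit, mul_inv, inv_inv, Units.val_mul, Units.val_mul, hvh]
  have h5 : (h : ZMod a) * ((v⁻¹ : (ZMod a)ˣ) : ZMod a) = 1 := by
    rw [← hvh]; exact Units.mul_inv v
  linear_combination (-(h : ZMod a) * (u : ZMod a)) * h5

theorem KK_periodic {a h n : ℕ} (ha : 1 ≤ a) : KK a h (n + a) = KK a h n := by
  have : NeZero a := ⟨by omega⟩
  rw [kloos_units, kloos_units]
  refine Finset.sum_congr rfl fun u _ => ?_
  congr 1
  push_cast
  rw [ZMod.natCast_self]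
  ring

theorem KK_second {a h : ℕ} (ha : 1 ≤ a) (hh : Nat.Coprime h a) :
    ∑ n ∈ range a, ‖KK a h n‖ ^ 2 = (a : ℝ) * Nat.totient a := by
  have : NeZero a := ⟨by omega⟩
  classical
  set ψ := (ZMod.stdAddChar (N := a)) with hψ
  -- the dual form
  have h1 : ∀ n : ℕ, KK a h n = ∑ r : (ZMod a)ˣ, ψ ((n : ZMod a) * (r : ZMod a)) *
      ψ ((h : ZMod a) ^ 2 * (r : ZMod a)⁻¹) := by
    intro n
    rw [KK_dual ha hh, ← kloos_sum_cop (fun x => ψ ((n : ZMod a) * x) *
      ψ ((h : ZMod a) ^ 2 * x⁻¹))]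
    refine Finset.sum_congr rfl fun r _ => ?_
    have h3 := kloos_ee a ((n : ℤ) * r)
    have h4 := kloos_ee a ((h : ℤ) ^ 2 * inv a r)
    push_cast at h3 h4
    rw [h3, h4, kloos_inv]
  have hconj : ∀ x : ZMod a, (starRingEnd ℂ) (ψ x) = ψ (-x) := by
    intro x
    rw [AddChar.map_neg_eq_inv, Complex.inv_def]
    have h2 : ‖ψ x‖ = 1 := AddChar.norm_apply ψ x
    rw [Complex.normSq_eq_norm_sq, h2]
    simp
  have h2 : ∀ n : ℕ, ((‖KK a h n‖ ^ 2 : ℝ) : ℂ) = ∑ r : (ZMod a)ˣ, ∑ r' : (ZMod a)ˣ,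
      ψ ((n : ZMod a) * ((r : ZMod a) - (r' : ZMod a))) *
      ψ ((h : ZMod a) ^ 2 * ((r : ZMod a)⁻¹ - (r' : ZMod a)⁻¹)) := by
    intro n
    have h3 : ((‖KK a h n‖ ^ 2 : ℝ) : ℂ) = KK a h n * (starRingEnd ℂ) (KK a h n) := by
      rw [Complex.mul_conj, Complex.normSq_eq_norm_sq]
    rw [h3, h1 n, map_sum, Finset.sum_mul_sum]
    refine Finset.sum_congr rfl fun r _ => Finset.sum_congr rfl fun r' _ => ?_
    rw [map_mul (starRingEnd ℂ), hconj, hconj, mul_sub, sub_eq_add_neg, AddChar.map_add_eq_mul, mul_sub,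
      sub_eq_add_neg, AddChar.map_add_eq_mul]
    ring
  have h3 : ((∑ n ∈ range a, ‖KK a h n‖ ^ 2 : ℝ) : ℂ) = ((a : ℝ) * Nat.totient a : ℝ) := by
    rw [Complex.ofReal_sum, Finset.sum_congr rfl (fun n _ => h2 n)]
    rw [Finset.sum_comm]
    have h4 : ∀ r : (ZMod a)ˣ, ∑ n ∈ range a, ∑ r' : (ZMod a)ˣ,
        ψ ((n : ZMod a) * ((r : ZMod a) - (r' : ZMod a))) *
        ψ ((h : ZMod a) ^ 2 * ((r : ZMod a)⁻¹ - (r' : ZMod a)⁻¹)) = (a : ℂ) := by
      intro r
      rw [Finset.sum_comm]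
      have h5 : ∀ r' : (ZMod a)ˣ, ∑ n ∈ range a,
          ψ ((n : ZMod a) * ((r : ZMod a) - (r' : ZMod a))) *
          ψ ((h : ZMod a) ^ 2 * ((r : ZMod a)⁻¹ - (r' : ZMod a)⁻¹)) =
          if r = r' then (a : ℂ) else 0 := by
        intro r'
        rw [← Finset.sum_mul]
        have h6 : ∑ n ∈ range a, ψ ((n : ZMod a) * ((r : ZMod a) - (r' : ZMod a))) =
            ∑ x : ZMod a, ψ (x * ((r : ZMod a) - (r' : ZMod a))) := by
          symm
          refine Finset.sum_nbij' (fun x : ZMod a => x.val) (fun m : ℕ => (m : ZMod a))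
            ?_ ?_ ?_ ?_ ?_
          · intro x _; exact mem_range.mpr (ZMod.val_lt _)
          · intro x _; exact mem_univ _
          · intro x _; exact ZMod.natCast_zmod_val x
          · intro x hx; exact ZMod.val_natCast_of_lt (mem_range.mp hx)
          · intro x _
            rw [ZMod.natCast_zmod_val]
        rw [h6, AddChar.sum_mulShift _ (ZMod.isPrimitive_stdAddChar a), ZMod.card]
        by_cases h7 : r = r'
        · subst h7
          simp
        · have h8 : (r : ZMod a) - (r' : ZMod a) ≠ 0 := by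
            intro h9
            exact h7 (Units.ext (sub_eq_zero.mp h9))
          simp [h7, h8]
      rw [Finset.sum_congr rfl (fun r' _ => h5 r')]
      simp
    rw [Finset.sum_congr rfl (fun r _ => h4 r), Finset.sum_const, Finset.card_univ,
      ZMod.card_units_eq_totient, nsmul_eq_mul]
    push_cast
    ring
  exact_mod_cast h3

private lemma kloos_period {a : ℕ} (f : ℕ → ℝ) (hf : ∀ n, f (n + a) = f n) (X : ℕ) :
    ∑ n ∈ Ico X (X + a), f n = ∑ n ∈ range a, f n := by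
  induction X with
  | zero => simp
  | succ X ih =>
    rw [← ih]
    rcases Nat.eq_zero_or_pos a with rfl | ha
    · simp
    have h1 : ∑ n ∈ Ico X (X + a), f n = f X + ∑ n ∈ Ico (X + 1) (X + a), f n :=
      Finset.sum_eq_sum_Ico_succ_bot (by omega) f
    have h2 : ∑ n ∈ Ico (X + 1) (X + 1 + a), f n = ∑ n ∈ Ico (X + 1) (X + a), f n + f (X + a) := by
      have h3 : X + 1 + a = (X + a) + 1 := by ring
      rw [h3, Finset.sum_Ico_succ_top (by omega)]
    rw [h1, h2, hf X]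
    ring

private lemma kloos_periods {a : ℕ} (f : ℕ → ℝ) (hf : ∀ n, f (n + a) = f n) (X m : ℕ) :
    ∑ n ∈ Ico X (X + m * a), f n = m * ∑ n ∈ range a, f n := by
  induction m with
  | zero => simp
  | succ m ih =>
    have h1 : X + (m + 1) * a = (X + m * a) + a := by ring
    rw [h1, ← Finset.sum_Ico_consecutive f (Nat.le_add_right X (m * a))
      (Nat.le_add_right (X + m * a) a), ih, kloos_period f hf]
    push_cast
    ring

/-- The mean square over an interval. -/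
theorem KK_mean {a h X : ℕ} (ha : 1 ≤ a) (hh : Nat.Coprime h a) :
    ∑ n ∈ Ioc X (2 * X), ‖KK a h n‖ ^ 2 ≤ ((X : ℝ) + a) * a := by
  have hf : ∀ n, ‖KK a h (n + a)‖ ^ 2 = ‖KK a h n‖ ^ 2 := fun n => by rw [KK_periodic ha]
  set m := X / a + 1 with hm
  have hXm : X ≤ m * a := by
    have h1 := Nat.div_add_mod X a
    have h2 := Nat.mod_lt X (by omega : 0 < a)
    rw [hm, add_mul, one_mul, mul_comm (X / a) a]
    omega
  have h1 : ∑ n ∈ Ioc X (2 * X), ‖KK a h n‖ ^ 2 ≤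
      ∑ n ∈ Ico (X + 1) (X + 1 + m * a), ‖KK a h n‖ ^ 2 := by
    apply Finset.sum_le_sum_of_subset_of_nonneg
    · intro n hn
      rw [mem_Ioc] at hn
      rw [mem_Ico]
      omega
    · intro n _ _
      positivity
  have h2 := kloos_periods (fun n => ‖KK a h n‖ ^ 2) hf (X + 1) m
  rw [KK_second ha hh] at h2
  refine h1.trans (h2.le.trans ?_)
  have h3 : ((m : ℕ) : ℝ) * a ≤ X + a := by
    have h4 : m * a ≤ X + a := by
      rw [hm, add_mul, one_mul]
      exact Nat.add_le_add_right (Nat.div_mul_le_self X a) a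
    exact_mod_cast h4
  have h4 : (Nat.totient a : ℝ) ≤ a := by exact_mod_cast Nat.totient_le a
  have h5 : (0 : ℝ) ≤ Nat.totient a := by positivity
  calc (m : ℝ) * ((a : ℝ) * Nat.totient a) = ((m : ℝ) * a) * Nat.totient a := by ring
    _ ≤ ((X : ℝ) + a) * Nat.totient a := by gcongr
    _ ≤ ((X : ℝ) + a) * a := by gcongr

/-- The change of variables `h'/A = h/a` in lowest terms. -/
private lemma kloos_reindex {B : ℕ} (F : ℕ → ℕ → ℂ) :
    ∑ A ∈ Icc 1 B, ∑ k ∈ (range A).filter (fun k => k ≠ 0), F A k =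
      ∑ a ∈ Icc 2 B, ∑ g ∈ Icc 1 (B / a), ∑ h ∈ cop a, F (g * a) (g * h) := by
  have h1 : ∑ a ∈ Icc 2 B, ∑ g ∈ Icc 1 (B / a), ∑ h ∈ cop a, F (g * a) (g * h) =
      ∑ a ∈ Icc 2 B, ∑ x ∈ Icc 1 (B / a) ×ˢ cop a, F (x.1 * a) (x.1 * x.2) :=
    Finset.sum_congr rfl fun a _ => by rw [Finset.sum_product]
  rw [h1, Finset.sum_sigma', Finset.sum_sigma']
  refine Finset.sum_bij'
    (fun (x : Σ _ : ℕ, ℕ) _ => (⟨x.1 / Nat.gcd x.1 x.2, (Nat.gcd x.1 x.2, x.2 / Nat.gcd x.1 x.2)⟩ :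
      Σ _ : ℕ, ℕ × ℕ))
    (fun (y : Σ _ : ℕ, ℕ × ℕ) _ => (⟨y.2.1 * y.1, y.2.1 * y.2.2⟩ : Σ _ : ℕ, ℕ)) ?_ ?_ ?_ ?_ ?_
  · rintro ⟨A, k⟩ hx
    simp only [mem_sigma, mem_Icc, mem_filter, mem_range] at hx
    obtain ⟨⟨hA1, hA2⟩, hk, hk0⟩ := hx
    have hd : 0 < Nat.gcd A k := Nat.gcd_pos_of_pos_left _ hA1
    have hdA : Nat.gcd A k ∣ A := Nat.gcd_dvd_left _ _
    have hdk : Nat.gcd A k ∣ k := Nat.gcd_dvd_right _ _
    obtain ⟨a, ha⟩ := hdA
    obtain ⟨h, hh⟩ := hdk
    set d := Nat.gcd A k with hdd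
    have hAd : A / d = a := by rw [ha, Nat.mul_div_cancel_left _ hd]
    have hkd : k / d = h := by rw [hh, Nat.mul_div_cancel_left _ hd]
    have hcop : Nat.Coprime a h := by
      have := Nat.coprime_div_gcd_div_gcd (m := A) (n := k) hd
      rw [← hdd, hAd, hkd] at this
      exact this
    have hah : h < a := by
      have : d * h < d * a := by rw [← ha, ← hh]; exact hk
      exact lt_of_mul_lt_mul_left this (Nat.zero_le _)
    have hh0 : 1 ≤ h := by
      rcases Nat.eq_zero_or_pos h with h0 | h0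
      · exfalso; apply hk0; rw [hh, h0, mul_zero]
      · exact h0
    simp only [mem_sigma, mem_Icc, mem_product, cop, mem_filter, mem_range]
    rw [hAd, hkd]
    refine ⟨⟨by omega, ?_⟩, ⟨hd, ?_⟩, hah, hcop.symm⟩
    · calc a ≤ d * a := Nat.le_mul_of_pos_left _ hd
        _ = A := ha.symm
        _ ≤ B := hA2
    · rw [Nat.le_div_iff_mul_le (by omega), ← ha]
      exact hA2
  · rintro ⟨a, g, h⟩ hy
    simp only [mem_sigma, mem_Icc, mem_product, cop, mem_filter, mem_range] at hy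
    obtain ⟨⟨ha1, ha2⟩, ⟨hg1, hg2⟩, hha, hcop⟩ := hy
    have hh0 : h ≠ 0 := by
      rintro rfl
      rw [Nat.coprime_zero_left] at hcop
      omega
    simp only [mem_sigma, mem_Icc, mem_filter, mem_range]
    refine ⟨⟨?_, ?_⟩, ?_, ?_⟩
    · have : 0 < g * a := Nat.mul_pos hg1 (by omega)
      omega
    · exact (Nat.le_div_iff_mul_le (by omega)).mp hg2
    · exact Nat.mul_lt_mul_of_pos_left hha hg1
    · exact Nat.mul_ne_zero (by omega) hh0
  · rintro ⟨A, k⟩ hx
    simp only [mem_sigma, mem_Icc, mem_filter, mem_range] at hx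
    have h2 : Nat.gcd A k * (A / Nat.gcd A k) = A := Nat.mul_div_cancel' (Nat.gcd_dvd_left _ _)
    have h3 : Nat.gcd A k * (k / Nat.gcd A k) = k := Nat.mul_div_cancel' (Nat.gcd_dvd_right _ _)
    simp only [h2, h3]
  · rintro ⟨a, g, h⟩ hy
    simp only [mem_sigma, mem_Icc, mem_product, cop, mem_filter, mem_range] at hy
    obtain ⟨⟨ha1, ha2⟩, ⟨hg1, hg2⟩, hha, hcop⟩ := hy
    have h2 : Nat.gcd (g * a) (g * h) = g := by
      rw [Nat.gcd_mul_left, hcop.symm.gcd_eq_one, mul_one]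
    have h3 : g * a / g = a := Nat.mul_div_cancel_left _ hg1
    have h4 : g * h / g = h := Nat.mul_div_cancel_left _ hg1
    simp only [h2, h3, h4]
  · rintro ⟨A, k⟩ hx
    have h2 : Nat.gcd A k * (A / Nat.gcd A k) = A := Nat.mul_div_cancel' (Nat.gcd_dvd_left _ _)
    have h3 : Nat.gcd A k * (k / Nat.gcd A k) = k := Nat.mul_div_cancel' (Nat.gcd_dvd_right _ _)
    simp only [h2, h3]

/-- The error term in terms of Kloosterman sums. -/
theorem es_decomp {B n : ℕ} (hn : ∀ a ∈ Icc 1 B, Nat.Coprime n a) (J : Set ℤ) :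
    (Es J B n : ℂ) = ∑ a ∈ Icc 2 B, ∑ g ∈ Icc 1 (B / a),
      ((Nat.totient (g * a) : ℂ) / (g * a * (Nat.totient a : ℂ))) *
        ∑ h ∈ cop a, KK a h n * TT J g a h n := by
  classical
  set T := (tset n).filter (fun t => t ∈ J) with hT
  set w : ℤ → ℝ := fun t => √(4 * (n : ℝ) - (t : ℝ) ^ 2) with hw
  -- expand
  have h1 : (Es J B n : ℂ) = ∑ A ∈ Icc 1 B, ∑ k ∈ (range A).filter (fun k => k ≠ 0),
      ∑ t ∈ T, (A : ℂ)⁻¹ * (KK A k n * ee ((k : ℝ) * t / A)) * (Om ((A : ℝ) / w t) : ℂ) := by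
    unfold Es
    rw [Complex.ofReal_sum]
    refine Finset.sum_congr rfl fun A hA => ?_
    have hA1 : 1 ≤ A := (mem_Icc.mp hA).1
    rw [Complex.ofReal_sum, Finset.sum_comm]
    refine Finset.sum_congr rfl fun t _ => ?_
    have h2 := rho_expand hA1 (hn A hA) t
    have h3 : ∑ k ∈ range A, KK A k n * ee ((k : ℝ) * t / A) =
        (Nat.totient A : ℂ) + ∑ k ∈ (range A).filter (fun k => k ≠ 0),
          KK A k n * ee ((k : ℝ) * t / A) := by
      rw [← Finset.sum_filter_add_sum_filter_not (range A) (fun k => k = 0)]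
      congr 1
      have h4 : (range A).filter (fun k => k = 0) = {0} := by
        ext k
        rw [mem_filter, mem_range, mem_singleton]
        constructor
        · exact fun h => h.2
        · rintro rfl
          exact ⟨by omega, rfl⟩
      rw [h4, Finset.sum_singleton, KK_zero hA1]
      simp [ee]
    rw [h3, mul_add] at h2
    push_cast
    rw [h2, ← Finset.sum_mul, ← Finset.mul_sum]
    congr 1
    rw [inv_mul_eq_div]
    ring
  rw [h1, kloos_reindex]
  refine Finset.sum_congr rfl fun a ha => Finset.sum_congr rfl fun g hg => ?_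
  rw [Finset.mul_sum]
  refine Finset.sum_congr rfl fun h _ => ?_
  have ha1 : 1 ≤ a := by have := (mem_Icc.mp ha).1; omega
  have hg1 : 1 ≤ g := (mem_Icc.mp hg).1
  have ha0 : (a : ℝ) ≠ 0 := by exact_mod_cast (by omega : a ≠ 0)
  have hg0 : (g : ℝ) ≠ 0 := by exact_mod_cast (by omega : g ≠ 0)
  rw [KK_mul hg1 ha1]
  unfold TT
  rw [Finset.mul_sum, Finset.mul_sum]
  refine Finset.sum_congr rfl fun t _ => ?_
  have h2 : (((g * h : ℕ) : ℝ) * (t : ℝ) / ((g * a : ℕ) : ℝ)) = (h : ℝ) * t / a := by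
    push_cast
    field_simp
  have h3 : (((g * a : ℕ) : ℝ) / w t) = ((g : ℝ) * a / √(4 * (n : ℝ) - (t : ℝ) ^ 2)) := by
    rw [hw]
    push_cast
    rfl
  rw [h2, h3]
  have ha0' : (a : ℂ) ≠ 0 := by exact_mod_cast (by omega : a ≠ 0)
  have hg0' : (g : ℂ) ≠ 0 := by exact_mod_cast (by omega : g ≠ 0)
  have h4 : (Nat.totient a : ℂ) ≠ 0 := by
    have : 0 < Nat.totient a := Nat.totient_pos.mpr ha1
    exact_mod_cast this.ne'
  push_cast
  field_simp

end Pool.Agent.DEU
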