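import Pool.Agent.DEU.CDefs

/-!
# DEU.SqRoots: the number of solutions of quadratic congruences
-/

namespace Pool.Agent.DEU

open Finset

/-- the divisor bound -/
private theorem sqRoots_divisor_bound {ε : ℝ} (hε : 0 < ε) : ∃ c : ℝ, 0 < c ∧ ∀ m : ℕ, m ≠ 0 →
    (m.divisors.card : ℝ) ≤ c * (m : ℝ) ^ ε := by
  classical
  have hl2 : 0 < Real.log 2 := Real.log_pos (by norm_num)
  obtain ⟨E, hE⟩ : ∃ E : ℝ, E = 1 + 1 / (ε * Real.log 2) := ⟨_, rfl⟩
  have hE1 : 1 ≤ E := by
    have : 0 < 1 / (ε * Real.log 2) := by positivity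
    linarith
  obtain ⟨P, hP⟩ : ∃ P : ℕ, P = ⌈(2 : ℝ) ^ (1 / ε)⌉₊ := ⟨_, rfl⟩
  refine ⟨E ^ P, by positivity, ?_⟩
  intro m hm
  have hEv : ∀ v : ℕ, (v : ℝ) + 1 ≤ E * (2 : ℝ) ^ (ε * v) := by
    intro v
    have h1 : 1 + ε * Real.log 2 * v ≤ (2 : ℝ) ^ (ε * v) := by
      rw [Real.rpow_def_of_pos (by norm_num)]
      have := Real.add_one_le_exp (Real.log 2 * (ε * v))
      linarith
    calc (v : ℝ) + 1 ≤ E * (1 + ε * Real.log 2 * v) := by
          rw [hE]
          have h2 : (1 + 1 / (ε * Real.log 2)) * (1 + ε * Real.log 2 * v)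
              = 1 + v + (ε * Real.log 2 * v + 1 / (ε * Real.log 2)) := by
            field_simp; ring
          rw [h2]
          have : 0 ≤ ε * Real.log 2 * v + 1 / (ε * Real.log 2) := by positivity
          linarith
      _ ≤ E * (2 : ℝ) ^ (ε * v) := by gcongr
  have hprime : ∀ p ∈ m.primeFactors, ((m.factorization p : ℕ) : ℝ) + 1
      ≤ (if p < P then E else 1) * ((p : ℝ) ^ (m.factorization p)) ^ ε := by
    intro p hp
    have hpp := Nat.prime_of_mem_primeFactors hp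
    have hp2 : (2 : ℝ) ≤ p := by exact_mod_cast hpp.two_le
    have e1 : ((p : ℝ) ^ (m.factorization p)) ^ ε = (p : ℝ) ^ (ε * (m.factorization p : ℕ)) := by
      rw [← Real.rpow_natCast, ← Real.rpow_mul (by positivity)]; ring_nf
    rw [e1]
    split_ifs with hlt
    · calc ((m.factorization p : ℕ) : ℝ) + 1 ≤ E * (2 : ℝ) ^ (ε * (m.factorization p : ℕ)) :=
            hEv _
        _ ≤ E * (p : ℝ) ^ (ε * (m.factorization p : ℕ)) := by gcongr
    · push Not at hlt
      have h1 : (2 : ℝ) ^ (1 / ε) ≤ p := by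
        calc (2 : ℝ) ^ (1 / ε) ≤ P := by rw [hP]; exact Nat.le_ceil _
          _ ≤ p := by exact_mod_cast hlt
      have h2 : (2 : ℝ) ≤ (p : ℝ) ^ ε := by
        calc (2 : ℝ) = ((2 : ℝ) ^ (1 / ε)) ^ ε := by
              rw [← Real.rpow_mul (by norm_num), one_div, inv_mul_cancel₀ hε.ne', Real.rpow_one]
          _ ≤ (p : ℝ) ^ ε := by gcongr
      rw [Real.rpow_mul (by positivity), Real.rpow_natCast, one_mul]
      calc ((m.factorization p : ℕ) : ℝ) + 1 ≤ 2 ^ (m.factorization p) := by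
            have : m.factorization p + 1 ≤ 2 ^ (m.factorization p) := Nat.lt_two_pow_self
            exact_mod_cast this
        _ ≤ ((p : ℝ) ^ ε) ^ (m.factorization p) := by gcongr
  have hmprod : ((m : ℝ)) ^ ε = ∏ p ∈ m.primeFactors, ((p : ℝ) ^ (m.factorization p)) ^ ε := by
    rw [Real.finsetProd_rpow _ _ (fun p _ => by positivity)]
    congr 1
    have := Nat.prod_factorization_pow_eq_self hm
    nth_rewrite 1 [← this]
    rw [Finsupp.prod, Nat.support_factorization]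
    push_cast; rfl
  rw [Nat.card_divisors hm]
  push_cast
  calc ∏ p ∈ m.primeFactors, (((m.factorization p : ℕ) : ℝ) + 1)
      ≤ ∏ p ∈ m.primeFactors, (if p < P then E else 1) * ((p : ℝ) ^ (m.factorization p)) ^ ε :=
        Finset.prod_le_prod (fun p _ => by positivity) hprime
    _ = (∏ p ∈ m.primeFactors, (if p < P then E else 1)) * (m : ℝ) ^ ε := by
        rw [Finset.prod_mul_distrib, hmprod]
    _ ≤ E ^ P * (m : ℝ) ^ ε := by
        gcongr
        rw [Finset.prod_ite, Finset.prod_const, Finset.prod_const_one, mul_one]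
        apply pow_le_pow_right₀ hE1
        calc (m.primeFactors.filter (fun p => p < P)).card ≤ (Finset.range P).card := by
              apply Finset.card_le_card
              intro p hp
              rw [Finset.mem_filter] at hp
              exact Finset.mem_range.2 hp.2
          _ = P := Finset.card_range P


/-- two elements with the same value of `gcd(k - h, a)` -/
private lemma sqRoots_cong {a h k k' : ℕ} (ha : 1 ≤ a) (hh : Nat.Coprime h a)
    (hk : (a : ℤ) ∣ ((k : ℤ) - h) * (k + h)) (hk' : (a : ℤ) ∣ ((k' : ℤ) - h) * (k' + h))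
    (hd : Int.gcd ((k : ℤ) - h) a = Int.gcd ((k' : ℤ) - h) a) :
    (a : ℤ) ∣ 2 * ((k : ℤ) - k') := by
  set d : ℕ := Int.gcd ((k : ℤ) - h) a with hd0
  have hdpos : 0 < d := Int.gcd_pos_of_ne_zero_right _ (by exact_mod_cast (by omega : a ≠ 0))
  have hda : (d : ℤ) ∣ a := Int.gcd_dvd_right _ _
  obtain ⟨e, he⟩ := hda
  have key : ∀ m : ℕ, (a : ℤ) ∣ ((m : ℤ) - h) * (m + h) → Int.gcd ((m : ℤ) - h) a = d →
      (d : ℤ) ∣ (m : ℤ) - h ∧ e ∣ (m : ℤ) + h := by
    intro m hm hmd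
    have h1 : (d : ℤ) ∣ (m : ℤ) - h := by rw [← hmd]; exact Int.gcd_dvd_left _ _
    refine ⟨h1, ?_⟩
    obtain ⟨f, hf⟩ := h1
    have h2 : IsCoprime e f := by
      rw [Int.isCoprime_iff_gcd_eq_one]
      have h3 : Int.gcd ((d : ℤ) * f) (d * e) = d := by rw [← hf, ← he]; exact hmd
      rw [Int.gcd_mul_left] at h3
      have h4 : (d : ℤ).natAbs = d := Int.natAbs_natCast d
      rw [h4] at h3
      have h5 : Int.gcd f e = 1 := by
        have : d * Int.gcd f e = d * 1 := by rw [h3, mul_one]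
        exact Nat.eq_of_mul_eq_mul_left hdpos this
      rw [Int.gcd_comm]
      exact h5
    have h6 : (d : ℤ) * e ∣ (d : ℤ) * (f * (m + h)) := by
      rw [← he, ← mul_assoc, ← hf]; exact hm
    have h7 : e ∣ f * ((m : ℤ) + h) :=
      Int.dvd_of_mul_dvd_mul_left (by exact_mod_cast hdpos.ne') h6
    exact h2.dvd_of_dvd_mul_left h7
  obtain ⟨a1, b1⟩ := key k hk hd0.symm
  obtain ⟨a2, b2⟩ := key k' hk' hd.symm
  have h1 : (d : ℤ) ∣ (k : ℤ) - k' := by
    have : (k : ℤ) - k' = (k - h) - (k' - h) := by ring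
    rw [this]; exact dvd_sub a1 a2
  have h2 : e ∣ (k : ℤ) - k' := by
    have : (k : ℤ) - k' = (k + h) - (k' + h) := by ring
    rw [this]; exact dvd_sub b1 b2
  -- `gcd(d, e) ∣ 2`
  have h3 : ((Int.gcd d e : ℕ) : ℤ) ∣ 2 := by
    have h4 : ((Int.gcd d e : ℕ) : ℤ) ∣ 2 * h := by
      have : (2 : ℤ) * h = (k + h) - (k - h) := by ring
      rw [this]
      exact dvd_sub ((Int.gcd_dvd_right _ _).trans b1) ((Int.gcd_dvd_left _ _).trans a1)
    have h5 : IsCoprime ((Int.gcd d e : ℕ) : ℤ) (h : ℤ) := by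
      have h6 : IsCoprime (a : ℤ) (h : ℤ) := Nat.isCoprime_iff_coprime.mpr hh.symm
      exact h6.of_isCoprime_of_dvd_left ((Int.gcd_dvd_left _ _).trans ⟨e, he⟩)
    exact h5.dvd_of_dvd_mul_right h4
  -- `a = d e ∣ gcd(d, e) · (k - k')`
  obtain ⟨u, v, huv⟩ : ∃ u v : ℤ, ((Int.gcd d e : ℕ) : ℤ) = d * u + e * v :=
    ⟨_, _, Int.gcd_eq_gcd_ab d e⟩
  have h7 : (a : ℤ) ∣ ((Int.gcd d e : ℕ) : ℤ) * ((k : ℤ) - k') := by
    obtain ⟨x, hx⟩ := h1
    obtain ⟨y, hy⟩ := h2
    rw [he, huv]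
    refine ⟨u * y + v * x, ?_⟩
    calc ((d : ℤ) * u + e * v) * ((k : ℤ) - k') = d * u * ((k : ℤ) - k') + e * v * ((k : ℤ) - k') := by
          ring
      _ = d * u * (e * y) + e * v * (d * x) := by
          nth_rewrite 1 [hy]
          rw [hx]
      _ = _ := by ring
  obtain ⟨w, hw⟩ := h3
  rw [hw]
  calc (a : ℤ) ∣ ((Int.gcd d e : ℕ) : ℤ) * ((k : ℤ) - k') := h7
    _ ∣ ((Int.gcd d e : ℕ) : ℤ) * w * ((k : ℤ) - k') := ⟨w, by ring⟩

private lemma sqRoots_dvd {a h k : ℕ} (hk : ((h : ℕ) : ZMod a) ^ 2 = ((k : ℕ) : ZMod a) ^ 2) :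
    (a : ℤ) ∣ ((k : ℤ) - h) * (k + h) := by
  rw [← ZMod.intCast_zmod_eq_zero_iff_dvd]
  push_cast
  have : ((k : ZMod a) - h) * (k + h) = (k : ZMod a) ^ 2 - (h : ZMod a) ^ 2 := by ring
  rw [this, hk, sub_self]

/-- The number of residues prime to `a` with the same square is at most `C a^ε`. -/
theorem sq_roots : ∀ ε : ℝ, 0 < ε → ∃ C : ℝ, 0 < C ∧ ∀ a h : ℕ, 1 ≤ a → Nat.Coprime h a →
    (((cop a).filter fun k : ℕ => ((h : ℕ) : ZMod a) ^ 2 = ((k : ℕ) : ZMod a) ^ 2).card : ℝ) ≤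
      C * (a : ℝ) ^ ε := by
  intro ε hε
  obtain ⟨c, hc, hdiv⟩ := sqRoots_divisor_bound hε
  refine ⟨3 * c, by positivity, fun a h ha hh => ?_⟩
  have h1 : ((cop a).filter fun k : ℕ => ((h : ℕ) : ZMod a) ^ 2 = ((k : ℕ) : ZMod a) ^ 2).card ≤
      3 * a.divisors.card := by
    apply Finset.card_le_mul_card_image_of_maps_to (f := fun k : ℕ => Int.gcd ((k : ℤ) - h) a)
    · intro k _
      rw [Nat.mem_divisors]
      refine ⟨?_, by omega⟩
      exact Int.natCast_dvd_natCast.mp (Int.gcd_dvd_right _ _)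
    · intro d _
      set S := (((cop a).filter fun k : ℕ => ((h : ℕ) : ZMod a) ^ 2 = ((k : ℕ) : ZMod a) ^ 2)).filter
        (fun k : ℕ => Int.gcd ((k : ℤ) - h) a = d) with hS
      rcases S.eq_empty_or_nonempty with h0 | ⟨k0, hk0⟩
      · rw [h0]; simp
      · have hk0' := hk0
        rw [hS, Finset.mem_filter, Finset.mem_filter] at hk0'
        obtain ⟨⟨hk0c, hk0s⟩, hk0d⟩ := hk0'
        have hk0a := Finset.mem_range.mp (Finset.mem_filter.mp hk0c).1
        have hsub : S ⊆ {k0, k0 + a / 2, k0 - a / 2} := by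
          intro k hk
          rw [hS, Finset.mem_filter, Finset.mem_filter] at hk
          obtain ⟨⟨hkc, hks⟩, hkd⟩ := hk
          have hka := Finset.mem_range.mp (Finset.mem_filter.mp hkc).1
          have h2 := sqRoots_cong ha hh (sqRoots_dvd hks) (sqRoots_dvd hk0s) (hkd.trans hk0d.symm)
          obtain ⟨w, hw⟩ := h2
          have ha' : (0 : ℤ) < a := by exact_mod_cast ha
          have hw1 : w < 2 := by
            by_contra hcon
            push Not at hcon
            have : (a : ℤ) * 2 ≤ a * w := mul_le_mul_of_nonneg_left hcon ha'.le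
            omega
          have hw2 : -2 < w := by
            by_contra hcon
            push Not at hcon
            have : (a : ℤ) * w ≤ a * (-2) := mul_le_mul_of_nonneg_left hcon ha'.le
            omega
          simp only [Finset.mem_insert, Finset.mem_singleton]
          have : w = -1 ∨ w = 0 ∨ w = 1 := by omega
          rcases this with rfl | rfl | rfl
          · right; right; omega
          · left; omega
          · right; left; omega
        exact (Finset.card_le_card hsub).trans Finset.card_le_three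
  calc (((cop a).filter fun k : ℕ => ((h : ℕ) : ZMod a) ^ 2 = ((k : ℕ) : ZMod a) ^ 2).card : ℝ)
      ≤ ((3 * a.divisors.card : ℕ) : ℝ) := by exact_mod_cast h1
    _ = 3 * (a.divisors.card : ℝ) := by push_cast; ring
    _ ≤ 3 * (c * (a : ℝ) ^ ε) := by
        have := hdiv a (by omega)
        linarith
    _ = _ := by ring

/-- The case `t = 0`. -/
theorem rho_zero_le : ∀ ε : ℝ, 0 < ε → ∃ C : ℝ, 0 < C ∧ ∀ a n : ℕ, 1 ≤ a → Nat.Coprime n a →
    (rho a 0 n : ℝ) ≤ C * (a : ℝ) ^ ε := by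
  intro ε hε
  obtain ⟨C, hC, hsq⟩ := sq_roots ε hε
  refine ⟨C, hC, fun a n ha hn => ?_⟩
  unfold rho
  set S := (Finset.range a).filter fun s : ℕ => (a : ℤ) ∣ (s : ℤ) ^ 2 - 0 * s + n with hS
  have hmem : ∀ s ∈ S, s < a ∧ ((s : ℕ) : ZMod a) ^ 2 = -(n : ZMod a) := by
    intro s hs
    rw [hS, Finset.mem_filter, Finset.mem_range] at hs
    refine ⟨hs.1, ?_⟩
    have h1 := (ZMod.intCast_zmod_eq_zero_iff_dvd _ a).mpr hs.2
    push_cast at h1
    have h2 : (s : ZMod a) ^ 2 + n = 0 := by simpa using h1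
    exact eq_neg_of_add_eq_zero_left h2
  have hcopr : ∀ s ∈ S, Nat.Coprime s a := by
    intro s hs
    have h1 := (hmem s hs).2
    have h2 : IsUnit ((n : ℕ) : ZMod a) := (ZMod.isUnit_iff_coprime n a).mpr hn
    have h3 : IsUnit (((s : ℕ) : ZMod a) ^ 2) := by rw [h1]; exact h2.neg
    have h4 : IsUnit ((s : ℕ) : ZMod a) := isUnit_of_mul_isUnit_left (by rw [sq] at h3; exact h3)
    exact (ZMod.isUnit_iff_coprime s a).mp h4
  rcases S.eq_empty_or_nonempty with h0 | ⟨s0, hs0⟩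
  · rw [h0]
    simp only [Finset.card_empty, Nat.cast_zero]
    positivity
  · refine le_trans ?_ (hsq a s0 ha (hcopr s0 hs0))
    have hsub : S ⊆ (cop a).filter fun k : ℕ => ((s0 : ℕ) : ZMod a) ^ 2 = ((k : ℕ) : ZMod a) ^ 2 := by
      intro s hs
      rw [Finset.mem_filter]
      refine ⟨Finset.mem_filter.mpr ⟨Finset.mem_range.mpr (hmem s hs).1, hcopr s hs⟩, ?_⟩
      rw [(hmem s0 hs0).2, (hmem s hs).2]
    exact_mod_cast Finset.card_le_card hsub

end Pool.Agent.DEU
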