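import Pool.Agent.DEU.Defs

/-!
# DEU.Omega: the function `Ω`
-/

namespace Pool.Agent.DEU

open Real

theorem om_summable {u : ℝ} (hu : 0 < u) :
    Summable fun g : ℕ => exp (-π * ((g : ℝ) + 1) ^ 2 * u) := by
  have h1 : Summable fun g : ℕ => exp (-(π * u) * (g : ℝ)) := by
    have := Real.summable_pow_mul_exp_neg_nat_mul 0 (mul_pos pi_pos hu)
    simpa using this
  refine h1.of_nonneg_of_le (fun g => (exp_pos _).le) (fun g => ?_)
  apply exp_le_exp.2
  have h2 : (g : ℝ) ≤ ((g : ℝ) + 1) ^ 2 := by nlinarith [Nat.cast_nonneg (α := ℝ) g]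
  have h3 : 0 < π * u := mul_pos pi_pos hu
  nlinarith

private theorem om_alt {f : ℕ → ℝ} (hf : Summable f) :
    ∑' g, (-1 : ℝ) ^ g * f g = ∑' g, f g - 2 * ∑' g, f (2 * g + 1) := by
  have he : Summable fun g => f (2 * g) :=
    hf.comp_injective (i := fun g => 2 * g) (fun a b h => by simpa using h)
  have ho : Summable fun g => f (2 * g + 1) :=
    hf.comp_injective (i := fun g => 2 * g + 1) (fun a b h => by simpa using h)
  have h1 := tsum_even_add_odd he ho
  have h2 : ∀ k, (-1 : ℝ) ^ (2 * k) * f (2 * k) = f (2 * k) := fun k => by simp [pow_mul]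
  have h3 : ∀ k, (-1 : ℝ) ^ (2 * k + 1) * f (2 * k + 1) = -f (2 * k + 1) := fun k => by
    simp [pow_succ, pow_mul]
  have h4 := tsum_even_add_odd (f := fun g => (-1 : ℝ) ^ g * f g)
    (by simpa only [h2] using he) (by simpa only [h3] using ho.neg)
  simp only [h2, h3, tsum_neg] at h4
  linarith

private theorem om_eq_alt (u : ℝ) :
    Om u = 2 * ∑' g : ℕ, (-1 : ℝ) ^ g * exp (-π * ((g : ℝ) + 1) ^ 2 * u) := by
  rw [← tsum_mul_left]
  unfold Om
  refine tsum_congr fun g => by ring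

private theorem om_eq_two {u : ℝ} (hu : 0 < u) :
    Om u = 2 * ∑' g : ℕ, exp (-π * ((g : ℝ) + 1) ^ 2 * u) -
      4 * ∑' g : ℕ, exp (-π * ((g : ℝ) + 1) ^ 2 * (4 * u)) := by
  rw [om_eq_alt, om_alt (om_summable hu)]
  have h1 : ∀ g : ℕ, exp (-π * (((2 * g + 1 : ℕ) : ℝ) + 1) ^ 2 * u) =
      exp (-π * ((g : ℝ) + 1) ^ 2 * (4 * u)) := fun g => by
    congr 1
    push_cast
    ring
  simp only [h1]
  ring

/-- The form in which `Ω` comes out of the theta identity. -/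
theorem om_eq {u : ℝ} (hu : 0 < u) :
    Om u = 2 * ∑' g : ℕ, (exp (-π * 1 * (((g : ℝ) + 1) ^ 2 * u)) -
      2 * exp (-π * 4 * (((g : ℝ) + 1) ^ 2 * u))) := by
  rw [om_eq_two hu]
  have h1 : ∀ g : ℕ, exp (-π * 1 * (((g : ℝ) + 1) ^ 2 * u)) =
      exp (-π * ((g : ℝ) + 1) ^ 2 * u) := fun g => by
    congr 1; ring
  have h2 : ∀ g : ℕ, exp (-π * 4 * (((g : ℝ) + 1) ^ 2 * u)) =
      exp (-π * ((g : ℝ) + 1) ^ 2 * (4 * u)) := fun g => by
    congr 1; ring
  simp only [h1, h2]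
  rw [(om_summable hu).tsum_sub ((om_summable (by positivity : 0 < 4 * u)).mul_left 2),
    tsum_mul_left]
  ring

private theorem om_F_anti {u : ℝ} (hu : 0 < u) :
    Antitone fun g : ℕ => exp (-π * ((g : ℝ) + 1) ^ 2 * u) := by
  apply antitone_nat_of_succ_le
  intro n
  apply exp_le_exp.2
  have h1 : ((n : ℝ) + 1) ^ 2 ≤ (((n + 1 : ℕ) : ℝ) + 1) ^ 2 := by
    push_cast
    nlinarith [Nat.cast_nonneg (α := ℝ) n]
  have h3 : 0 < π * u := mul_pos pi_pos hu
  nlinarith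

theorem om_nonneg {u : ℝ} (hu : 0 < u) : 0 ≤ Om u := by
  rw [om_eq_alt]
  have h1 := (om_F_anti hu).alternating_series_le_tendsto
    (om_summable hu).tendsto_alternating_series_tsum 0
  simp only [mul_zero, Finset.range_zero, Finset.sum_empty] at h1
  linarith

theorem om_le_exp {u : ℝ} (hu : 0 < u) : Om u ≤ 2 * exp (-π * u) := by
  rw [om_eq_alt]
  have h1 := (om_F_anti hu).tendsto_le_alternating_series
    (om_summable hu).tendsto_alternating_series_tsum 0
  simp only [mul_zero, zero_add, Finset.range_one, Finset.sum_singleton, pow_zero, one_mul,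
    Nat.cast_zero, one_pow, mul_one] at h1
  linarith

private theorem om_int_sum {w : ℝ} (hw : 0 < w) :
    ∑' n : ℤ, exp (-π * w * (n : ℝ) ^ 2) =
      1 + 2 * ∑' g : ℕ, exp (-π * ((g : ℝ) + 1) ^ 2 * w) := by
  have hs := om_summable hw
  have h2 : HasSum (fun g : ℕ => exp (-π * w * (((g + 1 : ℕ) : ℤ) : ℝ) ^ 2))
      (∑' g : ℕ, exp (-π * ((g : ℝ) + 1) ^ 2 * w)) := by
    have h3 : ∀ g : ℕ, exp (-π * w * (((g + 1 : ℕ) : ℤ) : ℝ) ^ 2) =
        exp (-π * ((g : ℝ) + 1) ^ 2 * w) := fun g => by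
      congr 1; push_cast; ring
    simp only [h3]
    exact hs.hasSum
  have h1 : HasSum (fun g : ℕ => exp (-π * w * (((g : ℕ) : ℤ) : ℝ) ^ 2))
      (1 + ∑' g : ℕ, exp (-π * ((g : ℝ) + 1) ^ 2 * w)) := by
    have h4 := (hasSum_nat_add_iff (f := fun g : ℕ => exp (-π * w * (((g : ℕ) : ℤ) : ℝ) ^ 2)) 1).1 h2
    simpa [add_comm] using h4
  have h5 : HasSum (fun g : ℕ => exp (-π * w * (((-((g : ℤ) + 1) : ℤ)) : ℝ) ^ 2))
      (∑' g : ℕ, exp (-π * ((g : ℝ) + 1) ^ 2 * w)) := by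
    have h3 : ∀ g : ℕ, exp (-π * w * (((-((g : ℤ) + 1) : ℤ)) : ℝ) ^ 2) =
        exp (-π * ((g : ℝ) + 1) ^ 2 * w) := fun g => by
      congr 1; push_cast; ring
    simp only [h3]
    exact hs.hasSum
  have h6 := HasSum.of_nat_of_neg_add_one (f := fun n : ℤ => exp (-π * w * (n : ℝ) ^ 2)) h1 h5
  rw [h6.tsum_eq]
  ring

private theorem om_split {w : ℝ} (hw : 0 < w) :
    Summable (fun k : ℕ => exp (-π * (2 * (k : ℝ) + 1) ^ 2 * w)) ∧
    ∑' g : ℕ, exp (-π * ((g : ℝ) + 1) ^ 2 * w) =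
      ∑' k : ℕ, exp (-π * (2 * (k : ℝ) + 1) ^ 2 * w) +
      ∑' g : ℕ, exp (-π * ((g : ℝ) + 1) ^ 2 * (4 * w)) := by
  have hs := om_summable hw
  have he : Summable fun g : ℕ => exp (-π * (((2 * g : ℕ) : ℝ) + 1) ^ 2 * w) :=
    hs.comp_injective (i := fun g => 2 * g) (fun a b h => by simpa using h)
  have ho : Summable fun g : ℕ => exp (-π * (((2 * g + 1 : ℕ) : ℝ) + 1) ^ 2 * w) :=
    hs.comp_injective (i := fun g => 2 * g + 1) (fun a b h => by simpa using h)
  have h1 := tsum_even_add_odd (f := fun g : ℕ => exp (-π * ((g : ℝ) + 1) ^ 2 * w)) he ho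
  have h2 : ∀ g : ℕ, exp (-π * (((2 * g : ℕ) : ℝ) + 1) ^ 2 * w) =
      exp (-π * (2 * (g : ℝ) + 1) ^ 2 * w) := fun g => by
    congr 1; push_cast; ring
  have h3 : ∀ g : ℕ, exp (-π * (((2 * g + 1 : ℕ) : ℝ) + 1) ^ 2 * w) =
      exp (-π * ((g : ℝ) + 1) ^ 2 * (4 * w)) := fun g => by
    congr 1; push_cast; ring
  simp only [h2] at he h1
  simp only [h3] at h1
  exact ⟨he, h1.symm⟩

/-- the Poisson side -/
private theorem om_poisson {u : ℝ} (hu : 0 < u) :
    Om u = 1 - 2 * ∑' k : ℕ, (√u)⁻¹ * exp (-(π * (2 * (k : ℝ) + 1) ^ 2 / 4) / u) := by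
  have h4u : 0 < 4 * u := by positivity
  have hi : 0 < 1 / (4 * u) := by positivity
  have hi' : 0 < 1 / u := by positivity
  have h1 := Real.tsum_exp_neg_mul_int_sq hu
  have h2 := Real.tsum_exp_neg_mul_int_sq h4u
  rw [om_int_sum hu] at h1
  rw [om_int_sum h4u] at h2
  have h3 : ∀ n : ℤ, exp (-π / u * (n : ℝ) ^ 2) = exp (-π * (1 / u) * (n : ℝ) ^ 2) := fun n => by
    congr 1; ring
  have h4 : ∀ n : ℤ, exp (-π / (4 * u) * (n : ℝ) ^ 2) = exp (-π * (1 / (4 * u)) * (n : ℝ) ^ 2) :=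
    fun n => by congr 1; ring
  simp only [h3] at h1
  simp only [h4] at h2
  rw [om_int_sum hi'] at h1
  rw [om_int_sum hi] at h2
  obtain ⟨h5, h6⟩ := om_split hi
  have h7 : 4 * (1 / (4 * u)) = 1 / u := by field_simp
  rw [h7] at h6
  have h8 : (4 * u) ^ (1 / 2 : ℝ) = 2 * √u := by
    rw [← Real.sqrt_eq_rpow, show (4 : ℝ) * u = 2 ^ 2 * u by ring, Real.sqrt_mul (by norm_num),
      Real.sqrt_sq (by norm_num)]
  rw [h8] at h2
  rw [← Real.sqrt_eq_rpow] at h1
  rw [om_eq_two hu, tsum_mul_left]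
  have h9 : ∀ k : ℕ, exp (-(π * (2 * (k : ℝ) + 1) ^ 2 / 4) / u) =
      exp (-π * (2 * (k : ℝ) + 1) ^ 2 * (1 / (4 * u))) := fun k => by
    congr 1; field_simp
  simp only [h9]
  have hsq : 0 < √u := Real.sqrt_pos.2 hu
  set TO := ∑' k : ℕ, exp (-π * (2 * (k : ℝ) + 1) ^ 2 * (1 / (4 * u))) with hTO
  set A := ∑' g : ℕ, exp (-π * ((g : ℝ) + 1) ^ 2 * u) with hA
  set B := ∑' g : ℕ, exp (-π * ((g : ℝ) + 1) ^ 2 * (4 * u)) with hB
  set C := ∑' g : ℕ, exp (-π * ((g : ℝ) + 1) ^ 2 * (1 / u)) with hC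
  set D := ∑' g : ℕ, exp (-π * ((g : ℝ) + 1) ^ 2 * (1 / (4 * u))) with hD
  have e1 : 1 / √u = (√u)⁻¹ := one_div _
  have e2 : 1 / (2 * √u) = (√u)⁻¹ / 2 := by field_simp
  rw [e1] at h1
  rw [e2] at h2
  rw [h6] at h2
  linarith

theorem om_le_one {u : ℝ} (hu : 0 < u) : Om u ≤ 1 := by
  rw [om_poisson hu]
  have : 0 ≤ ∑' k : ℕ, (√u)⁻¹ * exp (-(π * (2 * (k : ℝ) + 1) ^ 2 / 4) / u) :=
    tsum_nonneg fun k => by positivity
  linarith

private theorem om_phi_summable {u : ℝ} (hu : 0 < u) :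
    Summable fun k : ℕ => (√u)⁻¹ * exp (-(π * (2 * (k : ℝ) + 1) ^ 2 / 4) / u) := by
  have hi : 0 < 1 / (4 * u) := by positivity
  have h9 : ∀ k : ℕ, exp (-(π * (2 * (k : ℝ) + 1) ^ 2 / 4) / u) =
      exp (-π * (2 * (k : ℝ) + 1) ^ 2 * (1 / (4 * u))) := fun k => by
    congr 1; field_simp
  simp only [h9]
  exact (om_split hi).1.mul_left _

private theorem om_phi_mono {c u v : ℝ} (hu : 0 < u) (huv : u ≤ v) (hv : v ≤ 2 * c) :
    (√u)⁻¹ * exp (-c / u) ≤ (√v)⁻¹ * exp (-c / v) := by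
  have hv0 : 0 < v := hu.trans_le huv
  have hsu : 0 < √u := Real.sqrt_pos.2 hu
  have hsv : 0 < √v := Real.sqrt_pos.2 hv0
  -- `√v ≤ √u exp (c/u - c/v)`
  have h1 : v ≤ u * exp (2 * (c / u - c / v)) := by
    have h2 : (v - u) / u ≤ 2 * (c / u - c / v) := by
      have h3 : 2 * (c / u - c / v) = (2 * c / v) * ((v - u) / u) := by
        field_simp
      rw [h3]
      have h4 : 1 ≤ 2 * c / v := by rw [le_div_iff₀ hv0]; linarith
      have h5 : 0 ≤ (v - u) / u := div_nonneg (by linarith) hu.le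
      nlinarith
    have h6 : (v - u) / u + 1 ≤ exp ((v - u) / u) := Real.add_one_le_exp _
    have h7 : exp ((v - u) / u) ≤ exp (2 * (c / u - c / v)) := exp_le_exp.2 h2
    have h8 : v = u * ((v - u) / u + 1) := by field_simp; ring
    calc v = u * ((v - u) / u + 1) := h8
      _ ≤ u * exp (2 * (c / u - c / v)) := mul_le_mul_of_nonneg_left (h6.trans h7) hu.le
  have h9 : √v ≤ √u * exp (c / u - c / v) := by
    rw [Real.sqrt_le_left (by positivity)]
    rw [mul_pow, Real.sq_sqrt hu.le, ← exp_nat_mul]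
    exact_mod_cast h1
  have h10 : exp (-c / v) = exp (-c / u) * exp (c / u - c / v) := by
    rw [← exp_add]; congr 1; ring
  rw [h10, inv_mul_eq_div, inv_mul_eq_div, div_le_div_iff₀ hsu hsv]
  have h11 : 0 < exp (-c / u) := exp_pos _
  nlinarith

private theorem om_anti_small {u v : ℝ} (hu : 0 < u) (huv : u ≤ v) (hv : v ≤ 1) : Om v ≤ Om u := by
  have hv0 : 0 < v := hu.trans_le huv
  rw [om_poisson hu, om_poisson hv0]
  have h1 : ∑' k : ℕ, (√u)⁻¹ * exp (-(π * (2 * (k : ℝ) + 1) ^ 2 / 4) / u) ≤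
      ∑' k : ℕ, (√v)⁻¹ * exp (-(π * (2 * (k : ℝ) + 1) ^ 2 / 4) / v) := by
    refine (om_phi_summable hu).tsum_le_tsum (fun k => ?_) (om_phi_summable hv0)
    apply om_phi_mono hu huv
    have h2 : (1 : ℝ) ≤ (2 * (k : ℝ) + 1) ^ 2 := by nlinarith [Nat.cast_nonneg (α := ℝ) k]
    nlinarith [pi_gt_three]
  linarith

private theorem om_conc {s t : ℝ} (hs : 0 < s) (hst : s ≤ t) :
    s * (1 - exp (-t)) ≤ t * (1 - exp (-s)) := by
  have ht : 0 < t := hs.trans_le hst
  have h1 : -1 ≤ exp (-s) - 1 := by linarith [exp_pos (-s)]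
  have h2 : 1 ≤ t / s := by rw [le_div_iff₀ hs]; linarith
  have h3 := one_add_mul_self_le_rpow_one_add h1 h2
  have h4 : (1 + (exp (-s) - 1)) ^ (t / s) = exp (-t) := by
    rw [add_sub_cancel, ← exp_mul]
    congr 1
    field_simp
  rw [h4] at h3
  have h5 : s * (1 + t / s * (exp (-s) - 1)) = s + t * (exp (-s) - 1) := by
    field_simp
  nlinarith

private theorem om_diff_anti {u v : ℝ} (hu : 1 ≤ 2 * u) (huv : u ≤ v) :
    Antitone fun g : ℕ => exp (-π * ((g : ℝ) + 1) ^ 2 * u) - exp (-π * ((g : ℝ) + 1) ^ 2 * v) := by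
  apply antitone_nat_of_succ_le
  intro n
  have hn : (0 : ℝ) ≤ n := Nat.cast_nonneg n
  have hu0 : 0 < u := by linarith
  rcases huv.eq_or_lt with rfl | hlt
  · simp
  push_cast
  set m : ℝ := ((n : ℝ) + 1) ^ 2 with hm
  set M : ℝ := ((n : ℝ) + 1 + 1) ^ 2 with hM
  have hm1 : 1 ≤ m := by rw [hm]; nlinarith
  have hmM : m + 3 ≤ M := by rw [hm, hM]; nlinarith
  have hδ : 0 < π * (v - u) := mul_pos pi_pos (by linarith)
  have e1 : exp (-π * m * u) - exp (-π * m * v) =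
      exp (-π * m * u) * (1 - exp (-(m * (π * (v - u))))) := by
    rw [mul_sub, mul_one, ← exp_add]
    congr 2
    ring
  have e2 : exp (-π * M * u) - exp (-π * M * v) =
      exp (-π * M * u) * (1 - exp (-(M * (π * (v - u))))) := by
    rw [mul_sub, mul_one, ← exp_add]
    congr 2
    ring
  rw [e1, e2]
  have h1 := om_conc (s := m * (π * (v - u))) (t := M * (π * (v - u))) (by positivity)
    (by apply mul_le_mul_of_nonneg_right _ hδ.le; linarith)
  have h2 : m * (1 - exp (-(M * (π * (v - u))))) ≤ M * (1 - exp (-(m * (π * (v - u))))) := by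
    have h3 : (π * (v - u)) * (m * (1 - exp (-(M * (π * (v - u)))))) ≤
        (π * (v - u)) * (M * (1 - exp (-(m * (π * (v - u)))))) := by
      linarith
    exact le_of_mul_le_mul_left h3 hδ
  -- `M exp (-π M u) ≤ m exp (-π m u)`
  have h4 : M * exp (-π * M * u) ≤ m * exp (-π * m * u) := by
    have h5 : exp (-π * m * u) = exp (-π * M * u) * exp (π * (M - m) * u) := by
      rw [← exp_add]; congr 1; ring
    have h6 : π * (M - m) * u + 1 ≤ exp (π * (M - m) * u) := Real.add_one_le_exp _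
    have h7 : M ≤ m * exp (π * (M - m) * u) := by
      have h8 : (M - m) ≤ π * (M - m) * u := by
        have h9 : (M - m) * 1 ≤ (M - m) * (π * u) := by
          apply mul_le_mul_of_nonneg_left _ (by linarith)
          nlinarith [pi_gt_three]
        linarith
      nlinarith
    rw [h5]
    have h8 : 0 < exp (-π * M * u) := exp_pos _
    nlinarith
  have h10 : 0 ≤ 1 - exp (-(m * (π * (v - u)))) := by
    have : exp (-(m * (π * (v - u)))) ≤ 1 := by
      rw [exp_le_one_iff]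
      have : 0 ≤ m * (π * (v - u)) := by positivity
      linarith
    linarith
  have hm0 : 0 < m := by linarith
  have h11 : 0 < exp (-π * M * u) := exp_pos _
  have h12 : m * (exp (-π * M * u) * (1 - exp (-(M * (π * (v - u)))))) ≤
      m * (exp (-π * m * u) * (1 - exp (-(m * (π * (v - u)))))) := by
    calc m * (exp (-π * M * u) * (1 - exp (-(M * (π * (v - u))))))
        = exp (-π * M * u) * (m * (1 - exp (-(M * (π * (v - u)))))) := by ring
      _ ≤ exp (-π * M * u) * (M * (1 - exp (-(m * (π * (v - u)))))) :=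
          mul_le_mul_of_nonneg_left h2 h11.le
      _ = (M * exp (-π * M * u)) * (1 - exp (-(m * (π * (v - u))))) := by ring
      _ ≤ (m * exp (-π * m * u)) * (1 - exp (-(m * (π * (v - u))))) :=
          mul_le_mul_of_nonneg_right h4 h10
      _ = _ := by ring
  exact le_of_mul_le_mul_left h12 hm0

private theorem om_diff {u v : ℝ} (hu : 0 < u) (hv : 0 < v) :
    Summable (fun g : ℕ => exp (-π * ((g : ℝ) + 1) ^ 2 * u) - exp (-π * ((g : ℝ) + 1) ^ 2 * v)) ∧
    Om u - Om v = 2 * ∑' g : ℕ, (-1 : ℝ) ^ g * (exp (-π * ((g : ℝ) + 1) ^ 2 * u) -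
      exp (-π * ((g : ℝ) + 1) ^ 2 * v)) := by
  refine ⟨(om_summable hu).sub (om_summable hv), ?_⟩
  rw [om_eq_alt, om_eq_alt, ← mul_sub, ← ((om_summable hu).alternating).tsum_sub
    ((om_summable hv).alternating)]
  congr 1
  refine tsum_congr fun g => by ring

private theorem om_anti_large {u v : ℝ} (hu : 1 ≤ 2 * u) (huv : u ≤ v) : Om v ≤ Om u := by
  have hu0 : 0 < u := by linarith
  obtain ⟨h1, h2⟩ := om_diff hu0 (hu0.trans_le huv)
  have h3 := (om_diff_anti hu huv).alternating_series_le_tendsto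
    h1.tendsto_alternating_series_tsum 0
  simp only [mul_zero, Finset.range_zero, Finset.sum_empty] at h3
  linarith

theorem om_anti {u v : ℝ} (hu : 0 < u) (huv : u ≤ v) : Om v ≤ Om u := by
  rcases le_total v 1 with h1 | h1
  · exact om_anti_small hu huv h1
  · rcases le_total 1 u with h2 | h2
    · exact om_anti_large (by linarith) huv
    · exact (om_anti_large (by norm_num) h1).trans (om_anti_small hu h2 le_rfl)

private theorem om_sq_summable : Summable fun g : ℕ => 1 / ((g : ℝ) + 1) ^ 2 := by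
  have h1 : Summable fun n : ℕ => (1 : ℝ) / (n : ℝ) ^ 2 := hasSum_zeta_two.summable
  have h2 := (summable_nat_add_iff 1).2 h1
  simpa using h2

private theorem om_lip_small {u v : ℝ} (hu : 0 < u) (huv : u ≤ v) (hv : v ≤ 1) (hv2 : v ≤ 2 * u) :
    Om u - Om v ≤ (300 * ∑' g : ℕ, 1 / ((g : ℝ) + 1) ^ 2) * ((v - u) / u) := by
  have hv0 : 0 < v := hu.trans_le huv
  rw [om_poisson hu, om_poisson hv0]
  have h1 : ∀ k : ℕ, (√v)⁻¹ * exp (-(π * (2 * (k : ℝ) + 1) ^ 2 / 4) / v) -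
      (√u)⁻¹ * exp (-(π * (2 * (k : ℝ) + 1) ^ 2 / 4) / u) ≤
      (1 / ((k : ℝ) + 1) ^ 2) * (150 * ((v - u) / u)) := by
    intro k
    have hk : (0 : ℝ) ≤ k := Nat.cast_nonneg k
    set c : ℝ := π * (2 * (k : ℝ) + 1) ^ 2 / 4 with hc
    have hcge : 3 / 4 * ((k : ℝ) + 1) ^ 2 ≤ c := by
      rw [hc]
      have h2 : ((k : ℝ) + 1) ^ 2 ≤ (2 * (k : ℝ) + 1) ^ 2 := by nlinarith
      have h3 : 3 * ((k : ℝ) + 1) ^ 2 ≤ π * (2 * (k : ℝ) + 1) ^ 2 :=
        mul_le_mul pi_gt_three.le h2 (by positivity) pi_pos.le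
      linarith
    have hk1 : (1 : ℝ) ≤ ((k : ℝ) + 1) ^ 2 := by nlinarith
    have hc0 : 0 < c := by linarith
    have hsu : 0 < √u := Real.sqrt_pos.2 hu
    have hinv : (√v)⁻¹ ≤ (√u)⁻¹ := by
      apply inv_anti₀ hsu (Real.sqrt_le_sqrt huv)
    have hinv2 : (√u)⁻¹ ≤ 2 / v := by
      have h2 : u ≤ √u := by
        apply Real.le_sqrt_of_sq_le
        nlinarith
      have h3 : (√u)⁻¹ ≤ u⁻¹ := inv_anti₀ hu h2
      have h4 : u⁻¹ ≤ 2 / v := by
        rw [inv_eq_one_div, div_le_div_iff₀ hu hv0]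
        linarith
      exact h3.trans h4
    have h5 : exp (-c / v) - exp (-c / u) ≤ exp (-c / v) * (c * (v - u) / (u * v)) := by
      have h6 : exp (-c / u) = exp (-c / v) * exp (-(c * (v - u) / (u * v))) := by
        rw [← exp_add]
        congr 1
        field_simp
        ring
      rw [h6]
      have h7 : -(c * (v - u) / (u * v)) + 1 ≤ exp (-(c * (v - u) / (u * v))) :=
        Real.add_one_le_exp _
      have h8 : 0 < exp (-c / v) := exp_pos _
      nlinarith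
    have h9 : (√v)⁻¹ * exp (-c / v) - (√u)⁻¹ * exp (-c / u) ≤
        (√u)⁻¹ * (exp (-c / v) - exp (-c / u)) := by
      have h8 : 0 < exp (-c / v) := exp_pos _
      nlinarith
    have hvu : 0 ≤ (v - u) / u := div_nonneg (by linarith) hu.le
    -- `exp (-c/v) ≤ 24 v^4 / c^4`
    have h10 : exp (-c / v) ≤ 24 * v ^ 4 / c ^ 4 := by
      have h11 := Real.pow_div_factorial_le_exp (x := c / v) (by positivity) 4
      have h12 : exp (-c / v) = (exp (c / v))⁻¹ := by rw [← exp_neg]; congr 1; ring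
      rw [h12]
      have h13 : 0 < (c / v) ^ 4 / (Nat.factorial 4 : ℝ) := by positivity
      have h14 := inv_anti₀ h13 h11
      refine h14.trans (le_of_eq ?_)
      simp only [Nat.factorial]
      push_cast
      field_simp
    have h15 : (√u)⁻¹ * (exp (-c / v) * (c * (v - u) / (u * v))) ≤
        (1 / ((k : ℝ) + 1) ^ 2) * (150 * ((v - u) / u)) := by
      have h16 : exp (-c / v) * (c * (v - u) / (u * v)) = (exp (-c / v) * (c / v)) * ((v - u) / u) := by
        field_simp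
      rw [h16, ← mul_assoc (√u)⁻¹, ← mul_assoc (1 / ((k : ℝ) + 1) ^ 2)]
      apply mul_le_mul_of_nonneg_right _ hvu
      have h17 : exp (-c / v) * (c / v) ≤ 24 * v ^ 4 / c ^ 4 * (c / v) :=
        mul_le_mul_of_nonneg_right h10 (by positivity)
      have h18 : (√u)⁻¹ * (exp (-c / v) * (c / v)) ≤ 2 / v * (24 * v ^ 4 / c ^ 4 * (c / v)) :=
        mul_le_mul hinv2 h17 (by positivity) (by positivity)
      refine h18.trans ?_
      have h19 : 2 / v * (24 * v ^ 4 / c ^ 4 * (c / v)) = 48 * v ^ 2 / c ^ 3 := by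
        field_simp
        norm_num
      rw [h19]
      have h20 : v ^ 2 ≤ 1 := by nlinarith
      have h21 : 27 / 64 * ((k : ℝ) + 1) ^ 2 ≤ c ^ 3 := by
        have h22 : (3 / 4 * ((k : ℝ) + 1) ^ 2) ^ 3 ≤ c ^ 3 := by gcongr
        have h23 : 27 / 64 * ((k : ℝ) + 1) ^ 2 ≤ (3 / 4 * ((k : ℝ) + 1) ^ 2) ^ 3 := by
          have h24 : ((k : ℝ) + 1) ^ 2 ≤ (((k : ℝ) + 1) ^ 2) ^ 3 := by
            nlinarith [mul_self_nonneg (((k : ℝ) + 1) ^ 2), mul_nonneg (by linarith : (0:ℝ) ≤ ((k : ℝ) + 1) ^ 2) (by linarith : (0:ℝ) ≤ ((k : ℝ) + 1) ^ 2 - 1)]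
          nlinarith
        linarith
      rw [div_mul_eq_mul_div, one_mul, div_le_div_iff₀ (by positivity) (by positivity)]
      nlinarith
    linarith [mul_le_mul_of_nonneg_left h5 (inv_pos.2 hsu).le]
  have h2 : ∑' k : ℕ, (√v)⁻¹ * exp (-(π * (2 * (k : ℝ) + 1) ^ 2 / 4) / v) -
      ∑' k : ℕ, (√u)⁻¹ * exp (-(π * (2 * (k : ℝ) + 1) ^ 2 / 4) / u) ≤
      (∑' k : ℕ, 1 / ((k : ℝ) + 1) ^ 2) * (150 * ((v - u) / u)) := by
    rw [← (om_phi_summable hv0).tsum_sub (om_phi_summable hu), ← tsum_mul_right]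
    exact ((om_phi_summable hv0).sub (om_phi_summable hu)).tsum_le_tsum h1
      (om_sq_summable.mul_right _)
  linarith

private theorem om_lip_large {u v : ℝ} (hu : 1 ≤ 2 * u) (huv : u ≤ v) :
    Om u - Om v ≤ (300 * ∑' g : ℕ, 1 / ((g : ℝ) + 1) ^ 2) * ((v - u) / u) := by
  have hu0 : 0 < u := by linarith
  have hv0 : 0 < v := hu0.trans_le huv
  obtain ⟨h1, h2⟩ := om_diff hu0 hv0
  rw [h2]
  have hvu : 0 ≤ (v - u) / u := div_nonneg (by linarith) hu0.le
  have h3 : ∀ g : ℕ, (-1 : ℝ) ^ g * (exp (-π * ((g : ℝ) + 1) ^ 2 * u) -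
      exp (-π * ((g : ℝ) + 1) ^ 2 * v)) ≤ (1 / ((g : ℝ) + 1) ^ 2) * (150 * ((v - u) / u)) := by
    intro g
    have hg : (0 : ℝ) ≤ g := Nat.cast_nonneg g
    set m : ℝ := ((g : ℝ) + 1) ^ 2 with hm
    have hm1 : 1 ≤ m := by rw [hm]; nlinarith
    have h4 : 0 ≤ exp (-π * m * u) - exp (-π * m * v) := by
      rw [sub_nonneg]
      apply exp_le_exp.2
      have : 0 < π * m := by positivity
      nlinarith
    have h5 : (-1 : ℝ) ^ g * (exp (-π * m * u) - exp (-π * m * v)) ≤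
        exp (-π * m * u) - exp (-π * m * v) := by
      rcases neg_one_pow_eq_or ℝ g with h | h <;> rw [h] <;> linarith
    have h6 : exp (-π * m * u) - exp (-π * m * v) ≤ exp (-π * m * u) * (π * m * (v - u)) := by
      have h7 : exp (-π * m * v) = exp (-π * m * u) * exp (-(π * m * (v - u))) := by
        rw [← exp_add]; congr 1; ring
      rw [h7]
      have h8 : -(π * m * (v - u)) + 1 ≤ exp (-(π * m * (v - u))) := Real.add_one_le_exp _
      have h9 : 0 < exp (-π * m * u) := exp_pos _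
      nlinarith
    have h10 : exp (-π * m * u) ≤ 2 / (π * m * u) ^ 2 := by
      have h11 := Real.pow_div_factorial_le_exp (x := π * m * u) (by positivity) 2
      have h12 : exp (-π * m * u) = (exp (π * m * u))⁻¹ := by rw [← exp_neg]; congr 1; ring
      rw [h12]
      have h13 : 0 < (π * m * u) ^ 2 / (Nat.factorial 2 : ℝ) := by positivity
      refine (inv_anti₀ h13 h11).trans (le_of_eq ?_)
      simp only [Nat.factorial]
      push_cast
      field_simp
    have h14 : exp (-π * m * u) * (π * m * (v - u)) ≤ (1 / m) * (150 * ((v - u) / u)) := by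
      have h15 : 0 ≤ π * m * (v - u) := by
        have : 0 ≤ v - u := by linarith
        positivity
      refine (mul_le_mul_of_nonneg_right h10 h15).trans ?_
      have h16 : 2 / (π * m * u) ^ 2 * (π * m * (v - u)) = (1 / m) * (2 / (π * u) * ((v - u) / u)) := by
        field_simp
      rw [h16]
      apply mul_le_mul_of_nonneg_left _ (by positivity)
      apply mul_le_mul_of_nonneg_right _ hvu
      rw [div_le_iff₀ (by positivity)]
      nlinarith [pi_gt_three]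
    linarith
  have h4 := h1.alternating.tsum_le_tsum h3 (om_sq_summable.mul_right _)
  rw [tsum_mul_right] at h4
  linarith

/-- `|Ω(u) - Ω(v)| ≤ C (v - u)/u` for `u ≤ v`: the function is Lipschitz in `log u`. -/
theorem om_lip : ∃ C : ℝ, 0 < C ∧ ∀ u v : ℝ, 0 < u → u ≤ v → Om u - Om v ≤ C * ((v - u) / u) := by
  have hS : 0 ≤ ∑' g : ℕ, 1 / ((g : ℝ) + 1) ^ 2 := tsum_nonneg fun g => by positivity
  refine ⟨1 + 300 * ∑' g : ℕ, 1 / ((g : ℝ) + 1) ^ 2, by linarith, fun u v hu huv => ?_⟩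
  have hvu : 0 ≤ (v - u) / u := div_nonneg (by linarith) hu.le
  rcases le_total (2 * u) v with h1 | h1
  · have h2 : 1 ≤ (v - u) / u := by rw [le_div_iff₀ hu]; linarith
    have h3 := om_le_one hu
    have h4 := om_nonneg (hu.trans_le huv)
    nlinarith
  · rcases le_total v 1 with h2 | h2
    · have := om_lip_small hu huv h2 h1
      nlinarith
    · have := om_lip_large (by linarith : 1 ≤ 2 * u) huv
      nlinarith

theorem om_integrable : MeasureTheory.IntegrableOn Om (Set.Ioi 0) := by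
  have h1 : MeasureTheory.IntegrableOn (fun u : ℝ => 2 * exp (-π * u)) (Set.Ioi 0) :=
    (integrableOn_exp_mul_Ioi (neg_lt_zero.2 pi_pos) 0).const_mul 2
  refine MeasureTheory.Integrable.mono' h1 ?_ ?_
  · refine (aemeasurable_restrict_of_antitoneOn measurableSet_Ioi ?_).aestronglyMeasurable
    intro u hu v _ huv
    exact om_anti hu huv
  · refine (MeasureTheory.ae_restrict_iff' measurableSet_Ioi).2 (Filter.Eventually.of_forall ?_)
    intro u hu
    rw [Real.norm_of_nonneg (om_nonneg hu)]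
    exact om_le_exp hu

theorem om_integral : ∫ u in Set.Ioi (0 : ℝ), Om u = π / 6 := by
  have hneg : ∀ g : ℕ, -π * ((g : ℝ) + 1) ^ 2 < 0 := fun g => by
    have : 0 < π * ((g : ℝ) + 1) ^ 2 := by positivity
    linarith
  have hint : ∀ g : ℕ, ∫ u in Set.Ioi (0 : ℝ), exp (-π * ((g : ℝ) + 1) ^ 2 * u) =
      (1 / π) * (1 / ((g : ℝ) + 1) ^ 2) := fun g => by
    rw [integral_exp_mul_Ioi (hneg g) 0]
    simp only [mul_zero, exp_zero]
    field_simp
  have h1 := MeasureTheory.hasSum_integral_of_summable_integral_norm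
    (μ := MeasureTheory.volume.restrict (Set.Ioi (0 : ℝ)))
    (F := fun (g : ℕ) (u : ℝ) => 2 * (-1) ^ g * exp (-π * ((g : ℝ) + 1) ^ 2 * u))
    (fun g => (integrableOn_exp_mul_Ioi (hneg g) 0).const_mul _) (by
      have h2 : ∀ g : ℕ, ∫ u in Set.Ioi (0 : ℝ), ‖2 * (-1) ^ g * exp (-π * ((g : ℝ) + 1) ^ 2 * u)‖ =
          2 * ((1 / π) * (1 / ((g : ℝ) + 1) ^ 2)) := fun g => by
        have h3 : ∀ u : ℝ, ‖2 * (-1) ^ g * exp (-π * ((g : ℝ) + 1) ^ 2 * u)‖ =
            2 * exp (-π * ((g : ℝ) + 1) ^ 2 * u) := fun u => by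
          rw [norm_mul, norm_mul, norm_pow, norm_neg, norm_one, one_pow, mul_one,
            Real.norm_of_nonneg (exp_pos _).le]
          norm_num
        simp only [h3]
        rw [MeasureTheory.integral_const_mul, hint]
      simp only [h2]
      exact (om_sq_summable.mul_left _).mul_left _)
  have h4 : ∫ u in Set.Ioi (0 : ℝ), Om u =
      ∑' g : ℕ, ∫ u in Set.Ioi (0 : ℝ), 2 * (-1) ^ g * exp (-π * ((g : ℝ) + 1) ^ 2 * u) :=
    h1.tsum_eq.symm
  rw [h4]
  have h5 : ∀ g : ℕ, ∫ u in Set.Ioi (0 : ℝ), 2 * (-1) ^ g * exp (-π * ((g : ℝ) + 1) ^ 2 * u) =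
      (2 / π) * ((-1) ^ g * (1 / ((g : ℝ) + 1) ^ 2)) := fun g => by
    rw [MeasureTheory.integral_const_mul, hint]
    ring
  simp only [h5]
  rw [tsum_mul_left, om_alt om_sq_summable]
  have h6 : ∀ g : ℕ, 1 / (((2 * g + 1 : ℕ) : ℝ) + 1) ^ 2 = (1 / 4) * (1 / ((g : ℝ) + 1) ^ 2) :=
    fun g => by
      push_cast
      field_simp
      ring
  simp only [h6]
  rw [tsum_mul_left]
  have h7 : ∑' g : ℕ, 1 / ((g : ℝ) + 1) ^ 2 = π ^ 2 / 6 := by
    have h8 := (hasSum_nat_add_iff' (f := fun n : ℕ => (1 : ℝ) / (n : ℝ) ^ 2) 1).2 hasSum_zeta_two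
    simp only [Finset.range_one, Finset.sum_singleton, Nat.cast_zero, ne_eq, OfNat.ofNat_ne_zero,
      not_false_eq_true, zero_pow, div_zero, sub_zero, Nat.cast_add, Nat.cast_one] at h8
    exact h8.tsum_eq
  rw [h7]
  have := pi_pos
  field_simp
  ring

end Pool.Agent.DEU
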