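import Pool.Agent.DEU.CDefs
import Pool.Agent.DEU.Omega

/-!
# DEU.TBound: the exponential sums over `t`, and their variation
-/

namespace Pool.Agent.DEU

open Finset Real

lemma tb_norm_ee (x : ℝ) : ‖ee x‖ = 1 := by
  unfold ee
  have : (2 * (π : ℂ) * Complex.I * (x : ℂ)) = ((2 * π * x : ℝ) : ℂ) * Complex.I := by
    push_cast; ring
  rw [this, Complex.norm_exp_ofReal_mul_I]

lemma tb_ee_add (x y : ℝ) : ee (x + y) = ee x * ee y := by
  unfold ee
  rw [← Complex.exp_add]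
  congr 1
  push_cast
  ring

lemma tb_ee_neg_sub (x : ℝ) : ‖ee (-x) - 1‖ = ‖ee x - 1‖ := by
  have h1 : ee (-x) * ee x = 1 := by
    rw [← tb_ee_add, neg_add_cancel]
    simp [ee]
  have h2 : ee (-x) - 1 = -(ee (-x) * (ee x - 1)) := by
    rw [mul_sub, h1]; ring
  rw [h2, norm_neg, norm_mul, tb_norm_ee, one_mul]

/-- Abel summation with antitone weights -/
lemma tb_abel (w : ℕ → ℝ) (z : ℕ → ℂ) (M : ℝ) (k : ℕ) (hw0 : ∀ i < k, 0 ≤ w i)
    (hw1 : ∀ i < k, w i ≤ 1) (hanti : ∀ i, i + 1 < k → w (i + 1) ≤ w i)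
    (hM : ∀ j ≤ k, ‖∑ i ∈ range j, z i‖ ≤ M) :
    ‖∑ i ∈ range k, z i * (w i : ℂ)‖ ≤ M := by
  have hM0 : 0 ≤ M := (norm_nonneg _).trans (hM 0 (Nat.zero_le _))
  have key : ∀ j : ℕ, j < k → ‖∑ i ∈ range (j + 1), z i * (w i : ℂ) -
      (∑ i ∈ range (j + 1), z i) * (w j : ℂ)‖ ≤ M * (w 0 - w j) := by
    intro j
    induction j with
    | zero => intro _; simp
    | succ j ih =>
      intro hj
      have h1 := ih (by omega)
      have h2 : ∑ i ∈ range (j + 1 + 1), z i * (w i : ℂ) -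
          (∑ i ∈ range (j + 1 + 1), z i) * (w (j + 1) : ℂ) =
          (∑ i ∈ range (j + 1), z i * (w i : ℂ) - (∑ i ∈ range (j + 1), z i) * (w j : ℂ)) +
          (∑ i ∈ range (j + 1), z i) * ((w j - w (j + 1) : ℝ) : ℂ) := by
        rw [sum_range_succ _ (j + 1), sum_range_succ (fun i => z i) (j + 1)]
        push_cast
        ring
      rw [h2]
      refine (norm_add_le _ _).trans ?_
      rw [norm_mul, Complex.norm_real, Real.norm_eq_abs,
        abs_of_nonneg (by linarith [hanti j hj])]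
      have h3 : ‖∑ i ∈ range (j + 1), z i‖ * (w j - w (j + 1)) ≤ M * (w j - w (j + 1)) :=
        mul_le_mul_of_nonneg_right (hM _ (by omega)) (by linarith [hanti j hj])
      linarith
  rcases Nat.eq_zero_or_pos k with hk | hk
  · subst hk; simpa using hM0
  · obtain ⟨j, rfl⟩ : ∃ j, k = j + 1 := ⟨k - 1, by omega⟩
    have h1 := key j (by omega)
    have h2 : ‖(∑ i ∈ range (j + 1), z i) * (w j : ℂ)‖ ≤ M * w j := by
      rw [norm_mul, Complex.norm_real, Real.norm_eq_abs, abs_of_nonneg (hw0 j (by omega))]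
      exact mul_le_mul_of_nonneg_right (hM _ le_rfl) (hw0 j (by omega))
    have h3 : ‖∑ i ∈ range (j + 1), z i * (w i : ℂ)‖ ≤ M * (w 0 - w j) + M * w j := by
      have := norm_sub_norm_le (∑ i ∈ range (j + 1), z i * (w i : ℂ))
        ((∑ i ∈ range (j + 1), z i) * (w j : ℂ))
      linarith
    have h4 : M * w 0 ≤ M * 1 := mul_le_mul_of_nonneg_left (hw1 0 (by omega)) hM0
    linarith

/-- a nonempty finite order connected set of integers is an interval -/
lemma tb_interval {P : Finset ℤ} (hP : (P : Set ℤ).OrdConnected) :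
    ∃ (l : ℤ) (k : ℕ), P = (range k).image (fun i : ℕ => l + i) := by
  rcases P.eq_empty_or_nonempty with h | h
  · exact ⟨0, 0, by simp [h]⟩
  · refine ⟨P.min' h, (P.max' h - P.min' h + 1).toNat, ?_⟩
    ext t
    simp only [mem_image, mem_range]
    constructor
    · intro ht
      have h1 := P.min'_le t ht
      have h2 := P.le_max' t ht
      exact ⟨(t - P.min' h).toNat, by omega, by omega⟩
    · rintro ⟨i, hi, rfl⟩
      have h3 := P.min'_le _ (P.max'_mem h)
      exact hP.out (P.min'_mem h) (P.max'_mem h) ⟨by omega, by omega⟩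

lemma tb_piece {P : Finset ℤ} (hP : (P : Set ℤ).OrdConnected) (W : ℤ → ℝ)
    (h0 : ∀ t ∈ P, 0 ≤ W t) (h1 : ∀ t ∈ P, W t ≤ 1) (hanti : ∀ t ∈ P, t + 1 ∈ P → W (t + 1) ≤ W t)
    (x : ℝ) (hx : 0 < ‖ee x - 1‖) :
    ‖∑ t ∈ P, ee (x * t) * (W t : ℂ)‖ ≤ 2 / ‖ee x - 1‖ := by
  obtain ⟨l, k, hk⟩ := tb_interval hP
  have hinj : Function.Injective (fun i : ℕ => l + (i : ℤ)) := fun i j h => by
    simpa using h
  have hmem : ∀ i < k, l + (i : ℤ) ∈ P := by
    intro i hi
    rw [hk]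
    exact mem_image_of_mem _ (mem_range.2 hi)
  have hsum : ∑ t ∈ P, ee (x * t) * (W t : ℂ) =
      ∑ i ∈ range k, ee (x * ((l + i : ℤ) : ℝ)) * (W (l + i) : ℂ) := by
    conv_lhs => rw [hk]
    rw [sum_image (fun i _ j _ h => hinj h)]
  rw [hsum]
  apply tb_abel (fun i => W (l + i)) (fun i => ee (x * ((l + i : ℤ) : ℝ))) _ k
    (fun i hi => h0 _ (hmem i hi)) (fun i hi => h1 _ (hmem i hi))
  · intro i hi
    have := hanti (l + i) (hmem i (by omega)) (by
      have := hmem (i + 1) hi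
      push_cast at this
      rwa [← add_assoc] at this)
    push_cast
    rwa [← add_assoc]
  · intro j _
    rw [le_div_iff₀ hx, ← norm_mul]
    have h5 : (∑ i ∈ range j, ee (x * ((l + i : ℤ) : ℝ))) * (ee x - 1) =
        ee (x * ((l + j : ℤ) : ℝ)) - ee (x * ((l + (0 : ℕ) : ℤ) : ℝ)) := by
      rw [← sum_range_sub (fun i : ℕ => ee (x * ((l + i : ℤ) : ℝ))) j, sum_mul]
      apply sum_congr rfl
      intro i _
      have : x * ((l + (i + 1 : ℕ) : ℤ) : ℝ) = x * ((l + i : ℤ) : ℝ) + x := by push_cast; ring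
      rw [this, tb_ee_add]
      ring
    rw [h5]
    refine (norm_sub_le _ _).trans ?_
    rw [tb_norm_ee, tb_norm_ee]
    norm_num

lemma tb_two_pieces {I : Finset ℤ} (hI : (I : Set ℤ).OrdConnected) (W : ℤ → ℝ)
    (h0 : ∀ t ∈ I, 0 ≤ W t) (h1 : ∀ t ∈ I, W t ≤ 1)
    (hanti : ∀ s ∈ I, ∀ t ∈ I, |s| ≤ |t| → W t ≤ W s)
    (x : ℝ) (hx : 0 < ‖ee x - 1‖) :
    ‖∑ t ∈ I, ee (x * t) * (W t : ℂ)‖ ≤ 4 / ‖ee x - 1‖ := by
  rw [← sum_filter_add_sum_filter_not I (fun t => 0 ≤ t)]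
  refine (norm_add_le _ _).trans ?_
  have hA : ‖∑ t ∈ I.filter (fun t => 0 ≤ t), ee (x * t) * (W t : ℂ)‖ ≤ 2 / ‖ee x - 1‖ := by
    apply tb_piece _ W (fun t ht => h0 t (mem_filter.1 ht).1) (fun t ht => h1 t (mem_filter.1 ht).1)
      _ x hx
    · constructor
      intro a ha b hb c hc
      rw [mem_coe, mem_filter] at ha hb ⊢
      exact ⟨hI.out ha.1 hb.1 hc, ha.2.trans hc.1⟩
    · intro t ht ht'
      rw [mem_filter] at ht ht'
      apply hanti t ht.1 (t + 1) ht'.1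
      rw [abs_of_nonneg ht.2, abs_of_nonneg ht'.2]
      omega
  have hB : ‖∑ t ∈ I.filter (fun t => ¬ 0 ≤ t), ee (x * t) * (W t : ℂ)‖ ≤ 2 / ‖ee x - 1‖ := by
    have e1 : ∑ t ∈ I.filter (fun t => ¬ 0 ≤ t), ee (x * t) * (W t : ℂ) =
        ∑ t ∈ (I.filter (fun t => ¬ 0 ≤ t)).image (fun t => -t),
          ee ((-x) * t) * (W (-t) : ℂ) := by
      rw [sum_image (fun a _ b _ h => neg_injective h)]
      apply sum_congr rfl
      intro t _
      rw [neg_neg]
      congr 2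
      push_cast
      ring
    rw [e1, ← tb_ee_neg_sub x]
    have hm : ∀ t : ℤ, t ∈ (I.filter (fun t => ¬ 0 ≤ t)).image (fun t => -t) ↔
        -t ∈ I ∧ 0 < t := by
      intro t
      simp only [mem_image, mem_filter]
      constructor
      · rintro ⟨s, ⟨h2, h3⟩, rfl⟩
        exact ⟨by simpa using h2, by omega⟩
      · rintro ⟨h2, h3⟩
        exact ⟨-t, ⟨h2, by omega⟩, by ring⟩
    apply tb_piece _ (fun t => W (-t)) (fun t ht => h0 _ ((hm t).1 ht).1)
      (fun t ht => h1 _ ((hm t).1 ht).1) _ (-x) (by rw [tb_ee_neg_sub]; exact hx)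
    · constructor
      intro a ha b hb c hc
      rw [mem_coe, hm] at ha hb ⊢
      exact ⟨hI.out hb.1 ha.1 ⟨by linarith [hc.2], by linarith [hc.1]⟩, lt_of_lt_of_le ha.2 hc.1⟩
    · intro t ht ht'
      rw [hm] at ht ht'
      apply hanti (-t) ht.1 (-(t + 1)) ht'.1
      rw [abs_neg, abs_neg, abs_of_pos ht.2, abs_of_pos ht'.2]
      omega
  have : 4 / ‖ee x - 1‖ = 2 / ‖ee x - 1‖ + 2 / ‖ee x - 1‖ := by ring
  linarith

lemma tb_norm_sub_one {a h : ℕ} (hh : 0 < h) (hha : h < a) :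
    4 * ((min h (a - h) : ℕ) : ℝ) / a ≤ ‖ee ((h : ℝ) / a) - 1‖ := by
  have ha0 : (0 : ℝ) < a := by exact_mod_cast (by omega : 0 < a)
  have h1 : ‖ee ((h : ℝ) / a) - 1‖ = 2 * |sin (π * (h / a))| := by
    have e1 : ee ((h : ℝ) / a) - 1 = Complex.exp (Complex.I * ((2 * π * (h / a) : ℝ) : ℂ)) - 1 := by
      unfold ee
      congr 2
      push_cast
      ring
    rw [e1, Complex.norm_exp_I_mul_ofReal_sub_one]
    rw [norm_mul, Real.norm_eq_abs, Real.norm_eq_abs]
    rw [abs_of_nonneg (by norm_num : (0 : ℝ) ≤ 2)]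
    congr 3
    ring
  rw [h1]
  have hx1 : (0 : ℝ) < (h : ℝ) / a := by positivity
  have hx2 : (h : ℝ) / a < 1 := by
    rw [div_lt_one ha0]; exact_mod_cast hha
  have hs : 0 ≤ sin (π * (h / a)) := by
    apply sin_nonneg_of_nonneg_of_le_pi (by positivity)
    calc π * (h / a) ≤ π * 1 := by
          apply mul_le_mul_of_nonneg_left hx2.le pi_pos.le
      _ = π := mul_one _
  rw [abs_of_nonneg hs]
  have key : 2 * (((min h (a - h) : ℕ) : ℝ) / a) ≤ sin (π * (h / a)) := by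
    rcases le_total ((h : ℝ) / a) (1 / 2) with hle | hge
    · have h2 := Real.mul_le_sin (show (0 : ℝ) ≤ π * (h / a) by positivity) (by
        have := mul_le_mul_of_nonneg_left hle pi_pos.le
        linarith)
      have h3 : 2 / π * (π * ((h : ℝ) / a)) = 2 * (h / a) := by field_simp
      rw [h3] at h2
      refine le_trans ?_ h2
      have : ((min h (a - h) : ℕ) : ℝ) ≤ h := by exact_mod_cast min_le_left _ _
      have := div_le_div_of_nonneg_right this ha0.le
      linarith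
    · have h2 := Real.mul_le_sin (show (0 : ℝ) ≤ π * (1 - h / a) by
          apply mul_nonneg pi_pos.le; linarith) (by
        have := mul_le_mul_of_nonneg_left (show 1 - (h : ℝ) / a ≤ 1 / 2 by linarith) pi_pos.le
        linarith)
      have h3 : 2 / π * (π * (1 - (h : ℝ) / a)) = 2 * (1 - h / a) := by field_simp
      have h4 : sin (π * (1 - (h : ℝ) / a)) = sin (π * (h / a)) := by
        rw [mul_sub, mul_one, sin_pi_sub]
      rw [h3, h4] at h2
      refine le_trans ?_ h2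
      have : ((min h (a - h) : ℕ) : ℝ) ≤ ((a - h : ℕ) : ℝ) := by exact_mod_cast min_le_right _ _
      rw [Nat.cast_sub hha.le] at this
      have := div_le_div_of_nonneg_right this ha0.le
      rw [sub_div, div_self ha0.ne'] at this
      linarith
  calc 4 * ((min h (a - h) : ℕ) : ℝ) / a = 2 * (2 * (((min h (a - h) : ℕ) : ℝ) / a)) := by ring
    _ ≤ _ := by linarith

lemma tb_arg_pos {g a n : ℕ} {t : ℤ} (hg : 1 ≤ g) (ha : 1 ≤ a) (ht : t ^ 2 < 4 * n) :
    0 < (g : ℝ) * a / √(4 * (n : ℝ) - (t : ℝ) ^ 2) := by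
  have h1 : (0 : ℝ) < 4 * (n : ℝ) - (t : ℝ) ^ 2 := by
    have : (t : ℝ) ^ 2 < 4 * n := by exact_mod_cast ht
    linarith
  have : (0 : ℝ) < g := by exact_mod_cast hg
  have : (0 : ℝ) < a := by exact_mod_cast ha
  positivity

theorem tt_bound {J : Set ℤ} (hJ : J.OrdConnected) {g a h n : ℕ} (hg : 1 ≤ g) (hh : 0 < h)
    (hha : h < a) : ‖TT J g a h n‖ ≤ (a : ℝ) / (min h (a - h) : ℕ) := by
  classical
  have ha0 : (0 : ℝ) < a := by exact_mod_cast (by omega : 0 < a)
  have ha : 1 ≤ a := by omega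
  have hg0 : (0 : ℝ) < g := by exact_mod_cast hg
  have hmin : 0 < min h (a - h) := by omega
  have hmin0 : (0 : ℝ) < ((min h (a - h) : ℕ) : ℝ) := by exact_mod_cast hmin
  have hd := tb_norm_sub_one hh hha
  have hd0 : 0 < ‖ee ((h : ℝ) / a) - 1‖ := lt_of_lt_of_le (by positivity) hd
  have hI : (((tset n).filter (fun t => t ∈ J) : Finset ℤ) : Set ℤ).OrdConnected := by
    constructor
    intro x hx y hy z hz
    rw [mem_coe, mem_filter, mem_tset] at hx hy ⊢
    refine ⟨?_, hJ.out hx.2 hy.2 hz⟩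
    have h1 := hz.1
    have h2 := hz.2
    rcases le_total 0 z with h3 | h3
    · have : z ^ 2 ≤ y ^ 2 := by nlinarith
      exact lt_of_le_of_lt this hy.1
    · have : z ^ 2 ≤ x ^ 2 := by nlinarith
      exact lt_of_le_of_lt this hx.1
  have hmem : ∀ t ∈ (tset n).filter (fun t => t ∈ J), t ^ 2 < 4 * (n : ℤ) := by
    intro t ht
    exact mem_tset.1 (mem_filter.1 ht).1
  have := tb_two_pieces hI (fun t => Om ((g : ℝ) * a / √(4 * (n : ℝ) - (t : ℝ) ^ 2)))
    (fun t ht => om_nonneg (tb_arg_pos hg ha (hmem t ht)))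
    (fun t ht => om_le_one (tb_arg_pos hg ha (hmem t ht)))
    (fun s hs t ht hst => by
      apply om_anti (tb_arg_pos hg ha (hmem s hs))
      have h1 : (0 : ℝ) < 4 * (n : ℝ) - (t : ℝ) ^ 2 := by
        have : (t : ℝ) ^ 2 < 4 * n := by exact_mod_cast hmem t ht
        linarith
      apply div_le_div_of_nonneg_left (by positivity) (by positivity)
      apply Real.sqrt_le_sqrt
      have h2 : s ^ 2 ≤ t ^ 2 := sq_le_sq.2 hst
      have h3 : (s : ℝ) ^ 2 ≤ (t : ℝ) ^ 2 := by exact_mod_cast h2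
      linarith) ((h : ℝ) / a) hd0
  have e1 : TT J g a h n = ∑ t ∈ (tset n).filter (fun t => t ∈ J),
      ee ((h : ℝ) / a * t) * (Om ((g : ℝ) * a / √(4 * (n : ℝ) - (t : ℝ) ^ 2)) : ℂ) := by
    unfold TT
    apply sum_congr (by congr)
    intro t _
    congr 2
    ring
  rw [e1]
  refine this.trans ?_
  rw [div_le_div_iff₀ hd0 hmin0]
  rw [div_le_iff₀ ha0] at hd
  linarith

open Classical in
/-- The weight as a function of `n` and `t`. -/
noncomputable def Ff (J : ℕ → Set ℤ) (g a n : ℕ) (t : ℤ) : ℝ :=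
  if t ∈ tset n ∧ t ∈ J n then Om ((g : ℝ) * a / √(4 * (n : ℝ) - (t : ℝ) ^ 2)) else 0

/-- the part of the majorant which comes from the weight -/
noncomputable def tbE (C₀ : ℝ) (n : ℕ) (t : ℤ) : ℝ :=
  if 4 * (n : ℤ) ≤ t ^ 2 then 1 else C₀ / (4 * (n : ℝ) - (t : ℝ) ^ 2)

lemma tbE_nonneg {C₀ : ℝ} (hC : 0 < C₀) (n : ℕ) (t : ℤ) : 0 ≤ tbE C₀ n t := by
  unfold tbE
  split_ifs with h
  · norm_num
  · have : (t : ℝ) ^ 2 < 4 * n := by exact_mod_cast not_le.1 h
    apply div_nonneg hC.le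
    linarith

open Classical in
lemma Ff_mem {J : ℕ → Set ℤ} {g a n : ℕ} {t : ℤ} (hg : 1 ≤ g) (ha : 1 ≤ a) :
    0 ≤ Ff J g a n t ∧ Ff J g a n t ≤ 1 := by
  unfold Ff
  split_ifs with h
  · have := tb_arg_pos hg ha (mem_tset.1 h.1)
    exact ⟨om_nonneg this, om_le_one this⟩
  · exact ⟨le_rfl, zero_le_one⟩

open Classical in
lemma tb_var {C : ℝ} (hC : 0 < C)
    (hlip : ∀ u v : ℝ, 0 < u → u ≤ v → Om u - Om v ≤ C * ((v - u) / u))
    (J : ℕ → Set ℤ) (g a n : ℕ) (hg : 1 ≤ g) (ha : 1 ≤ a) (t : ℤ) (ht : t ∈ tset (n + 1)) :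
    |Ff J g a (n + 1) t - Ff J g a n t| ≤
      (if ¬ (t ∈ J n ↔ t ∈ J (n + 1)) then 1 else 0) + tbE (2 * C) n t := by
  have hE := tbE_nonneg (show 0 < 2 * C by linarith) n t
  have h1 := Ff_mem (J := J) (n := n) (t := t) hg ha
  have h2 := Ff_mem (J := J) (n := n + 1) (t := t) hg ha
  have h3 : |Ff J g a (n + 1) t - Ff J g a n t| ≤ 1 := by
    rw [abs_le]; constructor <;> linarith [h1.1, h1.2, h2.1, h2.2]
  by_cases hJ : (t ∈ J n ↔ t ∈ J (n + 1))
  · rw [if_neg (not_not.2 hJ), zero_add]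
    by_cases hn : 4 * (n : ℤ) ≤ t ^ 2
    · unfold tbE
      rw [if_pos hn]
      exact h3
    · by_cases htJ : t ∈ J n
      · have htn : t ∈ tset n := mem_tset.2 (not_le.1 hn)
        have e1 : Ff J g a n t = Om ((g : ℝ) * a / √(4 * (n : ℝ) - (t : ℝ) ^ 2)) := by
          unfold Ff; rw [if_pos ⟨htn, htJ⟩]
        have e2 : Ff J g a (n + 1) t =
            Om ((g : ℝ) * a / √(4 * ((n + 1 : ℕ) : ℝ) - (t : ℝ) ^ 2)) := by
          unfold Ff; rw [if_pos ⟨ht, hJ.1 htJ⟩]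
        have hlt : (t : ℝ) ^ 2 < 4 * n := by exact_mod_cast not_le.1 hn
        set y : ℝ := 4 * (n : ℝ) - (t : ℝ) ^ 2 with hy
        have hy0 : 0 < y := by linarith
        have hy' : 4 * ((n + 1 : ℕ) : ℝ) - (t : ℝ) ^ 2 = y + 4 := by push_cast; ring
        rw [e1, e2, hy']
        have hga : (0 : ℝ) < (g : ℝ) * a := by
          have : (0 : ℝ) < g := by exact_mod_cast hg
          have : (0 : ℝ) < a := by exact_mod_cast ha
          positivity
        have hu : 0 < (g : ℝ) * a / √(y + 4) := by positivity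
        have huv : (g : ℝ) * a / √(y + 4) ≤ (g : ℝ) * a / √y :=
          div_le_div_of_nonneg_left hga.le (by positivity) (Real.sqrt_le_sqrt (by linarith))
        have h4 := om_anti hu huv
        have h5 := hlip _ _ hu huv
        rw [abs_of_nonneg (by linarith)]
        refine h5.trans ?_
        unfold tbE
        rw [if_neg hn, ← hy]
        have hsy : 0 < √y := Real.sqrt_pos.2 hy0
        have hsy4 : 0 < √(y + 4) := Real.sqrt_pos.2 (by linarith)
        have h6 : ((g : ℝ) * a / √y - (g : ℝ) * a / √(y + 4)) / ((g : ℝ) * a / √(y + 4)) =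
            √(y + 4) / √y - 1 := by
          field_simp
        rw [h6]
        have h7 : √(y + 4) / √y ≤ 1 + 2 / y := by
          rw [← Real.sqrt_div' _ hy0.le]
          apply Real.sqrt_le_iff.2
          constructor
          · positivity
          · have : (y + 4) / y = 1 + 4 / y := by field_simp
            rw [this]
            have h8 : 0 < 2 / y := by positivity
            have h9 : 4 / y = 2 * (2 / y) := by ring
            rw [h9]
            nlinarith
        calc C * (√(y + 4) / √y - 1) ≤ C * (2 / y) := by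
              apply mul_le_mul_of_nonneg_left _ hC.le
              linarith
          _ = 2 * C / y := by ring
      · have e1 : Ff J g a n t = 0 := by
          unfold Ff; rw [if_neg (fun h => htJ h.2)]
        have e2 : Ff J g a (n + 1) t = 0 := by
          unfold Ff; rw [if_neg (fun h => htJ (hJ.2 h.2))]
        rw [e1, e2, sub_zero, abs_zero]
        exact hE
  · rw [if_pos hJ]
    linarith

lemma tb_harm (k : ℕ) : ∑ i ∈ range k, (1 : ℝ) / (i + 1) ≤ 1 + log k := by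
  have h1 := harmonic_le_one_add_log k
  have h2 : ((harmonic k : ℚ) : ℝ) = ∑ i ∈ range k, (1 : ℝ) / (i + 1) := by
    rw [harmonic]
    push_cast
    apply sum_congr rfl
    intro i _
    rw [one_div]
  rw [← h2]
  exact h1

/-- small `t` -/
lemma tb_small {C₀ : ℝ} (hC : 0 < C₀) {n₁ n s : ℕ} (hn : n₁ ≤ n) (hs : s ^ 2 ≤ 4 * n₁) (t : ℤ)
    (ht : t.natAbs < s) : tbE C₀ n t ≤ C₀ / (s * (s - (t.natAbs : ℝ))) := by
  have hk : (t : ℝ) ^ 2 = (t.natAbs : ℝ) ^ 2 := by
    rw [Nat.cast_natAbs, Int.cast_abs, sq_abs]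
  have hks : (t.natAbs : ℝ) + 1 ≤ s := by exact_mod_cast ht
  have hs' : (s : ℝ) ^ 2 ≤ 4 * n := by
    have : (s ^ 2 : ℕ) ≤ 4 * n := hs.trans (by omega)
    exact_mod_cast this
  have hk0 : (0 : ℝ) ≤ t.natAbs := Nat.cast_nonneg _
  have hlow : (s : ℝ) * (s - (t.natAbs : ℝ)) ≤ 4 * n - (t : ℝ) ^ 2 := by
    rw [hk]; nlinarith
  have hpos : (0 : ℝ) < (s : ℝ) * (s - (t.natAbs : ℝ)) := by
    apply mul_pos <;> linarith
  have hneg : ¬ 4 * (n : ℤ) ≤ t ^ 2 := by
    intro h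
    have : (4 : ℝ) * n ≤ (t : ℝ) ^ 2 := by exact_mod_cast h
    linarith
  unfold tbE
  rw [if_neg hneg]
  exact div_le_div_of_nonneg_left hC.le hpos hlow

lemma tb_small_sum (s : ℕ) (hs : 1 ≤ s) :
    ∑ t ∈ (Ioo (-(s : ℤ)) s), (1 : ℝ) / (s * (s - (t.natAbs : ℝ))) ≤
      2 / s * (1 + log s) := by
  have hs0 : (0 : ℝ) < s := by exact_mod_cast hs
  have hmaps : ∀ t ∈ Ioo (-(s : ℤ)) s, t.natAbs ∈ range s := by
    intro t ht
    rw [mem_Ioo] at ht
    rw [mem_range]
    omega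
  rw [← sum_fiberwise_of_maps_to hmaps]
  have h1 : ∀ k ∈ range s, ∑ t ∈ (Ioo (-(s : ℤ)) s).filter (fun t => t.natAbs = k),
      (1 : ℝ) / (s * (s - (t.natAbs : ℝ))) ≤ 2 * (1 / (s * (s - (k : ℝ)))) := by
    intro k hk
    rw [mem_range] at hk
    have hk' : (k : ℝ) + 1 ≤ s := by exact_mod_cast hk
    have h2 : ∀ t ∈ (Ioo (-(s : ℤ)) s).filter (fun t => t.natAbs = k),
        (1 : ℝ) / (s * (s - (t.natAbs : ℝ))) = 1 / (s * (s - (k : ℝ))) := by
      intro t ht
      rw [(mem_filter.1 ht).2]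
    rw [sum_congr rfl h2, sum_const, nsmul_eq_mul]
    have h3 : ((Ioo (-(s : ℤ)) s).filter (fun t => t.natAbs = k)).card ≤ 2 := by
      have : (Ioo (-(s : ℤ)) s).filter (fun t => t.natAbs = k) ⊆ {(k : ℤ), -(k : ℤ)} := by
        intro t ht
        have := (mem_filter.1 ht).2
        rw [mem_insert, mem_singleton]
        omega
      exact (card_le_card this).trans card_le_two
    have h4 : (0 : ℝ) ≤ 1 / (s * (s - (k : ℝ))) := by
      apply div_nonneg zero_le_one
      apply mul_nonneg hs0.le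
      linarith
    apply mul_le_mul_of_nonneg_right _ h4
    exact_mod_cast h3
  refine (sum_le_sum h1).trans ?_
  rw [← mul_sum, ← sum_range_reflect]
  have h5 : ∑ j ∈ range s, (1 : ℝ) / (s * (s - ((s - 1 - j : ℕ) : ℝ))) =
      1 / s * ∑ j ∈ range s, (1 : ℝ) / (j + 1) := by
    rw [mul_sum]
    apply sum_congr rfl
    intro j hj
    rw [mem_range] at hj
    have : ((s - 1 - j : ℕ) : ℝ) = s - 1 - j := by
      rw [Nat.cast_sub (by omega), Nat.cast_sub hs]
      push_cast; ring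
    rw [this]
    have : (s : ℝ) - (s - 1 - j) = j + 1 := by ring
    rw [this, one_div_mul_one_div]
  rw [h5]
  have h6 := tb_harm s
  calc 2 * (1 / (s : ℝ) * ∑ j ∈ range s, (1 : ℝ) / (j + 1))
      ≤ 2 * (1 / (s : ℝ) * (1 + log s)) := by gcongr
    _ = 2 / s * (1 + log s) := by ring

/-- the sum over `n` for one `t` -/
lemma tb_col {C₀ : ℝ} (hC : 0 < C₀) (t : ℤ) (n₁ n₂ X : ℕ) (hX : 1 ≤ X) (hn₂ : n₂ ≤ 2 * X) :
    ∑ n ∈ (Ico n₁ n₂).filter (fun n => t ∈ tset (n + 1)), tbE C₀ n t ≤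
      1 + C₀ * (1 + log (2 * X)) := by
  -- `m = ⌊t² / 4⌋`
  set m : ℕ := t.natAbs ^ 2 / 4 with hm
  have hsq : t ^ 2 = ((t.natAbs ^ 2 : ℕ) : ℤ) := by
    push_cast
    exact (sq_abs t).symm
  have hS : (Ico n₁ n₂).filter (fun n => t ∈ tset (n + 1)) ⊆ Ico m n₂ := by
    intro n hn
    rw [mem_filter, mem_Ico, mem_tset, hsq] at hn
    rw [mem_Ico]
    refine ⟨?_, hn.1.2⟩
    have h1 : (t.natAbs ^ 2 : ℕ) < 4 * (n + 1) := by exact_mod_cast hn.2
    rw [hm]
    omega
  refine (sum_le_sum_of_subset_of_nonneg hS (fun n _ _ => tbE_nonneg hC n t)).trans ?_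
  rcases le_or_gt n₂ m with h | h
  · rw [Ico_eq_empty (by omega), sum_empty]
    have : 0 ≤ log (2 * (X : ℝ)) := Real.log_nonneg (by
      have : (1 : ℝ) ≤ X := by exact_mod_cast hX
      linarith)
    positivity
  · rw [sum_eq_sum_Ico_succ_bot h, sum_Ico_eq_sum_range]
    have hm4 : 4 * m ≤ t.natAbs ^ 2 ∧ t.natAbs ^ 2 < 4 * m + 4 := by
      rw [hm]; omega
    have h0 : tbE C₀ m t = 1 := by
      unfold tbE
      rw [if_pos]
      rw [hsq]
      exact_mod_cast hm4.1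
    rw [h0]
    have h1 : ∀ j ∈ range (n₂ - (m + 1)), tbE C₀ (m + 1 + j) t ≤ C₀ * (1 / ((j : ℝ) + 1)) := by
      intro j _
      have h2 : (t : ℝ) ^ 2 ≤ 4 * m + 3 := by
        have : t ^ 2 ≤ 4 * (m : ℤ) + 3 := by
          rw [hsq]
          have : t.natAbs ^ 2 ≤ 4 * m + 3 := by omega
          exact_mod_cast this
        exact_mod_cast this
      have hj : (0 : ℝ) ≤ j := Nat.cast_nonneg _
      have h3 : ¬ 4 * ((m + 1 + j : ℕ) : ℤ) ≤ t ^ 2 := by
        intro h4
        have : 4 * ((m + 1 + j : ℕ) : ℝ) ≤ (t : ℝ) ^ 2 := by exact_mod_cast h4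
        push_cast at this
        linarith
      unfold tbE
      rw [if_neg h3, mul_one_div]
      apply div_le_div_of_nonneg_left hC.le (by positivity)
      push_cast
      linarith
    have h2 : ∑ j ∈ range (n₂ - (m + 1)), tbE C₀ (m + 1 + j) t ≤ C₀ * (1 + log (2 * X)) := by
      refine (sum_le_sum h1).trans ?_
      rw [← mul_sum]
      apply mul_le_mul_of_nonneg_left _ hC.le
      have h3 : ∑ j ∈ range (n₂ - (m + 1)), (1 : ℝ) / ((j : ℝ) + 1) ≤
          ∑ j ∈ range (2 * X), (1 : ℝ) / ((j : ℝ) + 1) := by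
        apply sum_le_sum_of_subset_of_nonneg
        · apply range_subset_range.2
          omega
        · intro j _ _
          positivity
      refine h3.trans ((tb_harm _).trans ?_)
      push_cast
      exact le_rfl
    linarith

/-- A majorant for the variation of `Ff` which does not depend on `g` and `a`, and its sum. -/
theorem exists_var : ∃ C : ℝ, 0 < C ∧ ∀ J : ℕ → Set ℤ, Good J → ∃ D : ℕ → ℤ → ℝ,
    (∀ n t, 0 ≤ D n t) ∧
    (∀ g a n : ℕ, 1 ≤ g → 1 ≤ a → ∀ t ∈ tset (n + 1), |Ff J g a (n + 1) t - Ff J g a n t| ≤ D n t) ∧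
    ∀ X n₁ n₂ : ℕ, 1 ≤ X → X ≤ n₁ → n₁ ≤ n₂ → n₂ ≤ 2 * X →
      ∑ n ∈ Ico n₁ n₂, ∑ t ∈ tset (n + 1), D n t ≤
        C * (((n₂ : ℝ) - n₁) / √(X : ℝ) + 1) * (1 + log X) := by
  classical
  obtain ⟨C₁, hC₁, hlip⟩ := om_lip
  set C₀ : ℝ := 2 * C₁ with hC₀
  have hC₀0 : 0 < C₀ := by positivity
  refine ⟨4 + 6 * C₀ + 4 * (1 + 2 * C₀), by positivity, fun J hJ => ?_⟩
  refine ⟨fun n t => (if ¬ (t ∈ J n ↔ t ∈ J (n + 1)) then 1 else 0) + tbE C₀ n t, ?_, ?_, ?_⟩
  · intro n t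
    have := tbE_nonneg hC₀0 n t
    dsimp only
    split_ifs <;> linarith
  · intro g a n hg ha t ht
    exact tb_var hC₁ hlip J g a n hg ha t ht
  · intro X n₁ n₂ hX hXn hn hn2
    have hX1 : (1 : ℝ) ≤ X := by exact_mod_cast hX
    have hX0 : (0 : ℝ) < X := by linarith
    have hlogX : 0 ≤ log (X : ℝ) := Real.log_nonneg hX1
    have hsX : 0 < √(X : ℝ) := Real.sqrt_pos.2 hX0
    have hnn : (0 : ℝ) ≤ (n₂ : ℝ) - n₁ := by
      have : (n₁ : ℝ) ≤ n₂ := by exact_mod_cast hn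
      linarith
    set R : ℝ := ((n₂ : ℝ) - n₁) / √(X : ℝ) with hR
    have hR0 : 0 ≤ R := by positivity
    set L : ℝ := 1 + log X with hL
    have hL1 : 1 ≤ L := by linarith
    -- part 1
    have hpart1 : ∑ n ∈ Ico n₁ n₂, ∑ t ∈ tset (n + 1),
        (if ¬ (t ∈ J n ↔ t ∈ J (n + 1)) then (1 : ℝ) else 0) ≤ 4 * (R + 1) := by
      have h1 := hJ.slow X n₁ n₂ hX hXn hn hn2
      refine le_trans (le_of_eq ?_) h1
      push_cast
      apply sum_congr rfl
      intro n _
      unfold chg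
      rw [← sum_boole]
    -- the square roots
    set s₁ : ℕ := Nat.sqrt (4 * n₁) with hs₁
    set s₂ : ℕ := Nat.sqrt (4 * n₂) with hs₂
    have hs₁1 : s₁ ^ 2 ≤ 4 * n₁ := Nat.sqrt_le' _
    have hs₁2 : 4 * n₁ < (s₁ + 1) ^ 2 := Nat.lt_succ_sqrt' _
    have hs₂1 : s₂ ^ 2 ≤ 4 * n₂ := Nat.sqrt_le' _
    have hs₂2 : 4 * n₂ < (s₂ + 1) ^ 2 := Nat.lt_succ_sqrt' _
    have hs₁pos : 1 ≤ s₁ := by
      by_contra h
      have : s₁ = 0 := by omega
      rw [this] at hs₁2
      omega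
    have hs₁₂ : s₁ ≤ s₂ := Nat.sqrt_le_sqrt (by omega)
    have hs₁r : √(X : ℝ) ≤ s₁ := by
      apply Real.sqrt_le_iff.2
      refine ⟨Nat.cast_nonneg _, ?_⟩
      have h1 : X ≤ s₁ ^ 2 := by nlinarith
      exact_mod_cast h1
    have hs₁0 : (0 : ℝ) < s₁ := by exact_mod_cast hs₁pos
    -- part 2: small t
    have hpart2 : ∑ n ∈ Ico n₁ n₂, ∑ t ∈ (tset (n + 1)).filter (fun t => t.natAbs < s₁),
        tbE C₀ n t ≤ 6 * C₀ * (R * L) := by
      have h1 : ∀ n ∈ Ico n₁ n₂, ∑ t ∈ (tset (n + 1)).filter (fun t => t.natAbs < s₁),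
          tbE C₀ n t ≤ C₀ * (2 / √(X : ℝ) * (3 * L)) := by
        intro n hn'
        rw [mem_Ico] at hn'
        have h2 : ∑ t ∈ (tset (n + 1)).filter (fun t => t.natAbs < s₁), tbE C₀ n t ≤
            ∑ t ∈ Ioo (-(s₁ : ℤ)) s₁, C₀ * (1 / (s₁ * (s₁ - (t.natAbs : ℝ)))) := by
          have h3 : ∑ t ∈ (tset (n + 1)).filter (fun t => t.natAbs < s₁), tbE C₀ n t ≤
              ∑ t ∈ Ioo (-(s₁ : ℤ)) s₁, tbE C₀ n t := by
            apply sum_le_sum_of_subset_of_nonneg
            · intro t ht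
              have := (mem_filter.1 ht).2
              rw [mem_Ioo]
              omega
            · intro t _ _
              exact tbE_nonneg hC₀0 n t
          refine h3.trans (sum_le_sum fun t ht => ?_)
          rw [mem_Ioo] at ht
          rw [mul_one_div]
          exact tb_small hC₀0 hn'.1 hs₁1 t (by omega)
        refine h2.trans ?_
        rw [← mul_sum]
        apply mul_le_mul_of_nonneg_left _ hC₀0.le
        refine (tb_small_sum s₁ hs₁pos).trans ?_
        have h4 : 1 + log (s₁ : ℝ) ≤ 3 * L := by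
          have h5 : (s₁ : ℝ) ^ 2 ≤ 8 * X := by
            have : s₁ ^ 2 ≤ 8 * X := by omega
            exact_mod_cast this
          have h6 : 2 * log (s₁ : ℝ) ≤ log 8 + log X := by
            have h7 : log ((s₁ : ℝ) ^ 2) ≤ log (8 * X) := Real.log_le_log (by positivity) h5
            rw [Real.log_pow, Real.log_mul (by norm_num) hX0.ne'] at h7
            push_cast at h7
            exact h7
          have h8 : log (8 : ℝ) ≤ 3 := by
            have h9 : log (8 : ℝ) = 3 * log 2 := by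
              rw [show (8 : ℝ) = 2 ^ 3 by norm_num, Real.log_pow]
              norm_num
            rw [h9]
            have := Real.log_two_lt_d9
            linarith
          linarith
        have h9 : 2 / (s₁ : ℝ) ≤ 2 / √(X : ℝ) :=
          div_le_div_of_nonneg_left (by norm_num) hsX hs₁r
        have h10 : 0 ≤ 1 + log (s₁ : ℝ) := by
          have : 0 ≤ log (s₁ : ℝ) := Real.log_nonneg (by exact_mod_cast hs₁pos)
          linarith
        exact mul_le_mul h9 h4 h10 (by positivity)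
      refine (sum_le_sum h1).trans ?_
      rw [sum_const, nsmul_eq_mul, Nat.card_Ico, Nat.cast_sub hn]
      apply le_of_eq
      rw [hR]
      field_simp
      ring
    -- part 3: large t
    have hpart3 : ∑ n ∈ Ico n₁ n₂, ∑ t ∈ (tset (n + 1)).filter (fun t => ¬ t.natAbs < s₁),
        tbE C₀ n t ≤ 4 * (1 + 2 * C₀) * ((R + 1) * L) := by
      set K : Finset ℤ := (Icc (-(s₂ : ℤ)) s₂).filter (fun t => ¬ t.natAbs < s₁) with hK
      have h1 : ∑ n ∈ Ico n₁ n₂, ∑ t ∈ (tset (n + 1)).filter (fun t => ¬ t.natAbs < s₁),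
          tbE C₀ n t = ∑ t ∈ K, ∑ n ∈ (Ico n₁ n₂).filter (fun n => t ∈ tset (n + 1)),
          tbE C₀ n t := by
        apply sum_comm'
        intro n t
        simp only [hK, mem_filter, mem_Icc]
        constructor
        · rintro ⟨h1, h2, h3⟩
          refine ⟨⟨h1, h2⟩, ?_, h3⟩
          rw [mem_tset] at h2
          rw [mem_Ico] at h1
          have h4 : t ^ 2 < ((s₂ : ℤ) + 1) ^ 2 := by
            have h5 : ((4 * n₂ : ℕ) : ℤ) < (((s₂ + 1) ^ 2 : ℕ) : ℤ) := by exact_mod_cast hs₂2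
            push_cast at h5 h2
            have h6 : (n : ℤ) + 1 ≤ n₂ := by exact_mod_cast h1.2
            linarith
          have h5 := abs_lt_of_sq_lt_sq h4 (by positivity)
          rw [abs_lt] at h5
          constructor <;> omega
        · rintro ⟨⟨h1, h2⟩, _, h3⟩
          exact ⟨h1, h2, h3⟩
      rw [h1]
      have h2 : ∀ t ∈ K, ∑ n ∈ (Ico n₁ n₂).filter (fun n => t ∈ tset (n + 1)), tbE C₀ n t ≤
          (1 + 2 * C₀) * L := by
        intro t _
        refine (tb_col hC₀0 t n₁ n₂ X hX hn2).trans ?_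
        have h3 : log (2 * (X : ℝ)) ≤ 1 + log X := by
          rw [Real.log_mul (by norm_num) hX0.ne']
          have := Real.log_two_lt_d9
          linarith
        have h4 : C₀ * (1 + log (2 * (X : ℝ))) ≤ C₀ * (2 * L) := by
          apply mul_le_mul_of_nonneg_left _ hC₀0.le
          linarith
        nlinarith
      refine (sum_le_sum h2).trans ?_
      rw [sum_const, nsmul_eq_mul]
      have h3 : (K.card : ℝ) ≤ 4 * (R + 1) := by
        have h4 : K ⊆ Icc (s₁ : ℤ) s₂ ∪ Icc (-(s₂ : ℤ)) (-s₁) := by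
          intro t ht
          rw [hK, mem_filter, mem_Icc] at ht
          rw [mem_union, mem_Icc, mem_Icc]
          omega
        have h5 : K.card ≤ 2 * (s₂ + 1 - s₁) := by
          refine (card_le_card h4).trans ((card_union_le _ _).trans ?_)
          rw [Int.card_Icc, Int.card_Icc]
          omega
        have h6 : (K.card : ℝ) ≤ 2 * ((s₂ : ℝ) + 1 - s₁) := by
          have : ((s₂ + 1 - s₁ : ℕ) : ℝ) = (s₂ : ℝ) + 1 - s₁ := by
            rw [Nat.cast_sub (by omega)]; push_cast; ring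
          rw [← this]
          exact_mod_cast h5
        have h7 : (s₂ : ℝ) - s₁ ≤ R + 1 := by
          have h8 : (s₂ : ℝ) ^ 2 ≤ 4 * n₂ := by exact_mod_cast hs₂1
          have h9 : (4 : ℝ) * n₁ ≤ (s₁ + 1) ^ 2 := by exact_mod_cast hs₁2.le
          have h10 : (s₂ : ℝ) ^ 2 - (s₁ + 1) ^ 2 ≤ 4 * (n₂ - n₁) := by linarith
          have h11 : (n₂ : ℝ) - n₁ = R * √(X : ℝ) := by rw [hR]; field_simp
          by_contra hcon
          rw [not_le] at hcon
          have h12 : R < s₂ - (s₁ + 1) := by linarith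
          have h13 : 4 * √(X : ℝ) < (s₂ : ℝ) + (s₁ + 1) + 0 ∨
              (s₂ : ℝ) + (s₁ + 1) ≤ 4 * √(X : ℝ) := by
            rcases lt_or_ge (4 * √(X : ℝ)) ((s₂ : ℝ) + (s₁ + 1)) with h | h
            · left; linarith
            · right; exact h
          rcases h13 with h14 | h14
          · nlinarith
          · -- 2 √n₁ ≤ s₁ + 1, so s₁ + 1 ≥ 2 √X
            have h15 : 2 * √(X : ℝ) ≤ s₁ + 1 := by
              have h16 : (2 * √(X : ℝ)) ^ 2 ≤ ((s₁ : ℝ) + 1) ^ 2 := by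
                rw [mul_pow, Real.sq_sqrt hX0.le]
                have : (X : ℝ) ≤ n₁ := by exact_mod_cast hXn
                linarith
              exact abs_le_of_sq_le_sq' h16 (by positivity) |>.2
            linarith
        linarith
      have h4 : 0 ≤ (1 + 2 * C₀) * L := by positivity
      calc (K.card : ℝ) * ((1 + 2 * C₀) * L) ≤ 4 * (R + 1) * ((1 + 2 * C₀) * L) :=
            mul_le_mul_of_nonneg_right h3 h4
        _ = _ := by ring
    have hsplit : ∑ n ∈ Ico n₁ n₂, ∑ t ∈ tset (n + 1),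
        ((if ¬ (t ∈ J n ↔ t ∈ J (n + 1)) then (1 : ℝ) else 0) + tbE C₀ n t) =
        ∑ n ∈ Ico n₁ n₂, ∑ t ∈ tset (n + 1),
          (if ¬ (t ∈ J n ↔ t ∈ J (n + 1)) then (1 : ℝ) else 0) +
        (∑ n ∈ Ico n₁ n₂, ∑ t ∈ (tset (n + 1)).filter (fun t => t.natAbs < s₁), tbE C₀ n t +
        ∑ n ∈ Ico n₁ n₂, ∑ t ∈ (tset (n + 1)).filter (fun t => ¬ t.natAbs < s₁),
          tbE C₀ n t) := by
      rw [← sum_add_distrib, ← sum_add_distrib]
      apply sum_congr rfl
      intro n _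
      rw [sum_filter_add_sum_filter_not, sum_add_distrib]
    have hRL : R * L ≤ (R + 1) * L := by nlinarith
    have hRL2 : R + 1 ≤ (R + 1) * L := by nlinarith
    have hfin : 4 * (R + 1) + (6 * C₀ * (R * L) + 4 * (1 + 2 * C₀) * ((R + 1) * L)) ≤
        (4 + 6 * C₀ + 4 * (1 + 2 * C₀)) * (R + 1) * L := by nlinarith
    refine le_trans (le_of_eq hsplit) ?_
    linarith

end Pool.Agent.DEU
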