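import Pool.Agent.DEU.LSieve
import Pool.Agent.DEU.Kloos
import Pool.Agent.DEU.TBound
import Pool.Agent.DEU.SqRoots

/-!
# DEU.Band: the contribution of a dyadic band
-/

namespace Pool.Agent.DEU

open Finset Real

private lemma band_ee_norm (x : ℝ) : ‖ee x‖ = 1 := by
  unfold ee
  have : (2 * (Real.pi : ℂ) * Complex.I * (x : ℂ)) = ((2 * Real.pi * x : ℝ) : ℂ) * Complex.I := by
    push_cast; ring
  rw [this, Complex.norm_exp_ofReal_mul_I]

private lemma band_ee_add (x y : ℝ) : ee (x + y) = ee x * ee y := by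
  unfold ee
  rw [← Complex.exp_add]
  congr 1
  push_cast
  ring

private lemma band_ee_nsmul (x : ℝ) (m : ℕ) : ee (m * x) = ee x ^ m := by
  unfold ee
  rw [← Complex.exp_nat_mul]
  congr 1
  push_cast
  ring

private lemma band_ee_int (k : ℤ) : ee (k : ℝ) = 1 := by
  unfold ee
  rw [Complex.exp_eq_one_iff]
  exact ⟨k, by push_cast; ring⟩

private lemma band_ee_conj (x : ℝ) : (starRingEnd ℂ) (ee x) = ee (-x) := by
  unfold ee
  rw [← Complex.exp_conj]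
  congr 1
  have : (2 * (Real.pi : ℂ) * Complex.I * (x : ℂ)) = ((2 * Real.pi * x : ℝ) : ℂ) * Complex.I := by
    push_cast; ring
  rw [this, map_mul, Complex.conj_ofReal, Complex.conj_I]
  push_cast
  ring

private lemma band_ee_eq_one {x : ℝ} (h : ee x = 1) : ∃ k : ℤ, x = k := by
  unfold ee at h
  rw [Complex.exp_eq_one_iff] at h
  obtain ⟨k, hk⟩ := h
  refine ⟨k, ?_⟩
  have h2 : (2 * (Real.pi : ℂ) * Complex.I) ≠ 0 := by
    simp [Real.pi_ne_zero, Complex.I_ne_zero]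
  have h3 : (2 * (Real.pi : ℂ) * Complex.I) * (x : ℂ) = (2 * (Real.pi : ℂ) * Complex.I) * (k : ℂ) := by
    rw [hk]; ring
  have h4 := mul_left_cancel₀ h2 h3
  exact_mod_cast h4

private lemma band_geom {a : ℕ} (ha : 1 ≤ a) {d : ℤ} (hd : ¬ (a : ℤ) ∣ d) :
    ∑ m ∈ range a, ee ((d : ℝ) * m / a) = 0 := by
  have ha0 : (a : ℝ) ≠ 0 := by positivity
  have h1 : ∀ m : ℕ, ee ((d : ℝ) * m / a) = ee ((d : ℝ) / a) ^ m := by
    intro m
    rw [← band_ee_nsmul]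
    congr 1
    ring
  simp only [h1]
  have hz : ee ((d : ℝ) / a) ≠ 1 := by
    intro h
    obtain ⟨k, hk⟩ := band_ee_eq_one h
    apply hd
    refine ⟨k, ?_⟩
    rw [div_eq_iff ha0] at hk
    have : (d : ℝ) = ((a * k : ℤ) : ℝ) := by push_cast; rw [hk]; ring
    exact_mod_cast this
  have hza : ee ((d : ℝ) / a) ^ a = 1 := by
    rw [← band_ee_nsmul]
    have : (a : ℝ) * ((d : ℝ) / a) = d := by field_simp
    rw [this]
    exact band_ee_int d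
  have := mul_geom_sum (ee ((d : ℝ) / a)) a
  rw [hza, sub_self] at this
  rcases mul_eq_zero.mp this with h | h
  · exact absurd (sub_eq_zero.mp h) hz
  · exact h

private lemma band_inv_lt {a : ℕ} (ha : 1 ≤ a) (r : ℕ) : inv a r < a := by
  unfold inv
  have : NeZero a := ⟨by omega⟩
  exact ZMod.val_lt _

private lemma band_inv_inj {a : ℕ} (ha : 1 ≤ a) : Set.InjOn (inv a) (cop a) := by
  have : NeZero a := ⟨by omega⟩
  intro r hr s hs h
  have hr' := Finset.mem_filter.mp (Finset.mem_coe.mp hr)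
  have hs' := Finset.mem_filter.mp (Finset.mem_coe.mp hs)
  unfold inv at h
  have h1 : ((r : ZMod a)⁻¹) = ((s : ZMod a)⁻¹) := ZMod.val_injective a h
  have h2 : (r : ZMod a) * (s : ZMod a)⁻¹ = 1 := by
    rw [← h1]; exact ZMod.coe_mul_inv_eq_one r hr'.2
  have h3 : (s : ZMod a) * (s : ZMod a)⁻¹ = 1 := ZMod.coe_mul_inv_eq_one s hs'.2
  have h4 : (r : ZMod a) = (s : ZMod a) := by
    calc (r : ZMod a) = r * ((s : ZMod a) * (s : ZMod a)⁻¹) := by rw [h3, mul_one]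
      _ = (r * (s : ZMod a)⁻¹) * s := by ring
      _ = s := by rw [h2, one_mul]
  rw [ZMod.natCast_eq_natCast_iff] at h4
  have hra := Finset.mem_range.mp hr'.1
  have hsa := Finset.mem_range.mp hs'.1
  exact Nat.ModEq.eq_of_lt_of_lt h4 hra hsa

/-- orthogonality -/
private lemma band_orth {a : ℕ} (ha : 1 ≤ a) (H : Finset ℕ) (c : ℕ → ℂ) :
    ∑ m ∈ range a, ‖∑ h ∈ H, c h * ee ((h : ℝ) ^ 2 * m / a)‖ ^ 2 ≤
      a * ∑ h ∈ H, ∑ k ∈ H.filter (fun k : ℕ => ((h : ℕ) : ZMod a) ^ 2 = ((k : ℕ) : ZMod a) ^ 2),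
        ‖c h‖ * ‖c k‖ := by
  have key : ((∑ m ∈ range a, ‖∑ h ∈ H, c h * ee ((h : ℝ) ^ 2 * m / a)‖ ^ 2 : ℝ) : ℂ) =
      ∑ h ∈ H, ∑ k ∈ H, c h * (starRingEnd ℂ) (c k) *
        ∑ m ∈ range a, ee ((((h : ℤ) ^ 2 - (k : ℤ) ^ 2 : ℤ) : ℝ) * m / a) := by
    push_cast
    have h1 : ∀ m ∈ range a, ((‖∑ h ∈ H, c h * ee ((h : ℝ) ^ 2 * m / a)‖ : ℂ)) ^ 2 =
        ∑ h ∈ H, ∑ k ∈ H, c h * (starRingEnd ℂ) (c k) *
          ee (((h : ℝ) ^ 2 - (k : ℝ) ^ 2) * m / a) := by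
      intro m _
      rw [← Complex.mul_conj', map_sum, Finset.sum_mul_sum]
      refine Finset.sum_congr rfl fun h _ => Finset.sum_congr rfl fun k _ => ?_
      rw [map_mul, band_ee_conj]
      have : (((h : ℝ) ^ 2 - (k : ℝ) ^ 2) * m / a) = (h : ℝ) ^ 2 * m / a + -((k : ℝ) ^ 2 * m / a) := by
        ring
      rw [this, band_ee_add]
      ring
    rw [Finset.sum_congr rfl h1, Finset.sum_comm]
    refine Finset.sum_congr rfl fun h _ => ?_
    rw [Finset.sum_comm]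
    refine Finset.sum_congr rfl fun k _ => ?_
    rw [Finset.mul_sum]
  have hnn : 0 ≤ ∑ m ∈ range a, ‖∑ h ∈ H, c h * ee ((h : ℝ) ^ 2 * m / a)‖ ^ 2 :=
    Finset.sum_nonneg fun _ _ => by positivity
  have h2 : ∑ m ∈ range a, ‖∑ h ∈ H, c h * ee ((h : ℝ) ^ 2 * m / a)‖ ^ 2 =
      ‖((∑ m ∈ range a, ‖∑ h ∈ H, c h * ee ((h : ℝ) ^ 2 * m / a)‖ ^ 2 : ℝ) : ℂ)‖ := by
    rw [Complex.norm_real, Real.norm_of_nonneg hnn]
  rw [h2, key]
  refine (norm_sum_le _ _).trans ?_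
  rw [Finset.mul_sum]
  refine Finset.sum_le_sum fun h _ => ?_
  refine (norm_sum_le _ _).trans ?_
  rw [Finset.mul_sum, Finset.sum_filter]
  refine Finset.sum_le_sum fun k _ => ?_
  split_ifs with hk
  · rw [norm_mul, norm_mul, RCLike.norm_conj]
    have h3 : ‖∑ m ∈ range a, ee ((((h : ℤ) ^ 2 - (k : ℤ) ^ 2 : ℤ) : ℝ) * m / a)‖ ≤ a := by
      refine (norm_sum_le _ _).trans ?_
      simp [band_ee_norm]
    calc ‖c h‖ * ‖c k‖ * ‖∑ m ∈ range a, ee ((((h : ℤ) ^ 2 - (k : ℤ) ^ 2 : ℤ) : ℝ) * m / a)‖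
        ≤ ‖c h‖ * ‖c k‖ * a := mul_le_mul_of_nonneg_left h3 (by positivity)
      _ = a * (‖c h‖ * ‖c k‖) := by ring
  · have h4 : ¬ (a : ℤ) ∣ ((h : ℤ) ^ 2 - (k : ℤ) ^ 2) := by
      intro hdvd
      apply hk
      have := (ZMod.intCast_zmod_eq_zero_iff_dvd _ a).mpr hdvd
      push_cast at this
      exact sub_eq_zero.mp this
    rw [band_geom ha h4, mul_zero, norm_zero]

/-- The `ℓ²(r)` bound for combinations of `e(h² r̄/a)`. -/
theorem quad_l2 : ∀ ε : ℝ, 0 < ε → ∃ C : ℝ, 0 < C ∧ ∀ a : ℕ, 1 ≤ a → ∀ (H : Finset ℕ),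
    H ⊆ cop a → ∀ c : ℕ → ℂ,
    ∑ r ∈ cop a, ‖∑ h ∈ H, c h * ee ((h : ℝ) ^ 2 * inv a r / a)‖ ^ 2 ≤
      C * (a : ℝ) ^ (1 + ε) * ∑ h ∈ H, ‖c h‖ ^ 2 := by
  intro ε hε
  obtain ⟨C, hC, hsq⟩ := sq_roots ε hε
  refine ⟨C, hC, fun a ha H hH c => ?_⟩
  have ha0 : (0 : ℝ) < a := by positivity
  have h1 : ∑ r ∈ cop a, ‖∑ h ∈ H, c h * ee ((h : ℝ) ^ 2 * inv a r / a)‖ ^ 2 ≤
      ∑ m ∈ range a, ‖∑ h ∈ H, c h * ee ((h : ℝ) ^ 2 * m / a)‖ ^ 2 := by
    rw [← Finset.sum_image (s := cop a) (g := inv a)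
      (f := fun m : ℕ => ‖∑ h ∈ H, c h * ee ((h : ℝ) ^ 2 * m / a)‖ ^ 2) (band_inv_inj ha)]
    refine Finset.sum_le_sum_of_subset_of_nonneg ?_ fun _ _ _ => by positivity
    intro m hm
    obtain ⟨r, _, rfl⟩ := Finset.mem_image.mp hm
    exact Finset.mem_range.mpr (band_inv_lt ha r)
  refine h1.trans ((band_orth ha H c).trans ?_)
  have h2 : ∑ h ∈ H, ∑ k ∈ H.filter (fun k : ℕ => ((h : ℕ) : ZMod a) ^ 2 = ((k : ℕ) : ZMod a) ^ 2),
        ‖c h‖ * ‖c k‖ ≤ ∑ h ∈ H, ∑ k ∈ H.filter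
          (fun k : ℕ => ((h : ℕ) : ZMod a) ^ 2 = ((k : ℕ) : ZMod a) ^ 2), ‖c h‖ ^ 2 := by
    have h3 : ∑ h ∈ H, ∑ k ∈ H.filter (fun k : ℕ => ((h : ℕ) : ZMod a) ^ 2 = ((k : ℕ) : ZMod a) ^ 2),
        ‖c h‖ * ‖c k‖ ≤ ∑ h ∈ H, ∑ k ∈ H.filter
          (fun k : ℕ => ((h : ℕ) : ZMod a) ^ 2 = ((k : ℕ) : ZMod a) ^ 2),
            (‖c h‖ ^ 2 + ‖c k‖ ^ 2) / 2 := by
      refine Finset.sum_le_sum fun h _ => Finset.sum_le_sum fun k _ => ?_
      nlinarith [sq_nonneg (‖c h‖ - ‖c k‖)]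
    refine h3.trans (le_of_eq ?_)
    have h4 : ∀ f : ℕ → ℕ → ℝ, (∑ h ∈ H, ∑ k ∈ H.filter
          (fun k : ℕ => ((h : ℕ) : ZMod a) ^ 2 = ((k : ℕ) : ZMod a) ^ 2), f h k) =
        ∑ h ∈ H, ∑ k ∈ H, if ((h : ℕ) : ZMod a) ^ 2 = ((k : ℕ) : ZMod a) ^ 2 then f h k else 0 := by
      intro f
      refine Finset.sum_congr rfl fun h _ => ?_
      rw [Finset.sum_filter]
    have h5 : (∑ h ∈ H, ∑ k ∈ H.filter
          (fun k : ℕ => ((h : ℕ) : ZMod a) ^ 2 = ((k : ℕ) : ZMod a) ^ 2), ‖c k‖ ^ 2) =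
        ∑ h ∈ H, ∑ k ∈ H.filter
          (fun k : ℕ => ((h : ℕ) : ZMod a) ^ 2 = ((k : ℕ) : ZMod a) ^ 2), ‖c h‖ ^ 2 := by
      rw [h4, h4, Finset.sum_comm]
      refine Finset.sum_congr rfl fun h _ => Finset.sum_congr rfl fun k _ => ?_
      by_cases hh : ((h : ℕ) : ZMod a) ^ 2 = ((k : ℕ) : ZMod a) ^ 2
      · rw [if_pos hh, if_pos hh.symm]
      · rw [if_neg hh, if_neg (fun h' => hh h'.symm)]
    have h6 : ∑ h ∈ H, ∑ k ∈ H.filter
          (fun k : ℕ => ((h : ℕ) : ZMod a) ^ 2 = ((k : ℕ) : ZMod a) ^ 2),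
            (‖c h‖ ^ 2 + ‖c k‖ ^ 2) / 2 = ((∑ h ∈ H, ∑ k ∈ H.filter
          (fun k : ℕ => ((h : ℕ) : ZMod a) ^ 2 = ((k : ℕ) : ZMod a) ^ 2), ‖c h‖ ^ 2) +
          (∑ h ∈ H, ∑ k ∈ H.filter
          (fun k : ℕ => ((h : ℕ) : ZMod a) ^ 2 = ((k : ℕ) : ZMod a) ^ 2), ‖c k‖ ^ 2)) / 2 := by
      rw [← Finset.sum_add_distrib, Finset.sum_div]
      refine Finset.sum_congr rfl fun h _ => ?_
      rw [← Finset.sum_add_distrib, Finset.sum_div]
    rw [h6, h5]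
    ring
  have h7 : ∑ h ∈ H, ∑ k ∈ H.filter
          (fun k : ℕ => ((h : ℕ) : ZMod a) ^ 2 = ((k : ℕ) : ZMod a) ^ 2), ‖c h‖ ^ 2 ≤
      C * (a : ℝ) ^ ε * ∑ h ∈ H, ‖c h‖ ^ 2 := by
    rw [Finset.mul_sum]
    refine Finset.sum_le_sum fun h hh => ?_
    rw [Finset.sum_const, nsmul_eq_mul]
    refine mul_le_mul_of_nonneg_right ?_ (by positivity)
    refine le_trans ?_ (hsq a h ha (Finset.mem_filter.mp (hH hh)).2)
    exact_mod_cast Finset.card_le_card (Finset.filter_subset_filter _ hH)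
  calc (a : ℝ) * ∑ h ∈ H, ∑ k ∈ H.filter (fun k : ℕ => ((h : ℕ) : ZMod a) ^ 2 = ((k : ℕ) : ZMod a) ^ 2),
        ‖c h‖ * ‖c k‖ ≤ a * (C * (a : ℝ) ^ ε * ∑ h ∈ H, ‖c h‖ ^ 2) :=
        mul_le_mul_of_nonneg_left (h2.trans h7) ha0.le
    _ = C * (a : ℝ) ^ (1 + ε) * ∑ h ∈ H, ‖c h‖ ^ 2 := by
        rw [Real.rpow_add ha0, Real.rpow_one]
        ring


/-- partial summation from the right -/
private lemma band_abel (f V : ℕ → ℂ) (n₁ k : ℕ) :
    ∑ n ∈ Ioc n₁ (n₁ + k), f n * V n = V n₁ * ∑ n ∈ Ioc n₁ (n₁ + k), f n +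
      ∑ n ∈ Ico n₁ (n₁ + k), (V (n + 1) - V n) * ∑ m ∈ Ioc n (n₁ + k), f m := by
  induction k generalizing n₁ with
  | zero => simp
  | succ k ih =>
    have h1 : Ioc n₁ (n₁ + (k + 1)) = insert (n₁ + 1) (Ioc (n₁ + 1) (n₁ + 1 + k)) := by
      ext x; simp only [mem_Ioc, mem_insert]; omega
    have h2 : Ico n₁ (n₁ + (k + 1)) = insert n₁ (Ico (n₁ + 1) (n₁ + 1 + k)) := by
      ext x; simp only [mem_Ico, mem_insert]; omega
    have h3 : n₁ + (k + 1) = n₁ + 1 + k := by ring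
    have h4 : (n₁ + 1) ∉ Ioc (n₁ + 1) (n₁ + 1 + k) := by simp
    have h5 : n₁ ∉ Ico (n₁ + 1) (n₁ + 1 + k) := by simp
    have h6 : Ioc n₁ (n₁ + 1 + k) = insert (n₁ + 1) (Ioc (n₁ + 1) (n₁ + 1 + k)) := by
      ext x; simp only [mem_Ioc, mem_insert]; omega
    rw [h1, h2, h3, Finset.sum_insert h4, Finset.sum_insert h4, Finset.sum_insert h5, ih (n₁ + 1),
      h6, Finset.sum_insert h4]
    ring

private lemma band_cs {ι : Type*} (s : Finset ι) (t : ι → Finset ℕ) (x y : ι → ℕ → ℂ) :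
    ‖∑ a ∈ s, ∑ r ∈ t a, x a r * y a r‖ ≤
      √(∑ a ∈ s, ∑ r ∈ t a, ‖x a r‖ ^ 2) * √(∑ a ∈ s, ∑ r ∈ t a, ‖y a r‖ ^ 2) := by
  rw [Finset.sum_sigma', Finset.sum_sigma', Finset.sum_sigma']
  refine (norm_sum_le _ _).trans ?_
  simp only [norm_mul]
  exact Real.sum_mul_le_sqrt_mul_sqrt _ _ _

private lemma band_cs' {ι : Type*} (s : Finset ι) (t : ι → Finset ℕ) (x y : ι → ℕ → ℝ) :
    ∑ a ∈ s, ∑ r ∈ t a, x a r * y a r ≤
      √(∑ a ∈ s, ∑ r ∈ t a, x a r ^ 2) * √(∑ a ∈ s, ∑ r ∈ t a, y a r ^ 2) := by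
  rw [Finset.sum_sigma', Finset.sum_sigma', Finset.sum_sigma']
  exact Real.sum_mul_le_sqrt_mul_sqrt _ _ _

private lemma band_card (a j : ℕ) : (bandh a j).card ≤ 2 ^ (j + 1) := by
  have h1 : bandh a j ⊆ Ico (2 ^ j) (2 ^ (j + 1)) ∪
      (Ico (2 ^ j) (2 ^ (j + 1))).image (fun h => a - h) := by
    intro h hh
    obtain ⟨hc, h2, h3⟩ := Finset.mem_filter.mp hh
    have hlt := Finset.mem_range.mp (Finset.mem_filter.mp hc).1
    rw [Finset.mem_union, Finset.mem_image]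
    rcases le_total h (a - h) with hle | hle
    · left
      rw [min_eq_left hle] at h2 h3
      exact Finset.mem_Ico.mpr ⟨h2, h3⟩
    · right
      rw [min_eq_right hle] at h2 h3
      exact ⟨a - h, Finset.mem_Ico.mpr ⟨h2, h3⟩, by omega⟩
  refine (Finset.card_le_card h1).trans ((Finset.card_union_le _ _).trans ?_)
  have h4 := Finset.card_image_le (s := Ico (2 ^ j) (2 ^ (j + 1))) (f := fun h => a - h)
  rw [Nat.card_Ico] at *
  have h5 : 2 ^ (j + 1) = 2 * 2 ^ j := by ring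
  omega

open Classical in
private lemma band_TT_eq {J : ℕ → Set ℤ} {g a h n : ℕ} {T : Finset ℤ} (hT : tset n ⊆ T) :
    TT (J n) g a h n = ∑ t ∈ T, (Ff J g a n t : ℂ) * ee ((h : ℝ) * t / a) := by
  unfold TT
  rw [Finset.sum_filter]
  have h1 : ∑ t ∈ tset n, (if t ∈ J n then ee ((h : ℝ) * t / a) *
      (Om ((g : ℝ) * a / √(4 * (n : ℝ) - (t : ℝ) ^ 2)) : ℂ) else 0) =
      ∑ t ∈ tset n, (Ff J g a n t : ℂ) * ee ((h : ℝ) * t / a) := by
    refine Finset.sum_congr rfl fun t ht => ?_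
    unfold Ff
    by_cases hJ : t ∈ J n
    · rw [if_pos hJ, if_pos ⟨ht, hJ⟩]; ring
    · rw [if_neg hJ, if_neg (fun h => hJ h.2)]; simp
  rw [h1]
  refine Finset.sum_subset hT fun t _ ht => ?_
  unfold Ff
  rw [if_neg (fun h => ht h.1)]
  simp

private lemma band_tset_mono (n : ℕ) : tset n ⊆ tset (n + 1) := by
  intro t ht
  rw [mem_tset] at ht ⊢
  push_cast
  linarith


private lemma band_min_pos {a j h : ℕ} (hh : h ∈ bandh a j) : 0 < h ∧ h < a ∧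
    2 ^ j ≤ min h (a - h) := by
  obtain ⟨hc, h2, _⟩ := Finset.mem_filter.mp hh
  have hlt := Finset.mem_range.mp (Finset.mem_filter.mp hc).1
  have h3 : 1 ≤ 2 ^ j := Nat.one_le_two_pow
  have h4 : 1 ≤ min h (a - h) := h3.trans h2
  exact ⟨by have := (le_min_iff.mp h4).1; omega, hlt, h2⟩

theorem band : ∀ ε : ℝ, 0 < ε → ∃ C : ℝ, 0 < C ∧
    ∀ (X n₁ n₂ A j g : ℕ) (J : ℕ → Set ℤ) (b c : ℕ → ℂ), Good J → 1 ≤ X → X ≤ n₁ → n₁ ≤ n₂ →
      n₂ ≤ 2 * X → 1 ≤ A → A ≤ X → 1 ≤ g → 2 ^ j ≤ A → (∀ n, ‖b n‖ ≤ 1) →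
      (∀ a, ‖c a‖ ≤ 1 / (A : ℝ)) →
    ‖∑ n ∈ Ioc n₁ n₂, b n * ∑ a ∈ Ioc A (2 * A), c a *
        ∑ h ∈ bandh a j, KK a h n * TT (J n) g a h n‖ ≤
      C * (X : ℝ) ^ ε * (1 / (A : ℝ)) * ((A : ℝ) / 2 ^ j + ((n₂ : ℝ) - n₁) / √(X : ℝ)) *
        √((A : ℝ) ^ 2 * 2 ^ j) * √((((n₂ : ℝ) - n₁) + (A : ℝ) ^ 2) * ((n₂ : ℝ) - n₁)) := by
  intro ε hε
  obtain ⟨c1, hc1, hquad⟩ := quad_l2 ε hε
  obtain ⟨c2, hc2, hls⟩ := large_sieve
  obtain ⟨c3, hc3, hvar⟩ := exists_var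
  -- constants
  set K : ℝ := 1 + 4 / ε with hK
  have hKpos : 0 < K := by positivity
  refine ⟨(2 + c3) * K * √(16 * 2 ^ ε * c1 * c2 * (2 * K)) , by positivity, ?_⟩
  intro X n₁ n₂ A j g J b c hJ hX hXn hn hn2 hA hAX hg hjA hb hc
  obtain ⟨D, hD0, hD1, hD2⟩ := hvar J hJ
  obtain ⟨k, rfl⟩ := Nat.exists_eq_add_of_le hn
  set M : ℝ := ((n₁ + k : ℕ) : ℝ) - n₁ with hM
  have hMk : M = k := by rw [hM]; push_cast; ring
  have hM0 : 0 ≤ M := by rw [hMk]; positivity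
  have hA0 : (0 : ℝ) < A := by exact_mod_cast hA
  have hX0 : (0 : ℝ) < X := by exact_mod_cast hX
  -- the functions
  set F : ℕ → ℕ → ℕ → ℂ := fun a r m => ∑ n ∈ Ioc m (n₁ + k), b n * ee ((n : ℝ) * r / a) with hF
  set V : ℕ → ℕ → ℕ → ℂ := fun a r n =>
    c a * ∑ h ∈ bandh a j, TT (J n) g a h n * ee ((h : ℝ) ^ 2 * inv a r / a) with hV
  set W : ℕ → ℕ → ℤ → ℂ := fun a r t =>
    c a * ∑ h ∈ bandh a j, ee ((h : ℝ) * t / a) * ee ((h : ℝ) ^ 2 * inv a r / a) with hW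
  have hcop : ∀ a, bandh a j ⊆ cop a := fun a => Finset.filter_subset _ _
  have hamem : ∀ a ∈ Ioc A (2 * A), 1 ≤ a ∧ (a : ℝ) ≤ 2 * A := by
    intro a ha
    obtain ⟨h1, h2⟩ := Finset.mem_Ioc.mp ha
    exact ⟨by omega, by exact_mod_cast h2⟩
  -- step 1: rewriting
  have step1 : ∑ n ∈ Ioc n₁ (n₁ + k), b n * ∑ a ∈ Ioc A (2 * A), c a *
        ∑ h ∈ bandh a j, KK a h n * TT (J n) g a h n =
      ∑ a ∈ Ioc A (2 * A), ∑ r ∈ cop a, ∑ n ∈ Ioc n₁ (n₁ + k),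
        (b n * ee ((n : ℝ) * r / a)) * V a r n := by
    have h1 : ∀ n ∈ Ioc n₁ (n₁ + k), b n * ∑ a ∈ Ioc A (2 * A), c a *
        ∑ h ∈ bandh a j, KK a h n * TT (J n) g a h n =
        ∑ a ∈ Ioc A (2 * A), ∑ r ∈ cop a, (b n * ee ((n : ℝ) * r / a)) * V a r n := by
      intro n _
      rw [Finset.mul_sum]
      refine Finset.sum_congr rfl fun a ha => ?_
      have ha1 := (hamem a ha).1
      have h2 : ∀ h ∈ bandh a j, KK a h n * TT (J n) g a h n =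
          ∑ r ∈ cop a, ee ((n : ℝ) * r / a) * (TT (J n) g a h n *
            ee ((h : ℝ) ^ 2 * inv a r / a)) := by
        intro h hh
        rw [KK_dual ha1 (Finset.mem_filter.mp (hcop a hh)).2, Finset.sum_mul]
        refine Finset.sum_congr rfl fun r _ => ?_
        ring
      rw [Finset.sum_congr rfl h2, Finset.sum_comm, Finset.mul_sum, Finset.mul_sum]
      refine Finset.sum_congr rfl fun r _ => ?_
      rw [hV]
      simp only
      rw [← Finset.mul_sum]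
      ring
    rw [Finset.sum_congr rfl h1, Finset.sum_comm]
    refine Finset.sum_congr rfl fun a _ => ?_
    rw [Finset.sum_comm]
  -- step 2: partial summation
  have step2 : ∑ a ∈ Ioc A (2 * A), ∑ r ∈ cop a, ∑ n ∈ Ioc n₁ (n₁ + k),
        (b n * ee ((n : ℝ) * r / a)) * V a r n =
      (∑ a ∈ Ioc A (2 * A), ∑ r ∈ cop a, V a r n₁ * F a r n₁) +
      ∑ n ∈ Ico n₁ (n₁ + k), ∑ a ∈ Ioc A (2 * A), ∑ r ∈ cop a,
        (V a r (n + 1) - V a r n) * F a r n := by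
    have h1 : ∀ a ∈ Ioc A (2 * A), ∀ r ∈ cop a, ∑ n ∈ Ioc n₁ (n₁ + k),
        (b n * ee ((n : ℝ) * r / a)) * V a r n = V a r n₁ * F a r n₁ +
          ∑ n ∈ Ico n₁ (n₁ + k), (V a r (n + 1) - V a r n) * F a r n := by
      intro a _ r _
      exact band_abel (fun n => b n * ee ((n : ℝ) * r / a)) (V a r) n₁ k
    rw [Finset.sum_congr rfl fun a ha => Finset.sum_congr rfl fun r hr => h1 a ha r hr]
    simp only [Finset.sum_add_distrib]
    congr 1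
    rw [Finset.sum_comm' (s := Ico n₁ (n₁ + k)) (t := fun _ => Ioc A (2 * A))
      (t' := Ioc A (2 * A)) (s' := fun _ => Ico n₁ (n₁ + k)) (by intros; tauto)]
    refine Finset.sum_congr rfl fun a _ => ?_
    rw [Finset.sum_comm]
  -- the large sieve bound
  set L : ℝ := c2 * (4 * (M + (A : ℝ) ^ 2)) * (1 + log (2 * A)) * M with hL
  have hlog2A : 0 ≤ log (2 * (A : ℝ)) := Real.log_nonneg (by
    have : (1 : ℝ) ≤ A := by exact_mod_cast hA
    linarith)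
  have hL0 : 0 ≤ L := by rw [hL]; positivity
  have hFbound : ∀ m, n₁ ≤ m → m ≤ n₁ + k →
      ∑ a ∈ Ioc A (2 * A), ∑ r ∈ cop a, ‖F a r m‖ ^ 2 ≤ L := by
    intro m hm1 hm2
    obtain ⟨l, hl⟩ := Nat.exists_eq_add_of_le hm2
    have h1 := hls m l (2 * A) b (by omega)
    have h2 : ∑ a ∈ Ioc A (2 * A), ∑ r ∈ cop a, ‖F a r m‖ ^ 2 ≤
        ∑ a ∈ Icc 1 (2 * A), ∑ r ∈ cop a, ‖∑ n ∈ Ioc m (m + l), b n * ee ((n : ℝ) * r / a)‖ ^ 2 := by
      rw [hF]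
      simp only
      rw [hl]
      refine Finset.sum_le_sum_of_subset_of_nonneg ?_ fun _ _ _ =>
        Finset.sum_nonneg fun _ _ => by positivity
      intro a ha
      obtain ⟨h3, h4⟩ := Finset.mem_Ioc.mp ha
      exact Finset.mem_Icc.mpr ⟨by omega, h4⟩
    refine h2.trans (h1.trans ?_)
    have h5 : ∑ n ∈ Ioc m (m + l), ‖b n‖ ^ 2 ≤ M := by
      calc ∑ n ∈ Ioc m (m + l), ‖b n‖ ^ 2 ≤ ∑ n ∈ Ioc m (m + l), (1 : ℝ) :=
            Finset.sum_le_sum fun n _ => by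
              have := hb n
              have h0 := norm_nonneg (b n)
              nlinarith
        _ = l := by simp
        _ ≤ M := by
            rw [hMk]
            exact_mod_cast (by omega : l ≤ k)
    have h6 : (l : ℝ) ≤ M := by
      rw [hMk]; exact_mod_cast (by omega : l ≤ k)
    push_cast
    rw [hL]
    have h7 : (l : ℝ) + (2 * (A : ℝ)) ^ 2 ≤ 4 * (M + (A : ℝ) ^ 2) := by nlinarith
    have h8 : c2 * ((l : ℝ) + (2 * (A : ℝ)) ^ 2) * (1 + log (2 * A)) ≤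
        c2 * (4 * (M + (A : ℝ) ^ 2)) * (1 + log (2 * A)) :=
      mul_le_mul_of_nonneg_right (mul_le_mul_of_nonneg_left h7 hc2.le) (by linarith)
    exact mul_le_mul h8 h5 (Finset.sum_nonneg fun _ _ => by positivity) (by positivity)
  -- the bound for W
  set Q : ℝ := A * (c1 * (2 * A : ℝ) ^ (1 + ε) * (2 ^ (j + 1) * (1 / A) ^ 2)) with hQ
  have hQ0 : 0 ≤ Q := by rw [hQ]; positivity
  have hcard : ∀ a, ((bandh a j).card : ℝ) ≤ 2 ^ (j + 1) := fun a => by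
    exact_mod_cast band_card a j
  have hcardA : ((Ioc A (2 * A)).card : ℝ) = A := by
    rw [Nat.card_Ioc]
    congr 1
    omega
  have hgen : ∀ (B : ℝ), 0 ≤ B → ∀ u : ℕ → ℕ → ℂ,
      (∀ a ∈ Ioc A (2 * A), ∀ h ∈ bandh a j, ‖u a h‖ ≤ B) →
      ∑ a ∈ Ioc A (2 * A), ∑ r ∈ cop a,
        ‖c a * ∑ h ∈ bandh a j, u a h * ee ((h : ℝ) ^ 2 * inv a r / a)‖ ^ 2 ≤ Q * B ^ 2 := by
    intro B hB u hu
    have h1 : ∀ a ∈ Ioc A (2 * A), ∑ r ∈ cop a,
        ‖c a * ∑ h ∈ bandh a j, u a h * ee ((h : ℝ) ^ 2 * inv a r / a)‖ ^ 2 ≤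
        (c1 * (2 * A : ℝ) ^ (1 + ε) * (2 ^ (j + 1) * (1 / A) ^ 2)) * B ^ 2 := by
      intro a ha
      obtain ⟨ha1, ha2⟩ := hamem a ha
      have h2 := hquad a ha1 (bandh a j) (hcop a) (fun h => c a * u a h)
      have h3 : ∑ r ∈ cop a,
          ‖c a * ∑ h ∈ bandh a j, u a h * ee ((h : ℝ) ^ 2 * inv a r / a)‖ ^ 2 =
          ∑ r ∈ cop a, ‖∑ h ∈ bandh a j, c a * u a h * ee ((h : ℝ) ^ 2 * inv a r / a)‖ ^ 2 := by
        refine Finset.sum_congr rfl fun r _ => ?_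
        rw [Finset.mul_sum]
        congr 2
        refine Finset.sum_congr rfl fun h _ => ?_
        ring
      rw [h3]
      refine h2.trans ?_
      have h4 : ∑ h ∈ bandh a j, ‖c a * u a h‖ ^ 2 ≤ 2 ^ (j + 1) * (1 / A) ^ 2 * B ^ 2 := by
        calc ∑ h ∈ bandh a j, ‖c a * u a h‖ ^ 2 ≤ ∑ h ∈ bandh a j, ((1 / A) ^ 2 * B ^ 2 : ℝ) := by
              refine Finset.sum_le_sum fun h hh => ?_
              rw [norm_mul, mul_pow]
              have h5 := hc a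
              have h6 := hu a ha h hh
              have h7 := norm_nonneg (c a)
              have h8 := norm_nonneg (u a h)
              exact mul_le_mul (by gcongr) (by gcongr) (by positivity) (by positivity)
          _ = (bandh a j).card * ((1 / A) ^ 2 * B ^ 2 : ℝ) := by
              rw [Finset.sum_const, nsmul_eq_mul]
          _ ≤ 2 ^ (j + 1) * ((1 / A) ^ 2 * B ^ 2 : ℝ) :=
              mul_le_mul_of_nonneg_right (hcard a) (by positivity)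
          _ = _ := by ring
      have h9 : (a : ℝ) ^ (1 + ε) ≤ (2 * A : ℝ) ^ (1 + ε) :=
        Real.rpow_le_rpow (by positivity) ha2 (by positivity)
      calc c1 * (a : ℝ) ^ (1 + ε) * ∑ h ∈ bandh a j, ‖c a * u a h‖ ^ 2
          ≤ c1 * (2 * A : ℝ) ^ (1 + ε) * (2 ^ (j + 1) * (1 / A) ^ 2 * B ^ 2) :=
            mul_le_mul (mul_le_mul_of_nonneg_left h9 hc1.le) h4
              (Finset.sum_nonneg fun _ _ => by positivity) (by positivity)
        _ = _ := by ring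
    calc ∑ a ∈ Ioc A (2 * A), ∑ r ∈ cop a,
        ‖c a * ∑ h ∈ bandh a j, u a h * ee ((h : ℝ) ^ 2 * inv a r / a)‖ ^ 2
        ≤ ∑ a ∈ Ioc A (2 * A), (c1 * (2 * A : ℝ) ^ (1 + ε) * (2 ^ (j + 1) * (1 / A) ^ 2)) * B ^ 2 :=
          Finset.sum_le_sum h1
      _ = Q * B ^ 2 := by
          rw [Finset.sum_const, nsmul_eq_mul, hcardA, hQ]
          ring
  have hWbound : ∀ t : ℤ, ∑ a ∈ Ioc A (2 * A), ∑ r ∈ cop a, ‖W a r t‖ ^ 2 ≤ Q := by
    intro t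
    have := hgen 1 zero_le_one (fun a h => ee ((h : ℝ) * t / a)) (fun a _ h _ => by
      simp [band_ee_norm])
    simpa [hW] using this
  have hVbound : ∑ a ∈ Ioc A (2 * A), ∑ r ∈ cop a, ‖V a r n₁‖ ^ 2 ≤ Q * (2 * A / 2 ^ j) ^ 2 := by
    refine hgen (2 * A / 2 ^ j) (by positivity) (fun a h => TT (J n₁) g a h n₁) ?_
    intro a ha h hh
    obtain ⟨ha1, ha2⟩ := hamem a ha
    obtain ⟨h1, h2, h3⟩ := band_min_pos hh
    refine (tt_bound (hJ.ord n₁) hg h1 h2).trans ?_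
    have h4 : (2 : ℝ) ^ j ≤ ((min h (a - h) : ℕ) : ℝ) := by exact_mod_cast h3
    gcongr
  -- the two terms
  have term1 : ‖∑ a ∈ Ioc A (2 * A), ∑ r ∈ cop a, V a r n₁ * F a r n₁‖ ≤
      √Q * √L * (2 * A / 2 ^ j) := by
    refine (band_cs _ _ (fun a r => V a r n₁) (fun a r => F a r n₁)).trans ?_
    calc √(∑ a ∈ Ioc A (2 * A), ∑ r ∈ cop a, ‖V a r n₁‖ ^ 2) *
          √(∑ a ∈ Ioc A (2 * A), ∑ r ∈ cop a, ‖F a r n₁‖ ^ 2)
        ≤ √(Q * (2 * A / 2 ^ j) ^ 2) * √L := by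
          gcongr
          exact hFbound n₁ le_rfl (by omega)
      _ = √Q * √L * (2 * A / 2 ^ j) := by
          rw [Real.sqrt_mul hQ0, Real.sqrt_sq (by positivity)]
          ring
  have term2 : ∀ n ∈ Ico n₁ (n₁ + k), ‖∑ a ∈ Ioc A (2 * A), ∑ r ∈ cop a,
        (V a r (n + 1) - V a r n) * F a r n‖ ≤ √Q * √L * ∑ t ∈ tset (n + 1), D n t := by
    intro n hnm
    obtain ⟨hn3, hn4⟩ := Finset.mem_Ico.mp hnm
    have h1 : ∀ a ∈ Ioc A (2 * A), ∀ r ∈ cop a, (V a r (n + 1) - V a r n) =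
        ∑ t ∈ tset (n + 1), ((Ff J g a (n + 1) t - Ff J g a n t : ℝ) : ℂ) * W a r t := by
      intro a _ r _
      rw [hV, hW]
      simp only
      rw [← mul_sub, ← Finset.sum_sub_distrib]
      have h2 : ∀ h ∈ bandh a j, TT (J (n + 1)) g a h (n + 1) * ee ((h : ℝ) ^ 2 * inv a r / a) -
          TT (J n) g a h n * ee ((h : ℝ) ^ 2 * inv a r / a) =
          ∑ t ∈ tset (n + 1), ((Ff J g a (n + 1) t - Ff J g a n t : ℝ) : ℂ) *
            (ee ((h : ℝ) * t / a) * ee ((h : ℝ) ^ 2 * inv a r / a)) := by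
        intro h _
        rw [band_TT_eq (J := J) (n := n + 1) (T := tset (n + 1)) (Finset.Subset.refl _),
          band_TT_eq (J := J) (n := n) (T := tset (n + 1)) (band_tset_mono n), ← sub_mul,
          ← Finset.sum_sub_distrib, Finset.sum_mul]
        refine Finset.sum_congr rfl fun t _ => ?_
        push_cast
        ring
      rw [Finset.sum_congr rfl h2, Finset.sum_comm, Finset.mul_sum]
      refine Finset.sum_congr rfl fun t _ => ?_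
      rw [← Finset.mul_sum]
      ring
    have h3 : ‖∑ a ∈ Ioc A (2 * A), ∑ r ∈ cop a, (V a r (n + 1) - V a r n) * F a r n‖ ≤
        ∑ t ∈ tset (n + 1), D n t * ∑ a ∈ Ioc A (2 * A), ∑ r ∈ cop a, ‖W a r t‖ * ‖F a r n‖ := by
      calc ‖∑ a ∈ Ioc A (2 * A), ∑ r ∈ cop a, (V a r (n + 1) - V a r n) * F a r n‖
          ≤ ∑ a ∈ Ioc A (2 * A), ∑ r ∈ cop a, ∑ t ∈ tset (n + 1),
              D n t * (‖W a r t‖ * ‖F a r n‖) := by
            refine (norm_sum_le _ _).trans (Finset.sum_le_sum fun a ha => ?_)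
            refine (norm_sum_le _ _).trans (Finset.sum_le_sum fun r hr => ?_)
            rw [h1 a ha r hr, norm_mul]
            calc ‖∑ t ∈ tset (n + 1), ((Ff J g a (n + 1) t - Ff J g a n t : ℝ) : ℂ) * W a r t‖ *
                  ‖F a r n‖ ≤ (∑ t ∈ tset (n + 1), D n t * ‖W a r t‖) * ‖F a r n‖ := by
                  refine mul_le_mul_of_nonneg_right ?_ (norm_nonneg _)
                  refine (norm_sum_le _ _).trans (Finset.sum_le_sum fun t ht => ?_)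
                  rw [norm_mul, Complex.norm_real, Real.norm_eq_abs]
                  exact mul_le_mul_of_nonneg_right (hD1 g a n hg (hamem a ha).1 t ht)
                    (norm_nonneg _)
              _ = ∑ t ∈ tset (n + 1), D n t * (‖W a r t‖ * ‖F a r n‖) := by
                  rw [Finset.sum_mul]
                  refine Finset.sum_congr rfl fun t _ => ?_
                  ring
        _ = ∑ t ∈ tset (n + 1), D n t * ∑ a ∈ Ioc A (2 * A), ∑ r ∈ cop a,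
              ‖W a r t‖ * ‖F a r n‖ := by
            have h4 : ∀ t ∈ tset (n + 1), D n t * ∑ a ∈ Ioc A (2 * A), ∑ r ∈ cop a,
                ‖W a r t‖ * ‖F a r n‖ = ∑ a ∈ Ioc A (2 * A), ∑ r ∈ cop a,
                D n t * (‖W a r t‖ * ‖F a r n‖) := by
              intro t _
              rw [Finset.mul_sum]
              refine Finset.sum_congr rfl fun a _ => ?_
              rw [Finset.mul_sum]
            rw [Finset.sum_congr rfl h4, Finset.sum_comm]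
            refine Finset.sum_congr rfl fun a _ => ?_
            rw [Finset.sum_comm]
    refine h3.trans ?_
    rw [Finset.mul_sum]
    refine Finset.sum_le_sum fun t _ => ?_
    have h5 := band_cs' (Ioc A (2 * A)) (fun a => cop a) (fun a r => ‖W a r t‖)
      (fun a r => ‖F a r n‖)
    calc D n t * ∑ a ∈ Ioc A (2 * A), ∑ r ∈ cop a, ‖W a r t‖ * ‖F a r n‖
        ≤ D n t * (√Q * √L) := by
          refine mul_le_mul_of_nonneg_left (h5.trans ?_) (hD0 n t)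
          gcongr
          · exact hWbound t
          · exact hFbound n hn3 hn4.le
      _ = √Q * √L * D n t := by ring
  have hDsum := hD2 X n₁ (n₁ + k) hX hXn hn hn2
  rw [← hM] at hDsum
  have hlogX : 0 ≤ log (X : ℝ) := Real.log_nonneg (by exact_mod_cast hX)
  have hsX : (0 : ℝ) < √(X : ℝ) := Real.sqrt_pos.mpr hX0
  have h2j : (1 : ℝ) ≤ A / 2 ^ j := by
    rw [le_div_iff₀ (by positivity), one_mul]
    exact_mod_cast hjA
  have total : ‖∑ n ∈ Ioc n₁ (n₁ + k), b n * ∑ a ∈ Ioc A (2 * A), c a *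
        ∑ h ∈ bandh a j, KK a h n * TT (J n) g a h n‖ ≤
      √Q * √L * ((2 + c3) * (1 + log X) * (A / 2 ^ j + M / √(X : ℝ))) := by
    rw [step1, step2]
    refine (norm_add_le _ _).trans ?_
    have h1 : ‖∑ n ∈ Ico n₁ (n₁ + k), ∑ a ∈ Ioc A (2 * A), ∑ r ∈ cop a,
        (V a r (n + 1) - V a r n) * F a r n‖ ≤
        √Q * √L * (c3 * (M / √(X : ℝ) + 1) * (1 + log X)) := by
      refine (norm_sum_le _ _).trans ((Finset.sum_le_sum term2).trans ?_)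
      rw [← Finset.mul_sum]
      exact mul_le_mul_of_nonneg_left hDsum (by positivity)
    refine (add_le_add term1 h1).trans ?_
    rw [← mul_add]
    refine mul_le_mul_of_nonneg_left ?_ (by positivity)
    have h2 : 0 ≤ M / √(X : ℝ) := by positivity
    have h3 : 2 * (A : ℝ) / 2 ^ j = 2 * (A / 2 ^ j) := by ring
    rw [h3]
    have h4 : 2 * ((A : ℝ) / 2 ^ j) ≤ 2 * (1 + log X) * (A / 2 ^ j + M / √(X : ℝ)) := by
      have : (A : ℝ) / 2 ^ j ≤ (1 + log X) * (A / 2 ^ j + M / √(X : ℝ)) := by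
        nlinarith [mul_nonneg hlogX (add_nonneg (zero_le_one.trans h2j) h2)]
      linarith
    have h5 : c3 * (M / √(X : ℝ) + 1) * (1 + log X) ≤
        c3 * (1 + log X) * (A / 2 ^ j + M / √(X : ℝ)) := by
      have : (M / √(X : ℝ) + 1) ≤ (A / 2 ^ j + M / √(X : ℝ)) := by linarith
      calc c3 * (M / √(X : ℝ) + 1) * (1 + log X) = c3 * (1 + log X) * (M / √(X : ℝ) + 1) := by ring
        _ ≤ _ := mul_le_mul_of_nonneg_left this (by positivity)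
    calc 2 * ((A : ℝ) / 2 ^ j) + c3 * (M / √(X : ℝ) + 1) * (1 + log X)
        ≤ 2 * (1 + log X) * (A / 2 ^ j + M / √(X : ℝ)) +
          c3 * (1 + log X) * (A / 2 ^ j + M / √(X : ℝ)) := add_le_add h4 h5
      _ = _ := by ring
  refine total.trans ?_
  -- final arithmetic
  have hX1 : (1 : ℝ) ≤ X := by exact_mod_cast hX
  have hlogK : 1 + log (X : ℝ) ≤ K * (X : ℝ) ^ (ε / 4) := by
    have h1 := Real.log_le_rpow_div hX0.le (show 0 < ε / 4 by positivity)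
    have h2 : 1 ≤ (X : ℝ) ^ (ε / 4) := Real.one_le_rpow hX1 (by positivity)
    have h3 : (X : ℝ) ^ (ε / 4) / (ε / 4) = 4 / ε * (X : ℝ) ^ (ε / 4) := by field_simp
    rw [hK]
    nlinarith
  have hlog2 : 1 + log (2 * (A : ℝ)) ≤ 2 * (1 + log (X : ℝ)) := by
    have h1 : log (2 * (A : ℝ)) = log 2 + log A := Real.log_mul (by norm_num) hA0.ne'
    have h2 : log (A : ℝ) ≤ log X := Real.log_le_log hA0 (by exact_mod_cast hAX)
    have h3 : log (2 : ℝ) ≤ 1 := by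
      have := Real.log_two_lt_d9
      linarith
    rw [h1]
    linarith
  have hQL : Q * L ≤ (16 * 2 ^ ε * c1 * c2 * (2 * K)) * ((X : ℝ) ^ ε * (X : ℝ) ^ (ε / 4)) *
      (2 ^ j * ((M + (A : ℝ) ^ 2) * M)) := by
    have h1 : Q * L = (16 * 2 ^ ε * c1 * c2) * ((A : ℝ) ^ ε * (1 + log (2 * A))) *
        (2 ^ j * ((M + (A : ℝ) ^ 2) * M)) := by
      rw [hQ, hL, Real.mul_rpow (by norm_num) hA0.le, Real.rpow_add (by norm_num),
        Real.rpow_add hA0, Real.rpow_one, Real.rpow_one]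
      field_simp
      ring
    rw [h1]
    have h2 : (A : ℝ) ^ ε ≤ (X : ℝ) ^ ε :=
      Real.rpow_le_rpow hA0.le (by exact_mod_cast hAX) hε.le
    have h3 : 1 + log (2 * (A : ℝ)) ≤ (2 * K) * (X : ℝ) ^ (ε / 4) := by
      calc 1 + log (2 * (A : ℝ)) ≤ 2 * (1 + log (X : ℝ)) := hlog2
        _ ≤ 2 * (K * (X : ℝ) ^ (ε / 4)) := by linarith
        _ = _ := by ring
    have h4 : (A : ℝ) ^ ε * (1 + log (2 * A)) ≤ (X : ℝ) ^ ε * ((2 * K) * (X : ℝ) ^ (ε / 4)) :=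
      mul_le_mul h2 h3 (by positivity) (by positivity)
    calc (16 * 2 ^ ε * c1 * c2) * ((A : ℝ) ^ ε * (1 + log (2 * A))) *
        (2 ^ j * ((M + (A : ℝ) ^ 2) * M)) ≤ (16 * 2 ^ ε * c1 * c2) *
        ((X : ℝ) ^ ε * ((2 * K) * (X : ℝ) ^ (ε / 4))) * (2 ^ j * ((M + (A : ℝ) ^ 2) * M)) := by
          gcongr
      _ = _ := by ring
  have hsq : √Q * √L ≤ √(16 * 2 ^ ε * c1 * c2 * (2 * K)) * (X : ℝ) ^ (3 * ε / 4) *
      (√(2 ^ j) * √((M + (A : ℝ) ^ 2) * M)) := by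
    rw [← Real.sqrt_mul hQ0]
    calc √(Q * L) ≤ √((16 * 2 ^ ε * c1 * c2 * (2 * K)) * ((X : ℝ) ^ ε * (X : ℝ) ^ (ε / 4)) *
      (2 ^ j * ((M + (A : ℝ) ^ 2) * M))) := Real.sqrt_le_sqrt hQL
      _ = √(16 * 2 ^ ε * c1 * c2 * (2 * K)) * √((X : ℝ) ^ ε * (X : ℝ) ^ (ε / 4)) *
          (√(2 ^ j) * √((M + (A : ℝ) ^ 2) * M)) := by
          rw [Real.sqrt_mul (by positivity), Real.sqrt_mul (by positivity),
            Real.sqrt_mul (show (0 : ℝ) ≤ 2 ^ j by positivity)]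
      _ ≤ _ := by
          gcongr
          rw [← Real.rpow_add hX0, Real.sqrt_eq_rpow, ← Real.rpow_mul hX0.le]
          exact Real.rpow_le_rpow_of_exponent_le hX1 (by linarith)
  have hsA : √((A : ℝ) ^ 2 * 2 ^ j) = A * √(2 ^ j) := by
    rw [Real.sqrt_mul (by positivity), Real.sqrt_sq hA0.le]
  have h2 : 0 ≤ M / √(X : ℝ) := by positivity
  have h3 : 0 ≤ (A : ℝ) / 2 ^ j + M / √(X : ℝ) := by positivity
  calc √Q * √L * ((2 + c3) * (1 + log X) * (A / 2 ^ j + M / √(X : ℝ)))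
      ≤ (√(16 * 2 ^ ε * c1 * c2 * (2 * K)) * (X : ℝ) ^ (3 * ε / 4) *
      (√(2 ^ j) * √((M + (A : ℝ) ^ 2) * M))) *
        ((2 + c3) * (K * (X : ℝ) ^ (ε / 4)) * (A / 2 ^ j + M / √(X : ℝ))) := by
        gcongr
    _ = (2 + c3) * K * √(16 * 2 ^ ε * c1 * c2 * (2 * K)) *
        ((X : ℝ) ^ (3 * ε / 4) * (X : ℝ) ^ (ε / 4)) * (A / 2 ^ j + M / √(X : ℝ)) *
        √(2 ^ j) * √((M + (A : ℝ) ^ 2) * M) := by ring
    _ = (2 + c3) * K * √(16 * 2 ^ ε * c1 * c2 * (2 * K)) * (X : ℝ) ^ ε * (1 / (A : ℝ)) *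
        (A / 2 ^ j + M / √(X : ℝ)) * √((A : ℝ) ^ 2 * 2 ^ j) * √((M + (A : ℝ) ^ 2) * M) := by
        rw [← Real.rpow_add hX0, hsA]
        have : 3 * ε / 4 + ε / 4 = ε := by ring
        rw [this]
        field_simp

end Pool.Agent.DEU
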