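import Pool.Agent.DEU.Defs

/-!
# DEU.CDefs: definitions for the analytic part
-/

namespace Pool.Agent.DEU

open Finset

noncomputable section

/-- `e(x) = exp(2πix)`. -/
def ee (x : ℝ) : ℂ := Complex.exp (2 * Real.pi * Complex.I * x)

/-- The integers `t` with `t² < 4n`. -/
def tset (n : ℕ) : Finset ℤ := (Icc (-(2 * n : ℤ)) (2 * n)).filter fun t => t ^ 2 < 4 * n

lemma mem_tset {n : ℕ} {t : ℤ} : t ∈ tset n ↔ t ^ 2 < 4 * n := by
  unfold tset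
  rw [mem_filter, mem_Icc]
  refine ⟨fun h => h.2, fun h => ⟨?_, h⟩⟩
  have hn : 0 < (n : ℤ) := by nlinarith [sq_nonneg t]
  constructor <;> nlinarith

/-- The residues modulo `a` prime to `a`. -/
def cop (a : ℕ) : Finset ℕ := (range a).filter fun r => Nat.Coprime r a

/-- The inverse modulo `a`. -/
def inv (a s : ℕ) : ℕ := ((s : ZMod a)⁻¹).val

/-- The Kloosterman sum `∑_s e((hs + hn s̄)/a)`. -/
def KK (a h n : ℕ) : ℂ := ∑ s ∈ cop a, ee (((h : ℝ) * s + h * n * inv a s) / a)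

open Classical in
/-- `∑_{t ∈ J, t² < 4n} e(ht/a) Ω(ga/√(4n - t²))`. -/
def TT (J : Set ℤ) (g a h n : ℕ) : ℂ :=
  ∑ t ∈ (tset n).filter (fun t => t ∈ J),
    ee ((h : ℝ) * t / a) * (Om ((g : ℝ) * a / √(4 * (n : ℝ) - (t : ℝ) ^ 2)) : ℂ)

open Classical in
/-- The error term: `∑_{a ≤ B} ∑_{t ∈ J, t² < 4n} (ρ_a(t) - φ(a)/a) Ω(a/√(4n - t²))`. -/
def Es (J : Set ℤ) (B n : ℕ) : ℝ :=
  ∑ a ∈ Icc 1 B, ∑ t ∈ (tset n).filter (fun t => t ∈ J),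
    ((rho a t n : ℝ) - (Nat.totient a : ℝ) / a) * Om ((a : ℝ) / √(4 * (n : ℝ) - (t : ℝ) ^ 2))

open Classical in
/-- The number of `t` with `t² < 4(n+1)` at which the sets `J n` and `J (n+1)` differ. -/
def chg (J : ℕ → Set ℤ) (n : ℕ) : ℕ :=
  ((tset (n + 1)).filter fun t => ¬ (t ∈ J n ↔ t ∈ J (n + 1))).card

/-- Families of intervals which vary slowly. -/
structure Good (J : ℕ → Set ℤ) : Prop where
  ord : ∀ n, (J n).OrdConnected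
  slow : ∀ X n₁ n₂ : ℕ, 1 ≤ X → X ≤ n₁ → n₁ ≤ n₂ → n₂ ≤ 2 * X →
    (∑ n ∈ Ico n₁ n₂, chg J n : ℕ) ≤ 4 * (((n₂ : ℝ) - n₁) / √(X : ℝ) + 1)

/-- The integers `h` prime to `a`, `0 < h < a`, at distance between `2^j` and `2^(j+1)` of
`aℤ`. -/
def bandh (a j : ℕ) : Finset ℕ :=
  (cop a).filter fun h => 2 ^ j ≤ min h (a - h) ∧ min h (a - h) < 2 ^ (j + 1)

end

end Pool.Agent.DEU
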