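import Pool.Agent.DEU.CDefs

/-!
# DEU.GoodJ: the families of intervals which are used
-/

namespace Pool.Agent.DEU

open Finset

private lemma goodj_sqrt {X n₁ n₂ : ℕ} (hX : 1 ≤ X) (h1 : X ≤ n₁) (h2 : n₁ ≤ n₂) :
    2 * (√(n₂ : ℝ) - √(n₁ : ℝ)) ≤ ((n₂ : ℝ) - n₁) / √(X : ℝ) := by
  have hX' : (1 : ℝ) ≤ X := by exact_mod_cast hX
  have hs : 0 < √(X : ℝ) := Real.sqrt_pos.2 (by linarith)
  have e1 : √(X : ℝ) ≤ √(n₁ : ℝ) := Real.sqrt_le_sqrt (by exact_mod_cast h1)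
  have e2 : √(n₁ : ℝ) ≤ √(n₂ : ℝ) := Real.sqrt_le_sqrt (by exact_mod_cast h2)
  have q1 : √(n₁ : ℝ) ^ 2 = n₁ := Real.sq_sqrt (Nat.cast_nonneg _)
  have q2 : √(n₂ : ℝ) ^ 2 = n₂ := Real.sq_sqrt (Nat.cast_nonneg _)
  rw [le_div_iff₀ hs]
  nlinarith

/-- If the number of changes is bounded by a telescoping sum of integers, the family is slow. -/
private lemma goodj_tele (J : ℕ → Set ℤ) (F : ℕ → ℤ) (h : ∀ n, (chg J n : ℤ) ≤ F (n + 1) - F n)
    {n₁ n₂ : ℕ} (h12 : n₁ ≤ n₂) : ((∑ n ∈ Ico n₁ n₂, chg J n : ℕ) : ℤ) ≤ F n₂ - F n₁ := by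
  induction n₂, h12 using Nat.le_induction with
  | base => simp
  | succ n hn ih =>
    rw [Finset.sum_Ico_succ_top hn]
    push_cast at ih ⊢
    have := h n
    linarith

open Classical in
private lemma goodj_chg (J : ℕ → Set ℤ) (F : ℕ → ℤ) (hJ : ∀ n t, t ∈ J n ↔ F n < t) (n : ℕ) :
    (chg J n : ℤ) ≤ |F (n + 1) - F n| := by
  rcases le_total (F n) (F (n + 1)) with hle | hle
  · have hsub : ((tset (n + 1)).filter fun t => ¬ (t ∈ J n ↔ t ∈ J (n + 1))) ⊆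
        Ioc (F n) (F (n + 1)) := by
      intro t ht
      rw [Finset.mem_filter, hJ, hJ] at ht
      rw [Finset.mem_Ioc]
      have h2 := ht.2
      by_contra hcon
      apply h2
      constructor
      · intro h3
        by_contra h4
        exact hcon ⟨h3, not_lt.1 h4⟩
      · intro h3
        exact lt_of_le_of_lt hle h3
    have h1 := Finset.card_le_card hsub
    rw [Int.card_Ioc] at h1
    have h2 : (chg J n : ℤ) ≤ ((F (n + 1) - F n).toNat : ℤ) := by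
      unfold chg
      exact_mod_cast h1
    rw [Int.toNat_of_nonneg (by linarith)] at h2
    rw [abs_of_nonneg (by linarith)]
    exact h2
  · have hsub : ((tset (n + 1)).filter fun t => ¬ (t ∈ J n ↔ t ∈ J (n + 1))) ⊆
        Ioc (F (n + 1)) (F n) := by
      intro t ht
      rw [Finset.mem_filter, hJ, hJ] at ht
      rw [Finset.mem_Ioc]
      have h2 := ht.2
      by_contra hcon
      apply h2
      constructor
      · intro h3
        exact lt_of_le_of_lt hle h3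
      · intro h3
        by_contra h4
        exact hcon ⟨h3, not_lt.1 h4⟩
    have h1 := Finset.card_le_card hsub
    rw [Int.card_Ioc] at h1
    have h2 : (chg J n : ℤ) ≤ ((F n - F (n + 1)).toNat : ℤ) := by
      unfold chg
      exact_mod_cast h1
    rw [Int.toNat_of_nonneg (by linarith)] at h2
    rw [abs_of_nonpos (by linarith)]
    linarith

theorem good_gt {c : ℝ} (h1 : -1 ≤ c) (h2 : c ≤ 1) :
    Good fun n => {t : ℤ | 2 * √(n : ℝ) * c < t} := by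
  have hJ : ∀ (n : ℕ) (t : ℤ), t ∈ {t : ℤ | 2 * √(n : ℝ) * c < t} ↔
      ⌊2 * √(n : ℝ) * c⌋ < t := fun n t => by rw [Set.mem_ofPred_eq, Int.floor_lt]
  have hchg := goodj_chg (fun n => {t : ℤ | 2 * √(n : ℝ) * c < t})
    (fun n => ⌊2 * √(n : ℝ) * c⌋) hJ
  have hsq : ∀ n : ℕ, √(n : ℝ) ≤ √((n + 1 : ℕ) : ℝ) := fun n =>
    Real.sqrt_le_sqrt (by push_cast; linarith)
  refine ⟨fun n => ⟨fun x hx y _ z hz => ?_⟩, ?_⟩
  · rw [Set.mem_ofPred_eq] at hx ⊢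
    exact lt_of_lt_of_le hx (by exact_mod_cast hz.1)
  intro X n₁ n₂ hX hX1 h12 _
  have hroot := goodj_sqrt hX hX1 h12
  have e2 : √(n₁ : ℝ) ≤ √(n₂ : ℝ) := Real.sqrt_le_sqrt (by exact_mod_cast h12)
  have hq : 0 ≤ ((n₂ : ℝ) - n₁) / √(X : ℝ) := by linarith
  rcases le_total 0 c with hc | hc
  · have ht := goodj_tele (fun n => {t : ℤ | 2 * √(n : ℝ) * c < t})
      (fun n => ⌊2 * √(n : ℝ) * c⌋) (fun n => by
        refine (hchg n).trans (le_of_eq (abs_of_nonneg ?_))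
        have : ⌊2 * √(n : ℝ) * c⌋ ≤ ⌊2 * √((n + 1 : ℕ) : ℝ) * c⌋ :=
          Int.floor_le_floor (by nlinarith [hsq n])
        linarith) h12
    have ht' : ((∑ n ∈ Ico n₁ n₂, chg (fun n : ℕ => {t : ℤ | 2 * √(n : ℝ) * c < t}) n : ℕ) : ℝ) ≤
        (⌊2 * √(n₂ : ℝ) * c⌋ : ℝ) - (⌊2 * √(n₁ : ℝ) * c⌋ : ℝ) := by exact_mod_cast ht
    have f1 := Int.floor_le (2 * √(n₂ : ℝ) * c)
    have f2 := Int.lt_floor_add_one (2 * √(n₁ : ℝ) * c)
    have f3 : (√(n₂ : ℝ) - √(n₁ : ℝ)) * c ≤ (√(n₂ : ℝ) - √(n₁ : ℝ)) * 1 :=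
      mul_le_mul_of_nonneg_left h2 (by linarith)
    linarith
  · have ht := goodj_tele (fun n => {t : ℤ | 2 * √(n : ℝ) * c < t})
      (fun n => -⌊2 * √(n : ℝ) * c⌋) (fun n => by
        refine (hchg n).trans (le_of_eq ?_)
        have : ⌊2 * √((n + 1 : ℕ) : ℝ) * c⌋ ≤ ⌊2 * √(n : ℝ) * c⌋ :=
          Int.floor_le_floor (by nlinarith [hsq n])
        rw [abs_of_nonpos (by linarith)]
        ring) h12
    have ht' : ((∑ n ∈ Ico n₁ n₂, chg (fun n : ℕ => {t : ℤ | 2 * √(n : ℝ) * c < t}) n : ℕ) : ℝ) ≤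
        -(⌊2 * √(n₂ : ℝ) * c⌋ : ℝ) - -(⌊2 * √(n₁ : ℝ) * c⌋ : ℝ) := by exact_mod_cast ht
    have f1 := Int.floor_le (2 * √(n₁ : ℝ) * c)
    have f2 := Int.lt_floor_add_one (2 * √(n₂ : ℝ) * c)
    have f3 : (√(n₂ : ℝ) - √(n₁ : ℝ)) * (-c) ≤ (√(n₂ : ℝ) - √(n₁ : ℝ)) * 1 :=
      mul_le_mul_of_nonneg_left (by linarith) (by linarith)
    linarith

end Pool.Agent.DEU
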