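import Pool.Agent.DEU.Kloos
import Pool.Agent.DEU.TBound

/-!
# DEU.SqB: the error term in mean square, uniformly over intervals
-/

namespace Pool.Agent.DEU

open Finset Real

lemma sqb_totient (g : ℕ) : ∀ a : ℕ, Nat.totient (g * a) ≤ g * Nat.totient a := by
  induction g using Nat.recOnMul with
  | zero => intro a; simp
  | one => intro a; simp
  | prime p hp =>
    intro a
    by_cases h : p ∣ a
    · rw [Nat.totient_mul_of_prime_of_dvd hp h]
    · rw [Nat.totient_mul_of_prime_of_not_dvd hp h]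
      exact Nat.mul_le_mul_right _ (Nat.sub_le _ _)
  | mul m n hm hn =>
    intro a
    rw [mul_assoc, mul_assoc]
    exact (hm _).trans (Nat.mul_le_mul_left _ (hn _))

lemma sqb_harm (a : ℕ) (ha : 2 ≤ a) :
    ∑ h ∈ cop a, (1 : ℝ) / ((min h (a - h) : ℕ) : ℝ) ≤ 2 * (1 + log a) := by
  have hmem : ∀ h ∈ cop a, 0 < h ∧ h < a := by
    intro h hh
    unfold cop at hh
    rw [mem_filter, mem_range] at hh
    refine ⟨?_, hh.1⟩
    rcases Nat.eq_zero_or_pos h with h0 | h0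
    · subst h0
      have := hh.2
      rw [Nat.coprime_zero_left] at this
      omega
    · exact h0
  have h1 : ∑ h ∈ cop a, (1 : ℝ) / ((min h (a - h) : ℕ) : ℝ) ≤
      ∑ h ∈ Ico 1 a, ((1 : ℝ) / h + 1 / ((a - h : ℕ) : ℝ)) := by
    refine le_trans ?_ (sum_le_sum_of_subset_of_nonneg (s := cop a) ?_ ?_)
    · apply sum_le_sum
      intro h hh
      have := hmem h hh
      rcases le_total h (a - h) with h2 | h2
      · rw [min_eq_left h2]
        have : (0 : ℝ) ≤ 1 / ((a - h : ℕ) : ℝ) := by positivity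
        linarith
      · rw [min_eq_right h2]
        have : (0 : ℝ) ≤ 1 / (h : ℝ) := by positivity
        linarith
    · intro h hh
      rw [mem_Ico]
      exact hmem h hh
    · intro h _ _
      positivity
  refine h1.trans ?_
  rw [sum_add_distrib]
  have h2 : ∑ h ∈ Ico 1 a, (1 : ℝ) / h = ∑ i ∈ range (a - 1), (1 : ℝ) / (i + 1) := by
    rw [sum_Ico_eq_sum_range]
    apply sum_congr rfl
    intro i _
    push_cast
    rw [add_comm]
  have h3 : ∑ h ∈ Ico 1 a, (1 : ℝ) / ((a - h : ℕ) : ℝ) = ∑ i ∈ range (a - 1), (1 : ℝ) / (i + 1) := by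
    rw [sum_Ico_eq_sum_range, ← sum_range_reflect]
    apply sum_congr rfl
    intro i hi
    rw [mem_range] at hi
    have : a - (1 + (a - 1 - 1 - i)) = i + 1 := by omega
    rw [this]
    push_cast
    rfl
  rw [h2, h3]
  have h4 := tb_harm (a - 1)
  have h5 : log ((a - 1 : ℕ) : ℝ) ≤ log a := by
    apply Real.log_le_log
    · exact_mod_cast (by omega : 0 < a - 1)
    · exact_mod_cast Nat.sub_le _ _
  linarith

lemma sqb_sqrt (B : ℕ) : ∑ a ∈ Icc 2 B, √(a : ℝ) / a ≤ 2 * √(B : ℝ) := by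
  have h : ∀ k : ℕ, ∑ a ∈ Icc 1 k, √(a : ℝ) / a ≤ 2 * √(k : ℝ) := by
    intro k
    induction k with
    | zero => simp
    | succ k ih =>
      rw [sum_Icc_succ_top (by omega)]
      have hk1 : (0 : ℝ) < ((k + 1 : ℕ) : ℝ) := by positivity
      have h1 : √(((k + 1 : ℕ) : ℝ)) / ((k + 1 : ℕ) : ℝ) ≤
          2 * (√(((k + 1 : ℕ) : ℝ)) - √(k : ℝ)) := by
        set x := √(((k + 1 : ℕ) : ℝ)) with hx
        set y := √(k : ℝ) with hy
        have hx2 : x ^ 2 = k + 1 := by rw [hx, Real.sq_sqrt hk1.le]; push_cast; ring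
        have hy2 : y ^ 2 = k := by rw [hy, Real.sq_sqrt (Nat.cast_nonneg _)]
        have hx0 : 0 < x := Real.sqrt_pos.2 hk1
        have hy0 : 0 ≤ y := Real.sqrt_nonneg _
        have hyx : y ≤ x := Real.sqrt_le_sqrt (by push_cast; linarith)
        have e1 : ((k + 1 : ℕ) : ℝ) = x ^ 2 := by rw [hx2]; push_cast; ring
        rw [e1, div_le_iff₀ (by positivity)]
        have h3 : (x - y) * (x + y) = 1 := by nlinarith
        have h4 : 1 ≤ (x - y) * (2 * x) := by nlinarith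
        nlinarith
      linarith
  refine le_trans ?_ (h B)
  apply sum_le_sum_of_subset_of_nonneg
  · intro a ha
    rw [mem_Icc] at ha ⊢
    omega
  · intro a _ _
    positivity

lemma sqb_mem_cop {a h : ℕ} (ha : 2 ≤ a) (hh : h ∈ cop a) : 0 < h ∧ h < a ∧ Nat.Coprime h a := by
  unfold cop at hh
  rw [mem_filter, mem_range] at hh
  refine ⟨?_, hh.1, hh.2⟩
  rcases Nat.eq_zero_or_pos h with h0 | h0
  · subst h0
    have := hh.2
    rw [Nat.coprime_zero_left] at this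
    omega
  · exact h0

/-- the coefficient -/
noncomputable def sqbc (B a h : ℕ) : ℝ := (B : ℝ) / a * (1 / ((min h (a - h) : ℕ) : ℝ))

lemma sqb_es {J : Set ℤ} (hJ : J.OrdConnected) {B n : ℕ} (hn : ∀ a ∈ Icc 1 B, Nat.Coprime n a) :
    |Es J B n| ≤ ∑ a ∈ Icc 2 B, ∑ h ∈ cop a, sqbc B a h * ‖KK a h n‖ := by
  have h1 : |Es J B n| = ‖(Es J B n : ℂ)‖ := by
    rw [Complex.norm_real, Real.norm_eq_abs]
  rw [h1, es_decomp hn J]
  refine (norm_sum_le _ _).trans (sum_le_sum fun a ha => ?_)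
  rw [mem_Icc] at ha
  have ha0 : (0 : ℝ) < a := by exact_mod_cast (by omega : 0 < a)
  have hφ : (0 : ℝ) < (Nat.totient a : ℝ) := by
    exact_mod_cast Nat.totient_pos.2 (by omega)
  have h2 : ∀ g ∈ Icc 1 (B / a), ‖((Nat.totient (g * a) : ℂ) / (g * a * (Nat.totient a : ℂ))) *
        ∑ h ∈ cop a, KK a h n * TT J g a h n‖ ≤
      ∑ h ∈ cop a, 1 / ((min h (a - h) : ℕ) : ℝ) * ‖KK a h n‖ := by
    intro g hg
    rw [mem_Icc] at hg
    have hg0 : (0 : ℝ) < g := by exact_mod_cast (by omega : 0 < g)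
    rw [norm_mul]
    have h3 : ‖(Nat.totient (g * a) : ℂ) / (g * a * (Nat.totient a : ℂ))‖ ≤ 1 / a := by
      rw [norm_div, norm_mul, norm_mul, Complex.norm_natCast, Complex.norm_natCast,
        Complex.norm_natCast, Complex.norm_natCast]
      rw [div_le_div_iff₀ (by positivity) ha0]
      have : (Nat.totient (g * a) : ℝ) ≤ g * Nat.totient a := by exact_mod_cast sqb_totient g a
      nlinarith
    have h4 : ‖∑ h ∈ cop a, KK a h n * TT J g a h n‖ ≤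
        ∑ h ∈ cop a, ‖KK a h n‖ * (a / ((min h (a - h) : ℕ) : ℝ)) := by
      refine (norm_sum_le _ _).trans (sum_le_sum fun h hh => ?_)
      rw [norm_mul]
      have := sqb_mem_cop ha.1 hh
      exact mul_le_mul_of_nonneg_left (tt_bound hJ hg.1 this.1 this.2.1) (norm_nonneg _)
    calc _ ≤ 1 / (a : ℝ) * ∑ h ∈ cop a, ‖KK a h n‖ * (a / ((min h (a - h) : ℕ) : ℝ)) :=
          mul_le_mul h3 h4 (norm_nonneg _) (by positivity)
      _ = _ := by
          rw [mul_sum]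
          apply sum_congr rfl
          intro h _
          field_simp
  refine (norm_sum_le _ _).trans ((sum_le_sum h2).trans ?_)
  rw [sum_const, nsmul_eq_mul, Nat.card_Icc, Nat.add_sub_cancel, mul_sum]
  apply sum_le_sum
  intro h _
  unfold sqbc
  have h5 : ((B / a : ℕ) : ℝ) ≤ (B : ℝ) / a := Nat.cast_div_le
  rw [mul_assoc]
  apply mul_le_mul_of_nonneg_right h5
  positivity

theorem sq_bound : ∀ ε : ℝ, 0 < ε → ∃ C : ℝ, 0 < C ∧ ∀ X B : ℕ, 1 ≤ X →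
    (B : ℝ) ≤ (X : ℝ) ^ (1 / 2 + ε) → B ≤ X → ∃ Bd : ℕ → ℝ,
    (∀ n, 0 ≤ Bd n) ∧
    (∀ n ∈ Ioc X (2 * X), (∀ a ∈ Icc 1 B, Nat.Coprime n a) →
      ∀ J : Set ℤ, J.OrdConnected → |Es J B n| ≤ Bd n) ∧
    ∑ n ∈ Ioc X (2 * X), (Bd n) ^ 2 ≤ C * (X : ℝ) ^ (5 / 2 + 4 * ε) := by
  intro ε hε
  refine ⟨32 * (1 + 2 / ε) ^ 2, by positivity, fun X B hX hB hBX =>
    ⟨fun n => ∑ a ∈ Icc 2 B, ∑ h ∈ cop a, sqbc B a h * ‖KK a h n‖, ?_, ?_, ?_⟩⟩
  · intro n
    refine sum_nonneg fun a _ => sum_nonneg fun h _ => ?_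
    unfold sqbc
    positivity
  · intro n _ hn J hJ
    exact sqb_es hJ hn
  have hX1 : (1 : ℝ) ≤ X := by exact_mod_cast hX
  have hX0 : (0 : ℝ) < X := by linarith
  set S := Ioc X (2 * X) with hS
  set Bd : ℕ → ℝ := fun n => ∑ a ∈ Icc 2 B, ∑ h ∈ cop a, sqbc B a h * ‖KK a h n‖ with hBd
  set I : Finset (Σ _ : ℕ, ℕ) := (Icc 2 B).sigma (fun a => cop a) with hI
  set c : (Σ _ : ℕ, ℕ) → ℝ := fun i => sqbc B i.1 i.2 with hc
  set σ : (Σ _ : ℕ, ℕ) → ℝ := fun i => √(2 * X * i.1) with hσ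
  have hmemI : ∀ i ∈ I, 2 ≤ i.1 ∧ i.1 ≤ B ∧ i.2 ∈ cop i.1 := by
    intro i hi
    rw [hI, mem_sigma, mem_Icc] at hi
    exact ⟨hi.1.1, hi.1.2, hi.2⟩
  have hc0 : ∀ i ∈ I, 0 ≤ c i := by
    intro i _
    simp only [hc]
    unfold sqbc
    positivity
  have hσ0 : ∀ i ∈ I, 0 < σ i := by
    intro i hi
    have := (hmemI i hi).1
    have h1 : (0 : ℝ) < i.1 := by exact_mod_cast (by omega : 0 < i.1)
    simp only [hσ]
    positivity
  -- one n
  have h1 : ∀ n ∈ S, (Bd n) ^ 2 ≤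
      (∑ i ∈ I, c i * σ i) * ∑ i ∈ I, c i / σ i * ‖KK i.1 i.2 n‖ ^ 2 := by
    intro n hn
    have h3 : Bd n = ∑ i ∈ I, c i * ‖KK i.1 i.2 n‖ := by
      rw [hI, sum_sigma]
    rw [h3]
    apply sum_sq_le_sum_mul_sum_of_sq_le_mul
    · intro i hi
      exact mul_nonneg (hc0 i hi) (hσ0 i hi).le
    · intro i hi
      have := hσ0 i hi
      have := hc0 i hi
      positivity
    · intro i hi
      have := hσ0 i hi
      apply le_of_eq
      field_simp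
  -- the sum over n
  have h2 : ∀ i ∈ I, ∑ n ∈ S, ‖KK i.1 i.2 n‖ ^ 2 ≤ (σ i) ^ 2 := by
    intro i hi
    obtain ⟨hi1, hi2, hi3⟩ := hmemI i hi
    have hi0 : (0 : ℝ) ≤ i.1 := Nat.cast_nonneg _
    refine ((KK_mean (by omega) (sqb_mem_cop hi1 hi3).2.2).trans ?_)
    simp only [hσ]
    rw [Real.sq_sqrt (by positivity)]
    have : (i.1 : ℝ) ≤ X := by exact_mod_cast hi2.trans hBX
    nlinarith
  have h3 : ∑ n ∈ S, (Bd n) ^ 2 ≤ (∑ i ∈ I, c i * σ i) ^ 2 := by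
    refine (sum_le_sum h1).trans ?_
    rw [← mul_sum, sum_comm, sq]
    have h0 : 0 ≤ ∑ i ∈ I, c i * σ i := sum_nonneg fun i hi => mul_nonneg (hc0 i hi) (hσ0 i hi).le
    apply mul_le_mul_of_nonneg_left _ h0
    apply sum_le_sum
    intro i hi
    rw [← mul_sum]
    have h4 := hσ0 i hi
    have h5 := hc0 i hi
    calc c i / σ i * ∑ n ∈ S, ‖KK i.1 i.2 n‖ ^ 2 ≤ c i / σ i * (σ i) ^ 2 :=
          mul_le_mul_of_nonneg_left (h2 i hi) (by positivity)
      _ = c i * σ i := by field_simp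
  -- bound for the sum of the coefficients
  have h4 : ∑ i ∈ I, c i * σ i ≤ 4 * √2 * B * √(X : ℝ) * (1 + log X) * √(B : ℝ) := by
    rw [hI, sum_sigma]
    simp only [hc, hσ]
    have h5 : ∀ a ∈ Icc 2 B, ∑ h ∈ cop a, sqbc B a h * √(2 * X * a) ≤
        2 * √2 * B * √(X : ℝ) * (1 + log X) * (√(a : ℝ) / a) := by
      intro a ha
      rw [mem_Icc] at ha
      have ha0 : (0 : ℝ) < a := by exact_mod_cast (by omega : 0 < a)
      have e1 : ∑ h ∈ cop a, sqbc B a h * √(2 * X * a) =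
          (B : ℝ) / a * √(2 * X * a) * ∑ h ∈ cop a, 1 / ((min h (a - h) : ℕ) : ℝ) := by
        rw [mul_sum]
        apply sum_congr rfl
        intro h _
        unfold sqbc
        ring
      rw [e1, Real.sqrt_mul (by positivity), Real.sqrt_mul (by norm_num)]
      have h6 := sqb_harm a ha.1
      have h7 : log (a : ℝ) ≤ log X := by
        apply Real.log_le_log ha0
        exact_mod_cast ha.2.trans hBX
      calc (B : ℝ) / a * (√2 * √(X : ℝ) * √(a : ℝ)) * ∑ h ∈ cop a, 1 / ((min h (a - h) : ℕ) : ℝ)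
          ≤ (B : ℝ) / a * (√2 * √(X : ℝ) * √(a : ℝ)) * (2 * (1 + log X)) := by
            apply mul_le_mul_of_nonneg_left _ (by positivity)
            linarith
        _ = _ := by ring
    refine (sum_le_sum h5).trans ?_
    rw [← mul_sum]
    have hlog : 0 ≤ log (X : ℝ) := Real.log_nonneg hX1
    calc 2 * √2 * B * √(X : ℝ) * (1 + log X) * ∑ a ∈ Icc 2 B, √(a : ℝ) / a
        ≤ 2 * √2 * B * √(X : ℝ) * (1 + log X) * (2 * √(B : ℝ)) :=
          mul_le_mul_of_nonneg_left (sqb_sqrt B) (by positivity)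
      _ = _ := by ring
  have h0 : 0 ≤ ∑ i ∈ I, c i * σ i := sum_nonneg fun i hi => mul_nonneg (hc0 i hi) (hσ0 i hi).le
  have hlog : 0 ≤ log (X : ℝ) := Real.log_nonneg hX1
  have h5 : (∑ i ∈ I, c i * σ i) ^ 2 ≤ 32 * ((B : ℝ) ^ 3 * X * (1 + log X) ^ 2) := by
    refine (pow_le_pow_left₀ h0 h4 2).trans (le_of_eq ?_)
    have e1 : √(2 : ℝ) ^ 2 = 2 := Real.sq_sqrt (by norm_num)
    have e2 : √(X : ℝ) ^ 2 = X := Real.sq_sqrt hX0.le
    have e3 : √(B : ℝ) ^ 2 = B := Real.sq_sqrt (Nat.cast_nonneg _)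
    calc (4 * √2 * B * √(X : ℝ) * (1 + log X) * √(B : ℝ)) ^ 2
        = 16 * (√2 ^ 2) * B ^ 2 * (√(X : ℝ) ^ 2) * (1 + log X) ^ 2 * (√(B : ℝ) ^ 2) := by ring
      _ = _ := by rw [e1, e2, e3]; ring
  have h6 : (B : ℝ) ^ 3 ≤ (X : ℝ) ^ (3 / 2 + 3 * ε) := by
    calc (B : ℝ) ^ 3 ≤ ((X : ℝ) ^ (1 / 2 + ε)) ^ 3 := pow_le_pow_left₀ (Nat.cast_nonneg _) hB 3
      _ = (X : ℝ) ^ (3 / 2 + 3 * ε) := by
        rw [← Real.rpow_natCast, ← Real.rpow_mul hX0.le]
        congr 1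
        push_cast
        ring
  have h7 : 1 + log (X : ℝ) ≤ (1 + 2 / ε) * (X : ℝ) ^ (ε / 2) := by
    have h8 : log (X : ℝ) ≤ (X : ℝ) ^ (ε / 2) / (ε / 2) :=
      Real.log_le_rpow_div hX0.le (by positivity)
    have h9 : (1 : ℝ) ≤ (X : ℝ) ^ (ε / 2) := Real.one_le_rpow hX1 (by positivity)
    have e1 : (X : ℝ) ^ (ε / 2) / (ε / 2) = 2 / ε * (X : ℝ) ^ (ε / 2) := by
      field_simp
    rw [e1] at h8
    linarith
  have h8 : (1 + log (X : ℝ)) ^ 2 ≤ (1 + 2 / ε) ^ 2 * (X : ℝ) ^ ε := by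
    refine (pow_le_pow_left₀ (by positivity) h7 2).trans (le_of_eq ?_)
    rw [mul_pow, ← Real.rpow_natCast ((X : ℝ) ^ (ε / 2)), ← Real.rpow_mul hX0.le]
    congr 2
    push_cast
    ring
  have h9 : (X : ℝ) ^ (5 / 2 + 4 * ε) = (X : ℝ) ^ (3 / 2 + 3 * ε) * X * (X : ℝ) ^ ε := by
    nth_rewrite 3 [← Real.rpow_one (X : ℝ)]
    rw [← Real.rpow_add hX0, ← Real.rpow_add hX0]
    congr 1
    ring
  calc ∑ n ∈ S, (Bd n) ^ 2 ≤ 32 * ((B : ℝ) ^ 3 * X * (1 + log X) ^ 2) := h3.trans h5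
    _ ≤ 32 * ((X : ℝ) ^ (3 / 2 + 3 * ε) * X * ((1 + 2 / ε) ^ 2 * (X : ℝ) ^ ε)) := by
        gcongr
    _ = 32 * (1 + 2 / ε) ^ 2 * (X : ℝ) ^ (5 / 2 + 4 * ε) := by rw [h9]; ring

end Pool.Agent.DEU
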