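import Pool.Agent.DEU.Band

/-!
# DEU.SumB: the error term on average over `n`
-/

namespace Pool.Agent.DEU

open Finset Real

private lemma sumB_pieces {f : ℕ → ℂ} {X L : ℕ} {M : ℝ} (hL : 1 ≤ L)
    (h : ∀ n₁ n₂ : ℕ, X ≤ n₁ → n₁ ≤ n₂ → n₂ ≤ 2 * X → n₂ ≤ n₁ + L →
      ‖∑ n ∈ Ioc n₁ n₂, f n‖ ≤ M) :
    ‖∑ n ∈ Ioc X (2 * X), f n‖ ≤ ((X / L : ℕ) + 1) * M := by
  have key : ∀ k : ℕ, ‖∑ n ∈ Ioc X (min (X + k * L) (2 * X)), f n‖ ≤ k * M := by
    intro k
    induction k with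
    | zero => simp
    | succ k ih =>
      have h1 : X ≤ min (X + k * L) (2 * X) := by
        refine le_min (by omega) (by omega)
      have h2 : min (X + k * L) (2 * X) ≤ min (X + (k + 1) * L) (2 * X) := by
        refine min_le_min ?_ le_rfl
        nlinarith
      have h3 : min (X + (k + 1) * L) (2 * X) ≤ 2 * X := min_le_right _ _
      have h4 : min (X + (k + 1) * L) (2 * X) ≤ min (X + k * L) (2 * X) + L := by
        rw [add_mul, one_mul]
        omega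
      rw [← Finset.sum_Ioc_consecutive f h1 h2]
      refine (norm_add_le _ _).trans ?_
      have h5 := h _ _ h1 h2 h3 h4
      push_cast
      linarith
  have h6 := key (X / L + 1)
  have h7 : min (X + (X / L + 1) * L) (2 * X) = 2 * X := by
    refine min_eq_right ?_
    have := Nat.lt_div_mul_add (a := X) (b := L) (by omega)
    nlinarith
  rw [h7] at h6
  push_cast at h6
  exact h6

private lemma sumB_dyadic (G : ℕ → ℂ) (I : ℕ) :
    ∑ a ∈ Ioc 1 (2 ^ I), G a = ∑ i ∈ range I, ∑ a ∈ Ioc (2 ^ i) (2 * 2 ^ i), G a := by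
  induction I with
  | zero => simp
  | succ I ih =>
    rw [sum_range_succ, ← ih, Finset.sum_Ioc_consecutive, pow_succ, mul_comm]
    · exact Nat.one_le_two_pow
    · rw [mul_comm]; omega

private lemma sumB_band {a i : ℕ} (ha : 2 ^ i < a) (ha2 : a ≤ 2 * 2 ^ i) (f : ℕ → ℂ) :
    ∑ h ∈ cop a, f h = ∑ j ∈ range (i + 1), ∑ h ∈ bandh a j, f h := by
  have h0 : 1 < a := lt_of_le_of_lt Nat.one_le_two_pow ha
  have hmem : ∀ h ∈ cop a, 0 < h ∧ h < a := by
    intro h hh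
    unfold cop at hh
    rw [mem_filter, mem_range] at hh
    refine ⟨Nat.pos_of_ne_zero ?_, hh.1⟩
    rintro rfl
    have := hh.2
    rw [Nat.coprime_zero_left] at this
    omega
  have hmaps : ∀ h ∈ cop a, Nat.log 2 (min h (a - h)) ∈ range (i + 1) := by
    intro h hh
    obtain ⟨h1, h2⟩ := hmem h hh
    rw [mem_range]
    have h3 : min h (a - h) < 2 ^ (i + 1) := by
      rw [pow_succ]
      have : 2 * 2 ^ i = 2 ^ i * 2 := by ring
      omega
    exact Nat.log_lt_of_lt_pow (by omega) h3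
  rw [← Finset.sum_fiberwise_of_maps_to hmaps]
  refine Finset.sum_congr rfl fun j _ => ?_
  refine Finset.sum_congr ?_ fun _ _ => rfl
  unfold bandh
  refine Finset.filter_congr fun h hh => ?_
  obtain ⟨h1, h2⟩ := hmem h hh
  rw [Nat.log_eq_iff (Or.inr ⟨by norm_num, by omega⟩)]

private lemma sumB_totient (g a : ℕ) : Nat.totient (g * a) ≤ g * Nat.totient a := by
  have h1 : ∀ g : ℕ, ((range (g * a)).filter fun x => Nat.Coprime a x).card = g * Nat.totient a := by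
    intro g
    induction g with
    | zero => simp
    | succ g ih =>
      have h2 : range ((g + 1) * a) = range (g * a) ∪ Ico (g * a) (g * a + a) := by
        ext x
        simp only [mem_range, mem_union, mem_Ico]
        rw [add_mul, one_mul]
        omega
      have h3 : Disjoint (range (g * a)) (Ico (g * a) (g * a + a)) := by
        rw [Finset.disjoint_left]
        intro x hx hx'
        rw [mem_range] at hx
        rw [mem_Ico] at hx'
        omega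
      rw [h2, filter_union, card_union_of_disjoint (Finset.disjoint_filter_filter h3), ih,
        Nat.filter_coprime_Ico_eq_totient]
      ring
  rw [← h1 g, Nat.totient_eq_card_coprime]
  refine card_le_card fun x hx => ?_
  rw [mem_filter] at hx ⊢
  exact ⟨hx.1, Nat.Coprime.coprime_dvd_left (Dvd.intro_left g rfl) hx.2⟩

/-- The coefficients. -/
private noncomputable def sumB_cc (B g A a : ℕ) : ℂ :=
  if A < a ∧ g * a ≤ B then
    (Nat.totient (g * a) : ℂ) / (g * a * (Nat.totient a : ℂ)) else 0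

private lemma sumB_cc_norm {B g A : ℕ} (hg : 1 ≤ g) (hA : 1 ≤ A) (a : ℕ) :
    ‖sumB_cc B g A a‖ ≤ 1 / (A : ℝ) := by
  unfold sumB_cc
  split_ifs with h
  · have ha : 0 < a := by omega
    have hphi : 0 < Nat.totient a := Nat.totient_pos.mpr ha
    have h1 : Nat.totient (g * a) ≤ g * Nat.totient a := sumB_totient g a
    have h2 : ‖(Nat.totient (g * a) : ℂ) / (g * a * (Nat.totient a : ℂ))‖ =
        (Nat.totient (g * a) : ℝ) / (g * a * Nat.totient a) := by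
      rw [norm_div, norm_mul, norm_mul]
      simp
    rw [h2]
    have h3 : (Nat.totient (g * a) : ℝ) ≤ g * Nat.totient a := by exact_mod_cast h1
    have hgR : (0 : ℝ) < g := by exact_mod_cast hg
    have haR : (0 : ℝ) < a := by exact_mod_cast ha
    have hpR : (0 : ℝ) < Nat.totient a := by exact_mod_cast hphi
    have hAR : (0 : ℝ) < A := by exact_mod_cast hA
    have hAa : (A : ℝ) ≤ a := by exact_mod_cast h.1.le
    rw [div_le_div_iff₀ (by positivity) hAR, one_mul]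
    calc (Nat.totient (g * a) : ℝ) * A ≤ (g * Nat.totient a) * a := by gcongr
      _ = g * a * Nat.totient a := by ring
  · rw [norm_zero]; positivity

/-- The real inequality behind `sumB_block`. -/
private lemma sumB_real {C E E' A P S X L K : ℝ} (hC : 0 < C) (hE : 1 ≤ E) (hE' : 0 ≤ E')
    (hA : 1 ≤ A) (hP : 1 ≤ P) (hS : 1 ≤ S) (hX : S * S = X) (hAE : A ≤ S * E)
    (hL1 : A * S / P ≤ L) (hL2 : L ≤ 2 * (A * S / P)) (hK0 : 0 ≤ K) (hK : K ≤ X / L + 1) :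
    K * (C * E' * (1 / A) * (A / P + L / S) * √(A ^ 2 * P) * √((L + A ^ 2) * L)) ≤
      12 * C * E' * A * X * E ^ 2 := by
  have hA0 : 0 < A := by linarith
  have hP0 : 0 < P := by linarith
  have hS0 : 0 < S := by linarith
  have hX0 : 0 < X := by rw [← hX]; positivity
  have hL0 : 0 < L := lt_of_lt_of_le (by positivity) hL1
  have h1 : A / P + L / S ≤ 3 * (A / P) := by
    have : L / S ≤ 2 * (A / P) := by
      rw [div_le_iff₀ hS0]
      calc L ≤ 2 * (A * S / P) := hL2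
        _ = 2 * (A / P) * S := by ring
    linarith
  have h2 : √(A ^ 2 * P) = A * √P := by
    rw [Real.sqrt_mul (by positivity), Real.sqrt_sq hA0.le]
  have hKL : K * L ≤ X + 2 * (A * S) := by
    have h3 : K * L ≤ (X / L + 1) * L := by gcongr
    have h4 : (X / L + 1) * L = X + L := by field_simp
    have h5 : A * S / P ≤ A * S := div_le_self (by positivity) hP
    linarith
  have hKA : K * A ^ 2 ≤ S * P * A + A ^ 2 := by
    have h3 : K * A ^ 2 ≤ (X / L + 1) * A ^ 2 := by gcongr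
    have h4 : X / L ≤ X / (A * S / P) := by gcongr
    have h5 : X / (A * S / P) = S * P / A := by
      rw [← hX]; field_simp
    have h6 : (X / L + 1) * A ^ 2 ≤ (S * P / A + 1) * A ^ 2 := by
      rw [← h5]; gcongr
    have h7 : (S * P / A + 1) * A ^ 2 = S * P * A + A ^ 2 := by field_simp
    linarith
  have hSE : S ≤ S * E := le_mul_of_one_le_right hS0.le hE
  have hY : 0 < S * E := by positivity
  have hXY : X ≤ (S * E) * (S * E) := by rw [← hX]; gcongr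
  have hASY : A * S ≤ (S * E) * (S * E) := by gcongr
  have hAAY : A ^ 2 ≤ (S * E) * (S * E) := by rw [sq]; gcongr
  have hKL' : K * L ≤ 3 * ((S * E) * (S * E)) := by linarith
  have hsum : K * (L + A ^ 2) ≤ P * (5 * ((S * E) * (S * E))) := by
    have h3 : X + 2 * (A * S) + A ^ 2 ≤ P * (4 * ((S * E) * (S * E))) := by
      calc X + 2 * (A * S) + A ^ 2 ≤ 4 * ((S * E) * (S * E)) := by linarith
        _ ≤ P * (4 * ((S * E) * (S * E))) := le_mul_of_one_le_left (by positivity) hP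
    have h4 : S * P * A ≤ P * ((S * E) * (S * E)) := by
      calc S * P * A = P * (A * S) := by ring
        _ ≤ P * ((S * E) * (S * E)) := by gcongr
    nlinarith
  have h8 : K * √((L + A ^ 2) * L) ≤ √P * (4 * ((S * E) * (S * E))) := by
    have h9 : K * √((L + A ^ 2) * L) = √(K * (L + A ^ 2) * (K * L)) := by
      rw [show K * (L + A ^ 2) * (K * L) = K ^ 2 * ((L + A ^ 2) * L) by ring,
        Real.sqrt_mul (sq_nonneg K) ((L + A ^ 2) * L), Real.sqrt_sq hK0]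
    rw [h9]
    have h10 : K * (L + A ^ 2) * (K * L) ≤
        (P * (5 * ((S * E) * (S * E)))) * (3 * ((S * E) * (S * E))) := by
      gcongr
    have h11 : (P * (5 * ((S * E) * (S * E)))) * (3 * ((S * E) * (S * E))) ≤
        P * (4 * ((S * E) * (S * E))) ^ 2 := by
      have : 0 ≤ P * ((S * E) * (S * E)) ^ 2 := by positivity
      nlinarith
    calc √(K * (L + A ^ 2) * (K * L)) ≤ √(P * (4 * ((S * E) * (S * E))) ^ 2) :=
          Real.sqrt_le_sqrt (h10.trans h11)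
      _ = √P * (4 * ((S * E) * (S * E))) := by
          rw [Real.sqrt_mul hP0.le, Real.sqrt_sq (by positivity)]
  have hPP : √P * √P = P := Real.mul_self_sqrt hP0.le
  calc K * (C * E' * (1 / A) * (A / P + L / S) * √(A ^ 2 * P) * √((L + A ^ 2) * L))
      = C * E' * (1 / A) * (A / P + L / S) * √(A ^ 2 * P) * (K * √((L + A ^ 2) * L)) := by ring
    _ ≤ C * E' * (1 / A) * (3 * (A / P)) * (A * √P) * (√P * (4 * ((S * E) * (S * E)))) := by
        rw [h2]; gcongr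
    _ = 12 * C * E' * A * (√P * √P / P) * (S * S) * E ^ 2 := by
        field_simp
        ring
    _ = 12 * C * E' * A * X * E ^ 2 := by
        rw [hPP, hX, div_self hP0.ne', mul_one]

/-- The bound for one `g`, one dyadic block and one band. -/
private lemma sumB_block {C E E' : ℝ} (hC : 0 < C) (hE : 1 ≤ E) (hE' : 0 ≤ E')
    {X A j g : ℕ} {J : ℕ → Set ℤ} {b c : ℕ → ℂ}
    (hband : ∀ n₁ n₂ : ℕ, X ≤ n₁ → n₁ ≤ n₂ → n₂ ≤ 2 * X →
    ‖∑ n ∈ Ioc n₁ n₂, b n * ∑ a ∈ Ioc A (2 * A), c a *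
        ∑ h ∈ bandh a j, KK a h n * TT (J n) g a h n‖ ≤
      C * E' * (1 / (A : ℝ)) * ((A : ℝ) / 2 ^ j + ((n₂ : ℝ) - n₁) / √(X : ℝ)) *
        √((A : ℝ) ^ 2 * 2 ^ j) * √((((n₂ : ℝ) - n₁) + (A : ℝ) ^ 2) * ((n₂ : ℝ) - n₁)))
    (hX : 1 ≤ X) (hA : 1 ≤ A) (hAe : (A : ℝ) ≤ √(X : ℝ) * E) (hj : 2 ^ j ≤ A) :
    ‖∑ n ∈ Ioc X (2 * X), b n * ∑ a ∈ Ioc A (2 * A), c a *
        ∑ h ∈ bandh a j, KK a h n * TT (J n) g a h n‖ ≤
      12 * C * E' * A * X * E ^ 2 := by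
  have hXR : (1 : ℝ) ≤ X := by exact_mod_cast hX
  have hAR : (1 : ℝ) ≤ A := by exact_mod_cast hA
  have hS : 1 ≤ √(X : ℝ) := Real.one_le_sqrt.mpr hXR
  have hP : (1 : ℝ) ≤ 2 ^ j := one_le_pow₀ (by norm_num)
  have hPA : (2 : ℝ) ^ j ≤ A := by exact_mod_cast hj
  have hP0 : (0 : ℝ) < 2 ^ j := by positivity
  have hx1 : 1 ≤ (A : ℝ) * √(X : ℝ) / 2 ^ j := by
    rw [one_le_div hP0]
    calc (2 : ℝ) ^ j ≤ A := hPA
      _ ≤ A * √(X : ℝ) := le_mul_of_one_le_right (by linarith) hS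
  have hL1 : (A : ℝ) * √(X : ℝ) / 2 ^ j ≤ (⌈(A : ℝ) * √(X : ℝ) / 2 ^ j⌉₊ : ℝ) := Nat.le_ceil _
  have hL2 : (⌈(A : ℝ) * √(X : ℝ) / 2 ^ j⌉₊ : ℝ) ≤ 2 * ((A : ℝ) * √(X : ℝ) / 2 ^ j) := by
    have := (Nat.ceil_lt_add_one (a := (A : ℝ) * √(X : ℝ) / 2 ^ j) (by positivity)).le
    linarith
  have hL0 : 1 ≤ ⌈(A : ℝ) * √(X : ℝ) / 2 ^ j⌉₊ := by
    have : (1 : ℝ) ≤ (⌈(A : ℝ) * √(X : ℝ) / 2 ^ j⌉₊ : ℝ) := hx1.trans hL1
    exact_mod_cast this
  generalize ⌈(A : ℝ) * √(X : ℝ) / 2 ^ j⌉₊ = L at hL1 hL2 hL0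
  have hK : (((X / L : ℕ) : ℝ) + 1) ≤ (X : ℝ) / L + 1 := by
    have := @Nat.cast_div_le ℝ _ _ _ X L
    linarith
  refine (sumB_pieces (L := L) (M := C * E' * (1 / (A : ℝ)) * ((A : ℝ) / 2 ^ j + (L : ℝ) / √(X : ℝ)) *
        √((A : ℝ) ^ 2 * 2 ^ j) * √(((L : ℝ) + (A : ℝ) ^ 2) * L)) hL0 ?_).trans ?_
  · intro n₁ n₂ h1 h2 h3 h4
    refine (hband n₁ n₂ h1 h2 h3).trans ?_
    have h5 : (n₂ : ℝ) - n₁ ≤ L := by
      have : (n₂ : ℝ) ≤ n₁ + L := by exact_mod_cast h4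
      linarith
    have h6 : (0 : ℝ) ≤ (n₂ : ℝ) - n₁ := by
      have : (n₁ : ℝ) ≤ n₂ := by exact_mod_cast h2
      linarith
    gcongr
  · exact sumB_real hC hE hE' hAR hP hS (Real.mul_self_sqrt (by positivity)) hAe hL1 hL2
      (by positivity) hK

private lemma sumB_expand {B I n : ℕ} (hI : B < 2 ^ I) (hn : ∀ a ∈ Icc 1 B, Nat.Coprime n a)
    (J : Set ℤ) :
    (Es J B n : ℂ) = ∑ g ∈ Icc 1 B, ∑ i ∈ range I, ∑ j ∈ range (i + 1),
      ∑ a ∈ Ioc (2 ^ i) (2 * 2 ^ i), sumB_cc B g (2 ^ i) a *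
        ∑ h ∈ bandh a j, KK a h n * TT J g a h n := by
  rw [es_decomp hn J]
  have h1 : ∀ x y : ℕ, x ∈ Icc 2 B ∧ y ∈ Icc 1 (B / x) ↔
      x ∈ (Ioc 1 (2 ^ I)).filter (fun x => y * x ≤ B) ∧ y ∈ Icc 1 B := by
    intro x y
    simp only [mem_Icc, mem_filter, mem_Ioc]
    constructor
    · rintro ⟨⟨h1, h2⟩, h3, h4⟩
      have h5 : y * x ≤ B := (Nat.le_div_iff_mul_le (by omega)).mp h4
      refine ⟨⟨⟨by omega, by omega⟩, h5⟩, h3, ?_⟩
      exact h4.trans (Nat.div_le_self _ _)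
    · rintro ⟨⟨⟨h1, h2⟩, h3⟩, h4, h5⟩
      refine ⟨⟨by omega, ?_⟩, h4, (Nat.le_div_iff_mul_le (by omega)).mpr h3⟩
      calc x = 1 * x := (one_mul x).symm
        _ ≤ y * x := Nat.mul_le_mul_right _ h4
        _ ≤ B := h3
  rw [Finset.sum_comm' h1]
  refine Finset.sum_congr rfl fun g hg => ?_
  rw [Finset.sum_filter, sumB_dyadic]
  refine Finset.sum_congr rfl fun i _ => ?_
  rw [Finset.sum_comm]
  refine Finset.sum_congr rfl fun a ha => ?_
  rw [mem_Ioc] at ha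
  unfold sumB_cc
  by_cases h2 : g * a ≤ B
  · rw [if_pos h2, if_pos ⟨ha.1, h2⟩, sumB_band ha.1 ha.2, Finset.mul_sum]
  · rw [if_neg h2, if_neg (fun h => h2 h.2)]
    simp

private lemma sumB_log {ε : ℝ} (hε : 0 < ε) {X B : ℕ} (hX : 1 ≤ X) (hB : B ≤ X) :
    ((Nat.log 2 B + 1 : ℕ) : ℝ) ≤ (1 + 16 / ε) * (X : ℝ) ^ (ε / 8) := by
  have hXR : (1 : ℝ) ≤ X := by exact_mod_cast hX
  have h1 : ((Nat.log 2 B : ℕ) : ℝ) ≤ 2 * Real.log X := by
    rcases Nat.eq_zero_or_pos B with h0 | h0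
    · subst h0
      simp only [Nat.log_zero_right, Nat.cast_zero]
      have := Real.log_nonneg hXR
      linarith
    · have h2 : 2 ^ Nat.log 2 B ≤ X := (Nat.pow_log_le_self 2 h0.ne').trans hB
      have h3 : (2 : ℝ) ^ Nat.log 2 B ≤ X := by exact_mod_cast h2
      have h4 := Real.log_le_log (by positivity) h3
      rw [Real.log_pow] at h4
      have h5 : (1 : ℝ) / 2 ≤ Real.log 2 := by
        have := Real.log_two_gt_d9
        linarith
      have h6 : (0 : ℝ) ≤ (Nat.log 2 B : ℝ) := by positivity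
      nlinarith
  have h2 : Real.log X ≤ (X : ℝ) ^ (ε / 8) / (ε / 8) :=
    Real.log_le_rpow_div (by linarith) (by positivity)
  have h3 : 1 ≤ (X : ℝ) ^ (ε / 8) := Real.one_le_rpow hXR (by positivity)
  push_cast
  calc (Nat.log 2 B : ℝ) + 1 ≤ 2 * ((X : ℝ) ^ (ε / 8) / (ε / 8)) + (X : ℝ) ^ (ε / 8) := by
        linarith
    _ = (1 + 16 / ε) * (X : ℝ) ^ (ε / 8) := by
        field_simp
        ring

theorem sum_bound : ∀ ε : ℝ, 0 < ε → ∃ C : ℝ, 0 < C ∧ ∀ X B : ℕ, 1 ≤ X →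
    (B : ℝ) ≤ (X : ℝ) ^ (1 / 2 + ε) → B ≤ X → ∀ J : ℕ → Set ℤ, Good J → ∀ b : ℕ → ℝ,
    (∀ n, |b n| ≤ 1) → (∀ n, b n ≠ 0 → ∀ a ∈ Icc 1 B, Nat.Coprime n a) →
    |∑ n ∈ Ioc X (2 * X), b n * Es (J n) B n| ≤ C * (X : ℝ) ^ (3 / 2 + 4 * ε) := by
  intro ε hε
  obtain ⟨C, hC, hband⟩ := band (ε / 4) (by positivity)
  refine ⟨12 * C * (1 + 16 / ε) ^ 2, by positivity, ?_⟩
  intro X B hX hBX hB J hJ b hb hcop
  have hXR : (1 : ℝ) ≤ X := by exact_mod_cast hX
  have hX0 : (0 : ℝ) < X := by linarith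
  set I := Nat.log 2 B + 1 with hI
  have hBI : B < 2 ^ I := Nat.lt_pow_succ_log_self (by norm_num) B
  set E : ℝ := (X : ℝ) ^ ε with hE
  set E' : ℝ := (X : ℝ) ^ (ε / 4) with hE'
  have hE1 : 1 ≤ E := Real.one_le_rpow hXR hε.le
  have hE0 : 0 ≤ E' := by positivity
  have hBS : (B : ℝ) ≤ √(X : ℝ) * E := by
    refine hBX.trans (le_of_eq ?_)
    rw [Real.rpow_add hX0, Real.sqrt_eq_rpow]
  -- the expansion
  have h1 : ((∑ n ∈ Ioc X (2 * X), b n * Es (J n) B n : ℝ) : ℂ) =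
      ∑ g ∈ Icc 1 B, ∑ i ∈ range I, ∑ j ∈ range (i + 1), ∑ n ∈ Ioc X (2 * X), (b n : ℂ) *
        ∑ a ∈ Ioc (2 ^ i) (2 * 2 ^ i), sumB_cc B g (2 ^ i) a *
          ∑ h ∈ bandh a j, KK a h n * TT (J n) g a h n := by
    have h2 : ∀ n ∈ Ioc X (2 * X), ((b n * Es (J n) B n : ℝ) : ℂ) =
        ∑ g ∈ Icc 1 B, ∑ i ∈ range I, ∑ j ∈ range (i + 1), (b n : ℂ) *
        ∑ a ∈ Ioc (2 ^ i) (2 * 2 ^ i), sumB_cc B g (2 ^ i) a *
          ∑ h ∈ bandh a j, KK a h n * TT (J n) g a h n := by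
      intro n _
      by_cases h0 : b n = 0
      · rw [h0]; simp
      · push_cast
        rw [sumB_expand hBI (hcop n h0) (J n)]
        simp only [Finset.mul_sum]
    rw [Complex.ofReal_sum, Finset.sum_congr rfl h2, Finset.sum_comm]
    refine Finset.sum_congr rfl fun g _ => ?_
    rw [Finset.sum_comm]
    refine Finset.sum_congr rfl fun i _ => ?_
    rw [Finset.sum_comm]
  have h2 : |∑ n ∈ Ioc X (2 * X), b n * Es (J n) B n| =
      ‖((∑ n ∈ Ioc X (2 * X), b n * Es (J n) B n : ℝ) : ℂ)‖ := by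
    rw [Complex.norm_real, Real.norm_eq_abs]
  -- the bound for one term
  have h3 : ∀ g ∈ Icc 1 B, ∀ i ∈ range I, ∀ j ∈ range (i + 1),
      ‖∑ n ∈ Ioc X (2 * X), (b n : ℂ) *
        ∑ a ∈ Ioc (2 ^ i) (2 * 2 ^ i), sumB_cc B g (2 ^ i) a *
          ∑ h ∈ bandh a j, KK a h n * TT (J n) g a h n‖ ≤
      if g * 2 ^ i ≤ B then 12 * C * E' * ((2 ^ i : ℕ) : ℝ) * X * E ^ 2 else 0 := by
    intro g hg i hi j hj
    rw [mem_Icc] at hg
    rw [mem_range] at hi hj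
    split_ifs with h
    · have h4 : 1 ≤ 2 ^ i := Nat.one_le_two_pow
      have h5 : 2 ^ i ≤ B := le_trans (Nat.le_mul_of_pos_left _ hg.1) h
      have h6 : 2 ^ j ≤ 2 ^ i := Nat.pow_le_pow_right (by norm_num) (by omega)
      refine sumB_block hC hE1 hE0 ?_ hX h4 ?_ h6
      · intro n₁ n₂ h7 h8 h9
        refine hband X n₁ n₂ (2 ^ i) j g J _ _ hJ hX h7 h8 h9 h4 (h5.trans hB) hg.1 h6 ?_ ?_
        · intro n
          rw [Complex.norm_real, Real.norm_eq_abs]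
          exact hb n
        · exact sumB_cc_norm hg.1 h4
      · refine le_trans ?_ hBS
        exact_mod_cast h5
    · refine le_of_eq ?_
      rw [norm_eq_zero]
      refine Finset.sum_eq_zero fun n _ => ?_
      rw [Finset.sum_eq_zero, mul_zero]
      intro a ha
      rw [mem_Ioc] at ha
      have : ¬ (2 ^ i < a ∧ g * a ≤ B) := by
        rintro ⟨h4, h5⟩
        apply h
        exact (Nat.mul_le_mul_left g h4.le).trans h5
      unfold sumB_cc
      rw [if_neg this, zero_mul]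
  -- summation
  set M : ℝ := 12 * C * E' * X * E ^ 2 with hM
  have hM0 : 0 ≤ M := by positivity
  have h4 : |∑ n ∈ Ioc X (2 * X), b n * Es (J n) B n| ≤
      ∑ g ∈ Icc 1 B, ∑ i ∈ range I, ∑ j ∈ range (i + 1),
        if g * 2 ^ i ≤ B then 12 * C * E' * ((2 ^ i : ℕ) : ℝ) * X * E ^ 2 else 0 := by
    rw [h2, h1]
    refine (norm_sum_le _ _).trans (Finset.sum_le_sum fun g hg => ?_)
    refine (norm_sum_le _ _).trans (Finset.sum_le_sum fun i hi => ?_)
    refine (norm_sum_le _ _).trans (Finset.sum_le_sum fun j hj => ?_)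
    exact h3 g hg i hi j hj
  have h5 : ∑ g ∈ Icc 1 B, ∑ i ∈ range I, ∑ j ∈ range (i + 1),
        (if g * 2 ^ i ≤ B then 12 * C * E' * ((2 ^ i : ℕ) : ℝ) * X * E ^ 2 else 0) ≤
      I * (I * (M * B)) := by
    rw [Finset.sum_comm]
    have h6 : ∀ i ∈ range I, ∑ g ∈ Icc 1 B, ∑ j ∈ range (i + 1),
        (if g * 2 ^ i ≤ B then 12 * C * E' * ((2 ^ i : ℕ) : ℝ) * X * E ^ 2 else 0) ≤
        I * (M * B) := by
      intro i hi
      rw [mem_range] at hi
      simp only [Finset.sum_const, card_range, nsmul_eq_mul]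
      rw [← Finset.mul_sum, ← Finset.sum_filter, Finset.sum_const, nsmul_eq_mul]
      have h7 : (((Icc 1 B).filter fun g => g * 2 ^ i ≤ B).card) * 2 ^ i ≤ B := by
        have h8 : (Icc 1 B).filter (fun g => g * 2 ^ i ≤ B) ⊆ Icc 1 (B / 2 ^ i) := by
          intro g hg
          rw [mem_filter, mem_Icc] at hg
          rw [mem_Icc]
          exact ⟨hg.1.1, (Nat.le_div_iff_mul_le (by positivity)).mpr hg.2⟩
        have h9 := card_le_card h8
        rw [Nat.card_Icc, Nat.add_sub_cancel] at h9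
        exact (Nat.mul_le_mul_right _ h9).trans (Nat.div_mul_le_self _ _)
      have h8 : ((((Icc 1 B).filter fun g => g * 2 ^ i ≤ B).card : ℕ) : ℝ) * ((2 ^ i : ℕ) : ℝ) ≤
          B := by exact_mod_cast h7
      have h9 : ((i + 1 : ℕ) : ℝ) ≤ I := by exact_mod_cast hi
      calc ((i + 1 : ℕ) : ℝ) * (((((Icc 1 B).filter fun g => g * 2 ^ i ≤ B).card : ℕ) : ℝ) *
            (12 * C * E' * ((2 ^ i : ℕ) : ℝ) * X * E ^ 2))
          = ((i + 1 : ℕ) : ℝ) * (M * (((((Icc 1 B).filter fun g => g * 2 ^ i ≤ B).card : ℕ) : ℝ) *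
            ((2 ^ i : ℕ) : ℝ))) := by rw [hM]; ring
        _ ≤ I * (M * B) := by gcongr
    calc _ ≤ ∑ i ∈ range I, (I : ℝ) * (M * B) := Finset.sum_le_sum h6
      _ = I * (I * (M * B)) := by
        rw [Finset.sum_const, card_range, nsmul_eq_mul]
  have h6 : (I : ℝ) ≤ (1 + 16 / ε) * (X : ℝ) ^ (ε / 8) := sumB_log hε hX hB
  have h7 : (0 : ℝ) ≤ (I : ℝ) := by positivity
  calc |∑ n ∈ Ioc X (2 * X), b n * Es (J n) B n| ≤ I * (I * (M * B)) := h4.trans h5
    _ ≤ ((1 + 16 / ε) * (X : ℝ) ^ (ε / 8)) * (((1 + 16 / ε) * (X : ℝ) ^ (ε / 8)) *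
        (M * (X : ℝ) ^ (1 / 2 + ε))) := by gcongr
    _ = 12 * C * (1 + 16 / ε) ^ 2 * (X : ℝ) ^ (3 / 2 + 7 / 2 * ε) := by
        rw [hM, hE, hE']
        have e1 : (X : ℝ) ^ (3 / 2 + 7 / 2 * ε) = (X : ℝ) ^ (ε / 8) * (X : ℝ) ^ (ε / 8) *
            (X : ℝ) ^ (ε / 4) * X * ((X : ℝ) ^ ε) ^ 2 * (X : ℝ) ^ (1 / 2 + ε) := by
          have e2 : (X : ℝ) = (X : ℝ) ^ (1 : ℝ) := (Real.rpow_one _).symm
          rw [sq]
          nth_rewrite 5 [e2]
          simp only [← Real.rpow_add hX0]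
          congr 1
          ring
        rw [e1]
        ring
    _ ≤ 12 * C * (1 + 16 / ε) ^ 2 * (X : ℝ) ^ (3 / 2 + 4 * ε) := by
        gcongr
        norm_num

end Pool.Agent.DEU
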