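import Pool.Agent.DEU.WB
import Pool.Agent.DEU.SumB
import Pool.Agent.DEU.SqB
import Pool.Agent.DEU.GoodJ

/-!
# DEU.CGlue: the hypotheses of the bridge
-/

namespace Pool.Agent.DEU

open Finset Real Pool.Agent.H11.STA

/-- The dyadic block of the `k`-th prime. -/
noncomputable def cg_blk (k : ℕ) : ℕ := Nat.log 2 (Nat.nth Nat.Prime k - 1)

lemma cg_blk_spec (k : ℕ) :
    2 ^ cg_blk k < Nat.nth Nat.Prime k ∧ Nat.nth Nat.Prime k ≤ 2 * 2 ^ cg_blk k := by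
  have h2 : 2 ≤ Nat.nth Nat.Prime k := (Nat.prime_nth_prime k).two_le
  have h3 : Nat.nth Nat.Prime k - 1 ≠ 0 := by omega
  have h4 := Nat.pow_log_le_self 2 h3
  have h5 := Nat.lt_pow_succ_log_self (b := 2) (by norm_num) (Nat.nth Nat.Prime k - 1)
  unfold cg_blk
  rw [pow_succ] at h5
  constructor
  · omega
  · omega

lemma cg_blk_mono {k l : ℕ} (h : k ≤ l) : cg_blk k ≤ cg_blk l := by
  unfold cg_blk
  apply Nat.log_mono_right
  have h1 : Nat.nth Nat.Prime k ≤ Nat.nth Nat.Prime l :=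
    Nat.nth_monotone Nat.infinite_setOfPred_prime h
  omega

lemma cg_sum_blocks (K : ℕ) (f : ℕ → ℝ) :
    ∑ k ∈ range K, f k = ∑ m ∈ range (cg_blk (K - 1) + 1),
      ∑ k ∈ (range K).filter (fun k => cg_blk k = m), f k := by
  symm
  apply Finset.sum_fiberwise_of_maps_to
  intro k hk
  rw [mem_range] at hk ⊢
  have := cg_blk_mono (show k ≤ K - 1 by omega)
  omega

lemma cg_geom (s : ℝ) (hs : 1 / 2 ≤ s) (M : ℕ) :
    ∑ m ∈ range M, (((2 : ℝ) ^ m) ^ s) ≤ 4 * ((2 : ℝ) ^ M) ^ s := by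
  have hr : ∀ m : ℕ, ((2 : ℝ) ^ m) ^ s = ((2 : ℝ) ^ s) ^ m := by
    intro m
    rw [← Real.rpow_natCast, ← Real.rpow_natCast, ← Real.rpow_mul (by norm_num),
      ← Real.rpow_mul (by norm_num), mul_comm]
  simp_rw [hr]
  have h1 : (5 : ℝ) / 4 ≤ (2 : ℝ) ^ s := by
    calc (5 : ℝ) / 4 ≤ (2 : ℝ) ^ ((1 : ℝ) / 2) := by
          rw [← Real.sqrt_eq_rpow]
          apply Real.le_sqrt_of_sq_le
          norm_num
      _ ≤ (2 : ℝ) ^ s := Real.rpow_le_rpow_of_exponent_le (by norm_num) hs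
  set r : ℝ := (2 : ℝ) ^ s with hrdef
  induction M with
  | zero => simp
  | succ M ih =>
    rw [Finset.sum_range_succ, pow_succ]
    have : (0 : ℝ) ≤ r ^ M := by positivity
    nlinarith

/-- The sum over the blocks. -/
lemma cg_total (ε : ℝ) (hε : 0 < ε) : ∃ e : ℝ, 0 < e ∧ e ≤ 1 / 8 ∧ e ≤ ε ∧ ∃ D : ℝ, 0 < D ∧
    ∀ K : ℕ, 1 ≤ K → ∑ m ∈ range (cg_blk (K - 1) + 1), (((2 : ℝ) ^ m) ^ (1 / 2 + 4 * e)) ≤
      D * (K : ℝ) ^ (1 / 2 + ε) := by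
  set e : ℝ := min (ε / 8) (1 / 8) with he
  have he0 : 0 < e := lt_min (by positivity) (by norm_num)
  have he1 : e ≤ 1 / 8 := min_le_right _ _
  have he2 : e ≤ ε / 8 := min_le_left _ _
  refine ⟨e, he0, he1, by linarith, 4 * (90 * (1 + 1 / e)) ^ (1 / 2 + 4 * e), by positivity, ?_⟩
  intro K hK
  have hK0 : (1 : ℝ) ≤ K := by exact_mod_cast hK
  refine (cg_geom _ (by linarith) _).trans ?_
  rw [mul_assoc]
  apply mul_le_mul_of_nonneg_left _ (by norm_num)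
  have hP : (Nat.nth Nat.Prime (K - 1) : ℝ) ≤ 45 * (K * (Real.log K + 1)) := by
    rcases Nat.lt_or_ge K 2 with h | h
    · have hK1 : K = 1 := by omega
      subst hK1
      have : Nat.nth Nat.Prime 0 = 2 := Nat.nth_prime_zero_eq_two
      simp [this]
      norm_num
    · refine (nth_prime_le K h).trans ?_
      have : (0 : ℝ) ≤ K := by linarith
      nlinarith
  have hlog : Real.log K + 1 ≤ (1 + 1 / e) * (K : ℝ) ^ e := by
    have h1 := Real.log_le_rpow_div (show (0 : ℝ) ≤ K by linarith) he0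
    have h2 : (1 : ℝ) ≤ (K : ℝ) ^ e := Real.one_le_rpow hK0 he0.le
    calc Real.log K + 1 ≤ (K : ℝ) ^ e / e + (K : ℝ) ^ e := by linarith
      _ = (1 + 1 / e) * (K : ℝ) ^ e := by ring
  have h2M : (2 : ℝ) ^ (cg_blk (K - 1) + 1) ≤ 90 * (1 + 1 / e) * (K : ℝ) ^ (1 + e) := by
    have h1 := (cg_blk_spec (K - 1)).1
    have h2 : ((2 ^ cg_blk (K - 1) : ℕ) : ℝ) ≤ (Nat.nth Nat.Prime (K - 1) : ℝ) := by
      exact_mod_cast h1.le
    push_cast at h2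
    rw [pow_succ]
    have h3 : (0 : ℝ) < K := by linarith
    calc (2 : ℝ) ^ cg_blk (K - 1) * 2 ≤ 45 * (K * (Real.log K + 1)) * 2 := by
          have := h2.trans hP; linarith
      _ ≤ 45 * (K * ((1 + 1 / e) * (K : ℝ) ^ e)) * 2 := by gcongr
      _ = 90 * (1 + 1 / e) * (K : ℝ) ^ (1 + e) := by
          rw [Real.rpow_add h3, Real.rpow_one]; ring
  calc ((2 : ℝ) ^ (cg_blk (K - 1) + 1)) ^ (1 / 2 + 4 * e)
      ≤ (90 * (1 + 1 / e) * (K : ℝ) ^ (1 + e)) ^ (1 / 2 + 4 * e) := by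
        apply Real.rpow_le_rpow (by positivity) h2M (by positivity)
    _ = (90 * (1 + 1 / e)) ^ (1 / 2 + 4 * e) * (K : ℝ) ^ ((1 + e) * (1 / 2 + 4 * e)) := by
        rw [Real.mul_rpow (by positivity) (by positivity), ← Real.rpow_mul (by positivity)]
    _ ≤ (90 * (1 + 1 / e)) ^ (1 / 2 + 4 * e) * (K : ℝ) ^ (1 / 2 + ε) := by
        apply mul_le_mul_of_nonneg_left _ (by positivity)
        apply Real.rpow_le_rpow_of_exponent_le hK0
        nlinarith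

/-- The truncation point of a block. -/
noncomputable def cg_B (e : ℝ) (m : ℕ) : ℕ := ⌊((2 : ℝ) ^ m) ^ (1 / 2 + e)⌋₊

lemma cg_B_spec {e : ℝ} (he0 : 0 < e) (he1 : e ≤ 1 / 8) (m : ℕ) :
    (cg_B e m : ℝ) ≤ ((2 ^ m : ℕ) : ℝ) ^ (1 / 2 + e) ∧ cg_B e m ≤ 2 ^ m ∧
      ((2 ^ m : ℕ) : ℝ) ^ (1 / 2 + e) ≤ (cg_B e m : ℝ) + 1 := by
  have h0 : (0 : ℝ) ≤ ((2 : ℝ) ^ m) ^ (1 / 2 + e) := by positivity
  have h1 : (cg_B e m : ℝ) ≤ ((2 : ℝ) ^ m) ^ (1 / 2 + e) := Nat.floor_le h0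
  have h2 : ((2 : ℝ) ^ m) ^ (1 / 2 + e) < (cg_B e m : ℝ) + 1 := Nat.lt_floor_add_one _
  have h3 : (1 : ℝ) ≤ (2 : ℝ) ^ m := one_le_pow₀ (by norm_num)
  have h4 : ((2 : ℝ) ^ m) ^ (1 / 2 + e) ≤ (2 : ℝ) ^ m := by
    calc ((2 : ℝ) ^ m) ^ (1 / 2 + e) ≤ ((2 : ℝ) ^ m) ^ (1 : ℝ) :=
          Real.rpow_le_rpow_of_exponent_le h3 (by linarith)
      _ = (2 : ℝ) ^ m := Real.rpow_one _
  push_cast
  refine ⟨h1, ?_, h2.le⟩
  have h5 : (cg_B e m : ℝ) ≤ ((2 ^ m : ℕ) : ℝ) := by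
    push_cast
    exact h1.trans h4
  exact_mod_cast h5

lemma cg_coprime {m k : ℕ} {e : ℝ} (he0 : 0 < e) (he1 : e ≤ 1 / 8) (hk : cg_blk k = m) :
    ∀ a ∈ Icc 1 (cg_B e m), Nat.Coprime (Nat.nth Nat.Prime k) a := by
  intro a ha
  rw [mem_Icc] at ha
  have h1 := (cg_B_spec he0 he1 m).2.1
  have h2 := (cg_blk_spec k).1
  rw [hk] at h2
  rw [Nat.Prime.coprime_iff_not_dvd (Nat.prime_nth_prime k)]
  intro hdvd
  have := Nat.le_of_dvd (by omega) hdvd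
  omega

lemma cg_prime_inj : Function.Injective (Nat.nth Nat.Prime) :=
  Nat.nth_injective Nat.infinite_setOfPred_prime

lemma cg_tail {e : ℝ} (he0 : 0 < e) (he1 : e ≤ 1 / 8) (K : ℕ) :
    ∑ k ∈ range K, (Nat.nth Nat.Prime k : ℝ) ^ (e - 1 / 2) ≤ 2 * (K : ℝ) ^ (1 / 2 + e) := by
  refine le_trans (Finset.sum_le_sum fun k _ => ?_) (Pool.Agent.H11.DEU.sum_rpow K he0.le)
  have h1 := lt_nth_prime k
  have h2 : (k : ℝ) + 1 ≤ (Nat.nth Nat.Prime k : ℝ) := by exact_mod_cast h1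
  exact Real.rpow_le_rpow_of_nonpos (by positivity) h2 (by linarith)

theorem c1_holds : Pool.Agent.H11.DEU.C1 hh := by
  classical
  intro ε hε
  obtain ⟨e, he0, he1, heε, D, hD, hDK⟩ := cg_total ε hε
  obtain ⟨C₁, hC₁, hw⟩ := w_es e he0
  obtain ⟨C₂, hC₂, hs⟩ := sum_bound e he0
  refine ⟨C₂ * D + 2 * C₁, fun K hK θ hθ0 hθ1 => ?_⟩
  have hK0 : (1 : ℝ) ≤ K := by exact_mod_cast hK
  set c : ℝ := cos (π * θ) with hc
  have hJ := good_gt (c := c) (Real.neg_one_le_cos _) (Real.cos_le_one _)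
  set J : ℕ → Set ℤ := fun n => {t : ℤ | 2 * √(n : ℝ) * c < t} with hJdef
  set E : ℕ → ℝ := fun k => 1 / (2 * (Nat.nth Nat.Prime k : ℝ)) *
    Es (J (Nat.nth Nat.Prime k)) (cg_B e (cg_blk k)) (Nat.nth Nat.Prime k) with hE
  have hWE : ∀ k, |Pool.Agent.H11.DEU.W hh k θ - E k| ≤
      C₁ * (Nat.nth Nat.Prime k : ℝ) ^ (e - 1 / 2) := by
    intro k
    have hb := cg_B_spec he0 he1 (cg_blk k)
    have hbk := cg_blk_spec k
    exact hw (2 ^ cg_blk k) (cg_B e (cg_blk k)) k hbk.1 hbk.2 hb.2.1 hb.2.2 θ hθ0 hθ1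
  have hblock : ∀ m : ℕ, |∑ k ∈ (range K).filter (fun k => cg_blk k = m), E k| ≤
      C₂ * (((2 : ℝ) ^ m) ^ (1 / 2 + 4 * e)) := by
    intro m
    set S := (range K).filter (fun k => cg_blk k = m) with hS
    have hX : (0 : ℝ) < (2 : ℝ) ^ m := by positivity
    have hb := cg_B_spec he0 he1 m
    let b : ℕ → ℝ := fun n => if n ∈ S.image (Nat.nth Nat.Prime) then (2 : ℝ) ^ m / (2 * n) else 0
    have hsub : S.image (Nat.nth Nat.Prime) ⊆ Ioc (2 ^ m) (2 * 2 ^ m) := by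
      intro n hn
      rw [mem_image] at hn
      obtain ⟨k, hk, rfl⟩ := hn
      rw [hS, mem_filter] at hk
      have := cg_blk_spec k
      rw [hk.2] at this
      rw [mem_Ioc]
      exact this
    have hb1 : ∀ n, |b n| ≤ 1 := by
      intro n
      change |if n ∈ S.image (Nat.nth Nat.Prime) then (2 : ℝ) ^ m / (2 * n) else 0| ≤ 1
      split_ifs with hn
      · have h1 := mem_Ioc.1 (hsub hn)
        have h2 : (2 : ℝ) ^ m < n := by exact_mod_cast h1.1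
        have h3 : (0 : ℝ) < n := hX.trans h2
        rw [abs_of_nonneg (by positivity), div_le_one (by positivity)]
        linarith
      · simp
    have hb2 : ∀ n, b n ≠ 0 → ∀ a ∈ Icc 1 (cg_B e m), Nat.Coprime n a := by
      intro n hn
      have hn2 : n ∈ S.image (Nat.nth Nat.Prime) := by
        by_contra hcon
        exact hn (if_neg hcon)
      rw [mem_image] at hn2
      obtain ⟨k, hk, rfl⟩ := hn2
      rw [hS, mem_filter] at hk
      exact cg_coprime he0 he1 hk.2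
    have hsum := hs (2 ^ m) (cg_B e m) (Nat.one_le_two_pow) hb.1 hb.2.1 J hJ b hb1 hb2
    have heq : ∑ n ∈ Ioc (2 ^ m) (2 * 2 ^ m), b n * Es (J n) (cg_B e m) n
        = (2 : ℝ) ^ m * ∑ k ∈ S, E k := by
      rw [← Finset.sum_subset hsub (fun n _ hn => by
        change (if n ∈ S.image (Nat.nth Nat.Prime) then (2 : ℝ) ^ m / (2 * n) else 0) * _ = 0
        rw [if_neg hn, zero_mul]), Finset.sum_image (fun x _ y _ h => cg_prime_inj h),
        Finset.mul_sum]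
      refine Finset.sum_congr rfl fun k hk => ?_
      change (if Nat.nth Nat.Prime k ∈ S.image (Nat.nth Nat.Prime) then
        (2 : ℝ) ^ m / (2 * (Nat.nth Nat.Prime k : ℝ)) else 0) * _ = (2 : ℝ) ^ m * (1 / (2 *
          (Nat.nth Nat.Prime k : ℝ)) * Es (J (Nat.nth Nat.Prime k)) (cg_B e (cg_blk k))
            (Nat.nth Nat.Prime k))
      rw [if_pos (mem_image_of_mem _ hk)]
      rw [hS, mem_filter] at hk
      rw [hk.2]
      ring
    rw [heq, abs_mul, abs_of_pos hX] at hsum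
    push_cast at hsum
    have h4 : ((2 : ℝ) ^ m) ^ (3 / 2 + 4 * e) = (2 : ℝ) ^ m * ((2 : ℝ) ^ m) ^ (1 / 2 + 4 * e) := by
      have : (3 : ℝ) / 2 + 4 * e = 1 + (1 / 2 + 4 * e) := by ring
      rw [this, Real.rpow_add hX, Real.rpow_one]
    rw [h4] at hsum
    have h5 : (2 : ℝ) ^ m * |∑ k ∈ S, E k| ≤
        (2 : ℝ) ^ m * (C₂ * ((2 : ℝ) ^ m) ^ (1 / 2 + 4 * e)) := by
      calc _ ≤ C₂ * ((2 : ℝ) ^ m * ((2 : ℝ) ^ m) ^ (1 / 2 + 4 * e)) := hsum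
        _ = _ := by ring
    exact le_of_mul_le_mul_left h5 hX
  have hEsum : |∑ k ∈ range K, E k| ≤ C₂ * (D * (K : ℝ) ^ (1 / 2 + ε)) := by
    rw [cg_sum_blocks K E]
    refine (Finset.abs_sum_le_sum_abs _ _).trans ?_
    refine (Finset.sum_le_sum fun m _ => hblock m).trans ?_
    rw [← Finset.mul_sum]
    exact mul_le_mul_of_nonneg_left (hDK K hK) hC₂.le
  have hdiff : |∑ k ∈ range K, (Pool.Agent.H11.DEU.W hh k θ - E k)| ≤
      C₁ * (2 * (K : ℝ) ^ (1 / 2 + ε)) := by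
    refine (Finset.abs_sum_le_sum_abs _ _).trans ?_
    refine (Finset.sum_le_sum fun k _ => hWE k).trans ?_
    rw [← Finset.mul_sum]
    refine mul_le_mul_of_nonneg_left ((cg_tail he0 he1 K).trans ?_) hC₁.le
    apply mul_le_mul_of_nonneg_left _ (by norm_num)
    exact Real.rpow_le_rpow_of_exponent_le hK0 (by linarith)
  have hsplit : ∑ k ∈ range K, Pool.Agent.H11.DEU.W hh k θ
      = ∑ k ∈ range K, (Pool.Agent.H11.DEU.W hh k θ - E k) + ∑ k ∈ range K, E k := by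
    rw [← Finset.sum_add_distrib]
    refine Finset.sum_congr rfl fun k _ => by ring
  rw [hsplit]
  calc |∑ k ∈ range K, (Pool.Agent.H11.DEU.W hh k θ - E k) + ∑ k ∈ range K, E k|
      ≤ |∑ k ∈ range K, (Pool.Agent.H11.DEU.W hh k θ - E k)| + |∑ k ∈ range K, E k| :=
        abs_add_le _ _
    _ ≤ C₁ * (2 * (K : ℝ) ^ (1 / 2 + ε)) + C₂ * (D * (K : ℝ) ^ (1 / 2 + ε)) :=
        add_le_add hdiff hEsum
    _ = (C₂ * D + 2 * C₁) * (K : ℝ) ^ (1 / 2 + ε) := by ring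

theorem c2_holds : Pool.Agent.H11.DEU.C2 hh := by
  classical
  intro ε hε
  obtain ⟨e, he0, he1, heε, D, hD, hDK⟩ := cg_total ε hε
  obtain ⟨C₁, hC₁, hw⟩ := w_es e he0
  obtain ⟨C₂, hC₂, hs⟩ := sq_bound e he0
  have hs' : ∀ m : ℕ, ∃ Bd : ℕ → ℝ, (∀ n, 0 ≤ Bd n) ∧
      (∀ n ∈ Ioc (2 ^ m) (2 * 2 ^ m), (∀ a ∈ Icc 1 (cg_B e m), Nat.Coprime n a) →
        ∀ J : Set ℤ, J.OrdConnected → |Es J (cg_B e m) n| ≤ Bd n) ∧
      ∑ n ∈ Ioc (2 ^ m) (2 * 2 ^ m), (Bd n) ^ 2 ≤ C₂ * ((2 : ℝ) ^ m) ^ (5 / 2 + 4 * e) := by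
    intro m
    have hb := cg_B_spec he0 he1 m
    obtain ⟨Bd, h1, h2, h3⟩ := hs (2 ^ m) (cg_B e m) (Nat.one_le_two_pow) hb.1 hb.2.1
    refine ⟨Bd, h1, h2, ?_⟩
    push_cast at h3
    exact h3
  choose Bd hBd0 hBdE hBdS using hs'
  refine ⟨C₂ * D + 4 * C₁ ^ 2, fun K hK => ?_⟩
  have hK0 : (1 : ℝ) ≤ K := by exact_mod_cast hK
  set w : ℕ → ℝ := fun k => 1 / (2 * (Nat.nth Nat.Prime k : ℝ)) *
    Bd (cg_blk k) (Nat.nth Nat.Prime k) + C₁ * (Nat.nth Nat.Prime k : ℝ) ^ (e - 1 / 2) with hwdef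
  refine ⟨w, ?_, ?_⟩
  · intro k _ θ hθ0 hθ1
    have hb := cg_B_spec he0 he1 (cg_blk k)
    have hbk := cg_blk_spec k
    have hpk : (0 : ℝ) < (Nat.nth Nat.Prime k : ℝ) := Pool.Agent.H11.DEU.prime_pos k
    have h1 := hw (2 ^ cg_blk k) (cg_B e (cg_blk k)) k hbk.1 hbk.2 hb.2.1 hb.2.2 θ hθ0 hθ1
    have hord : ({t : ℤ | 2 * √(Nat.nth Nat.Prime k : ℝ) * cos (π * θ) < t}).OrdConnected := by
      constructor
      intro x hx y _ z hz
      have h3 : (x : ℝ) ≤ z := by exact_mod_cast hz.1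
      exact lt_of_lt_of_le hx h3
    have h2 := hBdE (cg_blk k) (Nat.nth Nat.Prime k) (mem_Ioc.2 hbk)
      (cg_coprime he0 he1 rfl) _ hord
    set Ek : ℝ := Es {t : ℤ | 2 * √(Nat.nth Nat.Prime k : ℝ) * cos (π * θ) < t}
      (cg_B e (cg_blk k)) (Nat.nth Nat.Prime k) with hEk
    set Wk := Pool.Agent.H11.DEU.W hh k θ with hWk
    have h3 : |1 / (2 * (Nat.nth Nat.Prime k : ℝ)) * Ek| ≤
        1 / (2 * (Nat.nth Nat.Prime k : ℝ)) * Bd (cg_blk k) (Nat.nth Nat.Prime k) := by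
      rw [abs_mul, abs_of_pos (by positivity)]
      exact mul_le_mul_of_nonneg_left h2 (by positivity)
    calc |Wk| = |(1 / (2 * (Nat.nth Nat.Prime k : ℝ)) * Ek) +
          (Wk - 1 / (2 * (Nat.nth Nat.Prime k : ℝ)) * Ek)| := by ring_nf
      _ ≤ |1 / (2 * (Nat.nth Nat.Prime k : ℝ)) * Ek| +
          |Wk - 1 / (2 * (Nat.nth Nat.Prime k : ℝ)) * Ek| := abs_add_le _ _
      _ ≤ w k := add_le_add h3 h1
  · have hwk : ∀ k, w k ^ 2 ≤ 1 / (2 * (Nat.nth Nat.Prime k : ℝ) ^ 2) *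
        Bd (cg_blk k) (Nat.nth Nat.Prime k) ^ 2 +
        2 * C₁ ^ 2 * (Nat.nth Nat.Prime k : ℝ) ^ (e - 1 / 2) := by
      intro k
      have hpk : (0 : ℝ) < (Nat.nth Nat.Prime k : ℝ) := Pool.Agent.H11.DEU.prime_pos k
      have hpk1 : (1 : ℝ) ≤ (Nat.nth Nat.Prime k : ℝ) := by
        exact_mod_cast (Nat.prime_nth_prime k).one_le
      set P : ℝ := (Nat.nth Nat.Prime k : ℝ) with hP
      set β := Bd (cg_blk k) (Nat.nth Nat.Prime k) with hβ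
      have h1 : (P ^ (e - 1 / 2)) ^ 2 ≤ P ^ (e - 1 / 2) := by
        have h2 : P ^ (e - 1 / 2) ≤ 1 := Real.rpow_le_one_of_one_le_of_nonpos hpk1 (by linarith)
        have h3 : 0 ≤ P ^ (e - 1 / 2) := by positivity
        nlinarith
      have h4 : w k = 1 / (2 * P) * β + C₁ * P ^ (e - 1 / 2) := rfl
      rw [h4]
      have h5 : (1 / (2 * P) * β + C₁ * P ^ (e - 1 / 2)) ^ 2
          ≤ 2 * (1 / (2 * P) * β) ^ 2 + 2 * (C₁ * P ^ (e - 1 / 2)) ^ 2 := by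
        nlinarith [sq_nonneg (1 / (2 * P) * β - C₁ * P ^ (e - 1 / 2))]
      refine h5.trans (add_le_add (le_of_eq ?_) ?_)
      · field_simp
      · rw [mul_pow, ← mul_assoc]
        exact mul_le_mul_of_nonneg_left h1 (by positivity)
    have hblock : ∀ m : ℕ, ∑ k ∈ (range K).filter (fun k => cg_blk k = m),
        1 / (2 * (Nat.nth Nat.Prime k : ℝ) ^ 2) * Bd (cg_blk k) (Nat.nth Nat.Prime k) ^ 2 ≤
        C₂ * (((2 : ℝ) ^ m) ^ (1 / 2 + 4 * e)) := by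
      intro m
      have hX : (0 : ℝ) < (2 : ℝ) ^ m := by positivity
      set S := (range K).filter (fun k => cg_blk k = m) with hS
      have hsub : S.image (Nat.nth Nat.Prime) ⊆ Ioc (2 ^ m) (2 * 2 ^ m) := by
        intro n hn
        rw [mem_image] at hn
        obtain ⟨k, hk, rfl⟩ := hn
        rw [hS, mem_filter] at hk
        have := cg_blk_spec k
        rw [hk.2] at this
        rw [mem_Ioc]
        exact this
      have h1 : ∑ k ∈ S, 1 / (2 * (Nat.nth Nat.Prime k : ℝ) ^ 2) *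
          Bd (cg_blk k) (Nat.nth Nat.Prime k) ^ 2 ≤
          ∑ k ∈ S, 1 / ((2 : ℝ) ^ m) ^ 2 * Bd m (Nat.nth Nat.Prime k) ^ 2 := by
        refine Finset.sum_le_sum fun k hk => ?_
        rw [hS, mem_filter] at hk
        have h2 := (cg_blk_spec k).1
        rw [hk.2] at h2 ⊢
        have h3 : (2 : ℝ) ^ m ≤ (Nat.nth Nat.Prime k : ℝ) := by exact_mod_cast h2.le
        apply mul_le_mul_of_nonneg_right _ (sq_nonneg _)
        apply one_div_le_one_div_of_le (by positivity)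
        calc ((2 : ℝ) ^ m) ^ 2 ≤ (Nat.nth Nat.Prime k : ℝ) ^ 2 := by gcongr
          _ ≤ 2 * (Nat.nth Nat.Prime k : ℝ) ^ 2 := by nlinarith [sq_nonneg (Nat.nth Nat.Prime k : ℝ)]
      have h2 : ∑ k ∈ S, 1 / ((2 : ℝ) ^ m) ^ 2 * Bd m (Nat.nth Nat.Prime k) ^ 2
          = 1 / ((2 : ℝ) ^ m) ^ 2 * ∑ n ∈ S.image (Nat.nth Nat.Prime), Bd m n ^ 2 := by
        rw [Finset.sum_image (fun x _ y _ h => cg_prime_inj h), Finset.mul_sum]
      have h3 : ∑ n ∈ S.image (Nat.nth Nat.Prime), Bd m n ^ 2 ≤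
          C₂ * ((2 : ℝ) ^ m) ^ (5 / 2 + 4 * e) :=
        (Finset.sum_le_sum_of_subset_of_nonneg hsub (fun n _ _ => sq_nonneg _)).trans (hBdS m)
      refine h1.trans ?_
      rw [h2]
      calc 1 / ((2 : ℝ) ^ m) ^ 2 * ∑ n ∈ S.image (Nat.nth Nat.Prime), Bd m n ^ 2
          ≤ 1 / ((2 : ℝ) ^ m) ^ 2 * (C₂ * ((2 : ℝ) ^ m) ^ (5 / 2 + 4 * e)) :=
            mul_le_mul_of_nonneg_left h3 (by positivity)
        _ = C₂ * (((2 : ℝ) ^ m) ^ (1 / 2 + 4 * e)) := by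
            have h4 : (5 : ℝ) / 2 + 4 * e = ((2 : ℕ) : ℝ) + (1 / 2 + 4 * e) := by push_cast; ring
            rw [h4, Real.rpow_add hX, Real.rpow_natCast]
            field_simp
    calc ∑ k ∈ range K, w k ^ 2
        ≤ ∑ k ∈ range K, (1 / (2 * (Nat.nth Nat.Prime k : ℝ) ^ 2) *
            Bd (cg_blk k) (Nat.nth Nat.Prime k) ^ 2 +
            2 * C₁ ^ 2 * (Nat.nth Nat.Prime k : ℝ) ^ (e - 1 / 2)) :=
          Finset.sum_le_sum fun k _ => hwk k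
      _ = ∑ k ∈ range K, 1 / (2 * (Nat.nth Nat.Prime k : ℝ) ^ 2) *
            Bd (cg_blk k) (Nat.nth Nat.Prime k) ^ 2 +
            2 * C₁ ^ 2 * ∑ k ∈ range K, (Nat.nth Nat.Prime k : ℝ) ^ (e - 1 / 2) := by
          rw [Finset.sum_add_distrib, Finset.mul_sum]
      _ ≤ C₂ * (D * (K : ℝ) ^ (1 / 2 + ε)) + 2 * C₁ ^ 2 * (2 * (K : ℝ) ^ (1 / 2 + ε)) := by
          apply add_le_add
          · rw [cg_sum_blocks K]
            refine (Finset.sum_le_sum fun m _ => hblock m).trans ?_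
            rw [← Finset.mul_sum]
            exact mul_le_mul_of_nonneg_left (hDK K hK) hC₂.le
          · refine mul_le_mul_of_nonneg_left ((cg_tail he0 he1 K).trans ?_) (by positivity)
            apply mul_le_mul_of_nonneg_left _ (by norm_num)
            exact Real.rpow_le_rpow_of_exponent_le hK0 (by linarith)
      _ = (C₂ * D + 4 * C₁ ^ 2) * (K : ℝ) ^ (1 / 2 + ε) := by ring

theorem c3_holds : Pool.Agent.H11.DEU.C3 hh := by
  intro ε hε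
  obtain ⟨C, hC, h⟩ := sw_zero ε hε
  refine ⟨C, fun k => ?_⟩
  have h1 := h (Nat.nth Nat.Prime k) (Nat.prime_nth_prime k)
  have hpk : (0 : ℝ) < (Nat.nth Nat.Prime k : ℝ) := Pool.Agent.H11.DEU.prime_pos k
  unfold hh
  rcases le_or_gt 0 (Sw 0 (Nat.nth Nat.Prime k)) with h0 | h0
  · exact (Nat.floor_le h0).trans h1
  · rw [Nat.floor_of_nonpos h0.le]
    push_cast
    positivity

end Pool.Agent.DEU
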