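import Pool.Agent.DEU.Theta
import Pool.Agent.DEU.Omega

/-!
# DEU.Orbit: the class number bound
-/

namespace Pool.Agent.DEU

open Real MatrixGroups

theorem orbit_rho_le (a : ℕ) (t n : ℤ) : rho a t n ≤ a := by
  unfold rho
  exact (Finset.card_filter_le _ _).trans (by rw [Finset.card_range])

theorem orbit_summable {t n : ℤ} (h : t ^ 2 < 4 * n) :
    Summable fun a : ℕ => (rho (a + 1) t n : ℝ) *
      Om (((a : ℝ) + 1) / √(4 * (n : ℝ) - (t : ℝ) ^ 2)) := by
  have hD : 0 < √(4 * (n : ℝ) - (t : ℝ) ^ 2) := by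
    apply Real.sqrt_pos.2
    have : (t : ℝ) ^ 2 < 4 * n := by exact_mod_cast h
    linarith
  set D := √(4 * (n : ℝ) - (t : ℝ) ^ 2) with hDdef
  have h1 : Summable fun a : ℕ => ((a : ℝ) + 1) * (2 * exp (-π * (((a : ℝ) + 1) / D))) := by
    have h2 := (summable_nat_add_iff 1).2
      (Real.summable_pow_mul_exp_neg_nat_mul 1 (r := π / D) (by positivity))
    refine (h2.mul_left 2).congr ?_
    intro a
    push_cast
    rw [pow_one, show -(π / D) * ((a : ℝ) + 1) = -π * (((a : ℝ) + 1) / D) by ring]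
    ring
  refine Summable.of_nonneg_of_le (fun a => ?_) (fun a => ?_) h1
  · exact mul_nonneg (Nat.cast_nonneg _) (om_nonneg (by positivity))
  · exact mul_le_mul (by exact_mod_cast orbit_rho_le _ _ _) (om_le_exp (by positivity))
      (om_nonneg (by positivity)) (by positivity)

/-- Primitive integer vectors. -/
abbrev OrbitPrim := {x : ℤ × ℤ // Int.gcd x.1 x.2 = 1}

theorem orbit_gcd (g : ℕ) (x : OrbitPrim) :
    Int.gcd (((g : ℤ) + 1) * x.1.1) (((g : ℤ) + 1) * x.1.2) = g + 1 := by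
  rw [Int.gcd_mul_left, x.2, mul_one]
  norm_cast

theorem orbit_ne (g : ℕ) (x : OrbitPrim) :
    (((g : ℤ) + 1) * x.1.1, ((g : ℤ) + 1) * x.1.2) ∉ ({0} : Finset (ℤ × ℤ)) := by
  rw [Finset.mem_singleton]
  intro h
  have h1 := orbit_gcd g x
  have h2 : ((g : ℤ) + 1) * x.1.1 = 0 := congrArg Prod.fst h
  have h3 : ((g : ℤ) + 1) * x.1.2 = 0 := congrArg Prod.snd h
  rw [h2, h3] at h1
  simp at h1

theorem orbit_bij : Function.Bijective (fun p : OrbitPrim × ℕ =>
    (⟨(((p.2 : ℤ) + 1) * p.1.1.1, ((p.2 : ℤ) + 1) * p.1.1.2), orbit_ne p.2 p.1⟩ :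
      {x : ℤ × ℤ // x ∉ ({0} : Finset (ℤ × ℤ))})) := by
  constructor
  · rintro ⟨x, g⟩ ⟨y, k⟩ h
    have h1 := congrArg Subtype.val h
    have h2 : ((g : ℤ) + 1) * x.1.1 = ((k : ℤ) + 1) * y.1.1 := congrArg Prod.fst h1
    have h3 : ((g : ℤ) + 1) * x.1.2 = ((k : ℤ) + 1) * y.1.2 := congrArg Prod.snd h1
    have h4 : g + 1 = k + 1 := by
      rw [← orbit_gcd g x, ← orbit_gcd k y, h2, h3]
    have h5 : g = k := by omega
    subst h5
    have hg : ((g : ℤ) + 1) ≠ 0 := by omega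
    have h6 := mul_left_cancel₀ hg h2
    have h7 := mul_left_cancel₀ hg h3
    have h8 : x = y := Subtype.ext (Prod.ext h6 h7)
    rw [h8]
  · rintro ⟨⟨a, b⟩, hx⟩
    have hne : ¬ (a = 0 ∧ b = 0) := by
      rintro ⟨rfl, rfl⟩
      exact hx (Finset.mem_singleton.2 rfl)
    have hg : 0 < Int.gcd a b := by
      rcases Nat.eq_zero_or_pos (Int.gcd a b) with h0 | h0
      · exact absurd (Int.gcd_eq_zero_iff.1 h0) hne
      · exact h0
    obtain ⟨u, v, h1, h2, h3⟩ : ∃ u v : ℤ, Int.gcd u v = 1 ∧ a = (Int.gcd a b : ℤ) * u ∧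
        b = (Int.gcd a b : ℤ) * v := by
      refine ⟨a / (Int.gcd a b : ℤ), b / (Int.gcd a b : ℤ), Int.gcd_ediv_gcd_ediv_gcd hg, ?_, ?_⟩
      · exact (Int.mul_ediv_cancel' (Int.gcd_dvd_left _ _)).symm
      · exact (Int.mul_ediv_cancel' (Int.gcd_dvd_right _ _)).symm
    refine ⟨(⟨(u, v), h1⟩, Int.gcd a b - 1), ?_⟩
    apply Subtype.ext
    have h4 : (((Int.gcd a b - 1 : ℕ) : ℤ) + 1) = (Int.gcd a b : ℤ) := by omega
    simp only [h4]
    exact Prod.ext h2.symm h3.symm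

theorem orbit_prim {A B C : ℤ} (hA : 0 < A) (hD : B ^ 2 < 4 * A * C) :
    HasSum (fun x : OrbitPrim => Om ((ev (A, B, C) x.1.1 x.1.2 : ℝ) /
      √(4 * (A : ℝ) * C - (B : ℝ) ^ 2))) 2 := by
  have hA' : (0 : ℝ) < A := by exact_mod_cast hA
  have hD' : (B : ℝ) ^ 2 < 4 * A * C := by exact_mod_cast hD
  have hDp : 0 < √(4 * (A : ℝ) * C - (B : ℝ) ^ 2) := Real.sqrt_pos.2 (by linarith)
  set D := √(4 * (A : ℝ) * C - (B : ℝ) ^ 2) with hDdef
  have s1 := theta_summable hA' hD' (y := 1) one_pos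
  have s4 := theta_summable hA' hD' (y := 4) (by norm_num)
  have hid := theta_id hA' hD'
  rw [← hDdef] at s1 s4 hid
  set f : ℤ × ℤ → ℝ := fun x =>
    exp (-π * 1 * ((A * x.1 ^ 2 + B * x.1 * x.2 + C * x.2 ^ 2) / D)) -
      2 * exp (-π * 4 * ((A * x.1 ^ 2 + B * x.1 * x.2 + C * x.2 ^ 2) / D)) with hf
  have hfs : Summable f := s1.sub (s4.mul_left 2)
  have hft : ∑' x, f x = 0 := by
    rw [hf, s1.tsum_sub (s4.mul_left 2), tsum_mul_left, hid, sub_self]
  have h0 := hfs.sum_add_tsum_subtype_compl {0}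
  have hf0 : f 0 = -1 := by
    rw [hf]
    simp
    norm_num
  rw [hft, Finset.sum_singleton, hf0] at h0
  have h1 : HasSum (fun x : {x : ℤ × ℤ // x ∉ ({0} : Finset (ℤ × ℤ))} => f x) 1 := by
    have h2 : Summable (fun x : {x : ℤ × ℤ // x ∉ ({0} : Finset (ℤ × ℤ))} => f x) :=
      hfs.comp_injective Subtype.val_injective
    have h3 := h2.hasSum
    have h4 : ∑' x : {x : ℤ × ℤ // x ∉ ({0} : Finset (ℤ × ℤ))}, f x = 1 := by linarith
    rwa [h4] at h3
  have h2 : HasSum (fun p : OrbitPrim × ℕ =>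
      f (((p.2 : ℤ) + 1) * p.1.1.1, ((p.2 : ℤ) + 1) * p.1.1.2)) 1 := by
    have := (Equiv.ofBijective _ orbit_bij).hasSum_iff.2 h1
    exact this
  have h3 : HasSum (fun x : OrbitPrim => Om ((ev (A, B, C) x.1.1 x.1.2 : ℝ) / D) / 2) 1 := by
    refine h2.prod_fiberwise fun x => ?_
    have hpos : (0 : ℝ) < (ev (A, B, C) x.1.1 x.1.2 : ℝ) := by
      have h5 : 0 < ev (A, B, C) x.1.1 x.1.2 := by
        unfold ev
        simp only
        obtain ⟨⟨a, b⟩, hx⟩ := x
        simp only at hx ⊢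
        have h6 : 0 < 4 * A * (A * a ^ 2 + B * a * b + C * b ^ 2) := by
          have h7 : 4 * A * (A * a ^ 2 + B * a * b + C * b ^ 2) =
            (2 * A * a + B * b) ^ 2 + (4 * A * C - B ^ 2) * b ^ 2 := by ring
          rw [h7]
          by_cases hb : b = 0
          · subst hb
            have ha : a ≠ 0 := by
              rintro rfl
              simp at hx
            have : 0 < (2 * A * a) ^ 2 := by positivity
            nlinarith
          · have : 0 < (4 * A * C - B ^ 2) * b ^ 2 := mul_pos (by linarith) (by positivity)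
            nlinarith [sq_nonneg (2 * A * a + B * b)]
        by_contra hcon
        push Not at hcon
        nlinarith
      exact_mod_cast h5
    have hu : 0 < (ev (A, B, C) x.1.1 x.1.2 : ℝ) / D := div_pos hpos hDp
    have hsg : Summable fun g : ℕ => f (((g : ℤ) + 1) * x.1.1, ((g : ℤ) + 1) * x.1.2) :=
      h2.summable.comp_injective (i := fun g : ℕ => (x, g)) (fun g k h => (Prod.ext_iff.1 h).2)
    have hterm : ∀ g : ℕ, f (((g : ℤ) + 1) * x.1.1, ((g : ℤ) + 1) * x.1.2) =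
        exp (-π * 1 * (((g : ℝ) + 1) ^ 2 * ((ev (A, B, C) x.1.1 x.1.2 : ℝ) / D))) -
        2 * exp (-π * 4 * (((g : ℝ) + 1) ^ 2 * ((ev (A, B, C) x.1.1 x.1.2 : ℝ) / D))) := by
      intro g
      have h8 : ((A : ℝ) * ((((g : ℤ) + 1) * x.1.1 : ℤ) : ℝ) ^ 2 +
          B * ((((g : ℤ) + 1) * x.1.1 : ℤ) : ℝ) * ((((g : ℤ) + 1) * x.1.2 : ℤ) : ℝ) +
          C * ((((g : ℤ) + 1) * x.1.2 : ℤ) : ℝ) ^ 2) / D =
          ((g : ℝ) + 1) ^ 2 * ((ev (A, B, C) x.1.1 x.1.2 : ℝ) / D) := by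
        unfold ev
        push_cast
        ring
      rw [hf]
      simp only
      rw [h8]
    rw [om_eq hu]
    have h9 : (2 * ∑' g : ℕ, (exp (-π * 1 * (((g : ℝ) + 1) ^ 2 *
        ((ev (A, B, C) x.1.1 x.1.2 : ℝ) / D))) - 2 * exp (-π * 4 * (((g : ℝ) + 1) ^ 2 *
        ((ev (A, B, C) x.1.1 x.1.2 : ℝ) / D))))) / 2 =
        ∑' g : ℕ, f (((g : ℤ) + 1) * x.1.1, ((g : ℤ) + 1) * x.1.2) := by
      rw [mul_div_cancel_left₀ _ two_ne_zero]
      exact tsum_congr fun g => (hterm g).symm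
    rw [h9]
    exact hsg.hasSum
  have h4 := h3.mul_left 2
  rw [mul_one] at h4
  have h5 : (fun x : OrbitPrim => Om ((ev (A, B, C) x.1.1 x.1.2 : ℝ) / D)) =
      fun x : OrbitPrim => 2 * (Om ((ev (A, B, C) x.1.1 x.1.2 : ℝ) / D) / 2) := by
    funext x
    ring
  rw [h5]
  exact h4

theorem orbit_pos {Q : ℤ × ℤ × ℤ} {t n : ℤ} (h : t ^ 2 < 4 * n) (hA : 0 < Q.1)
    (hd : Q.2.1 ^ 2 - 4 * Q.1 * Q.2.2 = t ^ 2 - 4 * n) (x : OrbitPrim) :
    0 < ev Q x.1.1 x.1.2 := by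
  obtain ⟨A, B, C⟩ := Q
  obtain ⟨⟨a, b⟩, hx⟩ := x
  unfold ev
  simp only at hA hd hx ⊢
  have h6 : 0 < 4 * A * (A * a ^ 2 + B * a * b + C * b ^ 2) := by
    have h7 : 4 * A * (A * a ^ 2 + B * a * b + C * b ^ 2) =
      (2 * A * a + B * b) ^ 2 + (4 * A * C - B ^ 2) * b ^ 2 := by ring
    rw [h7]
    by_cases hb : b = 0
    · subst hb
      have ha : a ≠ 0 := by
        rintro rfl
        simp at hx
      have : 0 < (2 * A * a) ^ 2 := by positivity
      nlinarith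
    · have : 0 < (4 * A * C - B ^ 2) * b ^ 2 := mul_pos (by linarith) (by positivity)
      nlinarith [sq_nonneg (2 * A * a + B * b)]
  by_contra hcon
  push Not at hcon
  nlinarith

/-- The middle coefficient of the form `Q` in a new basis. -/
def orbitMd (Q : ℤ × ℤ × ℤ) (p q r w : ℤ) : ℤ :=
  2 * Q.1 * p * q + Q.2.1 * (p * w + q * r) + 2 * Q.2.2 * r * w

theorem orbit_lin (Q : ℤ × ℤ × ℤ) (p q r w U V : ℤ) :
    ev Q (p * U + q * V) (r * U + w * V) =
      ev Q p r * U ^ 2 + orbitMd Q p q r w * U * V + ev Q q w * V ^ 2 := by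
  unfold ev orbitMd
  ring

theorem orbit_disc (Q : ℤ × ℤ × ℤ) (p q r w : ℤ) (h : p * w - q * r = 1) :
    orbitMd Q p q r w ^ 2 - 4 * ev Q p r * ev Q q w = Q.2.1 ^ 2 - 4 * Q.1 * Q.2.2 := by
  have h1 : orbitMd Q p q r w ^ 2 - 4 * ev Q p r * ev Q q w =
      (Q.2.1 ^ 2 - 4 * Q.1 * Q.2.2) * (p * w - q * r) ^ 2 := by
    unfold ev orbitMd
    ring
  rw [h1, h]
  ring

theorem orbit_col (x : OrbitPrim) : ∃ q w : ℤ, x.1.1 * w - q * x.1.2 = 1 := by
  have h : IsCoprime x.1.1 x.1.2 := Int.isCoprime_iff_gcd_eq_one.2 x.2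
  obtain ⟨u, v, huv⟩ := h
  exact ⟨-v, u, by linarith⟩

/-- The number of primitive representations of `a` by the forms is at most `2ρ(a)`. -/
theorem orbit_count {ι : Type*} {t n : ℤ} (Q : ι → ℤ × ℤ × ℤ)
    (hdisc : ∀ i, (Q i).2.1 ^ 2 - 4 * (Q i).1 * (Q i).2.2 = t ^ 2 - 4 * n)
    (hinj : ∀ (i j : ι) (γ : SL(2, ℤ)), (∀ x y : ℤ,
      ev (Q i) (γ 0 0 * x + γ 0 1 * y) (γ 1 0 * x + γ 1 1 * y) = ev (Q j) x y) →
      i = j ∧ (γ = 1 ∨ γ = -1)) (a : ℕ) (ha : 0 < a) (T : Finset (ι × OrbitPrim))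
    (hT : ∀ y ∈ T, ev (Q y.1) y.2.1.1 y.2.1.2 = a) : T.card ≤ 2 * rho a t n := by
  classical
  choose q w hqw using orbit_col
  set b : ι × OrbitPrim → ℤ := fun y => orbitMd (Q y.1) y.2.1.1 (q y.2) y.2.1.2 (w y.2) with hb
  set c : ι × OrbitPrim → ℤ := fun y => ev (Q y.1) (q y.2) (w y.2) with hc
  have hd : ∀ y ∈ T, b y ^ 2 - 4 * a * c y = t ^ 2 - 4 * n := by
    intro y hy
    rw [← hdisc y.1, ← orbit_disc (Q y.1) _ _ _ _ (hqw y.2), hT y hy]
  have hpar : ∀ y ∈ T, ∃ σ : ℤ, 2 * σ = t + b y := by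
    intro y hy
    have h1 := hd y hy
    have h2 : (2 : ℤ) ∣ (t + b y) := by
      have h3 : (t + b y) * (b y - t) = 4 * (a * c y - n) := by linear_combination h1
      have h4 : (2 : ℤ) ∣ (t + b y) * (b y - t) := ⟨2 * (a * c y - n), by rw [h3]; ring⟩
      rcases Int.prime_two.dvd_or_dvd h4 with h5 | h5
      · exact h5
      · obtain ⟨k, hk⟩ := h5
        exact ⟨t + k, by linarith⟩
    obtain ⟨σ, hσ⟩ := h2
    exact ⟨σ, hσ.symm⟩
  set σ : ι × OrbitPrim → ℤ := fun y => (t + b y) / 2 with hσ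
  have hσ2 : ∀ y ∈ T, 2 * σ y = t + b y := by
    intro y hy
    obtain ⟨s, hs⟩ := hpar y hy
    rw [hσ]
    simp only
    rw [← hs]
    omega
  have ha' : (0 : ℤ) < a := by exact_mod_cast ha
  set F : ι × OrbitPrim → ℕ := fun y => (σ y % a).toNat with hF
  have hFc : ∀ y, (F y : ℤ) = σ y % a := by
    intro y
    rw [hF]
    exact Int.toNat_of_nonneg (Int.emod_nonneg _ ha'.ne')
  have hmaps : ∀ y ∈ T, F y ∈ (Finset.range a).filter fun s : ℕ =>
      (a : ℤ) ∣ (s : ℤ) ^ 2 - t * s + n := by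
    intro y hy
    rw [Finset.mem_filter, Finset.mem_range]
    constructor
    · have := Int.emod_lt_of_pos (σ y) ha'
      rw [← hFc] at this
      exact_mod_cast this
    · rw [hFc]
      have h1 : (a : ℤ) ∣ σ y ^ 2 - t * σ y + n := by
        refine ⟨c y, ?_⟩
        have h2 := hσ2 y hy
        have h3 := hd y hy
        have h4 : b y = 2 * σ y - t := by linarith
        rw [h4] at h3
        linarith
      have h5 : (a : ℤ) ∣ σ y - σ y % a := Int.dvd_self_sub_emod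
      have h6 : (σ y % a) ^ 2 - t * (σ y % a) + n = (σ y ^ 2 - t * σ y + n) -
          (σ y - σ y % a) * (σ y + σ y % a - t) := by ring
      rw [h6]
      exact dvd_sub h1 (h5.mul_right _)
  refine le_trans (Finset.card_le_mul_card_image_of_maps_to hmaps 2 ?_) (le_of_eq rfl)
  intro s _
  by_cases hne : (T.filter fun y => F y = s).Nonempty
  · obtain ⟨⟨i, x⟩, hx⟩ := hne
    rw [Finset.mem_filter] at hx
    have hneg : Int.gcd (-x.1.1) (-x.1.2) = 1 := by
      rw [Int.neg_gcd, Int.gcd_neg]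
      exact x.2
    refine le_trans (Finset.card_le_card (t := {(i, x), (i, ⟨(-x.1.1, -x.1.2), hneg⟩)}) ?_)
      Finset.card_le_two
    rintro ⟨j, y⟩ hy
    rw [Finset.mem_filter] at hy
    have e1 : σ (i, x) % a = σ (j, y) % a := by
      rw [← hFc, ← hFc, hx.2, hy.2]
    obtain ⟨k, hk⟩ : (a : ℤ) ∣ σ (j, y) - σ (i, x) := Int.ModEq.dvd e1
    have hbk : b (j, y) = b (i, x) + 2 * a * k := by
      have := hσ2 _ hx.1
      have := hσ2 _ hy.1
      linarith
    have hxw := hqw x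
    have hyw := hqw y
    -- the matrix
    have hTx := hT _ hx.1
    have hTy := hT _ hy.1
    simp only at hTx hTy
    set p := x.1.1 with hp
    set r := x.1.2 with hr
    set q' := q x + k * p with hq'
    set w' := w x + k * r with hw'
    have hdet' : p * w' - q' * r = 1 := by rw [hw', hq']; linarith
    have hmd : orbitMd (Q i) p q' r w' = orbitMd (Q j) y.1.1 (q y) y.1.2 (w y) := by
      have h1 : orbitMd (Q i) p q' r w' = orbitMd (Q i) p (q x) r (w x) + 2 * ev (Q i) p r * k := by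
        rw [hw', hq']
        unfold orbitMd ev
        ring
      rw [h1, hTx]
      exact hbk.symm
    have hlast : ev (Q i) q' w' = ev (Q j) (q y) (w y) := by
      have h1 := orbit_disc (Q i) p q' r w' hdet'
      have h2 := orbit_disc (Q j) y.1.1 (q y) y.1.2 (w y) hyw
      rw [hdisc, hmd, hTx] at h1
      rw [hdisc, hTy] at h2
      have h3 : (4 * (a : ℤ)) * ev (Q i) q' w' = (4 * (a : ℤ)) * ev (Q j) (q y) (w y) := by
        linarith
      exact mul_left_cancel₀ (by positivity) h3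
    set γ : SL(2, ℤ) := ⟨!![p * w y - q' * y.1.2, -p * q y + q' * y.1.1;
      r * w y - w' * y.1.2, -r * q y + w' * y.1.1], by
        rw [Matrix.det_fin_two_of]
        linear_combination (y.1.1 * w y - q y * y.1.2) * hdet' + hyw⟩ with hγ
    have g00 : γ 0 0 = p * w y - q' * y.1.2 := rfl
    have g01 : γ 0 1 = -p * q y + q' * y.1.1 := rfl
    have g10 : γ 1 0 = r * w y - w' * y.1.2 := rfl
    have g11 : γ 1 1 = -r * q y + w' * y.1.1 := rfl
    obtain ⟨hij, hγ1⟩ := hinj i j γ (by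
      intro X Y
      have hU : γ 0 0 * X + γ 0 1 * Y = p * (w y * X - q y * Y) +
          q' * (-y.1.2 * X + y.1.1 * Y) := by rw [g00, g01]; ring
      have hV : γ 1 0 * X + γ 1 1 * Y = r * (w y * X - q y * Y) +
          w' * (-y.1.2 * X + y.1.1 * Y) := by rw [g10, g11]; ring
      have hX : X = y.1.1 * (w y * X - q y * Y) + q y * (-y.1.2 * X + y.1.1 * Y) := by
        linear_combination (-X) * hyw
      have hY : Y = y.1.2 * (w y * X - q y * Y) + w y * (-y.1.2 * X + y.1.1 * Y) := by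
        linear_combination (-Y) * hyw
      have key := orbit_lin (Q j) y.1.1 (q y) y.1.2 (w y) (w y * X - q y * Y)
        (-y.1.2 * X + y.1.1 * Y)
      rw [← hX, ← hY] at key
      rw [hU, hV, orbit_lin, hTx, hmd, hlast, key, hTy])
    subst hij
    rw [Finset.mem_insert, Finset.mem_singleton]
    have r1 : p = y.1.1 * (γ 0 0) + y.1.2 * (γ 0 1) := by
      rw [g00, g01]
      linear_combination (-p) * hyw
    have r2 : r = y.1.1 * (γ 1 0) + y.1.2 * (γ 1 1) := by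
      rw [g10, g11]
      linear_combination (-r) * hyw
    rcases hγ1 with hone | hone
    · left
      rw [hone] at r1 r2
      simp at r1 r2
      exact Prod.ext rfl (Subtype.ext (Prod.ext r1.symm r2.symm))
    · right
      rw [hone] at r1 r2
      simp at r1 r2
      refine Prod.ext rfl (Subtype.ext (Prod.ext ?_ ?_))
      · simp only
        linarith
      · simp only
        linarith
  · rw [Finset.not_nonempty_iff_eq_empty.1 hne]
    simp

/-- The number of inequivalent positive definite forms of discriminant `t² - 4n` without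
nontrivial automorphisms is at most `∑_a ρ(a) Ω(a/√(4n - t²))`. -/
theorem orbit_bound {ι : Type*} [Fintype ι] {t n : ℤ} (h : t ^ 2 < 4 * n) (Q : ι → ℤ × ℤ × ℤ)
    (hpos : ∀ i, 0 < (Q i).1) (hdisc : ∀ i, (Q i).2.1 ^ 2 - 4 * (Q i).1 * (Q i).2.2 = t ^ 2 - 4 * n)
    (hinj : ∀ (i j : ι) (γ : SL(2, ℤ)), (∀ x y : ℤ,
      ev (Q i) (γ 0 0 * x + γ 0 1 * y) (γ 1 0 * x + γ 1 1 * y) = ev (Q j) x y) →
      i = j ∧ (γ = 1 ∨ γ = -1)) :
    (Fintype.card ι : ℝ) ≤ ∑' a : ℕ, (rho (a + 1) t n : ℝ) *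
      Om (((a : ℝ) + 1) / √(4 * (n : ℝ) - (t : ℝ) ^ 2)) := by
  classical
  have hDp : 0 < √(4 * (n : ℝ) - (t : ℝ) ^ 2) := by
    apply Real.sqrt_pos.2
    have : (t : ℝ) ^ 2 < 4 * n := by exact_mod_cast h
    linarith
  have hsum := orbit_summable h
  set D := √(4 * (n : ℝ) - (t : ℝ) ^ 2) with hDdef
  set G : ℕ → ℝ := fun a => Om (((a : ℝ) + 1) / D) with hG
  have hG0 : ∀ a, 0 ≤ G a := fun a => om_nonneg (by positivity)
  have h1 : ∀ i : ι, HasSum (fun x : OrbitPrim => Om ((ev (Q i) x.1.1 x.1.2 : ℝ) / D)) 2 := by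
    intro i
    have h2 : (Q i).2.1 ^ 2 < 4 * (Q i).1 * (Q i).2.2 := by
      have := hdisc i
      linarith
    have h3 := orbit_prim (hpos i) h2
    have h4 : 4 * (((Q i).1 : ℤ) : ℝ) * (((Q i).2.2 : ℤ) : ℝ) - (((Q i).2.1 : ℤ) : ℝ) ^ 2 =
        4 * (n : ℝ) - (t : ℝ) ^ 2 := by
      have := hdisc i
      have h5 : (((Q i).2.1 ^ 2 - 4 * (Q i).1 * (Q i).2.2 : ℤ) : ℝ) = ((t ^ 2 - 4 * n : ℤ) : ℝ) := by
        rw [this]
      push_cast at h5
      linarith
    rw [h4] at h3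
    exact h3
  have h2 := hasSum_sum (s := (Finset.univ : Finset ι)) fun i _ => h1 i
  have h3 : ∑ _i : ι, (2 : ℝ) = 2 * Fintype.card ι := by
    rw [Finset.sum_const, Finset.card_univ, nsmul_eq_mul]
    ring
  rw [h3] at h2
  have h4 : 2 * (Fintype.card ι : ℝ) ≤ 2 * ∑' a : ℕ, (rho (a + 1) t n : ℝ) * G a := by
    refine hasSum_le_of_sum_le h2 fun s => ?_
    rw [Finset.sum_comm, ← Finset.sum_product']
    set T : Finset (ι × OrbitPrim) := Finset.univ ×ˢ s with hT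
    set val : ι × OrbitPrim → ℕ := fun y => (ev (Q y.1) y.2.1.1 y.2.1.2).toNat - 1 with hval
    have hv : ∀ y, ev (Q y.1) y.2.1.1 y.2.1.2 = ((val y + 1 : ℕ) : ℤ) := by
      intro y
      have := orbit_pos h (hpos y.1) (hdisc y.1) y.2
      rw [hval]
      simp only
      omega
    have h5 : ∑ y ∈ T, Om ((ev (Q y.1) y.2.1.1 y.2.1.2 : ℝ) / D) = ∑ y ∈ T, G (val y) := by
      refine Finset.sum_congr rfl fun y _ => ?_
      rw [hG, hv y]
      push_cast
      rfl
    rw [h5, Finset.sum_comp G val]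
    have h6 : ∀ a ∈ T.image val, (T.filter fun y => val y = a).card • G a ≤
        2 * ((rho (a + 1) t n : ℝ) * G a) := by
      intro a _
      rw [nsmul_eq_mul]
      have h7 := orbit_count Q hdisc hinj (a + 1) (Nat.succ_pos a) (T.filter fun y => val y = a) (by
        intro y hy
        rw [Finset.mem_filter] at hy
        rw [hv y, hy.2])
      have h8 : ((T.filter fun y => val y = a).card : ℝ) ≤ 2 * rho (a + 1) t n := by
        exact_mod_cast h7
      have := mul_le_mul_of_nonneg_right h8 (hG0 a)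
      linarith
    refine le_trans (Finset.sum_le_sum h6) ?_
    rw [← Finset.mul_sum]
    refine mul_le_mul_of_nonneg_left ?_ zero_le_two
    exact hsum.sum_le_tsum _ fun a _ => mul_nonneg (Nat.cast_nonneg _) (hG0 a)
  linarith

end Pool.Agent.DEU
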