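import Pool.Agent.DEU.Deuring
import Pool.Agent.DEU.Orbit
import Pool.Agent.H11.DEU.Law

/-!
# DEU.Count: the hypothesis of the counting theorem
-/

namespace Pool.Agent.DEU

open Real MatrixGroups UpperHalfPlane

/-! ### Traces under scaling -/

theorem count_tr_scale {p : ℕ} [Fact p.Prime] (u v d : ZMod p) (hd : d ≠ 0) :
    Pool.Agent.H11.DEU.tr (d ^ 2 * u) (d ^ 3 * v) =
      quadraticChar (ZMod p) d * Pool.Agent.H11.DEU.tr u v := by
  unfold Pool.Agent.H11.DEU.tr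
  have h1 : ∑ x : ZMod p, quadraticChar (ZMod p) (x ^ 3 + d ^ 2 * u * x + d ^ 3 * v) =
      ∑ x : ZMod p, quadraticChar (ZMod p) ((d * x) ^ 3 + d ^ 2 * u * (d * x) + d ^ 3 * v) :=
    (Equiv.sum_comp (Equiv.mulLeft₀ d hd)
      (fun x => quadraticChar (ZMod p) (x ^ 3 + d ^ 2 * u * x + d ^ 3 * v))).symm
  have h2 : ∀ x : ZMod p, quadraticChar (ZMod p) ((d * x) ^ 3 + d ^ 2 * u * (d * x) + d ^ 3 * v) =
      quadraticChar (ZMod p) d * quadraticChar (ZMod p) (x ^ 3 + u * x + v) := by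
    intro x
    have h3 : (d * x) ^ 3 + d ^ 2 * u * (d * x) + d ^ 3 * v = d ^ 2 * (d * (x ^ 3 + u * x + v)) := by
      ring
    rw [h3, map_mul, map_mul, quadraticChar_sq_one' hd, one_mul]
  rw [h1, Finset.sum_congr rfl fun x _ => h2 x, ← Finset.mul_sum]
  ring

theorem count_tr_sq {p : ℕ} [Fact p.Prime] (u v d : ZMod p) (hd : d ≠ 0) :
    Pool.Agent.H11.DEU.tr (d ^ 2 * u) (d ^ 3 * v) ^ 2 = Pool.Agent.H11.DEU.tr u v ^ 2 := by
  rw [count_tr_scale u v d hd, mul_pow]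
  rcases quadraticChar_dichotomy hd with h | h <;> rw [h] <;> ring

/-! ### Forms -/

/-- The complex value of a form. -/
theorem count_form {Q Q' : ℤ × ℤ × ℤ} {a b c d : ℤ}
    (h : ∀ x y : ℤ, ev Q (a * x + b * y) (c * x + d * y) = ev Q' x y) (z : ℂ) :
    (Q.1 : ℂ) * (a * z + b) ^ 2 + Q.2.1 * (a * z + b) * (c * z + d) + Q.2.2 * (c * z + d) ^ 2 =
      Q'.1 * z ^ 2 + Q'.2.1 * z + Q'.2.2 := by
  have h1 := h 1 0
  have h2 := h 0 1
  have h3 := h 1 1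
  unfold ev at h1 h2 h3
  simp only [mul_one, mul_zero, add_zero, zero_add, one_pow] at h1 h2 h3
  have e1 : (Q'.1 : ℂ) = Q.1 * a ^ 2 + Q.2.1 * a * c + Q.2.2 * c ^ 2 := by
    have : Q'.1 = Q.1 * a ^ 2 + Q.2.1 * a * c + Q.2.2 * c ^ 2 := by
      rw [h1]; ring
    rw [this]; push_cast; ring
  have e2 : (Q'.2.2 : ℂ) = Q.1 * b ^ 2 + Q.2.1 * b * d + Q.2.2 * d ^ 2 := by
    have : Q'.2.2 = Q.1 * b ^ 2 + Q.2.1 * b * d + Q.2.2 * d ^ 2 := by
      rw [h2]; ring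
    rw [this]; push_cast; ring
  have e3 : (Q'.2.1 : ℂ) = 2 * Q.1 * a * b + Q.2.1 * (a * d + b * c) + 2 * Q.2.2 * c * d := by
    have : Q'.2.1 = 2 * Q.1 * a * b + Q.2.1 * (a * d + b * c) + 2 * Q.2.2 * c * d := by
      linear_combination (-1 : ℤ) * h3 + h1 + h2
    rw [this]; push_cast; ring
  rw [e1, e2, e3]
  ring

/-- The root in the upper half plane is unique. -/
theorem count_root {A B C : ℤ} (hA : 0 < A) {z w : ℍ}
    (hz : (A : ℂ) * (z : ℂ) ^ 2 + B * (z : ℂ) + C = 0)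
    (hw : (A : ℂ) * (w : ℂ) ^ 2 + B * (w : ℂ) + C = 0) : z = w := by
  have hA' : (A : ℂ) ≠ 0 := by exact_mod_cast hA.ne'
  have h1 : ((z : ℂ) - w) * ((A : ℂ) * ((z : ℂ) + w) + B) = 0 := by
    linear_combination hz - hw
  rcases mul_eq_zero.1 h1 with h | h
  · exact UpperHalfPlane.ext (sub_eq_zero.1 h)
  · exfalso
    have h2 := congrArg Complex.im h
    simp only [Complex.add_im, Complex.mul_im, Complex.intCast_re, Complex.intCast_im,
      Complex.zero_im, zero_mul, add_zero] at h2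
    have h3 : (0 : ℝ) < A := by exact_mod_cast hA
    have h4 := z.im_pos
    have h5 := w.im_pos
    have h6 : (A : ℝ) * (z.im + w.im) = 0 := h2
    have h7 : (0 : ℝ) < A * (z.im + w.im) := mul_pos h3 (by linarith)
    linarith

theorem count_denom_ne (γ : SL(2, ℤ)) (z : ℍ) :
    (((γ 1 0 : ℤ) : ℂ) * z + ((γ 1 1 : ℤ) : ℂ)) ≠ 0 := by
  intro h
  have h1 := congrArg Complex.im h
  have h2 := congrArg Complex.re h
  simp only [Complex.add_im, Complex.add_re, Complex.mul_im, Complex.mul_re, Complex.intCast_re,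
    Complex.intCast_im, Complex.zero_im, Complex.zero_re, zero_mul, add_zero, sub_zero] at h1 h2
  have h3 : ((γ 1 0 : ℤ) : ℝ) = 0 := by
    rcases mul_eq_zero.1 h1 with h | h
    · exact h
    · exact absurd h z.im_pos.ne'
  have h3' : (γ 1 0 : ℤ) = 0 := by exact_mod_cast h3
  rw [h3, zero_mul, zero_add] at h2
  have h2' : (γ 1 1 : ℤ) = 0 := by exact_mod_cast h2
  have h4 := Matrix.SpecialLinearGroup.det_coe γ
  rw [Matrix.det_fin_two] at h4
  rw [h3', h2'] at h4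
  simp at h4

theorem count_smul_coe (γ : SL(2, ℤ)) (z : ℍ) :
    ((γ • z : ℍ) : ℂ) * (((γ 1 0 : ℤ) : ℂ) * z + ((γ 1 1 : ℤ) : ℂ)) =
      ((γ 0 0 : ℤ) : ℂ) * z + ((γ 0 1 : ℤ) : ℂ) := by
  have h := count_denom_ne γ z
  rw [UpperHalfPlane.specialLinearGroup_apply]
  simp only [algebraMap_int_eq, eq_intCast, Complex.ofReal_intCast]
  exact div_mul_cancel₀ _ h

theorem count_hinj {Q Q' : ℤ × ℤ × ℤ} {z w : ℍ} (hQ : 0 < Q.1)
    (hz : (Q.1 : ℂ) * (z : ℂ) ^ 2 + Q.2.1 * (z : ℂ) + Q.2.2 = 0)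
    (hw : (Q'.1 : ℂ) * (w : ℂ) ^ 2 + Q'.2.1 * (w : ℂ) + Q'.2.2 = 0) {γ : SL(2, ℤ)}
    (h : ∀ x y : ℤ, ev Q (γ 0 0 * x + γ 0 1 * y) (γ 1 0 * x + γ 1 1 * y) = ev Q' x y) :
    γ • w = z := by
  refine count_root hQ ?_ hz
  have h1 := count_form h (w : ℂ)
  rw [hw, ← count_smul_coe γ w] at h1
  have h2 := count_denom_ne γ w
  set D := ((γ 1 0 : ℤ) : ℂ) * w + ((γ 1 1 : ℤ) : ℂ) with hD
  have h3 : D ^ 2 * ((Q.1 : ℂ) * ((γ • w : ℍ) : ℂ) ^ 2 + Q.2.1 * ((γ • w : ℍ) : ℂ) + Q.2.2) = 0 := by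
    linear_combination h1
  exact (mul_eq_zero.1 h3).resolve_left (pow_ne_zero 2 h2)

theorem count_jj (γ : SL(2, ℤ)) (z : ℍ) : jj (γ • z) = jj z := by
  have h := count_denom_ne γ z
  unfold jj
  rw [wm_e4.smul, wm_dl.smul]
  have h1 := zpow_ne_zero 12 h
  have h2 : ((((γ 1 0 : ℤ) : ℂ) * z + ((γ 1 1 : ℤ) : ℂ)) ^ (4 : ℤ) * e4 z) ^ 3 =
      (((γ 1 0 : ℤ) : ℂ) * z + ((γ 1 1 : ℤ) : ℂ)) ^ (12 : ℤ) * e4 z ^ 3 := by
    rw [mul_pow, ← zpow_natCast, ← zpow_mul]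
    norm_num
  rw [h2, mul_div_mul_left _ _ h1]

theorem count_stab {γ : SL(2, ℤ)} {z : ℍ} (h : γ • z = z) (h4 : e4 z ≠ 0) (h6 : e6 z ≠ 0) :
    γ = 1 ∨ γ = -1 := by
  have e4' := wm_e4.smul γ z
  have e6' := wm_e6.smul γ z
  rw [h] at e4' e6'
  set D := ((γ 1 0 : ℤ) : ℂ) * z + ((γ 1 1 : ℤ) : ℂ) with hD
  have d4 : D ^ 4 = 1 := by
    have : D ^ (4 : ℤ) = 1 := mul_right_cancel₀ h4 (by rw [one_mul]; exact e4'.symm)
    exact_mod_cast this
  have d6 : D ^ 6 = 1 := by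
    have : D ^ (6 : ℤ) = 1 := mul_right_cancel₀ h6 (by rw [one_mul]; exact e6'.symm)
    exact_mod_cast this
  have d2 : D ^ 2 = 1 := by
    have : D ^ 6 = D ^ 4 * D ^ 2 := by ring
    rw [d4, d6, one_mul] at this
    exact this.symm
  have hd : D = 1 ∨ D = -1 := by
    have h7 : (D - 1) * (D + 1) = 0 := by linear_combination d2
    rcases mul_eq_zero.1 h7 with h8 | h8
    · exact Or.inl (sub_eq_zero.1 h8)
    · exact Or.inr (eq_neg_of_add_eq_zero_left h8)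
  have him : D.im = ((γ 1 0 : ℤ) : ℝ) * z.im := by
    rw [hD]
    simp
  have hre : D.re = ((γ 1 0 : ℤ) : ℝ) * z.re + ((γ 1 1 : ℤ) : ℝ) := by
    rw [hD]
    simp
  have hDim : D.im = 0 := by
    rcases hd with h | h <;> rw [h] <;> simp
  have hc : (γ 1 0 : ℤ) = 0 := by
    rw [hDim] at him
    have : ((γ 1 0 : ℤ) : ℝ) = 0 := (mul_eq_zero.1 him.symm).resolve_right z.im_pos.ne'
    exact_mod_cast this
  have hdet := Matrix.SpecialLinearGroup.det_coe γ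
  rw [Matrix.det_fin_two, hc, mul_zero, sub_zero] at hdet
  have hco := count_smul_coe γ z
  rw [h, ← hD] at hco
  have hb0 : ∀ ε : ℤ, (γ 0 0 : ℤ) = ε → (γ 1 1 : ℤ) = ε → D = (ε : ℂ) → (γ 0 1 : ℤ) = 0 := by
    intro ε h1 h2 h3
    rw [h1, h3] at hco
    have h4 : ((γ 0 1 : ℤ) : ℂ) = 0 := by linear_combination -hco
    exact_mod_cast h4
  rcases hd with hd1 | hd1
  · have h11 : (γ 1 1 : ℤ) = 1 := by
      rw [hd1, hc] at hre
      simp only [Complex.one_re, Int.cast_zero, zero_mul, zero_add] at hre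
      exact_mod_cast hre.symm
    have h00 : (γ 0 0 : ℤ) = 1 := by rw [h11, mul_one] at hdet; exact hdet
    have h01 := hb0 1 h00 h11 (by rw [hd1]; norm_num)
    left
    ext i j
    fin_cases i <;> fin_cases j
    · exact h00
    · exact h01
    · exact hc
    · exact h11
  · have h11 : (γ 1 1 : ℤ) = -1 := by
      rw [hd1, hc] at hre
      simp only [Complex.neg_re, Complex.one_re, Int.cast_zero, zero_mul, zero_add] at hre
      exact_mod_cast hre.symm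
    have h00 : (γ 0 0 : ℤ) = -1 := by rw [h11] at hdet; linarith
    have h01 := hb0 (-1) h00 h11 (by rw [hd1]; norm_num)
    right
    ext i j
    fin_cases i <;> fin_cases j
    · exact h00
    · simpa using h01
    · simpa using hc
    · exact h11

/-! ### The parametrisation -/

theorem count_param {p : ℕ} [Fact p.Prime] (hp : 5 ≤ p) {u v : ZMod p} (hu : u ≠ 0)
    (hv : v ≠ 0) (h : 4 * u ^ 3 + 27 * v ^ 2 ≠ 0) :
    ∃ w : ZMod p, w ≠ 0 ∧ w ≠ 1 ∧ Pool.Agent.H11.DEU.jinv u v = w / (w - 1) ∧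
      Pool.Agent.H11.DEU.tr u v ^ 2 = Pool.Agent.H11.DEU.tr (-w / 48) (w / 864) ^ 2 := by
  have h2 := Pool.Agent.H11.DEU.two_ne (p := p) hp
  have h3 := Pool.Agent.H11.DEU.three_ne (p := p) hp
  have h4 := Pool.Agent.H11.DEU.four_ne (p := p) hp
  have h27 := Pool.Agent.H11.DEU.c27_ne (p := p) hp
  have h48 : (48 : ZMod p) ≠ 0 := by
    have : (48 : ZMod p) = 2 ^ 4 * 3 := by norm_num
    rw [this]
    exact mul_ne_zero (pow_ne_zero _ h2) h3
  have h864 : (864 : ZMod p) ≠ 0 := by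
    have : (864 : ZMod p) = 2 ^ 5 * 3 ^ 3 := by norm_num
    rw [this]
    exact mul_ne_zero (pow_ne_zero _ h2) (pow_ne_zero _ h3)
  have h18 : (18 : ZMod p) ≠ 0 := by
    have : (18 : ZMod p) = 2 * 3 ^ 2 := by norm_num
    rw [this]
    exact mul_ne_zero h2 (pow_ne_zero _ h3)
  have hv2 : 27 * v ^ 2 ≠ 0 := mul_ne_zero h27 (pow_ne_zero _ hv)
  set w : ZMod p := -(4 * u ^ 3) / (27 * v ^ 2) with hw
  have hw1 : w - 1 = -(4 * u ^ 3 + 27 * v ^ 2) / (27 * v ^ 2) := by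
    rw [hw]
    field_simp
    ring
  refine ⟨w, ?_, ?_, ?_, ?_⟩
  · exact div_ne_zero (neg_ne_zero.2 (mul_ne_zero h4 (pow_ne_zero _ hu))) hv2
  · rw [← sub_ne_zero, hw1]
    exact div_ne_zero (neg_ne_zero.2 h) hv2
  · rw [hw1, hw]
    unfold Pool.Agent.H11.DEU.jinv
    rw [div_div_div_cancel_right₀ hv2, neg_div_neg_eq]
  · set c : ZMod p := -(18 * v) / u with hc
    have hc0 : c ≠ 0 := div_ne_zero (neg_ne_zero.2 (mul_ne_zero h18 hv)) hu
    have e1 : u = c ^ 2 * (-w / 48) := by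
      rw [hc, hw]
      field_simp
      ring
    have e2 : v = c ^ 3 * (w / 864) := by
      rw [hc, hw]
      field_simp
      ring
    conv_lhs => rw [e1, e2]
    exact count_tr_sq _ _ c hc0

theorem deuring_count {p : ℕ} [Fact p.Prime] (hp : 5 ≤ p) :
    Pool.Agent.H11.DEU.Deuring p (fun t => ⌊Sw t p⌋₊) := by
  classical
  obtain ⟨T, Q, s, h, hinj⟩ := deuring (p := p) hp
  refine ⟨fun t => (Finset.univ.filter (fun w : ZMod p => w ≠ 0 ∧ w ≠ 1 ∧ s w = t)).image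
    (fun w => w / (w - 1)), fun t ht => ?_, fun u v hu hv huv => ?_⟩
  · refine Finset.card_image_le.trans (Nat.le_floor ?_)
    set W := Finset.univ.filter (fun w : ZMod p => w ≠ 0 ∧ w ≠ 1 ∧ s w = t) with hW
    have hmem : ∀ w : W, w.1 ≠ 0 ∧ w.1 ≠ 1 ∧ s w.1 = t := fun w => by
      have h0 : w.1 ∈ Finset.univ.filter (fun w : ZMod p => w ≠ 0 ∧ w ≠ 1 ∧ s w = t) := w.2
      exact (Finset.mem_filter.1 h0).2
    have ht' : (t : ℤ) ^ 2 < 4 * (p : ℤ) := by exact_mod_cast ht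
    have h1 := orbit_bound (ι := W) (t := t) (n := p) ht' (fun w => Q w.1)
      (fun w => (h w.1 (hmem w).1 (hmem w).2.1).2.2.1)
      (fun w => by
        have h2 := (h w.1 (hmem w).1 (hmem w).2.1).2.2.2.1
        rw [(hmem w).2.2] at h2
        exact h2)
      (fun i j γ hγ => by
        obtain ⟨i4, i6, iA, -, -, -, iz⟩ := h i.1 (hmem i).1 (hmem i).2.1
        obtain ⟨j4, j6, jA, -, -, -, jz⟩ := h j.1 (hmem j).1 (hmem j).2.1
        have h3 : γ • T j.1 = T i.1 := count_hinj iA iz jz hγ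
        have h4 : jj (T i.1) = jj (T j.1) := by rw [← h3, count_jj]
        have h5 : i.1 = j.1 := hinj _ _ (hmem i).1 (hmem i).2.1 (hmem j).1 (hmem j).2.1 h4
        have h6 : i = j := Subtype.ext h5
        refine ⟨h6, ?_⟩
        rw [← h6] at h3
        exact count_stab h3 i4 i6)
    rw [Fintype.card_coe] at h1
    unfold Sw
    push_cast at h1 ⊢
    exact h1
  · obtain ⟨w, hw0, hw1, hj, htr⟩ := count_param hp hu hv huv
    obtain ⟨-, -, -, -, hs, hstr, -⟩ := h w hw0 hw1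
    refine ⟨s w, hs, ?_, ?_⟩
    · rw [hstr]
      have := congrArg (fun n : ℤ => (n : ZMod p)) htr
      push_cast at this
      exact this.symm
    · rw [hj]
      exact Finset.mem_image_of_mem _ (Finset.mem_filter.2 ⟨Finset.mem_univ _, hw0, hw1, rfl⟩)

end Pool.Agent.DEU
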