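import Mathlib

/-!
# DEU: basic definitions (modular part)
-/

namespace Pool.Agent.DEU

open UpperHalfPlane ModularForm MatrixGroups Filter Topology

noncomputable section

/-- `q = e^{2πiτ}`. -/
def qp (τ : ℍ) : ℂ := Function.Periodic.qParam 1 (τ : ℂ)

/-- The Eisenstein series of weight 4, constant term 1. -/
def e4 (τ : ℍ) : ℂ := E₄ τ

/-- The Eisenstein series of weight 6, constant term 1. -/
def e6 (τ : ℍ) : ℂ := E₆ τ

/-- The discriminant form of weight 12. -/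
def dl (τ : ℍ) : ℂ := ModularForm.discriminant τ

/-- The `j`-function. -/
def jj (τ : ℍ) : ℂ := e4 τ ^ 3 / dl τ

/-- The function `A` has the `q`-expansion `F`. -/
def IsRep (F : PowerSeries ℂ) (A : ℍ → ℂ) : Prop :=
  ∀ τ : ℍ, HasSum (fun m => F.coeff m * qp τ ^ m) (A τ)

/-- The rational numbers with denominator prime to `p`, inside `ℂ`. -/
def Zp (p : ℕ) [Fact p.Prime] : Subring ℂ where
  carrier := {z | ∃ a b : ℤ, ¬ (p : ℤ) ∣ b ∧ z * b = a}
  mul_mem' := by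
    rintro x y ⟨a, b, hb, h⟩ ⟨c, d, hd, h'⟩
    refine ⟨a * c, b * d, fun hdvd => ?_, by push_cast; rw [← h, ← h']; ring⟩
    rcases (Nat.prime_iff_prime_int.mp (Fact.out : p.Prime)).dvd_or_dvd hdvd with h1 | h1
    · exact hb h1
    · exact hd h1
  one_mem' := ⟨1, 1, fun h => (Nat.prime_iff_prime_int.mp (Fact.out : p.Prime)).not_isUnit
    (isUnit_of_dvd_one h), by simp⟩
  add_mem' := by
    rintro x y ⟨a, b, hb, h⟩ ⟨c, d, hd, h'⟩
    refine ⟨a * d + c * b, b * d, fun hdvd => ?_, by push_cast; rw [← h, ← h']; ring⟩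
    rcases (Nat.prime_iff_prime_int.mp (Fact.out : p.Prime)).dvd_or_dvd hdvd with h1 | h1
    · exact hb h1
    · exact hd h1
  zero_mem' := ⟨0, 1, fun h => (Nat.prime_iff_prime_int.mp (Fact.out : p.Prime)).not_isUnit
    (isUnit_of_dvd_one h), by simp⟩
  neg_mem' := by
    rintro x ⟨a, b, hb, h⟩
    exact ⟨-a, b, hb, by push_cast; rw [← h]; ring⟩

lemma mem_Zp {p : ℕ} [Fact p.Prime] {z : ℂ} :
    z ∈ Zp p ↔ ∃ a b : ℤ, ¬ (p : ℤ) ∣ b ∧ z * b = a := Iff.rfl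

lemma norm_qp_lt (τ : ℍ) : ‖qp τ‖ < 1 := Function.Periodic.norm_qParam_lt_one one_pos τ.im_pos

lemma qp_ne (τ : ℍ) : qp τ ≠ 0 := Function.Periodic.qParam_ne_zero _

lemma IsRep.norm_summable {F : PowerSeries ℂ} {A : ℍ → ℂ} (h : IsRep F A) (τ : ℍ) :
    Summable fun m => ‖F.coeff m * qp τ ^ m‖ := (h τ).summable.norm

lemma IsRep.add {F G : PowerSeries ℂ} {A B : ℍ → ℂ} (h : IsRep F A) (h' : IsRep G B) :
    IsRep (F + G) (A + B) := fun τ => by
  simpa [add_mul] using (h τ).add (h' τ)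

lemma IsRep.neg {F : PowerSeries ℂ} {A : ℍ → ℂ} (h : IsRep F A) : IsRep (-F) (-A) := fun τ => by
  simpa using (h τ).neg

lemma IsRep.mul {F G : PowerSeries ℂ} {A B : ℍ → ℂ} (h : IsRep F A) (h' : IsRep G B) :
    IsRep (F * G) (A * B) := fun τ => by
  have h1 := summable_norm_sum_mul_antidiagonal_of_summable_norm (h.norm_summable τ)
    (h'.norm_summable τ)
  have h2 := tsum_mul_tsum_eq_tsum_sum_antidiagonal_of_summable_norm (h.norm_summable τ)
    (h'.norm_summable τ)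
  rw [(h τ).tsum_eq, (h' τ).tsum_eq] at h2
  have h3 : ∀ n : ℕ, (∑ kl ∈ Finset.HasAntidiagonal.antidiagonal n,
      F.coeff kl.1 * qp τ ^ kl.1 * (G.coeff kl.2 * qp τ ^ kl.2)) =
      (F * G).coeff n * qp τ ^ n := by
    intro n
    rw [PowerSeries.coeff_mul, Finset.sum_mul]
    refine Finset.sum_congr rfl fun x hx => ?_
    rw [← Finset.HasAntidiagonal.mem_antidiagonal.mp hx, pow_add]
    ring
  rw [Pi.mul_apply, h2]
  simp_rw [h3] at h1 ⊢
  exact h1.of_norm.hasSum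

lemma isRep_one : IsRep 1 1 := fun τ => by
  have h := hasSum_ite_eq (0 : ℕ) (1 : ℂ)
  have h2 : (fun m : ℕ => (1 : PowerSeries ℂ).coeff m * qp τ ^ m) =
      fun m => if m = 0 then (1 : ℂ) else 0 := by
    funext m
    by_cases hm : m = 0
    · subst hm; simp
    · simp [PowerSeries.coeff_one, hm]
  rw [h2]
  exact h

lemma isRep_zero : IsRep 0 0 := fun τ => by
  simp

lemma isRep_const (c : ℂ) : IsRep (PowerSeries.C c) (fun _ => c) := fun τ => by
  have h := hasSum_ite_eq (0 : ℕ) c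
  have h2 : (fun m : ℕ => (PowerSeries.C c).coeff m * qp τ ^ m) =
      fun m => if m = 0 then c else 0 := by
    funext m
    by_cases hm : m = 0
    · subst hm; simp
    · simp [PowerSeries.coeff_C, hm]
  rw [h2]
  exact h

/-- The ring of functions on the upper half plane with a `q`-expansion with coefficients in
`Zp p`. -/
def IR (p : ℕ) [Fact p.Prime] : Subring (ℍ → ℂ) where
  carrier := {A | ∃ F : PowerSeries ℂ, IsRep F A ∧ ∀ m, F.coeff m ∈ Zp p}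
  mul_mem' := by
    rintro A B ⟨F, h, hF⟩ ⟨G, h', hG⟩
    refine ⟨F * G, h.mul h', fun m => ?_⟩
    rw [PowerSeries.coeff_mul]
    exact Subring.sum_mem _ fun x _ => (Zp p).mul_mem (hF _) (hG _)
  one_mem' := ⟨1, isRep_one, fun m => by
    rw [PowerSeries.coeff_one]; split_ifs
    · exact (Zp p).one_mem
    · exact (Zp p).zero_mem⟩
  add_mem' := by
    rintro A B ⟨F, h, hF⟩ ⟨G, h', hG⟩
    exact ⟨F + G, h.add h', fun m => by rw [map_add]; exact (Zp p).add_mem (hF _) (hG _)⟩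
  zero_mem' := ⟨0, isRep_zero, fun m => by rw [map_zero]; exact (Zp p).zero_mem⟩
  neg_mem' := by
    rintro A ⟨F, h, hF⟩
    exact ⟨-F, h.neg, fun m => by rw [map_neg]; exact (Zp p).neg_mem (hF _)⟩

lemma mem_IR {p : ℕ} [Fact p.Prime] {A : ℍ → ℂ} :
    A ∈ IR p ↔ ∃ F : PowerSeries ℂ, IsRep F A ∧ ∀ m, F.coeff m ∈ Zp p := Iff.rfl

/-- Weak modularity of weight `w` for `SL₂(ℤ)`, on the generators. -/
def WM (w : ℤ) (A : ℍ → ℂ) : Prop :=
  (∀ τ : ℍ, A ((1 : ℝ) +ᵥ τ) = A τ) ∧ ∀ τ : ℍ, A (ModularGroup.S • τ) = (τ : ℂ) ^ w * A τ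

/-- The point `pτ`. -/
def tp (p : ℕ) [hp : Fact p.Prime] (τ : ℍ) : ℍ :=
  ⟨(p : ℂ) * τ, by
    have : (0 : ℝ) < p := by exact_mod_cast hp.out.pos
    rw [Complex.mul_im]
    simp only [Complex.natCast_re, Complex.natCast_im, zero_mul, add_zero]
    exact mul_pos this τ.im_pos⟩

/-- The point `(τ + k) / p`. -/
def tk (p : ℕ) [hp : Fact p.Prime] (k : ℕ) (τ : ℍ) : ℍ :=
  ⟨((τ : ℂ) + k) / p, by
    have : (0 : ℝ) < p := by exact_mod_cast hp.out.pos
    rw [Complex.div_natCast_im]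
    simp only [Complex.add_im, Complex.natCast_im, add_zero]
    exact div_pos τ.im_pos this⟩

@[simp] lemma coe_tp (p : ℕ) [Fact p.Prime] (τ : ℍ) : (tp p τ : ℂ) = p * τ := rfl

@[simp] lemma coe_tk (p : ℕ) [Fact p.Prime] (k : ℕ) (τ : ℍ) :
    (tk p k τ : ℂ) = ((τ : ℂ) + k) / p := rfl

/-- The values at the `p + 1` sublattices of index `p` of `ℤτ + ℤ` of the homogeneous function of
degree `-w` attached to `A`: the sublattice `ℤpτ + ℤ` is `none` and the sublattice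
`ℤ(τ+k) + ℤp` is `some k`. -/
def nb (p : ℕ) [Fact p.Prime] (w : ℤ) (A : ℍ → ℂ) (i : Option (ZMod p)) (τ : ℍ) : ℂ :=
  match i with
  | none => A (tp p τ)
  | some k => (p : ℂ) ^ (-w) * A (tk p k.val τ)

/-- The coefficient of `x^(p-1)` in `(x³ + ax + b)^((p-1)/2)`. -/
def Hp (p : ℕ) {S : Type*} [CommRing S] (a b : S) : S :=
  ((Polynomial.X ^ 3 + Polynomial.C a * Polynomial.X + Polynomial.C b) ^ ((p - 1) / 2)).coeff
    (p - 1)

/-- The Hasse invariant as a form of weight `p - 1`. -/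
def Hf (p : ℕ) (τ : ℍ) : ℂ := Hp p (-e4 τ / 48) (e6 τ / 864)

/-- The lattice `ℤ lz + ℤ l`. -/
def lat (l : ℂ) (z : ℍ) : Submodule ℤ ℂ := Submodule.span ℤ {l * (z : ℂ), l}

/-- The value of the binary quadratic form `(A, B, C)`. -/
def ev (Q : ℤ × ℤ × ℤ) (m n : ℤ) : ℤ := Q.1 * m ^ 2 + Q.2.1 * m * n + Q.2.2 * n ^ 2

/-- The number of `s` modulo `a` with `s² - ts + n ≡ 0 (mod a)`. -/
def rho (a : ℕ) (t n : ℤ) : ℕ :=
  ((Finset.range a).filter fun s : ℕ => (a : ℤ) ∣ (s : ℤ) ^ 2 - t * s + n).card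

/-- `Ω(u) = 2 ∑_{g ≥ 1} (-1)^{g+1} exp(-π g² u)`. -/
def Om (u : ℝ) : ℝ := ∑' g : ℕ, 2 * (-1) ^ g * Real.exp (-Real.pi * ((g : ℝ) + 1) ^ 2 * u)

/-- The majorant of the class number of discriminant `t² - 4n`. -/
def Sw (t n : ℕ) : ℝ := ∑' a : ℕ, (rho (a + 1) t n : ℝ) *
  Om (((a : ℝ) + 1) / √(4 * (n : ℝ) - (t : ℝ) ^ 2))

end

end Pool.Agent.DEU
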