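import Pool.Agent.DEU.Rep

/-!
# DEU.Ram: Ramanujan's differential equations
-/

namespace Pool.Agent.DEU

open UpperHalfPlane ModularForm MatrixGroups

/-- The `q`-expansion of `E₂`. -/
noncomputable def P2 : PowerSeries ℂ :=
  PowerSeries.mk fun m => if m = 0 then 1 else -24 * (ArithmeticFunction.sigma 1 m : ℂ)

/-- The `q`-expansion of `E₄`. -/
noncomputable def Q4 : PowerSeries ℂ := qExpansion 1 E₄

/-- The `q`-expansion of `E₆`. -/
noncomputable def Q6 : PowerSeries ℂ := qExpansion 1 E₆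

/-- `q d/dq`. -/
noncomputable def theta (F : PowerSeries ℂ) : PowerSeries ℂ :=
  PowerSeries.mk fun m => (m : ℂ) * F.coeff m

theorem rep_Q4 : IsRep Q4 e4 := rep_form E₄

theorem rep_Q6 : IsRep Q6 e6 := rep_form E₆

theorem Q4_coeff (m : ℕ) : Q4.coeff m =
    if m = 0 then 1 else 240 * (ArithmeticFunction.sigma 3 m : ℂ) := by
  rw [Q4, EisensteinSeries.E_qExpansion_coeff _ ⟨2, rfl⟩]
  norm_num [show bernoulli 4 = -1 / 30 by decide +kernel]

theorem Q6_coeff (m : ℕ) : Q6.coeff m =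
    if m = 0 then 1 else -504 * (ArithmeticFunction.sigma 5 m : ℂ) := by
  rw [Q6, EisensteinSeries.E_qExpansion_coeff _ ⟨3, rfl⟩]
  norm_num [show bernoulli 6 = 1 / 42 by decide +kernel]

open Complex in
private theorem ram_qp (τ : ℍ) : qp τ = cexp (2 * Real.pi * Complex.I * (τ : ℂ)) := by
  simp [qp, Function.Periodic.qParam]

private theorem rep_P2 : IsRep P2 EisensteinSeries.E2 := fun τ => by
  have h := EisensteinSeries.hasSum_qExpansion_E2 (z := τ)
  rw [ram_qp]
  convert h using 2 with m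
  rw [P2, PowerSeries.coeff_mk, smul_eq_mul]

open Complex in
/-- the derivative of a function with a `q`-expansion -/
private theorem ram_rep_D {F : PowerSeries ℂ} {A : ℍ → ℂ} (hF : IsRep F A) :
    IsRep (theta F) (Derivative.normalizedDerivOfComplex A) := fun τ => by
  obtain ⟨U, hU⟩ : ∃ U : Set ℂ, U = {z : ℂ | τ.im / 2 < z.im} := ⟨_, rfl⟩
  have hUo : IsOpen U := hU ▸ isOpen_lt continuous_const Complex.continuous_im
  have hτU : (τ : ℂ) ∈ U := by
    rw [hU]
    change τ.im / 2 < τ.im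
    linarith [τ.im_pos]
  have hpos : ∀ z ∈ U, 0 < z.im := by
    intro z hz
    rw [hU] at hz
    have : τ.im / 2 < z.im := hz
    linarith [τ.im_pos]
  obtain ⟨G, hG⟩ : ∃ G : ℕ → ℂ → ℂ,
      G = fun m z => F.coeff m * cexp (2 * Real.pi * Complex.I * z) ^ m := ⟨_, rfl⟩
  have hdiff : ∀ m, Differentiable ℂ (G m) := by
    intro m; rw [hG]; fun_prop
  obtain ⟨τ', hτ'⟩ : ∃ τ' : ℍ, τ'.im = τ.im / 2 :=
    ⟨⟨((τ.im / 2 : ℝ) : ℂ) * Complex.I, by simpa using τ.im_pos⟩, by
      rw [UpperHalfPlane.mk_im]; simp⟩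
  have hnorm : ∀ z : ℂ, ‖cexp (2 * Real.pi * Complex.I * z)‖ = Real.exp (-2 * Real.pi * z.im) := by
    intro z
    rw [Complex.norm_exp]
    congr 1
    simp
  have hu := hF.norm_summable τ'
  have hle : ∀ (m : ℕ) (z : ℂ), z ∈ U → ‖G m z‖ ≤ ‖F.coeff m * qp τ' ^ m‖ := by
    intro m z hz
    rw [hG, norm_mul, norm_mul, norm_pow, norm_pow, ram_qp, hnorm, hnorm]
    have h1 : τ'.im < z.im := by rw [hτ']; rw [hU] at hz; exact hz
    have h2 : Real.exp (-2 * Real.pi * z.im) ≤ Real.exp (-2 * Real.pi * (τ' : ℂ).im) := by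
      apply Real.exp_le_exp.2
      have : (τ' : ℂ).im = τ'.im := rfl
      rw [this]
      nlinarith [Real.pi_pos]
    gcongr
  have key := hasSum_deriv_of_summable_norm hu (fun m => (hdiff m).differentiableOn) hUo hle hτU
  have hA : deriv (A ∘ ofComplex) (τ : ℂ) = deriv (fun w : ℂ => ∑' m, G m w) (τ : ℂ) := by
    apply Filter.EventuallyEq.deriv_eq
    filter_upwards [hUo.mem_nhds hτU] with z hz
    have h1 := (hF ⟨z, hpos z hz⟩).tsum_eq
    rw [Function.comp_apply, ofComplex_apply_of_im_pos (hpos z hz), ← h1, hG]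
    simp only [ram_qp]
  rw [← hA] at key
  have h2 := key.mul_left ((2 * Real.pi * Complex.I)⁻¹)
  have h3 : (fun m => (2 * Real.pi * Complex.I)⁻¹ * deriv (G m) (τ : ℂ)) =
      fun m => (theta F).coeff m * qp τ ^ m := by
    funext m
    have h4 : HasDerivAt (fun z : ℂ => cexp (2 * Real.pi * Complex.I * z))
        (cexp (2 * Real.pi * Complex.I * (τ : ℂ)) * (2 * Real.pi * Complex.I)) (τ : ℂ) := by
      have := ((hasDerivAt_id (τ : ℂ)).const_mul (2 * Real.pi * Complex.I)).cexp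
      simpa using this
    have h5 : HasDerivAt (G m) (F.coeff m * (m * cexp (2 * Real.pi * Complex.I * (τ : ℂ)) ^ (m - 1) *
        (cexp (2 * Real.pi * Complex.I * (τ : ℂ)) * (2 * Real.pi * Complex.I)))) (τ : ℂ) := by
      rw [hG]
      exact (h4.pow m).const_mul _
    rw [h5.deriv, theta, PowerSeries.coeff_mk, ram_qp]
    have hpi : (2 * Real.pi * Complex.I : ℂ) ≠ 0 := Complex.two_pi_I_ne_zero
    rcases m with _ | m
    · simp
    · rw [Nat.add_sub_cancel, pow_succ]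
      field_simp
  rw [h3] at h2
  exact h2

private theorem ram_mdiff {F : PowerSeries ℂ} {A : ℍ → ℂ} (hF : IsRep F A) :
    MDifferentiable (modelWithCornersSelf ℂ ℂ) (modelWithCornersSelf ℂ ℂ) A :=
  UpperHalfPlane.mdifferentiable_iff.2 hF.mdiff

private theorem ram_slash_T {k : ℤ} {A : ℍ → ℂ} (τ : ℍ) :
    (A ∣[k] ModularGroup.T) τ = A ((1 : ℝ) +ᵥ τ) := by
  have h : denom ModularGroup.T τ = 1 := by
    rw [ModularGroup.denom_apply]
    simp [ModularGroup.T]
  rw [ModularForm.SL_slash_apply, modular_T_smul, h, one_zpow, mul_one]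

private theorem ram_slash_S {k : ℤ} {A : ℍ → ℂ} (τ : ℍ) :
    (A ∣[k] ModularGroup.S) τ = A (ModularGroup.S • τ) * (τ : ℂ) ^ (-k) := by
  rw [ModularForm.SL_slash_apply, ModularGroup.denom_S]

private theorem ram_wm_iff {k : ℤ} {A : ℍ → ℂ} :
    WM k A ↔ (A ∣[k] ModularGroup.T = A ∧ A ∣[k] ModularGroup.S = A) := by
  have hne : ∀ τ : ℍ, (τ : ℂ) ≠ 0 := fun τ => UpperHalfPlane.ne_zero τ
  constructor
  · rintro ⟨h1, h2⟩
    refine ⟨?_, ?_⟩
    · funext τ; rw [ram_slash_T, h1]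
    · funext τ
      rw [ram_slash_S, h2, zpow_neg]
      field_simp [hne τ]
  · rintro ⟨h1, h2⟩
    refine ⟨fun τ => ?_, fun τ => ?_⟩
    · rw [← ram_slash_T (k := k) (A := A), h1]
    · have := congrFun h2 τ
      rw [ram_slash_S, zpow_neg] at this
      rw [← this]
      field_simp [hne τ]

/-- a form of small weight whose `q`-expansion has no constant term vanishes -/
private theorem ram_zero {G : PowerSeries ℂ} {A : ℍ → ℂ} {k : ℕ} (hG : IsRep G A)
    (hA : WM (k : ℤ) A) (hk : k < 12) (h0 : G.coeff 0 = 0) : G = 0 := by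
  obtain ⟨f, hf, hfG⟩ := mkForm hG hA
  have hf0 : f = 0 := by
    apply sturm_bound_levelOne_nat
    rw [hfG, Nat.div_eq_of_lt hk]
    by_contra hcon
    have h1 : G.order ≤ 0 := by simpa using hcon
    have h2 : G.order = ((0 : ℕ) : ℕ∞) := le_antisymm h1 (by simp)
    exact (PowerSeries.order_eq_nat.1 h2).1 h0
  rw [← hfG, hf0]
  exact qExpansion_zero 1

private theorem ram_const_mul {F : PowerSeries ℂ} {A : ℍ → ℂ} (hF : IsRep F A) (c : ℂ) :
    IsRep (PowerSeries.C c * F) (fun τ => c * A τ) := (isRep_const c).mul hF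

private theorem ram_coeff0_theta (F : PowerSeries ℂ) : (theta F).coeff 0 = 0 := by
  simp [theta]

private theorem ram_serre {k : ℕ} {F : PowerSeries ℂ} {A : ℍ → ℂ} (hF : IsRep F A)
    (hA : WM (k : ℤ) A) :
    IsRep (theta F - PowerSeries.C ((k : ℂ) * 12⁻¹) * P2 * F)
      (Derivative.serreDerivative ((k : ℤ) : ℂ) A) ∧
    WM ((k : ℤ) + 2) (Derivative.serreDerivative ((k : ℤ) : ℂ) A) := by
  have hm := ram_mdiff hF
  refine ⟨?_, ?_⟩
  · have h1 := (ram_rep_D hF).add ((((isRep_const ((k : ℂ) * 12⁻¹)).mul rep_P2).mul hF).neg)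
    have h2 : Derivative.normalizedDerivOfComplex A +
        -((fun _ => (k : ℂ) * 12⁻¹) * EisensteinSeries.E2 * A) =
        Derivative.serreDerivative ((k : ℤ) : ℂ) A := by
      funext τ
      simp [sub_eq_add_neg]
    rw [h2] at h1
    rw [sub_eq_add_neg]
    exact h1
  · rw [ram_wm_iff] at hA ⊢
    exact ⟨Derivative.serreDerivative_slash_invariant hm hA.1,
      Derivative.serreDerivative_slash_invariant hm hA.2⟩

private theorem ram_P2_coeff0 : P2.coeff 0 = 1 := by simp [P2]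

private theorem ram_Q4_coeff0 : Q4.coeff 0 = 1 := by rw [Q4_coeff]; simp

private theorem ram_Q6_coeff0 : Q6.coeff 0 = 1 := by rw [Q6_coeff]; simp

theorem ram4 : 3 * theta Q4 = P2 * Q4 - Q6 := by
  obtain ⟨h1, h2⟩ := ram_serre (k := 4) rep_Q4 wm_e4
  have h3 : IsRep (PowerSeries.C 3 * (theta Q4 - PowerSeries.C (((4 : ℕ) : ℂ) * 12⁻¹) * P2 * Q4) +
      Q6) ((fun τ => 3 * Derivative.serreDerivative ((4 : ℕ) : ℤ) e4 τ) + e6) :=
    (ram_const_mul h1 3).add rep_Q6
  have h4 : WM ((6 : ℕ) : ℤ)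
      ((fun τ => 3 * Derivative.serreDerivative ((4 : ℕ) : ℤ) e4 τ) + e6) :=
    (h2.const_mul 3).add wm_e6
  have h5 := ram_zero h3 h4 (by norm_num) (by
    have e1 := ram_coeff0_theta Q4
    have e2 := ram_P2_coeff0
    have e3 := ram_Q4_coeff0
    have e4 := ram_Q6_coeff0
    simp only [PowerSeries.coeff_zero_eq_constantCoeff] at e1 e2 e3 e4
    simp only [PowerSeries.coeff_zero_eq_constantCoeff, map_add, map_mul, map_sub, e1, e2, e3, e4,
      PowerSeries.constantCoeff_C]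
    norm_num)
  have h6 : PowerSeries.C (3 : ℂ) * PowerSeries.C (((4 : ℕ) : ℂ) * 12⁻¹) = 1 := by
    rw [← map_mul]; norm_num
  have h7 : (PowerSeries.C (3 : ℂ)) = 3 := by
    rw [map_ofNat]
  have h8 : PowerSeries.C 3 * (theta Q4 - PowerSeries.C (((4 : ℕ) : ℂ) * 12⁻¹) * P2 * Q4) + Q6 =
      PowerSeries.C (3 : ℂ) * theta Q4 -
        (PowerSeries.C (3 : ℂ) * PowerSeries.C (((4 : ℕ) : ℂ) * 12⁻¹)) * (P2 * Q4) + Q6 := by
    ring
  rw [h8, h6, h7] at h5
  linear_combination h5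

theorem ram6 : 2 * theta Q6 = P2 * Q6 - Q4 ^ 2 := by
  obtain ⟨h1, h2⟩ := ram_serre (k := 6) rep_Q6 wm_e6
  have h3 : IsRep (PowerSeries.C 2 * (theta Q6 - PowerSeries.C (((6 : ℕ) : ℂ) * 12⁻¹) * P2 * Q6) +
      Q4 * Q4) ((fun τ => 2 * Derivative.serreDerivative ((6 : ℕ) : ℤ) e6 τ) + e4 * e4) :=
    (ram_const_mul h1 2).add (rep_Q4.mul rep_Q4)
  have h4 : WM ((8 : ℕ) : ℤ)
      ((fun τ => 2 * Derivative.serreDerivative ((6 : ℕ) : ℤ) e6 τ) + e4 * e4) :=
    (h2.const_mul 2).add (wm_e4.mul wm_e4)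
  have h5 := ram_zero h3 h4 (by norm_num) (by
    have e1 := ram_coeff0_theta Q6
    have e2 := ram_P2_coeff0
    have e3 := ram_Q4_coeff0
    have e4 := ram_Q6_coeff0
    simp only [PowerSeries.coeff_zero_eq_constantCoeff] at e1 e2 e3 e4
    simp only [PowerSeries.coeff_zero_eq_constantCoeff, map_add, map_mul, map_sub, e1, e2, e3, e4,
      PowerSeries.constantCoeff_C]
    norm_num)
  have h6 : PowerSeries.C (2 : ℂ) * PowerSeries.C (((6 : ℕ) : ℂ) * 12⁻¹) = 1 := by
    rw [← map_mul]; norm_num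
  have h7 : (PowerSeries.C (2 : ℂ)) = 2 := by
    rw [map_ofNat]
  have h8 : PowerSeries.C 2 * (theta Q6 - PowerSeries.C (((6 : ℕ) : ℂ) * 12⁻¹) * P2 * Q6) +
      Q4 * Q4 = PowerSeries.C (2 : ℂ) * theta Q6 -
        (PowerSeries.C (2 : ℂ) * PowerSeries.C (((6 : ℕ) : ℂ) * 12⁻¹)) * (P2 * Q6) + Q4 * Q4 := by
    ring
  rw [h8, h6, h7] at h5
  linear_combination h5

open Complex in
private theorem ram_E2_S (τ : ℍ) : (EisensteinSeries.E2 ∣[(2 : ℤ)] ModularGroup.S) τ =
    EisensteinSeries.E2 τ - (6 * Complex.I / Real.pi) * (τ : ℂ)⁻¹ := by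
  rw [EisensteinSeries.E2_slash_action]
  have hpi : (Real.pi : ℂ) ≠ 0 := by exact_mod_cast Real.pi_ne_zero
  have hτ : (τ : ℂ) ≠ 0 := UpperHalfPlane.ne_zero τ
  rw [Pi.sub_apply, Pi.smul_apply, EisensteinSeries.D2_S, riemannZeta_two, smul_eq_mul]
  field_simp

private theorem ram_E2_T : EisensteinSeries.E2 ∣[(2 : ℤ)] ModularGroup.T =
    EisensteinSeries.E2 := by
  rw [EisensteinSeries.E2_slash_action, EisensteinSeries.D2_T, smul_zero, sub_zero]

open Complex in
private theorem ram_D_inv (τ : ℍ) :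
    Derivative.normalizedDerivOfComplex (fun z : ℍ => (z : ℂ)⁻¹) τ =
      -(2 * Real.pi * Complex.I)⁻¹ * ((τ : ℂ)⁻¹) ^ 2 := by
  have hτ : (τ : ℂ) ≠ 0 := UpperHalfPlane.ne_zero τ
  have h1 : deriv ((fun z : ℍ => (z : ℂ)⁻¹) ∘ ofComplex) (τ : ℂ) =
      deriv (fun z : ℂ => z⁻¹) (τ : ℂ) := by
    apply Filter.EventuallyEq.deriv_eq
    filter_upwards [isOpen_upperHalfPlaneSet.mem_nhds τ.im_pos] with z hz
    rw [Function.comp_apply, ofComplex_apply_of_im_pos hz]
  rw [Derivative.normalizedDerivOfComplex, h1, deriv_inv]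
  field_simp

private theorem ram_mdiff_inv :
    MDifferentiable (modelWithCornersSelf ℂ ℂ) (modelWithCornersSelf ℂ ℂ)
      (fun z : ℍ => (z : ℂ)⁻¹) := by
  rw [UpperHalfPlane.mdifferentiable_iff]
  have h1 : DifferentiableOn ℂ (fun z : ℂ => z⁻¹) upperHalfPlaneSet := by
    intro z hz
    refine (differentiableAt_inv ?_).differentiableWithinAt
    rintro rfl
    simp [upperHalfPlaneSet] at hz
  refine h1.congr fun z hz => ?_
  rw [Function.comp_apply, ofComplex_apply_of_im_pos hz]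

open Complex in
theorem ram2 : 12 * theta P2 = P2 ^ 2 - Q4 := by
  have hm := ram_mdiff rep_P2
  obtain ⟨A, hA⟩ : ∃ A : ℍ → ℂ, A = (fun τ => 12 * Derivative.normalizedDerivOfComplex
      EisensteinSeries.E2 τ) + -(EisensteinSeries.E2 * EisensteinSeries.E2) := ⟨_, rfl⟩
  have hrep : IsRep (PowerSeries.C 12 * theta P2 + -(P2 * P2) + Q4) (A + e4) := by
    rw [hA]
    exact ((ram_const_mul (ram_rep_D rep_P2) 12).add (rep_P2.mul rep_P2).neg).add rep_Q4
  have hwm : WM ((4 : ℕ) : ℤ) A := by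
    rw [ram_wm_iff]
    have hD : ∀ γ : SL(2, ℤ), (A ∣[((4 : ℕ) : ℤ)] γ) = fun τ =>
        12 * (Derivative.normalizedDerivOfComplex EisensteinSeries.E2 ∣[(2 : ℤ) + 2] γ) τ -
          (EisensteinSeries.E2 ∣[(2 : ℤ)] γ) τ ^ 2 := by
      intro γ
      funext τ
      have hne : denom γ τ ≠ 0 := denom_ne_zero _ _
      rw [ModularForm.SL_slash_apply, ModularForm.SL_slash_apply, ModularForm.SL_slash_apply, hA]
      simp only [Pi.add_apply, Pi.neg_apply, Pi.mul_apply]
      have e1 : denom γ τ ^ (-((4 : ℕ) : ℤ)) = (denom γ τ ^ (-(2 : ℤ))) ^ 2 := by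
        rw [← zpow_natCast, ← zpow_mul]; norm_num
      have e2 : denom γ τ ^ (-((2 : ℤ) + 2)) = (denom γ τ ^ (-(2 : ℤ))) ^ 2 := by
        rw [← zpow_natCast, ← zpow_mul]; norm_num
      rw [e1, e2]
      ring
    constructor
    · rw [hD]
      have h1 := Derivative.normalizedDerivOfComplex_SL_slash (k := 2) hm (γ := ModularGroup.T)
      rw [ram_E2_T] at h1
      funext τ
      have h2 := congrFun h1 τ
      simp only [Pi.sub_apply] at h2
      rw [ram_E2_T] at *
      have h3 : ((ModularGroup.T 1 0 : ℤ) : ℂ) = 0 := by simp [ModularGroup.T]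
      rw [h3] at h2
      simp only [zero_div, mul_zero, zero_mul, sub_zero] at h2
      rw [← h2, hA]
      simp only [Pi.add_apply, Pi.neg_apply, Pi.mul_apply]
      ring
    · rw [hD]
      have h1 := Derivative.normalizedDerivOfComplex_SL_slash (k := 2) hm (γ := ModularGroup.S)
      have h0 : (EisensteinSeries.E2 ∣[(2 : ℤ)] ModularGroup.S) =
          EisensteinSeries.E2 - (6 * Complex.I / Real.pi) • (fun z : ℍ => (z : ℂ)⁻¹) := by
        funext τ
        rw [ram_E2_S]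
        simp
      funext τ
      have h2 := congrFun h1 τ
      simp only [Pi.sub_apply] at h2
      have h3 : Derivative.normalizedDerivOfComplex (EisensteinSeries.E2 ∣[(2 : ℤ)]
          ModularGroup.S) τ = Derivative.normalizedDerivOfComplex EisensteinSeries.E2 τ -
            (6 * Complex.I / Real.pi) * (-(2 * Real.pi * Complex.I)⁻¹ * ((τ : ℂ)⁻¹) ^ 2) := by
        rw [h0, Derivative.normalizedDerivOfComplex_sub _ _ hm (ram_mdiff_inv.const_smul _),
          Derivative.normalizedDerivOfComplex_smul _ _ ram_mdiff_inv, Pi.sub_apply,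
          Pi.smul_apply, ram_D_inv, smul_eq_mul]
      have h4 : ((ModularGroup.S 1 0 : ℤ) : ℂ) = 1 := by simp [ModularGroup.S]
      have h5 : denom ModularGroup.S τ = (τ : ℂ) := ModularGroup.denom_S τ
      rw [h3, h4, h5, ram_E2_S] at h2
      have h6 : (Derivative.normalizedDerivOfComplex EisensteinSeries.E2 ∣[(2 : ℤ) + 2]
          ModularGroup.S) τ = Derivative.normalizedDerivOfComplex EisensteinSeries.E2 τ -
            (6 * Complex.I / Real.pi) * (-(2 * Real.pi * Complex.I)⁻¹ * ((τ : ℂ)⁻¹) ^ 2) +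
          ((2 : ℤ) : ℂ) * (2 * Real.pi * Complex.I)⁻¹ * (1 / (τ : ℂ)) *
            (EisensteinSeries.E2 τ - (6 * Complex.I / Real.pi) * (τ : ℂ)⁻¹) := by
        rw [h2]; ring
      rw [h6, ram_E2_S, hA]
      simp only [Pi.add_apply, Pi.neg_apply, Pi.mul_apply]
      have hpi : (Real.pi : ℂ) ≠ 0 := by exact_mod_cast Real.pi_ne_zero
      have hτ : (τ : ℂ) ≠ 0 := UpperHalfPlane.ne_zero τ
      have hI : Complex.I ≠ 0 := Complex.I_ne_zero
      have hI3 : Complex.I ^ 3 = -Complex.I := Complex.I_pow_three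
      field_simp
      ring_nf
      simp only [hI3, Complex.I_sq]
      ring
  have h4 : WM ((4 : ℕ) : ℤ) (A + e4) := hwm.add wm_e4
  have h5 := ram_zero hrep h4 (by norm_num) (by
    have e1 := ram_coeff0_theta P2
    have e2 := ram_P2_coeff0
    have e3 := ram_Q4_coeff0
    simp only [PowerSeries.coeff_zero_eq_constantCoeff] at e1 e2 e3
    simp only [PowerSeries.coeff_zero_eq_constantCoeff, map_add, map_mul, map_neg, e1, e2, e3,
      PowerSeries.constantCoeff_C]
    norm_num)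
  have h7 : (PowerSeries.C (12 : ℂ)) = 12 := by
    rw [map_ofNat]
  rw [h7] at h5
  linear_combination h5

end Pool.Agent.DEU
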