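import Pool.Agent.DEU.HasseAlg
import Pool.Agent.DEU.Ram

/-!
# DEU.HasseQ: the `q`-expansion of the Hasse invariant modulo `p` is `1 + O(q^p)`
-/

namespace Pool.Agent.DEU

open UpperHalfPlane ModularForm MatrixGroups

theorem wm_Hf {p : ℕ} [Fact p.Prime] (hp : 5 ≤ p) : WM (p - 1) (Hf p) := by
  have hodd : Odd p := (Fact.out : p.Prime).odd_of_ne_two (by omega)
  refine ⟨fun τ => ?_, fun τ => ?_⟩
  · unfold Hf
    rw [wm_e4.1, wm_e6.1]
  · unfold Hf
    have h1 : -e4 (ModularGroup.S • τ) / 48 = (τ : ℂ) ^ 4 * (-e4 τ / 48) := by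
      rw [wm_e4.2, show ((4 : ℤ)) = ((4 : ℕ) : ℤ) from rfl, zpow_natCast]
      ring
    have h2 : e6 (ModularGroup.S • τ) / 864 = (τ : ℂ) ^ 6 * (e6 τ / 864) := by
      rw [wm_e6.2, show ((6 : ℤ)) = ((6 : ℕ) : ℤ) from rfl, zpow_natCast]
      ring
    rw [h1, h2, Hp_scale hodd]
    congr 1
    rw [show ((p : ℤ) - 1) = ((p - 1 : ℕ) : ℤ) by push_cast [show 1 ≤ p by omega]; ring,
      zpow_natCast]

/-- Pairs of a function and its expansion. -/
private noncomputable def repRing : Subring (PowerSeries ℂ × (ℍ → ℂ)) where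
  carrier := {x | IsRep x.1 x.2}
  mul_mem' := fun ha hb => IsRep.mul ha hb
  one_mem' := isRep_one
  add_mem' := fun ha hb => IsRep.add ha hb
  zero_mem' := isRep_zero
  neg_mem' := fun ha => IsRep.neg ha

private lemma rep_Hp (p : ℕ) {F G : PowerSeries ℂ} {A B : ℍ → ℂ} (h : IsRep F A)
    (h' : IsRep G B) : IsRep (Hp p F G) (Hp p A B) := by
  have h1 := (Hp p (⟨(F, A), h⟩ : repRing) ⟨(G, B), h'⟩).2
  have h2 := Hp_map (p := p) ((RingHom.fst (PowerSeries ℂ) (ℍ → ℂ)).comp repRing.subtype)
    (⟨(F, A), h⟩ : repRing) ⟨(G, B), h'⟩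
  have h3 := Hp_map (p := p) ((RingHom.snd (PowerSeries ℂ) (ℍ → ℂ)).comp repRing.subtype)
    (⟨(F, A), h⟩ : repRing) ⟨(G, B), h'⟩
  simp only [RingHom.comp_apply, Subring.subtype_apply, RingHom.coe_fst, RingHom.coe_snd]
    at h2 h3
  rw [← h2, ← h3]
  exact h1

/-- Integral expansions. -/
private noncomputable def Q4z : PowerSeries ℤ :=
  PowerSeries.mk fun m => if m = 0 then 1 else 240 * (ArithmeticFunction.sigma 3 m : ℤ)

private noncomputable def Q6z : PowerSeries ℤ :=
  PowerSeries.mk fun m => if m = 0 then 1 else -504 * (ArithmeticFunction.sigma 5 m : ℤ)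

private noncomputable def P2z : PowerSeries ℤ :=
  PowerSeries.mk fun m => if m = 0 then 1 else -24 * (ArithmeticFunction.sigma 1 m : ℤ)

private lemma map_Q4z : PowerSeries.map (Int.castRingHom ℂ) Q4z = Q4 := by
  ext m
  rw [PowerSeries.coeff_map, Q4_coeff, Q4z, PowerSeries.coeff_mk]
  split_ifs <;> simp

private lemma map_Q6z : PowerSeries.map (Int.castRingHom ℂ) Q6z = Q6 := by
  ext m
  rw [PowerSeries.coeff_map, Q6_coeff, Q6z, PowerSeries.coeff_mk]
  split_ifs <;> simp

private lemma map_P2z : PowerSeries.map (Int.castRingHom ℂ) P2z = P2 := by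
  ext m
  rw [PowerSeries.coeff_map, P2, P2z, PowerSeries.coeff_mk, PowerSeries.coeff_mk]
  split_ifs <;> simp

/-- Derivations of a commutative ring. -/
private abbrev DerZ (S : Type*) [CommRing S] := Derivation ℤ S S

private def mkDer {S : Type*} [CommRing S] (D : S →+ S)
    (h : ∀ a b, D (a * b) = a * D b + b * D a) : DerZ S :=
  Derivation.mk' D.toIntLinearMap (fun a b => by
    change D (a * b) = a • D b + b • D a
    rw [h, smul_eq_mul, smul_eq_mul])

private lemma mkDer_apply {S : Type*} [CommRing S] (D : S →+ S)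
    (h : ∀ a b, D (a * b) = a * D b + b * D a) (x : S) : mkDer D h x = D x := rfl

/-- `q d/dq` as a derivation. -/
private noncomputable def thD (K : Type*) [CommRing K] : DerZ (PowerSeries K) :=
  mkDer
    { toFun := fun F => PowerSeries.X * PowerSeries.derivative K F
      map_zero' := by simp
      map_add' := fun F G => by simp [mul_add] } (by
    intro F G
    change PowerSeries.X * PowerSeries.derivative K (F * G) =
      F * (PowerSeries.X * PowerSeries.derivative K G) +
        G * (PowerSeries.X * PowerSeries.derivative K F)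
    rw [Derivation.leibniz]
    simp only [smul_eq_mul]
    ring)

private lemma thD_coeff {K : Type*} [CommRing K] (F : PowerSeries K) (m : ℕ) :
    (thD K F).coeff m = m * F.coeff m := by
  have h : thD K F = PowerSeries.X * PowerSeries.derivative K F := mkDer_apply _ _ _
  rw [h]
  cases m with
  | zero => simp
  | succ k =>
    rw [PowerSeries.coeff_succ_X_mul, PowerSeries.coeff_derivative]
    push_cast
    ring

private lemma thD_map {K L : Type*} [CommRing K] [CommRing L] (f : K →+* L)
    (F : PowerSeries K) : PowerSeries.map f (thD K F) = thD L (PowerSeries.map f F) := by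
  ext m
  rw [PowerSeries.coeff_map, thD_coeff, thD_coeff, PowerSeries.coeff_map]
  simp

private lemma thD_theta (F : PowerSeries ℂ) : theta F = thD ℂ F := by
  ext m
  rw [thD_coeff, theta, PowerSeries.coeff_mk]

private lemma injC : Function.Injective (PowerSeries.map (Int.castRingHom ℂ)) :=
  PowerSeries.map_injective _ (fun a b h => by simpa using h)

private lemma ram4z : 3 * thD ℤ Q4z = P2z * Q4z - Q6z := by
  apply injC
  have := ram4
  rw [thD_theta] at this
  rw [map_mul, map_ofNat, thD_map, map_sub, map_mul, map_Q4z, map_Q6z, map_P2z]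
  exact this

private lemma ram6z : 2 * thD ℤ Q6z = P2z * Q6z - Q4z ^ 2 := by
  apply injC
  have := ram6
  rw [thD_theta] at this
  rw [map_mul, map_ofNat, thD_map, map_sub, map_mul, map_pow, map_Q4z, map_Q6z, map_P2z]
  exact this

private lemma ram2z : 12 * thD ℤ P2z = P2z ^ 2 - Q4z := by
  apply injC
  have := ram2
  rw [thD_theta] at this
  rw [map_mul, map_ofNat, thD_map, map_sub, map_pow, map_Q4z, map_P2z]
  exact this

/-- The second derivative of the Hasse invariant vanishes, in any ring of characteristic `p`. -/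
private lemma theta_K {p : ℕ} [Fact p.Prime] (hp : 5 ≤ p) {K : Type*} [CommRing K] [CharP K p]
    (u v : K) (hu : u * 48 = 1) (hv : v * 864 = 1) :
    thD K (thD K (Hp p (-(PowerSeries.C u) * PowerSeries.map (Int.castRingHom K) Q4z)
      (PowerSeries.C v * PowerSeries.map (Int.castRingHom K) Q6z))) = 0 := by
  have : CharP (PowerSeries K) p :=
    charP_of_injective_ringHom (f := (PowerSeries.C : K →+* PowerSeries K))
      PowerSeries.C_injective p
  have hu' : PowerSeries.C u * 48 = (1 : PowerSeries K) := by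
    have := congrArg (PowerSeries.C : K →+* PowerSeries K) hu
    rwa [map_mul, map_ofNat, map_one] at this
  have hv' : PowerSeries.C v * 864 = (1 : PowerSeries K) := by
    have := congrArg (PowerSeries.C : K →+* PowerSeries K) hv
    rwa [map_mul, map_ofNat, map_one] at this
  have r4 := congrArg (PowerSeries.map (Int.castRingHom K)) ram4z
  have r6 := congrArg (PowerSeries.map (Int.castRingHom K)) ram6z
  have r2 := congrArg (PowerSeries.map (Int.castRingHom K)) ram2z
  simp only [map_mul, map_sub, map_pow, map_ofNat, thD_map] at r4 r6 r2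
  set A := PowerSeries.map (Int.castRingHom K) Q4z
  set B := PowerSeries.map (Int.castRingHom K) Q6z
  set E := PowerSeries.map (Int.castRingHom K) P2z
  have hcu : ∀ (w : K) (F : PowerSeries K), thD K (PowerSeries.C w * F) =
      PowerSeries.C w * thD K F := by
    intro w F
    ext m
    rw [thD_coeff, PowerSeries.coeff_C_mul, PowerSeries.coeff_C_mul, thD_coeff]
    ring
  have hneg : thD K (-(PowerSeries.C u) * A) = -(PowerSeries.C u) * thD K A := by
    rw [neg_mul, map_neg, hcu, neg_mul]
  refine theta_sq_zero hp (thD K) _ _ E ?_ ?_ ?_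
  · rw [hneg]
    linear_combination (-(PowerSeries.C u)) * r4 +
      (-(PowerSeries.C u) * B) * (hv' * 1) + 18 * PowerSeries.C v * B * hu'
  · rw [hcu]
    linear_combination 3 * PowerSeries.C v * r6 + A ^ 2 * (-8 * PowerSeries.C u ^ 2 * hv' +
      3 * PowerSeries.C v * (48 * PowerSeries.C u + 1) * hu')
  · linear_combination r2 + A * hu'

private lemma cc_map {K L : Type*} [CommRing K] [CommRing L] (f : K →+* L)
    (F : PowerSeries K) : PowerSeries.constantCoeff (PowerSeries.map f F) =
      f (PowerSeries.constantCoeff F) := by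
  rw [← PowerSeries.coeff_zero_eq_constantCoeff_apply, PowerSeries.coeff_map,
    PowerSeries.coeff_zero_eq_constantCoeff_apply]

private lemma cc_Q4z : PowerSeries.constantCoeff Q4z = 1 := by
  rw [← PowerSeries.coeff_zero_eq_constantCoeff_apply, Q4z, PowerSeries.coeff_mk]
  simp

private lemma cc_Q6z : PowerSeries.constantCoeff Q6z = 1 := by
  rw [← PowerSeries.coeff_zero_eq_constantCoeff_apply, Q6z, PowerSeries.coeff_mk]
  simp

/-- The Hasse invariant over `Zp p`. -/
private lemma hasse_aux {p : ℕ} [Fact p.Prime] (hp : 5 ≤ p) :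
    ∃ F : PowerSeries (Zp p), IsRep (PowerSeries.map (Zp p).subtype F) (Hf p) ∧
      (∃ c : Zp p, F.coeff 0 = 1 + p * c) ∧
      ∀ m, 0 < m → m < p → ∃ c : Zp p, F.coeff m = p * c := by
  have hpp : p.Prime := Fact.out
  have h48 : ¬ (p : ℤ) ∣ 48 := by
    intro h
    have h1 : p ∣ 48 := by exact_mod_cast h
    have h2 : p ∣ 2 ^ 4 * 3 := by simpa using h1
    rcases hpp.dvd_mul.mp h2 with h3 | h3
    · have := Nat.le_of_dvd (by norm_num) (hpp.dvd_of_dvd_pow h3); omega
    · have := Nat.le_of_dvd (by norm_num) h3; omega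
  have h864 : ¬ (p : ℤ) ∣ 864 := by
    intro h
    have h1 : p ∣ 864 := by exact_mod_cast h
    have h2 : p ∣ 2 ^ 5 * 3 ^ 3 := by simpa using h1
    rcases hpp.dvd_mul.mp h2 with h3 | h3
    · have := Nat.le_of_dvd (by norm_num) (hpp.dvd_of_dvd_pow h3); omega
    · have := Nat.le_of_dvd (by norm_num) (hpp.dvd_of_dvd_pow h3); omega
  let u : Zp p := ⟨(48 : ℂ)⁻¹, by simpa using inv_mem_Zp h48⟩
  let v : Zp p := ⟨(864 : ℂ)⁻¹, by simpa using inv_mem_Zp h864⟩
  have hu : u * 48 = 1 := by
    apply Subtype.ext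
    change (48 : ℂ)⁻¹ * 48 = 1
    norm_num
  have hv : v * 864 = 1 := by
    apply Subtype.ext
    change (864 : ℂ)⁻¹ * 864 = 1
    norm_num
  let aZ : PowerSeries (Zp p) := -(PowerSeries.C u) * PowerSeries.map (Int.castRingHom (Zp p)) Q4z
  let bZ : PowerSeries (Zp p) := PowerSeries.C v * PowerSeries.map (Int.castRingHom (Zp p)) Q6z
  refine ⟨Hp p aZ bZ, ?_, ?_⟩
  · rw [Hp_map]
    have e1 : PowerSeries.map (Zp p).subtype aZ = PowerSeries.C (-(48 : ℂ)⁻¹) * Q4 := by
      ext m
      rw [← map_Q4z]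
      simp only [aZ, neg_mul, map_neg, map_mul, PowerSeries.coeff_C_mul, PowerSeries.coeff_map,
        PowerSeries.map_C]
      simp [u]
    have e2 : PowerSeries.map (Zp p).subtype bZ = PowerSeries.C ((864 : ℂ)⁻¹) * Q6 := by
      ext m
      rw [← map_Q6z]
      simp only [bZ, map_mul, PowerSeries.coeff_C_mul, PowerSeries.coeff_map,
        PowerSeries.map_C]
      simp [v]
    rw [e1, e2]
    have h1 := rep_Hp p ((isRep_const (-(48 : ℂ)⁻¹)).mul rep_Q4)
      ((isRep_const ((864 : ℂ)⁻¹)).mul rep_Q6)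
    have h2 : Hp p ((fun _ : ℍ => -(48 : ℂ)⁻¹) * e4) ((fun _ : ℍ => (864 : ℂ)⁻¹) * e6) = Hf p := by
      funext τ
      have := Hp_map (p := p) (Pi.evalRingHom (fun _ : ℍ => ℂ) τ)
        ((fun _ : ℍ => -(48 : ℂ)⁻¹) * e4) ((fun _ : ℍ => (864 : ℂ)⁻¹) * e6)
      rw [Pi.evalRingHom_apply] at this
      rw [this, Hf]
      congr 1
      · simp only [Pi.evalRingHom_apply, Pi.mul_apply]
        ring
      · simp only [Pi.evalRingHom_apply, Pi.mul_apply]
        ring
    rw [h2] at h1
    exact h1
  · -- reduction modulo `p`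
    let I : Ideal (Zp p) := Ideal.span {(p : Zp p)}
    let π : Zp p →+* (Zp p ⧸ I) := Ideal.Quotient.mk I
    have hmem : ∀ x : Zp p, π x = 0 ↔ ∃ c : Zp p, x = p * c := by
      intro x
      rw [Ideal.Quotient.eq_zero_iff_mem, Ideal.mem_span_singleton]
      rfl
    have hchar : CharP (Zp p ⧸ I) p := by
      refine ⟨fun n => ?_⟩
      rw [← map_natCast π, hmem]
      constructor
      · rintro ⟨⟨c, a, b, hb, hc⟩, h⟩
        have h1 := congrArg Subtype.val h
        have h2 : (n : ℂ) = p * c := by simpa using h1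
        have h3 : (n : ℂ) * b = p * a := by rw [h2, ← hc]; ring
        have h4 : (n : ℤ) * b = p * a := by exact_mod_cast h3
        have h5 : (p : ℤ) ∣ n * b := ⟨a, h4⟩
        rcases (Nat.prime_iff_prime_int.mp hpp).dvd_or_dvd h5 with h6 | h6
        · exact_mod_cast h6
        · exact absurd h6 hb
      · rintro ⟨k, rfl⟩
        exact ⟨k, by push_cast; ring⟩
    have hθ := theta_K hp (π u) (π v) (by rw [← map_ofNat π 48, ← map_mul, hu, map_one])
      (by rw [← map_ofNat π 864, ← map_mul, hv, map_one])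
    have hπ : PowerSeries.map π (Hp p aZ bZ) = Hp p (-(PowerSeries.C (π u)) *
        PowerSeries.map (Int.castRingHom (Zp p ⧸ I)) Q4z)
      (PowerSeries.C (π v) * PowerSeries.map (Int.castRingHom (Zp p ⧸ I)) Q6z) := by
      rw [Hp_map]
      congr 1
      · ext m
        simp only [aZ, neg_mul, map_neg, map_mul, PowerSeries.coeff_C_mul, PowerSeries.coeff_map,
          PowerSeries.map_C]
        simp
      · ext m
        simp only [bZ, map_mul, PowerSeries.coeff_C_mul, PowerSeries.coeff_map,
          PowerSeries.map_C]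
        simp
    rw [← hπ] at hθ
    constructor
    · have h0 : π ((Hp p aZ bZ).coeff 0) = 1 := by
        have h1 : π ((Hp p aZ bZ).coeff 0) =
            (PowerSeries.constantCoeff (R := Zp p ⧸ I)) (PowerSeries.map π (Hp p aZ bZ)) := by
          rw [cc_map, PowerSeries.coeff_zero_eq_constantCoeff_apply]
        rw [h1, hπ, Hp_map]
        have h2 := congrArg (ZMod.castHom (dvd_refl p) (Zp p ⧸ I)) (Hp_cusp hp)
        rw [Hp_map, map_one] at h2
        rw [← h2]
        have key : ∀ (x : Zp p) (n : ℕ) (hn : ¬ p ∣ n), x * n = 1 →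
            π x = ZMod.castHom (dvd_refl p) (Zp p ⧸ I) ((n : ZMod p)⁻¹) := by
          intro x n hn hx
          have hn0 : (n : ZMod p) ≠ 0 := fun h => hn ((ZMod.natCast_eq_zero_iff n p).mp h)
          have e1 : ZMod.castHom (dvd_refl p) (Zp p ⧸ I) ((n : ZMod p)⁻¹) * n = 1 := by
            rw [← map_natCast (ZMod.castHom (dvd_refl p) (Zp p ⧸ I)) n, ← map_mul,
              inv_mul_cancel₀ hn0, map_one]
          have e2 : π x * n = 1 := by
            rw [← map_natCast π n, ← map_mul, hx, map_one]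
          calc π x = π x * (n * ZMod.castHom (dvd_refl p) (Zp p ⧸ I) ((n : ZMod p)⁻¹)) := by
                rw [mul_comm (n : Zp p ⧸ I), e1, mul_one]
            _ = (π x * n) * ZMod.castHom (dvd_refl p) (Zp p ⧸ I) ((n : ZMod p)⁻¹) := by ring
            _ = _ := by rw [e2, one_mul]
        have k1 := key u 48 (by exact_mod_cast h48) (by exact_mod_cast hu)
        have k2 := key v 864 (by exact_mod_cast h864) (by exact_mod_cast hv)
        congr 1
        · rw [map_mul, map_neg, PowerSeries.constantCoeff_C, k1, cc_map, cc_Q4z, map_one,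
            mul_one, map_neg]
          norm_num
        · rw [map_mul, PowerSeries.constantCoeff_C, k2, cc_map, cc_Q6z, map_one, mul_one]
          norm_num
      have h1 : π ((Hp p aZ bZ).coeff 0 - 1) = 0 := by rw [map_sub, h0, map_one, sub_self]
      obtain ⟨c, hc⟩ := (hmem _).mp h1
      exact ⟨c, by rw [← hc]; ring⟩
    · intro m hm0 hmp
      rw [← hmem]
      have h1 := congrArg (PowerSeries.coeff m) hθ
      rw [thD_coeff, thD_coeff, PowerSeries.coeff_map, map_zero, ← mul_assoc] at h1
      have hunit : IsUnit (m : Zp p ⧸ I) := by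
        have hm1 : (m : ZMod p) ≠ 0 := by
          intro h
          exact absurd (Nat.le_of_dvd hm0 ((ZMod.natCast_eq_zero_iff m p).mp h)) (by omega)
        have h3 := (isUnit_iff_ne_zero.mpr hm1).map (ZMod.castHom (dvd_refl p) (Zp p ⧸ I))
        rwa [map_natCast] at h3
      exact (hunit.mul hunit).mul_right_eq_zero.mp h1

theorem hasse_rep {p : ℕ} [Fact p.Prime] (hp : 5 ≤ p) :
    ∃ F : PowerSeries ℂ, IsRep F (Hf p) ∧ (∀ m, F.coeff m ∈ Zp p) ∧
      (∃ c ∈ Zp p, F.coeff 0 = 1 + p * c) ∧
      ∀ m, 0 < m → m < p → ∃ c ∈ Zp p, F.coeff m = p * c := by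
  obtain ⟨F, h1, ⟨c, hc⟩, h3⟩ := hasse_aux hp
  refine ⟨PowerSeries.map (Zp p).subtype F, h1, fun m => ?_, ⟨c, c.2, ?_⟩, fun m hm hmp => ?_⟩
  · rw [PowerSeries.coeff_map]
    exact (F.coeff m).2
  · rw [PowerSeries.coeff_map, hc]
    simp
  · obtain ⟨d, hd⟩ := h3 m hm hmp
    refine ⟨d, d.2, ?_⟩
    rw [PowerSeries.coeff_map, hd]
    simp

end Pool.Agent.DEU
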