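import Pool.Agent.DEU.Rep

/-!
# DEU.Nbr: symmetric functions of the neighbours are modular
-/

namespace Pool.Agent.DEU

open UpperHalfPlane ModularForm MatrixGroups Polynomial

/-- The permutation of the sublattices induced by `τ ↦ τ + 1`. -/
def nbr_T (p : ℕ) [Fact p.Prime] : Equiv.Perm (Option (ZMod p)) :=
  Equiv.optionCongr (Equiv.addRight (1 : ZMod p))

/-- The permutation of the sublattices induced by `τ ↦ -1/τ`, as a function. -/
def nbr_Sf (p : ℕ) [Fact p.Prime] : Option (ZMod p) → Option (ZMod p)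
  | none => some 0
  | some k => if k = 0 then none else some (-k⁻¹)

theorem nbr_Sf_invol (p : ℕ) [Fact p.Prime] : Function.Involutive (nbr_Sf p) := by
  rintro (_ | k)
  · simp [nbr_Sf]
  · by_cases hk : k = 0
    · subst hk
      simp [nbr_Sf]
    · have h1 : (-k⁻¹ : ZMod p) ≠ 0 := neg_ne_zero.2 (inv_ne_zero hk)
      simp only [nbr_Sf, if_neg hk, if_neg h1]
      congr 1
      rw [inv_neg, neg_neg, inv_inv]

/-- The permutation of the sublattices induced by `τ ↦ -1/τ`. -/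
def nbr_S (p : ℕ) [Fact p.Prime] : Equiv.Perm (Option (ZMod p)) :=
  (nbr_Sf_invol p).toPerm

theorem nbr_per_nat {w : ℤ} {A : ℍ → ℂ} (hA : WM w A) (n : ℕ) (τ : ℍ) :
    A (((n : ℝ)) +ᵥ τ) = A τ := by
  induction n with
  | zero =>
    congr 1
    ext
    simp
  | succ n ih =>
    rw [← ih, ← hA.1 (((n : ℝ)) +ᵥ τ)]
    congr 1
    apply UpperHalfPlane.ext
    rw [UpperHalfPlane.coe_vadd, UpperHalfPlane.coe_vadd, UpperHalfPlane.coe_vadd]
    push_cast
    ring

theorem nbr_shift {w : ℤ} {A : ℍ → ℂ} (hA : WM w A) (n : ℕ) {τ τ' : ℍ}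
    (h : (τ' : ℂ) = (τ : ℂ) + n) : A τ' = A τ := by
  rw [← nbr_per_nat hA n τ]
  congr 1
  apply UpperHalfPlane.ext
  rw [UpperHalfPlane.coe_vadd, h]
  push_cast
  ring

theorem nbr_vadd_T {p : ℕ} [hp : Fact p.Prime] {w : ℤ} {A : ℍ → ℂ} (hA : WM w A)
    (i : Option (ZMod p)) (τ : ℍ) :
    nb p w A i ((1 : ℝ) +ᵥ τ) = nb p w A (nbr_T p i) τ := by
  have hp0 : (p : ℂ) ≠ 0 := by exact_mod_cast hp.out.ne_zero
  rcases i with _ | k
  · change A (tp p ((1 : ℝ) +ᵥ τ)) = A (tp p τ)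
    refine nbr_shift hA p ?_
    rw [coe_tp, coe_tp, UpperHalfPlane.coe_vadd]
    push_cast
    ring
  · change (p : ℂ) ^ (-w) * A (tk p k.val ((1 : ℝ) +ᵥ τ))
      = (p : ℂ) ^ (-w) * A (tk p (k + 1).val τ)
    congr 1
    have hv : (k + 1).val = k.val + 1 ∨ (k.val + 1 = p ∧ (k + 1).val = 0) := by
      rcases lt_or_ge (k.val + 1) p with h | h
      · left
        have h1 : ((1 : ZMod p)).val = 1 := by
          have : Fact (1 < p) := ⟨hp.out.one_lt⟩
          exact ZMod.val_one p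
        rw [ZMod.val_add_of_lt (by rw [h1]; exact h), h1]
      · right
        have h2 : k.val < p := ZMod.val_lt k
        have h3 : k.val + 1 = p := by omega
        refine ⟨h3, ?_⟩
        have h4 : (k + 1 : ZMod p) = 0 := by
          have : ((k.val + 1 : ℕ) : ZMod p) = 0 := by rw [h3]; exact ZMod.natCast_self p
          push_cast at this
          rw [ZMod.natCast_zmod_val] at this
          exact this
        rw [h4, ZMod.val_zero]
    rcases hv with h | ⟨h1, h2⟩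
    · refine nbr_shift hA 0 ?_
      rw [coe_tk, coe_tk, UpperHalfPlane.coe_vadd, h]
      push_cast
      ring
    · refine nbr_shift hA 1 ?_
      rw [coe_tk, coe_tk, UpperHalfPlane.coe_vadd, h2]
      have h3 : (k.val : ℂ) = (p : ℂ) - 1 := by
        rw [eq_sub_iff_add_eq]
        exact_mod_cast h1
      rw [h3]
      push_cast
      field_simp
      ring

theorem nbr_smul_S {p : ℕ} [hp : Fact p.Prime] {w : ℤ} {A : ℍ → ℂ} (hA : WM w A)
    (i : Option (ZMod p)) (τ : ℍ) :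
    nb p w A i (ModularGroup.S • τ) = (τ : ℂ) ^ w * nb p w A (nbr_S p i) τ := by
  have hp0 : (p : ℂ) ≠ 0 := by exact_mod_cast hp.out.ne_zero
  have hτ : (τ : ℂ) ≠ 0 := τ.ne_zero
  have hS : ∀ z : ℍ, ((ModularGroup.S • z : ℍ) : ℂ) = -1 / (z : ℂ) := by
    intro z
    rw [UpperHalfPlane.modular_S_smul]
    change (-(z : ℂ))⁻¹ = _
    rw [inv_neg, neg_div, one_div]
  rcases i with _ | k
  · change A (tp p (ModularGroup.S • τ)) = (τ : ℂ) ^ w * ((p : ℂ) ^ (-w) * A (tk p (0 : ZMod p).val τ))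
    have h1 : tp p (ModularGroup.S • τ) = ModularGroup.S • (tk p (0 : ZMod p).val τ) := by
      apply UpperHalfPlane.ext
      rw [coe_tp, hS, hS, coe_tk, ZMod.val_zero]
      have : ((τ : ℂ) + ((0 : ℕ) : ℂ)) ≠ 0 := by simpa using hτ
      push_cast at this ⊢
      rw [add_zero] at this ⊢
      field_simp
    rw [h1, hA.2, coe_tk, ZMod.val_zero]
    push_cast
    rw [add_zero, div_zpow, zpow_neg]
    field_simp
  · by_cases hk : k = 0
    · subst hk
      have hn : nbr_S p (some 0) = none := by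
        change nbr_Sf p (some 0) = none
        simp [nbr_Sf]
      rw [hn]
      change (p : ℂ) ^ (-w) * A (tk p (0 : ZMod p).val (ModularGroup.S • τ)) = (τ : ℂ) ^ w * A (tp p τ)
      have h1 : tk p (0 : ZMod p).val (ModularGroup.S • τ) = ModularGroup.S • (tp p τ) := by
        apply UpperHalfPlane.ext
        rw [coe_tk, hS, hS, coe_tp, ZMod.val_zero]
        push_cast
        rw [add_zero]
        field_simp
      rw [h1, hA.2, coe_tp, mul_zpow, zpow_neg]
      have : (p : ℂ) ^ w ≠ 0 := zpow_ne_zero _ hp0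
      field_simp
    · have hn : nbr_S p (some k) = some (-k⁻¹) := by
        change nbr_Sf p (some k) = some (-k⁻¹)
        simp [nbr_Sf, hk]
      rw [hn]
      change (p : ℂ) ^ (-w) * A (tk p k.val (ModularGroup.S • τ))
        = (τ : ℂ) ^ w * ((p : ℂ) ^ (-w) * A (tk p (-k⁻¹ : ZMod p).val τ))
      set k' : ZMod p := -k⁻¹ with hk'
      have hkk : k * k' = -1 := by
        rw [hk', mul_neg, mul_inv_cancel₀ hk]
      have hdvd : (p : ℤ) ∣ (k.val : ℤ) * (k'.val : ℤ) + 1 := by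
        rw [← ZMod.intCast_zmod_eq_zero_iff_dvd] 
        push_cast
        rw [ZMod.natCast_zmod_val, ZMod.natCast_zmod_val, hkk]
        ring
      obtain ⟨c, hc⟩ := hdvd
      let g : SL(2, ℤ) := ⟨!![(k.val : ℤ), -c; (p : ℤ), -(k'.val : ℤ)], by
        rw [Matrix.det_fin_two_of]
        linarith⟩
      have hcC : ((k.val : ℕ) : ℂ) * ((k'.val : ℕ) : ℂ) + 1 = (p : ℂ) * (c : ℂ) := by
        exact_mod_cast hc
      have hden : (((g 1 0 : ℤ) : ℂ) * (tk p k'.val τ : ℂ) + ((g 1 1 : ℤ) : ℂ)) = (τ : ℂ) := by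
        change (((p : ℤ) : ℂ) * (tk p k'.val τ : ℂ) + ((-(k'.val : ℤ) : ℤ) : ℂ)) = (τ : ℂ)
        rw [coe_tk]
        push_cast
        field_simp
        ring
      have hpt : tk p k.val (ModularGroup.S • τ) = g • (tk p k'.val τ) := by
        apply UpperHalfPlane.ext
        rw [UpperHalfPlane.specialLinearGroup_apply g (tk p k'.val τ)]
        change _ = ((((g 0 0 : ℤ) : ℝ) : ℂ) * (tk p k'.val τ : ℂ) + (((g 0 1 : ℤ) : ℝ) : ℂ)) /
          ((((g 1 0 : ℤ) : ℝ) : ℂ) * (tk p k'.val τ : ℂ) + (((g 1 1 : ℤ) : ℝ) : ℂ))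
        have e1 : ((((g 1 0 : ℤ) : ℝ) : ℂ) * (tk p k'.val τ : ℂ) + (((g 1 1 : ℤ) : ℝ) : ℂ))
            = (τ : ℂ) := by
          rw [← hden]
          push_cast
          rfl
        rw [e1]
        change _ = (((((k.val : ℤ)) : ℝ) : ℂ) * (tk p k'.val τ : ℂ) + ((((-c : ℤ)) : ℝ) : ℂ)) / (τ : ℂ)
        rw [coe_tk, hS, coe_tk]
        push_cast
        have hc2 : (c : ℂ) = (((k.val : ℕ) : ℂ) * ((k'.val : ℕ) : ℂ) + 1) / p := by
          rw [hcC]; field_simp
        rw [hc2]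
        field_simp
        ring
      rw [hpt, hA.smul g (tk p k'.val τ), hden]
      ring

theorem wm_prod {p : ℕ} [Fact p.Prime] {φ ψ x y : ℍ → ℂ} {a b u v : ℤ} (hφ : WM u φ)
    (hψ : WM v ψ) (hx : WM a x) (hy : WM b y) (h : a + u = b + v) :
    WM ((a + u) * (p + 1)) (fun τ => ∏ i : Option (ZMod p),
      (x τ * nb p u φ i τ - y τ * nb p v ψ i τ)) := by
  constructor
  · intro τ
    change ∏ i : Option (ZMod p), (x ((1 : ℝ) +ᵥ τ) * nb p u φ i ((1 : ℝ) +ᵥ τ)
      - y ((1 : ℝ) +ᵥ τ) * nb p v ψ i ((1 : ℝ) +ᵥ τ)) = _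
    rw [hx.1, hy.1]
    simp_rw [nbr_vadd_T hφ, nbr_vadd_T hψ]
    exact Equiv.prod_comp (nbr_T p) (fun i => x τ * nb p u φ i τ - y τ * nb p v ψ i τ)
  · intro τ
    have hτ : (τ : ℂ) ≠ 0 := τ.ne_zero
    change ∏ i : Option (ZMod p), (x (ModularGroup.S • τ) * nb p u φ i (ModularGroup.S • τ)
      - y (ModularGroup.S • τ) * nb p v ψ i (ModularGroup.S • τ)) = _
    rw [hx.2, hy.2]
    simp_rw [nbr_smul_S hφ, nbr_smul_S hψ]
    have h1 : ∀ i : Option (ZMod p), (τ : ℂ) ^ a * x τ * ((τ : ℂ) ^ u * nb p u φ (nbr_S p i) τ)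
        - (τ : ℂ) ^ b * y τ * ((τ : ℂ) ^ v * nb p v ψ (nbr_S p i) τ)
        = (τ : ℂ) ^ (a + u) * (x τ * nb p u φ (nbr_S p i) τ - y τ * nb p v ψ (nbr_S p i) τ) := by
      intro i
      have e1 : (τ : ℂ) ^ (a + u) = (τ : ℂ) ^ a * (τ : ℂ) ^ u := zpow_add₀ hτ _ _
      have e2 : (τ : ℂ) ^ (a + u) = (τ : ℂ) ^ b * (τ : ℂ) ^ v := by rw [h, zpow_add₀ hτ]
      rw [mul_sub]
      nth_rw 1 [e1]
      rw [e2]
      ring
    simp_rw [h1]
    rw [Finset.prod_mul_distrib, Finset.prod_const, Finset.card_univ, Fintype.card_option,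
      ZMod.card, Equiv.prod_comp (nbr_S p) (fun i => x τ * nb p u φ i τ - y τ * nb p v ψ i τ)]
    congr 1
    rw [zpow_mul, ← zpow_natCast]
    push_cast
    rfl

theorem nbr_coeff_scale {ι : Type*} (S : Finset ι) (f g : ι → ℂ) {a b : ℂ} (hb : b ≠ 0) (s : ℕ)
    (hs : s ≤ S.card) :
    (∏ i ∈ S, (X * C (a * f i) - C (b * g i)) : ℂ[X]).coeff s
      = a ^ s * b ^ (S.card - s) * (∏ i ∈ S, (X * C (f i) - C (g i)) : ℂ[X]).coeff s := by
  have h1 : (∏ i ∈ S, (X * C (a * f i) - C (b * g i)) : ℂ[X])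
      = C (b ^ S.card) * (∏ i ∈ S, (X * C (f i) - C (g i)) : ℂ[X]).comp (C (a / b) * X) := by
    rw [Polynomial.prod_comp, map_pow, ← Finset.prod_const, ← Finset.prod_mul_distrib]
    refine Finset.prod_congr rfl fun i _ => ?_
    rw [sub_comp, mul_comp, X_comp, C_comp, C_comp, mul_sub]
    congr 1
    · have : C (a * f i) = C b * C (a / b) * C (f i) := by
        rw [← C_mul, ← C_mul]
        congr 1
        field_simp
      rw [this]
      ring
    · rw [← C_mul]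
  rw [h1, coeff_C_mul, comp_C_mul_X_coeff, div_pow]
  have h2 : b ^ S.card = b ^ (S.card - s) * b ^ s := by
    rw [← pow_add]
    congr 1
    omega
  rw [h2]
  field_simp

theorem wm_coeff {p : ℕ} [Fact p.Prime] {φ ψ : ℍ → ℂ} {u v : ℤ} (hφ : WM u φ) (hψ : WM v ψ)
    (s : ℕ) (hs : s ≤ p + 1) :
    WM (u * s + v * (p + 1 - s)) (fun τ => (∏ i : Option (ZMod p),
      (X * C (nb p u φ i τ) - C (nb p v ψ i τ)) : ℂ[X]).coeff s) := by
  constructor
  · intro τ
    change (∏ i : Option (ZMod p), (X * C (nb p u φ i ((1 : ℝ) +ᵥ τ))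
      - C (nb p v ψ i ((1 : ℝ) +ᵥ τ))) : ℂ[X]).coeff s = _
    simp_rw [nbr_vadd_T hφ, nbr_vadd_T hψ]
    rw [Equiv.prod_comp (nbr_T p) (fun i => (X * C (nb p u φ i τ) - C (nb p v ψ i τ) : ℂ[X]))]
  · intro τ
    have hτ : (τ : ℂ) ≠ 0 := τ.ne_zero
    change (∏ i : Option (ZMod p), (X * C (nb p u φ i (ModularGroup.S • τ))
      - C (nb p v ψ i (ModularGroup.S • τ))) : ℂ[X]).coeff s = _
    simp_rw [nbr_smul_S hφ, nbr_smul_S hψ]
    have hcard : (Finset.univ : Finset (Option (ZMod p))).card = p + 1 := by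
      rw [Finset.card_univ, Fintype.card_option, ZMod.card]
    rw [nbr_coeff_scale Finset.univ (fun i => nb p u φ (nbr_S p i) τ)
      (fun i => nb p v ψ (nbr_S p i) τ) (zpow_ne_zero _ hτ) s (by rw [hcard]; exact hs), hcard,
      Equiv.prod_comp (nbr_S p) (fun i => (X * C (nb p u φ i τ) - C (nb p v ψ i τ) : ℂ[X]))]
    congr 1
    rw [zpow_add₀ hτ, zpow_mul, zpow_mul, zpow_natCast]
    congr 1
    have : ((p : ℤ) + 1 - s) = ((p + 1 - s : ℕ) : ℤ) := by
      push_cast [Nat.cast_sub hs]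
      ring
    rw [this, zpow_natCast]

end Pool.Agent.DEU
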