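import Pool.Agent.DEU.Rep

/-!
# DEU.Norm: norms from `q^{1/p}` to `q`
-/

namespace Pool.Agent.DEU

open UpperHalfPlane ModularForm MatrixGroups Polynomial

/-! ### The norm form -/

section general

/-- The norm form, as a resultant with `X ^ p - q`. -/
noncomputable def norm_N {R : Type*} [CommRing R] (p : ℕ) (q : R) (g : R[X]) : R :=
  resultant (X ^ p - C q) g p (p - 1)

theorem norm_N_map {R S : Type*} [CommRing R] [CommRing S] (φ : R →+* S) (p : ℕ) (q : R)
    (g : R[X]) : norm_N p (φ q) (g.map φ) = φ (norm_N p q g) := by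
  unfold norm_N
  rw [← resultant_map_map, Polynomial.map_sub, Polynomial.map_pow, map_X, map_C]

theorem norm_N_prod {R : Type*} [CommRing R] {p : ℕ} {ι : Type*} [Fintype ι]
    (hι : Fintype.card ι = p) (q : R) (r : ι → R)
    (h : X ^ p - C q = ∏ k, (X - C (r k))) (g : R[X]) (hg : g.natDegree ≤ p - 1) :
    norm_N p q g = ∏ k, g.eval (r k) := by
  nontriviality R
  have h1 := resultant_prod_left Finset.univ (fun k => X - C (r k)) g (p - 1)
    (by simp) hg
  have h2 : (∏ k, (X - C (r k))).natDegree = p := by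
    rw [natDegree_prod_of_monic _ _ fun k _ => monic_X_sub_C _]
    simp [hι]
  unfold norm_N
  rw [h2] at h1
  rw [h, h1]
  refine Finset.prod_congr rfl fun k _ => ?_
  have h3 := resultant_X_sub_C_pow_left (r k) g 1 (p - 1) hg
  rw [pow_one, pow_one] at h3
  rw [natDegree_X_sub_C]
  exact h3

theorem norm_N_pow {R : Type*} [CommRing R] {p : ℕ} (q x : R)
    (h : X ^ p - C q = (X - C x) ^ p) (g : R[X]) (hg : g.natDegree ≤ p - 1) :
    norm_N p q g = g.eval x ^ p := by
  unfold norm_N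
  rw [h]
  exact resultant_X_sub_C_pow_left x g p (p - 1) hg

theorem norm_deg {R : Type*} [CommRing R] (p : ℕ) [Fact p.Prime] (a : ZMod p → R) :
    (∑ r : ZMod p, C (a r) * X ^ r.val : R[X]).natDegree ≤ p - 1 := by
  refine natDegree_sum_le_of_forall_le _ _ fun r _ => ?_
  refine (natDegree_C_mul_X_pow_le _ _).trans ?_
  have := r.val_lt
  omega

theorem norm_univ_p (p : ℕ) [hp : Fact p.Prime] :
    norm_N p (MvPolynomial.X none : MvPolynomial (Option (ZMod p)) (ZMod p))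
      (∑ r : ZMod p, C (MvPolynomial.X (some r)) * X ^ r.val) =
    ∑ r : ZMod p, MvPolynomial.X (some r) ^ p * MvPolynomial.X none ^ r.val := by
  apply frobenius_inj (MvPolynomial (Option (ZMod p)) (ZMod p)) p
  rw [frobenius_def, frobenius_def, ← MvPolynomial.expand_zmod]
  set ex : MvPolynomial (Option (ZMod p)) (ZMod p) →+*
    MvPolynomial (Option (ZMod p)) (ZMod p) := (MvPolynomial.expand p).toRingHom with hex
  have hexX : ∀ o, ex (MvPolynomial.X o) = MvPolynomial.X o ^ p := fun o => by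
    rw [hex]
    exact MvPolynomial.expand_X p o
  have h1 := norm_N_map ex p
    (MvPolynomial.X none : MvPolynomial (Option (ZMod p)) (ZMod p))
    (∑ r : ZMod p, C (MvPolynomial.X (some r)) * X ^ r.val)
  have h3 : ∀ z, MvPolynomial.expand p z = ex z := fun z => rfl
  rw [h3, ← h1]
  have h2 : (∑ r : ZMod p, C (MvPolynomial.X (some r)) * X ^ r.val :
      (MvPolynomial (Option (ZMod p)) (ZMod p))[X]).map ex =
      ∑ r : ZMod p, C (MvPolynomial.X (some r) ^ p) * X ^ r.val := by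
    rw [Polynomial.map_sum]
    refine Finset.sum_congr rfl fun r _ => ?_
    rw [Polynomial.map_mul, map_C, Polynomial.map_pow, map_X, hexX]
  rw [h2, hexX]
  rw [norm_N_pow _ (MvPolynomial.X none) _ _ (norm_deg p _)]
  · congr 1
    simp [eval_finsetSum]
  · rw [sub_pow_char, map_pow]

theorem norm_univ (p : ℕ) [hp : Fact p.Prime] :
    ∃ W : MvPolynomial (Option (ZMod p)) ℤ,
      norm_N p (MvPolynomial.X none : MvPolynomial (Option (ZMod p)) ℤ)
      (∑ r : ZMod p, C (MvPolynomial.X (some r)) * X ^ r.val) =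
    ∑ r : ZMod p, MvPolynomial.X (some r) ^ p * MvPolynomial.X none ^ r.val +
      MvPolynomial.C (p : ℤ) * W := by
  have h : MvPolynomial.C (p : ℤ) ∣
      norm_N p (MvPolynomial.X none : MvPolynomial (Option (ZMod p)) ℤ)
      (∑ r : ZMod p, C (MvPolynomial.X (some r)) * X ^ r.val) -
    ∑ r : ZMod p, MvPolynomial.X (some r) ^ p * MvPolynomial.X none ^ r.val := by
    rw [MvPolynomial.C_dvd_iff_zmod, map_sub, ← norm_N_map, sub_eq_zero]
    have h1 := norm_univ_p p
    simpa [Polynomial.map_sum] using h1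
  obtain ⟨W, hW⟩ := h
  exact ⟨W, by rw [← hW]; ring⟩

theorem norm_frob {S : Type*} [CommRing S] (p : ℕ) [Fact p.Prime] (q : S) (a : ZMod p → S) :
    ∃ W : S, norm_N p q (∑ r : ZMod p, C (a r) * X ^ r.val) =
      ∑ r : ZMod p, a r ^ p * q ^ r.val + p * W := by
  obtain ⟨W, hW⟩ := norm_univ p
  set φ : MvPolynomial (Option (ZMod p)) ℤ →+* S :=
    MvPolynomial.eval₂Hom (Int.castRingHom S) (fun o => o.elim q a) with hφ
  have h1 := congrArg φ hW
  rw [← norm_N_map] at h1
  refine ⟨φ W, ?_⟩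
  simpa [hφ, Polynomial.map_sum] using h1

end general

/-! ### The Frobenius congruence for `q`-expansions -/

section frobenius

variable {p : ℕ} [hp : Fact p.Prime]

theorem norm_intmem (n : ℤ) : (n : ℂ) ∈ Zp p :=
  ⟨n, 1, fun h => (Nat.prime_iff_prime_int.mp (Fact.out : p.Prime)).not_isUnit
    (isUnit_of_dvd_one h), by simp⟩

/-- The quotient of `Zp p` by `p`. -/
abbrev norm_Q (p : ℕ) [Fact p.Prime] : Type := Zp p ⧸ Ideal.span {(p : Zp p)}

theorem norm_Q_zero : (p : norm_Q p) = 0 := by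
  have h : (Ideal.Quotient.mk (Ideal.span {(p : Zp p)})) (p : Zp p) = 0 :=
    Ideal.Quotient.eq_zero_iff_mem.2 (Ideal.subset_span rfl)
  rw [map_natCast] at h
  exact h

theorem norm_Q_int {n : ℤ} (h : (p : ℤ) ∣ n) : (n : norm_Q p) = 0 := by
  obtain ⟨m, rfl⟩ := h
  push_cast
  rw [norm_Q_zero, zero_mul]

theorem norm_Q_fermat (n : ℤ) : (n : norm_Q p) ^ p = n := by
  have h1 : (p : ℤ) ∣ n ^ p - n := by
    rw [← CharP.intCast_eq_zero_iff (ZMod p) p]
    push_cast
    rw [ZMod.pow_card, sub_self]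
  have h2 := norm_Q_int h1
  push_cast at h2
  exact sub_eq_zero.1 h2

theorem norm_Q_frob (x : norm_Q p) : x ^ p = x := by
  obtain ⟨z, rfl⟩ := Ideal.Quotient.mk_surjective x
  obtain ⟨a, b, hb, hab⟩ := z.2
  have h1 : z * (b : Zp p) = (a : Zp p) := by
    apply Subtype.ext
    push_cast
    exact hab
  set π := Ideal.Quotient.mk (Ideal.span {(p : Zp p)}) with hπ
  have h2 : π z * (b : norm_Q p) = (a : norm_Q p) := by
    rw [← map_intCast π, ← map_intCast π, ← map_mul, h1]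
  have hco : IsCoprime (p : ℤ) b :=
    (Nat.prime_iff_prime_int.mp hp.out).coprime_iff_not_dvd.2 hb
  obtain ⟨u, v, huv⟩ := hco
  have h3 : (b : norm_Q p) * (v : norm_Q p) = 1 := by
    have h4 := congrArg (fun n : ℤ => (n : norm_Q p)) huv
    push_cast at h4
    rw [norm_Q_zero, mul_zero, zero_add] at h4
    rw [mul_comm]
    exact h4
  calc π z ^ p = π z ^ p * ((b : norm_Q p) * v) := by rw [h3, mul_one]
    _ = (π z * (b : norm_Q p)) ^ p * v := by
        rw [mul_pow, norm_Q_fermat]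
        ring
    _ = π z * ((b : norm_Q p) * v) := by
        rw [h2, norm_Q_fermat, ← h2]
        ring
    _ = π z := by rw [h3, mul_one]

theorem norm_expand_pow (F : PowerSeries (norm_Q p)) :
    F ^ p = F.expand p hp.out.ne_zero := by
  rcases subsingleton_or_nontrivial (norm_Q p) with h | h
  · exact Subsingleton.elim _ _
  · have hc : ringChar (norm_Q p) = p :=
      CharP.ringChar_of_prime_eq_zero hp.out norm_Q_zero
    have : CharP (norm_Q p) p := ringChar.of_eq hc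
    have h1 := MvPowerSeries.map_frobenius_expand (R := norm_Q p) (σ := Unit) p hp.out.ne_zero
      (f := F)
    have h2 : frobenius (norm_Q p) p = RingHom.id _ := by
      refine RingHom.ext fun x => ?_
      exact norm_Q_frob x
    rw [h2, MvPowerSeries.map_id] at h1
    exact h1.symm

theorem norm_coeff_dvd (F : PowerSeries ℂ) (hF : ∀ m, F.coeff m ∈ Zp p) (m : ℕ) :
    ∃ d ∈ Zp p, (F.expand p hp.out.ne_zero - F ^ p).coeff m = p * d := by
  set F0 : PowerSeries (Zp p) := PowerSeries.mk fun m => ⟨F.coeff m, hF m⟩ with hF0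
  have h0 : PowerSeries.map (Zp p).subtype F0 = F := by
    ext n
    rw [PowerSeries.coeff_map, hF0, PowerSeries.coeff_mk]
    rfl
  set π := Ideal.Quotient.mk (Ideal.span {(p : Zp p)}) with hπ
  have h1 : PowerSeries.map π (F0.expand p hp.out.ne_zero - F0 ^ p) = 0 := by
    rw [map_sub, map_pow, PowerSeries.map_expand, norm_expand_pow, sub_self]
  have h2 : π ((F0.expand p hp.out.ne_zero - F0 ^ p).coeff m) = 0 := by
    rw [← PowerSeries.coeff_map, h1, map_zero]
  rw [Ideal.Quotient.eq_zero_iff_mem, Ideal.mem_span_singleton] at h2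
  obtain ⟨d, hd⟩ := h2
  refine ⟨d, d.2, ?_⟩
  rw [← h0, ← PowerSeries.map_expand, ← map_pow, ← map_sub, PowerSeries.coeff_map, hd]
  simp

theorem norm_qp_tp (τ : ℍ) : qp (tp p τ) = qp τ ^ p := by
  unfold qp
  rw [Function.Periodic.qParam, Function.Periodic.qParam, ← Complex.exp_nat_mul, coe_tp]
  congr 1
  push_cast
  ring

theorem norm_rep_tp {F : PowerSeries ℂ} {A : ℍ → ℂ} (h : IsRep F A) :
    IsRep (F.expand p hp.out.ne_zero) (fun τ => A (tp p τ)) := by
  intro τ
  have h1 := h (tp p τ)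
  have hinj : Function.Injective fun m : ℕ => p * m :=
    fun a b hab => Nat.eq_of_mul_eq_mul_left hp.out.pos hab
  rw [← hinj.hasSum_iff]
  · have h2 : (fun m => (F.expand p hp.out.ne_zero).coeff m * qp τ ^ m) ∘ (fun m : ℕ => p * m) =
        fun m => F.coeff m * qp (tp p τ) ^ m := by
      funext m
      simp only [Function.comp_apply]
      rw [PowerSeries.coeff_expand_mul, norm_qp_tp, pow_mul]
    rw [h2]
    exact h1
  · intro n hn
    rw [PowerSeries.coeff_expand_of_not_dvd, zero_mul]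
    rintro ⟨m, rfl⟩
    exact hn ⟨m, rfl⟩

theorem frob {p : ℕ} [Fact p.Prime] {A : ℍ → ℂ} (hA : A ∈ IR p) :
    (fun τ => A (tp p τ)) ∈ IR p ∧ ∃ C ∈ IR p, ∀ τ, A (tp p τ) = A τ ^ p + p * C τ := by
  obtain ⟨F, hF, hFm⟩ := hA
  have hp := (Fact.out : p.Prime)
  have hp0 : (p : ℂ) ≠ 0 := by exact_mod_cast hp.ne_zero
  have h1 := norm_rep_tp (p := p) hF
  refine ⟨⟨_, h1, fun m => ?_⟩, ?_⟩
  · rw [PowerSeries.coeff_expand]
    split_ifs
    · exact hFm _
    · exact (Zp p).zero_mem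
  · have hpow : ∀ n : ℕ, IsRep (F ^ n) (A ^ n) := by
      intro n
      induction n with
      | zero => rw [pow_zero, pow_zero]; exact isRep_one
      | succ n ih => rw [pow_succ, pow_succ]; exact ih.mul hF
    have h2 := h1.add (hpow p).neg
    choose d hd hdm using norm_coeff_dvd (p := p) F hFm
    refine ⟨fun τ => (p : ℂ)⁻¹ * (A (tp p τ) - A τ ^ p), ⟨PowerSeries.mk d, fun τ => ?_,
      fun m => by rw [PowerSeries.coeff_mk]; exact hd m⟩, fun τ => ?_⟩
    · have h3 := (h2 τ).mul_left ((p : ℂ)⁻¹)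
      have h4 : (fun m => (p : ℂ)⁻¹ * ((PowerSeries.expand p hp.ne_zero F + -F ^ p).coeff m *
          qp τ ^ m)) = fun m => (PowerSeries.mk d).coeff m * qp τ ^ m := by
        funext m
        rw [← sub_eq_add_neg, hdm m, PowerSeries.coeff_mk]
        field_simp
      rw [h4] at h3
      have h5 : (p : ℂ)⁻¹ * (((fun τ => A (tp p τ)) + -A ^ p) τ) =
          (p : ℂ)⁻¹ * (A (tp p τ) - A τ ^ p) := by
        simp only [Pi.add_apply, Pi.neg_apply, Pi.pow_apply]
        ring
      rw [h5] at h3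
      exact h3
    · field_simp
      ring

end frobenius

/-! ### Components -/

section components

variable {p : ℕ} [hp : Fact p.Prime]

theorem norm_qp_tk (k : ℕ) (τ : ℍ) :
    qp (tk p k τ) = Complex.exp (2 * Real.pi * Complex.I / p) ^ k * qp (tk p 0 τ) := by
  have hp0 : (p : ℂ) ≠ 0 := by exact_mod_cast hp.out.ne_zero
  unfold qp
  rw [Function.Periodic.qParam, Function.Periodic.qParam, ← Complex.exp_nat_mul,
    ← Complex.exp_add, coe_tk, coe_tk]
  congr 1
  push_cast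
  field_simp
  ring

theorem norm_qp_tk_pow (k : ℕ) (τ : ℍ) : qp (tk p k τ) ^ p = qp τ := by
  have hp0 : (p : ℂ) ≠ 0 := by exact_mod_cast hp.out.ne_zero
  unfold qp
  rw [Function.Periodic.qParam, Function.Periodic.qParam, ← Complex.exp_nat_mul, coe_tk]
  have h : (p : ℂ) * (2 * Real.pi * Complex.I * (((τ : ℂ) + k) / p) / (1 : ℝ)) =
      2 * Real.pi * Complex.I * τ / (1 : ℝ) + k * (2 * Real.pi * Complex.I) := by
    push_cast
    field_simp
  rw [h, Complex.exp_add, Complex.exp_nat_mul_two_pi_mul_I, mul_one]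

theorem norm_prod_zmod {M : Type*} [CommMonoid M] (f : ℕ → M) :
    ∏ k : ZMod p, f k.val = ∏ i ∈ Finset.range p, f i := by
  refine Finset.prod_nbij (fun k => k.val) ?_ ?_ ?_ ?_
  · intro k _
    exact Finset.mem_range.2 k.val_lt
  · intro a _ b _ h
    exact ZMod.val_injective p h
  · intro i hi
    rw [Finset.coe_range, Set.mem_Iio] at hi
    exact ⟨(i : ZMod p), Finset.mem_coe.2 (Finset.mem_univ _), ZMod.val_cast_of_lt hi⟩
  · intro k _
    rfl

theorem norm_factor (τ : ℍ) :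
    (X ^ p - C (qp τ) : ℂ[X]) = ∏ k : ZMod p, (X - C (qp (tk p k.val τ))) := by
  rw [norm_prod_zmod (fun k => (X - C (qp (tk p k τ)) : ℂ[X]))]
  rw [X_pow_sub_C_eq_prod (Complex.isPrimitiveRoot_exp p hp.out.ne_zero) hp.out.pos
    (norm_qp_tk_pow 0 τ)]
  refine Finset.prod_congr rfl fun k _ => ?_
  rw [norm_qp_tk k τ]

theorem norm_tk_tp (τ : ℍ) : tk p 0 (tp p τ) = τ := by
  have hp0 : (p : ℂ) ≠ 0 := by exact_mod_cast hp.out.ne_zero
  apply UpperHalfPlane.ext
  rw [coe_tk, coe_tp]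
  push_cast
  field_simp
  ring

theorem norm_cmp {A : ℍ → ℂ} (hA : A ∈ IR p) : ∃ c : ZMod p → ℍ → ℂ, (∀ r, c r ∈ IR p) ∧
    ∀ (k : ℕ) (τ : ℍ), A (tk p k τ) = ∑ r : ZMod p, c r τ * qp (tk p k τ) ^ r.val := by
  obtain ⟨F, hF, hFm⟩ := hA
  have hsum : ∀ (r : ZMod p) (τ : ℍ),
      Summable fun m => F.coeff (r.val + p * m) * qp τ ^ m := by
    intro r τ
    have h1 := (hF (tk p 0 τ)).summable
    have hinj : Function.Injective fun m : ℕ => r.val + p * m := fun a b hab =>
      Nat.eq_of_mul_eq_mul_left hp.out.pos (Nat.add_left_cancel hab)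
    have h2 := (h1.comp_injective hinj).mul_right ((qp (tk p 0 τ) ^ r.val)⁻¹)
    refine h2.congr fun m => ?_
    simp only [Function.comp_apply]
    have h3 : qp (tk p 0 τ) ^ r.val ≠ 0 := pow_ne_zero _ (qp_ne _)
    rw [pow_add, pow_mul, norm_qp_tk_pow]
    field_simp
  refine ⟨fun r τ => ∑' m, F.coeff (r.val + p * m) * qp τ ^ m, fun r => ?_, fun k τ => ?_⟩
  · refine ⟨PowerSeries.mk fun m => F.coeff (r.val + p * m), fun τ => ?_, fun m => ?_⟩
    · simp only [PowerSeries.coeff_mk]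
      exact (hsum r τ).hasSum
    · rw [PowerSeries.coeff_mk]
      exact hFm _
  · have h1 := hF (tk p k τ)
    rw [← h1.tsum_eq, Nat.sumByResidueClasses h1.summable p]
    refine Finset.sum_congr rfl fun r _ => ?_
    rw [← tsum_mul_right]
    refine tsum_congr fun m => ?_
    rw [pow_add, pow_mul, norm_qp_tk_pow]
    ring

theorem norm_cmp_tp {A : ℍ → ℂ} {c : ZMod p → ℍ → ℂ}
    (h : ∀ (k : ℕ) (τ : ℍ), A (tk p k τ) = ∑ r : ZMod p, c r τ * qp (tk p k τ) ^ r.val)
    (τ : ℍ) : A τ = ∑ r : ZMod p, c r (tp p τ) * qp τ ^ r.val := by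
  have h1 := h 0 (tp p τ)
  rw [norm_tk_tp] at h1
  exact h1

theorem norm_qp_mem : qp ∈ IR p := by
  refine ⟨PowerSeries.X, fun τ => ?_, fun m => ?_⟩
  · have h := hasSum_ite_eq (1 : ℕ) (qp τ)
    have h2 : (fun m : ℕ => (PowerSeries.X : PowerSeries ℂ).coeff m * qp τ ^ m) =
        fun m => if m = 1 then qp τ else 0 := by
      funext m
      by_cases hm : m = 1
      · subst hm
        simp
      · simp [PowerSeries.coeff_X, hm]
    rw [h2]
    exact h
  · rw [PowerSeries.coeff_X]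
    split_ifs
    · exact (Zp p).one_mem
    · exact (Zp p).zero_mem

/-- Evaluation at a point. -/
def norm_ev (p : ℕ) [Fact p.Prime] (τ : ℍ) : IR p →+* ℂ := (Pi.evalRingHom _ τ).comp (IR p).subtype

theorem norm_ev_apply (τ : ℍ) (A : IR p) : norm_ev p τ A = (A : ℍ → ℂ) τ := rfl

theorem norm_sub_pow {S : Type*} [CommRing S] (h2 : p ≠ 2) (a b : S) :
    ∃ D, (a - b) ^ p = a ^ p - b ^ p + p * D := by
  obtain ⟨r, hr⟩ := exists_add_pow_prime_eq hp.out a (-b)
  refine ⟨a * (-b) * r, ?_⟩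
  rw [sub_eq_add_neg, hr, (hp.out.odd_of_ne_two h2).neg_pow]
  ring

theorem norm_eval_sum {R : Type*} [CommRing R] (a : ZMod p → R) (x : R) :
    (∑ r : ZMod p, C (a r) * X ^ r.val : R[X]).eval x = ∑ r : ZMod p, a r * x ^ r.val := by
  rw [eval_finsetSum]
  refine Finset.sum_congr rfl fun r _ => ?_
  rw [eval_mul, eval_C, eval_pow, eval_X]

theorem norm_map_sum {R S : Type*} [CommRing R] [CommRing S] (φ : R →+* S) (a : ZMod p → R) :
    (∑ r : ZMod p, C (a r) * X ^ r.val : R[X]).map φ =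
      ∑ r : ZMod p, C (φ (a r)) * X ^ r.val := by
  rw [Polynomial.map_sum]
  refine Finset.sum_congr rfl fun r _ => ?_
  rw [Polynomial.map_mul, map_C, Polynomial.map_pow, map_X]

end components

theorem norm_mem {p : ℕ} [Fact p.Prime] (hp : p ≠ 2) {φ ψ x y : ℍ → ℂ} (hφ : φ ∈ IR p)
    (hψ : ψ ∈ IR p) (hx : x ∈ IR p) (hy : y ∈ IR p) :
    ∃ C ∈ IR p, ∀ τ, ∏ k : ZMod p, (x τ * φ (tk p k.val τ) - y τ * ψ (tk p k.val τ)) =
      x τ ^ p * φ τ - y τ ^ p * ψ τ + p * C τ := by
  obtain ⟨c, hc, hcφ⟩ := norm_cmp hφ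
  obtain ⟨d, hd, hdψ⟩ := norm_cmp hψ
  -- the components as elements of the ring
  set cc : ZMod p → IR p := fun r => ⟨c r, hc r⟩ with hcc
  set dd : ZMod p → IR p := fun r => ⟨d r, hd r⟩ with hdd
  set xx : IR p := ⟨x, hx⟩ with hxx
  set yy : IR p := ⟨y, hy⟩ with hyy
  set qq : IR p := ⟨qp, norm_qp_mem⟩ with hqq
  obtain ⟨W, hW⟩ := norm_frob p qq (fun r => xx * cc r - yy * dd r)
  choose D hD using fun r => norm_sub_pow hp (xx * cc r) (yy * dd r)
  choose Cf hCf hCf2 using fun r => (frob (hc r)).2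
  choose Df hDf hDf2 using fun r => (frob (hd r)).2
  set Cf' : ZMod p → IR p := fun r => ⟨Cf r, hCf r⟩ with hCf'
  set Df' : ZMod p → IR p := fun r => ⟨Df r, hDf r⟩ with hDf'
  set R : IR p := ∑ r : ZMod p, D r * qq ^ r.val + W - xx ^ p * ∑ r : ZMod p, Cf' r * qq ^ r.val +
    yy ^ p * ∑ r : ZMod p, Df' r * qq ^ r.val with hR
  refine ⟨R, R.2, fun τ => ?_⟩
  have h1 : norm_N p (qp τ) (∑ r : ZMod p, C (x τ * c r τ - y τ * d r τ) * X ^ r.val) =
      norm_ev p τ (norm_N p qq (∑ r : ZMod p, C (xx * cc r - yy * dd r) * X ^ r.val)) := by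
    rw [← norm_N_map, norm_map_sum]
    rfl
  rw [norm_N_prod (ZMod.card p) (qp τ) (fun k : ZMod p => qp (tk p k.val τ)) (norm_factor τ) _
    (norm_deg p _)] at h1
  have h2 : ∀ k : ZMod p,
      (∑ r : ZMod p, C (x τ * c r τ - y τ * d r τ) * X ^ r.val : ℂ[X]).eval
        (qp (tk p k.val τ)) = x τ * φ (tk p k.val τ) - y τ * ψ (tk p k.val τ) := by
    intro k
    rw [norm_eval_sum, hcφ, hdψ, Finset.mul_sum, Finset.mul_sum, ← Finset.sum_sub_distrib]
    refine Finset.sum_congr rfl fun r _ => ?_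
    ring
  rw [Finset.prod_congr rfl fun k _ => h2 k] at h1
  rw [h1, hW]
  simp only [map_add, map_sum, map_mul, map_pow, map_natCast]
  have h3 : ∀ r : ZMod p, norm_ev p τ (xx * cc r - yy * dd r) ^ p =
      x τ ^ p * (c r (tp p τ) - p * Cf r τ) - y τ ^ p * (d r (tp p τ) - p * Df r τ) +
        p * norm_ev p τ (D r) := by
    intro r
    have h4 := congrArg (norm_ev p τ) (hD r)
    rw [map_pow] at h4
    rw [h4]
    simp only [map_add, map_sub, map_mul, map_pow, map_natCast]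
    have h5 := hCf2 r τ
    have h6 := hDf2 r τ
    have h7 : norm_ev p τ (cc r) = c r τ := rfl
    have h8 : norm_ev p τ (dd r) = d r τ := rfl
    have h9 : norm_ev p τ xx = x τ := rfl
    have h10 : norm_ev p τ yy = y τ := rfl
    rw [h7, h8, h9, h10, h5, h6]
    ring
  rw [Finset.sum_congr rfl fun r _ => by rw [h3 r]]
  have hq : norm_ev p τ qq = qp τ := rfl
  have hRτ : (R : ℍ → ℂ) τ = norm_ev p τ R := rfl
  have hRe : norm_ev p τ R = ∑ r : ZMod p, norm_ev p τ (D r) * qp τ ^ r.val + norm_ev p τ W -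
      x τ ^ p * ∑ r : ZMod p, Cf r τ * qp τ ^ r.val +
      y τ ^ p * ∑ r : ZMod p, Df r τ * qp τ ^ r.val := by
    rw [hR]
    simp only [map_add, map_sub, map_sum, map_mul, map_pow]
    rfl
  rw [hRτ, hRe, norm_cmp_tp hcφ τ, norm_cmp_tp hdψ τ, hq]
  simp only [add_mul, sub_mul, mul_sub, Finset.sum_add_distrib, Finset.sum_sub_distrib,
    Finset.mul_sum, mul_add]
  have e1 : ∀ r : ZMod p, x τ ^ p * c r (tp p τ) * qp τ ^ r.val =
      x τ ^ p * (c r (tp p τ) * qp τ ^ r.val) := fun r => by ring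
  have e2 : ∀ r : ZMod p, y τ ^ p * d r (tp p τ) * qp τ ^ r.val =
      y τ ^ p * (d r (tp p τ) * qp τ ^ r.val) := fun r => by ring
  have e3 : ∀ r : ZMod p, x τ ^ p * (p * Cf r τ) * qp τ ^ r.val =
      p * (x τ ^ p * (Cf r τ * qp τ ^ r.val)) := fun r => by ring
  have e4 : ∀ r : ZMod p, y τ ^ p * (p * Df r τ) * qp τ ^ r.val =
      p * (y τ ^ p * (Df r τ * qp τ ^ r.val)) := fun r => by ring
  have e5 : ∀ r : ZMod p, p * norm_ev p τ (D r) * qp τ ^ r.val =
      p * (norm_ev p τ (D r) * qp τ ^ r.val) := fun r => by ring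
  simp only [e1, e2, e3, e4, e5]
  ring

theorem norm_coeff {p : ℕ} [Fact p.Prime] {φ ψ : ℍ → ℂ} (hφ : φ ∈ IR p) (hψ : ψ ∈ IR p)
    (s : ℕ) : (fun τ => (∏ k : ZMod p,
      (X * C (φ (tk p k.val τ)) - C (ψ (tk p k.val τ))) : ℂ[X]).coeff s) ∈ IR p := by
  obtain ⟨c, hc, hcφ⟩ := norm_cmp hφ
  obtain ⟨d, hd, hdψ⟩ := norm_cmp hψ
  set cc : ZMod p → IR p := fun r => ⟨c r, hc r⟩ with hcc
  set dd : ZMod p → IR p := fun r => ⟨d r, hd r⟩ with hdd
  set qq : IR p := ⟨qp, norm_qp_mem⟩ with hqq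
  set N : (IR p)[X] := norm_N p (C qq) (∑ r : ZMod p, C (X * C (cc r) - C (dd r)) * X ^ r.val)
    with hN
  have h : (fun τ => (∏ k : ZMod p,
      (X * C (φ (tk p k.val τ)) - C (ψ (tk p k.val τ))) : ℂ[X]).coeff s) = (N.coeff s : IR p) := by
    funext τ
    have h1 : N.map (norm_ev p τ) = norm_N p (C (qp τ))
        (∑ r : ZMod p, C (X * C (c r τ) - C (d r τ)) * X ^ r.val) := by
      rw [hN, ← coe_mapRingHom, ← norm_N_map, norm_map_sum]
      simp only [coe_mapRingHom, Polynomial.map_sub, Polynomial.map_mul, map_C, map_X]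
      rfl
    have h2 : (X ^ p - C (C (qp τ)) : ℂ[X][X]) =
        ∏ k : ZMod p, (X - C (C (qp (tk p k.val τ)))) := by
      have h3 := congrArg (Polynomial.map (C : ℂ →+* ℂ[X])) (norm_factor (p := p) τ)
      rw [Polynomial.map_prod] at h3
      simpa using h3
    rw [norm_N_prod (ZMod.card p) (C (qp τ)) (fun k : ZMod p => C (qp (tk p k.val τ))) h2 _
      (norm_deg p _)] at h1
    have h4 : (N.coeff s : ℍ → ℂ) τ = norm_ev p τ (N.coeff s) := rfl
    rw [h4, ← coeff_map, h1]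
    congr 1
    refine Finset.prod_congr rfl fun k _ => ?_
    rw [norm_eval_sum, hcφ, hdψ, map_sum, map_sum, Finset.mul_sum, ← Finset.sum_sub_distrib]
    refine Finset.sum_congr rfl fun r _ => ?_
    rw [map_mul, map_mul, map_pow]
    ring
  rw [h]
  exact (N.coeff s).2

end Pool.Agent.DEU
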