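import Pool.Agent.DEU.Struct
import Pool.Agent.DEU.Nbr
import Pool.Agent.DEU.Norm
import Pool.Agent.DEU.HasseQ

/-!
# DEU.FP: the polynomial of the values of `E₄E₆/Δ` at the neighbours
-/

namespace Pool.Agent.DEU

open UpperHalfPlane ModularForm MatrixGroups Polynomial Filter Topology

section

variable {p : ℕ} [hpr : Fact p.Prime]

/-- The product of the two Eisenstein series. -/
private noncomputable def gg (τ : ℍ) : ℂ := e4 τ * e6 τ

private lemma gg_mem : gg ∈ IR p := (IR p).mul_mem e4_mem e6_mem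

private lemma wm_gg : WM 10 gg := by
  have := wm_e4.mul wm_e6
  norm_num at this
  exact this

variable (p) in
/-- The norm polynomial. -/
private noncomputable def NN (τ : ℍ) : ℂ[X] :=
  ∏ k : ZMod p, (X * C (dl (tk p k.val τ)) - C (gg (tk p k.val τ)))

variable (p) in
private noncomputable def RR (τ : ℍ) : ℂ[X] :=
  (X * C ((p : ℂ) ^ 2 * dl (tp p τ)) - C (gg (tp p τ))) * NN p τ

variable (p) in
private noncomputable def PP (τ : ℍ) : ℂ[X] :=
  ∏ i : Option (ZMod p), (X * C (nb p 12 dl i τ) - C (nb p 10 gg i τ))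

private lemma p_ne : (p : ℂ) ≠ 0 := by
  exact_mod_cast hpr.out.ne_zero

private lemma comp_RR (τ : ℍ) :
    (RR p τ).comp (C ((p : ℂ) ^ 2)⁻¹ * X) = C ((p : ℂ) ^ (10 * p)) * PP p τ := by
  have hp := p_ne (p := p)
  unfold RR PP NN
  rw [Fintype.prod_option]
  simp only [nb, mul_comp, sub_comp, X_comp, C_comp, prod_comp]
  have h1 : (C ((p : ℂ) ^ (10 * p)) : ℂ[X]) = ∏ _k : ZMod p, C ((p : ℂ) ^ 10) := by
    rw [Finset.prod_const, Finset.card_univ, ZMod.card, ← C_pow, ← pow_mul]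
  rw [h1, mul_left_comm, ← Finset.prod_mul_distrib]
  congr 1
  · rw [mul_assoc, mul_comm X (C _), ← mul_assoc, ← C_mul, ← mul_assoc, inv_mul_cancel₀ (pow_ne_zero 2 hp),
      one_mul, mul_comm]
  · refine Finset.prod_congr rfl fun k _ => ?_
    rw [mul_sub, ← C_mul, mul_comm (C ((p : ℂ) ^ 10)) (X * _), mul_assoc X, ← C_mul]
    have e1 : (p : ℂ) ^ (-12 : ℤ) * dl (tk p k.val τ) * (p : ℂ) ^ 10 =
        ((p : ℂ) ^ 2)⁻¹ * dl (tk p k.val τ) := by
      rw [zpow_neg]
      norm_cast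
      push_cast
      field_simp
    have e2 : (p : ℂ) ^ 10 * ((p : ℂ) ^ (-10 : ℤ) * gg (tk p k.val τ)) = gg (tk p k.val τ) := by
      rw [zpow_neg]
      norm_cast
      push_cast
      field_simp
    rw [e1, e2, C_mul]
    ring

private lemma coeff_PP (τ : ℍ) (s : ℕ) :
    (PP p τ).coeff s = ((p : ℂ) ^ (10 * p))⁻¹ * ((p : ℂ) ^ (2 * s))⁻¹ * (RR p τ).coeff s := by
  have hp := p_ne (p := p)
  have h := congrArg (fun f => f.coeff s) (comp_RR (p := p) τ)
  simp only [coeff_C_mul] at h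
  rw [comp_C_mul_X_coeff] at h
  have h2 : (p : ℂ) ^ (10 * p) ≠ 0 := pow_ne_zero _ hp
  rw [← mul_right_inj' h2, ← h]
  rw [inv_pow, ← pow_mul]
  field_simp

private lemma RR_coeff (τ : ℍ) (s : ℕ) (hs : 1 ≤ s) :
    (RR p τ).coeff s = (p : ℂ) ^ 2 * dl (tp p τ) * (NN p τ).coeff (s - 1) -
      gg (tp p τ) * (NN p τ).coeff s := by
  obtain ⟨s, rfl⟩ : ∃ k, s = k + 1 := ⟨s - 1, by omega⟩
  unfold RR
  rw [sub_mul, coeff_sub, coeff_C_mul, mul_assoc, coeff_X_mul, coeff_C_mul]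
  rfl

private lemma RR_coeff_zero (τ : ℍ) :
    (RR p τ).coeff 0 = - gg (tp p τ) * (NN p τ).coeff 0 := by
  unfold RR
  rw [sub_mul, coeff_sub, coeff_C_mul, mul_assoc, coeff_X_mul_zero]
  ring

private lemma Pc_mem : (fun _ => (p : ℂ)) ∈ IR p := by
  have := const_mem_IR (p := p) (int_mem_Zp (p := p) (p : ℤ))
  simpa using this

private lemma RR_mem (hp : 5 ≤ p) (s : ℕ) : (fun τ => (RR p τ).coeff s) ∈ IR p := by
  have h1 := (frob (dl_mem hp)).1
  have h2 := (frob (gg_mem (p := p))).1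
  rcases Nat.eq_zero_or_pos s with rfl | hs
  · have h3 := norm_coeff (dl_mem hp) (gg_mem (p := p)) 0
    have : (fun τ => (RR p τ).coeff 0) =
        -((fun τ => gg (tp p τ)) * fun τ => (NN p τ).coeff 0) := by
      funext τ
      simp only [RR_coeff_zero, Pi.neg_apply, Pi.mul_apply]
      ring
    rw [this]
    exact (IR p).neg_mem ((IR p).mul_mem h2 h3)
  · have h3 := norm_coeff (dl_mem hp) (gg_mem (p := p)) (s - 1)
    have h4 := norm_coeff (dl_mem hp) (gg_mem (p := p)) s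
    have : (fun τ => (RR p τ).coeff s) =
        (fun _ => (p : ℂ)) * (fun _ => (p : ℂ)) * (fun τ => dl (tp p τ)) *
          (fun τ => (NN p τ).coeff (s - 1)) -
        (fun τ => gg (tp p τ)) * fun τ => (NN p τ).coeff s := by
      funext τ
      simp only [RR_coeff τ s hs, Pi.sub_apply, Pi.mul_apply]
      ring
    rw [this]
    exact (IR p).sub_mem ((IR p).mul_mem ((IR p).mul_mem ((IR p).mul_mem Pc_mem Pc_mem) h1) h3)
      ((IR p).mul_mem h2 h4)

private lemma RR_wm (s : ℕ) (hs : s ≤ p + 1) :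
    WM (12 * s + 10 * (p + 1 - s)) (fun τ => (RR p τ).coeff s) := by
  have h := (wm_coeff (p := p) wm_dl wm_gg s hs).const_mul
    ((p : ℂ) ^ (10 * p) * (p : ℂ) ^ (2 * s))
  have hp := p_ne (p := p)
  have e : (fun τ => (RR p τ).coeff s) = fun τ => (p : ℂ) ^ (10 * p) * (p : ℂ) ^ (2 * s) *
      (∏ i : Option (ZMod p), (X * C (nb p 12 dl i τ) - C (nb p 10 gg i τ)) : ℂ[X]).coeff s := by
    funext τ
    have := coeff_PP (p := p) τ s
    unfold PP at this
    rw [this]
    have h2 : (p : ℂ) ^ (10 * p) ≠ 0 := pow_ne_zero _ hp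
    have h3 : (p : ℂ) ^ (2 * s) ≠ 0 := pow_ne_zero _ hp
    field_simp
  rw [e]
  exact h

private lemma NN_top (τ : ℍ) : (NN p τ).coeff p = ∏ k : ZMod p, dl (tk p k.val τ) := by
  have h := coeff_prod_of_natDegree_le (s := (Finset.univ : Finset (ZMod p)))
    (f := fun k => X * C (dl (tk p k.val τ)) - C (gg (tk p k.val τ))) (n := 1) (by
      intro k _
      compute_degree)
  rw [Finset.card_univ, ZMod.card, mul_one] at h
  unfold NN
  rw [h]
  refine Finset.prod_congr rfl fun k _ => ?_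
  simp

private lemma NN_top_succ (τ : ℍ) : (NN p τ).coeff (p + 1) = 0 := by
  apply coeff_eq_zero_of_natDegree_lt
  have h : (NN p τ).natDegree ≤ ∑ k : ZMod p, 1 := by
    refine (natDegree_prod_le _ _).trans (Finset.sum_le_sum fun k _ => ?_)
    compute_degree
  simp only [Finset.sum_const, Finset.card_univ, ZMod.card, smul_eq_mul, mul_one] at h
  omega

omit hpr in
private lemma tend_im {f : ℍ → ℍ} {c : ℝ} (hc : 0 < c) (h : ∀ τ, (f τ).im = c * τ.im) :
    Tendsto f atImInfty atImInfty := by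
  unfold atImInfty
  rw [tendsto_comap_iff]
  have : UpperHalfPlane.im ∘ f = fun τ => c * τ.im := by
    funext τ; exact h τ
  rw [this]
  exact (tendsto_comap).const_mul_atTop hc

private lemma tend_tp : Tendsto (tp p) atImInfty atImInfty := by
  refine tend_im (c := (p : ℝ)) (by exact_mod_cast hpr.out.pos) fun τ => ?_
  rw [← coe_im, coe_tp, Complex.mul_im]
  simp

private lemma tend_tk (k : ℕ) : Tendsto (tk p k) atImInfty atImInfty := by
  have hp0 : (0 : ℝ) < p := by exact_mod_cast hpr.out.pos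
  refine tend_im (c := (p : ℝ)⁻¹) (by positivity) fun τ => ?_
  rw [← coe_im, coe_tk, Complex.div_natCast_im]
  simp
  field_simp

private lemma qp_tp (τ : ℍ) : qp (tp p τ) = qp τ ^ p := by
  unfold qp Function.Periodic.qParam
  rw [← Complex.exp_nat_mul, coe_tp]
  congr 1
  push_cast
  ring

private lemma qp_tk_prod (hp2 : p ≠ 2) (τ : ℍ) : ∏ k : ZMod p, qp (tk p k.val τ) = qp τ := by
  have hp0 : (p : ℂ) ≠ 0 := p_ne
  unfold qp Function.Periodic.qParam
  rw [← Complex.exp_sum]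
  have hodd : Odd p := hpr.out.odd_of_ne_two hp2
  obtain ⟨m, hm⟩ := hodd
  have h1 : ∑ k : ZMod p, (k.val : ℂ) = (p : ℂ) * m := by
    have h2 : ∑ k : ZMod p, (k.val : ℕ) = ∑ i ∈ Finset.range p, i := by
      have : NeZero p := ⟨hpr.out.ne_zero⟩
      obtain ⟨n, rfl⟩ : ∃ n, p = n + 1 := ⟨p - 1, by have := hpr.out.pos; omega⟩
      exact Fin.sum_univ_eq_sum_range (fun i => i) (n + 1)
    have h3 : (∑ i ∈ Finset.range p, i) * 2 = p * (p - 1) := Finset.sum_range_id_mul_two p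
    have h4 : ∑ i ∈ Finset.range p, i = p * m := by
      have : p - 1 = 2 * m := by omega
      rw [this] at h3
      nlinarith
    have h5 : ∑ k : ZMod p, (k.val : ℕ) = p * m := h2.trans h4
    exact_mod_cast congrArg (Nat.cast : ℕ → ℂ) h5
  have h2 : ∑ k : ZMod p, 2 * (Real.pi : ℂ) * Complex.I * (tk p k.val τ : ℂ) / ((1 : ℝ) : ℂ) =
      2 * Real.pi * Complex.I * (τ : ℂ) / ((1 : ℝ) : ℂ) + m * (2 * Real.pi * Complex.I) := by
    simp only [coe_tk, Complex.ofReal_one, div_one]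
    rw [← Finset.mul_sum, ← Finset.sum_div, Finset.sum_add_distrib, h1]
    simp only [Finset.sum_const, Finset.card_univ, ZMod.card, nsmul_eq_mul]
    field_simp
  rw [h2, Complex.exp_add]
  have h3 : Complex.exp (m * (2 * Real.pi * Complex.I)) = 1 := by
    rw [Complex.exp_eq_one_iff]
    exact ⟨m, by push_cast; ring⟩
  rw [h3, mul_one]

variable (p) in
private noncomputable def EE (τ : ℍ) : ℂ := ∏ k : ZMod p, dl (tk p k.val τ)

private lemma EE_mem (hp : 5 ≤ p) : ∃ C ∈ IR p, ∀ τ, EE p τ = dl τ + p * C τ := by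
  have h1 : (fun _ => (1 : ℂ)) ∈ IR p := (IR p).one_mem
  have h0 : (fun _ => (0 : ℂ)) ∈ IR p := (IR p).zero_mem
  obtain ⟨C, hC, h⟩ := norm_mem (p := p) (by omega) (dl_mem hp) h0 h1 h0
  refine ⟨C, hC, fun τ => ?_⟩
  have := h τ
  simp only [one_mul, mul_zero, sub_zero, one_pow] at this
  exact this

private lemma tend_A (hp : 5 ≤ p) :
    Tendsto (fun τ => dl (tp p τ) * EE p τ / qp τ ^ (p + 1)) atImInfty (𝓝 1) := by
  have h1 : Tendsto (fun τ => dl (tp p τ) / qp (tp p τ)) atImInfty (𝓝 1) :=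
    tendsto_dl.comp (tend_tp (p := p))
  have h2 : Tendsto (fun τ => ∏ k : ZMod p, (dl (tk p k.val τ) / qp (tk p k.val τ))) atImInfty
      (𝓝 (∏ k : ZMod p, 1)) :=
    tendsto_finsetProd _ fun k _ => tendsto_dl.comp (tend_tk (p := p) k.val)
  rw [Finset.prod_const_one] at h2
  have h3 := h1.mul h2
  rw [one_mul] at h3
  refine h3.congr fun τ => ?_
  rw [Finset.prod_div_distrib, qp_tk_prod (by omega), qp_tp]
  unfold EE
  rw [div_mul_div_comm, ← pow_succ]

/-- The product of `Δ` over the neighbours. -/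
private lemma top_eq (hp : 5 ≤ p) (τ : ℍ) : dl (tp p τ) * EE p τ = dl τ ^ (p + 1) := by
  have hp0 : (p : ℂ) ≠ 0 := p_ne
  set A : ℍ → ℂ := fun τ => dl (tp p τ) * EE p τ with hA
  have hmem : A ∈ IR p := by
    obtain ⟨C, hC, h⟩ := EE_mem (p := p) hp
    have : A = (fun τ => dl (tp p τ)) * (dl + (fun _ => (p : ℂ)) * C) := by
      funext τ
      simp only [hA, Pi.mul_apply, Pi.add_apply, h τ]
    rw [this]
    exact (IR p).mul_mem (frob (dl_mem hp)).1
      ((IR p).add_mem (dl_mem hp) ((IR p).mul_mem Pc_mem hC))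
  have hRR : ∀ τ, (RR p τ).coeff (p + 1) = (p : ℂ) ^ 2 * A τ := by
    intro τ
    rw [RR_coeff τ (p + 1) (by omega), NN_top_succ]
    simp only [Nat.add_sub_cancel, mul_zero, sub_zero, hA, NN_top, EE]
    ring
  have hwm : WM (12 * ((p + 1 : ℕ) : ℤ)) A := by
    have h1 := (RR_wm (p := p) (p + 1) le_rfl).const_mul ((p : ℂ) ^ 2)⁻¹
    have h2 : (fun τ => ((p : ℂ) ^ 2)⁻¹ * (RR p τ).coeff (p + 1)) = A := by
      funext τ
      rw [hRR]
      field_simp
    rw [h2] at h1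
    convert h1 using 1
    push_cast; ring
  obtain ⟨F, hF, hint⟩ := hmem
  obtain ⟨hF0, hF1⟩ := rep_order hF (tend_A (p := p) hp)
  obtain ⟨c, hc, hc0, hsum⟩ := weight_twelve hp hF hint hwm
  have hc0' := hc0 (p + 1) hF0
  have hform : ∀ τ, A τ = c (p + 1) * dl τ ^ (p + 1) := by
    intro τ
    rw [hsum τ, Finset.sum_range_succ, Finset.sum_eq_zero, zero_add]
    · simp
    · intro i hi
      rw [hc0' i (Finset.mem_range.mp hi)]; ring
  have hlim : Tendsto (fun τ => A τ / qp τ ^ (p + 1)) atImInfty (𝓝 (c (p + 1))) := by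
    have h1 : Tendsto (fun τ => c (p + 1) * (dl τ / qp τ) ^ (p + 1)) atImInfty
        (𝓝 (c (p + 1) * 1 ^ (p + 1))) := (tendsto_dl.pow (p + 1)).const_mul _
    rw [one_pow, mul_one] at h1
    refine h1.congr fun τ => ?_
    rw [hform, div_pow]
    ring
  have : NeBot atImInfty := by
    infer_instance
  have hc1 : c (p + 1) = 1 := tendsto_nhds_unique hlim (tend_A (p := p) hp)
  have := hform τ
  rw [hc1, one_mul] at this
  exact this

/-- The congruence for the coefficient of `Y^p`. -/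
private lemma mid_eq (hp : 5 ≤ p) : ∃ C ∈ IR p, WM (12 * p + 10) C ∧
    ∀ τ, (RR p τ).coeff p + Hf p τ ^ 2 * gg τ ^ p * dl τ = p * C τ := by
  have hp0 : (p : ℂ) ≠ 0 := p_ne
  have hp1 : 1 ≤ p := by omega
  obtain ⟨FH, hFH, hFHint, hFH0, hFHm⟩ := hasse_rep (p := p) hp
  have hHmem : Hf p ∈ IR p := ⟨FH, hFH, hFHint⟩
  obtain ⟨C1, hC1, h1⟩ := (frob (gg_mem (p := p))).2
  obtain ⟨C2, hC2, h2⟩ := EE_mem (p := p) hp
  have hN := norm_coeff (dl_mem hp) (gg_mem (p := p)) (p - 1)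
  set C3 : ℍ → ℂ := fun τ => (p : ℂ) * dl (tp p τ) * (NN p τ).coeff (p - 1) -
    (gg τ ^ p * C2 τ + C1 τ * dl τ + p * C1 τ * C2 τ) with hC3
  have hgp : gg ^ p ∈ IR p := (IR p).pow_mem gg_mem p
  have hC3mem : C3 ∈ IR p := by
    have : C3 = (fun _ => (p : ℂ)) * (fun τ => dl (tp p τ)) * (fun τ => (NN p τ).coeff (p - 1)) -
        (gg ^ p * C2 + C1 * dl + (fun _ => (p : ℂ)) * C1 * C2) := by
      funext τ; simp [hC3]
    rw [this]
    exact (IR p).sub_mem ((IR p).mul_mem ((IR p).mul_mem Pc_mem (frob (dl_mem hp)).1) hN)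
      ((IR p).add_mem ((IR p).add_mem ((IR p).mul_mem hgp hC2) ((IR p).mul_mem hC1 (dl_mem hp)))
        ((IR p).mul_mem ((IR p).mul_mem Pc_mem hC1) hC2))
  have hR : ∀ τ, (RR p τ).coeff p = -(gg τ ^ p * dl τ) + p * C3 τ := by
    intro τ
    rw [RR_coeff τ p hp1, NN_top, ← EE, h1 τ, h2 τ, hC3]
    ring
  -- the form
  set A : ℍ → ℂ := fun τ => (RR p τ).coeff p + Hf p τ ^ 2 * gg τ ^ p * dl τ with hA
  have hwm : WM (12 * p + 10) A := by
    have e1 := RR_wm (p := p) p (by omega)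
    have e2 := ((wm_Hf (p := p) hp).pow 2).mul ((wm_gg.pow p).mul wm_dl)
    have e3 : WM (12 * p + 10) (fun τ => (RR p τ).coeff p) := by
      convert e1 using 1; ring
    have e4 : WM (12 * p + 10) (Hf p ^ 2 * (gg ^ p * dl)) := by
      convert e2 using 1; push_cast; ring
    have e5 := e3.add e4
    convert e5 using 1
    funext τ
    simp only [hA, Pi.add_apply, Pi.mul_apply, Pi.pow_apply]
    ring
  obtain ⟨F3, hF3, hF3int⟩ := hC3mem
  obtain ⟨Fg, hFg, hFgint⟩ := hgp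
  obtain ⟨Fd, hFd, hFdint⟩ := dl_mem (p := p) hp
  have hFd0 : Fd.coeff 0 = 0 := by
    have := rep_order hFd (m := 1) (L := 1) (by simpa using tendsto_dl)
    exact this.1 0 one_pos
  set FA : PowerSeries ℂ := PowerSeries.C (p : ℂ) * F3 + Fg * (Fd * (FH * FH - 1)) with hFA
  have hrep : IsRep FA A := by
    have e1 := ((isRep_const (p : ℂ)).mul hF3).add
      (hFg.mul (hFd.mul ((hFH.mul hFH).add (isRep_one.neg))))
    have e2 : FH * FH + -1 = FH * FH - 1 := by ring
    rw [e2] at e1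
    convert e1 using 1
    funext τ
    simp only [hA, hR τ, Pi.add_apply, Pi.mul_apply, Pi.neg_apply, Pi.pow_apply, Pi.one_apply]
    ring
  -- coefficients of `H² - 1`
  have hone : ∀ m, (1 : PowerSeries ℂ).coeff m ∈ Zp p := by
    intro m
    rw [PowerSeries.coeff_one]
    split_ifs
    · exact (Zp p).one_mem
    · exact (Zp p).zero_mem
  have hmulint : ∀ F G : PowerSeries ℂ, (∀ m, F.coeff m ∈ Zp p) → (∀ m, G.coeff m ∈ Zp p) →
      ∀ m, (F * G).coeff m ∈ Zp p := by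
    intro F G hF hG m
    rw [PowerSeries.coeff_mul]
    exact Subring.sum_mem _ fun x _ => (Zp p).mul_mem (hF _) (hG _)
  have hHH : ∀ m, m < p → ∃ c ∈ Zp p, (FH * FH - 1).coeff m = p * c := by
    intro m hm
    rw [map_sub, PowerSeries.coeff_mul]
    rcases Nat.eq_zero_or_pos m with rfl | hm0
    · obtain ⟨c, hc, hc'⟩ := hFH0
      refine ⟨c * (2 + p * c), (Zp p).mul_mem hc ((Zp p).add_mem ?_ ((Zp p).mul_mem ?_ hc)), ?_⟩
      · exact_mod_cast int_mem_Zp (p := p) 2
      · exact_mod_cast int_mem_Zp (p := p) (p : ℤ)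
      · simp only [Finset.Nat.antidiagonal_zero, Finset.sum_singleton, hc',
          PowerSeries.coeff_one, if_true]
        ring
    · have : ∀ x ∈ Finset.HasAntidiagonal.antidiagonal m, ∃ c ∈ Zp p,
          FH.coeff x.1 * FH.coeff x.2 = p * c := by
        intro x hx
        rw [Finset.HasAntidiagonal.mem_antidiagonal] at hx
        rcases Nat.eq_zero_or_pos x.1 with h0 | h0
        · obtain ⟨c, hc, hc'⟩ := hFHm x.2 (by omega) (by omega)
          exact ⟨FH.coeff x.1 * c, (Zp p).mul_mem (hFHint _) hc, by rw [hc']; ring⟩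
        · obtain ⟨c, hc, hc'⟩ := hFHm x.1 (by omega) (by omega)
          exact ⟨c * FH.coeff x.2, (Zp p).mul_mem hc (hFHint _), by rw [hc']; ring⟩
      choose! f hf hf' using this
      refine ⟨∑ x ∈ Finset.HasAntidiagonal.antidiagonal m, f x, Subring.sum_mem _ hf, ?_⟩
      rw [Finset.sum_congr rfl hf', PowerSeries.coeff_one, if_neg (by omega), sub_zero,
        Finset.mul_sum]
  have hHHint : ∀ m, (FH * FH - 1).coeff m ∈ Zp p := by
    intro m
    rw [map_sub]
    exact (Zp p).sub_mem (hmulint _ _ hFHint hFHint m) (hone m)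
  have hdH : ∀ m, m < p + 1 → ∃ c ∈ Zp p, (Fd * (FH * FH - 1)).coeff m = p * c := by
    intro m hm
    rw [PowerSeries.coeff_mul]
    have : ∀ x ∈ Finset.HasAntidiagonal.antidiagonal m, ∃ c ∈ Zp p,
        Fd.coeff x.1 * (FH * FH - 1).coeff x.2 = p * c := by
      intro x hx
      rw [Finset.HasAntidiagonal.mem_antidiagonal] at hx
      rcases Nat.eq_zero_or_pos x.1 with h0 | h0
      · exact ⟨0, (Zp p).zero_mem, by rw [h0, hFd0]; ring⟩
      · obtain ⟨c, hc, hc'⟩ := hHH x.2 (by omega)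
        exact ⟨Fd.coeff x.1 * c, (Zp p).mul_mem (hFdint _) hc, by rw [hc']; ring⟩
    choose! f hf hf' using this
    refine ⟨∑ x ∈ Finset.HasAntidiagonal.antidiagonal m, f x, Subring.sum_mem _ hf, ?_⟩
    rw [Finset.sum_congr rfl hf', Finset.mul_sum]
  have hgdH : ∀ m, m < p + 1 → ∃ c ∈ Zp p, (Fg * (Fd * (FH * FH - 1))).coeff m = p * c := by
    intro m hm
    rw [PowerSeries.coeff_mul]
    have : ∀ x ∈ Finset.HasAntidiagonal.antidiagonal m, ∃ c ∈ Zp p,
        Fg.coeff x.1 * (Fd * (FH * FH - 1)).coeff x.2 = p * c := by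
      intro x hx
      rw [Finset.HasAntidiagonal.mem_antidiagonal] at hx
      obtain ⟨c, hc, hc'⟩ := hdH x.2 (by omega)
      exact ⟨Fg.coeff x.1 * c, (Zp p).mul_mem (hFgint _) hc, by rw [hc']; ring⟩
    choose! f hf hf' using this
    refine ⟨∑ x ∈ Finset.HasAntidiagonal.antidiagonal m, f x, Subring.sum_mem _ hf, ?_⟩
    rw [Finset.sum_congr rfl hf', Finset.mul_sum]
  have hpZ : (p : ℂ) ∈ Zp p := by exact_mod_cast int_mem_Zp (p := p) (p : ℤ)
  have hFAint : ∀ m, FA.coeff m ∈ Zp p := by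
    intro m
    rw [hFA, map_add, PowerSeries.coeff_C_mul]
    exact (Zp p).add_mem ((Zp p).mul_mem hpZ (hF3int m))
      (hmulint _ _ hFgint (hmulint _ _ hFdint hHHint) m)
  have hFAp : ∀ m < p + 1, ∃ c ∈ Zp p, FA.coeff m = p * c := by
    intro m hm
    obtain ⟨c, hc, hc'⟩ := hgdH m hm
    refine ⟨F3.coeff m + c, (Zp p).add_mem (hF3int m) hc, ?_⟩
    rw [hFA, map_add, PowerSeries.coeff_C_mul, hc']
    ring
  obtain ⟨C4, hC4, h4⟩ := sturm_mod hp hrep hFAint hwm (N := p + 1) (by push_cast; linarith) hFAp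
  refine ⟨C4, hC4, ?_, h4⟩
  have h5 := hwm.const_mul (p : ℂ)⁻¹
  have h6 : (fun τ => (p : ℂ)⁻¹ * A τ) = C4 := by
    funext τ
    rw [h4 τ]
    field_simp
  rw [h6] at h5
  exact h5

end

theorem fp_exists {p : ℕ} [Fact p.Prime] (hp : 5 ≤ p) (V : ValuationSubring ℂ)
    (hV : ∀ z ∈ Zp p, z ∈ V) {c : ℂ} (hc : c ≠ 0) {τ : ℍ} (h4 : c ^ 4 * e4 τ ∈ V)
    (h6 : c ^ 6 * e6 τ ∈ V) (hd : (c ^ 12 * dl τ)⁻¹ ∈ V) :
    ∃ e : ℕ → ℂ, (∀ r, e r ∈ V) ∧
      (∃ z ∈ V, e 1 = (c ^ (p - 1) * Hf p τ) ^ 2 * ((c ^ 2)⁻¹ * (e4 τ * e6 τ / dl τ)) ^ p +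
        p * z) ∧
      ∀ i : Option (ZMod p), ∀ y : ℂ,
        y = (c ^ 2)⁻¹ * (nb p 10 (fun τ => e4 τ * e6 τ) i τ / nb p 12 dl i τ) →
        y ^ (p + 1) - e 1 * y ^ p +
          ∑ r ∈ Finset.Icc 2 (p + 1), (p : ℂ) ^ (2 * (r - 1)) * e r * y ^ (p + 1 - r) = 0 := by
  have hp0 : (p : ℂ) ≠ 0 := p_ne
  have hdl := dl_ne τ
  have hpZ : (p : ℂ) ∈ V := hV _ (by exact_mod_cast int_mem_Zp (p := p) (p : ℤ))
  set u : ℂ := c ^ 12 * dl τ with hu
  have hu0 : u ≠ 0 := mul_ne_zero (pow_ne_zero _ hc) hdl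
  have huinv : (u ^ (p + 1))⁻¹ ∈ V := by
    rw [← inv_pow]; exact pow_mem hd _
  -- the normalised coefficients
  set f : ℕ → ℂ := fun r => (c ^ (2 * r))⁻¹ * ((RR p τ).coeff (p + 1 - r) / dl τ ^ (p + 1)) with hf
  have hfV : ∀ r, r ≤ p + 1 → f r ∈ V := by
    intro r hr
    have hwm := RR_wm (p := p) (p + 1 - r) (by omega)
    have hev := eval_mem hp V hV hc h4 h6 (RR_mem (p := p) hp (p + 1 - r)) hwm
    have e1 : (12 * ((p + 1 - r : ℕ) : ℤ) + 10 * ((p : ℤ) + 1 - ((p + 1 - r : ℕ) : ℤ))) =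
        ((12 * (p + 1) - 2 * r : ℕ) : ℤ) := by
      omega
    rw [e1, zpow_natCast] at hev
    have e2 : f r = c ^ (12 * (p + 1) - 2 * r) * (RR p τ).coeff (p + 1 - r) * (u ^ (p + 1))⁻¹ := by
      rw [hf, hu]
      have e3 : c ^ (12 * (p + 1)) = c ^ (12 * (p + 1) - 2 * r) * c ^ (2 * r) := by
        rw [← pow_add]; congr 1; omega
      rw [mul_pow, ← pow_mul, e3]
      have := pow_ne_zero (2 * r) hc
      have := pow_ne_zero (12 * (p + 1) - 2 * r) hc
      have := pow_ne_zero (p + 1) hdl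
      field_simp
    rw [e2]
    exact V.mul_mem _ _ hev huinv
  refine ⟨fun r => if r = 1 then -f 1 else if r ≤ p + 1 then f r else 0, ?_, ?_, ?_⟩
  · intro r
    by_cases h1 : r = 1
    · simp only [h1, if_true]
      exact V.neg_mem _ (hfV 1 (by omega))
    · simp only [h1, if_false]
      split_ifs with h2
      · exact hfV r h2
      · exact V.zero_mem
  · obtain ⟨C, hC, hCwm, hCeq⟩ := mid_eq (p := p) hp
    have hev := eval_mem hp V hV hc h4 h6 hC hCwm
    have e1 : (12 * (p : ℤ) + 10) = ((12 * p + 10 : ℕ) : ℤ) := by push_cast; ring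
    rw [e1, zpow_natCast] at hev
    refine ⟨-(c ^ (12 * p + 10) * C τ * (u ^ (p + 1))⁻¹), V.neg_mem _ (V.mul_mem _ _ hev huinv), ?_⟩
    simp only [if_true]
    have h7 : (RR p τ).coeff p = p * C τ - Hf p τ ^ 2 * gg τ ^ p * dl τ := by
      rw [← hCeq τ]; ring
    have e2 : p + 1 - 1 = p := by omega
    simp only [hf, mul_one, e2, h7, hu, gg]
    have e3 : (c ^ 12 * dl τ) ^ (p + 1) = c ^ (12 * p + 10) * c ^ 2 * dl τ ^ (p + 1) := by
      rw [mul_pow, ← pow_mul, ← pow_add]; congr 2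
    have e4' : (c ^ (p - 1)) ^ 2 * c ^ 2 = c ^ (2 * p) := by
      rw [← pow_mul, ← pow_add]; congr 1; omega
    have e5 : (c ^ (p - 1)) ^ 2 = c ^ (2 * p) / c ^ 2 := by
      rw [← e4']; field_simp
    have e6' : ((c ^ 2)⁻¹ * (e4 τ * e6 τ / dl τ)) ^ p =
        (e4 τ * e6 τ) ^ p / (c ^ (2 * p) * dl τ ^ p) := by
      rw [mul_pow ((c ^ 2)⁻¹), div_pow, inv_pow, ← pow_mul]
      have := pow_ne_zero (2 * p) hc
      have := pow_ne_zero p hdl
      field_simp
    rw [e3, mul_pow (c ^ (p - 1)), e5, e6', pow_succ (dl τ)]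
    have := pow_ne_zero 2 hc
    have := pow_ne_zero (2 * p) hc
    have := pow_ne_zero (12 * p + 10) hc
    have := pow_ne_zero p hdl
    field_simp
    ring
  · intro i y hy
    have hnb : nb p 12 dl i τ ≠ 0 := by
      cases i with
      | none => exact dl_ne _
      | some k => exact mul_ne_zero (zpow_ne_zero _ hp0) (dl_ne _)
    set Y : ℂ := nb p 10 gg i τ / nb p 12 dl i τ with hY
    have hyY : Y = c ^ 2 * y := by
      rw [hy]
      have := pow_ne_zero 2 hc
      simp only [hY]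
      field_simp
      rfl
    have hPP : (PP p τ).eval Y = 0 := by
      unfold PP
      rw [eval_prod]
      refine Finset.prod_eq_zero (Finset.mem_univ i) ?_
      simp only [eval_sub, eval_mul, eval_X, eval_C, hY]
      rw [div_mul_cancel₀ _ hnb, sub_self]
    have hdeg : (PP p τ).natDegree < p + 2 := by
      unfold PP
      have h := natDegree_prod_le (Finset.univ : Finset (Option (ZMod p)))
        (fun i => X * C (nb p 12 dl i τ) - C (nb p 10 gg i τ))
      have h2 : ∑ i : Option (ZMod p),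
          (X * C (nb p 12 dl i τ) - C (nb p 10 gg i τ) : ℂ[X]).natDegree ≤
          ∑ i : Option (ZMod p), 1 := Finset.sum_le_sum fun i _ => by compute_degree
      have h3 : ∑ i : Option (ZMod p), 1 = p + 1 := by
        simp [Fintype.card_option, ZMod.card]
      omega
    rw [eval_eq_sum_range' hdeg, Finset.sum_congr rfl (fun s _ => by rw [coeff_PP])] at hPP
    -- multiply by `p^(10p + 2(p+1))` and reindex
    have h8 : ∑ r ∈ Finset.range (p + 2), (p : ℂ) ^ (2 * r) * (RR p τ).coeff (p + 1 - r) *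
        Y ^ (p + 1 - r) = 0 := by
      have h9 := congrArg (fun z => (p : ℂ) ^ (10 * p) * (p : ℂ) ^ (2 * (p + 1)) * z) hPP
      simp only [mul_zero] at h9
      rw [Finset.mul_sum, ← Finset.sum_range_reflect] at h9
      rw [← h9]
      refine Finset.sum_congr rfl fun r hr => ?_
      rw [Finset.mem_range] at hr
      have e1 : p + 2 - 1 - r = p + 1 - r := by omega
      rw [e1]
      have e2 : (p : ℂ) ^ (2 * (p + 1)) = (p : ℂ) ^ (2 * r) * (p : ℂ) ^ (2 * (p + 1 - r)) := by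
        rw [← pow_add]; congr 1; omega
      rw [e2]
      have := pow_ne_zero (10 * p) hp0
      have := pow_ne_zero (2 * (p + 1 - r)) hp0
      field_simp
    have htop : (RR p τ).coeff (p + 1) = (p : ℂ) ^ 2 * dl τ ^ (p + 1) := by
      rw [RR_coeff τ (p + 1) (by omega), NN_top_succ, ← top_eq (p := p) hp τ]
      simp only [Nat.add_sub_cancel, mul_zero, sub_zero, NN_top, EE]
      ring
    -- the sum in terms of `f`
    have h10 : ∀ r ∈ Finset.range (p + 2), (p : ℂ) ^ (2 * r) * (RR p τ).coeff (p + 1 - r) *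
        Y ^ (p + 1 - r) = (dl τ ^ (p + 1) * c ^ (2 * (p + 1))) *
          ((p : ℂ) ^ (2 * r) * f r * y ^ (p + 1 - r)) := by
      intro r hr
      rw [Finset.mem_range] at hr
      rw [hyY, mul_pow, ← pow_mul]
      simp only [hf]
      have e2 : c ^ (2 * (p + 1)) = c ^ (2 * r) * c ^ (2 * (p + 1 - r)) := by
        rw [← pow_add]; congr 1; omega
      rw [e2]
      have := pow_ne_zero (2 * r) hc
      have := pow_ne_zero (p + 1) hdl
      field_simp
    rw [Finset.sum_congr rfl h10, ← Finset.mul_sum] at h8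
    have h11 : ∑ r ∈ Finset.range (p + 2), (p : ℂ) ^ (2 * r) * f r * y ^ (p + 1 - r) = 0 := by
      rcases mul_eq_zero.mp h8 with h | h
      · exact absurd h (mul_ne_zero (pow_ne_zero _ hdl) (pow_ne_zero _ hc))
      · exact h
    have hf0 : f 0 = (p : ℂ) ^ 2 := by
      simp only [hf, mul_zero, pow_zero, inv_one, one_mul, Nat.sub_zero, htop]
      have := pow_ne_zero (p + 1) hdl
      field_simp
    have hsplit : Finset.range (p + 2) = insert 0 (insert 1 (Finset.Icc 2 (p + 1))) := by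
      ext r
      simp only [Finset.mem_range, Finset.mem_insert, Finset.mem_Icc]
      omega
    rw [hsplit, Finset.sum_insert (by simp), Finset.sum_insert (by simp), hf0] at h11
    have h12 : ∑ r ∈ Finset.Icc 2 (p + 1), (p : ℂ) ^ (2 * r) * f r * y ^ (p + 1 - r) =
        (p : ℂ) ^ 2 * ∑ r ∈ Finset.Icc 2 (p + 1), (p : ℂ) ^ (2 * (r - 1)) *
          (if r = 1 then -f 1 else if r ≤ p + 1 then f r else 0) * y ^ (p + 1 - r) := by
      rw [Finset.mul_sum]
      refine Finset.sum_congr rfl fun r hr => ?_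
      rw [Finset.mem_Icc] at hr
      rw [if_neg (by omega), if_pos hr.2]
      have e1 : (p : ℂ) ^ (2 * r) = (p : ℂ) ^ 2 * (p : ℂ) ^ (2 * (r - 1)) := by
        rw [← pow_add]; congr 1; omega
      rw [e1]; ring
    rw [h12] at h11
    simp only [if_true]
    have e2 : p + 1 - 1 = p := by omega
    have h13 : (p : ℂ) ^ 2 * (y ^ (p + 1) - -f 1 * y ^ p +
        ∑ r ∈ Finset.Icc 2 (p + 1), (p : ℂ) ^ (2 * (r - 1)) *
          (if r = 1 then -f 1 else if r ≤ p + 1 then f r else 0) * y ^ (p + 1 - r)) = 0 := by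
      rw [e2] at h11
      simp only [Nat.sub_zero, mul_zero, pow_zero, mul_one] at h11
      linear_combination h11
    rcases mul_eq_zero.mp h13 with h | h
    · exact absurd h (pow_ne_zero 2 hp0)
    · exact h

end Pool.Agent.DEU
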