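import Pool.Agent.DEU.Rep

/-!
# DEU.JSurj: the `j`-function is surjective
-/

namespace Pool.Agent.DEU

open UpperHalfPlane ModularForm MatrixGroups

open Filter Topology SlashInvariantForm in
theorem j_surj (c : ℂ) : ∃ τ : ℍ, jj τ = c := by
  by_contra hno
  push Not at hno
  have hne : ∀ τ : ℍ, e4 τ ^ 3 - c * dl τ ≠ 0 := by
    intro τ h
    apply hno τ
    unfold jj
    rw [div_eq_iff (dl_ne τ)]
    linear_combination h
  set G : ℍ → ℂ := fun τ => dl τ / (e4 τ ^ 3 - c * dl τ) with hG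
  have hS : ∀ τ : ℍ, G (ModularGroup.S • τ) = G τ := by
    intro τ
    have h1 : (τ : ℂ) ≠ 0 := τ.ne_zero
    have h2 := hne τ
    simp only [hG]
    rw [wm_e4.2 τ, wm_dl.2 τ]
    have e1 : ((τ : ℂ) ^ (4 : ℤ) * e4 τ) ^ 3 - c * ((τ : ℂ) ^ (12 : ℤ) * dl τ) =
        (τ : ℂ) ^ (12 : ℤ) * (e4 τ ^ 3 - c * dl τ) := by
      have e2 : ((τ : ℂ) ^ (4 : ℤ)) ^ 3 = (τ : ℂ) ^ (12 : ℤ) := by
        rw [← zpow_natCast, ← zpow_mul]; norm_num
      rw [mul_pow, e2]
      ring
    rw [e1, mul_div_mul_left _ _ (zpow_ne_zero _ h1)]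
  have hT : ∀ τ : ℍ, G ((1 : ℝ) +ᵥ τ) = G τ := by
    intro τ
    simp only [hG]
    rw [wm_e4.1 τ, wm_dl.1 τ]
  have hS' : (G ∣[(0 : ℤ)] ModularGroup.S) = G := by
    ext τ
    rw [SL_slash_apply, neg_zero, zpow_zero, mul_one]
    exact hS τ
  have hT' : (G ∣[(0 : ℤ)] ModularGroup.T) = G := by
    ext τ
    rw [SL_slash_apply, neg_zero, zpow_zero, mul_one, modular_T_smul]
    exact hT τ
  have hdl0 : Tendsto dl atImInfty (𝓝 0) := discriminant_isZeroAtImInfty
  have hlim : Tendsto G atImInfty (𝓝 0) := by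
    have h1 : Tendsto (fun τ => e4 τ ^ 3 - c * dl τ) atImInfty (𝓝 (1 ^ 3 - c * 0)) :=
      (tendsto_e4.pow 3).sub (hdl0.const_mul c)
    have h2 := hdl0.div h1 (by norm_num)
    rw [zero_div] at h2
    exact h2
  have he4 : DifferentiableOn ℂ (e4 ∘ ofComplex) {z : ℂ | 0 < z.im} := by
    obtain ⟨F, hF, _⟩ := rep_e4
    exact hF.mdiff
  have hdl : DifferentiableOn ℂ (dl ∘ ofComplex) {z : ℂ | 0 < z.im} := by
    have := CuspForm.discriminant.holo'
    rw [UpperHalfPlane.mdifferentiable_iff] at this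
    exact this
  let f : ModularForm 𝒮ℒ 0 :=
    { toFun := G
      slash_action_eq' := fun A hA => by
        obtain ⟨A, rfl⟩ := hA
        exact slash_action_generators_SL2Z hS' hT' A
      holo' := by
        rw [UpperHalfPlane.mdifferentiable_iff]
        have h1 : DifferentiableOn ℂ (fun z => (dl ∘ ofComplex) z /
            ((e4 ∘ ofComplex) z ^ 3 - c * (dl ∘ ofComplex) z)) {z : ℂ | 0 < z.im} := by
          apply DifferentiableOn.div hdl
          · exact (he4.pow 3).sub (hdl.const_mul c)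
          · intro z _
            exact hne _
        exact h1
      bdd_at_cusps' := fun {cc} hc => by
        rw [Subgroup.IsArithmetic.isCusp_iff_isCusp_SL2Z] at hc
        rw [OnePoint.isBoundedAt_iff_forall_SL2Z hc]
        intro γ _
        rw [slash_action_generators_SL2Z hS' hT']
        exact hlim.isBigO_one ℝ }
  obtain ⟨d, hd⟩ := ModularFormClass.levelOne_weight_zero_const f
  have hd' : ∀ τ, G τ = d := fun τ => congrFun hd τ
  have hd0 : d = 0 := by
    have h1 : Tendsto G atImInfty (𝓝 d) := by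
      have : G = fun _ => d := funext hd'
      rw [this]
      exact tendsto_const_nhds
    exact tendsto_nhds_unique h1 hlim
  have h1 := hd' UpperHalfPlane.I
  rw [hd0] at h1
  simp only [hG] at h1
  rcases div_eq_zero_iff.mp h1 with h2 | h2
  · exact dl_ne _ h2
  · exact hne _ h2

end Pool.Agent.DEU
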