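import Pool.Agent.DEU.LatE

/-!
# DEU.Sub: a neighbour with the same `j`-invariant gives complex multiplication
-/

namespace Pool.Agent.DEU

open UpperHalfPlane ModularForm MatrixGroups

/-- The scaling factor of the `i`-th sublattice. -/
private noncomputable def slz (p : ℕ) (i : Option (ZMod p)) : ℂ :=
  match i with
  | none => 1
  | some _ => p

/-- The point of the `i`-th sublattice. -/
private noncomputable def szz (p : ℕ) [Fact p.Prime] (i : Option (ZMod p)) (τ : ℍ) : ℍ :=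
  match i with
  | none => tp p τ
  | some k => tk p k.val τ

private lemma slz_ne {p : ℕ} [Fact p.Prime] (i : Option (ZMod p)) : slz p i ≠ 0 := by
  have hp0 : (p : ℂ) ≠ 0 := by exact_mod_cast (Fact.out : p.Prime).ne_zero
  cases i with
  | none => exact one_ne_zero
  | some k => exact hp0

private lemma snb_eq {p : ℕ} [Fact p.Prime] (w : ℕ) (A : ℍ → ℂ) (i : Option (ZMod p)) (τ : ℍ) :
    nb p w A i τ = (slz p i ^ w)⁻¹ * A (szz p i τ) := by
  cases i with
  | none => simp [nb, slz, szz]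
  | some k => simp [nb, slz, szz]

private lemma smem {x y z : ℂ} : z ∈ Submodule.span ℤ ({x, y} : Set ℂ) ↔
    ∃ a b : ℤ, (a : ℂ) * x + (b : ℂ) * y = z := by
  rw [Submodule.mem_span_pair]
  simp only [zsmul_eq_mul]

/-- Unimodular change of basis. -/
private lemma sspan {x y u v : ℂ} {a b c d : ℤ} (hdet : a * d - b * c = 1)
    (hu : u = a * x + b * y) (hv : v = c * x + d * y) :
    Submodule.span ℤ ({u, v} : Set ℂ) = Submodule.span ℤ ({x, y} : Set ℂ) := by
  have hdet' : (a : ℂ) * d - b * c = 1 := by exact_mod_cast hdet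
  apply le_antisymm
  · rw [Submodule.span_le]
    intro z hz
    rcases hz with rfl | hz
    · exact smem.2 ⟨a, b, hu.symm⟩
    · rw [Set.mem_singleton_iff] at hz
      rw [hz]
      exact smem.2 ⟨c, d, hv.symm⟩
  · rw [Submodule.span_le]
    intro z hz
    rcases hz with rfl | hz
    · refine smem.2 ⟨d, -b, ?_⟩
      rw [hu, hv]; push_cast
      linear_combination z * hdet'
    · rw [Set.mem_singleton_iff] at hz
      rw [hz]
      refine smem.2 ⟨-c, a, ?_⟩
      rw [hu, hv]; push_cast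
      linear_combination y * hdet'

private lemma slat_none {p : ℕ} [Fact p.Prime] (τ : ℍ) :
    lat (slz p none) (szz p none τ) = Submodule.span ℤ ({(p : ℂ) * τ, 1} : Set ℂ) := by
  simp [lat, slz, szz]

private lemma slat_some {p : ℕ} [Fact p.Prime] (k : ZMod p) (τ : ℍ) :
    lat (slz p (some k)) (szz p (some k) τ) =
      Submodule.span ℤ ({(τ : ℂ) + (k.val : ℕ), (p : ℂ)} : Set ℂ) := by
  have hp0 : (p : ℂ) ≠ 0 := by exact_mod_cast (Fact.out : p.Prime).ne_zero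
  simp only [lat, slz, szz, coe_tk]
  rw [mul_div_cancel₀ _ hp0]

/-- A sublattice of index `p` is one of the `p + 1` standard ones. -/
private lemma sclass {p : ℕ} [Fact p.Prime] (τ : ℍ) {a b c d : ℤ} (hdet : a * d - b * c = p)
    {l : ℂ} (hu : l * τ = a * τ + b) (hv : l = c * τ + d) :
    ∃ i : Option (ZMod p), lat l τ = lat (slz p i) (szz p i τ) := by
  have hpp : p.Prime := Fact.out
  have hp0 : (p : ℤ) ≠ 0 := by exact_mod_cast hpp.ne_zero
  have hlat : lat l τ = Submodule.span ℤ ({(a : ℂ) * τ + b, (c : ℂ) * τ + d} : Set ℂ) := by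
    unfold lat
    rw [hu, ← hv]
  by_cases hac : (p : ℤ) ∣ a ∧ (p : ℤ) ∣ c
  · obtain ⟨⟨a', ha⟩, ⟨c', hc⟩⟩ := hac
    refine ⟨none, ?_⟩
    rw [hlat, slat_none]
    have h1 : a' * d - b * c' = 1 := by
      have h2 : (p : ℤ) * (a' * d - b * c') = p * 1 := by
        have h3 := hdet
        rw [ha, hc] at h3
        linear_combination h3
      exact mul_left_cancel₀ hp0 h2
    refine sspan h1 ?_ ?_
    · rw [ha]; push_cast; ring
    · rw [hc]; push_cast; ring
  · -- choose `k`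
    have hdet0 : (a : ZMod p) * d - b * c = 0 := by
      have h1 := congrArg (Int.cast : ℤ → ZMod p) hdet
      push_cast at h1
      rw [h1]; simp
    obtain ⟨k, hk1, hk2⟩ : ∃ k : ZMod p, (b : ZMod p) = k * a ∧ (d : ZMod p) = k * c := by
      by_cases ha : (a : ZMod p) = 0
      · have hc : (c : ZMod p) ≠ 0 := by
          intro hc
          exact hac ⟨(ZMod.intCast_zmod_eq_zero_iff_dvd a p).1 ha,
            (ZMod.intCast_zmod_eq_zero_iff_dvd c p).1 hc⟩
        refine ⟨d / c, ?_, ?_⟩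
        · rw [ha, zero_mul, zero_sub, neg_eq_zero] at hdet0
          rw [ha, mul_zero]
          exact (mul_eq_zero.1 hdet0).resolve_right hc
        · field_simp
      · refine ⟨b / a, ?_, ?_⟩
        · field_simp
        · field_simp
          linear_combination hdet0
    refine ⟨some k, ?_⟩
    have hk : ((k.val : ℕ) : ZMod p) = k := ZMod.natCast_zmod_val k
    obtain ⟨b', hb'⟩ : (p : ℤ) ∣ b - k.val * a := by
      rw [← ZMod.intCast_zmod_eq_zero_iff_dvd]
      push_cast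
      rw [hk, hk1, sub_self]
    obtain ⟨d', hd'⟩ : (p : ℤ) ∣ d - k.val * c := by
      rw [← ZMod.intCast_zmod_eq_zero_iff_dvd]
      push_cast
      rw [hk, hk2, sub_self]
    rw [hlat, slat_some]
    have h1 : a * d' - b' * c = 1 := by
      have h2 : (p : ℤ) * (a * d' - b' * c) = p * 1 := by
        linear_combination hdet - a * hd' + c * hb'
      exact mul_left_cancel₀ hp0 h2
    have hb'' : (b : ℂ) - (k.val : ℕ) * a = p * b' := by exact_mod_cast hb'
    have hd'' : (d : ℂ) - (k.val : ℕ) * c = p * d' := by exact_mod_cast hd'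
    refine sspan h1 ?_ ?_
    · linear_combination hb''
    · linear_combination hd''

private lemma sindep (τ : ℍ) {a b c d : ℤ} (h : (a : ℂ) * τ + b = c * τ + d) :
    a = c ∧ b = d := by
  have him : (τ : ℂ).im ≠ 0 := τ.im_pos.ne'
  have h1 := congrArg Complex.im h
  simp only [Complex.add_im, Complex.mul_im, Complex.intCast_re, Complex.intCast_im, zero_mul,
    add_zero] at h1
  have h2 : (a : ℝ) = c := mul_right_cancel₀ him h1
  have h3 : a = c := by exact_mod_cast h2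
  refine ⟨h3, ?_⟩
  rw [h3] at h
  exact_mod_cast add_left_cancel h

/-- The lattice of the `i`-th point is a sublattice of index `p`. -/
private lemma sbasis {p : ℕ} [Fact p.Prime] (τ : ℍ) (i : Option (ZMod p)) :
    ∃ a b c d : ℤ, a * d - b * c = p ∧ lat (slz p i) (szz p i τ) =
      Submodule.span ℤ ({(a : ℂ) * τ + b, (c : ℂ) * τ + d} : Set ℂ) := by
  cases i with
  | none =>
    refine ⟨p, 0, 0, 1, by ring, ?_⟩
    rw [slat_none]
    simp
  | some k =>
    refine ⟨1, k.val, 0, p, by ring, ?_⟩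
    rw [slat_some]
    simp

private lemma svals {p : ℕ} [Fact p.Prime] {τ : ℍ} {i : Option (ZMod p)} {α : ℂ}
    (h4 : (α ^ 4)⁻¹ * e4 τ = (slz p i ^ 4)⁻¹ * e4 (szz p i τ))
    (h6 : (α ^ 6)⁻¹ * e6 τ = (slz p i ^ 6)⁻¹ * e6 (szz p i τ)) :
    nb p 10 (fun τ => e4 τ * e6 τ) i τ = (α ^ 10)⁻¹ * (e4 τ * e6 τ) ∧
      nb p 12 dl i τ = (α ^ 12)⁻¹ * dl τ := by
  constructor
  · have h1 := snb_eq (p := p) 10 (fun τ => e4 τ * e6 τ) i τ
    push_cast at h1
    rw [h1]
    have e1 : (slz p i ^ 10)⁻¹ * (e4 (szz p i τ) * e6 (szz p i τ)) =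
        ((slz p i ^ 4)⁻¹ * e4 (szz p i τ)) * ((slz p i ^ 6)⁻¹ * e6 (szz p i τ)) := by
      rw [show (10 : ℕ) = 4 + 6 from rfl, pow_add, mul_inv]; ring
    have e2 : (α ^ 10)⁻¹ * (e4 τ * e6 τ) = ((α ^ 4)⁻¹ * e4 τ) * ((α ^ 6)⁻¹ * e6 τ) := by
      rw [show (10 : ℕ) = 4 + 6 from rfl, pow_add, mul_inv]; ring
    rw [e1, e2, h4, h6]
  · have h1 := snb_eq (p := p) 12 dl i τ
    push_cast at h1
    rw [h1]
    have e1 : 1728 * ((slz p i ^ 12)⁻¹ * dl (szz p i τ)) =
        ((slz p i ^ 4)⁻¹ * e4 (szz p i τ)) ^ 3 - ((slz p i ^ 6)⁻¹ * e6 (szz p i τ)) ^ 2 := by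
      rw [mul_left_comm, dl_eq, mul_pow, mul_pow, inv_pow, inv_pow, ← pow_mul, ← pow_mul]
      ring
    have e2 : 1728 * ((α ^ 12)⁻¹ * dl τ) =
        ((α ^ 4)⁻¹ * e4 τ) ^ 3 - ((α ^ 6)⁻¹ * e6 τ) ^ 2 := by
      rw [mul_left_comm, dl_eq, mul_pow, mul_pow, inv_pow, inv_pow, ← pow_mul, ← pow_mul]
      ring
    have e3 : (1728 : ℂ) * ((slz p i ^ 12)⁻¹ * dl (szz p i τ)) =
        1728 * ((α ^ 12)⁻¹ * dl τ) := by rw [e1, e2, h4, h6]
    exact mul_left_cancel₀ (by norm_num) e3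

theorem sub_cm {p : ℕ} [Fact p.Prime] {τ : ℍ} (h4 : e4 τ ≠ 0) (h6 : e6 τ ≠ 0)
    {i : Option (ZMod p)}
    (h : e4 τ ^ 3 * nb p 12 dl i τ = dl τ * nb p 12 (fun τ => e4 τ ^ 3) i τ) :
    ∃ (α : ℂ) (t : ℤ) (i' : Option (ZMod p)) (Q : ℤ × ℤ × ℤ),
      α ^ 2 - t * α + p = 0 ∧ t ^ 2 < 4 * p ∧ 0 < Q.1 ∧
      Q.2.1 ^ 2 - 4 * Q.1 * Q.2.2 = t ^ 2 - 4 * p ∧
      (Q.1 : ℂ) * τ ^ 2 + Q.2.1 * τ + Q.2.2 = 0 ∧
      nb p 10 (fun τ => e4 τ * e6 τ) i τ = (α ^ 10)⁻¹ * (e4 τ * e6 τ) ∧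
      nb p 12 dl i τ = (α ^ 12)⁻¹ * dl τ ∧
      nb p 10 (fun τ => e4 τ * e6 τ) i' τ = ((t - α) ^ 10)⁻¹ * (e4 τ * e6 τ) ∧
      nb p 12 dl i' τ = ((t - α) ^ 12)⁻¹ * dl τ := by
  have hpp : p.Prime := Fact.out
  have hpC : (p : ℂ) ≠ 0 := by exact_mod_cast hpp.ne_zero
  set l := slz p i with hl
  set z := szz p i τ with hz
  have hl0 : l ≠ 0 := slz_ne i
  -- the values of the neighbour
  set a4 : ℂ := (l ^ 4)⁻¹ * e4 z with ha4
  set a6 : ℂ := (l ^ 6)⁻¹ * e6 z with ha6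
  have hD : 1728 * ((l ^ 12)⁻¹ * dl z) = a4 ^ 3 - a6 ^ 2 := by
    rw [ha4, ha6, mul_left_comm, dl_eq, mul_pow, mul_pow, inv_pow, inv_pow, ← pow_mul, ← pow_mul]
    ring
  have hD0 : a4 ^ 3 - a6 ^ 2 ≠ 0 := by
    rw [← hD]
    exact mul_ne_zero (by norm_num) (mul_ne_zero (inv_ne_zero (pow_ne_zero _ hl0)) (dl_ne z))
  have hrel : e4 τ ^ 3 * a6 ^ 2 = e6 τ ^ 2 * a4 ^ 3 := by
    have h1 := snb_eq (p := p) 12 dl i τ
    have h2 := snb_eq (p := p) 12 (fun τ => e4 τ ^ 3) i τ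
    push_cast at h1 h2
    rw [h1, h2, ← hl, ← hz] at h
    have h3 : (l ^ 12)⁻¹ * e4 z ^ 3 = a4 ^ 3 := by
      rw [ha4, mul_pow, inv_pow, ← pow_mul]
    rw [h3] at h
    have h4' := dl_eq τ
    linear_combination (-1728 : ℂ) * h + e4 τ ^ 3 * hD - a4 ^ 3 * h4'
  have ha40 : a4 ≠ 0 := by
    intro h0
    rw [h0] at hrel hD0
    have h1 : e4 τ ^ 3 * a6 ^ 2 = 0 := by rw [hrel]; ring
    rcases mul_eq_zero.1 h1 with h2 | h2
    · exact h4 (pow_eq_zero_iff (by norm_num) |>.1 h2)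
    · apply hD0; rw [h2]; ring
  have ha60 : a6 ≠ 0 := by
    intro h0
    rw [h0] at hrel hD0
    have h1 : e6 τ ^ 2 * a4 ^ 3 = 0 := by rw [← hrel]; ring
    rcases mul_eq_zero.1 h1 with h2 | h2
    · exact h6 (pow_eq_zero_iff (by norm_num) |>.1 h2)
    · apply hD0; rw [h2]; ring
  -- the multiplier
  obtain ⟨α, hα⟩ : ∃ α : ℂ, α ^ 2 = (e6 τ * a4) / (a6 * e4 τ) := by
    obtain ⟨α, hα⟩ := IsAlgClosed.exists_pow_nat_eq ((e6 τ * a4) / (a6 * e4 τ))
      (show 0 < 2 by norm_num)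
    exact ⟨α, hα⟩
  have hα0 : α ≠ 0 := by
    intro h0
    rw [h0] at hα
    have : (e6 τ * a4) / (a6 * e4 τ) ≠ 0 :=
      div_ne_zero (mul_ne_zero h6 ha40) (mul_ne_zero ha60 h4)
    exact this (by rw [← hα]; norm_num)
  have hv4 : (α ^ 4)⁻¹ * e4 τ = a4 := by
    have h1 : α ^ 4 = ((e6 τ * a4) / (a6 * e4 τ)) ^ 2 := by rw [← hα]; ring
    rw [h1]
    field_simp
    linear_combination hrel
  have hv6 : (α ^ 6)⁻¹ * e6 τ = a6 := by
    have h1 : α ^ 6 = ((e6 τ * a4) / (a6 * e4 τ)) ^ 3 := by rw [← hα]; ring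
    rw [h1]
    field_simp
    linear_combination hrel
  have hlat : lat α τ = lat l z := lat_eq hα0 hl0 hv4 hv6
  obtain ⟨A, B, C, D, hABCD, hlat2⟩ := sbasis (p := p) τ i
  rw [← hl, ← hz] at hlat2
  rw [hlat2] at hlat
  -- the matrix of multiplication by alpha
  have hmem : ∀ w ∈ lat α τ, ∃ a b : ℤ, w = a * τ + b ∧ ∃ m n : ℤ,
      a = m * A + n * C ∧ b = m * B + n * D := by
    intro w hw
    rw [hlat] at hw
    obtain ⟨m, n, hmn⟩ := smem.1 hw
    refine ⟨m * A + n * C, m * B + n * D, ?_, m, n, rfl, rfl⟩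
    rw [← hmn]; push_cast; ring
  obtain ⟨a, b, hab, m1, n1, ha1, hb1⟩ := hmem (α * τ) (Submodule.subset_span (by simp))
  obtain ⟨c, d, hcd, m2, n2, hc1, hd1⟩ := hmem α (Submodule.subset_span (by simp))
  have hdet1 : a * d - b * c = (m1 * n2 - n1 * m2) * p := by
    rw [ha1, hb1, hc1, hd1, ← hABCD]; ring
  -- conversely
  have hmem2 : ∀ w : ℂ, w ∈ Submodule.span ℤ ({(A : ℂ) * τ + B, (C : ℂ) * τ + D} : Set ℂ) →
      ∃ m n : ℤ, w = (m * a + n * c : ℤ) * τ + (m * b + n * d : ℤ) := by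
    intro w hw
    rw [← hlat] at hw
    obtain ⟨m, n, hmn⟩ := smem.1 hw
    refine ⟨m, n, ?_⟩
    rw [← hmn, hab]
    conv_lhs => rw [hcd]
    push_cast; ring
  obtain ⟨m3, n3, h3⟩ := hmem2 ((A : ℂ) * τ + B) (Submodule.subset_span (by simp))
  obtain ⟨m4, n4, h4'⟩ := hmem2 ((C : ℂ) * τ + D) (Submodule.subset_span (by simp))
  obtain ⟨hA, hB⟩ := sindep τ h3
  obtain ⟨hC, hD'⟩ := sindep τ h4'
  have hdet2 : (p : ℤ) = (m3 * n4 - n3 * m4) * (a * d - b * c) := by
    rw [← hABCD, hA, hB, hC, hD']; ring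
  -- positivity
  have himτ : 0 < (τ : ℂ).im := τ.im_pos
  have hpos : 0 < a * d - b * c := by
    have h1 : ((a * d - b * c : ℤ) : ℝ) * (τ : ℂ).im = Complex.normSq α * (τ : ℂ).im := by
      have e1 : (α * τ) * (starRingEnd ℂ) α = (Complex.normSq α : ℂ) * τ := by
        rw [mul_right_comm, Complex.mul_conj]
      have e2 : (((a : ℂ) * τ + b) * (starRingEnd ℂ) ((c : ℂ) * τ + d)).im =
          ((a * d - b * c : ℤ) : ℝ) * (τ : ℂ).im := by
        simp only [map_add, map_mul, Complex.mul_im, Complex.add_im, Complex.add_re,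
          Complex.mul_re, Complex.conj_re, Complex.conj_im, Complex.intCast_re,
          Complex.intCast_im]
        push_cast
        ring
      have e3 := congrArg Complex.im e1
      rw [hab] at e3
      conv_lhs at e3 => rw [hcd]
      rw [e2] at e3
      rw [e3]
      simp [Complex.mul_im]
    have h2 : 0 < Complex.normSq α := Complex.normSq_pos.2 hα0
    have h3 : (0 : ℝ) < ((a * d - b * c : ℤ) : ℝ) := by
      by_contra hneg
      push Not at hneg
      have h5 : 0 < Complex.normSq α * (τ : ℂ).im := mul_pos h2 himτ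
      rw [← h1] at h5
      exact absurd h5 (not_lt.2 (mul_nonpos_of_nonpos_of_nonneg hneg himτ.le))
    exact_mod_cast h3
  have hdet : a * d - b * c = p := by
    have hppos : (0 : ℤ) < p := by exact_mod_cast hpp.pos
    apply le_antisymm
    · exact Int.le_of_dvd hppos ⟨m3 * n4 - n3 * m4, by rw [hdet2]; ring⟩
    · exact Int.le_of_dvd hpos ⟨m1 * n2 - n1 * m2, by rw [hdet1]; ring⟩
  have hdetC : (a : ℂ) * d - b * c = p := by exact_mod_cast hdet
  have hquad : (c : ℂ) * τ ^ 2 + (d - a) * τ - b = 0 := by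
    have h1 : α * τ = (c * τ + d) * τ := by rw [← hcd]
    rw [hab] at h1
    linear_combination -h1
  have hαq : α ^ 2 - ((a + d : ℤ) : ℂ) * α + p = 0 := by
    push_cast
    rw [← hdetC]
    have h1 : (α - a) * τ = b := by linear_combination hab
    have h2 : α - d = c * τ := by linear_combination hcd
    linear_combination (α - a) * h2 + (c : ℂ) * h1
  have hc0 : c ≠ 0 := by
    intro h0
    rw [h0] at hquad hdet
    have h1 : ((d : ℂ) * τ + ((0 : ℤ) : ℂ)) = a * τ + b := by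
      push_cast at hquad ⊢
      linear_combination hquad
    obtain ⟨h2, h3⟩ := sindep τ h1
    rw [h2] at hdet
    have h4 : a * a = p := by rw [← hdet]; ring
    have h5 : Prime (p : ℤ) := Nat.prime_iff_prime_int.mp hpp
    rw [← h4] at h5
    exact h5.not_isSquare ⟨a, rfl⟩
  have hdisc : (a + d) ^ 2 < 4 * (p : ℤ) := by
    -- `(2 c τ + d - a)² = t² - 4 p`
    have h1 : (2 * (c : ℂ) * τ + (d - a)) ^ 2 = (((a + d) ^ 2 - 4 * p : ℤ) : ℂ) := by
      push_cast
      linear_combination 4 * (c : ℂ) * hquad - 4 * hdetC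
    set w : ℂ := 2 * (c : ℂ) * τ + (d - a) with hw
    have hwim : w.im ≠ 0 := by
      have h2 : w.im = 2 * c * (τ : ℂ).im := by
        rw [hw]
        simp [Complex.mul_im, Complex.mul_re]
      rw [h2]
      have h3 : (c : ℝ) ≠ 0 := by exact_mod_cast hc0
      exact mul_ne_zero (mul_ne_zero two_ne_zero h3) himτ.ne'
    have h2 := congrArg Complex.im h1
    have h3 := congrArg Complex.re h1
    rw [pow_two, Complex.mul_im, Complex.intCast_im] at h2
    rw [pow_two, Complex.mul_re, Complex.intCast_re] at h3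
    have h4 : w.re = 0 := by
      have h5 : 2 * (w.re * w.im) = 0 := by linarith
      rcases mul_eq_zero.1 (mul_eq_zero.1 h5 |>.resolve_left two_ne_zero) with h6 | h6
      · exact h6
      · exact absurd h6 hwim
    rw [h4] at h3
    have h5 : 0 < w.im * w.im := mul_self_pos.2 hwim
    have h6 : (((a + d) ^ 2 - 4 * p : ℤ) : ℝ) < 0 := by rw [← h3]; linarith
    have h7 : (a + d) ^ 2 - 4 * (p : ℤ) < 0 := by exact_mod_cast h6
    linarith
  -- the conjugate
  have hα'0 : (((a + d : ℤ) : ℂ) - α) ≠ 0 := by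
    intro h0
    have h1 : α = ((a + d : ℤ) : ℂ) := (sub_eq_zero.1 h0).symm
    apply hpC
    rw [← hαq]
    rw [h1]; ring
  obtain ⟨i', hi'⟩ := sclass (p := p) τ (a := d) (b := -b) (c := -c) (d := a)
    (l := ((a + d : ℤ) : ℂ) - α) (by rw [← hdet]; ring)
    (by push_cast; linear_combination -hab) (by push_cast; linear_combination -hcd)
  obtain ⟨hv4', hv6'⟩ := lat_val hα'0 (slz_ne i') hi'
  obtain ⟨r1, r2⟩ := svals (p := p) (i := i) (τ := τ) hv4 hv6
  obtain ⟨r3, r4⟩ := svals (p := p) (i := i') (τ := τ) hv4' hv6'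
  have hquad2 : ∃ Q : ℤ × ℤ × ℤ, 0 < Q.1 ∧
      Q.2.1 ^ 2 - 4 * Q.1 * Q.2.2 = (a + d) ^ 2 - 4 * p ∧
      (Q.1 : ℂ) * τ ^ 2 + Q.2.1 * τ + Q.2.2 = 0 := by
    rcases lt_or_gt_of_ne hc0 with hc | hc
    · refine ⟨(-c, a - d, b), by simpa using hc, ?_, ?_⟩
      · simp only
        linear_combination -4 * hdet
      · push_cast
        linear_combination -hquad
    · refine ⟨(c, d - a, -b), hc, ?_, ?_⟩
      · simp only
        linear_combination -4 * hdet
      · push_cast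
        linear_combination hquad
  obtain ⟨Q, hQ1, hQ2, hQ3⟩ := hquad2
  exact ⟨α, a + d, i', Q, hαq, hdisc, hQ1, hQ2, hQ3, r1, r2, r3, r4⟩

end Pool.Agent.DEU
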