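import Pool.Agent.DEU.Defs

/-!
# DEU.Val: the valuation argument
-/

namespace Pool.Agent.DEU

private lemma val_mul_lt (V : ValuationSubring ℂ) {a b : ℂ} (ha : V.valuation a < 1)
    (hb : V.valuation b ≤ 1) : V.valuation (a * b) < 1 := by
  rw [map_mul]
  exact lt_of_le_of_lt (mul_le_of_le_one_right' hb) ha

private lemma val_mul_lt' (V : ValuationSubring ℂ) {a b : ℂ} (ha : V.valuation a ≤ 1)
    (hb : V.valuation b < 1) : V.valuation (a * b) < 1 := by
  rw [mul_comm]; exact val_mul_lt V hb ha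

private lemma val_mem (V : ValuationSubring ℂ) {a : ℂ} : a ∈ V ↔ V.valuation a ≤ 1 :=
  (V.valuation_le_one_iff a).symm

private lemma val_add_lt (V : ValuationSubring ℂ) {a b : ℂ} (ha : V.valuation a < 1)
    (hb : V.valuation b < 1) : V.valuation (a + b) < 1 := Valuation.map_add_lt _ ha hb

private lemma val_sub_lt (V : ValuationSubring ℂ) {a b : ℂ} (ha : V.valuation a < 1)
    (hb : V.valuation b < 1) : V.valuation (a - b) < 1 := by
  rw [sub_eq_add_neg]
  exact val_add_lt V ha (by rw [Valuation.map_neg]; exact hb)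

private lemma val_of_pow (V : ValuationSubring ℂ) {a : ℂ} {n : ℕ}
    (h : V.valuation (a ^ n) < 1) : V.valuation a < 1 := by
  by_contra hle
  push Not at hle
  rw [map_pow] at h
  exact absurd h (not_lt.2 (one_le_pow_of_one_le' hle n))

private lemma val_pow_lt (V : ValuationSubring ℂ) {a : ℂ} {n : ℕ} (hn : n ≠ 0)
    (h : V.valuation a < 1) : V.valuation (a ^ n) < 1 := by
  rw [map_pow]
  exact pow_lt_one' h hn

/-- There is a valuation ring of `ℂ` dominating `ℤ_(p)`. -/
theorem exists_V (p : ℕ) [Fact p.Prime] :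
    ∃ V : ValuationSubring ℂ, (∀ z ∈ Zp p, z ∈ V) ∧ V.valuation (p : ℂ) < 1 := by
  have hpZ : (p : ℂ) ∈ Zp p := natCast_mem (Zp p) p
  have hI : Ideal.span {(⟨p, hpZ⟩ : Zp p)} ≠ ⊤ := by
    intro h
    rw [Ideal.eq_top_iff_one, Ideal.mem_span_singleton'] at h
    obtain ⟨⟨z, a, b, hb, hz⟩, h2⟩ := h
    have h3 : z * (p : ℂ) = 1 := congrArg Subtype.val h2
    apply hb
    have h4 : (b : ℂ) = (p : ℂ) * a := by
      rw [← hz]
      calc (b : ℂ) = (z * p) * b := by rw [h3, one_mul]
        _ = _ := by ring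
    exact ⟨a, by exact_mod_cast h4⟩
  obtain ⟨B, h1, h2⟩ := Ideal.image_subset_nonunits_valuationSubring _ hI
  refine ⟨B, fun z hz => h1 hz, ?_⟩
  have h3 : (p : ℂ) ∈ B.nonunits := h2 ⟨⟨p, hpZ⟩, Ideal.subset_span rfl, rfl⟩
  exact (ValuationSubring.mem_nonunits_iff B).1 h3

/-- An integer whose valuation is less than one is divisible by `p`. -/
theorem dvd_of_val {p : ℕ} [Fact p.Prime] (V : ValuationSubring ℂ) (hV : ∀ z ∈ Zp p, z ∈ V)
    {n : ℤ} (h : V.valuation (n : ℂ) < 1) : (p : ℤ) ∣ n := by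
  by_contra hn
  have hn0 : (n : ℂ) ≠ 0 := by
    intro h0
    apply hn
    have : n = 0 := by exact_mod_cast h0
    rw [this]; exact dvd_zero _
  have h1 : (n : ℂ)⁻¹ ∈ Zp p := ⟨1, n, hn, by rw [inv_mul_cancel₀ hn0]; simp⟩
  have h2 := (val_mem V).1 (hV _ h1)
  have h3 := val_mul_lt V h h2
  rw [mul_inv_cancel₀ hn0, map_one] at h3
  exact lt_irrefl _ h3

/-- `z^p - z` is in the maximal ideal for `z` in `ℤ_(p)`. -/
theorem val_frob {p : ℕ} [Fact p.Prime] (V : ValuationSubring ℂ) (hV : ∀ z ∈ Zp p, z ∈ V)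
    (hp : V.valuation (p : ℂ) < 1) {z : ℂ} (hz : z ∈ Zp p) : V.valuation (z ^ p - z) < 1 := by
  obtain ⟨a, b, hb, hz⟩ := hz
  have hpp : p.Prime := Fact.out
  have hb0 : (b : ℂ) ≠ 0 := by
    intro h0
    apply hb
    have : b = 0 := by exact_mod_cast h0
    rw [this]; exact dvd_zero _
  have hdvd : (p : ℤ) ∣ a ^ p - a * b ^ (p - 1) := by
    rw [← ZMod.intCast_zmod_eq_zero_iff_dvd]
    push_cast
    have hb1 : (b : ZMod p) ≠ 0 := by
      intro h
      exact hb ((ZMod.intCast_zmod_eq_zero_iff_dvd b p).1 h)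
    rw [ZMod.pow_card, ZMod.pow_card_sub_one_eq_one hb1, mul_one, sub_self]
  obtain ⟨c, hc⟩ := hdvd
  have hbp : ¬ (p : ℤ) ∣ b ^ p := fun h =>
    hb ((Nat.prime_iff_prime_int.mp hpp).dvd_of_dvd_pow h)
  have hw : (c : ℂ) / (b : ℂ) ^ p ∈ Zp p :=
    ⟨c, b ^ p, hbp, by push_cast; field_simp⟩
  have hc' : (a : ℂ) ^ p - a * (b : ℂ) ^ (p - 1) = p * c := by exact_mod_cast hc
  have hbb : (b : ℂ) ^ p = b ^ (p - 1) * b := by
    rw [← pow_succ]; congr 1; have := hpp.pos; omega
  have hz2 : z ^ p - z = (p : ℂ) * (c / (b : ℂ) ^ p) := by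
    have h1 : (z ^ p - z) * (b : ℂ) ^ p = p * c := by
      rw [← hc', sub_mul, ← mul_pow, hz]
      congr 1
      rw [hbb, ← hz]; ring
    field_simp
    rw [mul_comm] at h1
    rw [mul_comm, mul_comm (b ^ p : ℂ)] at *
    linear_combination h1
  rw [hz2]
  exact val_mul_lt V hp ((val_mem V).1 (hV _ hw))

/-- The trace is determined modulo the maximal ideal, up to sign. -/
theorem val_trace {p : ℕ} [Fact p.Prime] (V : ValuationSubring ℂ) (hV : ∀ z ∈ Zp p, z ∈ V)
    (hp : V.valuation (p : ℂ) < 1) {α : ℂ} {t : ℤ} (hα : α ^ 2 - t * α + p = 0) {y H : ℂ}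
    (hy : V.valuation y = 1) (hH : H ∈ V) (hyp : V.valuation (y ^ p - y) < 1) {e : ℕ → ℂ}
    (he : ∀ r, e r ∈ V) (he1 : V.valuation (e 1 - H ^ 2 * y ^ p) < 1)
    (hroot : ∀ z : ℂ, z = α ^ 2 * y ∨ z = (t - α) ^ 2 * y →
      z ^ (p + 1) - e 1 * z ^ p +
        ∑ r ∈ Finset.Icc 2 (p + 1), (p : ℂ) ^ (2 * (r - 1)) * e r * z ^ (p + 1 - r) = 0) :
    V.valuation ((t : ℂ) ^ 2 - H ^ 2) < 1 := by
  have hpp : p.Prime := Fact.out
  have hp0 : (p : ℂ) ≠ 0 := by exact_mod_cast hpp.ne_zero
  have ht : V.valuation (t : ℂ) ≤ 1 := (val_mem V).1 (hV _ (intCast_mem (Zp p) t))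
  have hpV : V.valuation (p : ℂ) ≤ 1 := hp.le
  have hHv : V.valuation H ≤ 1 := (val_mem V).1 hH
  have hev : ∀ r, V.valuation (e r) ≤ 1 := fun r => (val_mem V).1 (he r)
  have hy0 : y ≠ 0 := by
    intro h; rw [h, map_zero] at hy; exact zero_ne_one hy
  have hprod : ∀ β : ℂ, β ^ 2 - t * β + p = 0 → β * (t - β) = p := by
    intro β hβ; linear_combination -hβ
  -- the roots are integral
  have hint : ∀ β : ℂ, β ^ 2 - t * β + p = 0 → V.valuation β ≤ 1 := by
    intro β hβ
    rcases V.mem_or_inv_mem β with h | h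
    · exact (val_mem V).1 h
    · have hβ0 : β ≠ 0 := by
        rintro rfl
        apply hp0
        simpa using hβ
      have h1 : β = t - p * β⁻¹ := by
        field_simp
        linear_combination hβ
      rw [h1]
      refine (Valuation.map_sub _ _ _).trans (max_le ht ?_)
      exact (val_mul_lt V hp ((val_mem V).1 h)).le
  have hα' : ((t : ℂ) - α) ^ 2 - t * (t - α) + p = 0 := by linear_combination hα
  have hval2 : ∀ β : ℂ, V.valuation (β ^ 2 * y) = V.valuation β ^ 2 := by
    intro β; rw [map_mul, hy, mul_one, map_pow]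
  -- the tail of the equation has small valuation
  have htail : ∀ z : ℂ, V.valuation z ≤ 1 → V.valuation
      (∑ r ∈ Finset.Icc 2 (p + 1), (p : ℂ) ^ (2 * (r - 1)) * e r * z ^ (p + 1 - r)) < 1 := by
    intro z hz
    refine Valuation.map_sum_lt _ one_ne_zero fun r hr => ?_
    rw [Finset.mem_Icc] at hr
    refine val_mul_lt V (val_mul_lt V (val_pow_lt V (by omega) hp) (hev r)) ?_
    rw [map_pow]
    exact pow_le_one' hz _
  -- the case of a unit root
  have hunit : ∀ β : ℂ, (β = α ∨ β = t - α) → V.valuation β = 1 →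
      V.valuation (β ^ 2 - H ^ 2) < 1 := by
    intro β hβ hβ1
    have hz1 : V.valuation (β ^ 2 * y) = 1 := by rw [hval2, hβ1, one_pow]
    have hr := hroot (β ^ 2 * y) (by rcases hβ with h | h <;> rw [h] <;> simp)
    have h1 : V.valuation ((β ^ 2 * y) ^ p * (β ^ 2 * y - e 1)) < 1 := by
      have h2 : (β ^ 2 * y) ^ p * (β ^ 2 * y - e 1) =
          -∑ r ∈ Finset.Icc 2 (p + 1), (p : ℂ) ^ (2 * (r - 1)) * e r *
            (β ^ 2 * y) ^ (p + 1 - r) := by
        linear_combination hr
      rw [h2, Valuation.map_neg]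
      exact htail _ hz1.le
    rw [map_mul, map_pow, hz1, one_pow, one_mul] at h1
    -- β² y ≡ e 1 ≡ H² y^p ≡ H² y
    have h2 : V.valuation ((β ^ 2 - H ^ 2) * y) < 1 := by
      have h3 : (β ^ 2 - H ^ 2) * y = (β ^ 2 * y - e 1) + (e 1 - H ^ 2 * y ^ p) +
          H ^ 2 * (y ^ p - y) := by ring
      rw [h3]
      refine val_add_lt V (val_add_lt V h1 he1) (val_mul_lt' V ?_ hyp)
      rw [map_pow]; exact pow_le_one' hHv _
    rwa [map_mul, hy, mul_one] at h2
  have hfin : ∀ β : ℂ, (β = α ∨ β = t - α) → V.valuation β = 1 →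
      V.valuation ((t : ℂ) ^ 2 - H ^ 2) < 1 := by
    intro β hβ hβ1
    have hβe : β ^ 2 - t * β + p = 0 := by
      rcases hβ with h | h
      · rw [h]; exact hα
      · rw [h]; exact hα'
    have h1 := hunit β hβ hβ1
    have h2 : V.valuation ((t : ℂ) - β) < 1 := by
      have h3 := hprod β hβe
      have h4 : V.valuation (β * (t - β)) < 1 := by rw [h3]; exact hp
      rwa [map_mul, hβ1, one_mul] at h4
    have h3 : (t : ℂ) ^ 2 - H ^ 2 = (β ^ 2 - H ^ 2) + (t - β) * (t + β) := by ring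
    rw [h3]
    refine val_add_lt V h1 (val_mul_lt V h2 ?_)
    exact (Valuation.map_add _ _ _).trans (max_le ht hβ1.le)
  rcases lt_or_eq_of_le (hev 1) with hc | hc
  · -- supersingular case
    have hH2 : V.valuation (H ^ 2) < 1 := by
      have h1 : V.valuation (H ^ 2 * y ^ p) < 1 := by
        have h2 : H ^ 2 * y ^ p = e 1 - (e 1 - H ^ 2 * y ^ p) := by ring
        rw [h2]; exact val_sub_lt V hc he1
      rwa [map_mul, map_pow V.valuation y, hy, one_pow, mul_one] at h1
    have hsmall : ∀ β : ℂ, (β = α ∨ β = t - α) → V.valuation β < 1 := by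
      intro β hβ
      have hβe : β ^ 2 - t * β + p = 0 := by
        rcases hβ with h | h
        · rw [h]; exact hα
        · rw [h]; exact hα'
      have hβ1 := hint β hβe
      have hz1 : V.valuation (β ^ 2 * y) ≤ 1 := by rw [hval2]; exact pow_le_one' hβ1 _
      have hr := hroot (β ^ 2 * y) (by rcases hβ with h | h <;> rw [h] <;> simp)
      have h1 : V.valuation ((β ^ 2 * y) ^ (p + 1)) < 1 := by
        have h2 : (β ^ 2 * y) ^ (p + 1) = e 1 * (β ^ 2 * y) ^ p -
            ∑ r ∈ Finset.Icc 2 (p + 1), (p : ℂ) ^ (2 * (r - 1)) * e r *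
              (β ^ 2 * y) ^ (p + 1 - r) := by
          linear_combination hr
        rw [h2]
        refine val_sub_lt V (val_mul_lt V hc ?_) (htail _ hz1)
        rw [map_pow]; exact pow_le_one' hz1 _
      have h2 := val_of_pow V h1
      rw [map_mul, hy, mul_one] at h2
      exact val_of_pow V h2
    have h1 := hsmall α (Or.inl rfl)
    have h2 := hsmall (t - α) (Or.inr rfl)
    have h3 : V.valuation (t : ℂ) < 1 := by
      have h4 : (t : ℂ) = α + (t - α) := by ring
      rw [h4]; exact val_add_lt V h1 h2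
    exact val_sub_lt V (val_pow_lt V (by norm_num) h3) hH2
  · -- ordinary case
    by_cases hαu : V.valuation α = 1
    · exact hfin α (Or.inl rfl) hαu
    · have hαlt : V.valuation α < 1 := lt_of_le_of_ne (hint α hα) hαu
      have hα0 : α ≠ 0 := by
        rintro rfl
        apply hp0
        simpa using hα
      have hα'1 := hint (t - α) hα'
      refine hfin (t - α) (Or.inr rfl) (le_antisymm hα'1 ?_)
      have hpe := hprod α hα
      have hα'0 : (t : ℂ) - α ≠ 0 := by
        intro h; rw [h, mul_zero] at hpe; exact hp0 hpe.symm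
      -- z = α² y, claim z / p² is integral
      set z : ℂ := α ^ 2 * y with hz
      have hz0 : z ≠ 0 := mul_ne_zero (pow_ne_zero _ hα0) hy0
      have hzlt : V.valuation z < 1 := by rw [hz, hval2]; exact pow_lt_one' hαlt (by norm_num)
      have hclaim : V.valuation (z / (p : ℂ) ^ 2) ≤ 1 := by
        by_contra hcon
        push Not at hcon
        have hν : V.valuation ((p : ℂ) ^ 2 / z) < 1 := by
          have h1 : (p : ℂ) ^ 2 / z = (z / (p : ℂ) ^ 2)⁻¹ := by rw [inv_div]
          rw [h1, map_inv₀]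
          exact inv_lt_one_of_one_lt₀ hcon
        set ν : ℂ := (p : ℂ) ^ 2 / z with hνdef
        have hνz : (p : ℂ) ^ 2 = z * ν := by rw [hνdef]; field_simp
        have hr := hroot z (Or.inl rfl)
        have hsum : ∑ r ∈ Finset.Icc 2 (p + 1), (p : ℂ) ^ (2 * (r - 1)) * e r *
            z ^ (p + 1 - r) = z ^ p * ∑ r ∈ Finset.Icc 2 (p + 1), e r * ν ^ (r - 1) := by
          rw [Finset.mul_sum]
          refine Finset.sum_congr rfl fun r hr => ?_
          rw [Finset.mem_Icc] at hr
          rw [pow_mul, hνz, mul_pow]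
          have h1 : z ^ p = z ^ (r - 1) * z ^ (p + 1 - r) := by
            rw [← pow_add]; congr 1; omega
          rw [h1]; ring
        rw [hsum] at hr
        have h1 : z ^ p * (z - e 1 + ∑ r ∈ Finset.Icc 2 (p + 1), e r * ν ^ (r - 1)) = 0 := by
          linear_combination hr
        have h2 := (mul_eq_zero.1 h1).resolve_left (pow_ne_zero _ hz0)
        have h3 : V.valuation (e 1) < 1 := by
          have h4 : e 1 = z + ∑ r ∈ Finset.Icc 2 (p + 1), e r * ν ^ (r - 1) := by
            linear_combination -h2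
          rw [h4]
          refine val_add_lt V hzlt (Valuation.map_sum_lt _ one_ne_zero fun r hr => ?_)
          rw [Finset.mem_Icc] at hr
          exact val_mul_lt' V (hev r) (val_pow_lt V (by omega) hν)
        exact absurd hc h3.ne
      have hαp : V.valuation (α / p) ≤ 1 := by
        by_contra hcon
        push Not at hcon
        have h1 : z / (p : ℂ) ^ 2 = (α / p) ^ 2 * y := by rw [hz]; field_simp
        rw [h1, hval2] at hclaim
        exact absurd hclaim (not_le.2 (one_lt_pow' hcon (by norm_num)))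
      have h1 : V.valuation ((t - α) * (α / p)) = 1 := by
        have h2 : ((t : ℂ) - α) * (α / p) = 1 := by
          field_simp
          linear_combination hpe
        rw [h2, map_one]
      rw [map_mul] at h1
      rw [← h1]
      exact mul_le_of_le_one_right' hαp

end Pool.Agent.DEU
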