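import Pool.Agent.DEU.Phi
import Pool.Agent.DEU.FP
import Pool.Agent.DEU.JSurj
import Pool.Agent.DEU.Sub
import Pool.Agent.DEU.Val
import Pool.Agent.H11.DEU.Trace

/-!
# DEU.Deuring: canonical lifts
-/

namespace Pool.Agent.DEU

open UpperHalfPlane ModularForm MatrixGroups

open Polynomial in
/-- A point at which a monic polynomial over a valuation ring is small is near a root. -/
theorem deuring_root_near (V : ValuationSubring ℂ) (F : ℂ[X]) (hm : F.Monic)
    (hc : ∀ i, F.coeff i ∈ V) (z : ℂ) (hz : V.valuation (F.eval z) < 1) :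
    ∃ r, F.eval r = 0 ∧ r ∈ V ∧ V.valuation (z - r) < 1 := by
  have hs : F = (F.roots.map fun a => X - C a).prod := by
    have h := (IsAlgClosed.splits F).eq_prod_roots
    rw [hm.leadingCoeff, C_1, one_mul] at h
    exact h
  have hev : F.eval z = (F.roots.map fun a => z - a).prod := by
    conv_lhs => rw [hs]
    rw [eval_multiset_prod, Multiset.map_map]
    simp
  have hex : ∃ r ∈ F.roots, V.valuation (z - r) < 1 := by
    by_contra hcon
    push Not at hcon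
    rw [hev, map_multiset_prod, Multiset.map_map] at hz
    have : 1 ≤ (F.roots.map (V.valuation ∘ fun a => z - a)).prod := by
      refine Multiset.prod_induction (fun x => 1 ≤ x) _ (fun a b ha hb => one_le_mul ha hb)
        le_rfl ?_
      intro x hx
      obtain ⟨r, hr, rfl⟩ := Multiset.mem_map.1 hx
      exact hcon r hr
    exact absurd hz (not_lt.2 this)
  obtain ⟨r, hr, hval⟩ := hex
  have hr0 : F.eval r = 0 := (mem_roots'.1 hr).2
  refine ⟨r, hr0, ?_, hval⟩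
  have hlift : F ∈ Polynomial.lifts (algebraMap V ℂ) := by
    rw [Polynomial.lifts_iff_coeff_lifts]
    intro n
    exact ⟨⟨F.coeff n, hc n⟩, rfl⟩
  obtain ⟨q, hq, -, hqm⟩ := Polynomial.lifts_and_natDegree_eq_and_monic hlift hm
  have hint : IsIntegral V r := by
    refine ⟨q, hqm, ?_⟩
    rw [eval₂_eq_eval_map, hq, hr0]
  have h := IsIntegrallyClosed.isIntegral_iff.1 hint
  obtain ⟨y, hy⟩ := h
  rw [← hy]
  exact y.2

/-- The Hasse invariant is congruent to the trace. -/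
theorem deuring_H_mod {p : ℕ} [Fact p.Prime] (hp5 : 5 ≤ p) (V : ValuationSubring ℂ)
    (hV : ∀ z ∈ Zp p, z ∈ V) (hp : V.valuation (p : ℂ) < 1) (w : ZMod p) {w2 : ℂ}
    (hw2 : w2 ∈ V) (h2 : V.valuation (w2 - w.val) < 1) :
    Hp p (-w2 / 48) (w2 / 864) ∈ V ∧
      V.valuation (Hp p (-w2 / 48) (w2 / 864) - ((Pool.Agent.H11.DEU.tr (-w / 48) (w / 864) : ℤ) : ℂ)) < 1 := by
  have hpp : p.Prime := Fact.out
  have h48 : ¬ p ∣ 48 := by
    intro h
    have h1 : p ∣ 2 ^ 4 * 3 := by norm_num; exact h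
    rcases (Nat.Prime.dvd_mul hpp).1 h1 with h2 | h2
    · have := Nat.le_of_dvd (by norm_num) (hpp.dvd_of_dvd_pow h2)
      omega
    · have := Nat.le_of_dvd (by norm_num) h2
      omega
  have h864 : ¬ p ∣ 864 := by
    intro h
    have h1 : p ∣ 2 ^ 5 * 3 ^ 3 := by norm_num; exact h
    rcases (Nat.Prime.dvd_mul hpp).1 h1 with h2 | h2
    · have := Nat.le_of_dvd (by norm_num) (hpp.dvd_of_dvd_pow h2)
      omega
    · have := Nat.le_of_dvd (by norm_num) (hpp.dvd_of_dvd_pow h2)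
      omega
  have i48 : ((48 : ℤ) : ℂ)⁻¹ ∈ V := hV _ (inv_mem_Zp (by exact_mod_cast h48))
  have i864 : ((864 : ℤ) : ℂ)⁻¹ ∈ V := hV _ (inv_mem_Zp (by exact_mod_cast h864))
  push_cast at i48 i864
  have ha : -w2 / 48 ∈ V := by
    rw [div_eq_mul_inv]
    exact V.mul_mem _ _ (V.neg_mem _ hw2) i48
  have hb : w2 / 864 ∈ V := by
    rw [div_eq_mul_inv]
    exact V.mul_mem _ _ hw2 i864
  set a' : V := ⟨-w2 / 48, ha⟩ with ha'
  set b' : V := ⟨w2 / 864, hb⟩ with hb'
  have hH : V.subtype (Hp p a' b') = Hp p (-w2 / 48) (w2 / 864) := Hp_map V.subtype a' b'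
  have hH' : ((Hp p a' b' : V) : ℂ) = Hp p (-w2 / 48) (w2 / 864) := hH
  refine ⟨by rw [← hH']; exact (Hp p a' b').2, ?_⟩
  let π := IsLocalRing.residue V
  have hπ : ∀ x : V, V.valuation (x : ℂ) < 1 ↔ π x = 0 := by
    intro x
    rw [← ValuationSubring.valuation_lt_one_iff]
    exact (IsLocalRing.residue_eq_zero_iff x).symm
  have hpk : (p : IsLocalRing.ResidueField V) = 0 := by
    have h := (hπ (p : V)).1 (by push_cast; exact hp)
    rw [map_natCast] at h
    exact h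
  have : CharP (IsLocalRing.ResidueField V) p := (CharP.charP_iff_prime_eq_zero hpp).2 hpk
  let φ : ZMod p →+* IsLocalRing.ResidueField V := ZMod.castHom (dvd_refl p) _
  have hφw : φ w = π (w.val : V) := by
    rw [map_natCast]
    conv_lhs => rw [← ZMod.natCast_zmod_val w]
    rw [map_natCast]
  have hne : ∀ n : ℕ, ¬ p ∣ n → (n : IsLocalRing.ResidueField V) ≠ 0 := by
    intro n hn h0
    exact hn ((CharP.cast_eq_zero_iff (IsLocalRing.ResidueField V) p n).1 h0)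
  have k48 : (48 : IsLocalRing.ResidueField V) ≠ 0 := by
    have := hne 48 h48
    exact_mod_cast this
  have k864 : (864 : IsLocalRing.ResidueField V) ≠ 0 := by
    have := hne 864 h864
    exact_mod_cast this
  set w2' : V := ⟨w2, hw2⟩ with hw2'
  have hπw : π w2' = φ w := by
    rw [hφw, ← sub_eq_zero, ← map_sub, ← hπ]
    push_cast
    exact h2
  have hπa : π a' = φ (-w / 48) := by
    have h1 : a' * ((48 : ℕ) : V) = -w2' := by
      apply Subtype.ext
      have e : V.subtype ((48 : ℕ) : V) = ((48 : ℕ) : ℂ) := map_natCast V.subtype 48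
      show -w2 / 48 * V.subtype ((48 : ℕ) : V) = -w2
      rw [e]
      push_cast
      ring
    have h3 : π a' * ((48 : ℕ) : IsLocalRing.ResidueField V) = -π w2' := by
      have := congrArg π h1
      rw [map_mul, map_neg, map_natCast] at this
      exact this
    have e2 : φ 48 = ((48 : ℕ) : IsLocalRing.ResidueField V) := by
      have := map_natCast φ 48
      exact_mod_cast this
    rw [map_div₀, map_neg, ← hπw, e2, eq_div_iff (by exact_mod_cast k48)]
    exact h3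
  have hπb : π b' = φ (w / 864) := by
    have h1 : b' * ((864 : ℕ) : V) = w2' := by
      apply Subtype.ext
      have e : V.subtype ((864 : ℕ) : V) = ((864 : ℕ) : ℂ) := map_natCast V.subtype 864
      show w2 / 864 * V.subtype ((864 : ℕ) : V) = w2
      rw [e]
      push_cast
      ring
    have h3 : π b' * ((864 : ℕ) : IsLocalRing.ResidueField V) = π w2' := by
      have := congrArg π h1
      rw [map_mul, map_natCast] at this
      exact this
    have e2 : φ 864 = ((864 : ℕ) : IsLocalRing.ResidueField V) := by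
      have := map_natCast φ 864
      exact_mod_cast this
    rw [map_div₀, ← hπw, e2, eq_div_iff (by exact_mod_cast k864)]
    exact h3
  have hπH : π (Hp p a' b') =
      ((Pool.Agent.H11.DEU.tr (-w / 48) (w / 864) : ℤ) : IsLocalRing.ResidueField V) := by
    have h7 : Hp p (-w / 48) (w / 864) = ((Pool.Agent.H11.DEU.tr (-w / 48) (w / 864) : ℤ) : ZMod p) :=
      (Pool.Agent.H11.DEU.tr_coeff (by omega) _ _).symm
    rw [Hp_map π, hπa, hπb, ← Hp_map φ, h7, map_intCast]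
  have h5 : V.valuation (((Hp p a' b' -
      ((Pool.Agent.H11.DEU.tr (-w / 48) (w / 864) : ℤ) : V) : V)) : ℂ) < 1 := by
    rw [hπ, map_sub, hπH, map_intCast, sub_self]
  push_cast at h5
  rw [hH'] at h5
  exact h5

theorem deuring_near {V : ValuationSubring ℂ} {a b : ℂ} (h : V.valuation (a - b) < 1)
    (ha : V.valuation a = 1) : V.valuation b = 1 := by
  have h1 : b = (b - a) + a := by ring
  rw [h1, Valuation.map_add_eq_of_lt_right, ha]
  rw [ha, Valuation.map_sub_swap]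
  exact h

theorem deuring_mul_lt {V : ValuationSubring ℂ} {a b : ℂ} (ha : V.valuation a < 1) (hb : b ∈ V) :
    V.valuation (a * b) < 1 := by
  rw [map_mul]
  have hb' : V.valuation b ≤ 1 := (ValuationSubring.valuation_le_one_iff V b).2 hb
  calc V.valuation a * V.valuation b ≤ V.valuation a * 1 := mul_le_mul_right hb' _
    _ < 1 := by rw [mul_one]; exact ha

theorem deuring_add_lt {V : ValuationSubring ℂ} {a b : ℂ} (ha : V.valuation a < 1)
    (hb : V.valuation b < 1) : V.valuation (a + b) < 1 := Valuation.map_add_lt _ ha hb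

theorem deuring_mem_of_lt {V : ValuationSubring ℂ} {a : ℂ} (ha : V.valuation a < 1) : a ∈ V :=
  (ValuationSubring.valuation_le_one_iff V a).1 ha.le

theorem deuring_pow_sub {V : ValuationSubring ℂ} {a b : ℂ} (ha : a ∈ V) (hb : b ∈ V)
    (h : V.valuation (a - b) < 1) (n : ℕ) : V.valuation (a ^ n - b ^ n) < 1 := by
  induction n with
  | zero => simp
  | succ n ih =>
    have h1 : a ^ (n + 1) - b ^ (n + 1) = (a - b) * a ^ n + (a ^ n - b ^ n) * b := by ring
    rw [h1]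
    exact deuring_add_lt (deuring_mul_lt h (pow_mem ha n)) (deuring_mul_lt ih hb)

theorem deuring_int {p : ℕ} [Fact p.Prime] {V : ValuationSubring ℂ} (hV : ∀ z ∈ Zp p, z ∈ V)
    {n : ℤ} (hn : ¬ (p : ℤ) ∣ n) : V.valuation (n : ℂ) = 1 := by
  have h1 : V.valuation (n : ℂ) ≤ 1 :=
    (ValuationSubring.valuation_le_one_iff V _).2 (hV _ (int_mem_Zp n))
  have h2 : V.valuation ((n : ℂ)⁻¹) ≤ 1 :=
    (ValuationSubring.valuation_le_one_iff V _).2 (hV _ (inv_mem_Zp hn))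
  have hn0 : (n : ℂ) ≠ 0 := by
    intro h
    have : n = 0 := by exact_mod_cast h
    rw [this] at hn
    exact hn (dvd_zero _)
  rw [map_inv₀] at h2
  have h3 : V.valuation (n : ℂ) ≠ 0 := (Valuation.ne_zero_iff _).2 hn0
  refine le_antisymm h1 ?_
  by_contra hlt
  push Not at hlt
  exact absurd h2 (not_le.2 ((one_lt_inv₀ (zero_lt_iff.2 h3)).2 hlt))

open Polynomial in
/-- The canonical lift of one curve. -/
theorem deuring_one {p : ℕ} [Fact p.Prime] (hp5 : 5 ≤ p) (V : ValuationSubring ℂ)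
    (hV : ∀ z ∈ Zp p, z ∈ V) (hpV : V.valuation (p : ℂ) < 1) (P : ℂ[X])
    (hPc : ∀ i, P.coeff i ∈ Zp p) (hPd : P.natDegree < 2 * p)
    (hPr : ∀ τ : ℍ, (-(X ^ p - X) ^ 2 + C (p : ℂ) * P).eval (jj τ) = 0 →
        ∃ i : Option (ZMod p), e4 τ ^ 3 * nb p 12 dl i τ =
          dl τ * nb p 12 (fun τ => e4 τ ^ 3) i τ) (w : ZMod p) (hw0 : w ≠ 0) (hw1 : w ≠ 1) :
    ∃ (τ : ℍ) (Q : ℤ × ℤ × ℤ) (s : ℕ), (e4 τ ≠ 0 ∧ e6 τ ≠ 0 ∧ 0 < Q.1 ∧
        Q.2.1 ^ 2 - 4 * Q.1 * Q.2.2 = (s : ℤ) ^ 2 - 4 * p ∧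
        s ^ 2 < 4 * p ∧
        ((s : ℕ) : ZMod p) ^ 2 =
          ((Pool.Agent.H11.DEU.tr (-w / 48) (w / 864) : ℤ) : ZMod p) ^ 2 ∧
        (Q.1 : ℂ) * (τ : ℂ) ^ 2 + Q.2.1 * (τ : ℂ) + Q.2.2 = 0) ∧
      V.valuation (jj τ / (jj τ - 1728) - w.val) < 1 := by
  have hpp : p.Prime := Fact.out
  have hodd : Odd p := hpp.odd_of_ne_two (by omega)
  -- the number `j₀`
  have hn0 : w.val ≠ 0 := fun h => hw0 ((ZMod.val_eq_zero w).1 h)
  have hn1 : w.val ≠ 1 := fun h => hw1 (by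
    rw [← ZMod.natCast_zmod_val w, h, Nat.cast_one])
  have hnp : w.val < p := ZMod.val_lt w
  set n : ℕ := w.val with hn
  have d1 : ¬ (p : ℤ) ∣ (n : ℤ) := by
    intro h
    have := Int.le_of_dvd (by omega) h
    omega
  have d2 : ¬ (p : ℤ) ∣ ((n : ℤ) - 1) := by
    intro h
    have := Int.le_of_dvd (by omega) h
    omega
  have d3 : ¬ (p : ℤ) ∣ (1728 : ℤ) := by
    intro h
    have h' : p ∣ 1728 := by exact_mod_cast h
    have h1 : p ∣ 2 ^ 6 * 3 ^ 3 := by norm_num; exact h'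
    rcases (Nat.Prime.dvd_mul hpp).1 h1 with h2 | h2
    · have := Nat.le_of_dvd (by norm_num) (hpp.dvd_of_dvd_pow h2)
      omega
    · have := Nat.le_of_dvd (by norm_num) (hpp.dvd_of_dvd_pow h2)
      omega
  have v1 : V.valuation (n : ℂ) = 1 := by exact_mod_cast deuring_int hV d1
  have v2 : V.valuation ((n : ℂ) - 1) = 1 := by
    have := deuring_int hV d2
    push_cast at this
    exact this
  have v3 : V.valuation (1728 : ℂ) = 1 := by exact_mod_cast deuring_int hV d3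
  have hn1' : (n : ℂ) - 1 ≠ 0 := by
    intro h
    rw [h, map_zero] at v2
    exact zero_ne_one v2
  set j0 : ℂ := 1728 * n * ((n : ℂ) - 1)⁻¹ with hj0
  have i3 : (1728 : ℂ) ∈ Zp p := by exact_mod_cast int_mem_Zp (p := p) 1728
  have hj0Z : j0 ∈ Zp p := by
    refine (Zp p).mul_mem ((Zp p).mul_mem i3 ?_) ?_
    · exact_mod_cast int_mem_Zp (p := p) (n : ℤ)
    · have := inv_mem_Zp d2
      push_cast at this
      exact this
  have vj0 : V.valuation j0 = 1 := by
    rw [hj0, map_mul, map_mul, map_inv₀, v1, v2, v3]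
    simp
  have hj0e : j0 - 1728 = 1728 * ((n : ℂ) - 1)⁻¹ := by
    rw [hj0]
    field_simp
    ring
  have vj1 : V.valuation (j0 - 1728) = 1 := by
    rw [hj0e, map_mul, map_inv₀, v2, v3]
    simp
  have hj0q : j0 / (j0 - 1728) = n := by
    rw [hj0e, hj0]
    field_simp
  -- the root
  set F : ℂ[X] := (X ^ p - X) ^ 2 - C (p : ℂ) * P with hF
  have hm1 : (X ^ p - X : ℂ[X]).Monic := by
    refine (monic_X_pow p).sub_of_left ?_
    rw [degree_X_pow, degree_X]
    exact_mod_cast (by omega : 1 < p)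
  have hdeg1 : (X ^ p - X : ℂ[X]).natDegree = p := by
    rw [natDegree_sub_eq_left_of_natDegree_lt]
    · exact natDegree_X_pow p
    · rw [natDegree_X_pow, natDegree_X]
      omega
  have hm2 : ((X ^ p - X : ℂ[X]) ^ 2).Monic := hm1.pow 2
  have hdeg2 : ((X ^ p - X : ℂ[X]) ^ 2).natDegree = 2 * p := by
    rw [hm1.natDegree_pow, hdeg1]
  have hFm : F.Monic := by
    refine hm2.sub_of_left ?_
    rw [degree_eq_natDegree hm2.ne_zero, hdeg2]
    refine lt_of_le_of_lt degree_le_natDegree ?_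
    exact_mod_cast lt_of_le_of_lt (natDegree_C_mul_le _ _) hPd
  have hpVm : (p : ℂ) ∈ V := deuring_mem_of_lt hpV
  have hFc : ∀ i, F.coeff i ∈ V := by
    intro i
    rw [hF, coeff_sub, coeff_C_mul]
    refine sub_mem ?_ (V.mul_mem _ _ hpVm (hV _ (hPc i)))
    have h1 : ((X ^ p - X : ℂ[X]) ^ 2) =
        ((X ^ p - X : ℤ[X]) ^ 2).map (Int.castRingHom ℂ) := by simp
    rw [h1, coeff_map]
    exact hV _ (int_mem_Zp _)
  have hFz : V.valuation (F.eval j0) < 1 := by
    have h1 : F.eval j0 = (j0 ^ p - j0) * (j0 ^ p - j0) + (p : ℂ) * (-P.eval j0) := by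
      rw [hF]
      simp only [eval_sub, eval_mul, eval_pow, eval_X, eval_C]
      ring
    rw [h1]
    have h2 := val_frob V hV hpV hj0Z
    refine deuring_add_lt (deuring_mul_lt h2 (deuring_mem_of_lt h2)) (deuring_mul_lt hpV ?_)
    refine V.neg_mem _ (hV _ ?_)
    rw [eval_eq_sum_range]
    exact Subring.sum_mem _ fun i _ => (Zp p).mul_mem (hPc i) (pow_mem hj0Z i)
  obtain ⟨r, hr0, hrV, hrj⟩ := deuring_root_near V F hFm hFc j0 hFz
  obtain ⟨τ, hτ⟩ := j_surj r
  have vr : V.valuation r = 1 := deuring_near hrj vj0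
  have vr1 : V.valuation (r - 1728) = 1 := by
    refine deuring_near (a := j0 - 1728) ?_ vj1
    have : j0 - 1728 - (r - 1728) = j0 - r := by ring
    rw [this]
    exact hrj
  have hrne : r ≠ 0 := by
    intro h
    rw [h, map_zero] at vr
    exact zero_ne_one vr
  have hr1ne : r - 1728 ≠ 0 := by
    intro h
    rw [h, map_zero] at vr1
    exact zero_ne_one vr1
  have hdl := dl_ne τ
  have hdle := dl_eq τ
  have h4 : e4 τ ≠ 0 := by
    intro h
    apply hrne
    rw [← hτ, jj, h]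
    simp
  have hr6 : r - 1728 = e6 τ ^ 2 / dl τ := by
    rw [← hτ, jj]
    field_simp
    linear_combination (-1 : ℂ) * hdle
  have h6 : e6 τ ≠ 0 := by
    intro h
    apply hr1ne
    rw [hr6, h]
    simp
  obtain ⟨i, hi⟩ := hPr τ (by
    have : (-(X ^ p - X) ^ 2 + C (p : ℂ) * P : ℂ[X]) = -F := by rw [hF]; ring
    rw [this, hτ, eval_neg, hr0, neg_zero])
  obtain ⟨α, t, i', Q, q1, q2, q3, q4, q5, q6, q7, q8, q9⟩ := sub_cm h4 h6 hi
  have hprod : α * (t - α) = p := by linear_combination (-1 : ℂ) * q1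
  have hp0 : (p : ℂ) ≠ 0 := by exact_mod_cast hpp.ne_zero
  have hα : α ≠ 0 := by
    intro h
    rw [h, zero_mul] at hprod
    exact hp0 hprod.symm
  have hα' : (t : ℂ) - α ≠ 0 := by
    intro h
    rw [h, mul_zero] at hprod
    exact hp0 hprod.symm
  obtain ⟨c, hc⟩ := IsAlgClosed.exists_pow_nat_eq (e4 τ / e6 τ) (show 0 < 2 by norm_num)
  have hc0 : c ≠ 0 := by
    intro h
    rw [h] at hc
    have : e4 τ / e6 τ ≠ 0 := div_ne_zero h4 h6
    exact this (by rw [← hc]; simp)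
  set w2 : ℂ := r / (r - 1728) with hw2
  have hw2e : w2 = e4 τ ^ 3 / e6 τ ^ 2 := by
    rw [hw2, hr6, ← hτ, jj]
    field_simp
  have c4 : c ^ 4 * e4 τ = w2 := by
    rw [hw2e, show c ^ 4 = (c ^ 2) ^ 2 by ring, hc]
    field_simp
  have c6 : c ^ 6 * e6 τ = w2 := by
    rw [hw2e, show c ^ 6 = (c ^ 2) ^ 3 by ring, hc]
    field_simp
  have vw2 : V.valuation w2 = 1 := by
    rw [hw2, map_div₀, vr, vr1, div_one]
  have hw2V : w2 ∈ V := (ValuationSubring.valuation_le_one_iff V _).1 vw2.le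
  have c12 : (c ^ 12 * dl τ)⁻¹ = (r - 1728) ^ 3 * (r ^ 2)⁻¹ := by
    rw [show c ^ 12 = (c ^ 2) ^ 6 by ring, hc, hr6, ← hτ, jj]
    field_simp
  have hd : (c ^ 12 * dl τ)⁻¹ ∈ V := by
    rw [c12, ← ValuationSubring.valuation_le_one_iff, map_mul, map_pow, map_inv₀, map_pow, vr,
      vr1]
    simp
  obtain ⟨e, he, ⟨z, hz, he1⟩, hroot⟩ := fp_exists hp5 V hV hc0 (by rw [c4]; exact hw2V)
    (by rw [c6]; exact hw2V) hd
  set y : ℂ := r - 1728 with hy
  have hye : (c ^ 2)⁻¹ * (e4 τ * e6 τ / dl τ) = y := by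
    rw [hc, hr6]
    field_simp
  have hHs : c ^ (p - 1) * Hf p τ = Hp p (-w2 / 48) (w2 / 864) := by
    have h := Hp_scale hodd c (-e4 τ / 48) (e6 τ / 864)
    have h1 : c ^ 4 * (-e4 τ / 48) = -w2 / 48 := by rw [← c4]; ring
    have h2 : c ^ 6 * (e6 τ / 864) = w2 / 864 := by rw [← c6]; ring
    rw [h1, h2] at h
    rw [h]
    rfl
  have hwn : V.valuation (w2 - n) < 1 := by
    have h1 : w2 - n = (j0 - r) * (1728 * (r - 1728)⁻¹ * (j0 - 1728)⁻¹) := by
      rw [← hj0q, hw2]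
      have : j0 - 1728 ≠ 0 := by
        intro h
        rw [h, map_zero] at vj1
        exact zero_ne_one vj1
      have h1' : r - 1728 ≠ 0 := hr1ne
      field_simp
      ring
    rw [h1]
    refine deuring_mul_lt hrj ?_
    rw [← ValuationSubring.valuation_le_one_iff, map_mul, map_mul, map_inv₀, map_inv₀, v3, vj1,
      vr1]
    simp
  obtain ⟨hHV, hHs2⟩ := deuring_H_mod hp5 V hV hpV w hw2V hwn
  have hyV : y ∈ V := (ValuationSubring.valuation_le_one_iff V _).1 vr1.le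
  have hyp : V.valuation (y ^ p - y) < 1 := by
    have hy0Z : j0 - 1728 ∈ Zp p := (Zp p).sub_mem hj0Z i3
    have h1 := val_frob V hV hpV hy0Z
    have h2 : V.valuation (y - (j0 - 1728)) < 1 := by
      have : y - (j0 - 1728) = r - j0 := by rw [hy]; ring
      rw [this, Valuation.map_sub_swap]
      exact hrj
    have h3 := deuring_pow_sub hyV (hV _ hy0Z) h2 p
    have h4 : V.valuation ((j0 - 1728) - y) < 1 := by
      rw [Valuation.map_sub_swap]
      exact h2
    have h5 : y ^ p - y = (y ^ p - (j0 - 1728) ^ p) + (((j0 - 1728) ^ p - (j0 - 1728)) +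
      ((j0 - 1728) - y)) := by ring
    rw [h5]
    exact deuring_add_lt h3 (deuring_add_lt h1 h4)
  have hvt := val_trace V hV hpV q1 (y := y) (H := Hp p (-w2 / 48) (w2 / 864)) vr1 hHV hyp
    (e := e) he (by
      rw [he1, hHs, hye]
      have : Hp p (-w2 / 48) (w2 / 864) ^ 2 * y ^ p + (p : ℂ) * z -
        Hp p (-w2 / 48) (w2 / 864) ^ 2 * y ^ p = (p : ℂ) * z := by ring
      rw [this]
      exact deuring_mul_lt hpV hz) (by
      rintro x (hx | hx)
      · refine hroot i x ?_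
        rw [q6, q7, hx, ← hye]
        field_simp
      · refine hroot i' x ?_
        rw [q8, q9, hx, ← hye]
        field_simp)
  set s : ℤ := Pool.Agent.H11.DEU.tr (-w / 48) (w / 864) with hs
  have hdvd : (p : ℤ) ∣ t ^ 2 - s ^ 2 := by
    apply dvd_of_val V hV
    push_cast
    have h1 : (t : ℂ) ^ 2 - (s : ℂ) ^ 2 = ((t : ℂ) ^ 2 - Hp p (-w2 / 48) (w2 / 864) ^ 2) +
      (Hp p (-w2 / 48) (w2 / 864) - s) * (Hp p (-w2 / 48) (w2 / 864) + s) := by ring
    rw [h1]
    exact deuring_add_lt hvt (deuring_mul_lt hHs2 (V.add_mem _ _ hHV (hV _ (int_mem_Zp s))))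
  have hta : ((t.natAbs : ℕ) : ℤ) ^ 2 = t ^ 2 := Int.natAbs_sq t
  refine ⟨τ, Q, t.natAbs, ⟨h4, h6, q3, ?_, ?_, ?_, q5⟩, ?_⟩
  · rw [q4, hta]
  · have h1 : ((t.natAbs : ℕ) : ℤ) ^ 2 < 4 * p := by
      rw [hta]
      exact q2
    exact_mod_cast h1
  · have h1 : ((t ^ 2 - s ^ 2 : ℤ) : ZMod p) = 0 :=
      (ZMod.intCast_zmod_eq_zero_iff_dvd _ p).2 hdvd
    have h2 : (((t.natAbs : ℕ) : ℤ) : ZMod p) ^ 2 = ((t : ℤ) : ZMod p) ^ 2 := by
      exact_mod_cast congrArg (Int.cast : ℤ → ZMod p) hta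
    rw [Int.cast_natCast] at h2
    rw [h2]
    push_cast at h1
    exact sub_eq_zero.1 h1
  · rw [hτ]
    exact hwn

/-- There are points `T w` of the upper half plane, one for each `w ≠ 0, 1` modulo `p`, with
different `j`-invariants, different from `0` and `1728`, such that `T w` is a root of a
positive definite integral form of discriminant `s² - 4p < 0`, where `s² ≡ a² (mod p)`, `a` being
the trace of the curve `y² = x³ - (w/48) x + w/864`. -/
theorem deuring {p : ℕ} [Fact p.Prime] (hp : 5 ≤ p) :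
    ∃ (T : ZMod p → ℍ) (Q : ZMod p → ℤ × ℤ × ℤ) (s : ZMod p → ℕ),
      (∀ w, w ≠ 0 → w ≠ 1 → e4 (T w) ≠ 0 ∧ e6 (T w) ≠ 0 ∧ 0 < (Q w).1 ∧
        (Q w).2.1 ^ 2 - 4 * (Q w).1 * (Q w).2.2 = (s w : ℤ) ^ 2 - 4 * p ∧
        (s w) ^ 2 < 4 * p ∧
        ((s w : ℕ) : ZMod p) ^ 2 =
          ((Pool.Agent.H11.DEU.tr (-w / 48) (w / 864) : ℤ) : ZMod p) ^ 2 ∧
        ((Q w).1 : ℂ) * (T w : ℂ) ^ 2 + (Q w).2.1 * (T w : ℂ) + (Q w).2.2 = 0) ∧
      ∀ w w', w ≠ 0 → w ≠ 1 → w' ≠ 0 → w' ≠ 1 → jj (T w) = jj (T w') → w = w' := by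
  obtain ⟨V, hV, hpV⟩ := exists_V p
  obtain ⟨P, hPc, hPd, hPr⟩ := phi_exists (p := p) hp
  have h1 : ∀ w : ZMod p, ∃ (τ : ℍ) (Q : ℤ × ℤ × ℤ) (s : ℕ), w ≠ 0 → w ≠ 1 →
      (e4 τ ≠ 0 ∧ e6 τ ≠ 0 ∧ 0 < Q.1 ∧
        Q.2.1 ^ 2 - 4 * Q.1 * Q.2.2 = (s : ℤ) ^ 2 - 4 * p ∧
        s ^ 2 < 4 * p ∧
        ((s : ℕ) : ZMod p) ^ 2 =
          ((Pool.Agent.H11.DEU.tr (-w / 48) (w / 864) : ℤ) : ZMod p) ^ 2 ∧
        (Q.1 : ℂ) * (τ : ℂ) ^ 2 + Q.2.1 * (τ : ℂ) + Q.2.2 = 0) ∧
      V.valuation (jj τ / (jj τ - 1728) - w.val) < 1 := by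
    intro w
    by_cases hw : w ≠ 0 ∧ w ≠ 1
    · obtain ⟨τ, Q, s, h⟩ := deuring_one hp V hV hpV P hPc hPd hPr w hw.1 hw.2
      exact ⟨τ, Q, s, fun _ _ => h⟩
    · exact ⟨UpperHalfPlane.I, (0, 0, 0), 0, fun a b => absurd ⟨a, b⟩ hw⟩
  choose T Q s hTQ using h1
  refine ⟨T, Q, s, fun w a b => (hTQ w a b).1, fun w w' a b a' b' h => ?_⟩
  have h2 := (hTQ w a b).2
  have h3 := (hTQ w' a' b').2
  rw [← h] at h3
  have h4 : (p : ℤ) ∣ (w.val : ℤ) - w'.val := by
    apply dvd_of_val V hV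
    push_cast
    have h5 : ((w.val : ℂ) - w'.val) = (jj (T w) / (jj (T w) - 1728) - w'.val) -
      (jj (T w) / (jj (T w) - 1728) - w.val) := by ring
    rw [h5]
    exact Valuation.map_sub_lt _ h3 h2
  have h6 : (w.val : ℤ) - w'.val = 0 := by
    refine Int.eq_zero_of_abs_lt_dvd h4 ?_
    have h7 : w.val < p := ZMod.val_lt w
    have h8 : w'.val < p := ZMod.val_lt w'
    rw [abs_lt]
    constructor <;> omega
  exact ZMod.val_injective p (by omega)

end Pool.Agent.DEU
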