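import Pool.Agent.DEU.Count
import Pool.Agent.DEU.CGlue
import Pool.Agent.H11.DEU.Glue

/-!
# DEU.Final: the conjectured bound for almost all curves
-/

namespace Pool.Agent.DEU

open Finset Real Pool.Agent.H11.STA

open Classical in
/-- For every `η > 0` there are constants `C s ε` such that for every box of integer pairs with
sides `X` and `Y`, all but at most `η X Y` of the curves `y² = x³ + ax + b` satisfy
`D_K^{[s]} ≤ C s ε K^{ε-1/2}` for all `s ≥ 1`, all `ε > 0` and all `K ≥ 1` with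
`K^{C s ε} ≤ min(X, Y)`. -/
theorem final : ∀ η : ℝ, 0 < η → ∃ C : ℕ → ℝ → ℝ, (∀ s ε, 0 < C s ε) ∧
    ∀ (A B : ℤ) (X Y : ℕ),
      (((Ico A (A + X) ×ˢ Ico B (B + Y)).filter (fun w : ℤ × ℤ =>
        ¬ ∀ s : ℕ, 1 ≤ s → ∀ ε : ℝ, 0 < ε → ∀ K : ℕ, 1 ≤ K →
          (K : ℝ) ^ C s ε ≤ min (X : ℝ) Y →
          extremeDisc (shortCurve (w.1 : ℚ) (w.2 : ℚ)) s K ≤
            C s ε * (K : ℝ) ^ (ε - 1 / 2))).card : ℝ) ≤ η * (X * Y) := by
  intro η hη
  have h17 : ∀ k, 17 ≤ k → 17 ≤ Nat.nth Nat.Prime k := fun k hk =>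
    (hk.trans (lt_nth_prime k).le)
  obtain ⟨H1, H2⟩ := Pool.Agent.H11.DEU.bridge (h := hh) (k0 := 17) h17
    (fun k hk => deuring_count (le_trans (by norm_num) (h17 k hk))) c1_holds c2_holds c3_holds
  exact Pool.Agent.H11.DEU.all_pairs H1 H2 η hη

end Pool.Agent.DEU
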