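import Pool.Agent.DEU.Defs

/-!
# DEU.HasseAlg: the differential equation of the Hasse invariant, and its constant term
-/

namespace Pool.Agent.DEU

open Polynomial

private lemma hasseAlg_isUnit {p : ℕ} [Fact p.Prime] {S : Type*} [CommRing S] [CharP S p]
    (k : ℕ) (hk : ¬ p ∣ k) : IsUnit (k : S) := by
  have h : IsUnit ((k : ℕ) : ZMod p) := by
    rw [isUnit_iff_ne_zero]
    intro h0
    exact hk ((ZMod.natCast_eq_zero_iff k p).mp h0)
  have h2 := h.map (ZMod.castHom (dvd_refl p) S)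
  rwa [map_natCast] at h2

/-- In characteristic `p ≥ 5`, with a derivation satisfying Ramanujan's identities
(`a = -E₄/48`, `b = E₆/864`, `e = E₂`), the second derivative of the Hasse invariant is zero. -/
theorem theta_sq_zero {p : ℕ} [Fact p.Prime] (hp : 5 ≤ p) {S : Type*} [CommRing S] [CharP S p]
    (θ : Derivation ℤ S S) (a b e : S) (h1 : 3 * θ a = e * a + 18 * b)
    (h2 : 6 * θ b = 3 * e * b - 8 * a ^ 2) (h3 : 12 * θ e = e ^ 2 + 48 * a) :
    θ (θ (Hp p a b)) = 0 := by
  have hpp : p.Prime := Fact.out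
  let _ : Differential S := ⟨θ⟩
  obtain ⟨m, hm⟩ : ∃ m, p = m + 3 := ⟨p - 3, by omega⟩
  have hodd : p % 2 = 1 := by
    rcases hpp.eq_two_or_odd with h | h
    · omega
    · exact h
  obtain ⟨n, hn⟩ : ∃ n, p = 2 * n + 1 := ⟨(p - 1) / 2, by omega⟩
  have hn1 : 1 ≤ n := by omega
  have hpS : (p : S) = 0 := CharP.cast_eq_zero S p
  have hmS : (m : S) = -3 := by
    have : ((m + 3 : ℕ) : S) = 0 := by rw [← hm]; exact hpS
    push_cast at this
    linear_combination this
  have hnS : 2 * (n : S) = -1 := by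
    have : ((2 * n + 1 : ℕ) : S) = 0 := by rw [← hn]; exact hpS
    push_cast at this
    linear_combination this
  have hnX : 2 * (n : S[X]) = -1 := by
    have := congrArg (C : S → S[X]) hnS
    rw [map_mul, map_ofNat C 2, map_natCast, map_neg, map_one] at this
    exact this
  obtain ⟨f, hf⟩ : ∃ f : S[X], f = X ^ 3 + C a * X + C b := ⟨_, rfl⟩
  have hHp : Hp p a b = (f ^ n).coeff (m + 2) := by
    rw [Hp, ← hf]
    congr 1
    · congr 1; omega
    · omega
  have hDc : ∀ (g : S[X]) (i : ℕ), (Differential.mapCoeffs g).coeff i = θ (g.coeff i) :=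
    fun g i => rfl
  have hf' : derivative f = 3 * X ^ 2 + C a := by
    rw [hf, derivative_add, derivative_add, derivative_C_mul, derivative_C, derivative_X_pow,
      derivative_X]
    have e0 : C ((3 : ℕ) : S) = (3 : S[X]) := by
      rw [map_natCast]; norm_num
    rw [e0]
    ring
  have hDf0 : Differential.mapCoeffs f = C (θ a) * X + C (θ b) := by
    have e1 : Differential.mapCoeffs (C a) = C (θ a) := Differential.mapCoeffs_C a
    have e2 : Differential.mapCoeffs (C b) = C (θ b) := Differential.mapCoeffs_C b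
    rw [hf, map_add, map_add, e2, Derivation.leibniz, e1, Differential.mapCoeffs_X,
      Derivation.leibniz_pow, Differential.mapCoeffs_X]
    simp only [smul_eq_mul]
    ring
  have hDf : 6 * Differential.mapCoeffs f =
      C e * (3 * f - X * derivative f) + 36 * C b * X - 8 * C a ^ 2 := by
    have c1 := congrArg (C : S → S[X]) h1
    have c2 := congrArg (C : S → S[X]) h2
    simp only [map_mul, map_add, map_sub, map_pow, map_ofNat] at c1 c2
    rw [hDf0, hf', hf]
    linear_combination (2 * X) * c1 + c2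
  have hDn : Differential.mapCoeffs (f ^ n) =
      (n : S[X]) * f ^ (n - 1) * Differential.mapCoeffs f := by
    rw [Derivation.leibniz_pow]
    simp only [smul_eq_mul, nsmul_eq_mul]
    ring
  have hdn : derivative (f ^ n) = (n : S[X]) * f ^ (n - 1) * derivative f := by
    rw [derivative_pow]
    simp
  have hfn : f ^ n = f ^ (n - 1) * f := by
    rw [← pow_succ]; congr 1; omega
  have key : 12 * Differential.mapCoeffs (f ^ n) =
      -3 * C e * f ^ n - 2 * C e * (X * derivative (f ^ n)) + 12 * (X * f ^ n) -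
        derivative ((24 * X ^ 2 + 16 * C a) * f ^ n) := by
    have e3 : derivative ((24 * X ^ 2 + 16 * C a) * f ^ n : S[X]) =
        48 * X * f ^ n + (24 * X ^ 2 + 16 * C a) * derivative (f ^ n) := by
      rw [derivative_mul]
      congr 2
      have e4 : (24 * X ^ 2 + 16 * C a : S[X]) = C 24 * X ^ 2 + C 16 * C a := by
        rw [map_ofNat C 24, map_ofNat C 16]
      rw [e4, derivative_add, derivative_C_mul, derivative_C_mul, derivative_C, derivative_X_pow,
        map_ofNat C 24]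
      have e0 : C ((2 : ℕ) : S) = (2 : S[X]) := by
        rw [map_natCast]; norm_num
      rw [e0]
      ring
    rw [e3, hDn, hdn, hfn, hf']
    rw [hf'] at hDf
    have hfe : f = X ^ 3 + C a * X + C b := hf
    linear_combination (2 * (n : S[X]) * f ^ (n - 1)) * hDf +
      (f ^ (n - 1) * (3 * C e * f + 36 * X * f)) * hnX +
      (-(2 * (n : S[X])) * f ^ (n - 1) * (36 * X)) * hfe
  -- the coefficients
  obtain ⟨F, hF⟩ : ∃ F, F = f ^ n := ⟨_, rfl⟩
  rw [← hF] at key hHp
  obtain ⟨H, hH⟩ : ∃ H, H = F.coeff (m + 2) := ⟨_, rfl⟩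
  obtain ⟨K, hK⟩ : ∃ K, K = F.coeff (m + 1) := ⟨_, rfl⟩
  obtain ⟨L, hL⟩ : ∃ L, L = F.coeff m := ⟨_, rfl⟩
  have cX : ∀ (g : S[X]) (i : ℕ), (X * derivative g).coeff (i + 1) = g.coeff (i + 1) * (i + 1) := by
    intro g i
    rw [coeff_X_mul, coeff_derivative]
  have co12 : ∀ (g : S[X]) (i : ℕ), (12 * g).coeff i = 12 * g.coeff i := by
    intro g i
    have : (12 : S[X]) = C 12 := (map_ofNat C 12).symm
    rw [this, coeff_C_mul]
  have coe : ∀ (g : S[X]) (i : ℕ), (-3 * C e * g).coeff i = -3 * e * g.coeff i := by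
    intro g i
    have : (-3 * C e : S[X]) = C (-3 * e) := by
      rw [map_mul, map_neg, map_ofNat C 3]
    rw [this, coeff_C_mul]
  have coe2 : ∀ (g : S[X]) (i : ℕ), (2 * C e * g).coeff i = 2 * e * g.coeff i := by
    intro g i
    have : (2 * C e : S[X]) = C (2 * e) := by
      rw [map_mul, map_ofNat C 2]
    rw [this, coeff_C_mul]
  have hA : 12 * θ H = 12 * K - e * H := by
    have h := congrArg (fun g : S[X] => g.coeff (m + 1 + 1)) key
    simp only [coeff_add, coeff_sub, co12, coe, coe2, hDc, cX, coeff_derivative] at h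
    rw [coeff_X_mul] at h
    have hz : ((m + 1 + 1 : ℕ) : S) + 1 = 0 := by push_cast; rw [hmS]; ring
    rw [hz, mul_zero] at h
    have e5 : m + 1 + 1 = m + 2 := rfl
    rw [e5, ← hH, ← hK] at h
    push_cast at h
    rw [hmS] at h
    linear_combination h
  have hLr : 3 * L + a * H = 0 := by
    have h := congrArg (fun g : S[X] => g.coeff (m + 2)) (derivative_pow_succ f n)
    have hG : (F * (3 * X ^ 2 + C a)).coeff (m + 2) = 3 * L + a * H := by
      have e6 : F * (3 * X ^ 2 + C a) = C 3 * (X ^ 2 * F) + C a * F := by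
        simp only [map_ofNat]; ring
      rw [e6, coeff_add, coeff_C_mul, coeff_C_mul, coeff_X_pow_mul', if_pos (by omega)]
      simp only [Nat.add_sub_cancel]
      rw [← hL, ← hH]
    simp only [coeff_derivative] at h
    have hz : ((m + 2 : ℕ) : S) + 1 = 0 := by push_cast; rw [hmS]; ring
    rw [hz, mul_zero, hf', ← hF] at h
    have e7 : (C ((n : S) + 1) * F * (3 * X ^ 2 + C a)).coeff (m + 2) =
        ((n : S) + 1) * (3 * L + a * H) := by
      rw [mul_assoc, coeff_C_mul, hG]
    rw [e7] at h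
    linear_combination (-2 : S) * h - (3 * L + a * H) * hnS
  have hB : 12 * θ K = e * K + 4 * a * H := by
    have h := congrArg (fun g : S[X] => g.coeff (m + 1)) key
    simp only [coeff_add, coeff_sub, co12, coe, coe2, hDc, cX, coeff_derivative] at h
    rw [coeff_X_mul] at h
    have hG : ((24 * X ^ 2 + 16 * C a) * F).coeff (m + 1 + 1) = 24 * L + 16 * a * H := by
      have e6 : (24 * X ^ 2 + 16 * C a) * F = C 24 * (X ^ 2 * F) + C (16 * a) * F := by
        simp only [map_ofNat, map_mul]; ring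
      rw [e6, coeff_add, coeff_C_mul, coeff_C_mul, coeff_X_pow_mul', if_pos (by omega)]
      have e8 : m + 1 + 1 - 2 = m := by omega
      have e9 : m + 1 + 1 = m + 2 := rfl
      rw [e8, e9, ← hL, ← hH]
    rw [hG, ← hK, ← hL] at h
    push_cast at h
    rw [hmS] at h
    linear_combination h + 12 * hLr
  have hu : IsUnit (144 : S) := by
    have := hasseAlg_isUnit (p := p) (S := S) 144 (by
      intro hd
      have h144 : (144 : ℕ) = 2 ^ 4 * 3 ^ 2 := by norm_num
      rw [h144] at hd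
      rcases (Nat.Prime.dvd_mul hpp).mp hd with h | h
      · have := Nat.le_of_dvd (by norm_num) (hpp.dvd_of_dvd_pow h); omega
      · have := Nat.le_of_dvd (by norm_num) (hpp.dvd_of_dvd_pow h); omega)
    simpa using this
  rw [hHp, ← hH]
  have hθ12 : ∀ x : S, θ (12 * x) = 12 * θ x := by
    intro x
    have := θ.map_natCast 12
    rw [Derivation.leibniz]
    have e10 : θ (12 : S) = 0 := by simpa using this
    rw [e10]
    simp
  have hθA := congrArg θ hA
  rw [hθ12, map_sub, hθ12, Derivation.leibniz, smul_eq_mul, smul_eq_mul] at hθA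
  have hfin : 144 * θ (θ H) = 0 := by
    linear_combination 12 * hθA + 12 * hB - H * h3 - e * hA
  exact (hu.mul_right_eq_zero).mp hfin

/-- The value at the cusp: `x³ - x/48 + 1/864 = (x - 1/12)² (x + 1/6)`. -/
theorem Hp_cusp {p : ℕ} [Fact p.Prime] (hp : 5 ≤ p) :
    Hp p (-(48 : ZMod p)⁻¹) ((864 : ZMod p)⁻¹) = 1 := by
  have hpp : p.Prime := Fact.out
  have hodd : p % 2 = 1 := by
    rcases hpp.eq_two_or_odd with h | h
    · omega
    · exact h
  obtain ⟨n, hn⟩ : ∃ n, p = 2 * n + 1 := ⟨(p - 1) / 2, by omega⟩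
  have hcop : ∀ k : ℕ, ¬ p ∣ k → (k : ZMod p) ≠ 0 := by
    intro k hk h0
    exact hk ((ZMod.natCast_eq_zero_iff k p).mp h0)
  have h2 : (2 : ZMod p) ≠ 0 := by
    have := hcop 2 (fun h => by have := Nat.le_of_dvd (by norm_num) h; omega)
    simpa using this
  have h3 : (3 : ZMod p) ≠ 0 := by
    have := hcop 3 (fun h => by have := Nat.le_of_dvd (by norm_num) h; omega)
    simpa using this
  have h12 : (12 : ZMod p) ≠ 0 := by
    have : (12 : ZMod p) = 2 * 2 * 3 := by norm_num
    rw [this]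
    exact mul_ne_zero (mul_ne_zero h2 h2) h3
  obtain ⟨c, hc⟩ : ∃ c : ZMod p, c = (12 : ZMod p)⁻¹ := ⟨_, rfl⟩
  have hc12 : 12 * c = 1 := by rw [hc]; exact mul_inv_cancel₀ h12
  have e48 : (48 : ZMod p)⁻¹ = 3 * c ^ 2 := by
    apply inv_eq_of_mul_eq_one_left
    linear_combination (12 * c + 1) * hc12
  have e864 : (864 : ZMod p)⁻¹ = 2 * c ^ 3 := by
    apply inv_eq_of_mul_eq_one_left
    linear_combination (144 * c ^ 2 + 12 * c + 1) * hc12
  have hpm : (p - 1) / 2 = n := by omega
  have hpm2 : p - 1 = 2 * n := by omega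
  have hfac : (X ^ 3 + C (-(48 : ZMod p)⁻¹) * X + C ((864 : ZMod p)⁻¹) : (ZMod p)[X]) =
      (X - C c) ^ 2 * (X + C (2 * c)) := by
    rw [e48, e864]
    simp only [map_neg, map_mul, map_pow, map_ofNat]
    ring
  have hgeom : ((X - C c) ^ 2) ^ n * (X - C c) =
      (∑ i ∈ Finset.range p, X ^ i * (C c) ^ (p - 1 - i) : (ZMod p)[X]) * (X - C c) := by
    rw [← pow_mul, ← pow_succ, ← hn, sub_pow_char, (Commute.all X (C c)).geom_sum₂_mul]
  have hgeom2 : ((X - C c) ^ 2) ^ n =
      (∑ i ∈ Finset.range p, X ^ i * (C c) ^ (p - 1 - i) : (ZMod p)[X]) :=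
    mul_right_cancel₀ (X_sub_C_ne_zero c) hgeom
  rw [Hp, hpm, hfac, mul_pow, hgeom2, Finset.sum_mul, finsetSum_coeff]
  have hterm : ∀ i ∈ Finset.range p,
      (X ^ i * (C c) ^ (p - 1 - i) * (X + C (2 * c)) ^ n : (ZMod p)[X]).coeff (p - 1) =
        ((X + C (2 * c)) ^ n).coeff (p - 1 - i) * c ^ (p - 1 - i) := by
    intro i hi
    have hi' : i < p := Finset.mem_range.mp hi
    have e1 : (X ^ i * (C c) ^ (p - 1 - i) * (X + C (2 * c)) ^ n : (ZMod p)[X]) =
        X ^ i * (C (c ^ (p - 1 - i)) * (X + C (2 * c)) ^ n) := by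
      rw [map_pow]; ring
    rw [e1, coeff_X_pow_mul', if_pos (by omega), coeff_C_mul, mul_comm]
  rw [Finset.sum_congr rfl hterm]
  have hrefl := Finset.sum_range_reflect
    (fun j => ((X + C (2 * c)) ^ n : (ZMod p)[X]).coeff j * c ^ j) p
  rw [hrefl]
  have hdeg : ((X + C (2 * c)) ^ n : (ZMod p)[X]).natDegree < p := by
    rw [natDegree_pow, natDegree_X_add_C]
    omega
  rw [← eval_eq_sum_range' hdeg c, eval_pow, eval_add, eval_X, eval_C]
  have h4 : (c + 2 * c) * 4 = 1 := by linear_combination hc12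
  have hc3 : c + 2 * c = ((2 : ZMod p)⁻¹) ^ 2 := by
    have : (2 : ZMod p)⁻¹ * 2 = 1 := inv_mul_cancel₀ h2
    have h44 : (4 : ZMod p) ≠ 0 := by
      have : (4 : ZMod p) = 2 * 2 := by norm_num
      rw [this]; exact mul_ne_zero h2 h2
    apply mul_right_cancel₀ h44
    rw [h4]
    linear_combination (-(2 : ZMod p)⁻¹ * 2 - 1) * this
  rw [hc3, ← pow_mul, ← hpm2]
  exact ZMod.pow_card_sub_one_eq_one (inv_ne_zero h2)

/-- Compatibility with ring homomorphisms. -/
theorem Hp_map {p : ℕ} {S T : Type*} [CommRing S] [CommRing T] (f : S →+* T) (a b : S) :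
    f (Hp p a b) = Hp p (f a) (f b) := by
  rw [Hp, Hp, ← Polynomial.coeff_map]
  simp

private lemma hasseAlg_scale_aux {p : ℕ} (hp : Odd p) {S : Type*} [CommRing S] (c a b : S) :
    Hp p (c ^ 4 * a) (c ^ 6 * b) * c ^ (2 * (p - 1)) =
      c ^ (2 * (p - 1)) * (c ^ (p - 1) * Hp p a b) := by
  obtain ⟨n, rfl⟩ := hp
  have hn : (2 * n + 1 - 1) / 2 = n := by omega
  have hp1 : 2 * n + 1 - 1 = 2 * n := by omega
  rw [Hp, Hp, hn, hp1]
  have h := Polynomial.comp_C_mul_X_coeff
    (p := (X ^ 3 + C (c ^ 4 * a) * X + C (c ^ 6 * b)) ^ n) (r := c ^ 2) (n := 2 * n)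
  have h2 : ((X ^ 3 + C (c ^ 4 * a) * X + C (c ^ 6 * b)) ^ n).comp (C (c ^ 2) * X) =
      C (c ^ (6 * n)) * (X ^ 3 + C a * X + C b) ^ n := by
    simp only [pow_comp, add_comp, mul_comp, C_comp, X_comp]
    rw [pow_mul, C_pow (n := n), ← mul_pow]
    congr 1
    simp only [map_mul, map_pow]
    ring
  rw [h2, coeff_C_mul] at h
  rw [← pow_mul] at h
  rw [← h]
  ring

/-- Homogeneity. -/
theorem Hp_scale {p : ℕ} (hp : Odd p) {S : Type*} [CommRing S] (c a b : S) :
    Hp p (c ^ 4 * a) (c ^ 6 * b) = c ^ (p - 1) * Hp p a b := by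
  have h := hasseAlg_scale_aux hp (X : S[X]) (C a) (C b)
  rw [mul_comm] at h
  have h2 := (Polynomial.monic_X_pow (R := S) (2 * (p - 1))).isRegular.left h
  have h3 := congrArg (evalRingHom c) h2
  rw [Hp_map, map_mul (evalRingHom c) (X ^ (p - 1)), Hp_map] at h3
  rw [mul_comm (c ^ 4), mul_comm (c ^ 6)]
  simpa using h3

end Pool.Agent.DEU
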