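import Pool.Agent.DEU.CDefs

/-!
# DEU.LSieve: the additive large sieve
-/

namespace Pool.Agent.DEU

open Finset Real
open scoped ComplexConjugate

private lemma ls_ee (θ : ℝ) : ee θ = Complex.exp ((2 * Real.pi * θ : ℝ) * Complex.I) := by
  unfold ee
  congr 1
  push_cast
  ring

private lemma ls_ee_zero : ee 0 = 1 := by simp [ee]

private lemma ls_ee_add (a b : ℝ) : ee (a + b) = ee a * ee b := by
  unfold ee
  rw [← Complex.exp_add]; push_cast; ring_nf

private lemma ls_ee_nat_mul (n : ℕ) (θ : ℝ) : ee (n * θ) = ee θ ^ n := by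
  unfold ee
  rw [← Complex.exp_nat_mul]; push_cast; ring_nf

private lemma ls_norm_ee (θ : ℝ) : ‖ee θ‖ = 1 := by
  rw [ls_ee]; exact Complex.norm_exp_ofReal_mul_I _

private lemma ls_ee_int (k : ℤ) : ee k = 1 := by
  unfold ee
  rw [Complex.exp_eq_one_iff]
  exact ⟨k, by push_cast; ring⟩

private lemma ls_conj_ee (θ : ℝ) : conj (ee θ) = ee (-θ) := by
  rw [ls_ee, ls_ee, ← Complex.exp_conj]
  congr 1
  rw [map_mul, Complex.conj_ofReal, Complex.conj_I]
  push_cast; ring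

/-- The kernel. -/
private noncomputable def lsK (N M : ℕ) (θ : ℝ) : ℂ := ∑ n ∈ Ioc N (N + M), ee (n * θ)

private lemma ls_norm_K_le (N M : ℕ) (θ : ℝ) : ‖lsK N M θ‖ ≤ M := by
  unfold lsK
  refine (norm_sum_le _ _).trans ?_
  simp [ls_norm_ee]

private lemma ls_norm_K_neg (N M : ℕ) (θ : ℝ) : ‖lsK N M (-θ)‖ = ‖lsK N M θ‖ := by
  have : lsK N M (-θ) = conj (lsK N M θ) := by
    unfold lsK
    rw [map_sum]
    refine sum_congr rfl fun n _ => ?_
    rw [ls_conj_ee, mul_neg]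
  rw [this, Complex.norm_conj]

private lemma ls_kernel (N M : ℕ) (θ : ℝ) (hθ : 0 < Int.fract θ) :
    ‖lsK N M θ‖ ≤ 1 / (2 * Int.fract θ) + 1 / (2 * (1 - Int.fract θ)) := by
  set u := Int.fract θ with hu
  have hu1 : u < 1 := Int.fract_lt_one θ
  have h1 : ee θ = ee u := by
    have : θ = u + (⌊θ⌋ : ℤ) := by rw [hu]; exact (Int.fract_add_floor θ).symm
    conv_lhs => rw [this]
    rw [ls_ee_add, ls_ee_int, mul_one]
  have h2 : ‖ee u - 1‖ = 2 * sin (π * u) := by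
    have h3 : ee u = Complex.exp (Complex.I * ((2 * π * u : ℝ) : ℂ)) := by
      rw [ls_ee, mul_comm]
    rw [h3, Complex.norm_exp_I_mul_ofReal_sub_one]
    have h4 : 2 * π * u / 2 = π * u := by ring
    rw [h4]
    have h5 : 0 ≤ sin (π * u) := by
      apply sin_nonneg_of_nonneg_of_le_pi (by positivity)
      nlinarith [pi_pos]
    rw [Real.norm_of_nonneg (by positivity)]
  have h3 : 2 * min u (1 - u) ≤ sin (π * u) := by
    rcases le_total u (1 / 2) with h | h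
    · rw [min_eq_left (by linarith)]
      have := mul_le_sin (x := π * u) (by positivity) (by nlinarith [pi_pos])
      have h4 : 2 / π * (π * u) = 2 * u := by field_simp
      linarith
    · rw [min_eq_right (by linarith)]
      have := mul_le_sin (x := π * (1 - u)) (by
        have : 0 ≤ 1 - u := by linarith
        positivity) (by nlinarith [pi_pos])
      have h4 : 2 / π * (π * (1 - u)) = 2 * (1 - u) := by field_simp
      have h5 : sin (π * (1 - u)) = sin (π * u) := by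
        rw [mul_sub, mul_one, sin_pi_sub]
      linarith
  have hmin : 0 < min u (1 - u) := lt_min hθ (by linarith)
  have h4 : lsK N M θ * (ee u - 1) = ee θ ^ (N + M + 1) - ee θ ^ (N + 1) := by
    unfold lsK
    have h5 : ∑ n ∈ Ioc N (N + M), ee (n * θ) = ee θ ^ (N + 1) * ∑ m ∈ range M, ee θ ^ m := by
      have h6 : Ioc N (N + M) = Ico (N + 1) (N + M + 1) := by
        ext n; simp only [mem_Ioc, mem_Ico]; omega
      rw [h6, Finset.sum_Ico_eq_sum_range, Finset.mul_sum]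
      have h7 : N + M + 1 - (N + 1) = M := by omega
      rw [h7]
      refine Finset.sum_congr rfl fun m _ => ?_
      rw [ls_ee_nat_mul, pow_add]
    rw [h5, ← h1, mul_assoc, geom_sum_mul]
    ring
  have h5 : ‖lsK N M θ‖ * (2 * sin (π * u)) ≤ 2 := by
    rw [← h2, ← norm_mul, h4]
    refine (norm_sub_le _ _).trans ?_
    rw [norm_pow, norm_pow, ls_norm_ee]
    norm_num
  have h6 : ‖lsK N M θ‖ ≤ 1 / (2 * min u (1 - u)) := by
    rw [le_div_iff₀ (by positivity)]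
    have h7 := norm_nonneg (lsK N M θ)
    nlinarith
  refine h6.trans ?_
  rcases le_total u (1 - u) with h | h
  · rw [min_eq_left h]
    have : 0 < 1 / (2 * (1 - u)) := by
      have : 0 < 1 - u := by linarith
      positivity
    linarith
  · rw [min_eq_right h]
    have : 0 < 1 / (2 * u) := by positivity
    linarith

/-- The sum of the kernel over well spaced points. -/
private lemma ls_sum_kernel {ι : Type*} [DecidableEq ι] (R : Finset ι) (θ : ι → ℝ) (Q N M : ℕ)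
    (hQ : 1 ≤ Q)
    (hs : ∀ x ∈ R, ∀ y ∈ R, x ≠ y → ∀ k : ℤ, 1 / (Q : ℝ) ≤ |θ x - θ y - k|) (x : ι) (hx : x ∈ R) :
    ∑ y ∈ R, ‖lsK N M (θ x - θ y)‖ ≤ M + 3 / 2 * Q * (1 + log Q) := by
  have hQ0 : (0 : ℝ) < Q := by exact_mod_cast hQ
  set u : ι → ℝ := fun y => Int.fract (θ x - θ y) with hu
  set f : ι → ℕ := fun y => ⌊(Q : ℝ) * u y⌋₊ with hf
  have hu0 : ∀ y, 0 ≤ u y := fun y => Int.fract_nonneg _
  have hu1 : ∀ y, u y < 1 := fun y => Int.fract_lt_one _
  have hge : ∀ y ∈ R.erase x, 1 / (Q : ℝ) ≤ u y ∧ 1 / (Q : ℝ) ≤ 1 - u y := by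
    intro y hy
    rw [mem_erase] at hy
    have h1 := hs x hx y hy.2 hy.1.symm ⌊θ x - θ y⌋
    have h2 := hs x hx y hy.2 hy.1.symm (⌊θ x - θ y⌋ + 1)
    have h3 : θ x - θ y - (⌊θ x - θ y⌋ : ℤ) = u y := by
      rw [hu]; exact (Int.self_sub_floor _)
    push_cast at h2
    have h4 : θ x - θ y - (⌊θ x - θ y⌋ + 1 : ℝ) = u y - 1 := by rw [← h3]; ring
    rw [h3, abs_of_nonneg (hu0 y)] at h1
    rw [h4, abs_of_neg (by linarith [hu1 y])] at h2
    exact ⟨h1, by linarith⟩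
  have hfr : ∀ y ∈ R.erase x, f y ∈ Ico 1 Q := by
    intro y hy
    obtain ⟨h1, h2⟩ := hge y hy
    rw [mem_Ico]
    constructor
    · rw [hf]
      simp only
      rw [Nat.one_le_floor_iff]
      rw [div_le_iff₀ hQ0] at h1
      linarith
    · rw [hf]
      simp only
      rw [Nat.floor_lt (by have := hu0 y; positivity)]
      nlinarith [hu1 y]
  have hinj : ∀ y ∈ R.erase x, ∀ z ∈ R.erase x, f y = f z → y = z := by
    intro y hy z hz hyz
    by_contra hne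
    rw [mem_erase] at hy hz
    have h1 := hs z hz.2 y hy.2 (Ne.symm hne)
    have h2 := h1 (⌊θ x - θ y⌋ - ⌊θ x - θ z⌋)
    have h3 : θ z - θ y - ((⌊θ x - θ y⌋ - ⌊θ x - θ z⌋ : ℤ) : ℝ) = u y - u z := by
      have e1 : u y = θ x - θ y - (⌊θ x - θ y⌋ : ℤ) := (Int.self_sub_floor _).symm
      have e2 : u z = θ x - θ z - (⌊θ x - θ z⌋ : ℤ) := (Int.self_sub_floor _).symm
      rw [e1, e2]
      push_cast
      ring
    rw [h3] at h2
    have h4 : |(Q : ℝ) * u y - Q * u z| < 1 := by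
      have e1 := Nat.floor_le (a := (Q : ℝ) * u y) (by have := hu0 y; positivity)
      have e2 := Nat.lt_floor_add_one ((Q : ℝ) * u y)
      have e3 := Nat.floor_le (a := (Q : ℝ) * u z) (by have := hu0 z; positivity)
      have e4 := Nat.lt_floor_add_one ((Q : ℝ) * u z)
      have e5 : (⌊(Q : ℝ) * u y⌋₊ : ℝ) = ⌊(Q : ℝ) * u z⌋₊ := by exact_mod_cast hyz
      rw [abs_lt]
      constructor <;> linarith
    have h5 : |(Q : ℝ) * u y - Q * u z| = Q * |u y - u z| := by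
      rw [← mul_sub, abs_mul, abs_of_pos hQ0]
    rw [h5] at h4
    have h6 : (Q : ℝ) * (1 / Q) ≤ Q * |u y - u z| := by gcongr
    rw [mul_one_div_cancel hQ0.ne'] at h6
    linarith
  have hterm : ∀ y ∈ R.erase x, ‖lsK N M (θ x - θ y)‖ ≤
      (Q : ℝ) / 2 * (1 / (f y : ℝ)) + Q * (1 / ((Q : ℝ) - f y)) := by
    intro y hy
    obtain ⟨h1, h2⟩ := hge y hy
    have h3 := hfr y hy
    rw [mem_Ico] at h3
    have hpos : 0 < u y := lt_of_lt_of_le (by positivity) h1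
    refine (ls_kernel N M (θ x - θ y) hpos).trans ?_
    have e1 : (f y : ℝ) ≤ (Q : ℝ) * u y := Nat.floor_le (by positivity)
    have e2 : (Q : ℝ) * u y < (f y : ℝ) + 1 := Nat.lt_floor_add_one _
    have e3 : (1 : ℝ) ≤ f y := by exact_mod_cast h3.1
    have e4 : (f y : ℝ) + 1 ≤ Q := by exact_mod_cast h3.2
    have hf0 : (0 : ℝ) < f y := by linarith
    have hq0 : (0 : ℝ) < (Q : ℝ) - f y := by linarith
    apply add_le_add
    · change 1 / (2 * u y) ≤ _
      rw [div_mul_div_comm, mul_one, div_le_div_iff₀ (by positivity) (by positivity)]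
      nlinarith
    · change 1 / (2 * (1 - u y)) ≤ _
      have e5 : 0 < 1 - u y := by linarith [hu1 y]
      rw [mul_one_div, div_le_div_iff₀ (by positivity) hq0]
      rw [div_le_iff₀ hQ0] at h2
      nlinarith
  have hH : ∀ m : ℕ, 1 ≤ m → ∑ k ∈ Ico 1 m, 1 / (k : ℝ) ≤ 1 + log m := by
    intro m hm
    have h1 : ∑ k ∈ Ico 1 m, 1 / (k : ℝ) ≤ (harmonic m : ℝ) := by
      rw [harmonic_eq_sum_Icc]
      push_cast
      have h2 : ∀ k ∈ Ico 1 m, 1 / (k : ℝ) = (k : ℝ)⁻¹ := fun k _ => one_div _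
      rw [Finset.sum_congr rfl h2]
      apply Finset.sum_le_sum_of_subset_of_nonneg
      · intro k hk
        rw [mem_Ico] at hk
        rw [mem_Icc]
        omega
      · intro k _ _
        positivity
    exact h1.trans (harmonic_le_one_add_log m)
  have hsum : ∑ y ∈ R.erase x, ‖lsK N M (θ x - θ y)‖ ≤
      ∑ k ∈ Ico 1 Q, ((Q : ℝ) / 2 * (1 / (k : ℝ)) + Q * (1 / ((Q : ℝ) - k))) := by
    calc ∑ y ∈ R.erase x, ‖lsK N M (θ x - θ y)‖ ≤
        ∑ y ∈ R.erase x, ((Q : ℝ) / 2 * (1 / (f y : ℝ)) + Q * (1 / ((Q : ℝ) - f y))) :=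
          Finset.sum_le_sum hterm
      _ = ∑ k ∈ (R.erase x).image f, ((Q : ℝ) / 2 * (1 / (k : ℝ)) + Q * (1 / ((Q : ℝ) - k))) := by
          rw [Finset.sum_image hinj]
      _ ≤ _ := by
          apply Finset.sum_le_sum_of_subset_of_nonneg
          · intro k hk
            rw [mem_image] at hk
            obtain ⟨y, hy, rfl⟩ := hk
            exact hfr y hy
          · intro k hk _
            rw [mem_Ico] at hk
            have e1 : (k : ℝ) < Q := by exact_mod_cast hk.2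
            have e2 : 0 < (Q : ℝ) - k := by linarith
            positivity
  have hrefl : ∑ k ∈ Ico 1 Q, 1 / ((Q : ℝ) - k) = ∑ k ∈ Ico 1 Q, 1 / (k : ℝ) := by
    refine Finset.sum_nbij' (fun k => Q - k) (fun k => Q - k) ?_ ?_ ?_ ?_ ?_
    · intro k hk; rw [mem_Ico] at hk ⊢; omega
    · intro k hk; rw [mem_Ico] at hk ⊢; omega
    · intro k hk; rw [mem_Ico] at hk; omega
    · intro k hk; rw [mem_Ico] at hk; omega
    · intro k hk
      rw [mem_Ico] at hk
      rw [Nat.cast_sub hk.2.le]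
  rw [Finset.sum_add_distrib, ← Finset.mul_sum, ← Finset.mul_sum, hrefl] at hsum
  have h1 := hH Q hQ
  have h2 : ∑ y ∈ R, ‖lsK N M (θ x - θ y)‖ =
      ‖lsK N M (θ x - θ x)‖ + ∑ y ∈ R.erase x, ‖lsK N M (θ x - θ y)‖ :=
    (Finset.add_sum_erase R (fun y => ‖lsK N M (θ x - θ y)‖) hx).symm
  rw [h2]
  have h3 := ls_norm_K_le N M (θ x - θ x)
  nlinarith

/-- Duality. -/
private theorem ls_duality {ι : Type*} (R : Finset ι) (θ : ι → ℝ) (N M : ℕ) (b : ℕ → ℂ)
    (Δ : ℝ) (hΔ : 0 ≤ Δ)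
    (h : ∀ r ∈ R, ∑ r' ∈ R, ‖lsK N M (θ r - θ r')‖ ≤ Δ) :
    ∑ r ∈ R, ‖∑ n ∈ Ioc N (N + M), b n * ee (n * θ r)‖ ^ 2 ≤
      Δ * ∑ n ∈ Ioc N (N + M), ‖b n‖ ^ 2 := by
  set I := Ioc N (N + M) with hI
  set S : ι → ℂ := fun r => ∑ n ∈ I, b n * ee (n * θ r) with hS
  set F : ℕ → ℂ := fun n => ∑ r ∈ R, conj (S r) * ee (n * θ r) with hF
  set X : ℝ := ∑ r ∈ R, ‖S r‖ ^ 2 with hX
  set Bn : ℝ := ∑ n ∈ I, ‖b n‖ ^ 2 with hBn
  have hBn0 : 0 ≤ Bn := sum_nonneg fun _ _ => by positivity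
  have h1 : (X : ℂ) = ∑ n ∈ I, b n * F n := by
    have e1 : ∀ n ∈ I, b n * F n = ∑ r ∈ R, conj (S r) * (b n * ee (n * θ r)) := by
      intro n _
      rw [hF]
      simp only
      rw [mul_sum]
      exact sum_congr rfl fun r _ => by ring
    rw [sum_congr rfl e1, sum_comm, hX]
    push_cast
    refine sum_congr rfl fun r _ => ?_
    rw [← mul_sum, ← Complex.conj_mul']
  have hX0 : 0 ≤ X := sum_nonneg fun _ _ => by positivity
  have h2 : X ^ 2 ≤ Bn * ∑ n ∈ I, ‖F n‖ ^ 2 := by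
    have e1 : X ≤ ∑ n ∈ I, ‖b n‖ * ‖F n‖ := by
      calc X = ‖(X : ℂ)‖ := by rw [Complex.norm_real, Real.norm_of_nonneg hX0]
        _ ≤ ∑ n ∈ I, ‖b n * F n‖ := by rw [h1]; exact norm_sum_le _ _
        _ = _ := sum_congr rfl fun n _ => norm_mul _ _
    calc X ^ 2 ≤ (∑ n ∈ I, ‖b n‖ * ‖F n‖) ^ 2 := pow_le_pow_left₀ hX0 e1 2
      _ ≤ _ := Finset.sum_mul_sq_le_sq_mul_sq _ _ _
  have h3 : ((∑ n ∈ I, ‖F n‖ ^ 2 : ℝ) : ℂ) =
      ∑ r ∈ R, ∑ r' ∈ R, conj (S r) * S r' * lsK N M (θ r - θ r') := by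
    have e1 : ∀ n ∈ I, (‖F n‖ ^ 2 : ℂ) =
        ∑ r ∈ R, ∑ r' ∈ R, conj (S r) * S r' * ee (n * (θ r - θ r')) := by
      intro n _
      rw [← Complex.mul_conj', hF]
      simp only [map_sum, map_mul, Complex.conj_conj]
      rw [sum_mul_sum]
      refine sum_congr rfl fun r _ => sum_congr rfl fun r' _ => ?_
      rw [ls_conj_ee]
      have : (n : ℝ) * (θ r - θ r') = n * θ r + -(n * θ r') := by ring
      rw [this, ls_ee_add]
      ring
    push_cast
    rw [sum_congr rfl e1, sum_comm]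
    refine sum_congr rfl fun r _ => ?_
    rw [sum_comm]
    refine sum_congr rfl fun r' _ => ?_
    unfold lsK
    exact (mul_sum _ _ _).symm
  have h4 : ∑ n ∈ I, ‖F n‖ ^ 2 ≤ Δ * X := by
    have e0 : 0 ≤ ∑ n ∈ I, ‖F n‖ ^ 2 := sum_nonneg fun _ _ => by positivity
    calc ∑ n ∈ I, ‖F n‖ ^ 2 = ‖((∑ n ∈ I, ‖F n‖ ^ 2 : ℝ) : ℂ)‖ := by
          rw [Complex.norm_real, Real.norm_of_nonneg e0]
      _ ≤ ∑ r ∈ R, ∑ r' ∈ R, ‖S r‖ * ‖S r'‖ * ‖lsK N M (θ r - θ r')‖ := by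
          rw [h3]
          refine (norm_sum_le _ _).trans (sum_le_sum fun r _ => ?_)
          refine (norm_sum_le _ _).trans (sum_le_sum fun r' _ => ?_)
          rw [norm_mul, norm_mul, Complex.norm_conj]
      _ ≤ ∑ r ∈ R, ∑ r' ∈ R, (‖S r‖ ^ 2 / 2 * ‖lsK N M (θ r - θ r')‖ +
            ‖S r'‖ ^ 2 / 2 * ‖lsK N M (θ r - θ r')‖) := by
          refine sum_le_sum fun r _ => sum_le_sum fun r' _ => ?_
          rw [← add_mul]
          apply mul_le_mul_of_nonneg_right _ (norm_nonneg _)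
          nlinarith [sq_nonneg (‖S r‖ - ‖S r'‖)]
      _ = ∑ r ∈ R, ‖S r‖ ^ 2 / 2 * ∑ r' ∈ R, ‖lsK N M (θ r - θ r')‖ +
          ∑ r' ∈ R, ‖S r'‖ ^ 2 / 2 * ∑ r ∈ R, ‖lsK N M (θ r' - θ r)‖ := by
          simp only [sum_add_distrib]
          congr 1
          · refine sum_congr rfl fun r _ => ?_
            rw [mul_sum]
          · rw [sum_comm]
            refine sum_congr rfl fun r' _ => ?_
            rw [mul_sum]
            refine sum_congr rfl fun r _ => ?_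
            rw [← ls_norm_K_neg, neg_sub]
      _ ≤ ∑ r ∈ R, ‖S r‖ ^ 2 / 2 * Δ + ∑ r ∈ R, ‖S r‖ ^ 2 / 2 * Δ := by
          gcongr with r hr r hr
          · exact h r hr
          · exact h r hr
      _ = Δ * X := by
          rw [← sum_add_distrib, hX, mul_sum]
          exact sum_congr rfl fun r _ => by ring
  rcases eq_or_lt_of_le hX0 with h5 | h5
  · rw [← h5]; positivity
  · have h6 : X * X ≤ X * (Δ * Bn) := by
      calc X * X = X ^ 2 := by ring
        _ ≤ Bn * ∑ n ∈ I, ‖F n‖ ^ 2 := h2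
        _ ≤ Bn * (Δ * X) := by gcongr
        _ = _ := by ring
    exact le_of_mul_le_mul_left h6 h5

theorem large_sieve : ∃ C : ℝ, 0 < C ∧ ∀ (N M A : ℕ) (b : ℕ → ℂ), 1 ≤ A →
    ∑ a ∈ Icc 1 A, ∑ r ∈ cop a, ‖∑ n ∈ Ioc N (N + M), b n * ee ((n : ℝ) * r / a)‖ ^ 2 ≤
      C * ((M : ℝ) + (A : ℝ) ^ 2) * (1 + log A) * ∑ n ∈ Ioc N (N + M), ‖b n‖ ^ 2 := by
  classical
  refine ⟨3, by norm_num, fun N M A b hA => ?_⟩
  set R : Finset (Σ _ : ℕ, ℕ) := (Icc 1 A).sigma fun a => cop a with hR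
  set θ : (Σ _ : ℕ, ℕ) → ℝ := fun x => (x.2 : ℝ) / x.1 with hθ
  have h1 : ∑ a ∈ Icc 1 A, ∑ r ∈ cop a, ‖∑ n ∈ Ioc N (N + M), b n * ee ((n : ℝ) * r / a)‖ ^ 2 =
      ∑ x ∈ R, ‖∑ n ∈ Ioc N (N + M), b n * ee (n * θ x)‖ ^ 2 := by
    rw [hR, Finset.sum_sigma]
    refine sum_congr rfl fun a _ => sum_congr rfl fun r _ => ?_
    simp only [hθ, mul_div_assoc]
  rw [h1]
  have hspace : ∀ x ∈ R, ∀ y ∈ R, x ≠ y → ∀ k : ℤ,
      1 / ((A ^ 2 : ℕ) : ℝ) ≤ |θ x - θ y - k| := by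
    rintro ⟨a, r⟩ hx ⟨a', r'⟩ hy hne k
    simp only [hR, mem_sigma, mem_Icc, cop, mem_filter, mem_range] at hx hy
    obtain ⟨⟨ha1, ha2⟩, hra, hcop⟩ := hx
    obtain ⟨⟨ha1', ha2'⟩, hra', hcop'⟩ := hy
    have ha0 : (0 : ℝ) < a := by exact_mod_cast ha1
    have ha0' : (0 : ℝ) < a' := by exact_mod_cast ha1'
    simp only [hθ]
    have e1 : (r : ℝ) / a - r' / a' - k = (((r : ℤ) * a' - r' * a - k * (a * a') : ℤ) : ℝ) / (a * a') := by
      push_cast
      field_simp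
    have e2 : ((r : ℤ) * a' - r' * a - k * (a * a')) ≠ 0 := by
      intro h0
      -- then r/a - r'/a' = k, so k = 0
      have h3 : (r : ℝ) / a - r' / a' - k = 0 := by rw [e1, h0]; simp
      have h4 : (0 : ℝ) ≤ (r : ℝ) / a := by positivity
      have h5 : (r : ℝ) / a < 1 := by rw [div_lt_one ha0]; exact_mod_cast hra
      have h6 : (0 : ℝ) ≤ (r' : ℝ) / a' := by positivity
      have h7 : (r' : ℝ) / a' < 1 := by rw [div_lt_one ha0']; exact_mod_cast hra'
      have h8 : k = 0 := by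
        have h9 : (k : ℝ) < 1 := by linarith
        have h10 : (-1 : ℝ) < k := by linarith
        have h11 : k < 1 := by exact_mod_cast h9
        have h12 : -1 < k := by exact_mod_cast h10
        omega
      subst h8
      have h9 : (r : ℤ) * a' = r' * a := by linarith
      have h10 : r * a' = r' * a := by exact_mod_cast h9
      have h11 : a ∣ a' := by
        have : a ∣ r * a' := ⟨r', by rw [h10]; ring⟩
        exact (hcop.symm).dvd_of_dvd_mul_left this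
      have h12 : a' ∣ a := by
        have : a' ∣ r' * a := ⟨r, by rw [← h10]; ring⟩
        exact (hcop'.symm).dvd_of_dvd_mul_left this
      have h13 : a = a' := Nat.dvd_antisymm h11 h12
      subst h13
      have h14 : r = r' := Nat.eq_of_mul_eq_mul_right (by omega) h10
      subst h14
      exact hne rfl
    rw [e1, abs_div, abs_of_pos (by positivity : (0 : ℝ) < (a : ℝ) * a')]
    have e3 : (1 : ℝ) ≤ |(((r : ℤ) * a' - r' * a - k * (a * a') : ℤ) : ℝ)| := by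
      rw [← Int.cast_abs]
      exact_mod_cast Int.one_le_abs e2
    have e4 : (a : ℝ) * a' ≤ ((A ^ 2 : ℕ) : ℝ) := by
      have : a * a' ≤ A ^ 2 := by rw [pow_two]; exact Nat.mul_le_mul ha2 ha2'
      exact_mod_cast this
    calc 1 / ((A ^ 2 : ℕ) : ℝ) ≤ 1 / ((a : ℝ) * a') := by
          apply one_div_le_one_div_of_le (by positivity) e4
      _ ≤ _ := by gcongr
  have hlog : 0 ≤ log A := log_nonneg (by exact_mod_cast hA)
  have hA2 : 1 ≤ A ^ 2 := Nat.one_le_pow _ _ hA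
  have hk := fun x hx => ls_sum_kernel R θ (A ^ 2) N M hA2 hspace x hx
  have hΔ : (M : ℝ) + 3 / 2 * ((A ^ 2 : ℕ) : ℝ) * (1 + log ((A ^ 2 : ℕ) : ℝ)) ≤
      3 * ((M : ℝ) + (A : ℝ) ^ 2) * (1 + log A) := by
    push_cast
    rw [log_pow]
    push_cast
    have hM : (0 : ℝ) ≤ M := by positivity
    have hA' : (0 : ℝ) ≤ (A : ℝ) ^ 2 := by positivity
    nlinarith [mul_nonneg hM hlog, mul_nonneg hA' hlog]
  have h2 := ls_duality R θ N M b _ (by positivity) (fun x hx => (hk x hx).trans hΔ)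
  exact h2

end Pool.Agent.DEU
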