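import Mathlib

/-!
# DEU.LatJ: a lattice is determined by `G₄` and `G₆`
-/

namespace Pool.Agent.DEU

open Filter Topology PeriodPair

/-- The differential equation near zero, multiplied by `z ^ 6`. -/
private lemma latj_ode (L : PeriodPair) : ∀ᶠ z in 𝓝[≠] (0 : ℂ),
    (z ^ 3 * deriv (L.weierstrassPExcept 0) z - 2) ^ 2 =
      4 * (z ^ 2 * L.weierstrassPExcept 0 z + 1) ^ 3 -
        60 * L.G 4 * (z ^ 6 * L.weierstrassPExcept 0 z + z ^ 4) - 140 * L.G 6 * z ^ 6 := by
  filter_upwards [self_mem_nhdsWithin, mem_nhdsWithin_of_mem_nhds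
    (L.compl_lattice_sdiff_singleton_mem_nhds 0)] with z (hz0 : z ≠ 0) hz
  have hz' : z ∉ L.lattice := by simp_all
  have h1 := L.derivWeierstrassP_sq z hz'
  have h2 := L.weierstrassPExcept_def (0 : L.lattice) z
  have h3 := L.derivWeierstrassPExcept_def (0 : L.lattice) z
  have h4 := L.eqOn_deriv_weierstrassPExcept_derivWeierstrassPExcept 0 (x := z) hz
  simp only [ZeroMemClass.coe_zero, sub_zero] at h2 h3
  rw [h4, h3, h2]
  simp only [PeriodPair.g₂, PeriodPair.g₃] at h1
  have e1 : z ^ 3 * (L.derivWeierstrassP z + 2 / z ^ 3) - 2 = z ^ 3 * L.derivWeierstrassP z := by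
    field_simp
    ring
  have e2 : z ^ 2 * (L.weierstrassP z + (1 / 0 ^ 2 - 1 / z ^ 2)) + 1 =
      z ^ 2 * L.weierstrassP z := by
    field_simp
    ring
  have e3 : z ^ 6 * (L.weierstrassP z + (1 / 0 ^ 2 - 1 / z ^ 2)) + z ^ 4 =
      z ^ 6 * L.weierstrassP z := by
    field_simp
    ring
  rw [e1, e2, e3]
  linear_combination z ^ 6 * h1

private lemma latj_local (L L' : PeriodPair) (h4 : L.G 4 = L'.G 4) (h6 : L.G 6 = L'.G 6) :
    L.weierstrassPExcept 0 =ᶠ[𝓝 0] L'.weierstrassPExcept 0 := by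
  set f := L.weierstrassPExcept 0 with hf
  set h := L'.weierstrassPExcept 0 with hh
  have hfa : AnalyticAt ℂ f 0 := L.analyticAt_weierstrassPExcept 0
  have hha : AnalyticAt ℂ h 0 := L'.analyticAt_weierstrassPExcept 0
  have hwa : AnalyticAt ℂ (f - h) 0 := hfa.sub hha
  by_contra hne
  have hne' : ¬ ∀ᶠ z in 𝓝 (0 : ℂ), (f - h) z = 0 := by
    intro hc
    apply hne
    filter_upwards [hc] with z hz
    exact sub_eq_zero.mp hz
  obtain ⟨n, u, hua, hu0, hfu⟩ := hwa.exists_eventuallyEq_pow_smul_nonzero_iff.mpr hne'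
  simp only [sub_zero, smul_eq_mul] at hfu
  -- derivative of the difference
  have hd : ∀ᶠ z in 𝓝 (0 : ℂ), deriv f z - deriv h z = deriv (fun z => z ^ n * u z) z := by
    have h1 : deriv (f - h) =ᶠ[𝓝 0] deriv (fun z => z ^ n * u z) :=
      EventuallyEq.deriv hfu
    filter_upwards [h1, hfa.eventually_analyticAt, hha.eventually_analyticAt] with z hz hz1 hz2
    rw [← hz, deriv_sub hz1.differentiableAt hz2.differentiableAt]
  have hd2 : ∀ᶠ z in 𝓝 (0 : ℂ), deriv (fun z => z ^ n * u z) z =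
      n * z ^ (n - 1) * u z + z ^ n * deriv u z := by
    filter_upwards [hua.eventually_analyticAt] with z hz
    rw [deriv_fun_mul (by fun_prop) hz.differentiableAt, deriv_pow_field]
  -- the equation for the quotient
  have key : ∀ᶠ z in 𝓝[≠] (0 : ℂ), (n * u z + z * deriv u z) *
      (z ^ 3 * (deriv f z + deriv h z) - 4) = u z * (4 * ((z ^ 2 * f z + 1) ^ 2 +
        (z ^ 2 * f z + 1) * (z ^ 2 * h z + 1) + (z ^ 2 * h z + 1) ^ 2) -
          60 * L.G 4 * z ^ 4) := by
    filter_upwards [latj_ode L, latj_ode L', self_mem_nhdsWithin,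
      mem_nhdsWithin_of_mem_nhds hd, mem_nhdsWithin_of_mem_nhds hd2,
      mem_nhdsWithin_of_mem_nhds hfu] with z o1 o2 (hz : z ≠ 0) d1 d2 d3
    rw [← hf] at o1
    rw [← hh, ← h4, ← h6] at o2
    have d4 : z * (deriv f z - deriv h z) = z ^ n * (n * u z + z * deriv u z) := by
      rw [d1, d2]
      rcases Nat.eq_zero_or_pos n with rfl | hn
      · simp
      · obtain ⟨m, rfl⟩ : ∃ m, n = m + 1 := ⟨n - 1, by omega⟩
        simp only [Nat.add_sub_cancel]
        ring
    have d5 : f z - h z = z ^ n * u z := d3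
    have hzn : z ^ (n + 2) ≠ 0 := pow_ne_zero _ hz
    apply mul_left_cancel₀ hzn
    have o3 : z ^ 3 * (deriv f z - deriv h z) * (z ^ 3 * (deriv f z + deriv h z) - 4) =
        z ^ 2 * (f z - h z) * (4 * ((z ^ 2 * f z + 1) ^ 2 +
        (z ^ 2 * f z + 1) * (z ^ 2 * h z + 1) + (z ^ 2 * h z + 1) ^ 2) -
          60 * L.G 4 * z ^ 4) := by
      linear_combination o1 - o2
    rw [d5] at o3
    linear_combination o3 - z ^ 2 * (z ^ 3 * (deriv f z + deriv h z) - 4) * d4
  -- pass to the limit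
  have hc1 : ContinuousAt (fun z => (n * u z + z * deriv u z) *
      (z ^ 3 * (deriv f z + deriv h z) - 4)) 0 := by
    have := hua.continuousAt
    have := hua.deriv.continuousAt
    have := hfa.deriv.continuousAt
    have := hha.deriv.continuousAt
    fun_prop
  have hc2 : ContinuousAt (fun z => u z * (4 * ((z ^ 2 * f z + 1) ^ 2 +
        (z ^ 2 * f z + 1) * (z ^ 2 * h z + 1) + (z ^ 2 * h z + 1) ^ 2) -
          60 * L.G 4 * z ^ 4)) 0 := by
    have := hua.continuousAt
    have := hfa.continuousAt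
    have := hha.continuousAt
    fun_prop
  have hl := tendsto_nhds_unique_of_eventuallyEq (hc1.tendsto.mono_left nhdsWithin_le_nhds)
    (hc2.tendsto.mono_left nhdsWithin_le_nhds) key
  norm_num at hl
  have h3 : ((n : ℂ) + 3) * u 0 = 0 := by linear_combination (-1 / 4 : ℂ) * hl
  rcases mul_eq_zero.mp h3 with h3 | h3
  · have : ((n + 3 : ℕ) : ℂ) = 0 := by push_cast; exact h3
    exact absurd (Nat.cast_eq_zero.mp this) (by omega)
  · exact hu0 h3

private lemma latj_countable (L : PeriodPair) : (L.lattice : Set ℂ).Countable := by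
  have : Countable L.lattice := L.latticeEquivProd.toEquiv.countable_iff.mpr inferInstance
  exact this

private lemma latj_eqOn (L L' : PeriodPair) (h4 : L.G 4 = L'.G 4) (h6 : L.G 6 = L'.G 6) :
    Set.EqOn L.weierstrassP L'.weierstrassP ((L.lattice : Set ℂ) ∪ L'.lattice)ᶜ := by
  have hcount : ((L.lattice : Set ℂ) ∪ L'.lattice).Countable :=
    (latj_countable L).union (latj_countable L')
  have hconn : IsPreconnected ((L.lattice : Set ℂ) ∪ L'.lattice)ᶜ :=
    (hcount.isPathConnected_compl_of_one_lt_rank (by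
      rw [← Module.finrank_eq_rank, Complex.finrank_real_complex]; norm_num)).isConnected.isPreconnected
  have hloc : L.weierstrassP =ᶠ[𝓝 0] L'.weierstrassP := by
    filter_upwards [latj_local L L' h4 h6] with z hz
    have h1 := L.weierstrassPExcept_add (0 : L.lattice) z
    have h2 := L'.weierstrassPExcept_add (0 : L'.lattice) z
    simp only [ZeroMemClass.coe_zero] at h1 h2
    rw [← h1, ← h2, hz]
  obtain ⟨V, hV, hVo, h0V⟩ := eventually_nhds_iff.mp hloc
  have hdense : Dense ((L.lattice : Set ℂ) ∪ L'.lattice)ᶜ := hcount.dense_compl ℝ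
  obtain ⟨z₀, hz₀V, hz₀U⟩ := hdense.inter_open_nonempty V hVo ⟨0, h0V⟩
  have ha1 : AnalyticOnNhd ℂ L.weierstrassP ((L.lattice : Set ℂ) ∪ L'.lattice)ᶜ :=
    L.analyticOnNhd_weierstrassP.mono (Set.compl_subset_compl.mpr Set.subset_union_left)
  have ha2 : AnalyticOnNhd ℂ L'.weierstrassP ((L.lattice : Set ℂ) ∪ L'.lattice)ᶜ :=
    L'.analyticOnNhd_weierstrassP.mono (Set.compl_subset_compl.mpr Set.subset_union_right)
  refine ha1.eqOn_of_preconnected_of_eventuallyEq ha2 hconn hz₀U ?_
  filter_upwards [hVo.mem_nhds hz₀V] with z hz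
  exact hV z hz

private lemma latj_le (L L' : PeriodPair)
    (h : Set.EqOn L.weierstrassP L'.weierstrassP ((L.lattice : Set ℂ) ∪ L'.lattice)ᶜ) :
    L.lattice ≤ L'.lattice := by
  intro x hx
  by_contra hx'
  have h1 : L.weierstrassP =ᶠ[𝓝[≠] x] L'.weierstrassP := by
    filter_upwards [self_mem_nhdsWithin, mem_nhdsWithin_of_mem_nhds
      (L.compl_lattice_sdiff_singleton_mem_nhds x), mem_nhdsWithin_of_mem_nhds
      (L'.compl_lattice_sdiff_singleton_mem_nhds x)] with z (hz : z ≠ x) hz1 hz2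
    apply h
    simp_all
  have h2 := meromorphicOrderAt_congr h1
  rw [L.order_weierstrassP x hx] at h2
  have h3 : AnalyticAt ℂ L'.weierstrassP x := L'.analyticOnNhd_weierstrassP x hx'
  have h4 := h3.meromorphicOrderAt_nonneg
  rw [← h2] at h4
  exact absurd h4 (by decide)

theorem lattice_eq (L L' : PeriodPair) (h4 : L.G 4 = L'.G 4) (h6 : L.G 6 = L'.G 6) :
    L.lattice = L'.lattice := by
  apply le_antisymm
  · exact latj_le L L' (latj_eqOn L L' h4 h6)
  · exact latj_le L' L (latj_eqOn L' L h4.symm h6.symm)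

end Pool.Agent.DEU
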