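import Pool.Agent.DEU.Rep
import Pool.Agent.DEU.LatJ

/-!
# DEU.LatE: Eisenstein series as functions of lattices
-/

namespace Pool.Agent.DEU

open UpperHalfPlane ModularForm MatrixGroups EisensteinSeries

private theorem late_G (L : PeriodPair) (z : ℍ) {l : ℂ} {k : ℕ} (hk : 3 ≤ k)
    (h1 : L.ω₁ = l * z) (h2 : L.ω₂ = l) :
    L.G k = 2 * riemannZeta k * (l ^ k)⁻¹ * E hk z := by
  have hE : E hk z = (1 / 2 : ℂ) * eisensteinSeries (N := 1) 0 k z := by
    rw [show E hk z = (1 / 2 : ℂ) • eisensteinSeriesSIF (N := 1) 0 k z from rfl,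
      eisensteinSeriesSIF_apply 0 k z, smul_eq_mul]
  have hsum : L.G k = (l ^ k)⁻¹ * ∑' v : Fin 2 → ℤ, eisSummand k v z := by
    unfold PeriodPair.G
    rw [← (L.latticeEquivProd.symm.toEquiv).tsum_eq, ← (finTwoArrowEquiv ℤ).tsum_eq,
      ← tsum_mul_left]
    refine tsum_congr fun v => ?_
    have e : ((L.latticeEquivProd.symm.toEquiv (finTwoArrowEquiv ℤ v) : L.lattice) : ℂ) =
        l * ((v 0 : ℂ) * z + v 1) := by
      have := L.latticeEquiv_symm_apply (finTwoArrowEquiv ℤ v)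
      rw [h1, h2] at this
      refine this.trans ?_
      change ((v 0 : ℤ) : ℂ) * (l * z) + ((v 1 : ℤ) : ℂ) * l = _
      ring
    rw [e, mul_pow, mul_inv, eisSummand, zpow_neg, zpow_natCast]
  rw [hsum, tsum_eisSummand_eq_riemannZeta_mul_eisensteinSeries hk, hE]
  ring

theorem G4_eq (L : PeriodPair) (z : ℍ) {l : ℂ} (hl : l ≠ 0) (h1 : L.ω₁ = l * z)
    (h2 : L.ω₂ = l) : L.G 4 = 2 * riemannZeta 4 * (l ^ 4)⁻¹ * e4 z := by
  have h := late_G L z (show 3 ≤ 4 by norm_num) h1 h2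
  exact_mod_cast h

theorem G6_eq (L : PeriodPair) (z : ℍ) {l : ℂ} (hl : l ≠ 0) (h1 : L.ω₁ = l * z)
    (h2 : L.ω₂ = l) : L.G 6 = 2 * riemannZeta 6 * (l ^ 6)⁻¹ * e6 z := by
  have h := late_G L z (show 3 ≤ 6 by norm_num) h1 h2
  exact_mod_cast h

private theorem late_pair (z : ℍ) {l : ℂ} (hl : l ≠ 0) :
    ∃ L : PeriodPair, L.ω₁ = l * z ∧ L.ω₂ = l := by
  refine ⟨⟨l * z, l, ?_⟩, rfl, rfl⟩
  rw [LinearIndependent.pair_iff]
  intro s t hst
  have h1 : l * ((s : ℂ) * z + t) = 0 := by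
    rw [Complex.real_smul, Complex.real_smul] at hst
    linear_combination hst
  have h2 := (mul_eq_zero.1 h1).resolve_left hl
  have h3 := congrArg Complex.im h2
  simp only [Complex.add_im, Complex.mul_im, Complex.ofReal_re, Complex.ofReal_im, zero_mul,
    add_zero, Complex.zero_im] at h3
  have hs : s = 0 := (mul_eq_zero.1 h3).resolve_right z.im_pos.ne'
  rw [hs] at h2
  refine ⟨hs, ?_⟩
  simpa using h2

/-- Homothetic lattices with the same values are equal. -/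
theorem lat_eq {z z' : ℍ} {l l' : ℂ} (hl : l ≠ 0) (hl' : l' ≠ 0)
    (h4 : (l ^ 4)⁻¹ * e4 z = (l' ^ 4)⁻¹ * e4 z') (h6 : (l ^ 6)⁻¹ * e6 z = (l' ^ 6)⁻¹ * e6 z') :
    lat l z = lat l' z' := by
  obtain ⟨L, hL1, hL2⟩ := late_pair z hl
  obtain ⟨L', hL1', hL2'⟩ := late_pair z' hl'
  have h := lattice_eq L L'
    (by rw [G4_eq L z hl hL1 hL2, G4_eq L' z' hl' hL1' hL2']
        linear_combination (2 * riemannZeta 4) * h4)
    (by rw [G6_eq L z hl hL1 hL2, G6_eq L' z' hl' hL1' hL2']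
        linear_combination (2 * riemannZeta 6) * h6)
  unfold PeriodPair.lattice at h
  rw [hL1, hL2, hL1', hL2'] at h
  exact h

private theorem late_congr (L L' : PeriodPair) (h : L.lattice = L'.lattice) (k : ℕ) :
    L.G k = L'.G k := by
  unfold PeriodPair.G
  rw [h]

/-- The values depend on the lattice only. -/
theorem lat_val {z z' : ℍ} {l l' : ℂ} (hl : l ≠ 0) (hl' : l' ≠ 0) (h : lat l z = lat l' z') :
    (l ^ 4)⁻¹ * e4 z = (l' ^ 4)⁻¹ * e4 z' ∧ (l ^ 6)⁻¹ * e6 z = (l' ^ 6)⁻¹ * e6 z' := by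
  obtain ⟨L, hL1, hL2⟩ := late_pair z hl
  obtain ⟨L', hL1', hL2'⟩ := late_pair z' hl'
  have hLL : L.lattice = L'.lattice := by
    unfold PeriodPair.lattice
    rw [hL1, hL2, hL1', hL2']
    exact h
  have hz4 : (2 : ℂ) * riemannZeta 4 ≠ 0 :=
    mul_ne_zero two_ne_zero (riemannZeta_ne_zero_of_one_lt_re (by norm_num))
  have hz6 : (2 : ℂ) * riemannZeta 6 ≠ 0 :=
    mul_ne_zero two_ne_zero (riemannZeta_ne_zero_of_one_lt_re (by norm_num))
  constructor
  · have h1 := late_congr L L' hLL 4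
    rw [G4_eq L z hl hL1 hL2, G4_eq L' z' hl' hL1' hL2'] at h1
    apply mul_left_cancel₀ hz4
    linear_combination h1
  · have h1 := late_congr L L' hLL 6
    rw [G6_eq L z hl hL1 hL2, G6_eq L' z' hl' hL1' hL2'] at h1
    apply mul_left_cancel₀ hz6
    linear_combination h1

end Pool.Agent.DEU
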