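import Mathlib

/-!
# DEU.PhiSum: the mean value of `φ(a)/a`
-/

namespace Pool.Agent.DEU

open Finset Real

private lemma phiSum_hasSum :
    HasSum (fun n : ℕ => (ArithmeticFunction.moebius n : ℝ) / (n : ℝ) ^ 2) (6 / π ^ 2) := by
  have h2 : (1 : ℝ) < (2 : ℂ).re := by norm_num
  have hs := ArithmeticFunction.LSeriesSummable_moebius_iff.mpr h2
  have hprod := ArithmeticFunction.LSeries_zeta_mul_Lseries_moebius h2
  rw [ArithmeticFunction.LSeries_zeta_eq_riemannZeta h2, riemannZeta_two] at hprod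
  have hsum := hs.LSeriesHasSum
  rw [LSeriesHasSum] at hsum
  have hval : LSeries (fun n => ((ArithmeticFunction.moebius n : ℤ) : ℂ)) 2 =
      ((6 / π ^ 2 : ℝ) : ℂ) := by
    have hpi : (π : ℂ) ≠ 0 := by exact_mod_cast pi_ne_zero
    have h3 : ((π : ℂ) ^ 2 / 6) ≠ 0 := by
      apply div_ne_zero (pow_ne_zero _ hpi); norm_num
    apply mul_left_cancel₀ h3
    rw [hprod]
    push_cast
    field_simp
  rw [hval] at hsum
  have hre := Complex.hasSum_re hsum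
  rw [Complex.ofReal_re] at hre
  have hfun : (fun n : ℕ => (ArithmeticFunction.moebius n : ℝ) / (n : ℝ) ^ 2) =
      fun n => (LSeries.term (fun n => ((ArithmeticFunction.moebius n : ℤ) : ℂ)) 2 n).re := by
    funext n
    rcases Nat.eq_zero_or_pos n with h0 | h0
    · subst h0; simp
    · rw [LSeries.term_of_ne_zero (by omega)]
      have e1 : ((n : ℂ) ^ (2 : ℂ)) = (((n : ℝ) ^ 2 : ℝ) : ℂ) := by
        push_cast
        exact_mod_cast Complex.cpow_natCast (n : ℂ) 2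
      have e2 : ((ArithmeticFunction.moebius n : ℤ) : ℂ) =
          ((ArithmeticFunction.moebius n : ℝ) : ℂ) := by push_cast; rfl
      rw [e1, e2, ← Complex.ofReal_div, Complex.ofReal_re]
  rw [hfun]
  exact hre

private lemma phiSum_tail (N : ℕ) (hN : 1 ≤ N) :
    |∑ d ∈ Icc 1 N, (ArithmeticFunction.moebius d : ℝ) / (d : ℝ) ^ 2 - 6 / π ^ 2| ≤
      (N : ℝ)⁻¹ := by
  have ht := (phiSum_hasSum.tendsto_sum_nat).comp (Filter.tendsto_add_atTop_nat 1)
  have ht2 : Filter.Tendsto (fun M : ℕ =>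
      |∑ d ∈ Icc 1 N, (ArithmeticFunction.moebius d : ℝ) / (d : ℝ) ^ 2 -
        ∑ d ∈ range (M + 1), (ArithmeticFunction.moebius d : ℝ) / (d : ℝ) ^ 2|) Filter.atTop
      (nhds |∑ d ∈ Icc 1 N, (ArithmeticFunction.moebius d : ℝ) / (d : ℝ) ^ 2 - 6 / π ^ 2|) :=
    (tendsto_const_nhds.sub ht).abs
  refine le_of_tendsto ht2 ?_
  filter_upwards [Filter.eventually_ge_atTop N] with M hM
  have e1 : range (M + 1) = insert 0 (Icc 1 N ∪ Ioc N M) := by
    ext x
    simp only [mem_range, mem_insert, mem_union, mem_Icc, mem_Ioc]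
    omega
  have hd : Disjoint (Icc 1 N) (Ioc N M) := by
    rw [Finset.disjoint_left]
    intro x hx hy
    rw [mem_Icc] at hx
    rw [mem_Ioc] at hy
    omega
  rw [e1, sum_insert (by simp), sum_union hd]
  have e2 : ∑ d ∈ Icc 1 N, (ArithmeticFunction.moebius d : ℝ) / (d : ℝ) ^ 2 -
      ((ArithmeticFunction.moebius 0 : ℝ) / ((0 : ℕ) : ℝ) ^ 2 +
        (∑ d ∈ Icc 1 N, (ArithmeticFunction.moebius d : ℝ) / (d : ℝ) ^ 2 +
          ∑ d ∈ Ioc N M, (ArithmeticFunction.moebius d : ℝ) / (d : ℝ) ^ 2)) =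
      - ∑ d ∈ Ioc N M, (ArithmeticFunction.moebius d : ℝ) / (d : ℝ) ^ 2 := by
    simp
  rw [e2, abs_neg]
  calc |∑ d ∈ Ioc N M, (ArithmeticFunction.moebius d : ℝ) / (d : ℝ) ^ 2|
      ≤ ∑ d ∈ Ioc N M, |(ArithmeticFunction.moebius d : ℝ) / (d : ℝ) ^ 2| :=
        abs_sum_le_sum_abs _ _
    _ ≤ ∑ d ∈ Ioc N M, ((d : ℝ) ^ 2)⁻¹ := by
        apply sum_le_sum
        intro d hd
        rw [abs_div, abs_of_nonneg (by positivity : (0 : ℝ) ≤ (d : ℝ) ^ 2), div_eq_mul_inv]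
        have h1 : |(ArithmeticFunction.moebius d : ℝ)| ≤ 1 := by
          exact_mod_cast ArithmeticFunction.abs_moebius_le_one (n := d)
        have h2 : (0 : ℝ) ≤ ((d : ℝ) ^ 2)⁻¹ := by positivity
        nlinarith
    _ ≤ (N : ℝ)⁻¹ - (M : ℝ)⁻¹ := sum_Ioc_inv_sq_le_sub (by omega) hM
    _ ≤ (N : ℝ)⁻¹ := by
        have : (0 : ℝ) ≤ (M : ℝ)⁻¹ := by positivity
        linarith

private lemma phiSum_totient (a : ℕ) (ha : 1 ≤ a) :
    (Nat.totient a : ℝ) / a = ∑ d ∈ a.divisors, (ArithmeticFunction.moebius d : ℝ) / d := by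
  have h := (ArithmeticFunction.sum_eq_iff_sum_mul_moebius_eq (R := ℝ)
    (f := fun n => (Nat.totient n : ℝ)) (g := fun n => (n : ℝ))).mp (by
      intro n _
      exact_mod_cast Nat.sum_totient n) a ha
  have h' := Nat.sum_divisorsAntidiagonal (n := a)
    (f := fun (d _ : ℕ) => (ArithmeticFunction.moebius d : ℝ) / (d : ℝ))
  rw [← h, sum_div, ← h']
  refine sum_congr rfl ?_
  intro x hx
  rw [Nat.mem_divisorsAntidiagonal] at hx
  have hx1 : (x.1 : ℝ) * x.2 = a := by exact_mod_cast hx.1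
  have hane : (a : ℝ) ≠ 0 := by
    have : a ≠ 0 := hx.2
    exact_mod_cast this
  have hx1ne : (x.1 : ℝ) ≠ 0 := by
    intro h0; rw [h0, zero_mul] at hx1; exact hane hx1.symm
  have hx2ne : (x.2 : ℝ) ≠ 0 := by
    intro h0; rw [h0, mul_zero] at hx1; exact hane hx1.symm
  rw [← hx1]
  field_simp

private lemma phiSum_exchange (N : ℕ) :
    ∑ a ∈ Icc 1 N, (Nat.totient a : ℝ) / a =
      ∑ d ∈ Icc 1 N, (ArithmeticFunction.moebius d : ℝ) / d * ((N / d : ℕ) : ℝ) := by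
  have h1 : ∑ a ∈ Icc 1 N, (Nat.totient a : ℝ) / a =
      ∑ a ∈ Icc 1 N, ∑ d ∈ Icc 1 N,
        if d ∣ a then (ArithmeticFunction.moebius d : ℝ) / d else 0 := by
    refine sum_congr rfl ?_
    intro a ha
    rw [mem_Icc] at ha
    rw [phiSum_totient a ha.1, ← sum_filter]
    refine sum_congr ?_ (fun _ _ => rfl)
    ext d
    rw [Nat.mem_divisors, mem_filter, mem_Icc]
    constructor
    · intro h
      exact ⟨⟨Nat.pos_of_dvd_of_pos h.1 (by omega), (Nat.le_of_dvd (by omega) h.1).trans ha.2⟩,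
        h.1⟩
    · intro h
      exact ⟨h.2, by omega⟩
  rw [h1, sum_comm]
  refine sum_congr rfl ?_
  intro d hd
  rw [← sum_filter, sum_const, nsmul_eq_mul, mul_comm]
  congr 2
  have h2 := Nat.Ioc_filter_dvd_card_eq_div N d
  rw [← h2]
  congr 1

theorem phi_sum : ∃ C : ℝ, 0 < C ∧ ∀ N : ℕ,
    |∑ a ∈ Icc 1 N, (Nat.totient a : ℝ) / a - 6 / π ^ 2 * N| ≤ C * (1 + log ((N : ℝ) + 1)) := by
  refine ⟨2, by norm_num, ?_⟩
  intro N
  rcases Nat.eq_zero_or_pos N with h0 | hN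
  · subst h0; simp
  have hN0 : (0 : ℝ) < N := by exact_mod_cast hN
  have hlog : log (N : ℝ) ≤ log ((N : ℝ) + 1) := log_le_log hN0 (by linarith)
  have hlog0 : 0 ≤ log ((N : ℝ) + 1) := log_nonneg (by linarith)
  rw [phiSum_exchange]
  have e1 : ∑ d ∈ Icc 1 N, (ArithmeticFunction.moebius d : ℝ) / d * ((N / d : ℕ) : ℝ) -
      6 / π ^ 2 * N =
      ∑ d ∈ Icc 1 N, (ArithmeticFunction.moebius d : ℝ) / d *
        (((N / d : ℕ) : ℝ) - (N : ℝ) / d) +
      N * (∑ d ∈ Icc 1 N, (ArithmeticFunction.moebius d : ℝ) / (d : ℝ) ^ 2 - 6 / π ^ 2) := by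
    rw [mul_sub, mul_sum]
    have : ∑ d ∈ Icc 1 N, (ArithmeticFunction.moebius d : ℝ) / d *
        (((N / d : ℕ) : ℝ) - (N : ℝ) / d) =
      ∑ d ∈ Icc 1 N, (ArithmeticFunction.moebius d : ℝ) / d * ((N / d : ℕ) : ℝ) -
      ∑ d ∈ Icc 1 N, (N : ℝ) * ((ArithmeticFunction.moebius d : ℝ) / (d : ℝ) ^ 2) := by
      rw [← sum_sub_distrib]
      refine sum_congr rfl ?_
      intro d hd
      rw [mul_sub]
      congr 1
      rw [div_mul_div_comm, mul_div_assoc', mul_comm (N : ℝ), sq]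
    rw [this]
    ring
  rw [e1]
  have b1 : |∑ d ∈ Icc 1 N, (ArithmeticFunction.moebius d : ℝ) / d *
      (((N / d : ℕ) : ℝ) - (N : ℝ) / d)| ≤ 1 + log N := by
    calc |∑ d ∈ Icc 1 N, (ArithmeticFunction.moebius d : ℝ) / d *
        (((N / d : ℕ) : ℝ) - (N : ℝ) / d)|
        ≤ ∑ d ∈ Icc 1 N, |(ArithmeticFunction.moebius d : ℝ) / d *
          (((N / d : ℕ) : ℝ) - (N : ℝ) / d)| := abs_sum_le_sum_abs _ _
      _ ≤ ∑ d ∈ Icc 1 N, ((d : ℝ))⁻¹ := by
          apply sum_le_sum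
          intro d hd
          rw [mem_Icc] at hd
          have hd0 : (0 : ℝ) < d := by exact_mod_cast hd.1
          rw [abs_mul, abs_div, abs_of_pos hd0, div_eq_mul_inv]
          have h1 : |(ArithmeticFunction.moebius d : ℝ)| ≤ 1 := by
            exact_mod_cast ArithmeticFunction.abs_moebius_le_one (n := d)
          have h2 : |((N / d : ℕ) : ℝ) - (N : ℝ) / d| ≤ 1 := by
            have hfl : ((N / d : ℕ) : ℝ) ≤ (N : ℝ) / d := Nat.cast_div_le
            have hfl2 : (N : ℝ) / d < ((N / d : ℕ) : ℝ) + 1 := by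
              have := Nat.lt_floor_add_one ((N : ℝ) / d)
              rwa [Nat.floor_div_eq_div] at this
            rw [abs_le]
            constructor <;> linarith
          have h3 : (0 : ℝ) ≤ (d : ℝ)⁻¹ := by positivity
          have h4 : |(ArithmeticFunction.moebius d : ℝ)| * (d : ℝ)⁻¹ ≤ (d : ℝ)⁻¹ := by
            nlinarith
          have h5 : 0 ≤ |(ArithmeticFunction.moebius d : ℝ)| * (d : ℝ)⁻¹ := by positivity
          nlinarith [abs_nonneg (((N / d : ℕ) : ℝ) - (N : ℝ) / d)]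
      _ = ((harmonic N : ℚ) : ℝ) := by
          rw [harmonic_eq_sum_Icc]
          push_cast
          rfl
      _ ≤ 1 + log N := harmonic_le_one_add_log N
  have b2 : |(N : ℝ) * (∑ d ∈ Icc 1 N, (ArithmeticFunction.moebius d : ℝ) / (d : ℝ) ^ 2 -
      6 / π ^ 2)| ≤ 1 := by
    rw [abs_mul, abs_of_pos hN0]
    calc (N : ℝ) * |∑ d ∈ Icc 1 N, (ArithmeticFunction.moebius d : ℝ) / (d : ℝ) ^ 2 - 6 / π ^ 2|
        ≤ N * (N : ℝ)⁻¹ := mul_le_mul_of_nonneg_left (phiSum_tail N hN) hN0.le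
      _ = 1 := mul_inv_cancel₀ hN0.ne'
  calc _ ≤ |∑ d ∈ Icc 1 N, (ArithmeticFunction.moebius d : ℝ) / d *
      (((N / d : ℕ) : ℝ) - (N : ℝ) / d)| + |(N : ℝ) * (∑ d ∈ Icc 1 N,
        (ArithmeticFunction.moebius d : ℝ) / (d : ℝ) ^ 2 - 6 / π ^ 2)| := abs_add_le _ _
    _ ≤ (1 + log N) + 1 := add_le_add b1 b2
    _ ≤ 2 * (1 + log ((N : ℝ) + 1)) := by linarith

end Pool.Agent.DEU
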