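import Pool.Agent.DEU.CDefs
import Pool.Agent.DEU.Omega
import Pool.Agent.DEU.PhiSum

/-!
# DEU.MainTerm: the main term
-/

namespace Pool.Agent.DEU

open Finset Real

/-! ### Comparison of sums and integrals for functions of bounded variation -/

private lemma mainTerm_step (G v : ℝ → ℝ) (hG : Continuous G)
    (h : ∀ x y : ℝ, x ≤ y → |G x - G y| ≤ v y - v x) (b : ℝ) :
    |G (b + 1) - ∫ x in b..(b + 1), G x| ≤ v (b + 1) - v b := by
  have h1 : G (b + 1) - ∫ x in b..(b + 1), G x = ∫ x in b..(b + 1), (G (b + 1) - G x) := by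
    rw [intervalIntegral.integral_sub (by simp) (hG.intervalIntegrable _ _)]
    simp
  rw [h1]
  have h2 := intervalIntegral.norm_integral_le_of_norm_le_const (a := b) (b := b + 1)
    (f := fun x => G (b + 1) - G x) (C := v (b + 1) - v b) (by
      intro x hx
      rw [Set.uIoc_of_le (by linarith)] at hx
      have h3 := h x (b + 1) hx.2
      have h4 := h b x hx.1.le
      have h5 := abs_nonneg (G b - G x)
      rw [Real.norm_eq_abs, abs_sub_comm]
      linarith)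
  simpa using h2

private lemma mainTerm_sum_int (G v : ℝ → ℝ) (hG : Continuous G)
    (h : ∀ x y : ℝ, x ≤ y → |G x - G y| ≤ v y - v x) (a : ℤ) (k : ℕ) :
    |∑ t ∈ Ioc a (a + k), G t - ∫ x in (a : ℝ)..((a : ℝ) + k), G x| ≤
      v ((a : ℝ) + k) - v a := by
  induction k with
  | zero => simp
  | succ k ih =>
    have e1 : Ioc a (a + (k + 1 : ℕ)) = insert (a + k + 1) (Ioc a (a + k)) := by
      ext t
      simp only [mem_Ioc, mem_insert]
      push_cast
      omega
    have e2 : (a + k + 1 : ℤ) ∉ Ioc a (a + (k : ℤ)) := by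
      simp
    have e3 : ∫ x in (a : ℝ)..((a : ℝ) + (k + 1 : ℕ)), G x =
        (∫ x in (a : ℝ)..((a : ℝ) + k), G x) + ∫ x in ((a : ℝ) + k)..((a : ℝ) + k + 1), G x := by
      rw [intervalIntegral.integral_add_adjacent_intervals (hG.intervalIntegrable _ _)
        (hG.intervalIntegrable _ _)]
      push_cast
      ring_nf
    rw [e1, sum_insert e2, e3]
    have h1 := mainTerm_step G v hG h ((a : ℝ) + k)
    push_cast
    have h2 := abs_add_le (∑ t ∈ Ioc a (a + (k : ℤ)), G t - ∫ x in (a : ℝ)..((a : ℝ) + k), G x)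
      (G ((a : ℝ) + k + 1) - ∫ x in ((a : ℝ) + k)..((a : ℝ) + k + 1), G x)
    have e4 : G ((a : ℝ) + k + 1) + ∑ t ∈ Ioc a (a + (k : ℤ)), G t -
        ((∫ x in (a : ℝ)..((a : ℝ) + k), G x) + ∫ x in ((a : ℝ) + k)..((a : ℝ) + k + 1), G x) =
        (∑ t ∈ Ioc a (a + (k : ℤ)), G t - ∫ x in (a : ℝ)..((a : ℝ) + k), G x) +
      (G ((a : ℝ) + k + 1) - ∫ x in ((a : ℝ) + k)..((a : ℝ) + k + 1), G x) := by ring
    rw [e4]
    have e5 : (a : ℝ) + (k + 1) = (a : ℝ) + k + 1 := by ring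
    rw [e5]
    linarith

/-! ### The sum over `t` -/

private lemma mainTerm_var (n : ℝ) (x y : ℝ) (hxy : x ≤ y) :
    |√(n - x ^ 2) - √(n - y ^ 2)| ≤
      (if y ≤ 0 then √(n - y ^ 2) else 2 * √n - √(n - y ^ 2)) -
      (if x ≤ 0 then √(n - x ^ 2) else 2 * √n - √(n - x ^ 2)) := by
  have hx1 : √(n - x ^ 2) ≤ √n := Real.sqrt_le_sqrt (by nlinarith [sq_nonneg x])
  have hy1 : √(n - y ^ 2) ≤ √n := Real.sqrt_le_sqrt (by nlinarith [sq_nonneg y])
  have hx0 := Real.sqrt_nonneg (n - x ^ 2)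
  have hy0 := Real.sqrt_nonneg (n - y ^ 2)
  split_ifs with h1 h2 h2
  · have : √(n - x ^ 2) ≤ √(n - y ^ 2) := Real.sqrt_le_sqrt (by nlinarith)
    rw [abs_of_nonpos (by linarith)]
    linarith
  · exfalso; linarith
  · rw [abs_le]
    constructor <;> linarith
  · have : √(n - y ^ 2) ≤ √(n - x ^ 2) := Real.sqrt_le_sqrt (by nlinarith)
    rw [abs_of_nonneg (by linarith)]
    linarith

private lemma mainTerm_integral (n : ℝ) (hn : 0 < n) (θ : ℝ) (h0 : 0 ≤ θ) (h1 : θ ≤ 1) :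
    ∫ x in (2 * √n * cos (π * θ))..(2 * √n), √(4 * n - x ^ 2) =
      π * (2 * n * (θ - sin (2 * π * θ) / (2 * π))) := by
  have h2 := intervalIntegral.integral_comp_mul_deriv (a := 0) (b := π * θ)
    (f := fun φ => 2 * √n * cos φ) (f' := fun φ => 2 * √n * (-sin φ))
    (g := fun x => √(4 * n - x ^ 2))
    (fun φ _ => (Real.hasDerivAt_cos φ).const_mul _) (by fun_prop) (by fun_prop)
  simp only [Function.comp, cos_zero, mul_one] at h2
  rw [intervalIntegral.integral_symm, ← h2]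
  have h3 : ∫ φ in (0 : ℝ)..(π * θ), √(4 * n - (2 * √n * cos φ) ^ 2) * (2 * √n * (-sin φ)) =
      ∫ φ in (0 : ℝ)..(π * θ), -(4 * n) * sin φ ^ 2 := by
    apply intervalIntegral.integral_congr
    intro φ hφ
    rw [Set.uIcc_of_le (by positivity)] at hφ
    have hs : 0 ≤ sin φ := sin_nonneg_of_nonneg_of_le_pi hφ.1 (by nlinarith [hφ.2, pi_pos])
    have e1 : 4 * n - (2 * √n * cos φ) ^ 2 = (2 * √n * sin φ) ^ 2 := by
      have hsn : √n ^ 2 = n := Real.sq_sqrt hn.le
      have hc := Real.sin_sq_add_cos_sq φ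
      have : (2 * √n * cos φ) ^ 2 = 4 * n * cos φ ^ 2 := by rw [mul_pow, mul_pow, hsn]; ring
      rw [this]
      have : (2 * √n * sin φ) ^ 2 = 4 * n * sin φ ^ 2 := by rw [mul_pow, mul_pow, hsn]; ring
      rw [this]
      linear_combination (-4 * n) * hc
    simp only
    rw [e1, Real.sqrt_sq (by positivity)]
    have hsn : √n * √n = n := Real.mul_self_sqrt hn.le
    linear_combination (-4 * sin φ ^ 2) * hsn
  rw [h3, intervalIntegral.integral_const_mul, integral_sin_sq, sin_zero,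
    show 2 * π * θ = 2 * (π * θ) by ring, sin_two_mul]
  have hpi := pi_pos.ne'
  field_simp
  ring

theorem t_sum : ∃ C : ℝ, 0 < C ∧ ∀ n : ℕ, 1 ≤ n → ∀ θ : ℝ, 0 ≤ θ → θ ≤ 1 →
    |∑ t ∈ (tset n).filter (fun t : ℤ => 2 * √(n : ℝ) * cos (π * θ) < t),
      √(4 * (n : ℝ) - (t : ℝ) ^ 2) -
    π * (2 * n * (θ - sin (2 * π * θ) / (2 * π)))| ≤ C * √(n : ℝ) := by
  refine ⟨6, by norm_num, fun n hn θ h0 h1 => ?_⟩
  have hn1 : (1 : ℝ) ≤ n := by exact_mod_cast hn
  set G : ℝ → ℝ := fun x => √(4 * (n : ℝ) - x ^ 2) with hGdef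
  set v : ℝ → ℝ := fun y => if y ≤ 0 then √(4 * (n : ℝ) - y ^ 2) else
    2 * √(4 * (n : ℝ)) - √(4 * (n : ℝ) - y ^ 2) with hvdef
  have hG : Continuous G := by fun_prop
  have hv : ∀ x y : ℝ, x ≤ y → |G x - G y| ≤ v y - v x := fun x y hxy =>
    mainTerm_var (4 * (n : ℝ)) x y hxy
  set x0 : ℝ := 2 * √(n : ℝ) * cos (π * θ) with hx0
  have hs1 : 1 ≤ √(n : ℝ) := by
    rw [show (1 : ℝ) = √1 by simp]; exact Real.sqrt_le_sqrt hn1
  have hsn : √(n : ℝ) ^ 2 = n := Real.sq_sqrt (by linarith)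
  have hR : √(4 * (n : ℝ)) = 2 * √(n : ℝ) := by
    rw [Real.sqrt_mul (by norm_num), show (4 : ℝ) = 2 ^ 2 by norm_num,
      Real.sqrt_sq (by norm_num)]
  have hx0R : x0 ≤ 2 * √(n : ℝ) := by
    have := cos_le_one (π * θ)
    nlinarith
  have hR2 : 2 * √(n : ℝ) ≤ 2 * n := by nlinarith
  have hfl : ⌊x0⌋ ≤ (2 * n : ℤ) := by
    have : ((⌊x0⌋ : ℤ) : ℝ) ≤ ((2 * n : ℤ) : ℝ) := by
      push_cast
      exact (Int.floor_le x0).trans (hx0R.trans hR2)
    exact_mod_cast this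
  obtain ⟨k, hk⟩ := Int.eq_ofNat_of_zero_le (sub_nonneg.mpr hfl)
  have hk' : ⌊x0⌋ + (k : ℤ) = 2 * n := by omega
  have hkR : ((⌊x0⌋ : ℤ) : ℝ) + k = 2 * n := by exact_mod_cast hk'
  have key := mainTerm_sum_int G v hG hv ⌊x0⌋ k
  rw [hk', hkR] at key
  -- the sum
  have hsum : ∑ t ∈ (tset n).filter (fun t : ℤ => x0 < t), √(4 * (n : ℝ) - (t : ℝ) ^ 2) =
      ∑ t ∈ Ioc ⌊x0⌋ (2 * n : ℤ), G t := by
    apply sum_subset
    · intro t ht
      rw [mem_filter, mem_tset] at ht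
      rw [mem_Ioc]
      refine ⟨Int.floor_lt.mpr ht.2, ?_⟩
      have : 1 ≤ (n : ℤ) := by exact_mod_cast hn
      nlinarith [ht.1]
    · intro t ht ht'
      rw [mem_filter, mem_tset] at ht'
      rw [mem_Ioc] at ht
      have h2 : x0 < t := Int.floor_lt.mp ht.1
      have h3 : ¬ (t ^ 2 < 4 * (n : ℤ)) := fun h => ht' ⟨h, h2⟩
      push Not at h3
      have h4 : 4 * (n : ℝ) ≤ (t : ℝ) ^ 2 := by exact_mod_cast h3
      exact Real.sqrt_eq_zero_of_nonpos (by linarith)
  -- the integral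
  have hi1 : ∫ x in ((⌊x0⌋ : ℤ) : ℝ)..(2 * n : ℝ), G x =
      (∫ x in ((⌊x0⌋ : ℤ) : ℝ)..x0, G x) + (∫ x in x0..(2 * √(n : ℝ)), G x) +
        ∫ x in (2 * √(n : ℝ))..(2 * n : ℝ), G x := by
    rw [intervalIntegral.integral_add_adjacent_intervals (hG.intervalIntegrable _ _)
        (hG.intervalIntegrable _ _), intervalIntegral.integral_add_adjacent_intervals
        (hG.intervalIntegrable _ _) (hG.intervalIntegrable _ _)]
  have hi2 : ∫ x in (2 * √(n : ℝ))..(2 * n : ℝ), G x = 0 := by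
    rw [intervalIntegral.integral_congr (g := fun _ => (0 : ℝ))]
    · simp
    · intro x hx
      rw [Set.uIcc_of_le hR2] at hx
      refine Real.sqrt_eq_zero_of_nonpos ?_
      nlinarith [hx.1, hs1]
  have hGle : ∀ x, G x ≤ 2 * √(n : ℝ) := by
    intro x
    rw [← hR]
    exact Real.sqrt_le_sqrt (by nlinarith [sq_nonneg x])
  have hG0 : ∀ x, 0 ≤ G x := fun x => Real.sqrt_nonneg _
  have hi3 : |∫ x in ((⌊x0⌋ : ℤ) : ℝ)..x0, G x| ≤ 2 * √(n : ℝ) := by
    have := intervalIntegral.norm_integral_le_of_norm_le_const (a := ((⌊x0⌋ : ℤ) : ℝ)) (b := x0)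
      (f := G) (C := 2 * √(n : ℝ)) (by
        intro x _
        rw [Real.norm_eq_abs, abs_of_nonneg (hG0 x)]
        exact hGle x)
    rw [Real.norm_eq_abs] at this
    have h5 : |x0 - ((⌊x0⌋ : ℤ) : ℝ)| ≤ 1 := by
      rw [abs_of_nonneg (by linarith [Int.floor_le x0])]
      linarith [Int.lt_floor_add_one x0]
    calc _ ≤ 2 * √(n : ℝ) * |x0 - ((⌊x0⌋ : ℤ) : ℝ)| := this
      _ ≤ 2 * √(n : ℝ) * 1 := by gcongr
      _ = _ := by ring
  have hi4 := mainTerm_integral (n : ℝ) (by linarith) θ h0 h1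
  have hv1 : v (2 * n : ℝ) ≤ 4 * √(n : ℝ) := by
    simp only [hvdef]
    rw [if_neg (by push Not; linarith), hR]
    have := hG0 (2 * n : ℝ)
    simp only [hGdef] at this
    linarith
  have hv2 : 0 ≤ v ((⌊x0⌋ : ℤ) : ℝ) := by
    simp only [hvdef]
    split_ifs
    · exact Real.sqrt_nonneg _
    · rw [hR]
      have := hGle ((⌊x0⌋ : ℤ) : ℝ)
      simp only [hGdef] at this
      linarith [Real.sqrt_nonneg (n : ℝ)]
  rw [hsum, ← hi4]
  rw [hi1, hi2] at key
  have e : ∑ t ∈ Ioc ⌊x0⌋ (2 * n : ℤ), G t - ∫ x in x0..(2 * √(n : ℝ)), √(4 * (n : ℝ) - x ^ 2) =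
      (∑ t ∈ Ioc ⌊x0⌋ (2 * n : ℤ), G t - ((∫ x in ((⌊x0⌋ : ℤ) : ℝ)..x0, G x) +
        (∫ x in x0..(2 * √(n : ℝ)), G x) + 0)) + ∫ x in ((⌊x0⌋ : ℤ) : ℝ)..x0, G x := by
    simp only [hGdef]
    ring
  rw [e]
  refine (abs_add_le _ _).trans ?_
  linarith

/-! ### The sum over `a` -/

private lemma mainTerm_abel (c f : ℕ → ℝ) (B : ℕ) :
    ∑ a ∈ Icc 1 B, c a * f a = (∑ a ∈ Icc 1 B, c a) * f (B + 1) +
      ∑ a ∈ Icc 1 B, (∑ b ∈ Icc 1 a, c b) * (f a - f (a + 1)) := by
  induction B with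
  | zero => simp
  | succ B ih =>
    rw [sum_Icc_succ_top (by omega), sum_Icc_succ_top (by omega), sum_Icc_succ_top (by omega), ih,
      sum_Icc_succ_top (by omega)]
    ring

private lemma mainTerm_log (f : ℕ → ℝ) (hf : ∀ a, 0 ≤ f (a + 1)) (B : ℕ) :
    (1 + log ((B : ℝ) + 1)) * f (B + 1) +
      ∑ a ∈ Icc 1 B, (1 + log ((a : ℝ) + 1)) * (f a - f (a + 1)) ≤
    f 1 + ∑ a ∈ Icc 1 B, f a / a := by
  induction B with
  | zero => simp
  | succ B ih =>
    rw [sum_Icc_succ_top (by omega), sum_Icc_succ_top (by omega)]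
    have h1 : log ((B : ℝ) + 1 + 1) ≤ log ((B : ℝ) + 1) + 1 / ((B : ℝ) + 1) := by
      have hB : (0 : ℝ) < (B : ℝ) + 1 := by positivity
      have e : (B : ℝ) + 1 + 1 = ((B : ℝ) + 1) * (1 + 1 / ((B : ℝ) + 1)) := by
        field_simp
      rw [e, log_mul hB.ne' (by positivity)]
      have := log_le_sub_one_of_pos (x := 1 + 1 / ((B : ℝ) + 1)) (by positivity)
      linarith
    have h2 := mul_le_mul_of_nonneg_right h1 (hf B)
    push_cast
    have e2 : (log ((B : ℝ) + 1) + 1 / ((B : ℝ) + 1)) * f (B + 1) =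
      log ((B : ℝ) + 1) * f (B + 1) + f (B + 1) / ((B : ℝ) + 1) := by ring
    rw [e2] at h2
    linarith

private lemma mainTerm_harm {y : ℝ} (hy : 1 ≤ y) (f : ℕ → ℝ)
    (h1 : ∀ a, 1 ≤ a → f a ≤ 1) (h2 : ∀ a : ℕ, 1 ≤ a → f a ≤ 2 * exp (-π * (a / y))) (B : ℕ) :
    ∑ a ∈ Icc 1 B, f a / a ≤ 3 * (1 + log y) := by
  set Y := ⌈y⌉₊ with hY
  have hY1 : y ≤ Y := Nat.le_ceil y
  have hY2 : (Y : ℝ) < y + 1 := Nat.ceil_lt_add_one (by linarith)
  have hY0 : (0 : ℝ) < Y := by linarith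
  have hYn : Y ≠ 0 := by
    intro h
    rw [h] at hY0
    simp at hY0
  have hlog : 0 ≤ log y := log_nonneg hy
  rw [← sum_filter_add_sum_filter_not (Icc 1 B) (fun a => a ≤ Y)]
  have s1 : ∑ a ∈ (Icc 1 B).filter (fun a => a ≤ Y), f a / a ≤ 1 + log Y := by
    calc ∑ a ∈ (Icc 1 B).filter (fun a => a ≤ Y), f a / a
        ≤ ∑ a ∈ (Icc 1 B).filter (fun a => a ≤ Y), (a : ℝ)⁻¹ := by
          apply sum_le_sum
          intro a ha
          rw [mem_filter, mem_Icc] at ha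
          rw [div_eq_mul_inv]
          have := h1 a ha.1.1
          have h3 : (0 : ℝ) ≤ (a : ℝ)⁻¹ := by positivity
          nlinarith
      _ ≤ ∑ a ∈ Icc 1 Y, (a : ℝ)⁻¹ := by
          apply sum_le_sum_of_subset_of_nonneg
          · intro a ha
            rw [mem_filter, mem_Icc] at ha
            rw [mem_Icc]
            exact ⟨ha.1.1, ha.2⟩
          · intro a _ _
            positivity
      _ ≤ 1 + log Y := by
          have := harmonic_le_one_add_log Y
          rw [harmonic_eq_sum_Icc] at this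
          push_cast at this
          exact this
  have s2 : ∑ a ∈ (Icc 1 B).filter (fun a => ¬ a ≤ Y), f a / a ≤ 1 := by
    calc ∑ a ∈ (Icc 1 B).filter (fun a => ¬ a ≤ Y), f a / a
        ≤ ∑ a ∈ (Icc 1 B).filter (fun a => ¬ a ≤ Y), y * ((a : ℝ) ^ 2)⁻¹ := by
          apply sum_le_sum
          intro a ha
          rw [mem_filter, mem_Icc] at ha
          have ha0 : (0 : ℝ) < a := by exact_mod_cast ha.1.1
          have h3 := h2 a ha.1.1
          have h4 : 2 * exp (-π * (a / y)) ≤ y / a := by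
            have h5 := add_one_le_exp (π * (a / y))
            have h6 : (2 : ℝ) * (a / y) ≤ exp (π * (a / y)) := by
              have : (2 : ℝ) * (a / y) ≤ π * (a / y) :=
                mul_le_mul_of_nonneg_right two_le_pi (by positivity)
              linarith
            have h7 : exp (-π * (a / y)) = (exp (π * (a / y)))⁻¹ := by
              rw [← exp_neg]; ring_nf
            rw [h7]
            have h8 : (exp (π * (a / y)))⁻¹ ≤ (2 * (a / y))⁻¹ :=
              inv_anti₀ (by positivity) h6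
            calc 2 * (exp (π * (a / y)))⁻¹ ≤ 2 * (2 * (a / y))⁻¹ := by linarith
              _ = y / a := by field_simp
          calc f a / a ≤ (y / a) / a := by gcongr; linarith
            _ = y * ((a : ℝ) ^ 2)⁻¹ := by field_simp
      _ ≤ ∑ a ∈ Ioc Y (max B Y), y * ((a : ℝ) ^ 2)⁻¹ := by
          apply sum_le_sum_of_subset_of_nonneg
          · intro a ha
            rw [mem_filter, mem_Icc] at ha
            rw [mem_Ioc]
            exact ⟨by omega, le_max_of_le_left ha.1.2⟩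
          · intro a _ _
            positivity
      _ = y * ∑ a ∈ Ioc Y (max B Y), ((a : ℝ) ^ 2)⁻¹ := by rw [mul_sum]
      _ ≤ y * (Y : ℝ)⁻¹ := by
          have h3 := sum_Ioc_inv_sq_le_sub (α := ℝ) hYn (le_max_right B Y)
          have h4 : (0 : ℝ) ≤ ((max B Y : ℕ) : ℝ)⁻¹ := by positivity
          apply mul_le_mul_of_nonneg_left _ (by linarith)
          linarith
      _ ≤ 1 := by
          rw [← div_eq_mul_inv, div_le_one hY0]
          exact hY1
  have s3 : log Y ≤ 1 + log y := by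
    calc log Y ≤ log (2 * y) := log_le_log hY0 (by linarith)
      _ = log 2 + log y := log_mul (by norm_num) (by linarith)
      _ ≤ 1 + log y := by
        have := log_two_lt_d9
        linarith
  linarith

private lemma mainTerm_om_int {y : ℝ} (hy : 1 ≤ y) (B : ℕ) :
    |∑ a ∈ Icc 1 B, Om (a / y) - y * (π / 6)| ≤ 1 + (2 * y / π) * exp (-π * B / y) := by
  have hy0 : 0 < y := by linarith
  set F : ℝ → ℝ := fun x => Om (x / y) with hF
  have e0 : F = fun x => Om (y⁻¹ * x) := by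
    funext x
    simp only [hF]
    rw [div_eq_inv_mul]
  have hFi : MeasureTheory.IntegrableOn F (Set.Ioi 0) := by
    rw [e0, MeasureTheory.integrableOn_Ioi_comp_mul_left_iff _ _ (inv_pos.mpr hy0), mul_zero]
    exact om_integrable
  have hFv : ∫ x in Set.Ioi (0 : ℝ), F x = y * (π / 6) := by
    rw [e0, MeasureTheory.integral_comp_mul_left_Ioi _ _ (inv_pos.mpr hy0), mul_zero, om_integral,
      inv_inv, smul_eq_mul]
  have hF0 : ∀ x, 0 < x → 0 ≤ F x := fun x hx => om_nonneg (by positivity)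
  have hF1 : ∀ x, 0 < x → F x ≤ 1 := fun x hx => om_le_one (by positivity)
  have hFanti : ∀ x z, 0 < x → x ≤ z → F z ≤ F x := fun x z hx hxz =>
    om_anti (by positivity) (by gcongr)
  have hanti : ∀ b : ℕ, AntitoneOn F (Set.Icc ((1 : ℕ) : ℝ) (b : ℝ)) := by
    intro b x hx z _ hxz
    have : (1 : ℝ) ≤ x := by exact_mod_cast hx.1
    exact hFanti x z (by linarith) hxz
  have hsub : ∀ b : ℝ, 1 ≤ b → MeasureTheory.IntegrableOn F (Set.Ioi b) := fun b hb =>
    hFi.mono_set (Set.Ioi_subset_Ioi (by linarith))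
  -- upper bound
  have up : ∑ a ∈ Icc 1 B, Om (a / y) ≤ y * (π / 6) + 1 := by
    rcases Nat.eq_zero_or_pos B with hB | hB
    · subst hB
      simp only [zero_lt_one, Icc_eq_empty_of_lt, sum_empty]
      positivity
    have e1 : ∑ a ∈ Icc 1 B, Om (a / y) = F 1 + ∑ a ∈ Ico 1 B, F ((a + 1 : ℕ) : ℝ) := by
      rw [← Ico_add_one_right_eq_Icc, sum_eq_sum_Ico_succ_bot (by omega), sum_Ico_add' (fun a : ℕ => F (a : ℝ)) 1 B 1]
      simp [hF]
    have h1 := AntitoneOn.sum_le_integral_Ico (a := 1) (b := B) hB (hanti B)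
    have h2 : ∫ x in ((1 : ℕ) : ℝ)..(B : ℝ), F x ≤ ∫ x in Set.Ioi (0 : ℝ), F x := by
      rw [intervalIntegral.integral_of_le (by exact_mod_cast hB)]
      apply MeasureTheory.setIntegral_mono_set hFi
      · filter_upwards [MeasureTheory.ae_restrict_mem measurableSet_Ioi] with x hx
        exact hF0 x hx
      · apply Filter.Eventually.of_forall
        intro x hx
        have h3 : ((1 : ℕ) : ℝ) < x := hx.1
        have h4 : (0 : ℝ) < x := by
          push_cast at h3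
          linarith
        exact h4
    have h3 := hF1 1 one_pos
    rw [e1, ← hFv]
    linarith
  -- lower bound
  have low : y * (π / 6) - 1 - (2 * y / π) * exp (-π * B / y) ≤ ∑ a ∈ Icc 1 B, Om (a / y) := by
    have h1 := AntitoneOn.integral_le_sum_Ico (a := 1) (b := B + 1) (by omega) (hanti (B + 1))
    have e1 : ∑ a ∈ Icc 1 B, Om (a / y) = ∑ a ∈ Ico 1 (B + 1), F (a : ℝ) := by
      rw [Ico_add_one_right_eq_Icc]
    have hB1 : (1 : ℝ) ≤ ((B + 1 : ℕ) : ℝ) := by
      push_cast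
      linarith [(Nat.cast_nonneg B : (0 : ℝ) ≤ B)]
    have e2 : ∫ x in Set.Ioi (0 : ℝ), F x = (∫ x in Set.Ioc (0 : ℝ) 1, F x) +
        ((∫ x in Set.Ioc (1 : ℝ) ((B + 1 : ℕ) : ℝ), F x) +
          ∫ x in Set.Ioi ((B + 1 : ℕ) : ℝ), F x) := by
      rw [← MeasureTheory.setIntegral_union (Set.Ioc_disjoint_Ioi le_rfl) measurableSet_Ioi
        ((hsub 1 le_rfl).mono_set Set.Ioc_subset_Ioi_self) (hsub _ hB1),
        Set.Ioc_union_Ioi_eq_Ioi hB1, ← MeasureTheory.setIntegral_union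
        (Set.Ioc_disjoint_Ioi le_rfl) measurableSet_Ioi
        (hFi.mono_set Set.Ioc_subset_Ioi_self) (hsub 1 le_rfl),
        Set.Ioc_union_Ioi_eq_Ioi zero_le_one]
    have h2 : ∫ x in Set.Ioc (0 : ℝ) 1, F x ≤ 1 := by
      have h3 : ∫ x in Set.Ioc (0 : ℝ) 1, F x ≤ ∫ x in Set.Ioc (0 : ℝ) 1, (1 : ℝ) := by
        apply MeasureTheory.setIntegral_mono_on (hFi.mono_set Set.Ioc_subset_Ioi_self) (by simp)
          measurableSet_Ioc
        intro x hx
        exact hF1 x hx.1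
      simpa using h3
    have h4 : ∫ x in Set.Ioi ((B + 1 : ℕ) : ℝ), F x ≤ (2 * y / π) * exp (-π * B / y) := by
      have hneg : -(π / y) < 0 := by
        have := div_pos pi_pos hy0
        linarith
      have h5 : ∫ x in Set.Ioi ((B + 1 : ℕ) : ℝ), F x ≤
          ∫ x in Set.Ioi ((B + 1 : ℕ) : ℝ), 2 * exp (-(π / y) * x) := by
        apply MeasureTheory.setIntegral_mono_on (hsub _ hB1)
          ((integrableOn_exp_mul_Ioi hneg _).const_mul 2) measurableSet_Ioi
        intro x hx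
        have hx0 : 0 < x := lt_of_lt_of_le one_pos (hB1.trans (le_of_lt hx))
        have := om_le_exp (u := x / y) (by positivity)
        calc F x ≤ 2 * exp (-π * (x / y)) := this
          _ = 2 * exp (-(π / y) * x) := by congr 2; ring
      rw [MeasureTheory.integral_const_mul, integral_exp_mul_Ioi hneg] at h5
      refine h5.trans ?_
      have h6 : exp (-(π / y) * ((B + 1 : ℕ) : ℝ)) ≤ exp (-π * B / y) := by
        apply exp_le_exp.mpr
        have : -(π / y) * ((B + 1 : ℕ) : ℝ) = -π * B / y - π / y := by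
          push_cast
          ring
        rw [this]
        have := div_pos pi_pos hy0
        linarith
      have e3 : 2 * (-exp (-(π / y) * ((B + 1 : ℕ) : ℝ)) / -(π / y)) =
          (2 * y / π) * exp (-(π / y) * ((B + 1 : ℕ) : ℝ)) := by
        rw [neg_div_neg_eq]
        field_simp
      rw [e3]
      gcongr
    have e4 : ∫ x in ((1 : ℕ) : ℝ)..((B + 1 : ℕ) : ℝ), F x =
        ∫ x in Set.Ioc (1 : ℝ) ((B + 1 : ℕ) : ℝ), F x := by
      rw [intervalIntegral.integral_of_le (by simp)]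
      simp
    rw [e1, ← hFv, e2]
    rw [e4] at h1
    linarith
  rw [abs_le]
  have h7 : 0 ≤ (2 * y / π) * exp (-π * B / y) := by positivity
  constructor <;> linarith

theorem phi_om : ∃ C : ℝ, 0 < C ∧ ∀ y : ℝ, 1 ≤ y → ∀ B : ℕ,
    |∑ a ∈ Icc 1 B, (Nat.totient a : ℝ) / a * Om (a / y) - y / π| ≤
      C * (1 + log y) + C * y * exp (-π * B / y) := by
  obtain ⟨C₀, hC₀, hphi⟩ := phi_sum
  refine ⟨4 * C₀ + 1, by linarith, fun y hy B => ?_⟩
  have hy0 : 0 < y := by linarith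
  have hlog : 0 ≤ log y := log_nonneg hy
  set κ : ℝ := 6 / π ^ 2 with hκ
  set f : ℕ → ℝ := fun a => Om ((a : ℝ) / y) with hf
  have hf0 : ∀ a : ℕ, 1 ≤ a → 0 ≤ f a := by
    intro a ha
    have : (0 : ℝ) < a := by exact_mod_cast ha
    exact om_nonneg (by positivity)
  have hf1 : ∀ a : ℕ, 1 ≤ a → f a ≤ 1 := by
    intro a ha
    have : (0 : ℝ) < a := by exact_mod_cast ha
    exact om_le_one (by positivity)
  have hf2 : ∀ a : ℕ, 1 ≤ a → f a ≤ 2 * exp (-π * (a / y)) := by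
    intro a ha
    have : (0 : ℝ) < a := by exact_mod_cast ha
    exact om_le_exp (by positivity)
  have hfa : ∀ a : ℕ, 1 ≤ a → f (a + 1) ≤ f a := by
    intro a ha
    have : (0 : ℝ) < a := by exact_mod_cast ha
    apply om_anti (by positivity)
    push_cast
    gcongr
    linarith
  -- the error from `φ(a)/a - κ`
  have hE : ∀ N : ℕ, |∑ a ∈ Icc 1 N, ((Nat.totient a : ℝ) / a - κ)| ≤
      C₀ * (1 + log ((N : ℝ) + 1)) := by
    intro N
    rw [sum_sub_distrib]
    simp only [sum_const, Nat.card_Icc, Nat.add_sub_cancel, nsmul_eq_mul]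
    rw [mul_comm (N : ℝ) κ]
    exact hphi N
  have h1 : |∑ a ∈ Icc 1 B, ((Nat.totient a : ℝ) / a - κ) * f a| ≤
      C₀ * (1 + 3 * (1 + log y)) := by
    rw [mainTerm_abel]
    have h2 : |(∑ a ∈ Icc 1 B, ((Nat.totient a : ℝ) / a - κ)) * f (B + 1)| ≤
        C₀ * ((1 + log ((B : ℝ) + 1)) * f (B + 1)) := by
      rw [abs_mul, abs_of_nonneg (hf0 (B + 1) (by omega)), ← mul_assoc]
      exact mul_le_mul_of_nonneg_right (hE B) (hf0 _ (by omega))
    have h3 : |∑ a ∈ Icc 1 B, (∑ b ∈ Icc 1 a, ((Nat.totient b : ℝ) / b - κ)) *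
        (f a - f (a + 1))| ≤
        C₀ * ∑ a ∈ Icc 1 B, (1 + log ((a : ℝ) + 1)) * (f a - f (a + 1)) := by
      rw [mul_sum]
      refine (abs_sum_le_sum_abs _ _).trans (sum_le_sum fun a ha => ?_)
      rw [mem_Icc] at ha
      have h4 : 0 ≤ f a - f (a + 1) := sub_nonneg.mpr (hfa a ha.1)
      rw [abs_mul, abs_of_nonneg h4, ← mul_assoc]
      exact mul_le_mul_of_nonneg_right (hE a) h4
    have h4 := mainTerm_log f (fun a => hf0 (a + 1) (by omega)) B
    have h5 := mainTerm_harm hy f hf1 hf2 B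
    have h6 := hf1 1 le_rfl
    refine (abs_add_le _ _).trans ((add_le_add h2 h3).trans ?_)
    rw [← mul_add]
    apply mul_le_mul_of_nonneg_left _ hC₀.le
    linarith
  have h2 := mainTerm_om_int hy B
  have e1 : ∑ a ∈ Icc 1 B, (Nat.totient a : ℝ) / a * Om (a / y) - y / π =
      ∑ a ∈ Icc 1 B, ((Nat.totient a : ℝ) / a - κ) * f a +
        κ * (∑ a ∈ Icc 1 B, Om (a / y) - y * (π / 6)) := by
    have e2 : y / π = κ * (y * (π / 6)) := by
      rw [hκ]
      have := pi_pos.ne'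
      field_simp
    rw [e2, mul_sub, mul_sum, ← add_sub_assoc, ← sum_add_distrib]
    congr 1
    apply sum_congr rfl
    intro a _
    simp only [hf]
    ring
  have hπ : (3 : ℝ) < π := pi_gt_three
  have hκ0 : 0 ≤ κ := by positivity
  have hκ1 : κ ≤ 1 := by
    rw [hκ, div_le_one (by positivity)]
    nlinarith
  have h3 : κ * (1 + (2 * y / π) * exp (-π * B / y)) ≤ 1 + y * exp (-π * B / y) := by
    have h4 : (2 * y / π) ≤ y := by
      rw [div_le_iff₀ pi_pos]
      nlinarith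
    have h5 : 0 < exp (-π * B / y) := exp_pos _
    have h6 : (2 * y / π) * exp (-π * B / y) ≤ y * exp (-π * B / y) := by gcongr
    calc κ * (1 + (2 * y / π) * exp (-π * B / y)) ≤ 1 * (1 + (2 * y / π) * exp (-π * B / y)) := by
          gcongr
      _ ≤ 1 + y * exp (-π * B / y) := by linarith
  have h7 : 0 ≤ y * exp (-π * B / y) := by positivity
  have h8 : 0 ≤ C₀ * log y := by positivity
  have h9 : 0 ≤ C₀ * (y * exp (-π * B / y)) := by positivity
  rw [e1]
  calc _ ≤ |∑ a ∈ Icc 1 B, ((Nat.totient a : ℝ) / a - κ) * f a| +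
        |κ * (∑ a ∈ Icc 1 B, Om (a / y) - y * (π / 6))| := abs_add_le _ _
    _ ≤ C₀ * (1 + 3 * (1 + log y)) + κ * (1 + (2 * y / π) * exp (-π * B / y)) := by
        refine add_le_add h1 ?_
        rw [abs_mul, abs_of_nonneg hκ0]
        exact mul_le_mul_of_nonneg_left h2 hκ0
    _ ≤ C₀ * (1 + 3 * (1 + log y)) + (1 + y * exp (-π * B / y)) := by linarith
    _ ≤ (4 * C₀ + 1) * (1 + log y) + (4 * C₀ + 1) * y * exp (-π * B / y) := by
        nlinarith

end Pool.Agent.DEU
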