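import Pool.Agent.DEU.Struct
import Pool.Agent.DEU.Nbr
import Pool.Agent.DEU.Norm

/-!
# DEU.Phi: the modular equation on the diagonal modulo `p` (Kronecker's congruence)
-/

namespace Pool.Agent.DEU

open UpperHalfPlane ModularForm MatrixGroups Polynomial Filter Topology

private lemma phi_im_tp (p : ℕ) [Fact p.Prime] (τ : ℍ) : (tp p τ).im = p * τ.im := by
  show ((p : ℂ) * (τ : ℂ)).im = p * (τ : ℂ).im
  rw [Complex.mul_im]
  simp

private lemma phi_im_tk (p : ℕ) [Fact p.Prime] (k : ℕ) (τ : ℍ) : (tk p k τ).im = τ.im / p := by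
  show (((τ : ℂ) + k) / p).im = (τ : ℂ).im / p
  rw [Complex.div_natCast_im]
  simp

private lemma phi_tp (p : ℕ) [hp : Fact p.Prime] : Tendsto (tp p) atImInfty atImInfty := by
  have hp0 : (0 : ℝ) < p := by exact_mod_cast hp.out.pos
  unfold atImInfty
  rw [tendsto_comap_iff]
  have h1 : (UpperHalfPlane.im ∘ tp p) = fun τ : ℍ => (p : ℝ) * τ.im := by
    funext τ
    exact phi_im_tp p τ
  rw [h1]
  exact tendsto_comap.const_mul_atTop hp0

private lemma phi_tk (p : ℕ) [hp : Fact p.Prime] (k : ℕ) :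
    Tendsto (tk p k) atImInfty atImInfty := by
  have hp0 : (0 : ℝ) < p := by exact_mod_cast hp.out.pos
  unfold atImInfty
  rw [tendsto_comap_iff]
  have h1 : (UpperHalfPlane.im ∘ tk p k) = fun τ : ℍ => τ.im / (p : ℝ) := by
    funext τ
    exact phi_im_tk p k τ
  rw [h1]
  exact tendsto_comap.atTop_div_const hp0

private lemma phi_qp (τ : ℍ) : qp τ = Complex.exp (2 * Real.pi * Complex.I * τ) := by
  unfold qp Function.Periodic.qParam
  simp

private lemma phi_qp_tp (p : ℕ) [Fact p.Prime] (τ : ℍ) : qp (tp p τ) = qp τ ^ p := by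
  rw [phi_qp, phi_qp, ← Complex.exp_nat_mul, coe_tp]
  congr 1
  ring

private lemma phi_qp_tk_pow (p : ℕ) [hp : Fact p.Prime] (k : ℕ) (τ : ℍ) :
    qp (tk p k τ) ^ p = qp τ := by
  have hp0 : (p : ℂ) ≠ 0 := by exact_mod_cast hp.out.ne_zero
  rw [phi_qp, phi_qp, ← Complex.exp_nat_mul, coe_tk]
  have h1 : (p : ℂ) * (2 * Real.pi * Complex.I * (((τ : ℂ) + k) / p)) =
      2 * Real.pi * Complex.I * τ + k * (2 * Real.pi * Complex.I) := by
    field_simp
  rw [h1, Complex.exp_add, Complex.exp_nat_mul_two_pi_mul_I, mul_one]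

private lemma phi_prod_zmod {M : Type*} [CommMonoid M] (p : ℕ) [hp : Fact p.Prime] (f : ℕ → M) :
    ∏ k : ZMod p, f k.val = ∏ k ∈ Finset.range p, f k := by
  apply Finset.prod_nbij (fun k : ZMod p => k.val)
  · intro k _
    rw [Finset.mem_range]
    exact ZMod.val_lt k
  · intro a _ b _ hab
    exact ZMod.val_injective p hab
  · intro k hk
    rw [Finset.mem_coe, Finset.mem_range] at hk
    exact ⟨(k : ZMod p), Finset.mem_coe.2 (Finset.mem_univ _), ZMod.val_natCast_of_lt hk⟩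
  · intro k _
    rfl

private lemma phi_prod_qp (p : ℕ) [hp : Fact p.Prime] (hp5 : 5 ≤ p) (τ : ℍ) :
    ∏ k : ZMod p, qp (tk p k.val τ) = qp τ := by
  have hp0 : (p : ℂ) ≠ 0 := by exact_mod_cast hp.out.ne_zero
  rw [phi_prod_zmod p (fun k => qp (tk p k τ))]
  have hodd : Odd p := hp.out.odd_of_ne_two (by omega)
  obtain ⟨m, hm⟩ := hodd
  have h1 : ∀ k, qp (tk p k τ) =
      Complex.exp (2 * Real.pi * Complex.I * (((τ : ℂ) + k) / p)) := fun k => by
    rw [phi_qp, coe_tk]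
  simp_rw [h1]
  rw [← Complex.exp_sum, ← Finset.mul_sum, ← Finset.sum_div, Finset.sum_add_distrib]
  have h2 : ∑ k ∈ Finset.range p, (k : ℂ) = p * m := by
    have h3 := Finset.sum_range_id_mul_two p
    have h4 : ((∑ k ∈ Finset.range p, k : ℕ) : ℂ) * 2 = p * ((p - 1 : ℕ) : ℂ) := by
      exact_mod_cast h3
    have h5 : p - 1 = 2 * m := by omega
    rw [h5] at h4
    push_cast at h4
    linear_combination h4 / 2
  rw [h2]
  simp only [Finset.sum_const, Finset.card_range, nsmul_eq_mul]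
  have h6 : 2 * Real.pi * Complex.I * (((p : ℂ) * τ + p * m) / p) =
      2 * Real.pi * Complex.I * τ + m * (2 * Real.pi * Complex.I) := by
    field_simp
  rw [h6, Complex.exp_add, Complex.exp_nat_mul_two_pi_mul_I, mul_one, phi_qp]

/-- The cube of `e4`. -/
private noncomputable def phiE (τ : ℍ) : ℂ := e4 τ ^ 3

private lemma tendsto_phiE : Tendsto phiE atImInfty (𝓝 1) := by
  have h1 := tendsto_e4.pow 3
  rw [one_pow] at h1
  exact h1

private lemma phi_T (p : ℕ) [hp : Fact p.Prime] (hp5 : 5 ≤ p) :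
    Tendsto (fun τ => (phiE τ * dl (tp p τ) - dl τ * phiE (tp p τ)) / qp τ) atImInfty
      (𝓝 (-1)) := by
  have h1 : Tendsto (fun τ => phiE τ * (dl (tp p τ) / qp (tp p τ)) * qp τ ^ (p - 1) -
      (dl τ / qp τ) * phiE (tp p τ)) atImInfty (𝓝 (1 * 1 * 0 ^ (p - 1) - 1 * 1)) :=
    ((tendsto_phiE.mul (tendsto_dl.comp (phi_tp p))).mul (tendsto_qp.pow (p - 1))).sub
      (tendsto_dl.mul (tendsto_phiE.comp (phi_tp p)))
  have h2 : (1 * 1 * 0 ^ (p - 1) - 1 * 1 : ℂ) = -1 := by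
    rw [zero_pow (by omega)]
    ring
  rw [h2] at h1
  refine h1.congr fun τ => ?_
  have hq := qp_ne τ
  rw [phi_qp_tp]
  have h3 : qp τ ^ p = qp τ ^ (p - 1) * qp τ := by
    rw [← pow_succ]
    congr 1
    omega
  rw [h3]
  field_simp

private lemma phi_N (p : ℕ) [hp : Fact p.Prime] (hp5 : 5 ≤ p) :
    Tendsto (fun τ => (∏ k : ZMod p, (phiE τ * dl (tk p k.val τ) - dl τ * phiE (tk p k.val τ))) /
      qp τ) atImInfty (𝓝 1) := by
  have h1 : ∀ k : ZMod p, Tendsto (fun τ => phiE τ * (dl (tk p k.val τ) / qp (tk p k.val τ)) -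
      (dl τ / qp τ) * qp (tk p k.val τ) ^ (p - 1) * phiE (tk p k.val τ)) atImInfty
      (𝓝 (1 * 1 - 1 * 0 ^ (p - 1) * 1)) := fun k =>
    (tendsto_phiE.mul (tendsto_dl.comp (phi_tk p k.val))).sub
      ((tendsto_dl.mul ((tendsto_qp.comp (phi_tk p k.val)).pow (p - 1))).mul
        (tendsto_phiE.comp (phi_tk p k.val)))
  have h2 := tendsto_finsetProd (Finset.univ : Finset (ZMod p)) (fun k _ => h1 k)
  have h3 : ∏ _k : ZMod p, (1 * 1 - 1 * 0 ^ (p - 1) * 1 : ℂ) = 1 := by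
    rw [zero_pow (by omega)]
    simp
  rw [h3] at h2
  refine h2.congr fun τ => ?_
  have h4 : (∏ k : ZMod p, (phiE τ * dl (tk p k.val τ) - dl τ * phiE (tk p k.val τ))) / qp τ =
      ∏ k : ZMod p, ((phiE τ * dl (tk p k.val τ) - dl τ * phiE (tk p k.val τ)) /
        qp (tk p k.val τ)) := by
    rw [Finset.prod_div_distrib, phi_prod_qp p hp5]
  rw [h4]
  apply Finset.prod_congr rfl
  intro k _
  have hq := qp_ne (tk p k.val τ)
  have hq' := qp_ne τ
  have h5 : qp τ = qp (tk p k.val τ) ^ (p - 1) * qp (tk p k.val τ) := by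
    rw [← pow_succ, ← phi_qp_tk_pow p k.val τ]
    congr 1
    omega
  have h6 : dl τ / qp τ * qp (tk p k.val τ) ^ (p - 1) = dl τ / qp (tk p k.val τ) := by
    rw [div_mul_eq_mul_div, div_eq_div_iff hq' hq]
    conv_rhs => rw [h5]
    ring
  rw [h6]
  field_simp

private lemma phi_W (p : ℕ) (hp5 : 5 ≤ p) :
    Tendsto (fun τ => (phiE τ ^ p * dl τ - dl τ ^ p * phiE τ) / qp τ) atImInfty (𝓝 1) := by
  have h1 : Tendsto (fun τ => phiE τ ^ p * (dl τ / qp τ) -
      (dl τ / qp τ) ^ p * qp τ ^ (p - 1) * phiE τ) atImInfty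
      (𝓝 (1 ^ p * 1 - 1 ^ p * 0 ^ (p - 1) * 1)) :=
    ((tendsto_phiE.pow p).mul tendsto_dl).sub
      (((tendsto_dl.pow p).mul (tendsto_qp.pow (p - 1))).mul tendsto_phiE)
  have h2 : (1 ^ p * 1 - 1 ^ p * 0 ^ (p - 1) * 1 : ℂ) = 1 := by
    rw [zero_pow (by omega)]
    simp
  rw [h2] at h1
  refine h1.congr fun τ => ?_
  have hq := qp_ne τ
  have h3 : qp τ ^ p = qp τ ^ (p - 1) * qp τ := by
    rw [← pow_succ]
    congr 1
    omega
  rw [div_pow, h3]
  have hq2 : qp τ ^ (p - 1) ≠ 0 := pow_ne_zero _ hq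
  field_simp

theorem phi_exists {p : ℕ} [Fact p.Prime] (hp : 5 ≤ p) :
    ∃ P : ℂ[X], (∀ i, P.coeff i ∈ Zp p) ∧ P.natDegree < 2 * p ∧
      ∀ τ : ℍ, (-(X ^ p - X) ^ 2 + C (p : ℂ) * P).eval (jj τ) = 0 →
        ∃ i : Option (ZMod p), e4 τ ^ 3 * nb p 12 dl i τ =
          dl τ * nb p 12 (fun τ => e4 τ ^ 3) i τ := by
  have hpp : p.Prime := Fact.out
  have hp0 : (p : ℂ) ≠ 0 := by exact_mod_cast hpp.ne_zero
  have hEmem : phiE ∈ IR p := by
    have : phiE = e4 ^ 3 := by funext τ; rfl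
    rw [this]
    exact (IR p).pow_mem e4_mem 3
  have hDmem : dl ∈ IR p := dl_mem hp
  have hEw : WM 12 phiE := by
    have h1 := wm_e4.pow 3
    have h2 : ((3 : ℕ) : ℤ) * 4 = 12 := by norm_num
    rw [h2] at h1
    exact h1
  -- the three congruences
  obtain ⟨C1, hC1, hN⟩ := norm_mem (p := p) (by omega) (φ := dl) (ψ := phiE) (x := phiE) (y := dl)
    hDmem hEmem hEmem hDmem
  obtain ⟨-, C2, hC2, hF2⟩ := frob hDmem
  obtain ⟨-, C3, hC3, hF3⟩ := frob hEmem
  set W : ℍ → ℂ := phiE ^ p * dl - dl ^ p * phiE with hW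
  have hWmem : W ∈ IR p :=
    (IR p).sub_mem ((IR p).mul_mem ((IR p).pow_mem hEmem p) hDmem)
      ((IR p).mul_mem ((IR p).pow_mem hDmem p) hEmem)
  set S : ℍ → ℂ := phiE * C2 - dl * C3 with hS
  have hSmem : S ∈ IR p :=
    (IR p).sub_mem ((IR p).mul_mem hEmem hC2) ((IR p).mul_mem hDmem hC3)
  set T : ℍ → ℂ := fun τ => phiE τ * dl (tp p τ) - dl τ * phiE (tp p τ) with hT
  set N : ℍ → ℂ := fun τ => ∏ k : ZMod p,
    (phiE τ * dl (tk p k.val τ) - dl τ * phiE (tk p k.val τ)) with hNdef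
  have hpmem : (fun _ : ℍ => (p : ℂ)) ∈ IR p := by
    apply const_mem_IR
    have h1 := int_mem_Zp (p := p) (p : ℤ)
    rw [Int.cast_natCast] at h1
    exact h1
  set K : ℍ → ℂ := -(W * C1) + S * W + (fun _ => (p : ℂ)) * (S * C1) with hK
  have hKmem : K ∈ IR p :=
    (IR p).add_mem ((IR p).add_mem ((IR p).neg_mem ((IR p).mul_mem hWmem hC1))
      ((IR p).mul_mem hSmem hWmem)) ((IR p).mul_mem hpmem ((IR p).mul_mem hSmem hC1))
  have hTN : ∀ τ, T τ * N τ = -(W τ) ^ 2 + p * K τ := by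
    intro τ
    have e1 : T τ = -(W τ) + p * S τ := by
      rw [hT, hW, hS]
      simp only [Pi.sub_apply, Pi.mul_apply, Pi.pow_apply]
      rw [hF2 τ, hF3 τ]
      ring
    have e2 : N τ = W τ + p * C1 τ := by
      rw [hNdef, hW]
      simp only [Pi.sub_apply, Pi.mul_apply, Pi.pow_apply]
      rw [hN τ]
    rw [e1, e2, hK]
    simp only [Pi.add_apply, Pi.mul_apply, Pi.neg_apply]
    ring
  -- the product over all neighbours
  have hprod : ∀ τ, T τ * N τ = (p : ℂ) ^ (12 * p) * ∏ i : Option (ZMod p),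
      (phiE τ * nb p 12 dl i τ - dl τ * nb p 12 phiE i τ) := by
    intro τ
    rw [Fintype.prod_option]
    have e1 : ∀ k : ZMod p, phiE τ * nb p 12 dl (some k) τ - dl τ * nb p 12 phiE (some k) τ =
        ((p : ℂ) ^ 12)⁻¹ * (phiE τ * dl (tk p k.val τ) - dl τ * phiE (tk p k.val τ)) := by
      intro k
      have e2 : ((p : ℂ) ^ (-12 : ℤ)) = ((p : ℂ) ^ 12)⁻¹ := by
        rw [zpow_neg]
        norm_cast
      simp only [nb]
      rw [e2]
      ring
    simp_rw [e1]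
    rw [Finset.prod_mul_distrib, Finset.prod_const, Finset.card_univ, ZMod.card]
    have e3 : (((p : ℂ) ^ 12)⁻¹) ^ p = ((p : ℂ) ^ (12 * p))⁻¹ := by
      rw [inv_pow, ← pow_mul]
    rw [e3]
    have e4 : (p : ℂ) ^ (12 * p) ≠ 0 := pow_ne_zero _ hp0
    show T τ * N τ = (p : ℂ) ^ (12 * p) * (T τ * (((p : ℂ) ^ (12 * p))⁻¹ * N τ))
    field_simp
  -- modularity of `K`
  have hwTN : WM (12 * ((2 * p + 2 : ℕ) : ℤ)) (fun τ => T τ * N τ) := by
    have h1 := wm_prod (p := p) (φ := dl) (ψ := phiE) (x := phiE) (y := dl) wm_dl hEw hEw wm_dl rfl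
    have h2 := h1.const_mul ((p : ℂ) ^ (12 * p))
    have h3 : ((12 : ℤ) + 12) * (p + 1) = 12 * ((2 * p + 2 : ℕ) : ℤ) := by push_cast; ring
    rw [h3] at h2
    have h4 : (fun τ => T τ * N τ) = fun τ => (p : ℂ) ^ (12 * p) * ∏ i : Option (ZMod p),
      (phiE τ * nb p 12 dl i τ - dl τ * nb p 12 phiE i τ) := by
      funext τ
      exact hprod τ
    rw [h4]
    exact h2
  have hwW : WM (12 * ((p + 1 : ℕ) : ℤ)) W := by
    have h1 : WM ((p : ℤ) * 12 + 12) (phiE ^ p * dl) := (hEw.pow p).mul wm_dl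
    have h2 : WM ((p : ℤ) * 12 + 12) (dl ^ p * phiE) := (wm_dl.pow p).mul hEw
    have h3 := h1.add (h2.const_mul (-1))
    have h4 : (p : ℤ) * 12 + 12 = 12 * ((p + 1 : ℕ) : ℤ) := by push_cast; ring
    rw [h4] at h3
    have h5 : W = phiE ^ p * dl + fun τ => (-1) * (dl ^ p * phiE) τ := by
      rw [hW]
      funext τ
      simp only [Pi.sub_apply, Pi.add_apply]
      ring
    rw [h5]
    exact h3
  have hwK : WM (12 * ((2 * p + 2 : ℕ) : ℤ)) K := by
    have h1 := hwW.mul hwW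
    have h2 : 12 * ((p + 1 : ℕ) : ℤ) + 12 * ((p + 1 : ℕ) : ℤ) = 12 * ((2 * p + 2 : ℕ) : ℤ) := by
      push_cast; ring
    rw [h2] at h1
    have h3 := (hwTN.add h1).const_mul ((p : ℂ)⁻¹)
    have h4 : K = fun τ => (p : ℂ)⁻¹ * ((fun τ => T τ * N τ) + W * W) τ := by
      funext τ
      simp only [Pi.add_apply, Pi.mul_apply]
      rw [hTN τ]
      field_simp
      ring
    rw [h4]
    exact h3
  -- the order of `K` at infinity
  obtain ⟨FK, hFK, hFKi⟩ := hKmem
  have hKlim : Tendsto (fun τ => K τ / qp τ ^ 2) atImInfty (𝓝 0) := by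
    have h1 : Tendsto (fun τ => (p : ℂ)⁻¹ * ((T τ / qp τ) * (N τ / qp τ) + (W τ / qp τ) ^ 2))
        atImInfty (𝓝 ((p : ℂ)⁻¹ * (-1 * 1 + 1 ^ 2))) :=
      (((phi_T p hp).mul (phi_N p hp)).add ((phi_W p hp).pow 2)).const_mul _
    have h2 : (p : ℂ)⁻¹ * (-1 * 1 + 1 ^ 2) = 0 := by ring
    rw [h2] at h1
    refine h1.congr fun τ => ?_
    have hq := qp_ne τ
    have e1 : (T τ / qp τ) * (N τ / qp τ) = (T τ * N τ) / qp τ ^ 2 := by
      rw [div_mul_div_comm, sq]
    rw [e1, hTN τ]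
    field_simp
    ring
  have hord := rep_order hFK hKlim
  have hvan : ∀ i < 3, FK.coeff i = 0 := by
    intro i hi
    by_cases hi2 : i < 2
    · exact hord.1 i hi2
    · have : i = 2 := by omega
      subst this
      exact hord.2
  obtain ⟨c, hc, hcv, hcs⟩ := weight_twelve hp hFK hFKi hwK
  have hc0 := hcv 3 hvan
  refine ⟨∑ i ∈ Finset.range (2 * p + 2 + 1), C (c i) * X ^ (2 * p + 2 - i), ?_, ?_, ?_⟩
  · intro j
    rw [Polynomial.finsetSum_coeff]
    apply Subring.sum_mem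
    intro i _
    rw [Polynomial.coeff_C_mul, Polynomial.coeff_X_pow]
    split_ifs
    · rw [mul_one]; exact hc i
    · rw [mul_zero]; exact (Zp p).zero_mem
  · apply lt_of_le_of_lt (b := 2 * p - 1) _ (by omega)
    apply Polynomial.natDegree_sum_le_of_forall_le
    intro i hi
    by_cases hi3 : i < 3
    · rw [hc0 i hi3]
      simp
    · apply le_trans (Polynomial.natDegree_C_mul_X_pow_le _ _)
      omega
  · intro τ hτ
    have hd : dl τ ≠ 0 := dl_ne τ
    have hKj : K τ = dl τ ^ (2 * p + 2) *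
        (∑ i ∈ Finset.range (2 * p + 2 + 1), C (c i) * X ^ (2 * p + 2 - i)).eval (jj τ) := by
      rw [hcs τ, Polynomial.eval_finsetSum, Finset.mul_sum]
      apply Finset.sum_congr rfl
      intro i hi
      rw [Finset.mem_range] at hi
      simp only [Polynomial.eval_mul, Polynomial.eval_C, Polynomial.eval_pow, Polynomial.eval_X]
      have e1 : dl τ ^ (2 * p + 2) = dl τ ^ (2 * p + 2 - i) * dl τ ^ i := by
        rw [← pow_add]
        congr 1
        omega
      unfold jj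
      rw [div_pow, e1, pow_mul]
      have : dl τ ^ (2 * p + 2 - i) ≠ 0 := pow_ne_zero _ hd
      field_simp
    have hWj : W τ = dl τ ^ (p + 1) * (jj τ ^ p - jj τ) := by
      rw [hW]
      simp only [Pi.sub_apply, Pi.mul_apply, Pi.pow_apply]
      have e0 : phiE τ = jj τ * dl τ := by
        unfold phiE jj
        field_simp
      rw [e0]
      ring
    have hzero : T τ * N τ = 0 := by
      rw [hTN τ, hWj, hKj]
      simp only [Polynomial.eval_add, Polynomial.eval_neg, Polynomial.eval_pow,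
        Polynomial.eval_sub, Polynomial.eval_X, Polynomial.eval_mul, Polynomial.eval_C] at hτ
      have e1 : dl τ ^ (2 * p + 2) = (dl τ ^ (p + 1)) ^ 2 := by
        rw [← pow_mul]
        congr 1
        ring
      rw [e1]
      have e2 : -(dl τ ^ (p + 1) * (jj τ ^ p - jj τ)) ^ 2 + (p : ℂ) * ((dl τ ^ (p + 1)) ^ 2 *
          (∑ i ∈ Finset.range (2 * p + 2 + 1), C (c i) * X ^ (2 * p + 2 - i)).eval (jj τ)) =
          (dl τ ^ (p + 1)) ^ 2 * (-(jj τ ^ p - jj τ) ^ 2 + (p : ℂ) *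
          (∑ i ∈ Finset.range (2 * p + 2 + 1), C (c i) * X ^ (2 * p + 2 - i)).eval (jj τ)) := by
        ring
      rw [e2, hτ, mul_zero]
    rw [hprod τ] at hzero
    rcases mul_eq_zero.1 hzero with h1 | h1
    · exact absurd h1 (pow_ne_zero _ hp0)
    · obtain ⟨i, _, hi⟩ := Finset.prod_eq_zero_iff.1 h1
      refine ⟨i, ?_⟩
      exact sub_eq_zero.1 hi

end Pool.Agent.DEU
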