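import Pool.Agent.DEU.Defs

/-!
# DEU.Rep: q-expansions of level one forms
-/

namespace Pool.Agent.DEU

open UpperHalfPlane ModularForm MatrixGroups Filter Topology

theorem rep_surj {z : ℂ} (hz : ‖z‖ < 1) (hz0 : z ≠ 0) : ∃ τ : ℍ, qp τ = z := by
  have h1 := Function.Periodic.im_invQParam_pos_of_norm_lt_one one_pos hz hz0
  exact ⟨⟨_, h1⟩, Function.Periodic.qParam_right_inv one_ne_zero hz0⟩

/-- The function on the disc. -/
noncomputable def rep_fun (F : PowerSeries ℂ) (z : ℂ) : ℂ := ∑' m, F.coeff m * z ^ m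

theorem rep_fun_qp {F : PowerSeries ℂ} {A : ℍ → ℂ} (h : IsRep F A) (τ : ℍ) :
    rep_fun F (qp τ) = A τ := (h τ).tsum_eq

theorem rep_summable {F : PowerSeries ℂ} {A : ℍ → ℂ} (h : IsRep F A) {z : ℂ} (hz : ‖z‖ < 1) :
    Summable (fun m => F.coeff m * z ^ m) := by
  rcases eq_or_ne z 0 with rfl | hz0
  · apply summable_of_ne_finset_zero (s := {0})
    intro m hm
    rw [Finset.mem_singleton] at hm
    rw [zero_pow hm, mul_zero]
  · obtain ⟨τ, rfl⟩ := rep_surj hz hz0
    exact (h τ).summable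

theorem rep_fps {F : PowerSeries ℂ} {A : ℍ → ℂ} (h : IsRep F A) :
    HasFPowerSeriesOnBall (rep_fun F) (.ofScalars ℂ (fun m => F.coeff m)) 0 1 := by
  constructor
  · refine le_of_forall_lt_imp_le_of_dense fun r hr ↦ ?_
    lift r to NNReal using hr.ne_top
    apply FormalMultilinearSeries.le_radius_of_summable
    have h1 : ‖((r : ℝ) : ℂ)‖ < 1 := by
      rw [Complex.norm_real, Real.norm_eq_abs, NNReal.abs_eq]
      exact_mod_cast hr
    have h2 := (rep_summable h h1).norm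
    refine h2.congr ?_
    intro m
    rw [norm_mul, norm_pow, Complex.norm_real, Real.norm_eq_abs, NNReal.abs_eq,
      FormalMultilinearSeries.ofScalars_norm]
  · simp
  · intro y hy
    rw [← ENNReal.coe_one, Metric.eball_coe, NNReal.coe_one, mem_ball_zero_iff] at hy
    have h1 := (rep_summable h hy).hasSum
    rw [zero_add]
    convert! h1 using 2 with m
    rw [FormalMultilinearSeries.ofScalars_apply_eq]
    simp [mul_comm]

theorem rep_fun_zero (F : PowerSeries ℂ) : rep_fun F 0 = F.coeff 0 := by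
  unfold rep_fun
  rw [tsum_eq_single 0]
  · simp
  · intro m hm
    rw [zero_pow hm, mul_zero]

/-- Uniqueness of `q`-expansions. -/
theorem rep_unique {F G : PowerSeries ℂ} {A : ℍ → ℂ} (h : IsRep F A) (h' : IsRep G A) :
    F = G := by
  have h1 := (rep_fps h).hasFPowerSeriesAt
  have h2 := (rep_fps h').hasFPowerSeriesAt
  have h3 : ∀ᶠ z in 𝓝[≠] (0 : ℂ), rep_fun F z = rep_fun G z := by
    have : Metric.ball (0 : ℂ) 1 ∈ 𝓝[≠] (0 : ℂ) :=
      mem_nhdsWithin_of_mem_nhds (Metric.ball_mem_nhds _ one_pos)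
    filter_upwards [this, self_mem_nhdsWithin] with z hz hz0
    obtain ⟨τ, rfl⟩ := rep_surj (mem_ball_zero_iff.1 hz) hz0
    rw [rep_fun_qp h, rep_fun_qp h']
  have h4 : rep_fun F =ᶠ[𝓝 0] rep_fun G :=
    (h1.continuousAt.eventuallyEq_nhds_iff_eventuallyEq_nhdsNE h2.continuousAt).mp h3
  have h5 := h1.eq_formalMultilinearSeries_of_eventually h2 h4
  ext m
  have h6 := congrArg (fun p => FormalMultilinearSeries.coeff p m) h5
  simpa [FormalMultilinearSeries.coeff_ofScalars] using h6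


theorem rep_mdiff' {F : PowerSeries ℂ} {A : ℍ → ℂ} (hF : IsRep F A) :
    DifferentiableOn ℂ (A ∘ ofComplex) {z : ℂ | 0 < z.im} := by
  have h1 : DifferentiableOn ℂ (rep_fun F) (Metric.ball 0 1) := by
    have := (rep_fps hF).differentiableOn
    rwa [← ENNReal.coe_one, Metric.eball_coe, NNReal.coe_one] at this
  have h2 : DifferentiableOn ℂ (fun z : ℂ => rep_fun F (Function.Periodic.qParam 1 z))
      {z : ℂ | 0 < z.im} := by
    intro z hz
    have hz1 : Function.Periodic.qParam 1 z ∈ Metric.ball (0 : ℂ) 1 := by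
      rw [mem_ball_zero_iff]
      exact Function.Periodic.norm_qParam_lt_one one_pos hz
    have h3 := (h1 _ hz1).differentiableAt (Metric.isOpen_ball.mem_nhds hz1)
    exact (h3.comp z (Function.Periodic.differentiable_qParam z)).differentiableWithinAt
  refine h2.congr ?_
  intro z hz
  rw [Function.comp_apply, ofComplex_apply_of_im_pos hz, ← rep_fun_qp hF]
  rfl

/-- Functions in `IR p` are holomorphic, hence continuous. -/
theorem IsRep.mdiff {F : PowerSeries ℂ} {A : ℍ → ℂ} (hF : IsRep F A) :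
    DifferentiableOn ℂ (A ∘ ofComplex) {z : ℂ | 0 < z.im} := rep_mdiff' hF

theorem rep_slash_iff {w : ℤ} {A : ℍ → ℂ} :
    WM w A ↔ ∀ γ : SL(2, ℤ), A ∣[w] γ = A := by
  constructor
  · intro h
    apply SlashInvariantForm.slash_action_generators_SL2Z
    · ext τ
      rw [SL_slash_apply, ModularGroup.denom_S, h.2 τ, mul_comm, ← mul_assoc,
        ← zpow_add₀ τ.ne_zero]
      simp
    · ext τ
      rw [SL_slash_apply, modular_T_smul, h.1 τ, ModularGroup.denom_apply]
      simp [ModularGroup.T]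
  · intro h
    constructor
    · intro τ
      have h1 := congrFun (h ModularGroup.T) τ
      rw [SL_slash_apply, modular_T_smul, ModularGroup.denom_apply] at h1
      simpa [ModularGroup.T] using h1
    · intro τ
      have h1 := congrFun (h ModularGroup.S) τ
      rw [SL_slash_apply, ModularGroup.denom_S] at h1
      rw [← h1, mul_comm, mul_assoc, ← zpow_add₀ τ.ne_zero]
      simp

/-- Weak modularity on the generators gives the transformation law for all of `SL₂(ℤ)`. -/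
theorem WM.smul {w : ℤ} {A : ℍ → ℂ} (h : WM w A) (γ : SL(2, ℤ)) (τ : ℍ) :
    A (γ • τ) = (((γ 1 0 : ℤ) : ℂ) * τ + ((γ 1 1 : ℤ) : ℂ)) ^ w * A τ := by
  have h1 := congrFun (rep_slash_iff.1 h γ) τ
  rw [SL_slash_apply] at h1
  have h2 : denom γ τ = ((γ 1 0 : ℤ) : ℂ) * τ + ((γ 1 1 : ℤ) : ℂ) :=
    ModularGroup.denom_apply γ τ
  have h3 : denom γ τ ≠ 0 := denom_ne_zero _ _
  rw [h2] at h1 h3
  rw [← h1, mul_comm, mul_assoc, ← zpow_add₀ h3]
  simp

theorem wm_form {w : ℤ} (f : ModularForm 𝒮ℒ w) : WM w (fun τ => f τ) := by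
  rw [rep_slash_iff]
  intro γ
  exact f.slash_action_eq' _ ⟨γ, rfl⟩

/-- A function with a `q`-expansion which is weakly modular is a modular form. -/
theorem mkForm {F : PowerSeries ℂ} {A : ℍ → ℂ} {w : ℤ} (hF : IsRep F A) (hA : WM w A) :
    ∃ f : ModularForm 𝒮ℒ w, (∀ τ, f τ = A τ) ∧ qExpansion 1 f = F := by
  have hsl := rep_slash_iff.1 hA
  have hb : IsBoundedAtImInfty A :=
    isBoundedAtImInfty_of_hasSum_qExpansion (h := 1) (c := fun m => F.coeff m) one_pos
      (fun τ => hF τ)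
  let f : ModularForm 𝒮ℒ w :=
    { toFun := A
      slash_action_eq' := by
        rintro _ ⟨γ, rfl⟩
        exact hsl γ
      holo' := by
        rw [UpperHalfPlane.mdifferentiable_iff]
        exact hF.mdiff
      bdd_at_cusps' := by
        intro c hc
        rw [Subgroup.IsArithmetic.isCusp_iff_isCusp_SL2Z] at hc
        rw [OnePoint.isBoundedAt_iff_forall_SL2Z hc]
        intro γ _
        rw [hsl γ]
        exact hb }
  refine ⟨f, fun τ => rfl, ?_⟩
  ext m
  symm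
  exact ModularFormClass.qExpansion_coeff_unique (f := f) (h := 1) (c := fun m => F.coeff m)
    one_pos one_mem_strictPeriods_SL (fun τ => hF τ) m

/-- Conversely. -/
theorem rep_form {w : ℤ} (f : ModularForm 𝒮ℒ w) : IsRep (qExpansion 1 f) (fun τ => f τ) :=
  fun τ => ModularForm.hasSum_qExpansion f one_pos one_mem_strictPeriods_SL τ

theorem WM.mul {v w : ℤ} {A B : ℍ → ℂ} (h : WM v A) (h' : WM w B) : WM (v + w) (A * B) := by
  refine ⟨fun τ => ?_, fun τ => ?_⟩
  · rw [Pi.mul_apply, Pi.mul_apply, h.1, h'.1]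
  · rw [Pi.mul_apply, Pi.mul_apply, h.2, h'.2, zpow_add₀ τ.ne_zero]
    ring

theorem WM.pow {w : ℤ} {A : ℍ → ℂ} (h : WM w A) (n : ℕ) : WM (n * w) (A ^ n) := by
  refine ⟨fun τ => ?_, fun τ => ?_⟩
  · rw [Pi.pow_apply, Pi.pow_apply, h.1]
  · rw [Pi.pow_apply, Pi.pow_apply, h.2, mul_pow, mul_comm (n : ℤ) w, zpow_mul, zpow_natCast]

theorem WM.add {w : ℤ} {A B : ℍ → ℂ} (h : WM w A) (h' : WM w B) : WM w (A + B) := by
  refine ⟨fun τ => ?_, fun τ => ?_⟩
  · rw [Pi.add_apply, Pi.add_apply, h.1, h'.1]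
  · rw [Pi.add_apply, Pi.add_apply, h.2, h'.2]
    ring

theorem WM.const_mul {w : ℤ} {A : ℍ → ℂ} (h : WM w A) (c : ℂ) : WM w (fun τ => c * A τ) := by
  refine ⟨fun τ => ?_, fun τ => ?_⟩
  · simp only [h.1]
  · simp only [h.2]
    ring

theorem wm_e4 : WM 4 e4 := wm_form E₄

theorem wm_e6 : WM 6 e6 := wm_form E₆

theorem wm_dl : WM 12 dl := by
  rw [rep_slash_iff]
  intro γ
  exact CuspForm.discriminant.slash_action_eq' _ ⟨γ, rfl⟩

theorem dl_ne (τ : ℍ) : dl τ ≠ 0 := ModularForm.discriminant_ne_zero τ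

theorem dl_eq (τ : ℍ) : 1728 * dl τ = e4 τ ^ 3 - e6 τ ^ 2 := by
  unfold dl e4 e6
  rw [ModularForm.discriminant_eq_E₄_cube_sub_E₆_sq]
  ring

theorem rep_e4 : ∃ F : PowerSeries ℂ, IsRep F e4 ∧ F.coeff 0 = 1 ∧
    ∀ m, ∃ n : ℤ, F.coeff m = n := by
  refine ⟨qExpansion 1 E₄, rep_form E₄,
    EisensteinSeries.E_qExpansion_coeff_zero _ ⟨2, rfl⟩, fun m => ?_⟩
  rw [EisensteinSeries.E_qExpansion_coeff _ ⟨2, rfl⟩]
  split_ifs
  · exact ⟨1, by simp⟩
  · refine ⟨240 * (ArithmeticFunction.sigma 3 m : ℕ), ?_⟩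
    norm_num [show bernoulli 4 = -1 / 30 by decide +kernel]

theorem rep_e6 : ∃ F : PowerSeries ℂ, IsRep F e6 ∧ F.coeff 0 = 1 ∧
    ∀ m, ∃ n : ℤ, F.coeff m = n := by
  refine ⟨qExpansion 1 E₆, rep_form E₆,
    EisensteinSeries.E_qExpansion_coeff_zero _ ⟨3, rfl⟩, fun m => ?_⟩
  rw [EisensteinSeries.E_qExpansion_coeff _ ⟨3, rfl⟩]
  split_ifs
  · exact ⟨1, by simp⟩
  · refine ⟨-504 * (ArithmeticFunction.sigma 5 m : ℕ), ?_⟩
    norm_num [show bernoulli 6 = 1 / 42 by decide +kernel]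

theorem int_mem_Zp {p : ℕ} [Fact p.Prime] (n : ℤ) : (n : ℂ) ∈ Zp p :=
  intCast_mem (Zp p) n

theorem inv_mem_Zp {p : ℕ} [Fact p.Prime] {n : ℤ} (hn : ¬ (p : ℤ) ∣ n) : (n : ℂ)⁻¹ ∈ Zp p := by
  refine ⟨1, n, hn, ?_⟩
  have : (n : ℂ) ≠ 0 := by
    intro h
    apply hn
    have : n = 0 := by exact_mod_cast h
    rw [this]
    exact dvd_zero _
  rw [inv_mul_cancel₀ this]
  simp

theorem const_mem_IR {p : ℕ} [Fact p.Prime] {c : ℂ} (hc : c ∈ Zp p) : (fun _ => c) ∈ IR p := by
  refine ⟨PowerSeries.C c, isRep_const c, fun m => ?_⟩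
  rw [PowerSeries.coeff_C]
  split_ifs
  · exact hc
  · exact (Zp p).zero_mem

theorem e4_mem {p : ℕ} [Fact p.Prime] : e4 ∈ IR p := by
  obtain ⟨F, h1, -, h3⟩ := rep_e4
  refine ⟨F, h1, fun m => ?_⟩
  obtain ⟨n, hn⟩ := h3 m
  rw [hn]
  exact int_mem_Zp n

theorem e6_mem {p : ℕ} [Fact p.Prime] : e6 ∈ IR p := by
  obtain ⟨F, h1, -, h3⟩ := rep_e6
  refine ⟨F, h1, fun m => ?_⟩
  obtain ⟨n, hn⟩ := h3 m
  rw [hn]
  exact int_mem_Zp n

theorem dl_mem {p : ℕ} [Fact p.Prime] (hp : 5 ≤ p) : dl ∈ IR p := by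
  have h1 : dl = (fun _ => ((1728 : ℤ) : ℂ)⁻¹) * (e4 ^ 3 - e6 ^ 2) := by
    ext τ
    have h := dl_eq τ
    rw [Pi.mul_apply, Pi.sub_apply, Pi.pow_apply, Pi.pow_apply, ← h]
    push_cast
    ring
  rw [h1]
  refine (IR p).mul_mem (const_mem_IR (inv_mem_Zp ?_))
    ((IR p).sub_mem ((IR p).pow_mem e4_mem 3) ((IR p).pow_mem e6_mem 2))
  intro h
  have hp' : p.Prime := Fact.out
  have h2 : p ∣ 1728 := by exact_mod_cast h
  have h3 : p ∣ 2 ^ 6 * 3 ^ 3 := h2
  rcases (Nat.Prime.dvd_mul hp').1 h3 with h4 | h4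
  · have := hp'.dvd_of_dvd_pow h4
    have := Nat.le_of_dvd (by norm_num) this
    omega
  · have := hp'.dvd_of_dvd_pow h4
    have := Nat.le_of_dvd (by norm_num) this
    omega

theorem tendsto_qp : Tendsto qp atImInfty (𝓝 0) :=
  qParam_tendsto_atImInfty one_pos

theorem rep_tendsto_zero {F : PowerSeries ℂ} {A : ℍ → ℂ} (hF : IsRep F A) :
    Tendsto A atImInfty (𝓝 (F.coeff 0)) := by
  have h1 := (rep_fps hF).hasFPowerSeriesAt.continuousAt.tendsto.comp tendsto_qp
  rw [rep_fun_zero] at h1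
  refine h1.congr ?_
  intro τ
  exact rep_fun_qp hF τ

/-- Conversely, `A / q^m` tends to the `m`-th coefficient if the coefficients below vanish. -/
theorem rep_tendsto {F : PowerSeries ℂ} {A : ℍ → ℂ} (hF : IsRep F A) {m : ℕ}
    (h : ∀ i < m, F.coeff i = 0) :
    Tendsto (fun τ => A τ / qp τ ^ m) atImInfty (𝓝 (F.coeff m)) := by
  have h1 : IsRep (PowerSeries.mk fun j => F.coeff (j + m)) (fun τ => A τ / qp τ ^ m) := by
    intro τ
    have h2 := hF τ
    rw [← hasSum_nat_add_iff' m] at h2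
    have h3 : ∑ i ∈ Finset.range m, F.coeff i * qp τ ^ i = 0 := by
      apply Finset.sum_eq_zero
      intro i hi
      rw [h i (Finset.mem_range.1 hi), zero_mul]
    rw [h3, sub_zero] at h2
    have h4 := h2.div_const (qp τ ^ m)
    refine h4.congr_fun ?_
    intro j
    rw [PowerSeries.coeff_mk, pow_add]
    field_simp [qp_ne τ]
  have h5 := rep_tendsto_zero h1
  rwa [PowerSeries.coeff_mk, zero_add] at h5

/-- If `A` has a `q`-expansion and `A / q^m` tends to `L` at `i∞`, then the coefficients below `m`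
vanish and the `m`-th is `L`. -/
theorem rep_order {F : PowerSeries ℂ} {A : ℍ → ℂ} (hF : IsRep F A) {m : ℕ} {L : ℂ}
    (h : Tendsto (fun τ => A τ / qp τ ^ m) atImInfty (𝓝 L)) :
    (∀ i < m, F.coeff i = 0) ∧ F.coeff m = L := by
  have key : ∀ i < m, F.coeff i = 0 := by
    intro i
    induction i using Nat.strong_induction_on with
    | _ i ih =>
      intro hi
      have h1 := rep_tendsto hF (m := i) (fun j hj => ih j hj (hj.trans hi))
      have h2 : Tendsto (fun τ => A τ / qp τ ^ m * qp τ ^ (m - i)) atImInfty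
          (𝓝 (L * 0 ^ (m - i))) := h.mul (tendsto_qp.pow (m - i))
      rw [zero_pow (by omega), mul_zero] at h2
      refine tendsto_nhds_unique h1 (h2.congr ?_)
      intro τ
      have hq := qp_ne τ
      have : qp τ ^ m = qp τ ^ i * qp τ ^ (m - i) := by
        rw [← pow_add]; congr 1; omega
      rw [this]
      field_simp
  exact ⟨key, tendsto_nhds_unique (rep_tendsto hF key) h⟩

theorem tendsto_e4 : Tendsto e4 atImInfty (𝓝 1) := by
  obtain ⟨F, h1, h2, -⟩ := rep_e4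
  rw [← h2]
  exact rep_tendsto_zero h1

theorem tendsto_e6 : Tendsto e6 atImInfty (𝓝 1) := by
  obtain ⟨F, h1, h2, -⟩ := rep_e6
  rw [← h2]
  exact rep_tendsto_zero h1

theorem tendsto_dl : Tendsto (fun τ => dl τ / qp τ) atImInfty (𝓝 1) := by
  have h1 : IsRep (qExpansion 1 ModularForm.discriminant) dl := fun τ =>
    ModularForm.hasSum_qExpansion CuspForm.discriminant one_pos one_mem_strictPeriods_SL τ
  have h2 := rep_tendsto h1 (m := 1) (by
    intro i hi
    obtain rfl : i = 0 := by omega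
    exact CuspFormClass.qExpansion_coeff_zero CuspForm.discriminant one_pos
      one_mem_strictPeriods_SL)
  rw [ModularForm.discriminant_qExpansion_coeff_one] at h2
  simpa using h2

end Pool.Agent.DEU
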