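import Pool.Agent.DEU.Rep

/-!
# DEU.Struct: integral modular forms of level one
-/

namespace Pool.Agent.DEU

open UpperHalfPlane ModularForm MatrixGroups Filter Topology

private lemma struct_isRep_pow {F : PowerSeries ℂ} {A : ℍ → ℂ} (h : IsRep F A) (n : ℕ) :
    IsRep (F ^ n) (A ^ n) := by
  induction n with
  | zero => simpa using isRep_one
  | succ n ih => rw [pow_succ, pow_succ]; exact ih.mul h

private lemma struct_int_mul {p : ℕ} [Fact p.Prime] {F G : PowerSeries ℂ}
    (hF : ∀ m, F.coeff m ∈ Zp p) (hG : ∀ m, G.coeff m ∈ Zp p) (m : ℕ) :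
    (F * G).coeff m ∈ Zp p := by
  rw [PowerSeries.coeff_mul]
  exact Subring.sum_mem _ fun x _ => (Zp p).mul_mem (hF _) (hG _)

private lemma struct_int_pow {p : ℕ} [Fact p.Prime] {F : PowerSeries ℂ}
    (hF : ∀ m, F.coeff m ∈ Zp p) (n : ℕ) : ∀ m, (F ^ n).coeff m ∈ Zp p := by
  induction n with
  | zero =>
    intro m
    rw [pow_zero, PowerSeries.coeff_one]
    split_ifs
    · exact (Zp p).one_mem
    · exact (Zp p).zero_mem
  | succ n ih => intro m; rw [pow_succ]; exact struct_int_mul ih hF m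

/-- Division by a power series `q + ...` with integral coefficients. -/
private lemma struct_div {p : ℕ} [Fact p.Prime] (I : AddSubgroup ℂ)
    (hI : ∀ r ∈ Zp p, ∀ x ∈ I, r * x ∈ I) {D G : PowerSeries ℂ}
    (hD : ∀ m, D.coeff m ∈ Zp p) (hD0 : D.coeff 0 = 0) (hD1 : D.coeff 1 = 1) {N : ℕ}
    (h : ∀ m < N, (D * G).coeff m ∈ I) : ∀ m, m + 1 < N → G.coeff m ∈ I := by
  intro m
  induction m using Nat.strong_induction_on with
  | _ m ih =>
    intro hm
    have h1 := h (m + 1) hm
    rw [PowerSeries.coeff_mul, Finset.Nat.sum_antidiagonal_succ] at h1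
    rw [hD0, zero_mul, zero_add] at h1
    cases m with
    | zero =>
      rw [Finset.Nat.antidiagonal_zero, Finset.sum_singleton] at h1
      simp only [zero_add] at h1
      rw [hD1, one_mul] at h1
      exact h1
    | succ m =>
      rw [Finset.Nat.sum_antidiagonal_succ] at h1
      have h2 : ∑ x ∈ Finset.HasAntidiagonal.antidiagonal m,
          D.coeff (x.1 + 1 + 1) * G.coeff x.2 ∈ I := by
        apply AddSubgroup.sum_mem
        intro x hx
        apply hI _ (hD _)
        apply ih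
        · have := Finset.HasAntidiagonal.mem_antidiagonal.mp hx
          omega
        · have := Finset.HasAntidiagonal.mem_antidiagonal.mp hx
          omega
      have h3 := I.sub_mem h1 h2
      simp only [zero_add, add_sub_cancel_right] at h3
      rw [hD1, one_mul] at h3
      exact h3

private lemma struct_vanish {F : PowerSeries ℂ} {A : ℍ → ℂ} {w : ℤ} (hF : IsRep F A)
    (hw : WM w A) (h : w < 0 ∨ Odd w ∨ w = 2) : A = 0 := by
  obtain ⟨f, hf, -⟩ := mkForm hF hw
  have hf0 : f = 0 := by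
    rcases h with h | h | h
    · exact rank_zero_iff_forall_zero.mp (levelOne_neg_weight_rank_zero h) f
    · exact levelOne_odd_weight_eq_zero h f
    · subst h
      exact rank_zero_iff_forall_zero.mp levelOne_weight_two_rank_zero f
  funext τ
  rw [← hf τ, hf0]
  rfl

private lemma struct_weight {w : ℤ} (h : ¬ (w < 0 ∨ Odd w ∨ w = 2)) :
    ∃ a b : ℕ, w = 4 * a + 6 * b := by
  push Not at h
  obtain ⟨h0, h1, h2⟩ := h
  rw [Int.not_odd_iff_even] at h1
  obtain ⟨k, hk⟩ := h1
  by_cases hk2 : k % 2 = 0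
  · exact ⟨(k / 2).toNat, 0, by omega⟩
  · exact ⟨((k - 3) / 2).toNat, 1, by omega⟩

private lemma struct_decomp {p : ℕ} [Fact p.Prime] (hp : 5 ≤ p) {F : PowerSeries ℂ} {A : ℍ → ℂ}
    {w : ℤ} (hF : IsRep F A) (hint : ∀ m, F.coeff m ∈ Zp p) (hw : WM w A) (a b : ℕ)
    (hab : w = 4 * a + 6 * b) :
    ∃ (G : PowerSeries ℂ) (A' : ℍ → ℂ), IsRep G A' ∧ (∀ m, G.coeff m ∈ Zp p) ∧
      WM (w - 12) A' ∧ (∀ τ, A τ = F.coeff 0 * (e4 τ ^ a * e6 τ ^ b) + dl τ * A' τ) ∧
      ∀ (I : AddSubgroup ℂ), (∀ r ∈ Zp p, ∀ x ∈ I, r * x ∈ I) → ∀ N,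
        (∀ m < N, F.coeff m ∈ I) → ∀ m, m + 1 < N → G.coeff m ∈ I := by
  obtain ⟨F4, h4, h40, h4i⟩ := rep_e4
  obtain ⟨F6, h6, h60, h6i⟩ := rep_e6
  obtain ⟨D, hD, hDi⟩ := dl_mem hp
  have hDord := rep_order hD (m := 1) (L := 1) (by simpa using tendsto_dl)
  have hD0 : D.coeff 0 = 0 := hDord.1 0 one_pos
  have hD1 : D.coeff 1 = 1 := hDord.2
  have h4m : ∀ m, F4.coeff m ∈ Zp p := fun m => by
    obtain ⟨n, hn⟩ := h4i m
    rw [hn]
    exact int_mem_Zp n
  have h6m : ∀ m, F6.coeff m ∈ Zp p := fun m => by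
    obtain ⟨n, hn⟩ := h6i m
    rw [hn]
    exact int_mem_Zp n
  have hKi : ∀ m, (F4 ^ a * F6 ^ b).coeff m ∈ Zp p :=
    struct_int_mul (struct_int_pow h4m a) (struct_int_pow h6m b)
  have hK0 : (F4 ^ a * F6 ^ b).coeff 0 = 1 := by
    rw [PowerSeries.coeff_zero_eq_constantCoeff] at h40 h60 ⊢
    rw [map_mul, map_pow, map_pow]
    rw [h40, h60]
    simp
  set B : ℍ → ℂ := A + (fun _ => -F.coeff 0) * (e4 ^ a * e6 ^ b) with hB
  set H : PowerSeries ℂ := F + PowerSeries.C (-F.coeff 0) * (F4 ^ a * F6 ^ b) with hH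
  have hHB : IsRep H B :=
    hF.add ((isRep_const _).mul ((struct_isRep_pow h4 a).mul (struct_isRep_pow h6 b)))
  have hwB : WM w B := by
    apply hw.add
    have h1 : WM ((a : ℤ) * 4 + (b : ℤ) * 6) (e4 ^ a * e6 ^ b) := (wm_e4.pow a).mul (wm_e6.pow b)
    have h2 := h1.const_mul (-F.coeff 0)
    have h3 : (a : ℤ) * 4 + (b : ℤ) * 6 = w := by rw [hab]; ring
    rw [h3] at h2
    exact h2
  have hHc : ∀ m, H.coeff m = F.coeff m + (-F.coeff 0) * (F4 ^ a * F6 ^ b).coeff m := by
    intro m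
    rw [hH, map_add, PowerSeries.coeff_C_mul]
  obtain ⟨f, hf, hfq⟩ := mkForm hHB hwB
  have hcusp : (qExpansion 1 f).coeff 0 = 0 := by
    rw [hfq, hHc, hK0]
    ring
  set A' : ModularForm 𝒮ℒ (w - 12) := CuspForm.discriminantEquiv (toCuspForm f hcusp) with hA'
  have hmul : ∀ τ, dl τ * A' τ = B τ := by
    intro τ
    have h1 := discriminant_mul_discriminantEquiv_apply (toCuspForm f hcusp) τ
    rw [← hf τ]
    exact h1
  have hG := rep_form A'
  have hDG : D * qExpansion 1 A' = H := by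
    apply rep_unique (hD.mul hG)
    have : dl * (fun τ => A' τ) = B := by
      funext τ
      exact hmul τ
    rw [this]
    exact hHB
  have hgen : ∀ (I : AddSubgroup ℂ), (∀ r ∈ Zp p, ∀ x ∈ I, r * x ∈ I) → ∀ N,
        (∀ m < N, F.coeff m ∈ I) → ∀ m, m + 1 < N → (qExpansion 1 A').coeff m ∈ I := by
    intro I hI N hN m hm
    apply struct_div I hI hDi hD0 hD1 (N := N) _ m hm
    intro k hk
    rw [hDG, hHc]
    apply I.add_mem (hN k hk)
    rw [mul_comm]
    apply hI _ (hKi k)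
    exact I.neg_mem (hN 0 (by omega))
  refine ⟨qExpansion 1 A', fun τ => A' τ, hG, ?_, wm_form A', ?_, hgen⟩
  · intro m
    exact hgen (Zp p).toAddSubgroup (fun r hr x hx => (Zp p).mul_mem hr hx) (m + 2)
      (fun k _ => hint k) m (by omega)
  · intro τ
    show A τ = F.coeff 0 * (e4 τ ^ a * e6 τ ^ b) + dl τ * A' τ
    rw [hmul τ, hB]
    simp only [Pi.add_apply, Pi.mul_apply, Pi.pow_apply]
    ring

/-- Values of integral forms at points of a valuation ring. -/
theorem eval_mem {p : ℕ} [Fact p.Prime] (hp : 5 ≤ p) (V : ValuationSubring ℂ)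
    (hV : ∀ z ∈ Zp p, z ∈ V) {c : ℂ} (hc : c ≠ 0) {τ : ℍ} (h4 : c ^ 4 * e4 τ ∈ V)
    (h6 : c ^ 6 * e6 τ ∈ V) {A : ℍ → ℂ} {w : ℤ} (hA : A ∈ IR p) (hw : WM w A) :
    c ^ w * A τ ∈ V := by
  have hdl : c ^ 12 * dl τ ∈ V := by
    have h1 : c ^ 12 * dl τ = (1728 : ℂ)⁻¹ * ((c ^ 4 * e4 τ) ^ 3 - (c ^ 6 * e6 τ) ^ 2) := by
      have h2 := dl_eq τ
      have h3 : (c ^ 4 * e4 τ) ^ 3 - (c ^ 6 * e6 τ) ^ 2 = c ^ 12 * (e4 τ ^ 3 - e6 τ ^ 2) := by ring
      rw [h3, ← h2]
      field_simp
    rw [h1]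
    apply V.mul_mem
    · apply hV
      have h2 : (1728 : ℂ)⁻¹ = (((1728 : ℤ) : ℂ))⁻¹ := by norm_num
      rw [h2]
      apply inv_mem_Zp
      intro hdvd
      have hpp : p.Prime := Fact.out
      have h3 : p ∣ 1728 := by exact_mod_cast hdvd
      have h4 : (1728 : ℕ) = 2 ^ 6 * 3 ^ 3 := by norm_num
      rw [h4, hpp.dvd_mul] at h3
      rcases h3 with h3 | h3
      · have := Nat.le_of_dvd (by norm_num) (hpp.dvd_of_dvd_pow h3)
        omega
      · have := Nat.le_of_dvd (by norm_num) (hpp.dvd_of_dvd_pow h3)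
        omega
    · exact sub_mem (pow_mem h4 3) (pow_mem h6 2)
  have key : ∀ (N : ℕ) (w : ℤ) (A : ℍ → ℂ), w < 12 * N → A ∈ IR p → WM w A →
      c ^ w * A τ ∈ V := by
    intro N
    induction N with
    | zero =>
      intro w A hwN hA hw
      obtain ⟨F, hF, hi⟩ := hA
      rw [struct_vanish hF hw (Or.inl (by simpa using hwN))]
      simp
    | succ N ih =>
      intro w A hwN hA hw
      obtain ⟨F, hF, hi⟩ := hA
      by_cases hcase : w < 0 ∨ Odd w ∨ w = 2
      · rw [struct_vanish hF hw hcase]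
        simp
      · obtain ⟨a, b, hab⟩ := struct_weight hcase
        obtain ⟨G, A', hG, hGi, hwA', hdec, -⟩ := struct_decomp hp hF hi hw a b hab
        have h1 := ih (w - 12) A' (by push_cast at hwN; omega) ⟨G, hG, hGi⟩ hwA'
        have h2 : c ^ w * A τ = F.coeff 0 * ((c ^ 4 * e4 τ) ^ a * (c ^ 6 * e6 τ) ^ b) +
            (c ^ 12 * dl τ) * (c ^ (w - 12) * A' τ) := by
          rw [hdec τ]
          have e1 : c ^ w = (c ^ 4) ^ a * (c ^ 6) ^ b := by
            rw [hab, zpow_add₀ hc, ← pow_mul, ← pow_mul]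
            norm_cast
          have e2 : c ^ w = c ^ 12 * c ^ (w - 12) := by
            have : w = 12 + (w - 12) := by ring
            conv_lhs => rw [this]
            rw [zpow_add₀ hc]
            norm_cast
          have e3 : c ^ w * (F.coeff 0 * (e4 τ ^ a * e6 τ ^ b) + dl τ * A' τ) =
              c ^ w * (F.coeff 0 * (e4 τ ^ a * e6 τ ^ b)) + c ^ w * (dl τ * A' τ) := by ring
          rw [e3]
          conv_lhs =>
            congr
            · rw [e1]
            · rw [e2]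
          ring
        rw [h2]
        apply V.add_mem
        · exact V.mul_mem _ _ (hV _ (hi 0)) (V.mul_mem _ _ (pow_mem h4 a) (pow_mem h6 b))
        · exact V.mul_mem _ _ hdl h1
  apply key (w.toNat + 1) w A _ hA hw
  push_cast
  omega

/-- The Sturm bound modulo `p`. -/
theorem sturm_mod {p : ℕ} [Fact p.Prime] (hp : 5 ≤ p) {F : PowerSeries ℂ} {A : ℍ → ℂ} {w : ℤ}
    {N : ℕ} (hF : IsRep F A) (hint : ∀ m, F.coeff m ∈ Zp p) (hw : WM w A) (hN : w < 12 * N)
    (h : ∀ m < N, ∃ c ∈ Zp p, F.coeff m = p * c) : ∃ C ∈ IR p, ∀ τ, A τ = p * C τ := by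
  induction N generalizing F A w with
  | zero =>
    refine ⟨0, (IR p).zero_mem, fun τ => ?_⟩
    rw [struct_vanish hF hw (Or.inl (by simpa using hN))]
    simp
  | succ N ih =>
    by_cases hcase : w < 0 ∨ Odd w ∨ w = 2
    · refine ⟨0, (IR p).zero_mem, fun τ => ?_⟩
      rw [struct_vanish hF hw hcase]
      simp
    · obtain ⟨a, b, hab⟩ := struct_weight hcase
      obtain ⟨G, A', hG, hGi, hwA', hdec, hgen⟩ := struct_decomp hp hF hint hw a b hab
      set I : AddSubgroup ℂ :=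
        (Zp p).toAddSubgroup.map (AddMonoidHom.mulLeft (p : ℂ)) with hI
      have hmemI : ∀ x, x ∈ I ↔ ∃ c ∈ Zp p, x = p * c := by
        intro x
        rw [hI, AddSubgroup.mem_map]
        constructor
        · rintro ⟨c, hc, hcx⟩
          exact ⟨c, hc, hcx.symm⟩
        · rintro ⟨c, hc, hcx⟩
          exact ⟨c, hc, hcx.symm⟩
      have hGI : ∀ m < N, ∃ c ∈ Zp p, G.coeff m = p * c := by
        intro m hm
        rw [← hmemI]
        apply hgen I _ (N + 1) _ m (by omega)
        · intro r hr x hx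
          rw [hmemI] at hx ⊢
          obtain ⟨c, hc, rfl⟩ := hx
          exact ⟨r * c, (Zp p).mul_mem hr hc, by ring⟩
        · intro k hk
          rw [hmemI]
          exact h k hk
      obtain ⟨C', hC', hC'eq⟩ := ih hG hGi hwA' (by push_cast at hN; omega) hGI
      obtain ⟨c0, hc0, hc0eq⟩ := h 0 (by omega)
      refine ⟨(fun _ => c0) * (e4 ^ a * e6 ^ b) + dl * C', ?_, ?_⟩
      · apply (IR p).add_mem
        · exact (IR p).mul_mem (const_mem_IR hc0)
            ((IR p).mul_mem ((IR p).pow_mem e4_mem a) ((IR p).pow_mem e6_mem b))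
        · exact (IR p).mul_mem (dl_mem hp) hC'
      · intro τ
        rw [hdec τ, hc0eq, hC'eq τ]
        simp only [Pi.add_apply, Pi.mul_apply, Pi.pow_apply]
        ring

/-- Integral forms of weight divisible by twelve are polynomials in `E₄³` and `Δ`. -/
theorem weight_twelve {p : ℕ} [Fact p.Prime] (hp : 5 ≤ p) {F : PowerSeries ℂ} {A : ℍ → ℂ} {m : ℕ}
    (hF : IsRep F A) (hint : ∀ i, F.coeff i ∈ Zp p) (hw : WM (12 * m) A) :
    ∃ c : ℕ → ℂ, (∀ i, c i ∈ Zp p) ∧ (∀ n, (∀ i < n, F.coeff i = 0) → ∀ i < n, c i = 0) ∧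
      ∀ τ, A τ = ∑ i ∈ Finset.range (m + 1), c i * e4 τ ^ (3 * (m - i)) * dl τ ^ i := by
  induction m generalizing F A with
  | zero =>
    obtain ⟨G, A', hG, hGi, hwA', hdec, hgen⟩ := struct_decomp hp hF hint hw 0 0 (by simp)
    have hA' : A' = 0 := struct_vanish hG hwA' (Or.inl (by simp))
    refine ⟨fun i => if i = 0 then F.coeff 0 else 0, ?_, ?_, ?_⟩
    · intro i
      dsimp only
      split_ifs
      · exact hint 0
      · exact (Zp p).zero_mem
    · intro n hn i hi
      dsimp only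
      split_ifs with hi0
      · subst hi0
        exact hn 0 hi
      · rfl
    · intro τ
      rw [hdec τ, hA']
      simp
  | succ m ih =>
    obtain ⟨G, A', hG, hGi, hwA', hdec, hgen⟩ :=
      struct_decomp hp hF hint hw (3 * (m + 1)) 0 (by push_cast; ring)
    have hw' : WM (12 * (m : ℤ)) A' := by
      have : 12 * ((m + 1 : ℕ) : ℤ) - 12 = 12 * (m : ℤ) := by push_cast; ring
      rw [this] at hwA'
      exact hwA'
    obtain ⟨c', hc', hvan, hsum⟩ := ih hG hGi hw'
    refine ⟨fun i => match i with | 0 => F.coeff 0 | i + 1 => c' i, ?_, ?_, ?_⟩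
    · intro i
      cases i with
      | zero => exact hint 0
      | succ i => exact hc' i
    · intro n hn i hi
      have hGv : ∀ k, k + 1 < n → G.coeff k = 0 := by
        intro k hk
        have := hgen ⊥ (fun r _ x hx => by
          rw [AddSubgroup.mem_bot] at hx ⊢
          rw [hx, mul_zero]) n (fun j hj => by rw [AddSubgroup.mem_bot]; exact hn j hj) k hk
        rwa [AddSubgroup.mem_bot] at this
      cases i with
      | zero => exact hn 0 hi
      | succ i => exact hvan (n - 1) (fun k hk => hGv k (by omega)) i (by omega)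
    · intro τ
      rw [hdec τ, hsum τ, Finset.sum_range_succ' _ (m + 1)]
      simp only [Nat.sub_zero, pow_zero, mul_one]
      rw [add_comm, Finset.mul_sum]
      congr 1
      apply Finset.sum_congr rfl
      intro i hi
      have h1 : m + 1 - (i + 1) = m - i := by omega
      rw [h1]
      ring

end Pool.Agent.DEU
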