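import Pool.Agent.DEU.Omega
import Pool.Agent.DEU.SqRoots
import Pool.Agent.DEU.Orbit

/-!
# DEU.Tail: truncation of the majorant, and the case `t = 0`
-/

namespace Pool.Agent.DEU

open Finset Real

private theorem tail_rho_aux (a : ℕ) (t n : ℤ) (s : ℕ) (hs : s < a)
    (h : (a : ℤ) ∣ (s : ℤ) ^ 2 - t * s + n) :
    (a : ℤ) ∣ (((a - s) % a : ℕ) : ℤ) ^ 2 - (-t) * (((a - s) % a : ℕ) : ℤ) + n := by
  have h1 : (((a - s) % a : ℕ) : ℤ) = (a : ℤ) - s - a * (((a - s) / a : ℕ) : ℤ) := by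
    have h2 := Nat.mod_add_div (a - s) a
    have h3 : (((a - s) % a : ℕ) : ℤ) + a * (((a - s) / a : ℕ) : ℤ) = ((a - s : ℕ) : ℤ) := by
      exact_mod_cast h2
    have h4 : ((a - s : ℕ) : ℤ) = (a : ℤ) - s := by
      rw [Nat.cast_sub hs.le]
    linarith
  obtain ⟨k, hk⟩ := h
  rw [h1]
  set q : ℤ := (((a - s) / a : ℕ) : ℤ) with hq
  refine ⟨k + (1 - q) * ((a : ℤ) * (1 - q) - 2 * s + t), ?_⟩
  linear_combination hk

private theorem tail_rho_inv (a s : ℕ) (hs : s < a) : (a - (a - s) % a) % a = s := by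
  rcases Nat.eq_zero_or_pos s with h0 | h0
  · subst h0; simp
  · rw [Nat.mod_eq_of_lt (by omega : a - s < a)]
    have : a - (a - s) = s := by omega
    rw [this, Nat.mod_eq_of_lt hs]

theorem rho_neg (a : ℕ) (t n : ℤ) : rho a (-t) n = rho a t n := by
  unfold rho
  refine card_nbij' (fun s => (a - s) % a) (fun s => (a - s) % a) ?_ ?_ ?_ ?_
  · intro s hs
    simp only [coe_filter, mem_range, Set.mem_ofPred_eq] at hs ⊢
    refine ⟨Nat.mod_lt _ (by omega), ?_⟩
    have := tail_rho_aux a (-t) n s hs.1 hs.2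
    rwa [neg_neg] at this
  · intro s hs
    simp only [coe_filter, mem_range, Set.mem_ofPred_eq] at hs ⊢
    exact ⟨Nat.mod_lt _ (by omega), tail_rho_aux a t n s hs.1 hs.2⟩
  · intro s hs
    simp only [coe_filter, mem_range, Set.mem_ofPred_eq] at hs
    exact tail_rho_inv a s hs.1
  · intro s hs
    simp only [coe_filter, mem_range, Set.mem_ofPred_eq] at hs
    exact tail_rho_inv a s hs.1

private theorem tail_rho_le (a : ℕ) (t n : ℤ) : (rho a t n : ℝ) ≤ a := by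
  unfold rho
  have := card_filter_le (range a) (fun s : ℕ => (a : ℤ) ∣ (s : ℤ) ^ 2 - t * s + n)
  rw [card_range] at this
  exact_mod_cast this

/-- the decay beyond `X^(1/2+ε)` -/
private theorem tail_decay : ∀ ε : ℝ, 0 < ε → ∃ C : ℝ, 0 < C ∧ ∀ X a : ℝ, 1 ≤ X →
    X ^ (1 / 2 + ε) ≤ a → a ^ 3 * exp (-(a / √X)) ≤ C := by
  intro ε hε
  obtain ⟨k, hk⟩ := exists_nat_ge (3 * (1 + 2 * ε) / (2 * ε))
  refine ⟨k.factorial, by exact_mod_cast k.factorial_pos, ?_⟩
  intro X a hX ha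
  have hX0 : 0 < X := by linarith
  have ha1 : 1 ≤ a := le_trans (one_le_rpow hX (by positivity)) ha
  have ha0 : 0 < a := by linarith
  have hs : 0 < √X := sqrt_pos.2 hX0
  -- exp lower bound
  have h1 : (a / √X) ^ k / k.factorial ≤ exp (a / √X) :=
    pow_div_factorial_le_exp _ (by positivity) k
  have hf : (0 : ℝ) < k.factorial := by exact_mod_cast k.factorial_pos
  -- sqrt X ≤ a^(1/(1+2ε))
  have h2 : √X ≤ a ^ (1 / (1 + 2 * ε)) := by
    have h3 : (X ^ (1 / 2 + ε)) ^ (1 / (1 + 2 * ε)) ≤ a ^ (1 / (1 + 2 * ε)) :=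
      rpow_le_rpow (by positivity) ha (by positivity)
    rw [← rpow_mul hX0.le] at h3
    have h4 : (1 / 2 + ε) * (1 / (1 + 2 * ε)) = 1 / 2 := by
      field_simp
    rw [h4, ← sqrt_eq_rpow] at h3
    exact h3
  have h5 : √X ^ k ≤ a ^ ((k : ℝ) / (1 + 2 * ε)) := by
    calc √X ^ k ≤ (a ^ (1 / (1 + 2 * ε))) ^ k := by gcongr
      _ = a ^ ((k : ℝ) / (1 + 2 * ε)) := by
        rw [← rpow_natCast, ← rpow_mul ha0.le]
        congr 1
        ring
  have h6 : a ^ 3 * √X ^ k ≤ a ^ k := by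
    have e1 : (a : ℝ) ^ 3 = a ^ (3 : ℝ) := by
      rw [← rpow_natCast]; norm_num
    have e2 : (a : ℝ) ^ k = a ^ (k : ℝ) := by
      rw [← rpow_natCast]
    calc a ^ 3 * √X ^ k ≤ a ^ (3 : ℝ) * a ^ ((k : ℝ) / (1 + 2 * ε)) := by
          rw [e1]; gcongr
      _ = a ^ (3 + (k : ℝ) / (1 + 2 * ε)) := by rw [← rpow_add ha0]
      _ ≤ a ^ (k : ℝ) := by
          apply rpow_le_rpow_of_exponent_le ha1
          rw [div_le_iff₀ (by positivity)] at hk
          have h7 : (k : ℝ) / (1 + 2 * ε) = k - k * (2 * ε) / (1 + 2 * ε) := by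
            field_simp
            ring
          rw [h7]
          have h8 : 3 ≤ k * (2 * ε) / (1 + 2 * ε) := by
            rw [le_div_iff₀ (by positivity)]; exact hk
          linarith
      _ = a ^ k := by rw [e2]
  rw [exp_neg]
  have h9 : (a / √X) ^ k / k.factorial = a ^ k / (√X ^ k * k.factorial) := by
    rw [div_pow, div_div]
  rw [h9] at h1
  have hpos : 0 < √X ^ k * k.factorial := by positivity
  rw [← div_eq_mul_inv, div_le_iff₀ (exp_pos _)]
  have h10 : a ^ k ≤ exp (a / √X) * (√X ^ k * k.factorial) := by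
    rwa [div_le_iff₀ hpos] at h1
  have hsk : 0 < √X ^ k := by positivity
  have h11 : a ^ 3 * √X ^ k ≤ (k.factorial * exp (a / √X)) * √X ^ k := by
    calc a ^ 3 * √X ^ k ≤ a ^ k := h6
      _ ≤ exp (a / √X) * (√X ^ k * k.factorial) := h10
      _ = (k.factorial * exp (a / √X)) * √X ^ k := by ring
  exact le_of_mul_le_mul_right h11 hsk

private theorem tail_summable : Summable fun a : ℕ => 1 / ((a : ℝ) + 1) ^ 2 := by
  have h := (summable_nat_add_iff 1).2 (Real.summable_one_div_nat_pow.2 (by norm_num : 1 < 2))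
  refine h.congr ?_
  intro a
  push_cast
  rfl

theorem sw_split : ∀ ε : ℝ, 0 < ε → ∃ C : ℝ, 0 < C ∧ ∀ X B n t : ℕ, X < n → n ≤ 2 * X → B ≤ X →
    (X : ℝ) ^ (1 / 2 + ε) ≤ B + 1 → t ^ 2 < 4 * n →
    |Sw t n - ∑ a ∈ Icc 1 B, (rho a t n : ℝ) * Om (a / √(4 * (n : ℝ) - (t : ℝ) ^ 2))| ≤ C := by
  intro ε hε
  obtain ⟨C, hC, hdec⟩ := tail_decay ε hε
  have hS := tail_summable
  have hS0 : 0 < ∑' a : ℕ, 1 / ((a : ℝ) + 1) ^ 2 :=
    hS.tsum_pos (fun a => by positivity) 0 (by norm_num)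
  refine ⟨2 * C * ∑' a : ℕ, 1 / ((a : ℝ) + 1) ^ 2, by positivity, ?_⟩
  intro X B n t hXn hnX hBX hXB ht
  have hX1 : 1 ≤ X := by omega
  have hX1' : (1 : ℝ) ≤ X := by exact_mod_cast hX1
  have htn : (t : ℝ) ^ 2 < 4 * n := by exact_mod_cast ht
  set D : ℝ := √(4 * (n : ℝ) - (t : ℝ) ^ 2) with hD
  have hD0 : 0 < D := sqrt_pos.2 (by linarith)
  -- D ≤ 3 √X
  have hD3 : D ≤ 3 * √X := by
    rw [hD]
    have e : 3 * √(X : ℝ) = √(9 * X) := by
      rw [sqrt_mul (by norm_num), show (9 : ℝ) = 3 ^ 2 by norm_num, sqrt_sq (by norm_num)]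
    rw [e]
    apply sqrt_le_sqrt
    have h1 : (n : ℝ) ≤ 2 * X := by exact_mod_cast hnX
    have h2 : (0 : ℝ) ≤ (t : ℝ) ^ 2 := by positivity
    linarith
  set f : ℕ → ℝ := fun a => (rho (a + 1) t n : ℝ) * Om (((a : ℝ) + 1) / D) with hf
  have hfs : Summable f := by
    have := orbit_summable (t := (t : ℤ)) (n := (n : ℤ)) (by exact_mod_cast ht)
    simpa [hf, hD] using this
  have hSw : Sw t n = ∑' a, f a := rfl
  have hfin : ∑ a ∈ Icc 1 B, (rho a t n : ℝ) * Om (a / D) = ∑ a ∈ range B, f a := by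
    rw [range_eq_Ico]
    have h1 := sum_Ico_add' (fun a : ℕ => (rho a t n : ℝ) * Om ((a : ℝ) / D)) 0 B 1
    rw [zero_add] at h1
    have h2 : Ico 1 (B + 1) = Icc 1 B := by
      ext x; simp only [mem_Ico, mem_Icc]; omega
    rw [h2] at h1
    rw [← h1]
    apply sum_congr rfl
    intro a _
    simp only [hf]
    push_cast
    rfl
  have hdiff : Sw t n - ∑ a ∈ Icc 1 B, (rho a t n : ℝ) * Om (a / D) = ∑' a, f (a + B) := by
    rw [hSw, hfin, ← hfs.sum_add_tsum_nat_add B]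
    ring
  rw [hdiff]
  have hfn : ∀ a, 0 ≤ f a := by
    intro a
    simp only [hf]
    have := om_nonneg (u := ((a : ℝ) + 1) / D) (by positivity)
    positivity
  have hb : ∀ a, f (a + B) ≤ 2 * C * (1 / ((a : ℝ) + 1) ^ 2) := by
    intro a
    set A : ℝ := ((a + B : ℕ) : ℝ) + 1 with hA
    have hA1 : (a : ℝ) + 1 ≤ A := by
      rw [hA]; push_cast
      have : (0 : ℝ) ≤ B := by positivity
      linarith
    have ha0 : (0 : ℝ) < (a : ℝ) + 1 := by positivity
    have hA0 : 0 < A := by linarith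
    have hAX : (X : ℝ) ^ (1 / 2 + ε) ≤ A := by
      refine hXB.trans ?_
      rw [hA]; push_cast
      have : (0 : ℝ) ≤ a := by positivity
      linarith
    have h1 := hdec X A hX1' hAX
    have h2 : Om (A / D) ≤ 2 * exp (-π * (A / D)) := om_le_exp (by positivity)
    have h3 : exp (-π * (A / D)) ≤ exp (-(A / √X)) := by
      apply exp_le_exp.2
      have hs : 0 < √(X : ℝ) := sqrt_pos.2 (by linarith)
      have h4 : A / (3 * √X) ≤ A / D := by gcongr
      have h5 : A / (3 * √X) = (A / √X) / 3 := by field_simp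
      have h6 : 0 ≤ A / √X := by positivity
      have h7 := pi_gt_three
      rw [h5] at h4
      nlinarith
    have h8 : (rho (a + B + 1) t n : ℝ) ≤ A := by
      have := tail_rho_le (a + B + 1) t n
      rw [hA]
      exact_mod_cast this
    have h9 : f (a + B) ≤ A * (2 * exp (-(A / √X))) := by
      simp only [hf]
      have h10 : 0 ≤ Om (A / D) := om_nonneg (by positivity)
      calc (rho (a + B + 1) t n : ℝ) * Om ((((a + B : ℕ) : ℝ) + 1) / D)
          ≤ A * Om (A / D) := by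
            apply mul_le_mul_of_nonneg_right h8 h10
        _ ≤ A * (2 * exp (-(A / √X))) := by
            apply mul_le_mul_of_nonneg_left _ hA0.le
            linarith
    refine h9.trans ?_
    have h11 : A * (2 * exp (-(A / √X))) = 2 * (A ^ 3 * exp (-(A / √X))) * (1 / A ^ 2) := by
      field_simp
    rw [h11]
    have h12 : 1 / A ^ 2 ≤ 1 / ((a : ℝ) + 1) ^ 2 := by
      apply one_div_le_one_div_of_le (by positivity)
      gcongr
    calc 2 * (A ^ 3 * exp (-(A / √X))) * (1 / A ^ 2) ≤ 2 * C * (1 / A ^ 2) := by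
          apply mul_le_mul_of_nonneg_right _ (by positivity)
          linarith
      _ ≤ 2 * C * (1 / ((a : ℝ) + 1) ^ 2) := by
          apply mul_le_mul_of_nonneg_left h12 (by positivity)
  have hfs' : Summable fun a => f (a + B) := (summable_nat_add_iff B).2 hfs
  rw [abs_of_nonneg (tsum_nonneg fun a => hfn _), ← tsum_mul_left]
  exact hfs'.tsum_le_tsum hb (hS.mul_left _)

theorem sw_zero : ∀ ε : ℝ, 0 < ε → ∃ C : ℝ, 0 < C ∧ ∀ p : ℕ, p.Prime →
    Sw 0 p ≤ C * (p : ℝ) ^ (1 / 2 + ε) := by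
  intro ε hε
  set δ : ℝ := min (ε / 2) (1 / 2) with hδ
  have hδ0 : 0 < δ := lt_min (by linarith) (by norm_num)
  have hδε : δ ≤ ε / 2 := min_le_left _ _
  have hδ2 : δ ≤ 1 / 2 := min_le_right _ _
  obtain ⟨C₁, hC₁, h1⟩ := sw_split δ hδ0
  obtain ⟨C₂, hC₂, h2⟩ := rho_zero_le δ hδ0
  refine ⟨C₁ + C₂, by positivity, ?_⟩
  intro p hp
  have hp2 := hp.two_le
  set X : ℕ := p - 1 with hX
  have hX1 : 1 ≤ X := by omega
  have hX1' : (1 : ℝ) ≤ X := by exact_mod_cast hX1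
  set B : ℕ := ⌊(X : ℝ) ^ (1 / 2 + δ)⌋₊ with hB
  have hBr : (B : ℝ) ≤ (X : ℝ) ^ (1 / 2 + δ) := Nat.floor_le (by positivity)
  have hBX : B ≤ X := by
    have : (B : ℝ) ≤ X := by
      refine hBr.trans ?_
      calc (X : ℝ) ^ (1 / 2 + δ) ≤ (X : ℝ) ^ (1 : ℝ) :=
            rpow_le_rpow_of_exponent_le hX1' (by linarith)
        _ = X := rpow_one _
    exact_mod_cast this
  have h3 := h1 X B p 0 (by omega) (by omega) hBX (Nat.lt_floor_add_one _).le (by
    have := hp.pos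
    simpa using this)
  have h4 := (abs_le.1 h3).2
  have hpr : (1 : ℝ) ≤ p := by exact_mod_cast hp.one_le
  have hXp : (X : ℝ) ≤ p := by
    have : X ≤ p := by omega
    exact_mod_cast this
  have h5 : ∑ a ∈ Icc 1 B, (rho a (0 : ℕ) p : ℝ) *
      Om (a / √(4 * (p : ℝ) - ((0 : ℕ) : ℝ) ^ 2)) ≤ C₂ * (p : ℝ) ^ (1 / 2 + ε) := by
    calc ∑ a ∈ Icc 1 B, (rho a (0 : ℕ) p : ℝ) * Om (a / √(4 * (p : ℝ) - ((0 : ℕ) : ℝ) ^ 2))
        ≤ ∑ a ∈ Icc 1 B, C₂ * (B : ℝ) ^ δ := by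
          apply sum_le_sum
          intro a ha
          rw [mem_Icc] at ha
          have ha1 : (1 : ℝ) ≤ a := by exact_mod_cast ha.1
          have haB : (a : ℝ) ≤ B := by exact_mod_cast ha.2
          have hco : Nat.Coprime p a := by
            rw [Nat.Prime.coprime_iff_not_dvd hp]
            intro hdvd
            have := Nat.le_of_dvd (by omega) hdvd
            omega
          have h6 := h2 a p ha.1 hco
          have h7 : Om (a / √(4 * (p : ℝ) - ((0 : ℕ) : ℝ) ^ 2)) ≤ 1 := by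
            apply om_le_one
            have : 0 < √(4 * (p : ℝ) - ((0 : ℕ) : ℝ) ^ 2) := by
              apply sqrt_pos.2
              push_cast
              linarith
            positivity
          have h8 : (rho a ((0 : ℕ) : ℤ) p : ℝ) ≤ C₂ * (B : ℝ) ^ δ := by
            rw [Nat.cast_zero]
            refine h6.trans ?_
            gcongr
          have h9 : (0 : ℝ) ≤ (rho a ((0 : ℕ) : ℤ) p : ℝ) := by positivity
          calc (rho a (0 : ℕ) p : ℝ) * Om (a / √(4 * (p : ℝ) - ((0 : ℕ) : ℝ) ^ 2))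
              ≤ (rho a (0 : ℕ) p : ℝ) * 1 := mul_le_mul_of_nonneg_left h7 h9
            _ ≤ C₂ * (B : ℝ) ^ δ := by rw [mul_one]; exact h8
      _ = B * (C₂ * (B : ℝ) ^ δ) := by
          rw [sum_const, Nat.card_Icc, nsmul_eq_mul, Nat.add_sub_cancel]
      _ ≤ (X : ℝ) ^ (1 / 2 + δ) * (C₂ * ((X : ℝ) ^ (1 / 2 + δ)) ^ δ) := by
          gcongr
      _ = C₂ * (X : ℝ) ^ ((1 / 2 + δ) + (1 / 2 + δ) * δ) := by
          have hX0 : (0 : ℝ) < X := by linarith
          have e1 := rpow_add hX0 (1 / 2 + δ) ((1 / 2 + δ) * δ)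
          have e2 := rpow_mul hX0.le (1 / 2 + δ) δ
          rw [e1, e2]
          ring
      _ ≤ C₂ * (X : ℝ) ^ (1 / 2 + ε) := by
          apply mul_le_mul_of_nonneg_left _ hC₂.le
          apply rpow_le_rpow_of_exponent_le hX1'
          nlinarith
      _ ≤ C₂ * (p : ℝ) ^ (1 / 2 + ε) := by
          gcongr
  have h10 : (1 : ℝ) ≤ (p : ℝ) ^ (1 / 2 + ε) := one_le_rpow hpr (by positivity)
  have h11 : C₁ ≤ C₁ * (p : ℝ) ^ (1 / 2 + ε) := by nlinarith
  have h12 : (C₁ + C₂) * (p : ℝ) ^ (1 / 2 + ε) =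
      C₁ * (p : ℝ) ^ (1 / 2 + ε) + C₂ * (p : ℝ) ^ (1 / 2 + ε) := by ring
  rw [h12]
  linarith

end Pool.Agent.DEU
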