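import Pool.Agent.DEU.Defs

/-!
# DEU.Theta: two-dimensional Poisson summation for Gaussians
-/

namespace Pool.Agent.DEU

open Real

/-- One-dimensional Poisson summation with shift and twist. -/
private lemma theta_poisson1 (r : ℝ) (hr : 0 < r) (g h : ℝ) :
    ∑' x : ℤ, Complex.exp (-π * ((r : ℂ) * x + g) ^ 2 + 2 * π * Complex.I * h * x) =
      (r : ℂ)⁻¹ * ∑' k : ℤ, Complex.exp (-π * (((k : ℂ) - h) / r) ^ 2
        + 2 * π * Complex.I * g * (((k : ℂ) - h) / r)) := by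
  have hr0 : (r : ℂ) ≠ 0 := by exact_mod_cast hr.ne'
  have h1 : 0 < (((r : ℂ)) ^ 2).re := by
    have : ((r : ℂ)) ^ 2 = ((r ^ 2 : ℝ) : ℂ) := by push_cast; ring
    rw [this, Complex.ofReal_re]
    positivity
  have h2 := Complex.tsum_exp_neg_quadratic h1 (Complex.I * h - r * g)
  have h3 : (((r : ℂ)) ^ 2) ^ (1 / 2 : ℂ) = r := by
    have : ((r : ℂ)) ^ 2 = ((r ^ 2 : ℝ) : ℂ) := by push_cast; ring
    rw [this]
    have h4 : ((1 / 2 : ℂ)) = (((1 / 2 : ℝ)) : ℂ) := by push_cast; ring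
    rw [h4, ← Complex.ofReal_cpow (by positivity)]
    congr 1
    rw [← Real.sqrt_eq_rpow, Real.sqrt_sq hr.le]
  rw [h3] at h2
  have h5 : ∀ x : ℤ, Complex.exp (-π * ((r : ℂ) * x + g) ^ 2 + 2 * π * Complex.I * h * x) =
      Complex.exp (-π * g ^ 2) *
        Complex.exp (-π * (r : ℂ) ^ 2 * x ^ 2 + 2 * π * (Complex.I * h - r * g) * x) := by
    intro x
    rw [← Complex.exp_add]
    congr 1
    ring
  have h6 : ∀ k : ℤ, Complex.exp (-π * (((k : ℂ) - h) / r) ^ 2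
        + 2 * π * Complex.I * g * (((k : ℂ) - h) / r)) =
      Complex.exp (-π * g ^ 2) *
        Complex.exp (-π / (r : ℂ) ^ 2 * (k + Complex.I * (Complex.I * h - r * g)) ^ 2) := by
    intro k
    rw [← Complex.exp_add]
    congr 1
    have h7 : (k + Complex.I * (Complex.I * h - r * g) : ℂ) = (k - h) - Complex.I * (r * g) := by
      have : (k + Complex.I * (Complex.I * h - r * g) : ℂ) =
        k + Complex.I ^ 2 * h - Complex.I * (r * g) := by ring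
      rw [this, Complex.I_sq]; ring
    rw [h7]
    have h8 : ((k - h : ℂ) - Complex.I * (r * g)) ^ 2 = (k - h) ^ 2
        - 2 * Complex.I * (r * g) * (k - h) + Complex.I ^ 2 * (r * g) ^ 2 := by ring
    rw [h8, Complex.I_sq]
    field_simp
    ring
  simp_rw [h5, h6]
  rw [tsum_mul_left, tsum_mul_left, h2]
  field_simp

private lemma theta_gauss1 {c : ℝ} (hc : 0 < c) :
    Summable (fun n : ℤ => Real.exp (-π * (c * (n : ℝ) ^ 2))) := by
  have h := (summable_jacobiTheta₂_term_iff 0 (c * Complex.I)).mpr (by simpa using hc)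
  have h2 := h.norm
  refine h2.congr fun n => ?_
  rw [norm_jacobiTheta₂_term]
  congr 1
  simp
  ring

private lemma theta_coer {A B C : ℝ} (hA : 0 < A) (hD : B ^ 2 < 4 * A * C) :
    ∃ c : ℝ, 0 < c ∧ ∀ x y : ℝ, c * (x ^ 2 + y ^ 2) ≤ A * x ^ 2 + B * x * y + C * y ^ 2 := by
  have hC : 0 < C := by
    by_contra h
    push Not at h
    nlinarith [sq_nonneg B, mul_nonneg hA.le (neg_nonneg.mpr h)]
  refine ⟨(4 * A * C - B ^ 2) / (4 * (A + C)), by
    apply div_pos <;> linarith, fun x y => ?_⟩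
  rw [div_mul_eq_mul_div, div_le_iff₀ (by linarith)]
  nlinarith [sq_nonneg (2 * A * x + B * y), sq_nonneg (2 * C * y + B * x)]

private lemma theta_gauss2 {A B C : ℝ} (hA : 0 < A) (hD : B ^ 2 < 4 * A * C) :
    Summable fun x : ℤ × ℤ =>
      exp (-π * (A * (x.1 : ℝ) ^ 2 + B * x.1 * x.2 + C * (x.2 : ℝ) ^ 2)) := by
  obtain ⟨c, hc, hb⟩ := theta_coer hA hD
  have h1 := theta_gauss1 hc
  have h2 : Summable (fun p : ℤ × ℤ => Real.exp (-π * (c * (p.1 : ℝ) ^ 2)) *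
      Real.exp (-π * (c * (p.2 : ℝ) ^ 2))) :=
    Summable.mul_of_nonneg h1 h1 (fun _ => (Real.exp_pos _).le) (fun _ => (Real.exp_pos _).le)
  refine Summable.of_nonneg_of_le (fun z => (Real.exp_pos _).le) (fun z => ?_) h2
  rw [← Real.exp_add]
  apply Real.exp_le_exp.mpr
  have h4 := hb z.1 z.2
  have hpi := Real.pi_pos
  nlinarith

private lemma theta_fubR {α β : Type*} (f g : α × β → ℂ) (hf : Summable f) (hg : Summable g)
    (c : ℂ) (h : ∀ a, ∑' b, f (a, b) = c * ∑' b, g (a, b)) : ∑' p, f p = c * ∑' p, g p := by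
  rw [hf.tsum_prod, hg.tsum_prod, ← tsum_mul_left]
  exact tsum_congr h

private lemma theta_fubL {α β : Type*} (f g : α × β → ℂ) (hf : Summable f) (hg : Summable g)
    (c : ℂ) (h : ∀ b, ∑' a, f (a, b) = c * ∑' a, g (a, b)) : ∑' p, f p = c * ∑' p, g p := by
  rw [← (Equiv.prodComm β α).tsum_eq f, ← (Equiv.prodComm β α).tsum_eq g]
  exact theta_fubR (fun q => f (Equiv.prodComm β α q)) (fun q => g (Equiv.prodComm β α q))
    ((Equiv.prodComm β α).summable_iff.mpr hf) ((Equiv.prodComm β α).summable_iff.mpr hg) c h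

/-- Poisson summation for a triangular matrix. -/
private lemma theta_tri (r1 r2 s : ℝ) (h1 : 0 < r1) (h2 : 0 < r2) :
    ∑' p : ℤ × ℤ, Complex.exp (-π * (((r1 : ℂ) * p.1 + s * p.2) ^ 2 + ((r2 : ℂ) * p.2) ^ 2)) =
    ((r1 * r2 : ℝ) : ℂ)⁻¹ * ∑' p : ℤ × ℤ, Complex.exp (-π * (((p.1 : ℂ) / r1) ^ 2
      + (((p.2 : ℂ) - s * (p.1 / r1)) / r2) ^ 2)) := by
  have k1 : (r1 : ℂ) ≠ 0 := by exact_mod_cast h1.ne'
  have k2 : (r2 : ℂ) ≠ 0 := by exact_mod_cast h2.ne'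
  set M0 : ℤ × ℤ → ℂ := fun p =>
    Complex.exp (-π * (((r1 : ℂ) * p.1 + s * p.2) ^ 2 + ((r2 : ℂ) * p.2) ^ 2)) with hM0
  set M1 : ℤ × ℤ → ℂ := fun p =>
    Complex.exp (-π * (((p.1 : ℂ) / r1) ^ 2 + ((r2 : ℂ) * p.2) ^ 2)
      + 2 * π * Complex.I * ((s * p.2) * (p.1 / r1))) with hM1
  set M2 : ℤ × ℤ → ℂ := fun p =>
    Complex.exp (-π * (((p.1 : ℂ) / r1) ^ 2 + (((p.2 : ℂ) - s * (p.1 / r1)) / r2) ^ 2)) with hM2
  have s0 : Summable M0 := by
    apply Summable.of_norm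
    have hd : (2 * r1 * s) ^ 2 < 4 * r1 ^ 2 * (s ^ 2 + r2 ^ 2) := by
      have := mul_pos (pow_pos h1 2) (pow_pos h2 2)
      nlinarith
    refine (theta_gauss2 (pow_pos h1 2) hd).congr fun p => ?_
    rw [hM0]
    simp only
    have : (-π * (((r1 : ℂ) * p.1 + s * p.2) ^ 2 + ((r2 : ℂ) * p.2) ^ 2) : ℂ) =
        ((-π * ((r1 * p.1 + s * p.2) ^ 2 + (r2 * p.2) ^ 2) : ℝ) : ℂ) := by
      push_cast; ring
    rw [this, Complex.norm_exp, Complex.ofReal_re]
    congr 1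
    ring
  have s1 : Summable M1 := by
    apply Summable.of_norm
    have hd : (0 : ℝ) ^ 2 < 4 * (1 / r1) ^ 2 * r2 ^ 2 := by
      rw [zero_pow two_ne_zero]
      positivity
    refine (theta_gauss2 (by positivity : 0 < (1 / r1) ^ 2) hd).congr fun p => ?_
    rw [hM1]
    simp only
    have : (-π * (((p.1 : ℂ) / r1) ^ 2 + ((r2 : ℂ) * p.2) ^ 2)
      + 2 * π * Complex.I * ((s * p.2) * (p.1 / r1)) : ℂ) =
        ((-π * ((p.1 / r1) ^ 2 + (r2 * p.2) ^ 2) : ℝ) : ℂ) +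
        ((2 * π * ((s * p.2) * (p.1 / r1)) : ℝ) : ℂ) * Complex.I := by
      push_cast; ring
    rw [this, Complex.norm_exp, Complex.add_re, Complex.ofReal_re, Complex.re_ofReal_mul,
      Complex.I_re, mul_zero, add_zero]
    congr 1
    ring
  have s2 : Summable M2 := by
    apply Summable.of_norm
    have hd : (-2 * (s / r1) / r2 ^ 2) ^ 2 <
        4 * ((1 / r1) ^ 2 + (s / r1 / r2) ^ 2) * (1 / r2) ^ 2 := by
      have e1 : 4 * ((1 / r1) ^ 2 + (s / r1 / r2) ^ 2) * (1 / r2) ^ 2 =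
          (-2 * (s / r1) / r2 ^ 2) ^ 2 + 4 * (1 / r1) ^ 2 * (1 / r2) ^ 2 := by
        field_simp
        ring
      rw [e1]
      have : 0 < 4 * (1 / r1) ^ 2 * (1 / r2) ^ 2 := by positivity
      linarith
    refine (theta_gauss2 (by positivity : 0 < (1 / r1) ^ 2 + (s / r1 / r2) ^ 2) hd).congr
      fun p => ?_
    rw [hM2]
    simp only
    have : (-π * (((p.1 : ℂ) / r1) ^ 2 + (((p.2 : ℂ) - s * (p.1 / r1)) / r2) ^ 2) : ℂ) =
        ((-π * ((p.1 / r1) ^ 2 + ((p.2 - s * (p.1 / r1)) / r2) ^ 2) : ℝ) : ℂ) := by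
      push_cast; ring
    rw [this, Complex.norm_exp, Complex.ofReal_re]
    congr 1
    field_simp
    ring
  have f1 : ∑' p, M0 p = (r1 : ℂ)⁻¹ * ∑' p, M1 p := by
    apply theta_fubL M0 M1 s0 s1
    intro y
    have h := theta_poisson1 r1 h1 (s * y) 0
    have e1 : ∀ x : ℤ, M0 (x, y) = Complex.exp (-π * ((r2 : ℂ) * y) ^ 2)
        * Complex.exp (-π * ((r1 : ℂ) * x + ((s * y : ℝ) : ℂ)) ^ 2
          + 2 * π * Complex.I * ((0 : ℝ) : ℂ) * x) := by
      intro x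
      rw [hM0, ← Complex.exp_add]
      simp only
      congr 1
      push_cast
      ring
    have e2 : ∀ x : ℤ, M1 (x, y) = Complex.exp (-π * ((r2 : ℂ) * y) ^ 2)
        * Complex.exp (-π * (((x : ℂ) - ((0 : ℝ) : ℂ)) / r1) ^ 2
          + 2 * π * Complex.I * ((s * y : ℝ) : ℂ) * (((x : ℂ) - ((0 : ℝ) : ℂ)) / r1)) := by
      intro x
      rw [hM1, ← Complex.exp_add]
      simp only
      congr 1
      push_cast
      ring
    simp_rw [e1, e2]
    rw [tsum_mul_left, tsum_mul_left, h]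
    ring
  have f2 : ∑' p, M1 p = (r2 : ℂ)⁻¹ * ∑' p, M2 p := by
    apply theta_fubR M1 M2 s1 s2
    intro x
    have h := theta_poisson1 r2 h2 0 (s * (x / r1))
    have e1 : ∀ y : ℤ, M1 (x, y) = Complex.exp (-π * ((x : ℂ) / r1) ^ 2)
        * Complex.exp (-π * ((r2 : ℂ) * y + ((0 : ℝ) : ℂ)) ^ 2
          + 2 * π * Complex.I * ((s * (x / r1) : ℝ) : ℂ) * y) := by
      intro y
      rw [hM1, ← Complex.exp_add]
      simp only
      congr 1
      push_cast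
      ring
    have e2 : ∀ y : ℤ, M2 (x, y) = Complex.exp (-π * ((x : ℂ) / r1) ^ 2)
        * Complex.exp (-π * (((y : ℂ) - ((s * (x / r1) : ℝ) : ℂ)) / r2) ^ 2
          + 2 * π * Complex.I * ((0 : ℝ) : ℂ) * (((y : ℂ) - ((s * (x / r1) : ℝ) : ℂ)) / r2)) := by
      intro y
      rw [hM2, ← Complex.exp_add]
      simp only
      congr 1
      push_cast
      ring
    simp_rw [e1, e2]
    rw [tsum_mul_left, tsum_mul_left, h]
    ring
  rw [f1, f2]
  push_cast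
  field_simp

theorem theta_summable {A B C : ℝ} (hA : 0 < A) (hD : B ^ 2 < 4 * A * C) {y : ℝ} (hy : 0 < y) :
    Summable fun x : ℤ × ℤ =>
      exp (-π * y * ((A * x.1 ^ 2 + B * x.1 * x.2 + C * x.2 ^ 2) / √(4 * A * C - B ^ 2))) := by
  have hs : 0 < √(4 * A * C - B ^ 2) := Real.sqrt_pos.mpr (by linarith)
  set d := √(4 * A * C - B ^ 2)
  have hk : 0 < y / d := by positivity
  have h1 : 0 < y / d * A := by positivity
  have h2 : (y / d * B) ^ 2 < 4 * (y / d * A) * (y / d * C) := by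
    have e : 4 * (y / d * A) * (y / d * C) = (y / d) ^ 2 * (4 * A * C) := by ring
    rw [e, mul_pow]
    exact mul_lt_mul_of_pos_left hD (by positivity)
  refine (theta_gauss2 h1 h2).congr fun x => ?_
  congr 1
  ring

theorem theta_id {A B C : ℝ} (hA : 0 < A) (hD : B ^ 2 < 4 * A * C) :
    ∑' x : ℤ × ℤ, exp (-π * 1 * ((A * x.1 ^ 2 + B * x.1 * x.2 + C * x.2 ^ 2) /
        √(4 * A * C - B ^ 2))) =
      2 * ∑' x : ℤ × ℤ, exp (-π * 4 * ((A * x.1 ^ 2 + B * x.1 * x.2 + C * x.2 ^ 2) /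
        √(4 * A * C - B ^ 2))) := by
  have hs : 0 < √(4 * A * C - B ^ 2) := Real.sqrt_pos.mpr (by linarith)
  have hsq : √(4 * A * C - B ^ 2) ^ 2 = 4 * A * C - B ^ 2 := Real.sq_sqrt (by linarith)
  set d := √(4 * A * C - B ^ 2) with hd
  set r1 := √(A / d) with hr1
  have hAd : 0 < A / d := by positivity
  have hr1p : 0 < r1 := Real.sqrt_pos.mpr hAd
  have hr1sq : r1 ^ 2 = A / d := Real.sq_sqrt hAd.le
  set r2 : ℝ := 1 / (2 * r1) with hr2
  have hr2p : 0 < r2 := by positivity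
  set s : ℝ := B / (2 * r1 * d) with hs2
  have h12 : r1 * r2 = 1 / 2 := by
    rw [hr2]; field_simp
  have hr2sq : r2 ^ 2 = d / (4 * A) := by
    have : r2 ^ 2 = 1 / (4 * r1 ^ 2) := by rw [hr2]; field_simp; ring
    rw [this, hr1sq]
    field_simp
  have hssq : s ^ 2 = B ^ 2 / (4 * A * d) := by
    have : s ^ 2 = B ^ 2 / (4 * r1 ^ 2 * d ^ 2) := by rw [hs2]; field_simp; ring
    rw [this, hr1sq]
    field_simp
  have hrs : 2 * r1 * s = B / d := by
    rw [hs2]; field_simp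
  have hform : ∀ m n : ℝ, (r1 * m + s * n) ^ 2 + (r2 * n) ^ 2 =
      (A * m ^ 2 + B * m * n + C * n ^ 2) / d := by
    intro m n
    have e1 : (r1 * m + s * n) ^ 2 + (r2 * n) ^ 2 =
      r1 ^ 2 * m ^ 2 + (2 * r1 * s) * (m * n) + (s ^ 2 + r2 ^ 2) * n ^ 2 := by ring
    have e2 : s ^ 2 + r2 ^ 2 = C / d := by
      rw [hssq, hr2sq]
      field_simp
      nlinarith [hsq]
    rw [e1, hr1sq, hrs, e2]
    field_simp
  have hmain := theta_tri r1 r2 s hr1p hr2p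
  rw [h12] at hmain
  have hL : ∀ p : ℤ × ℤ, Complex.exp (-π * (((r1 : ℂ) * p.1 + s * p.2) ^ 2
      + ((r2 : ℂ) * p.2) ^ 2)) =
      ((exp (-π * 1 * ((A * p.1 ^ 2 + B * p.1 * p.2 + C * p.2 ^ 2) / d)) : ℝ) : ℂ) := by
    intro p
    rw [Complex.ofReal_exp]
    congr 1
    rw [← hform]
    push_cast
    ring
  have hR : ∀ p : ℤ × ℤ, Complex.exp (-π * (((p.1 : ℂ) / r1) ^ 2
      + (((p.2 : ℂ) - s * (p.1 / r1)) / r2) ^ 2)) =
      ((exp (-π * 4 * ((A * (p.2 : ℝ) ^ 2 + B * (p.2 : ℝ) * (-(p.1 : ℝ)) +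
        C * (-(p.1 : ℝ)) ^ 2) / d)) : ℝ) : ℂ) := by
    intro p
    rw [Complex.ofReal_exp]
    congr 1
    rw [← hform]
    have hr2c : (r2 : ℂ) = 1 / (2 * r1) := by rw [hr2]; push_cast; ring
    have k1 : (r1 : ℂ) ≠ 0 := by exact_mod_cast hr1p.ne'
    push_cast
    rw [hr2c]
    field_simp
    ring
  simp_rw [hL, hR] at hmain
  rw [← Complex.ofReal_tsum, ← Complex.ofReal_tsum] at hmain
  have hmain2 : ∑' p : ℤ × ℤ, exp (-π * 1 * ((A * p.1 ^ 2 + B * p.1 * p.2 + C * p.2 ^ 2) / d)) =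
      2 * ∑' p : ℤ × ℤ, exp (-π * 4 * ((A * (p.2 : ℝ) ^ 2 + B * (p.2 : ℝ) * (-(p.1 : ℝ)) +
        C * (-(p.1 : ℝ)) ^ 2) / d)) := by
    have : ((1 / 2 : ℝ) : ℂ)⁻¹ = ((2 : ℝ) : ℂ) := by push_cast; norm_num
    rw [this] at hmain
    exact_mod_cast hmain
  rw [hmain2]
  congr 1
  let e : ℤ × ℤ ≃ ℤ × ℤ :=
    { toFun := fun p => (p.2, -p.1)
      invFun := fun p => (-p.2, p.1)
      left_inv := fun p => by simp
      right_inv := fun p => by simp }
  rw [← e.tsum_eq]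
  refine tsum_congr fun p => ?_
  congr 3
  simp only [e, Equiv.coe_fn_mk]
  push_cast
  ring

end Pool.Agent.DEU
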