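import Pool.Agent.DEU.Tail
import Pool.Agent.DEU.MainTerm
import Pool.Agent.H11.DEU.Bridge

/-!
# DEU.WB: the deviation at one prime in terms of the error term
-/

namespace Pool.Agent.DEU

open Finset Real Pool.Agent.H11.STA

/-- The majorant of the class numbers. -/
noncomputable def hh (k t : ℕ) : ℕ := ⌊Sw t (Nat.nth Nat.Prime k)⌋₊

private lemma wb_st {θ : ℝ} (h0 : 0 ≤ θ) (h1 : θ ≤ 1) :
    satoTate.real (Set.Ico 0 θ) = θ - sin (2 * π * θ) / (2 * π) := by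
  have hpos : 0 ≤ ∫ u in (0:ℝ)..θ, 2 * Real.sin (Real.pi * u) ^ 2 :=
    intervalIntegral.integral_nonneg h0 (fun u _ => by positivity)
  rw [MeasureTheory.measureReal_def, satoTate_Ico 0 θ le_rfl h0 h1, ENNReal.toReal_ofReal hpos,
    integral_density]
  have h2 : sin (2 * π * θ) = 2 * sin (π * θ) * cos (π * θ) := by
    rw [← sin_two_mul]; congr 1; ring
  rw [h2]
  have := Real.pi_pos
  simp only [mul_zero, sin_zero, zero_mul]
  field_simp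
  ring

private lemma wb_mem {p : ℕ} (hp : 0 < p) {θ : ℝ} (h0 : 0 ≤ θ) (h1 : θ ≤ 1) {t : ℤ}
    (ht : t ^ 2 < 4 * (p : ℤ)) :
    Real.arccos ((t : ℝ) / (2 * √(p : ℝ))) / Real.pi ∈ Set.Ico 0 θ ↔
      2 * √(p : ℝ) * cos (π * θ) < t := by
  have hpi := Real.pi_pos
  have hs : 0 < √(p : ℝ) := Real.sqrt_pos.mpr (by exact_mod_cast hp)
  have hs2 : 0 < 2 * √(p : ℝ) := by positivity
  have h7 : (2 * √(p : ℝ)) ^ 2 = 4 * p := by
    rw [mul_pow, Real.sq_sqrt (Nat.cast_nonneg p)]; norm_num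
  have htr : (t : ℝ) ^ 2 < 4 * p := by exact_mod_cast ht
  have habs : |(t : ℝ)| < 2 * √(p : ℝ) := by
    apply abs_lt_of_sq_lt_sq _ hs2.le
    rw [h7]; exact htr
  obtain ⟨hl, hr⟩ := abs_lt.mp habs
  have hx : (t : ℝ) / (2 * √(p : ℝ)) ∈ Set.Icc (-1 : ℝ) 1 := by
    constructor
    · rw [le_div_iff₀ hs2]; linarith
    · rw [div_le_iff₀ hs2]; linarith
  have hcos : Real.arccos (cos (π * θ)) = π * θ :=
    Real.arccos_cos (by positivity) (by nlinarith)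
  have hc : cos (π * θ) ∈ Set.Icc (-1 : ℝ) 1 := ⟨neg_one_le_cos _, cos_le_one _⟩
  constructor
  · rintro ⟨-, h3⟩
    rw [div_lt_iff₀ hpi] at h3
    have h4 : Real.arccos ((t : ℝ) / (2 * √(p : ℝ))) < Real.arccos (cos (π * θ)) := by
      rw [hcos]; linarith
    have h5 := (Real.strictAntiOn_arccos.lt_iff_gt hx hc).mp h4
    rw [lt_div_iff₀ hs2] at h5
    linarith
  · intro h3
    refine ⟨div_nonneg (Real.arccos_nonneg _) hpi.le, ?_⟩
    rw [div_lt_iff₀ hpi]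
    have h5 : cos (π * θ) < (t : ℝ) / (2 * √(p : ℝ)) := by
      rw [lt_div_iff₀ hs2]; linarith
    have h4 := (Real.strictAntiOn_arccos.lt_iff_gt hx hc).mpr h5
    rw [hcos] at h4
    linarith

private lemma wb_mem_trSet {p : ℕ} {I : Set ℝ} {t : ℤ} :
    t ∈ Pool.Agent.H11.DEU.trSet p I ↔ (-(p : ℤ) < t ∧ t < p) ∧ t ^ 2 < 4 * (p : ℤ) ∧
      Real.arccos ((t : ℝ) / (2 * √(p : ℝ))) / Real.pi ∈ I := by
  unfold Pool.Agent.H11.DEU.trSet
  simp only [mem_filter, mem_Ioo]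

private lemma wb_card (p : ℕ) (hp : 0 < p) : ((tset p).card : ℝ) ≤ 5 * √(p : ℝ) := by
  have hsub : tset p ⊆ Icc (-(Nat.sqrt (4 * p) : ℤ)) (Nat.sqrt (4 * p)) := by
    intro t ht
    rw [mem_tset] at ht
    rw [mem_Icc, ← abs_le]
    have h1 : t.natAbs ≤ Nat.sqrt (4 * p) := by
      rw [Nat.le_sqrt']
      zify
      rw [sq_abs]
      exact ht.le
    rw [Int.abs_eq_natAbs]
    exact_mod_cast h1
  have h1 := card_le_card hsub
  rw [Int.card_Icc] at h1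
  have h2 : (tset p).card ≤ 2 * Nat.sqrt (4 * p) + 1 := by omega
  have h3 : ((tset p).card : ℝ) ≤ 2 * (Nat.sqrt (4 * p) : ℝ) + 1 := by exact_mod_cast h2
  have h4 : (Nat.sqrt (4 * p) : ℝ) ≤ 2 * √(p : ℝ) := by
    have := Real.nat_sqrt_le_real_sqrt (a := 4 * p)
    refine this.trans (le_of_eq ?_)
    push_cast
    rw [Real.sqrt_mul (by norm_num), show (4 : ℝ) = 2 ^ 2 by norm_num, Real.sqrt_sq (by norm_num)]
  have h5 : (1 : ℝ) ≤ √(p : ℝ) := by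
    rw [Real.one_le_sqrt]
    exact_mod_cast hp
  linarith

private lemma wb_sw_nonneg {t n : ℕ} (h : t ^ 2 < 4 * n) : 0 ≤ Sw t n := by
  unfold Sw
  refine tsum_nonneg fun a => mul_nonneg (Nat.cast_nonneg _) (om_nonneg ?_)
  have h1 : (0 : ℝ) < 4 * (n : ℝ) - (t : ℝ) ^ 2 := by
    have : (t : ℝ) ^ 2 < 4 * n := by exact_mod_cast h
    linarith
  have := Real.sqrt_pos.mpr h1
  positivity

private lemma wb_exp (ε : ℝ) (hε : 0 < ε) : ∃ C : ℝ, 0 < C ∧ ∀ (X B : ℕ) (y : ℝ), 1 ≤ X →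
    (X : ℝ) ^ (1 / 2 + ε) ≤ B + 1 → 1 ≤ y → y ≤ 3 * √(X : ℝ) → y * exp (-π * B / y) ≤ C := by
  obtain ⟨N, hN⟩ := exists_nat_ge (1 / (2 * ε))
  refine ⟨3 * exp π * N.factorial, by positivity, fun X B y hX hB hy1 hy => ?_⟩
  have hXR : (1 : ℝ) ≤ X := by exact_mod_cast hX
  have hX0 : (0 : ℝ) < X := by linarith
  have hs : 0 < √(X : ℝ) := Real.sqrt_pos.mpr hX0
  have hpi := Real.pi_pos
  have hpi3 := Real.pi_gt_three
  have hy0 : 0 < y := by linarith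
  have h1 : (X : ℝ) ^ ε ≤ 3 * (B : ℝ) / y + 1 * 3 := by
    have h2 : (X : ℝ) ^ (1 / 2 + ε) = √(X : ℝ) * (X : ℝ) ^ ε := by
      rw [Real.rpow_add hX0, ← Real.sqrt_eq_rpow]
    rw [h2] at hB
    have hB0 : (0 : ℝ) ≤ B := Nat.cast_nonneg _
    have h3 : (B : ℝ) / (3 * √(X : ℝ)) ≤ B / y := by gcongr
    have h4 : (X : ℝ) ^ ε ≤ (B + 1) / √(X : ℝ) := by
      rw [le_div_iff₀ hs]; linarith
    have h5 : ((B : ℝ) + 1) / √(X : ℝ) = 3 * (B / (3 * √(X : ℝ))) + 1 / √(X : ℝ) := by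
      field_simp
    have h6 : 1 / √(X : ℝ) ≤ 1 := by
      rw [div_le_one hs, Real.one_le_sqrt]; exact hXR
    rw [h5] at h4
    have h7 : 3 * (B : ℝ) / y = 3 * (B / y) := by ring
    rw [h7]
    linarith
  have h2 : √(X : ℝ) ≤ ((X : ℝ) ^ ε) ^ N := by
    rw [← Real.rpow_natCast, ← Real.rpow_mul hX0.le, Real.sqrt_eq_rpow]
    apply Real.rpow_le_rpow_of_exponent_le hXR
    have : 1 / 2 = ε * (1 / (2 * ε)) := by field_simp
    rw [this]
    gcongr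
  have h3 : ((X : ℝ) ^ ε) ^ N ≤ N.factorial * exp ((X : ℝ) ^ ε) := by
    have h4 := Real.pow_div_factorial_le_exp ((X : ℝ) ^ ε) (by positivity) N
    rw [div_le_iff₀ (by positivity)] at h4
    linarith
  have h4 : (X : ℝ) ^ ε ≤ π * B / y + π := by
    refine h1.trans ?_
    have hB0 : (0 : ℝ) ≤ B := Nat.cast_nonneg _
    have : 3 * (B : ℝ) / y ≤ π * B / y := by gcongr
    linarith
  calc y * exp (-π * B / y) ≤ (3 * √(X : ℝ)) * exp (-π * B / y) := by gcongr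
    _ ≤ (3 * (N.factorial * exp ((X : ℝ) ^ ε))) * exp (-π * B / y) := by
        gcongr
        exact h2.trans h3
    _ ≤ (3 * (N.factorial * exp (π * B / y + π))) * exp (-π * B / y) := by
        gcongr
    _ = 3 * exp π * N.factorial := by
        rw [Real.exp_add]
        have : exp (π * B / y) * exp (-π * B / y) = 1 := by
          rw [← Real.exp_add]
          have : π * B / y + -π * B / y = 0 := by ring
          rw [this, Real.exp_zero]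
        linear_combination (3 * N.factorial * exp π) * this

private lemma wb_term {C₁ C₂ C₄ : ℝ} (p B : ℕ) (t : ℤ)
    (ht : t ^ 2 < 4 * (p : ℤ))
    (h1 : |Sw t.natAbs p - ∑ a ∈ Icc 1 B, (rho a t.natAbs p : ℝ) *
      Om (a / √(4 * (p : ℝ) - (t.natAbs : ℝ) ^ 2))| ≤ C₁)
    (h2 : |∑ a ∈ Icc 1 B, (Nat.totient a : ℝ) / a * Om (a / √(4 * (p : ℝ) - (t : ℝ) ^ 2)) -
      √(4 * (p : ℝ) - (t : ℝ) ^ 2) / π| ≤
      C₂ * (1 + log (√(4 * (p : ℝ) - (t : ℝ) ^ 2))) + C₂ * √(4 * (p : ℝ) - (t : ℝ) ^ 2) *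
        exp (-π * B / √(4 * (p : ℝ) - (t : ℝ) ^ 2)))
    (h3 : √(4 * (p : ℝ) - (t : ℝ) ^ 2) * exp (-π * B / √(4 * (p : ℝ) - (t : ℝ) ^ 2)) ≤ C₄)
    (hC2 : 0 < C₂) :
    |(⌊Sw t.natAbs p⌋₊ : ℝ) - ∑ a ∈ Icc 1 B, ((rho a t p : ℝ) - (Nat.totient a : ℝ) / a) *
      Om (a / √(4 * (p : ℝ) - (t : ℝ) ^ 2)) - √(4 * (p : ℝ) - (t : ℝ) ^ 2) / π| ≤
      1 + C₁ + C₂ * C₄ + C₂ * (1 + log (√(4 * (p : ℝ) - (t : ℝ) ^ 2))) := by
  have hnat : (t.natAbs : ℝ) ^ 2 = (t : ℝ) ^ 2 := by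
    rw [Nat.cast_natAbs, Int.cast_abs, sq_abs]
  have hrho : ∀ a : ℕ, rho a (t.natAbs : ℤ) p = rho a t p := by
    intro a
    rcases Int.natAbs_eq t with h | h
    · rw [← h]
    · conv_rhs => rw [h, rho_neg]
  rw [hnat] at h1
  have hsw : t.natAbs ^ 2 < 4 * p := by
    zify; rw [sq_abs]; exact ht
  have hs0 := wb_sw_nonneg hsw
  have hfl : |(⌊Sw t.natAbs p⌋₊ : ℝ) - Sw t.natAbs p| ≤ 1 := by
    have e1 := Nat.floor_le hs0
    have e2 := Nat.lt_floor_add_one (Sw t.natAbs p)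
    rw [abs_le]; constructor <;> linarith
  simp_rw [hrho] at h1
  set y : ℝ := √(4 * (p : ℝ) - (t : ℝ) ^ 2) with hy
  set S₁ : ℝ := ∑ a ∈ Icc 1 B, (rho a t p : ℝ) * Om (a / y) with hS1
  set S₂ : ℝ := ∑ a ∈ Icc 1 B, (Nat.totient a : ℝ) / a * Om (a / y) with hS2
  have hdiff : ∑ a ∈ Icc 1 B, ((rho a t p : ℝ) - (Nat.totient a : ℝ) / a) * Om (a / y) =
      S₁ - S₂ := by
    rw [hS1, hS2, ← sum_sub_distrib]
    exact sum_congr rfl fun a _ => by ring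
  rw [hdiff]
  have h4 : C₂ * y * exp (-π * B / y) ≤ C₂ * C₄ := by
    rw [mul_assoc]
    exact mul_le_mul_of_nonneg_left h3 hC2.le
  rw [abs_le] at *
  constructor <;> linarith [h1.1, h1.2, h2.1, h2.2, hfl.1, hfl.2]

private lemma wb_tri {T S E Y Z M U V : ℝ} (h1 : |T - S| ≤ M) (h2 : |S - E - Y| ≤ U)
    (h3 : |Y - Z| ≤ V) : |T - E - Z| ≤ M + U + V := by
  rw [abs_le] at *
  constructor <;> linarith [h1.1, h1.2, h2.1, h2.2, h3.1, h3.2]

private lemma wb_last {M D C s e r p : ℝ} (hM : 0 ≤ M) (hD : 0 ≤ D) (hC : 0 ≤ C) (he : 1 ≤ e)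
    (hs : 1 ≤ s) (h : r * p = s * e) :
    M + 5 * s * (D * e) + C * s ≤ (M + 5 * D + C) * r * (2 * p) := by
  have e1 : (M + 5 * D + C) * r * (2 * p) = 2 * (M + 5 * D + C) * (s * e) := by
    rw [← h]; ring
  rw [e1]
  have hse : 1 ≤ s * e := one_le_mul_of_one_le_of_one_le hs he
  have hse2 : s ≤ s * e := le_mul_of_one_le_right (by linarith) he
  have e2 : M ≤ M * (s * e) := le_mul_of_one_le_right hM hse
  have e3 : C * s ≤ C * (s * e) := mul_le_mul_of_nonneg_left hse2 hC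
  have e4 : 0 ≤ (M + 5 * D + C) * (s * e) := by positivity
  nlinarith

theorem w_es : ∀ ε : ℝ, 0 < ε → ∃ C : ℝ, 0 < C ∧ ∀ (X B k : ℕ),
    X < Nat.nth Nat.Prime k → Nat.nth Nat.Prime k ≤ 2 * X → B ≤ X →
    (X : ℝ) ^ (1 / 2 + ε) ≤ B + 1 → ∀ θ : ℝ, 0 ≤ θ → θ ≤ 1 →
    |Pool.Agent.H11.DEU.W hh k θ - 1 / (2 * (Nat.nth Nat.Prime k : ℝ)) *
        Es {t : ℤ | 2 * √(Nat.nth Nat.Prime k : ℝ) * cos (π * θ) < t} B (Nat.nth Nat.Prime k)| ≤
      C * (Nat.nth Nat.Prime k : ℝ) ^ (ε - 1 / 2) := by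
  classical
  intro ε hε
  obtain ⟨C₁, hC₁, h₁⟩ := sw_split ε hε
  obtain ⟨C₂, hC₂, h₂⟩ := phi_om
  obtain ⟨C₃, hC₃, h₃⟩ := t_sum
  obtain ⟨C₄, hC₄, h₄⟩ := wb_exp ε hε
  -- the constant for the primes 2 and 3
  set M : ℝ := ∑ k ∈ range 2, ∑ t ∈ tset (Nat.nth Nat.Prime k), (hh k t.natAbs : ℝ) with hM
  have hM0 : 0 ≤ M := sum_nonneg fun _ _ => sum_nonneg fun _ _ => Nat.cast_nonneg _
  set D : ℝ := 1 + C₁ + C₂ * C₄ + C₂ * (2 + 1 / (2 * ε)) with hD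
  have hD0 : 0 < D := by positivity
  refine ⟨M + 5 * D + C₃, by positivity, ?_⟩
  intro X B k hXp hpX hBX hB θ hθ0 hθ1
  set p : ℕ := Nat.nth Nat.Prime k with hp
  have hpp : p.Prime := Nat.prime_nth_prime k
  have hp0 : 0 < p := hpp.pos
  have hX1 : 1 ≤ X := by omega
  have hpR : (1 : ℝ) ≤ p := by exact_mod_cast hp0
  have hpR0 : (0 : ℝ) < p := by linarith
  have hpi := Real.pi_pos
  set F : Finset ℤ := (tset p).filter (fun t : ℤ => 2 * √(p : ℝ) * cos (π * θ) < t) with hF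
  -- comparison of the index sets
  have hsum1 : |∑ t ∈ Pool.Agent.H11.DEU.trSet p (Set.Ico 0 θ), (hh k t.natAbs : ℝ) -
      ∑ t ∈ F, (hh k t.natAbs : ℝ)| ≤ M := by
    have hsub : Pool.Agent.H11.DEU.trSet p (Set.Ico 0 θ) ⊆ F := by
      intro t ht
      rw [wb_mem_trSet] at ht
      rw [hF, mem_filter, mem_tset]
      exact ⟨ht.2.1, (wb_mem hp0 hθ0 hθ1 ht.2.1).mp ht.2.2⟩
    have h5 : ∑ t ∈ F \ Pool.Agent.H11.DEU.trSet p (Set.Ico 0 θ), (hh k t.natAbs : ℝ) +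
        ∑ t ∈ Pool.Agent.H11.DEU.trSet p (Set.Ico 0 θ), (hh k t.natAbs : ℝ) =
        ∑ t ∈ F, (hh k t.natAbs : ℝ) := sum_sdiff hsub
    have h6 : 0 ≤ ∑ t ∈ F \ Pool.Agent.H11.DEU.trSet p (Set.Ico 0 θ), (hh k t.natAbs : ℝ) :=
      sum_nonneg fun _ _ => Nat.cast_nonneg _
    have h7 : ∑ t ∈ F \ Pool.Agent.H11.DEU.trSet p (Set.Ico 0 θ), (hh k t.natAbs : ℝ) ≤ M := by
      by_cases hk : k < 2
      · have h8 : ∑ t ∈ F \ Pool.Agent.H11.DEU.trSet p (Set.Ico 0 θ), (hh k t.natAbs : ℝ) ≤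
            ∑ t ∈ tset (Nat.nth Nat.Prime k), (hh k t.natAbs : ℝ) :=
          sum_le_sum_of_subset_of_nonneg (sdiff_subset.trans (filter_subset _ _))
            (fun _ _ _ => Nat.cast_nonneg _)
        refine h8.trans ?_
        exact single_le_sum (f := fun k => ∑ t ∈ tset (Nat.nth Nat.Prime k),
          (hh k t.natAbs : ℝ)) (fun _ _ => sum_nonneg fun _ _ => Nat.cast_nonneg _)
          (mem_range.mpr hk)
      · have hp5 : 5 ≤ p := by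
          have h9 : Nat.nth Nat.Prime 2 ≤ p :=
            Nat.nth_monotone Nat.infinite_setOfPred_prime (by omega)
          have h10 : Nat.nth Nat.Prime 2 = 5 := Nat.nth_prime_two_eq_five
          omega
        have h9 : F \ Pool.Agent.H11.DEU.trSet p (Set.Ico 0 θ) = ∅ := by
          rw [sdiff_eq_empty_iff_subset]
          intro t ht
          rw [hF, mem_filter, mem_tset] at ht
          rw [wb_mem_trSet]
          have hp5' : (5 : ℤ) ≤ p := by exact_mod_cast hp5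
          refine ⟨?_, ht.1, (wb_mem hp0 hθ0 hθ1 ht.1).mpr ht.2⟩
          rw [← abs_lt]
          apply abs_lt_of_sq_lt_sq _ (by omega)
          nlinarith [ht.1]
        rw [h9, sum_empty]
        exact hM0
    rw [abs_le]
    constructor <;> linarith
  -- the terms
  have hterm : ∀ t ∈ F, |(hh k t.natAbs : ℝ) -
      ∑ a ∈ Icc 1 B, ((rho a t p : ℝ) - (Nat.totient a : ℝ) / a) *
      Om (a / √(4 * (p : ℝ) - (t : ℝ) ^ 2)) - √(4 * (p : ℝ) - (t : ℝ) ^ 2) / π| ≤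
      D * (p : ℝ) ^ ε := by
    intro t ht
    rw [hF, mem_filter, mem_tset] at ht
    have ht2 := ht.1
    have hnat : (t.natAbs : ℝ) ^ 2 = (t : ℝ) ^ 2 := by
      rw [Nat.cast_natAbs, Int.cast_abs, sq_abs]
    have hsw : t.natAbs ^ 2 < 4 * p := by
      zify; rw [sq_abs]; exact ht2
    have hge : (1 : ℝ) ≤ 4 * (p : ℝ) - (t : ℝ) ^ 2 := by
      have : (1 : ℤ) ≤ 4 * p - t ^ 2 := by linarith
      exact_mod_cast this
    have hy1 : 1 ≤ √(4 * (p : ℝ) - (t : ℝ) ^ 2) := by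
      rw [Real.one_le_sqrt]; exact hge
    have hy2 : √(4 * (p : ℝ) - (t : ℝ) ^ 2) ≤ 2 * √(p : ℝ) := by
      rw [show 2 * √(p : ℝ) = √(4 * (p : ℝ)) by
        rw [Real.sqrt_mul (by norm_num), show (4 : ℝ) = 2 ^ 2 by norm_num,
          Real.sqrt_sq (by norm_num)]]
      apply Real.sqrt_le_sqrt
      nlinarith [sq_nonneg (t : ℝ)]
    have hy3 : √(4 * (p : ℝ) - (t : ℝ) ^ 2) ≤ 3 * √(X : ℝ) := by
      rw [show 3 * √(X : ℝ) = √(9 * (X : ℝ)) by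
        rw [Real.sqrt_mul (by norm_num), show (9 : ℝ) = 3 ^ 2 by norm_num,
          Real.sqrt_sq (by norm_num)]]
      apply Real.sqrt_le_sqrt
      have : (p : ℝ) ≤ 2 * X := by exact_mod_cast hpX
      have hX0 : (0 : ℝ) ≤ X := Nat.cast_nonneg _
      nlinarith [sq_nonneg (t : ℝ)]
    have e1 := h₁ X B p t.natAbs hXp hpX hBX hB hsw
    have e2 := h₂ (√(4 * (p : ℝ) - (t : ℝ) ^ 2)) hy1 B
    have e3 := h₄ X B (√(4 * (p : ℝ) - (t : ℝ) ^ 2)) hX1 hB hy1 hy3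
    have e4 := wb_term p B t ht2 e1 e2 e3 hC₂
    refine e4.trans ?_
    have hpe : 1 ≤ (p : ℝ) ^ ε := Real.one_le_rpow hpR hε.le
    have hlog : log (√(4 * (p : ℝ) - (t : ℝ) ^ 2)) ≤ 1 + (p : ℝ) ^ ε * (1 / (2 * ε)) := by
      have f1 : log (√(4 * (p : ℝ) - (t : ℝ) ^ 2)) ≤ log (2 * √(p : ℝ)) :=
        Real.log_le_log (by linarith) hy2
      have f2 : log (2 * √(p : ℝ)) = log 2 + log p / 2 := by
        rw [Real.log_mul (by norm_num) (by positivity), Real.log_sqrt hpR0.le]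
      have f3 : log (p : ℝ) ≤ (p : ℝ) ^ ε / ε := Real.log_le_rpow_div hpR0.le hε
      have f4 := Real.log_two_lt_d9
      have f5 : (p : ℝ) ^ ε * (1 / (2 * ε)) = (p : ℝ) ^ ε / ε / 2 := by field_simp
      rw [f5]
      linarith
    have g1 : C₂ * (1 + log (√(4 * (p : ℝ) - (t : ℝ) ^ 2))) ≤
        C₂ * ((2 + 1 / (2 * ε)) * (p : ℝ) ^ ε) := by
      refine mul_le_mul_of_nonneg_left ?_ hC₂.le
      nlinarith
    have g2 : 1 + C₁ + C₂ * C₄ ≤ (1 + C₁ + C₂ * C₄) * (p : ℝ) ^ ε := by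
      have : 0 ≤ 1 + C₁ + C₂ * C₄ := by positivity
      nlinarith
    rw [hD]
    nlinarith
  -- summation
  have hsum2 : |∑ t ∈ F, (hh k t.natAbs : ℝ) - Es {t : ℤ | 2 * √(p : ℝ) * cos (π * θ) < t} B p -
      (∑ t ∈ F, √(4 * (p : ℝ) - (t : ℝ) ^ 2)) / π| ≤ 5 * √(p : ℝ) * (D * (p : ℝ) ^ ε) := by
    have hEs : Es {t : ℤ | 2 * √(p : ℝ) * cos (π * θ) < t} B p =
        ∑ t ∈ F, ∑ a ∈ Icc 1 B, ((rho a t p : ℝ) - (Nat.totient a : ℝ) / a) *
      Om (a / √(4 * (p : ℝ) - (t : ℝ) ^ 2)) := by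
      unfold Es
      rw [sum_comm]
      refine sum_congr ?_ fun _ _ => rfl
      rw [hF]
      ext t
      simp only [mem_filter, Set.mem_ofPred_eq]
    rw [hEs, sum_div, ← sum_sub_distrib, ← sum_sub_distrib]
    refine (abs_sum_le_sum_abs _ _).trans ?_
    refine (sum_le_sum hterm).trans ?_
    rw [sum_const, nsmul_eq_mul]
    refine mul_le_mul_of_nonneg_right ?_ (by positivity)
    refine le_trans ?_ (wb_card p hp0)
    exact_mod_cast card_le_card (filter_subset _ _)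
  have hsum3 := h₃ p hp0 θ hθ0 hθ1
  rw [← hF] at hsum3
  -- conclusion
  have hst := wb_st hθ0 hθ1
  set st : ℝ := θ - sin (2 * π * θ) / (2 * π) with hstd
  have hsum4 : |(∑ t ∈ F, √(4 * (p : ℝ) - (t : ℝ) ^ 2)) / π - 2 * p * st| ≤ C₃ * √(p : ℝ) := by
    have f1 : (∑ t ∈ F, √(4 * (p : ℝ) - (t : ℝ) ^ 2)) / π - 2 * p * st =
        (∑ t ∈ F, √(4 * (p : ℝ) - (t : ℝ) ^ 2) - π * (2 * p * st)) / π := by
      field_simp
    rw [f1, abs_div, abs_of_pos hpi, div_le_iff₀ hpi]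
    have f2 := Real.pi_gt_three
    have f3 : 0 ≤ C₃ * √(p : ℝ) := by positivity
    nlinarith
  unfold Pool.Agent.H11.DEU.W
  rw [← hp, hst]
  set T : ℝ := ∑ t ∈ Pool.Agent.H11.DEU.trSet p (Set.Ico 0 θ), (hh k t.natAbs : ℝ) with hT
  set E : ℝ := Es {t : ℤ | 2 * √(p : ℝ) * cos (π * θ) < t} B p with hE
  have hfin : |T - E - 2 * p * st| ≤ M + 5 * √(p : ℝ) * (D * (p : ℝ) ^ ε) + C₃ * √(p : ℝ) :=
    wb_tri hsum1 hsum2 hsum4
  have hform : T / (2 * (p : ℝ)) - st - 1 / (2 * (p : ℝ)) * E =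
      (T - E - 2 * p * st) / (2 * p) := by
    field_simp
    ring
  rw [hform, abs_div, abs_of_pos (by positivity : (0 : ℝ) < 2 * p), div_le_iff₀ (by positivity)]
  refine hfin.trans ?_
  have hpow : (p : ℝ) ^ (ε - 1 / 2) * (p : ℝ) = √(p : ℝ) * (p : ℝ) ^ ε := by
    rw [← Real.rpow_add_one hpR0.ne', Real.sqrt_eq_rpow, ← Real.rpow_add hpR0]
    congr 1; ring
  exact wb_last hM0 hD0.le hC₃.le (Real.one_le_rpow hpR hε.le)
    (by rw [Real.one_le_sqrt]; exact hpR) hpow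

end Pool.Agent.DEU
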